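import Pool.Agent.W_7d29a1_PK.DefsPK2

/-!
The KPZ relation at one tilt and one velocity for the lower exponents: definitions and frozen
statements of the leaves (helper5).
-/

namespace Pool.Agent.W_7d29a1_PK

open MeasureTheory ProbabilityTheory Filter Topology Pool.Agent.W_MP_7d29a1_pr
  Pool.Agent.W_7d29a1_h46 Pool.Agent.W_7d29a1_h46u Pool.Agent.W_7d29a1_D2
  Pool.Agent.W_7d29a1_D2.B35 Pool.Agent.W_7d29a1_Q29 Pool.Agent.W_7d29a1_R34
  Pool.Agent.W_7d29a1_SP Pool.Agent.W_7d29a1_V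

/-- The set in the definition of the lower fluctuation exponent. -/
def chiSetLo {Ω : Type*} [MeasurableSpace Ω] (μ : Measure Ω) {d : ℕ} (β : ℝ)
    (ω : ℕ × Site d → Ω → ℝ) (h : Vec d) : Set ℝ :=
  {x | 0 < x ∧ ∃ q : ℕ, 1 ≤ q ∧ ∀ᶠ n : ℕ in atTop, (n : ℝ) ^ (x * q) ≤
    ∫ y, |Real.log (Zn β h (fun p => ω p y) n) -
      ∫ z, Real.log (Zn β h (fun p => ω p z) n) ∂μ| ^ q ∂μ}

/-- The lower fluctuation exponent at the tilt `h`: the supremum of the `x > 0` such that, for some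
`q ≥ 1`, the `q`-th central moment of `log Z_n(h)` is at least `n ^ (q x)` for all large `n`
(`0` if there is none). -/
noncomputable def chiLo {Ω : Type*} [MeasurableSpace Ω] (μ : Measure Ω) {d : ℕ} (β : ℝ)
    (ω : ℕ × Site d → Ω → ℝ) (h : Vec d) : ℝ := sSup (chiSetLo μ β ω h)

/-- The set in the definition of the lower wandering exponent. -/
def nuSetLo {Ω : Type*} [MeasurableSpace Ω] (μ : Measure Ω) {d : ℕ} (β : ℝ)
    (ω : ℕ × Site d → Ω → ℝ) (h v : Vec d) : Set ℝ :=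
  {a | 0 < a ∧ ∃ q : ℕ, ∀ᶠ N : ℕ in atTop, ∃ n : ℕ, n ≤ N ∧ (N : ℝ) ^ (-(q : ℝ)) ≤
    ∫ x, (1 - PolT β h (fun p => ω p x) (tube d n v ((N : ℝ) ^ a))) ∂μ}

/-- The lower wandering exponent at the tilt `h` and the velocity `v`: the supremum of the `a > 0` such
that, for some `q` and all large `N`, the expected polymer probability of leaving the tube of radius
`N ^ a` is at least `N ^ (-q)` for some length `n ≤ N` (`0` if there is none). -/
noncomputable def nuLo {Ω : Type*} [MeasurableSpace Ω] (μ : Measure Ω) {d : ℕ} (β : ℝ)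
    (ω : ℕ × Site d → Ω → ℝ) (h v : Vec d) : ℝ := sSup (nuSetLo μ β ω h v)

/-- The condition of `chiSetLo` in the model `law d ρ`. -/
def FmL {d : ℕ} (ρ : Measure ℝ) (β : ℝ) (h : Vec d) (x : ℝ) : Prop :=
  ∃ q : ℕ, 1 ≤ q ∧ ∀ᶠ n : ℕ in atTop,
    (n : ℝ) ^ (x * q) ≤ ∫ η, |X β h η n - A ρ β h n| ^ q ∂(law d ρ)

/-- The condition of `nuSetLo` in the model `law d ρ`. -/
def EtL {d : ℕ} (ρ : Measure ℝ) (β : ℝ) (h v : Vec d) (a : ℝ) : Prop :=
  ∃ q : ℕ, ∀ᶠ N : ℕ in atTop, ∃ n : ℕ, n ≤ N ∧ (N : ℝ) ^ (-(q : ℝ)) ≤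
    ∫ η, (1 - PolT β h η (tube d n v ((N : ℝ) ^ a))) ∂(law d ρ)

/-- Luck of size `N ^ y` at all large lengths; nothing is asked if `y = 0`. -/
def LuL {d : ℕ} (ρ : Measure ℝ) (β : ℝ) (h : Vec d) (y : ℝ) : Prop :=
  y = 0 ∨ ∃ q : ℝ, 0 < q ∧ ∃ N₀ : ℕ, ∀ N : ℕ, N₀ ≤ N →
    (N : ℝ) ^ (-q) ≤ (law d ρ).real {η | N * lam ρ β h + (N : ℝ) ^ y ≤ X β h η N}

/-- All the free energies up to the length `N` are within `N ^ y` of `l * lam`. -/
def GdL {d : ℕ} (ρ : Measure ℝ) (β : ℝ) (h : Vec d) (y q : ℝ) (N : ℕ) : Prop :=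
  ∀ l : ℕ, l ≤ N →
    (law d ρ).real {η | (N : ℝ) ^ y < |X β h η l - l * lam ρ β h|} ≤ (N : ℝ) ^ (-q)

section Leaves

variable (d : ℕ) (ρ : Measure ℝ) (β : ℝ)

/-- MOML (from LowPK, MeanPK, AmpPK; as MomV): a large moment at all large lengths gives luck at all
large lengths. -/
def MomL : Prop := ∀ (h : Vec d) (x y : ℝ), 0 < y → y < x → FmL ρ β h x → LuL ρ β h y

/-- LOWL (from StpPK, TailPK; as `M83.core`): the exit, at all large scales. -/
def LowL : Prop := ∀ (h v : Vec d) (p a y : ℝ), 1 ≤ p → 0 < a → 0 ≤ y → LoA (lam ρ β) h v p →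
  LuL ρ β h y → p * a < 1 + (p - 1) * y → EtL ρ β h v a

/-- GOODL (from LowPK, UplPK, AmpPK): if the moments are not large, then at infinitely many scales
all the free energies up to the scale are within `N ^ y`. -/
def GoodL : Prop := ∀ (h : Vec d) (x y : ℝ), 0 < x → x < y → ¬ FmL ρ β h x → ∀ q : ℝ, 0 < q →
  ∀ N₀ : ℕ, ∃ N : ℕ, N₀ ≤ N ∧ GdL ρ β h y q N

/-- UPPL (scale by scale, as A34.far34, OH60, Half77, from the amplification of the half space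
masses): at a good scale the polymers of all the lengths up to the scale stay in the tube. -/
def UppL : Prop := ∀ (h v : Vec d) (p a y : ℝ), 1 < p → 0 < y → a < 1 → UpG (lam ρ β) h v p →
  1 + (p - 1) * y < p * a → ∀ q : ℕ, ∃ q' : ℝ, 0 < q' ∧ ∃ N₀ : ℕ, ∀ N : ℕ, N₀ ≤ N →
    GdL ρ β h y q' N → ∀ n : ℕ, n ≤ N →
      ∫ η, (1 - PolT β h η (tube d n v ((N : ℝ) ^ a))) ∂(law d ρ) < (N : ℝ) ^ (-(q : ℝ))

/-- THEOREM, first half (from MomL, LowL). -/
def LkLow : Prop := ∀ (h v : Vec d) (p a x : ℝ), 1 ≤ p → 0 < a → LoA (lam ρ β) h v p →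
  (x = 0 ∨ 0 < x ∧ FmL ρ β h x) → p * a < 1 + (p - 1) * x → EtL ρ β h v a

/-- THEOREM, second half (from GoodL, UppL). -/
def LkUp : Prop := ∀ (h v : Vec d) (p a x : ℝ), 1 < p → a < 1 → UpG (lam ρ β) h v p → 0 < x →
  ¬ FmL ρ β h x → EtL ρ β h v a → p * a ≤ 1 + (p - 1) * x

end Leaves

end Pool.Agent.W_7d29a1_PK
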