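import Pool.Agent.W_7d29a1_PK.OneS77
import Pool.Agent.W_7d29a1_PK.DefsLK5

/-!
THEOREM BL (helper34): a large lower wandering exponent forces a lower bound of the free energy.
Second text (helper77).
-/

set_option autoImplicit false

namespace Pool.Agent.W_7d29a1_PK

open MeasureTheory ProbabilityTheory Filter Topology Set Pool.Agent.W_MP_7d29a1_pr
  Pool.Agent.W_7d29a1_h46 Pool.Agent.W_7d29a1_h46u Pool.Agent.W_7d29a1_D2
  Pool.Agent.W_7d29a1_PK.Half77 Pool.Agent.W_7d29a1_PK.LK77 Pool.Agent.W_7d29a1_PK.Upp77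

variable {d : ℕ} {ρ : Measure ℝ} [IsProbabilityMeasure ρ] {β : ℝ}

/-- One good scale, one size of the tilt, all the lengths up to the scale. -/
theorem oneG77 (hd : 0 < d) (hρ : EM ρ) (hE : AmpE ρ β d) (h v : Vec d) {y : ℝ} (hy : 0 < y)
    (q : ℕ) : ∃ q' : ℝ, 0 < q' ∧ ∃ N₀ : ℕ, ∀ N : ℕ, N₀ ≤ N → GdL ρ β h y q' N →
      ∀ t w B : ℝ, 0 < t → 0 ≤ B → (∀ r : Vec d, ‖r‖ = t → gap (lam ρ β) h v r ≤ B) →
      N * B + 13 * (N : ℝ) ^ y ≤ t * w → ∀ n : ℕ, n ≤ N →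
      ∫ η, (1 - PolT β h η (tube d n v (d * w))) ∂(law d ρ) < (N : ℝ) ^ (-(q : ℝ)) := by
  have hd0 : (0 : ℝ) < d := by exact_mod_cast hd
  obtain ⟨q₁, hq₁⟩ : ∃ q₁ : ℝ, q₁ = q + d + 3 := ⟨_, rfl⟩
  have hq0 : (0 : ℝ) ≤ q := Nat.cast_nonneg q
  have hq₁0 : 0 < q₁ := by
    rw [hq₁]
    linarith
  obtain ⟨Q, HQ⟩ := halfS77 hd hρ hE h hy q₁
  obtain ⟨K, hK⟩ : ∃ K : ℝ, K = 2 * 3 ^ d + 1 + 8 * d := ⟨_, rfl⟩
  obtain ⟨N₀, hN₀⟩ := eventually_atTop.1 (HQ.and (ev_log2 hy q₁ hq₁0.le))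
  refine ⟨max Q q₁, lt_max_of_lt_right hq₁0, max (max N₀ 2) (⌈K⌉₊ + 1),
    fun N hN hG t w B ht hB hgap htw n hn => ?_⟩
  have hNN : N₀ ≤ N := ((le_max_left _ _).trans (le_max_left _ _)).trans hN
  have hN2 : 2 ≤ N := ((le_max_right _ _).trans (le_max_left _ _)).trans hN
  have hNK : K < N := by
    have h1 : ⌈K⌉₊ + 1 ≤ N := (le_max_right _ _).trans hN
    have h2 : ((⌈K⌉₊ + 1 : ℕ) : ℝ) ≤ N := by exact_mod_cast h1
    push_cast at h2
    linarith [Nat.le_ceil K]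
  have hN2' : (2 : ℝ) ≤ N := by exact_mod_cast hN2
  have hN1 : (1 : ℝ) ≤ N := by linarith
  have hNp : (0 : ℝ) < N := by linarith
  have hnN : (n : ℝ) ≤ N := by exact_mod_cast hn
  have hn0 : (0 : ℝ) ≤ n := Nat.cast_nonneg n
  obtain ⟨hhalf, hlog⟩ := hN₀ N hNN
  have hlogN : 0 ≤ Real.log N := Real.log_nonneg hN1
  have hNy : 10 ≤ (N : ℝ) ^ y := by
    have : 0 ≤ q₁ * (1 + Real.log N) := by positivity
    linarith
  have hup : ∀ l ≤ N, (law d ρ).real {η | l * lam ρ β h + 2 * (N : ℝ) ^ y ≤ X β h η l} ≤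
      (N : ℝ) ^ (-Q) := by
    intro l hl
    refine (measureReal_mono ?_).trans ((hG l hl).trans
      (Real.rpow_le_rpow_of_exponent_le hN1 (neg_le_neg (le_max_left _ _))))
    intro η (hη : l * lam ρ β h + 2 * (N : ℝ) ^ y ≤ X β h η l)
    show (N : ℝ) ^ y < |X β h η l - l * lam ρ β h|
    refine lt_of_lt_of_le ?_ (le_abs_self _)
    linarith
  have hgd : ∀ l ≤ N, (law d ρ).real {η | (N : ℝ) ^ y < |X β h η l - l * lam ρ β h|} ≤
      (N : ℝ) ^ (-q₁) := fun l hl =>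
    (hG l hl).trans (Real.rpow_le_rpow_of_exponent_le hN1 (neg_le_neg (le_max_right _ _)))
  have hh := hhalf hup
  obtain ⟨P, hP⟩ : ∃ P : ℝ, P = (N : ℝ) ^ (-q₁) := ⟨_, rfl⟩
  have hP0 : 0 < P := by
    rw [hP]
    exact Real.rpow_pos_of_pos hNp _
  obtain ⟨S1, hS1⟩ : ∃ S1 : ℕ × Site d → Set (Env d), S1 = fun m =>
      {η | (N : ℝ) ^ y < |X β h (sh m.1 m.2 η) (n - m.1) - ((n - m.1 : ℕ) : ℝ) * lam ρ β h|} :=
    ⟨_, rfl⟩
  obtain ⟨S2, hS2⟩ : ∃ S2 : ℕ × (Fin d × Bool) → Set (Env d), S2 = fun m =>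
      {η | Real.exp (m.1 * lam ρ β h - 11 * (N : ℝ) ^ y) <
        ZT β h η (Hn d m.1 m.1 (sg m.2.2 • (ej m.2.1 : Vec d)) (sg m.2.2 * v m.2.1) w)} :=
    ⟨_, rfl⟩
  obtain ⟨S3, hS3⟩ : ∃ S3 : Set (Env d), S3 =
      {η | (N : ℝ) ^ y < |X β h η n - n * lam ρ β h|} := ⟨_, rfl⟩
  have b1 : ∀ m ∈ (Finset.range (n + 1)) ×ˢ boxF d n, (law d ρ).real (S1 m) ≤ P := by
    intro m _
    have hmeas : MeasurableSet {η : Env d | (N : ℝ) ^ y <
        |X β h η (n - m.1) - ((n - m.1 : ℕ) : ℝ) * lam ρ β h|} :=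
      measurableSet_lt measurable_const ((measurable_X β h (n - m.1)).sub_const _).abs
    have h1 : (law d ρ).real (S1 m) = (law d ρ).real {η : Env d | (N : ℝ) ^ y <
        |X β h η (n - m.1) - ((n - m.1 : ℕ) : ℝ) * lam ρ β h|} := by
      rw [hS1]
      exact real_shift80 hmeas m.1 m.2
    rw [h1, hP]
    exact hgd (n - m.1) ((Nat.sub_le _ _).trans hn)
  have b2 : ∀ m ∈ (Finset.range (n + 1)) ×ˢ (Finset.univ : Finset (Fin d × Bool)),
      (law d ρ).real (S2 m) ≤ P := by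
    intro m hm
    have hm1 : m.1 ≤ N :=
      (Nat.lt_succ_iff.1 (Finset.mem_range.1 (Finset.mem_product.1 hm).1)).trans hn
    rw [hS2, hP]
    exact hh _ _ t w B ht hB (up_ray2 ht hgap m.2.1 m.2.2) htw m.1 hm1
  have b3 : (law d ρ).real S3 ≤ P := by
    rw [hS3, hP]
    exact hgd n hn
  obtain ⟨G, hGdef⟩ : ∃ G : Set (Env d), G =
      ((⋃ m ∈ (Finset.range (n + 1)) ×ˢ boxF d n, S1 m) ∪
        (⋃ m ∈ (Finset.range (n + 1)) ×ˢ (Finset.univ : Finset (Fin d × Bool)), S2 m) ∪ S3)ᶜ :=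
    ⟨_, rfl⟩
  have hGc : (law d ρ).real Gᶜ ≤ ((n : ℝ) + 1) * (2 * n + 1) ^ d * P +
      ((n : ℝ) + 1) * (2 * d) * P + P := by
    rw [hGdef, compl_compl]
    refine (measureReal_union_le _ _).trans (add_le_add
      ((measureReal_union_le _ _).trans (add_le_add ?_ ?_)) b3)
    · refine (measureReal_biUnion_finset_le _ _).trans ((Finset.sum_le_sum b1).trans
        (le_of_eq ?_))
      rw [Finset.sum_const, Finset.card_product, Finset.card_range, card_boxF, nsmul_eq_mul]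
      push_cast
      ring
    · refine (measureReal_biUnion_finset_le _ _).trans ((Finset.sum_le_sum b2).trans
        (le_of_eq ?_))
      rw [Finset.sum_const, Finset.card_product, Finset.card_range, nsmul_eq_mul,
        Finset.card_univ, Fintype.card_prod, Fintype.card_fin, Fintype.card_bool]
      push_cast
      ring
  have hexp : Real.exp (-(9 * (N : ℝ) ^ y)) ≤ P := by
    have h1 : P = Real.exp (-(q₁ * Real.log N)) := by
      rw [hP, Real.rpow_def_of_pos hNp]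
      congr 1
      ring
    rw [h1]
    refine Real.exp_le_exp.2 (neg_le_neg ?_)
    nlinarith
  have hgood : ∀ η ∈ G, 1 - PolT β h η (tube d n v (d * w)) ≤
      ((n : ℝ) + 1) * (2 * d) * P := by
    intro η hη
    rw [hGdef, mem_compl_iff, mem_union, mem_union, not_or, not_or, mem_iUnion₂,
      mem_iUnion₂] at hη
    obtain ⟨⟨g1, g2⟩, g3⟩ := hη
    have hZn : 0 < Z β h η n := Z_pos hd β h η n
    have hXn : n * lam ρ β h - (N : ℝ) ^ y ≤ X β h η n := by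
      have h1 : ¬ (N : ℝ) ^ y < |X β h η n - n * lam ρ β h| := by
        intro h2
        apply g3
        rw [hS3]
        exact h2
      have h2 := (abs_le.1 (not_lt.1 h1)).1
      linarith
    have hfar : ∀ i ≤ n, ∀ k : Fin d × Bool,
        ZT β h η (Hn d n i (sg k.2 • (ej k.1 : Vec d)) (sg k.2 * v k.1) w) / Z β h η n ≤
          P := by
      intro i hi k
      have hi' : i ∈ Finset.range (n + 1) := Finset.mem_range.2 (Nat.lt_succ_iff.2 hi)
      have hM : ∀ z ∈ boxF d i, Z β h (sh i z η) (n - i) ≤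
          Real.exp (((n - i : ℕ) : ℝ) * lam ρ β h + (N : ℝ) ^ y) := by
        intro z hz
        have h1 : ¬ (N : ℝ) ^ y <
            |X β h (sh i z η) (n - i) - ((n - i : ℕ) : ℝ) * lam ρ β h| := by
          intro h2
          refine g1 ⟨(i, z), Finset.mem_product.2 ⟨hi', TubV_box hi hz⟩, ?_⟩
          rw [hS1]
          exact h2
        have h2 := (abs_le.1 (not_lt.1 h1)).2
        rw [TubV_exp hd]
        exact Real.exp_le_exp.2 (by linarith)
      have h1 := hn_le β h (sg k.2 • (ej k.1 : Vec d)) η hi (sg k.2 * v k.1) w hM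
      have h2 : ZT β h η (Hn d i i (sg k.2 • (ej k.1 : Vec d)) (sg k.2 * v k.1) w) ≤
          Real.exp (i * lam ρ β h - 11 * (N : ℝ) ^ y) := by
        by_contra hc
        refine g2 ⟨(i, k), Finset.mem_product.2 ⟨hi', Finset.mem_univ _⟩, ?_⟩
        rw [hS2]
        exact not_le.1 hc
      refine le_trans ?_ hexp
      rw [div_le_iff₀ hZn]
      refine h1.trans ((mul_le_mul_of_nonneg_right h2 (Real.exp_pos _).le).trans ?_)
      rw [TubV_exp hd, ← Real.exp_add, ← Real.exp_add]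
      refine Real.exp_le_exp.2 ?_
      have h3 : ((n - i : ℕ) : ℝ) = n - i := by
        rw [Nat.cast_sub hi]
      rw [h3]
      nlinarith
    refine (one_sub_le hd β h η n v (r := d * w) one_pos).trans ?_
    have h5 : ∀ i ∈ Finset.range (n + 1), ∑ j : Fin d,
        (Far β h η n i j v 1 (d * w / d) + Far β h η n i j v (-1) (d * w / d)) ≤
        2 * d * P := by
      intro i hi
      have hi' : i ≤ n := Nat.lt_succ_iff.1 (Finset.mem_range.1 hi)
      have h6 : ∀ j ∈ (Finset.univ : Finset (Fin d)),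
          Far β h η n i j v 1 (d * w / d) + Far β h η n i j v (-1) (d * w / d) ≤
            2 * P := by
        intro j _
        have e : (d : ℝ) * w / d = w := by
          field_simp
        rw [e]
        have a1 := far_eq β h v η n i j true w
        have a2 := far_eq β h v η n i j false w
        have c1 := hfar i hi' (j, true)
        have c2 := hfar i hi' (j, false)
        simp only at c1 c2
        rw [← a1] at c1
        rw [← a2] at c2
        have s1 : sg true = 1 := by simp [sg]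
        have s2 : sg false = -1 := by simp [sg]
        rw [s1] at c1
        rw [s2] at c2
        linarith
      refine (Finset.sum_le_sum h6).trans (le_of_eq ?_)
      rw [Finset.sum_const, Finset.card_univ, Fintype.card_fin, nsmul_eq_mul]
      ring
    refine (Finset.sum_le_sum h5).trans (le_of_eq ?_)
    rw [Finset.sum_const, Finset.card_range, nsmul_eq_mul]
    push_cast
    ring
  have hmain := TubW_split (μ := law d ρ)
    (f := fun η => 1 - PolT β h η (tube d n v (d * w)))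
    (fun η => by
      have := PolT_nonneg β h η (tube d n v (d * w))
      linarith)
    (G := G) (b := ((n : ℝ) + 1) * (2 * d) * P) (by positivity) hgood
    (fun η => by
      have := PolT_le_one β h η (tube d n v (d * w))
      linarith)
  refine lt_of_le_of_lt (hmain.trans (add_le_add hGc le_rfl)) ?_
  have e4 : (n : ℝ) + 1 ≤ 2 * N := by linarith
  have e5 : (2 * (n : ℝ) + 1) ^ d ≤ 3 ^ d * (N : ℝ) ^ d := by
    rw [← mul_pow]
    exact pow_le_pow_left₀ (by positivity) (by linarith) d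
  have e6 : (1 : ℝ) ≤ (N : ℝ) ^ d := one_le_pow₀ hN1
  have e7 : ((n : ℝ) + 1) * (2 * n + 1) ^ d ≤ 2 * 3 ^ d * ((N : ℝ) ^ d * N) := by
    have := mul_le_mul e4 e5 (by positivity) (by positivity : (0 : ℝ) ≤ 2 * N)
    linarith
  have e8 : (N : ℝ) ≤ (N : ℝ) ^ d * N := le_mul_of_one_le_left hNp.le e6
  have e9 : ((n : ℝ) + 1) * (2 * d) ≤ 4 * d * ((N : ℝ) ^ d * N) := by
    have h1 : ((n : ℝ) + 1) * (2 * d) ≤ 2 * N * (2 * d) :=
      mul_le_mul_of_nonneg_right e4 (by positivity)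
    have h2 : (4 * d) * (N : ℝ) ≤ 4 * d * ((N : ℝ) ^ d * N) :=
      mul_le_mul_of_nonneg_left e8 (by positivity)
    linarith
  have e10 : (1 : ℝ) ≤ (N : ℝ) ^ d * N := by linarith
  have e11 : ((n : ℝ) + 1) * (2 * n + 1) ^ d * P + ((n : ℝ) + 1) * (2 * d) * P + P +
      ((n : ℝ) + 1) * (2 * d) * P ≤ K * ((N : ℝ) ^ d * N) * P := by
    have h1 : ((n : ℝ) + 1) * (2 * n + 1) ^ d + ((n : ℝ) + 1) * (2 * d) + 1 +
        ((n : ℝ) + 1) * (2 * d) ≤ K * ((N : ℝ) ^ d * N) := by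
      rw [hK]
      linarith
    have h2 := mul_le_mul_of_nonneg_right h1 hP0.le
    linarith
  refine lt_of_le_of_lt e11 ?_
  have e12 : (N : ℝ) ^ d * N * P = (N : ℝ) ^ (-(q : ℝ)) * (N : ℝ) ^ (-(2 : ℝ)) := by
    rw [hP, ← Real.rpow_natCast]
    nth_rewrite 2 [← Real.rpow_one (N : ℝ)]
    rw [← Real.rpow_add hNp, ← Real.rpow_add hNp, ← Real.rpow_add hNp]
    congr 1
    rw [hq₁]
    ring
  have e13 : K * (N : ℝ) ^ (-(2 : ℝ)) < 1 := by
    rw [Real.rpow_neg hNp.le, Real.rpow_two, ← div_eq_mul_inv, div_lt_one (by positivity)]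
    nlinarith
  calc K * ((N : ℝ) ^ d * N) * P = K * (N : ℝ) ^ (-(2 : ℝ)) * (N : ℝ) ^ (-(q : ℝ)) := by
        rw [mul_assoc, e12]
        ring
    _ < 1 * (N : ℝ) ^ (-(q : ℝ)) :=
        mul_lt_mul_of_pos_right e13 (Real.rpow_pos_of_pos hNp _)
    _ = _ := one_mul _

/-- All large scales are good for an exponent above that of the moments. -/
lemma gd77 (hd : 0 < d) (hρ : EM ρ) {h : Vec d} {x y : ℝ} (hx : 0 < x) (hF : FlF ρ β h x)
    (hxy : x < y) (hy1 : y < 1) (q : ℝ) : ∃ N₀ : ℕ, ∀ N : ℕ, N₀ ≤ N → GdL ρ β h y q N := by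
  obtain ⟨q₂, hq₂⟩ := exists_nat_gt (q + 1)
  obtain ⟨C, hC, H⟩ := good hd hρ hx hF hxy hy1 q₂
  obtain ⟨N₀, hN₀⟩ := eventually_atTop.1 H
  refine ⟨max (max N₀ 1) ⌈C⌉₊, fun N hN l hl => ?_⟩
  have hNN : N₀ ≤ N := ((le_max_left _ _).trans (le_max_left _ _)).trans hN
  have hN1 : 1 ≤ N := ((le_max_right _ _).trans (le_max_left _ _)).trans hN
  have hNC : C ≤ N := by
    have h1 : ⌈C⌉₊ ≤ N := (le_max_right _ _).trans hN
    exact (Nat.le_ceil C).trans (by exact_mod_cast h1)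
  have hN1' : (1 : ℝ) ≤ N := by exact_mod_cast hN1
  have hNp : (0 : ℝ) < N := by linarith
  refine (measureReal_mono ?_).trans ((hN₀ N hNN).trans ?_)
  · intro η (hη : (N : ℝ) ^ y < |X β h η l - l * lam ρ β h|) hcon
    have h1 := hcon 0 (Nat.zero_le N) 0 (TubV_zero N) l hl
    rw [TubV_sh] at h1
    linarith
  · have h1 : (N : ℝ) * (N : ℝ) ^ (-(q₂ : ℝ)) ≤ (N : ℝ) ^ (-q) := by
      nth_rewrite 1 [← Real.rpow_one (N : ℝ)]
      rw [← Real.rpow_add hNp]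
      exact Real.rpow_le_rpow_of_exponent_le hN1' (by linarith)
    exact (mul_le_mul_of_nonneg_right hNC (Real.rpow_nonneg hNp.le _)).trans h1

/-- **THEOREM BL** in the model. -/
theorem bl77 (hd : 0 < d) (hρ : EM ρ) (hE : AmpE ρ β d) {h v : Vec d} {p a x : ℝ}
    (hp : 1 < p) (hx : 0 < x) (hx1 : x < 1) (hF : FlF ρ β h x) (hEt : EtL ρ β h v a)
    (hax : 1 + (p - 1) * x < p * a) : LoA (lam ρ β) h v p := by
  have hd0 : (0 : ℝ) < d := by exact_mod_cast hd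
  by_contra hcon
  unfold LoA at hcon
  push Not at hcon
  obtain ⟨q, hq⟩ := hEt
  -- the exponents
  obtain ⟨u, hxu, hu1, hua⟩ : ∃ u : ℝ, x < u ∧ u < 1 ∧ 1 + (p - 1) * u < p * a := by
    have h1 : x < (p * a - 1) / (p - 1) := by
      rw [lt_div_iff₀ (by linarith)]
      linarith
    obtain ⟨u, hu1, hu2⟩ := exists_between (lt_min hx1 h1)
    refine ⟨u, hu1, hu2.trans_le (min_le_left _ _), ?_⟩
    have h2 := hu2.trans_le (min_le_right _ _)
    rw [lt_div_iff₀ (by linarith)] at h2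
    linarith
  obtain ⟨y, hxy, hyu⟩ := exists_between hxu
  have hy0 : 0 < y := hx.trans hxy
  obtain ⟨γ, hγ⟩ : ∃ γ : ℝ, γ = a - u := ⟨_, rfl⟩
  have hγ0 : 0 < γ := by
    rw [hγ]
    have h1 : p * u < p * a := by nlinarith
    have h2 := lt_of_mul_lt_mul_left h1 (by linarith)
    linarith
  have hγp : 1 - γ * p < u := by
    rw [hγ]
    nlinarith
  obtain ⟨q', -, N₁, H₁⟩ := oneG77 hd hρ hE h v hy0 q
  obtain ⟨N₂, H₂⟩ := gd77 hd hρ hx hF hxy (hyu.trans hu1) q'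
  obtain ⟨N₃, H₃⟩ := eventually_atTop.1 (hq.and
    ((ev_pow (B := (2 : ℝ) ^ (γ * p)) (c := 1 / (2 * d)) hγp (by positivity)).and
      (ev_pow (B := 13) (c := 1 / (2 * d)) hyu (by positivity))))
  obtain ⟨N₄, hN₄⟩ : ∃ N₄ : ℕ, N₄ = max (max N₁ N₂) (max N₃ 1) := ⟨_, rfl⟩
  have hN₄1 : 1 ≤ N₄ := by
    rw [hN₄]
    exact (le_max_right _ _).trans (le_max_right _ _)
  have hN₄' : (1 : ℝ) ≤ N₄ := by exact_mod_cast hN₄1
  obtain ⟨s, hs0, hsδ, hsg⟩ := hcon 1 one_pos ((N₄ : ℝ) ^ (-γ))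
    (Real.rpow_pos_of_pos (by linarith) _)
  have hs1 : s ≤ 1 := hsδ.trans (Real.rpow_le_one_of_one_le_of_nonpos hN₄' (by linarith))
  obtain ⟨T, hT⟩ : ∃ T : ℝ, T = s ^ (-(1 / γ)) := ⟨_, rfl⟩
  have hT0 : 0 < T := by
    rw [hT]
    exact Real.rpow_pos_of_pos hs0 _
  have hT4 : (N₄ : ℝ) ≤ T := by
    have h1 : ((N₄ : ℝ) ^ (-γ)) ^ (-(1 / γ)) ≤ s ^ (-(1 / γ)) :=
      Real.rpow_le_rpow_of_nonpos hs0 hsδ (by
        have : 0 < 1 / γ := by positivity
        linarith)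
    rw [← Real.rpow_mul (by linarith)] at h1
    have h2 : -γ * -(1 / γ) = 1 := by
      field_simp
    rw [h2, Real.rpow_one] at h1
    rw [hT]
    exact h1
  have hTs : T ^ (-γ) = s := by
    rw [hT, ← Real.rpow_mul hs0.le]
    have h2 : -(1 / γ) * -γ = 1 := by
      field_simp
    rw [h2, Real.rpow_one]
  obtain ⟨N, hN⟩ : ∃ N : ℕ, N = ⌈T⌉₊ := ⟨_, rfl⟩
  have hTN : T ≤ N := by
    rw [hN]
    exact Nat.le_ceil T
  have hN2T : (N : ℝ) ≤ 2 * T := by
    have h1 : (N : ℝ) < T + 1 := by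
      rw [hN]
      exact Nat.ceil_lt_add_one hT0.le
    linarith
  have hNN₄ : N₄ ≤ N := by
    have h1 : (N₄ : ℝ) ≤ N := hT4.trans hTN
    exact_mod_cast h1
  have hN11 : N₁ ≤ N := by
    refine le_trans ?_ hNN₄
    rw [hN₄]
    exact (le_max_left _ _).trans (le_max_left _ _)
  have hN12 : N₂ ≤ N := by
    refine le_trans ?_ hNN₄
    rw [hN₄]
    exact (le_max_right _ _).trans (le_max_left _ _)
  have hN13 : N₃ ≤ N := by
    refine le_trans ?_ hNN₄
    rw [hN₄]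
    exact (le_max_left _ _).trans (le_max_right _ _)
  have hNp : (0 : ℝ) < N := lt_of_lt_of_le hT0 hTN
  obtain ⟨⟨n, hnN, hexit⟩, hp1, hp2⟩ := H₃ N hN13
  -- `s` against `N`
  have hsN : (N : ℝ) ^ (-γ) ≤ s := by
    rw [← hTs]
    exact Real.rpow_le_rpow_of_nonpos hT0 hTN (by linarith)
  have hsN2 : s ≤ (2 : ℝ) ^ γ * (N : ℝ) ^ (-γ) := by
    rw [← hTs]
    have h1 : (2 * T) ^ (-γ) ≤ (N : ℝ) ^ (-γ) :=
      Real.rpow_le_rpow_of_nonpos hNp hN2T (by linarith)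
    rw [Real.mul_rpow two_pos.le hT0.le] at h1
    have h2 : (2 : ℝ) ^ γ * ((2 : ℝ) ^ (-γ) * T ^ (-γ)) = T ^ (-γ) := by
      rw [← mul_assoc, ← Real.rpow_add two_pos, add_neg_cancel, Real.rpow_zero, one_mul]
    calc T ^ (-γ) = (2 : ℝ) ^ γ * ((2 : ℝ) ^ (-γ) * T ^ (-γ)) := h2.symm
      _ ≤ (2 : ℝ) ^ γ * (N : ℝ) ^ (-γ) :=
          mul_le_mul_of_nonneg_left h1 (Real.rpow_nonneg two_pos.le _)
  obtain ⟨w, hw⟩ : ∃ w : ℝ, w = (N : ℝ) ^ a / d := ⟨_, rfl⟩
  have hdw : (d : ℝ) * w = (N : ℝ) ^ a := by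
    rw [hw]
    field_simp
  have hsw : (N : ℝ) ^ u / d ≤ s * w := by
    have h1 : (N : ℝ) ^ u = (N : ℝ) ^ (-γ) * (N : ℝ) ^ a := by
      rw [← Real.rpow_add hNp]
      congr 1
      rw [hγ]
      ring
    rw [h1, hw, mul_div_assoc]
    refine mul_le_mul_of_nonneg_right hsN ?_
    exact div_nonneg (Real.rpow_nonneg hNp.le _) hd0.le
  have hNB : N * s ^ p ≤ (2 : ℝ) ^ (γ * p) * (N : ℝ) ^ (1 - γ * p) := by
    have h1 : s ^ p ≤ ((2 : ℝ) ^ γ * (N : ℝ) ^ (-γ)) ^ p :=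
      Real.rpow_le_rpow hs0.le hsN2 (by linarith)
    rw [Real.mul_rpow (Real.rpow_nonneg two_pos.le _) (Real.rpow_nonneg hNp.le _),
      ← Real.rpow_mul two_pos.le, ← Real.rpow_mul hNp.le] at h1
    have h2 : (N : ℝ) ^ (1 - γ * p) = N * (N : ℝ) ^ (-γ * p) := by
      nth_rewrite 2 [← Real.rpow_one (N : ℝ)]
      rw [← Real.rpow_add hNp]
      congr 1
      ring
    rw [h2]
    have h3 := mul_le_mul_of_nonneg_left h1 hNp.le
    linarith
  have hfin : N * s ^ p + 13 * (N : ℝ) ^ y ≤ s * w := by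
    refine le_trans ?_ hsw
    have h1 : 1 / (2 * (d : ℝ)) * (N : ℝ) ^ u + 1 / (2 * (d : ℝ)) * (N : ℝ) ^ u =
        (N : ℝ) ^ u / d := by
      field_simp
      ring
    rw [← h1]
    exact add_le_add (hNB.trans hp1) hp2
  have key := H₁ N hN11 (H₂ N hN12) s w (s ^ p) hs0 (Real.rpow_nonneg hs0.le _)
    (fun r hr => by
      have h1 := hsg r hr
      rw [one_mul] at h1
      exact h1.le) hfin n hnN
  rw [hdw] at key
  linarith

/-- **THEOREM BL** in the model, every law. -/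
theorem blM77 (hd : 0 < d) (hρ : EM ρ) (hnc : ∀ c : ℝ, ρ {c} ≠ 1) (hβ : 0 < β) :
    ∀ (h v : Vec d) (p a x : ℝ), 1 < p → 0 < x → x < 1 → FlF ρ β h x → EtL ρ β h v a →
      1 + (p - 1) * x < p * a → LoA (lam ρ β) h v p :=
  fun _ _ _ _ _ hp hx hx1 hF hEt hax => bl77 hd hρ (ampEAll hρ hnc hβ) hp hx hx1 hF hEt hax

end Pool.Agent.W_7d29a1_PK
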