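import Pool.Agent.W_7d29a1_PK.Bon26

/-!
Theorem PK, second block: the letter B1 in the exponents (helper26). The theorems `bonY26` and
`bonX26` are in `Bon26.lean`.
-/

set_option autoImplicit false

namespace Pool.Agent.W_7d29a1_PK

open MeasureTheory ProbabilityTheory Filter Topology Pool.Agent.W_MP_7d29a1_pr
  Pool.Agent.W_7d29a1_h46 Pool.Agent.W_7d29a1_h46u Pool.Agent.W_7d29a1_D2
  Pool.Agent.W_7d29a1_D2.B35 Pool.Agent.W_7d29a1_Q29 Pool.Agent.W_7d29a1_R34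
  Pool.Agent.W_7d29a1_SP Pool.Agent.W_7d29a1_V

variable {d : ℕ} {ρ : Measure ℝ} [IsProbabilityMeasure ρ] {β : ℝ}

/-- The letter B1: `p ν* < 1 + (p - 1) χ` gives the upper bound of order `p`, `χ = 0` included. -/
theorem bonB26 (hd : 0 < d) (hρ : EM ρ) (hS : StpPK d ρ β) (hU : UplPK d ρ β)
    (hT : TailPK d ρ β) (hM : MomV d ρ β) (h v : Vec d) (p : ℝ) (hp : 1 ≤ p)
    (hne : {a : ℝ | 0 < a ∧ TbF ρ β h v a}.Nonempty)
    (hpa : p * sInf {a : ℝ | 0 < a ∧ TbF ρ β h v a} <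
      1 + (p - 1) * sSup {x : ℝ | 0 < x ∧ ∀ᶠ n : ℕ in atTop, (n : ℝ) ^ (2 * x) ≤ Va ρ β h n}) :
    UpG (lam ρ β) h v p := by
  have hp0 : 0 < p := by linarith
  obtain ⟨S, hS0⟩ : ∃ S : Set ℝ, S = {x : ℝ | 0 < x ∧
      ∀ᶠ n : ℕ in atTop, (n : ℝ) ^ (2 * x) ≤ Va ρ β h n} := ⟨_, rfl⟩
  obtain ⟨B, hB0⟩ : ∃ B : Set ℝ, B = {a : ℝ | 0 < a ∧ TbF ρ β h v a} := ⟨_, rfl⟩
  rw [← hS0, ← hB0] at hpa
  rw [← hB0] at hne
  -- an exponent `x` near the supremum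
  obtain ⟨x, hx0, hxV, hxp⟩ : ∃ x : ℝ, 0 ≤ x ∧
      (x = 0 ∨ ∀ᶠ n : ℕ in atTop, (n : ℝ) ^ (2 * x) ≤ Va ρ β h n) ∧
      p * sInf B < 1 + (p - 1) * x := by
    rcases S.eq_empty_or_nonempty with hE | hE
    · refine ⟨0, le_rfl, Or.inl rfl, ?_⟩
      rw [hE, Real.sSup_empty] at hpa
      exact hpa
    rcases hp.eq_or_lt with h1 | h1
    · obtain ⟨x, hx⟩ := hE
      rw [hS0] at hx
      refine ⟨x, hx.1.le, Or.inr hx.2, ?_⟩
      rw [← h1] at hpa ⊢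
      simpa using hpa
    · have h2 : (p * sInf B - 1) / (p - 1) < sSup S := by
        rw [div_lt_iff₀ (by linarith)]
        linarith
      obtain ⟨x, hx, hx2⟩ := exists_lt_of_lt_csSup hE h2
      rw [hS0] at hx
      refine ⟨x, hx.1.le, Or.inr hx.2, ?_⟩
      rw [div_lt_iff₀ (by linarith)] at hx2
      linarith
  have h3 : sInf B < (1 + (p - 1) * x) / p := by
    rw [lt_div_iff₀ hp0]
    linarith
  obtain ⟨a, ha, ha2⟩ := exists_lt_of_csInf_lt hne h3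
  rw [hB0] at ha
  refine bonX26 hd hρ hS hU hT hM h v p a x hp ha.2 hx0 hxV ?_
  rw [lt_div_iff₀ hp0] at ha2
  linarith

end Pool.Agent.W_7d29a1_PK
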