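import Pool.Agent.W_7d29a1_PK.DefsLK5
import Pool.Agent.W_7d29a1_D2.TrF53

/-!
The KPZ relation at one tilt and one velocity for the lower exponents: the passage from the model
to the exponents, and the place of the lower exponents among the others (helper63).
-/

namespace Pool.Agent.W_7d29a1_PK

open MeasureTheory ProbabilityTheory Filter Topology Pool.Agent.W_MP_7d29a1_pr
  Pool.Agent.W_7d29a1_h46 Pool.Agent.W_7d29a1_h46u Pool.Agent.W_7d29a1_D2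

namespace L63

section Model

variable {d : ℕ} {ρ : Measure ℝ} {β : ℝ}

lemma int63 [IsProbabilityMeasure ρ] (β : ℝ) (h v : Vec d) (n : ℕ) (r : ℝ) :
    Integrable (fun η => 1 - PolT β h η (tube d n v r)) (law d ρ) := by
  refine Integrable.of_bound ((measurable_PolT β h _).const_sub 1).aestronglyMeasurable 1
    (Eventually.of_forall fun η => ?_)
  rw [Real.norm_eq_abs, abs_of_nonneg (sub_nonneg.2 (PolT_le_one β h _ _))]
  exact sub_le_self _ (PolT_nonneg β h _ _)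

lemma tube_sub63 (n : ℕ) (v : Vec d) {r r' : ℝ} (hr : r ≤ r') : tube d n v r ⊆ tube d n v r' :=
  fun _ hs i hi => (hs i hi).trans hr

lemma tub_anti63 [IsProbabilityMeasure ρ] (h v : Vec d) (n : ℕ) {r r' : ℝ} (hr : r ≤ r') :
    ∫ η, (1 - PolT β h η (tube d n v r')) ∂(law d ρ) ≤
      ∫ η, (1 - PolT β h η (tube d n v r)) ∂(law d ρ) :=
  integral_mono (int63 β h v n r') (int63 β h v n r)
    fun η => sub_le_sub_left (PolT_mono β h η (tube_sub63 n v hr)) 1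

lemma tub_zero63 (hd : 0 < d) (h v : Vec d) (n : ℕ) {r : ℝ} (hr : n * (1 + ‖v‖) ≤ r) :
    ∫ η, (1 - PolT β h η (tube d n v r)) ∂(law d ρ) = 0 := by
  rw [tube_univ v hr]
  simp only [PolT_univ hd, sub_self, integral_zero]

/-- The condition of the lower wandering exponent is antitone. -/
theorem EtL_anti63 [IsProbabilityMeasure ρ] {h v : Vec d} {a b : ℝ} (hab : b ≤ a)
    (hE : EtL ρ β h v a) : EtL ρ β h v b := by
  obtain ⟨q, hq⟩ := hE
  refine ⟨q, ?_⟩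
  filter_upwards [hq, eventually_ge_atTop 1] with N hN hN1
  obtain ⟨n, hn, hEx⟩ := hN
  have h1 : (1 : ℝ) ≤ N := by exact_mod_cast hN1
  exact ⟨n, hn, hEx.trans (tub_anti63 h v n (Real.rpow_le_rpow_of_exponent_le h1 hab))⟩

/-- The lower wandering exponent is at most one. -/
theorem EtL_le_one63 (hd : 0 < d) {h v : Vec d} {a : ℝ}
    (hE : EtL ρ β h v a) : a ≤ 1 := by
  by_contra hcon
  push Not at hcon
  obtain ⟨q, hq⟩ := hE
  have h1 : Tendsto (fun N : ℕ => (N : ℝ) ^ (a - 1)) atTop atTop :=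
    (tendsto_rpow_atTop (by linarith)).comp tendsto_natCast_atTop_atTop
  obtain ⟨N, hN, hN1, hN2⟩ :=
    (hq.and ((eventually_ge_atTop 1).and (h1.eventually_ge_atTop (1 + ‖v‖)))).exists
  obtain ⟨n, hn, hEx⟩ := hN
  have hN0 : (0 : ℝ) < N := by exact_mod_cast hN1
  have hnN : (n : ℝ) ≤ N := by exact_mod_cast hn
  have h2 : (n : ℝ) * (1 + ‖v‖) ≤ (N : ℝ) ^ a := by
    have h3 : (N : ℝ) ^ a = N * (N : ℝ) ^ (a - 1) := by
      rw [← Real.rpow_one_add' hN0.le (by linarith)]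
      congr 1
      ring
    rw [h3]
    exact mul_le_mul hnN hN2 (by positivity) hN0.le
  rw [tub_zero63 hd h v n h2] at hEx
  exact absurd (Real.rpow_pos_of_pos hN0 (-(q : ℝ))) (not_lt.2 hEx)

/-- The lower wandering exponent is at most the upper one. -/
theorem EtL_le_TbF63 [IsProbabilityMeasure ρ] (hd : 0 < d) {h v : Vec d} {a b : ℝ} (ha : 0 < a)
    (hb : 0 < b) (hE : EtL ρ β h v a) (hT : TbF ρ β h v b) : a ≤ b := by
  by_contra hcon
  push Not at hcon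
  obtain ⟨q, hq⟩ := hE
  set Q : ℕ := ⌈((q : ℝ) + 1) / a⌉₊ with hQ
  have hQa : (q : ℝ) + 1 ≤ a * Q := by
    have h1 : ((q : ℝ) + 1) / a ≤ Q := Nat.le_ceil _
    rw [div_le_iff₀ ha] at h1
    linarith
  obtain ⟨C, hC⟩ := hT Q
  set V : ℝ := 1 + ‖v‖ with hV
  have hV1 : 1 ≤ V := by rw [hV]; linarith [norm_nonneg v]
  have hV0 : 0 < V := by linarith
  have hlim : Tendsto (fun N : ℕ => (N : ℝ)) atTop atTop := tendsto_natCast_atTop_atTop
  obtain ⟨N, hN, hN1, hN2⟩ :=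
    (hq.and ((eventually_ge_atTop 1).and (hlim.eventually_gt_atTop (|C| * V ^ (Q : ℝ))))).exists
  obtain ⟨n, hn, hEx⟩ := hN
  have hN0 : (0 : ℝ) < N := by exact_mod_cast hN1
  have hN1' : (1 : ℝ) ≤ N := by exact_mod_cast hN1
  have hnN : (n : ℝ) ≤ N := by exact_mod_cast hn
  have hpos := Real.rpow_pos_of_pos hN0 (-(q : ℝ))
  rcases le_or_gt ((n : ℝ) * V) ((N : ℝ) ^ a) with hle | hgt
  · rw [tub_zero63 hd h v n hle] at hEx
    exact absurd hpos (not_lt.2 hEx)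
  have hNa : 0 < (N : ℝ) ^ a := Real.rpow_pos_of_pos hN0 a
  have hn0 : (0 : ℝ) < n := by
    by_contra hn0
    have : (n : ℝ) * V ≤ 0 := mul_nonpos_of_nonpos_of_nonneg (not_lt.1 hn0) hV0.le
    linarith
  have hn1 : 1 ≤ n := by
    have : 0 < n := by exact_mod_cast hn0
    omega
  have h1 : (n : ℝ) ^ b ≤ (N : ℝ) ^ a :=
    (Real.rpow_le_rpow hn0.le hnN hb.le).trans (Real.rpow_le_rpow_of_exponent_le hN1' hcon.le)
  have h2 := (hEx.trans (tub_anti63 h v n h1)).trans (hC n hn1)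
  -- `n ^ (-Q) ≤ V ^ Q N ^ (-a Q)`
  have h3 : (n : ℝ) ^ (-(Q : ℝ)) ≤ V ^ (Q : ℝ) * (N : ℝ) ^ (-(a * Q)) := by
    have h4 : (N : ℝ) ^ a / V ≤ n := by
      rw [div_le_iff₀ hV0]
      exact hgt.le
    have h5 : (n : ℝ) ^ (-(Q : ℝ)) ≤ ((N : ℝ) ^ a / V) ^ (-(Q : ℝ)) :=
      Real.rpow_le_rpow_of_nonpos (div_pos hNa hV0) h4 (by simp)
    refine h5.trans (le_of_eq ?_)
    rw [Real.rpow_neg (div_pos hNa hV0).le, Real.div_rpow hNa.le hV0.le, ← Real.rpow_mul hN0.le,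
      inv_div, Real.rpow_neg hN0.le]
    rfl
  have h6 : (N : ℝ) ^ (-(a * Q)) ≤ (N : ℝ) ^ (-(q : ℝ) - 1) :=
    Real.rpow_le_rpow_of_exponent_le hN1' (by linarith)
  have h7 : (N : ℝ) ^ (-(q : ℝ) - 1) = (N : ℝ) ^ (-(q : ℝ)) / N := by
    rw [Real.rpow_sub hN0, Real.rpow_one]
  have hVQ : 0 < V ^ (Q : ℝ) := Real.rpow_pos_of_pos hV0 _
  have h8 : C * (n : ℝ) ^ (-(Q : ℝ)) ≤ |C| * V ^ (Q : ℝ) * ((N : ℝ) ^ (-(q : ℝ)) / N) := by
    calc C * (n : ℝ) ^ (-(Q : ℝ)) ≤ |C| * (n : ℝ) ^ (-(Q : ℝ)) :=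
          mul_le_mul_of_nonneg_right (le_abs_self C) (Real.rpow_nonneg hn0.le _)
      _ ≤ |C| * (V ^ (Q : ℝ) * (N : ℝ) ^ (-(a * Q))) :=
          mul_le_mul_of_nonneg_left h3 (abs_nonneg C)
      _ ≤ |C| * (V ^ (Q : ℝ) * ((N : ℝ) ^ (-(q : ℝ)) / N)) := by
          rw [← h7]
          exact mul_le_mul_of_nonneg_left (mul_le_mul_of_nonneg_left h6 hVQ.le) (abs_nonneg C)
      _ = |C| * V ^ (Q : ℝ) * ((N : ℝ) ^ (-(q : ℝ)) / N) := by ring
  have h9 : |C| * V ^ (Q : ℝ) * ((N : ℝ) ^ (-(q : ℝ)) / N) < (N : ℝ) ^ (-(q : ℝ)) := by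
    rw [mul_div_assoc', div_lt_iff₀ hN0, mul_comm]
    exact mul_lt_mul_of_pos_left hN2 hpos
  linarith

/-- A lower exponent of the moments is at most an upper one. -/
theorem FmL_le_FlF63 {h : Vec d} {x y : ℝ} (hF : FmL ρ β h x) (hL : FlF ρ β h y) : x ≤ y := by
  by_contra hcon
  push Not at hcon
  obtain ⟨q, hq1, hq⟩ := hF
  obtain ⟨C, hC⟩ := hL q
  have hq0 : (0 : ℝ) < q := by exact_mod_cast hq1
  have h4 : Tendsto (fun n : ℕ => (n : ℝ) ^ ((x - y) * q)) atTop atTop :=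
    (tendsto_rpow_atTop (mul_pos (by linarith) hq0)).comp tendsto_natCast_atTop_atTop
  obtain ⟨n, hn, hn1, hn2⟩ :=
    (hq.and ((eventually_ge_atTop 1).and (h4.eventually_gt_atTop C))).exists
  have hn0 : (0 : ℝ) < n := by exact_mod_cast hn1
  have h5 := hn.trans (hC n hn1)
  have h6 : (n : ℝ) ^ (x * q) = (n : ℝ) ^ ((x - y) * q) * (n : ℝ) ^ (y * q) := by
    rw [← Real.rpow_add hn0]
    congr 1
    ring
  rw [h6] at h5
  have h7 := le_of_mul_le_mul_right h5 (Real.rpow_pos_of_pos hn0 _)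
  linarith

end Model

section Transfer

variable {d : ℕ} {Ω : Type*} [MeasurableSpace Ω] {μ : Measure Ω} [IsProbabilityMeasure μ]
  {ρ : Measure ℝ} [IsProbabilityMeasure ρ] {ω : ℕ × Site d → Ω → ℝ} {β : ℝ}

/-- Transfer of the moment condition. -/
theorem mem_chiSetLo63 (hd : 0 < d) (hω : IID μ ρ ω) (hρ : EM ρ) (h : Vec d) (x : ℝ) :
    x ∈ chiSetLo μ β ω h ↔ 0 < x ∧ FmL ρ β h x := by
  unfold chiSetLo FmL
  simp only [Set.mem_ofPred_eq, StrA_mom hd hω hρ]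

/-- Transfer of the tube condition. -/
theorem mem_nuSetLo63 (hω : IID μ ρ ω) (h v : Vec d) (a : ℝ) :
    a ∈ nuSetLo μ β ω h v ↔ 0 < a ∧ EtL ρ β h v a := by
  unfold nuSetLo EtL
  have e1 : ∀ n N : ℕ, ∫ y, (1 - PolT β h (fun p => ω p y) (tube d n v ((N : ℝ) ^ a))) ∂μ =
      ∫ η, (1 - PolT β h η (tube d n v ((N : ℝ) ^ a))) ∂(law d ρ) := fun n N =>
    StrA_int hω (F := fun η : Env d => 1 - PolT β h η (tube d n v ((N : ℝ) ^ a)))
      ((measurable_PolT β h _).const_sub 1)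
  simp only [Set.mem_ofPred_eq, e1]

omit [IsProbabilityMeasure μ] in
theorem chiLo_nonneg63 (h : Vec d) : 0 ≤ chiLo μ β ω h := Real.sSup_nonneg fun _ hx => hx.1.le

omit [IsProbabilityMeasure μ] in
theorem nuLo_nonneg63 (h v : Vec d) : 0 ≤ nuLo μ β ω h v := Real.sSup_nonneg fun _ hx => hx.1.le

theorem chiSetLo_le63 (hd : 0 < d) (hω : IID μ ρ ω) (hρ : EM ρ) (h : Vec d) {x y : ℝ}
    (hx : x ∈ chiSetLo μ β ω h) (hy : y ∈ chiSetF μ β ω h) : x ≤ y :=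
  FmL_le_FlF63 ((mem_chiSetLo63 hd hω hρ h x).1 hx).2 ((mem_chiSetF hd hω hρ h y).1 hy).2

theorem bdd_chiSetLo63 (hd : 0 < d) (hω : IID μ ρ ω) (hρ : EM ρ) (h : Vec d) :
    BddAbove (chiSetLo μ β ω h) :=
  ⟨1 / 2, fun _ hx => chiSetLo_le63 hd hω hρ h hx (half_mem_chiSetF hd hω hρ h)⟩

/-- **C3, moments.** -/
theorem chiLo_le_chiF63 (hd : 0 < d) (hω : IID μ ρ ω) (hρ : EM ρ) (h : Vec d) :
    chiLo μ β ω h ≤ chiF μ β ω h :=
  le_csInf ⟨1 / 2, half_mem_chiSetF hd hω hρ h⟩ fun y hy =>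
    Real.sSup_le (fun _ hx => chiSetLo_le63 hd hω hρ h hx hy) hy.1.le

/-- **C3, variance.** -/
theorem chiT_le_chiLo63 (hd : 0 < d) (hω : IID μ ρ ω) (hρ : EM ρ) (h : Vec d) :
    chiT μ β ω h ≤ chiLo μ β ω h := by
  unfold chiT
  refine Real.sSup_le ?_ (chiLo_nonneg63 h)
  rintro x ⟨hx0, hx⟩
  refine le_csSup (bdd_chiSetLo63 hd hω hρ h) ⟨hx0, 2, by norm_num, ?_⟩
  filter_upwards [hx] with n hn
  rw [variance_eq_integral (VarU_measurable β h n hω).aemeasurable] at hn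
  have h3 : x * ((2 : ℕ) : ℝ) = 2 * x := by
    push_cast
    ring
  simp only [sq_abs]
  rw [h3]
  exact hn

/-- The set of the lower wandering exponent is antitone. -/
theorem nuSetLo_anti63 (hω : IID μ ρ ω) (h v : Vec d) {a b : ℝ} (hb : 0 < b) (hab : b ≤ a)
    (ha : a ∈ nuSetLo μ β ω h v) : b ∈ nuSetLo μ β ω h v :=
  (mem_nuSetLo63 hω h v b).2 ⟨hb, EtL_anti63 hab ((mem_nuSetLo63 hω h v a).1 ha).2⟩

theorem nuSetLo_le_one63 (hd : 0 < d) (hω : IID μ ρ ω) (h v : Vec d) {a : ℝ}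
    (ha : a ∈ nuSetLo μ β ω h v) : a ≤ 1 := EtL_le_one63 hd ((mem_nuSetLo63 hω h v a).1 ha).2

theorem bdd_nuSetLo63 (hd : 0 < d) (hω : IID μ ρ ω) (h v : Vec d) :
    BddAbove (nuSetLo μ β ω h v) := ⟨1, fun _ ha => nuSetLo_le_one63 hd hω h v ha⟩

theorem nuLo_le_one63 (hd : 0 < d) (hω : IID μ ρ ω) (h v : Vec d) : nuLo μ β ω h v ≤ 1 :=
  Real.sSup_le (fun _ ha => nuSetLo_le_one63 hd hω h v ha) zero_le_one

/-- **C3, wandering.** -/
theorem nuLo_le_nuS63 (hd : 0 < d) (hω : IID μ ρ ω) (h v : Vec d) :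
    nuLo μ β ω h v ≤ nuS μ β ω h v :=
  le_csInf ⟨2, StrB_two_mem hd ω β h v⟩ fun b hb =>
    Real.sSup_le (fun a ha => EtL_le_TbF63 hd ((mem_nuSetLo63 hω h v a).1 ha).1 hb.1
      ((mem_nuSetLo63 hω h v a).1 ha).2 ((mem_nuSetS hω h v b).1 hb).2) hb.1.le

/-- **C2.** -/
theorem lkC2_63 (hd : 0 < d) (hω : IID μ ρ ω) (hρ : EM ρ) (hL : LkLow d ρ β) {h v : Vec d}
    {p : ℝ} (hp : 1 ≤ p) (hLo : LoA (lam ρ β) h v p) :
    1 + (p - 1) * chiLo μ β ω h ≤ p * nuLo μ β ω h v := by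
  have hp0 : 0 < p := by linarith
  have hν := nuLo_nonneg63 (μ := μ) (β := β) (ω := ω) h v
  have key : ∀ x : ℝ, 0 ≤ x → (x = 0 ∨ 0 < x ∧ FmL ρ β h x) →
      1 + (p - 1) * x ≤ p * nuLo μ β ω h v := by
    intro x hx0 hx
    by_contra hcon
    push Not at hcon
    have h1 : nuLo μ β ω h v < (1 + (p - 1) * x) / p := by
      rw [lt_div_iff₀ hp0]
      linarith
    obtain ⟨a, ha1, ha2⟩ := exists_between h1
    rw [lt_div_iff₀ hp0] at ha2
    have ha0 : 0 < a := hν.trans_lt ha1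
    have h2 := hL h v p a x hp ha0 hLo hx (by linarith)
    exact absurd (le_csSup (bdd_nuSetLo63 hd hω h v) ((mem_nuSetLo63 hω h v a).2 ⟨ha0, h2⟩))
      (not_le.2 ha1)
  have h0 := key 0 le_rfl (Or.inl rfl)
  rcases hp.eq_or_lt with rfl | hp1
  · simpa using h0
  have h3 : chiLo μ β ω h ≤ (p * nuLo μ β ω h v - 1) / (p - 1) := by
    refine Real.sSup_le (fun x hx => ?_) (div_nonneg (by linarith) (by linarith))
    rw [le_div_iff₀ (by linarith)]
    have h4 := key x hx.1.le (Or.inr ((mem_chiSetLo63 hd hω hρ h x).1 hx))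
    linarith
  rw [le_div_iff₀ (by linarith)] at h3
  linarith

/-- **C1.** -/
theorem lkC1_63 (hd : 0 < d) (hω : IID μ ρ ω) (hρ : EM ρ) (hU : LkUp d ρ β) {h v : Vec d}
    {p : ℝ} (hp : 1 < p) (hUp : UpG (lam ρ β) h v p) :
    p * nuLo μ β ω h v ≤ 1 + (p - 1) * chiLo μ β ω h := by
  have hp0 : 0 < p := by linarith
  have hχ := chiLo_nonneg63 (μ := μ) (β := β) (ω := ω) h
  -- one exponent below one, one moment exponent above
  have key : ∀ a x : ℝ, a < 1 → a ∈ nuSetLo μ β ω h v → chiLo μ β ω h < x →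
      p * a ≤ 1 + (p - 1) * x := by
    intro a x ha1 ha hx
    have hx0 : 0 < x := hχ.trans_lt hx
    refine hU h v p a x hp ha1 hUp hx0 (fun hF => ?_) ((mem_nuSetLo63 hω h v a).1 ha).2
    exact absurd (le_csSup (bdd_chiSetLo63 hd hω hρ h) ((mem_chiSetLo63 hd hω hρ h x).2 ⟨hx0, hF⟩))
      (not_le.2 hx)
  have key2 : ∀ a x : ℝ, a ∈ nuSetLo μ β ω h v → chiLo μ β ω h < x →
      p * a ≤ 1 + (p - 1) * x := by
    intro a x ha hx
    by_contra hcon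
    push Not at hcon
    have h1 : (1 + (p - 1) * x) / p < a := by
      rw [div_lt_iff₀ hp0]
      linarith
    have hx0 : 0 < x := hχ.trans_lt hx
    have h0 : 0 < (1 + (p - 1) * x) / p :=
      div_pos (by linarith [mul_pos (show 0 < p - 1 by linarith) hx0]) hp0
    obtain ⟨b, hb1, hb2⟩ := exists_between h1
    have hb0 : 0 < b := h0.trans hb1
    have h2 := key b x (hb2.trans_le (nuSetLo_le_one63 hd hω h v ha))
      (nuSetLo_anti63 hω h v hb0 hb2.le ha) hx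
    rw [div_lt_iff₀ hp0] at hb1
    linarith
  have key3 : ∀ x : ℝ, chiLo μ β ω h < x → p * nuLo μ β ω h v ≤ 1 + (p - 1) * x := by
    intro x hx
    have hx0 : 0 < x := hχ.trans_lt hx
    have h1 : nuLo μ β ω h v ≤ (1 + (p - 1) * x) / p := by
      refine Real.sSup_le (fun a ha => ?_)
        (div_nonneg (by linarith [mul_pos (show 0 < p - 1 by linarith) hx0]) hp0.le)
      rw [le_div_iff₀ hp0]
      have := key2 a x ha hx
      linarith
    rw [le_div_iff₀ hp0] at h1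
    linarith
  by_contra hcon
  push Not at hcon
  have h5 : chiLo μ β ω h < (p * nuLo μ β ω h v - 1) / (p - 1) := by
    rw [lt_div_iff₀ (by linarith)]
    linarith
  obtain ⟨x, hx1, hx2⟩ := exists_between h5
  rw [lt_div_iff₀ (by linarith)] at hx2
  have := key3 x hx1
  linarith

end Transfer

end L63

end Pool.Agent.W_7d29a1_PK
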