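import Pool.Agent.W_7d29a1_PK.Four81
import Pool.Agent.W_7d29a1_PK.DefsLK5

/-!
THEOREM LK, leaf MOML (helper81).
-/

set_option autoImplicit false

namespace Pool.Agent.W_7d29a1_PK

open MeasureTheory ProbabilityTheory Filter Topology Pool.Agent.W_MP_7d29a1_pr
  Pool.Agent.W_7d29a1_h46 Pool.Agent.W_7d29a1_h46u Pool.Agent.W_7d29a1_D2
  Pool.Agent.W_7d29a1_D2.B35 Pool.Agent.W_7d29a1_Q29 Pool.Agent.W_7d29a1_R34
  Pool.Agent.W_7d29a1_SP Pool.Agent.W_7d29a1_V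

open F81

variable {d : ℕ} {ρ : Measure ℝ} [IsProbabilityMeasure ρ] {β : ℝ}

/-- **MOML.** -/
theorem momL81 (hd : 0 < d) (hρ : EM ρ) (hA : AmpPK d ρ β) (hL : LowPK d ρ β) :
    MomL d ρ β := by
  intro h x y hy hyx hF
  obtain ⟨q, hq1, hF⟩ := hF
  have hx : 0 < x := hy.trans hyx
  obtain ⟨C₀, _, N₁, hlow⟩ := hL ‖h‖
  obtain ⟨q', hq', hev⟩ := four81 (d := d) (ρ := ρ) (β := β) hA hd hρ hx ((q : ℝ) + 1) C₀
  right
  refine ⟨q', hq', ?_⟩
  have hxy : ∀ᶠ N : ℕ in atTop, (N : ℝ) ^ y ≤ (N : ℝ) ^ x / 5 := by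
    have h1 : Tendsto (fun N : ℕ => (N : ℝ) ^ (x - y)) atTop atTop :=
      (tendsto_rpow_atTop (by linarith)).comp tendsto_natCast_atTop_atTop
    filter_upwards [h1.eventually_ge_atTop 5, eventually_ge_atTop 1] with N h2 hN
    have hN0 : (0 : ℝ) < N := by exact_mod_cast hN
    have h3 : (N : ℝ) ^ x = (N : ℝ) ^ (x - y) * (N : ℝ) ^ y := by
      rw [← Real.rpow_add hN0]
      congr 1
      ring
    have h4 : 0 < (N : ℝ) ^ y := Real.rpow_pos_of_pos hN0 _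
    rw [h3]
    nlinarith
  obtain ⟨N₀, hN₀⟩ := Filter.eventually_atTop.1 (hF.and ((anti81 (ρ := ρ) hd hρ β hq1).and
    (hev.and ((eventually_ge_atTop N₁).and hxy))))
  refine ⟨N₀, fun N hN => ?_⟩
  obtain ⟨h1, h2, h3, h4, h5⟩ := hN₀ N hN
  have h6 := h3 h (h2 h x hx h1) ((hlow N h4 N le_rfl h le_rfl).trans
    (measureReal_mono fun η hη => by
      have h7 : N * lam ρ β h - 2 < X β h η N := hη
      exact h7.le))
  refine h6.trans (measureReal_mono fun η hη => ?_)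
  have h7 : N * lam ρ β h + (N : ℝ) ^ x / 5 ≤ X β h η N := hη
  show N * lam ρ β h + (N : ℝ) ^ y ≤ X β h η N
  linarith

end Pool.Agent.W_7d29a1_PK
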