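import Pool.Agent.W_7d29a1_PK.All2
import Pool.Agent.W_7d29a1_PK.MomL81
import Pool.Agent.W_7d29a1_PK.BonY26
import Pool.Agent.W_7d29a1_PK.Let63

/-!
The upper bound of the free energy without any hypothesis about it, from the lower fluctuation
exponent and the upper wandering exponent, and the letter of the theorem BL (helper63).
-/

namespace Pool.Agent.W_7d29a1_PK

open MeasureTheory ProbabilityTheory Filter Topology Pool.Agent.W_MP_7d29a1_pr
  Pool.Agent.W_7d29a1_h46 Pool.Agent.W_7d29a1_h46u Pool.Agent.W_7d29a1_D2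

namespace L63

variable {d : ℕ} {Ω : Type*} [MeasurableSpace Ω] {μ : Measure Ω} [IsProbabilityMeasure μ]
  {ρ : Measure ℝ} [IsProbabilityMeasure ρ] {ω : ℕ × Site d → Ω → ℝ} {β : ℝ}

/-- The model form: a tube exponent `a`, a lower exponent `x` of the moments. -/
theorem bonM63 (hd : 0 < d) (hρ : EM ρ) (hM : MomL d ρ β) (hS : StpPK d ρ β) (hU : UplPK d ρ β)
    (hT : TailPK d ρ β) {h v : Vec d} {p a x : ℝ} (hp : 1 ≤ p) (hTb : TbF ρ β h v a)
    (hx : x = 0 ∨ 0 < x ∧ FmL ρ β h x) (hpa : p * a < 1 + (p - 1) * x) :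
    UpG (lam ρ β) h v p := by
  rcases hx with rfl | ⟨hx0, hF⟩
  · exact bonY26 hd hρ hS hU hT h v p a 0 hp hTb (Or.inl rfl) hpa.le
  have hp0 : 0 < p := by linarith
  set δ : ℝ := 1 + (p - 1) * x - p * a with hδ
  have hδ0 : 0 < δ := by rw [hδ]; linarith
  set t : ℝ := min (x / 2) (δ / (2 * p)) with ht
  have ht0 : 0 < t := lt_min (by linarith) (by positivity)
  have ht1 : t ≤ x / 2 := min_le_left _ _
  have ht2 : t ≤ δ / (2 * p) := min_le_right _ _
  have ht3 : p * t ≤ δ / 2 := by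
    have h1 := mul_le_mul_of_nonneg_left ht2 hp0.le
    have h2 : p * (δ / (2 * p)) = δ / 2 := by field_simp
    linarith
  have h4 : (p - 1) * (x - t) = (p - 1) * x - p * t + t := by ring
  rcases hM h x (x - t) (by linarith) (by linarith) hF with h0 | h1
  · exact bonY26 hd hρ hS hU hT h v p a 0 hp hTb (Or.inl rfl) (by
      rw [h0] at h4
      linarith)
  · exact bonY26 hd hρ hS hU hT h v p a (x - t) hp hTb (Or.inr h1) (by rw [h4]; linarith)

/-- **B3**: if the free energy is not `O(t ^ p)` above the line, then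
`1 + (p - 1) chiLo ≤ p nuS`. -/
theorem bonLo63 (hd : 0 < d) (hω : IID μ ρ ω) (hρ : EM ρ) (hM : MomL d ρ β) (hS : StpPK d ρ β)
    (hU : UplPK d ρ β) (hT : TailPK d ρ β) {h v : Vec d} {p : ℝ} (hp : 1 ≤ p)
    (hn : ¬ UpG (lam ρ β) h v p) :
    1 + (p - 1) * chiLo μ β ω h ≤ p * nuS μ β ω h v := by
  have hp0 : 0 < p := by linarith
  have key : ∀ x : ℝ, (x = 0 ∨ 0 < x ∧ FmL ρ β h x) →
      1 + (p - 1) * x ≤ p * nuS μ β ω h v := by
    intro x hx
    have h1 : (1 + (p - 1) * x) / p ≤ nuS μ β ω h v := by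
      refine le_csInf ⟨2, StrB_two_mem hd ω β h v⟩ fun a ha => ?_
      by_contra hcon
      rw [div_le_iff₀ hp0, not_le] at hcon
      exact hn (bonM63 hd hρ hM hS hU hT hp ((mem_nuSetS hω h v a).1 ha).2 hx (by linarith))
    rw [div_le_iff₀ hp0] at h1
    linarith
  have h0 := key 0 (Or.inl rfl)
  rcases hp.eq_or_lt with rfl | hp1
  · simpa using h0
  have h3 : chiLo μ β ω h ≤ (p * nuS μ β ω h v - 1) / (p - 1) := by
    refine Real.sSup_le (fun x hx => ?_) (div_nonneg (by linarith) (by linarith))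
    rw [le_div_iff₀ (by linarith)]
    have h4 := key x (Or.inr ((mem_chiSetLo63 hd hω hρ h x).1 hx))
    linarith
  rw [le_div_iff₀ (by linarith)] at h3
  linarith

/-- **B4**, the letter of the theorem BL: if the free energy is not of order at least `t ^ p` above
the line, then `p nuLo ≤ 1 + (p - 1) chiF`. -/
theorem blLo63 (hd : 0 < d) (hω : IID μ ρ ω) (hρ : EM ρ) {h v : Vec d} {p : ℝ} (hp : 1 < p)
    (hB : ∀ a x : ℝ, 0 < x → x < 1 → FlF ρ β h x → EtL ρ β h v a → 1 + (p - 1) * x < p * a →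
      LoA (lam ρ β) h v p) (hn : ¬ LoA (lam ρ β) h v p) :
    p * nuLo μ β ω h v ≤ 1 + (p - 1) * chiF μ β ω h := by
  have hp0 : 0 < p := by linarith
  have hχ0 : 0 ≤ chiF μ β ω h := chiF_nonneg h
  have hχh := chiF_le_half (β := β) hd hω hρ h
  have key : ∀ x : ℝ, chiF μ β ω h < x → x < 1 → p * nuLo μ β ω h v ≤ 1 + (p - 1) * x := by
    intro x hx hx1
    obtain ⟨y, hy, hyx⟩ := exists_lt_of_csInf_lt ⟨1 / 2, half_mem_chiSetF hd hω hρ h⟩ hx
    obtain ⟨hy0, hF⟩ := (mem_chiSetF hd hω hρ h y).1 hy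
    have h1 : nuLo μ β ω h v ≤ (1 + (p - 1) * y) / p := by
      refine Real.sSup_le (fun a ha => ?_)
        (div_nonneg (by linarith [mul_pos (show 0 < p - 1 by linarith) hy0]) hp0.le)
      by_contra hcon
      rw [le_div_iff₀ hp0, not_le] at hcon
      exact hn (hB a y hy0 (hyx.trans hx1) hF ((mem_nuSetLo63 hω h v a).1 ha).2 (by linarith))
    rw [le_div_iff₀ hp0] at h1
    have h2 := mul_le_mul_of_nonneg_left hyx.le (show 0 ≤ p - 1 by linarith)
    linarith
  by_contra hcon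
  push Not at hcon
  have h5 : chiF μ β ω h < min 1 ((p * nuLo μ β ω h v - 1) / (p - 1)) := by
    refine lt_min (by linarith) ?_
    rw [lt_div_iff₀ (by linarith)]
    linarith
  obtain ⟨x, hx1, hx2⟩ := exists_between h5
  have hx3 := hx2.trans_le (min_le_right _ _)
  rw [lt_div_iff₀ (by linarith)] at hx3
  have := key x hx1 (hx2.trans_le (min_le_left _ _))
  linarith

/-- **B3**, every law. -/
theorem bonLoAll63 (hd : 0 < d) (hω : IID μ ρ ω) (hρ : EM ρ) (hnc : ∀ c : ℝ, ρ {c} ≠ 1)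
    (hβ : 0 < β) {h v : Vec d} {p : ℝ} (hp : 1 ≤ p) (hn : ¬ UpG (lam ρ β) h v p) :
    1 + (p - 1) * chiLo μ β ω h ≤ p * nuS μ β ω h v :=
  bonLo63 hd hω hρ (momL81 hd hρ (ampAll2 hd hρ hnc hβ) (low33 hd hρ β)) (stpAll2 hd hρ hnc hβ)
    (upl33 hd (low33 hd hρ β)) (tail81 hd hρ) hp hn

end L63

end Pool.Agent.W_7d29a1_PK
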