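import Pool.Agent.W_7d29a1_D2.Defs46

/-!
Dimension two: the tube exponent exceeds `1 / 2` at every tilt and every direction, unless the free
energy is flat of an order larger than two there.
-/

namespace Pool.Agent.W_7d29a1_PK

open Pool.Agent.W_7d29a1_h46 Pool.Agent.W_7d29a1_D2

/-- An upper bound of order `q` is an upper bound of every smaller order. -/
theorem upG_anti {d : ℕ} {L : Vec d → ℝ} {h v : Vec d} {p q : ℝ} (hpq : p ≤ q) (hq : 0 < q)
    (hU : UpG L h v q) : UpG L h v p := by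
  obtain ⟨C, δ, hδ, hC⟩ := hU
  refine ⟨|C|, min δ 1, lt_min hδ one_pos, fun r hr => ?_⟩
  have h1 : ‖r‖ ≤ 1 := hr.trans (min_le_right _ _)
  have h2 := hC r (hr.trans (min_le_left _ _))
  have h3 : ‖r‖ ^ q ≤ ‖r‖ ^ p := by
    rcases (norm_nonneg r).eq_or_lt with h0 | h0
    · rw [← h0, Real.zero_rpow hq.ne']
      exact Real.rpow_nonneg le_rfl p
    · exact Real.rpow_le_rpow_of_exponent_ge h0 h1 hpq
  have h4 : (0 : ℝ) ≤ ‖r‖ ^ q := Real.rpow_nonneg (norm_nonneg r) q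
  calc gap L h v r ≤ C * ‖r‖ ^ q := h2
    _ ≤ |C| * ‖r‖ ^ q := mul_le_mul_of_nonneg_right (le_abs_self C) h4
    _ ≤ |C| * ‖r‖ ^ p := mul_le_mul_of_nonneg_left h3 (abs_nonneg C)

/-- **The corollary.** `nS`, `cT` are the exponents `nuS`, `chiT`; `hchi` is the lower bound for
`chiT` in dimension two, `hB` the lower bound for `nuS` without an upper bound of order `p`. -/
theorem cor39 {d : ℕ} (L : Vec d → ℝ) (nS : Vec d → Vec d → ℝ) (cT : Vec d → ℝ) {K c0 : ℝ}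
    (hc0 : 0 < c0) (hT : ∀ h, 0 ≤ cT h)
    (hchi : ∀ h v : Vec d, ‖h‖ ≤ K → UpG L h v (2 - c0) → c0 ≤ cT h)
    (hB : ∀ (h v : Vec d) (p : ℝ), 1 ≤ p → p * nS h v < 1 + (p - 1) * cT h → UpG L h v p) :
    ∃ c : ℝ, 0 < c ∧ ∀ h v : Vec d, ‖h‖ ≤ K → 1 / 2 + c ≤ nS h v ∨ UpG L h v (2 + c) := by
  set e : ℝ := min c0 (1 / 2) with he
  have he0 : 0 < e := lt_min hc0 (by norm_num)
  have he1 : e ≤ 1 / 2 := min_le_right _ _
  have hec : e ≤ c0 := min_le_left _ _
  refine ⟨e / 6, by linarith, fun h v hK => ?_⟩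
  by_cases hU : UpG L h v (2 + e)
  · exact Or.inr (upG_anti (by linarith) (by linarith) hU)
  left
  have h1 : 1 + (1 + e) * cT h ≤ (2 + e) * nS h v := by
    by_contra hlt
    push Not at hlt
    exact hU (hB h v (2 + e) (by linarith) (by linarith))
  by_cases hV : UpG L h v (2 - e)
  · have h5 : e ≤ cT h :=
      hec.trans (hchi h v hK (upG_anti (by linarith) (by linarith) hV))
    have h6 : (1 + e) * e ≤ (1 + e) * cT h := mul_le_mul_of_nonneg_left h5 (by linarith)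
    by_contra hlt
    push Not at hlt
    nlinarith
  · have h2 : 1 + (1 - e) * cT h ≤ (2 - e) * nS h v := by
      by_contra hlt
      push Not at hlt
      exact hV (hB h v (2 - e) (by linarith) (by linarith))
    have h3 : 0 ≤ (1 - e) * cT h := mul_nonneg (by linarith) (hT h)
    by_contra hlt
    push Not at hlt
    nlinarith

/-- The same from the clauses of the main theorem for one `K`. -/
theorem cor39K {d : ℕ} (L : Vec d → ℝ) (nS : Vec d → Vec d → ℝ) (cT : Vec d → ℝ) {K : ℝ}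
    (hT : ∀ h, 0 ≤ cT h)
    (hchi : ∃ c : ℝ, 0 < c ∧ ∀ h v : Vec d, ‖h‖ ≤ K → UpG L h v (2 - c) → c ≤ cT h)
    (hB : ∀ (h v : Vec d) (p : ℝ), 1 ≤ p → p * nS h v < 1 + (p - 1) * cT h → UpG L h v p) :
    ∃ c : ℝ, 0 < c ∧ (∀ h v : Vec d, ‖h‖ ≤ K → UpG L h v (2 - c) → c ≤ cT h) ∧
      ∀ h v : Vec d, ‖h‖ ≤ K → 1 / 2 + c ≤ nS h v ∨ UpG L h v (2 + c) := by
  obtain ⟨c0, hc0, h0⟩ := hchi
  obtain ⟨c1, hc1, h1⟩ := cor39 L nS cT hc0 hT h0 hB
  have hm0 : min (min c0 c1) (1 / 2) ≤ c0 := (min_le_left _ _).trans (min_le_left _ _)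
  have hm1 : min (min c0 c1) (1 / 2) ≤ c1 := (min_le_left _ _).trans (min_le_right _ _)
  have hm2 : min (min c0 c1) (1 / 2 : ℝ) ≤ 1 / 2 := min_le_right _ _
  refine ⟨min (min c0 c1) (1 / 2), lt_min (lt_min hc0 hc1) (by norm_num),
    fun h v hK hU => hm0.trans (h0 h v hK (upG_anti (by linarith) (by linarith) hU)),
    fun h v hK => ?_⟩
  rcases h1 h v hK with h2 | h2
  · exact Or.inl (by linarith)
  · exact Or.inr (upG_anti (by linarith) (by linarith) h2)

end Pool.Agent.W_7d29a1_PK
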