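import Pool.Agent.W_7d29a1_PK.DefsLK5
import Pool.Agent.W_7d29a1_h46u.ConcV

/-!
GOODL: if the moments are not large, then at infinitely many scales all the free energies up to the
scale are close to their limits (helper5).
-/

namespace Pool.Agent.W_7d29a1_PK

open MeasureTheory ProbabilityTheory Filter Topology Pool.Agent.W_MP_7d29a1_pr
  Pool.Agent.W_7d29a1_h46 Pool.Agent.W_7d29a1_h46u Pool.Agent.W_7d29a1_D2
  Pool.Agent.W_7d29a1_D2.B35 Pool.Agent.W_7d29a1_Q29 Pool.Agent.W_7d29a1_R34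
  Pool.Agent.W_7d29a1_SP Pool.Agent.W_7d29a1_V

variable {d : ℕ} {ρ : Measure ℝ} [IsProbabilityMeasure ρ] {β : ℝ}

namespace G5

lemma ev (B b : ℝ) {x' y : ℝ} (hx' : 0 < x') (hy : x' < y) :
    ∀ᶠ n : ℕ in atTop, B * (1 + b * Real.log n) + 4 + (n : ℝ) ^ x' ≤ (n : ℝ) ^ y := by
  have hcast := tendsto_natCast_atTop_atTop (R := ℝ)
  have h1 : ∀ᶠ z : ℝ in atTop, Real.log z * (|B * b|) ≤ z ^ x' / 2 := by
    have h2 := (isLittleO_log_rpow_atTop hx').bound
      (show (0 : ℝ) < 1 / (2 * (|B * b| + 1)) by positivity)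
    filter_upwards [h2, eventually_ge_atTop (1 : ℝ)] with z hz hz1
    rw [Real.norm_eq_abs, abs_of_nonneg (Real.log_nonneg hz1), Real.norm_eq_abs,
      abs_of_nonneg (Real.rpow_nonneg (by linarith) _)] at hz
    have h3 : 0 ≤ z ^ x' := Real.rpow_nonneg (by linarith) _
    have h4 := mul_le_mul_of_nonneg_right hz (abs_nonneg (B * b))
    refine h4.trans ?_
    rw [div_mul_eq_mul_div, one_mul, div_mul_eq_mul_div, div_le_div_iff₀ (by positivity) two_pos]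
    nlinarith [abs_nonneg (B * b)]
  have h2 : ∀ᶠ z : ℝ in atTop, 2 * (|B| + 4) ≤ z ^ x' :=
    (tendsto_rpow_atTop hx').eventually_ge_atTop _
  have h3 : ∀ᶠ z : ℝ in atTop, 2 ≤ z ^ (y - x') :=
    (tendsto_rpow_atTop (by linarith)).eventually_ge_atTop _
  filter_upwards [hcast.eventually h1, hcast.eventually h2, hcast.eventually h3,
    hcast.eventually (eventually_ge_atTop (1 : ℝ))] with n e1 e2 e3 e4
  have hn0 : (0 : ℝ) < n := by linarith
  have e5 : (n : ℝ) ^ y = (n : ℝ) ^ (y - x') * (n : ℝ) ^ x' := by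
    rw [← Real.rpow_add hn0]
    congr 1
    ring
  have e6 : 0 < (n : ℝ) ^ x' := Real.rpow_pos_of_pos hn0 _
  have e7 : 2 * (n : ℝ) ^ x' ≤ (n : ℝ) ^ y := by
    rw [e5]
    nlinarith
  have e9 : B * (b * Real.log n) ≤ Real.log n * |B * b| := by
    have h5 := le_abs_self (B * b)
    have h6 := Real.log_nonneg e4
    nlinarith
  have e10 := le_abs_self B
  nlinarith

end G5

open G5 in
/-- GOODL. -/
theorem good5 (hd : 0 < d) (hρ : EM ρ) (hLo : LowPK d ρ β) (hU : UplPK d ρ β)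
    (hA : AmpPK d ρ β) : GoodL d ρ β := by
  intro h x y hx hxy hF q hq N₀
  obtain ⟨C₁, hC₁, N₁, hLo⟩ := hLo ‖h‖
  obtain ⟨C₂, hC₂, N₂, hU⟩ := hU ‖h‖
  obtain ⟨C₃, hC₃, hA⟩ := hA 1 le_rfl
  obtain ⟨y', hy'⟩ : ∃ y' : ℝ, y' = (x + y) / 2 := ⟨_, rfl⟩
  have hxy' : x < y' := by rw [hy']; linarith
  have hyy' : y' < y := by rw [hy']; linarith
  have hy'0 : 0 < y' := by linarith
  obtain ⟨q₁, hq₁⟩ : ∃ q₁ : ℝ, q₁ = max q C₁ + 1 := ⟨_, rfl⟩
  have hq₁q : q + 1 ≤ q₁ := by rw [hq₁]; linarith [le_max_left q C₁]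
  have hq₁C : C₁ + 1 ≤ q₁ := by rw [hq₁]; linarith [le_max_right q C₁]
  have hq₁0 : 0 < q₁ := by linarith
  obtain ⟨Q, hQ⟩ : ∃ Q : ℝ, Q = C₂ + C₃ * q₁ + q + 1 := ⟨_, rfl⟩
  have hCq : 0 < C₃ * q₁ := by positivity
  obtain ⟨k, hk⟩ := exists_nat_ge (Q / (y' - x))
  have hQ0 : 0 < Q := by rw [hQ]; linarith
  have hkQ : Q ≤ (y' - x) * k := by
    rw [div_le_iff₀ (by linarith)] at hk
    linarith
  have hk1 : 1 ≤ k := by
    rcases Nat.eq_zero_or_pos k with h0 | h0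
    · rw [h0] at hkQ
      norm_num at hkQ
      linarith
    · exact h0
  have hfr : ∃ᶠ n : ℕ in atTop, ¬ (n : ℝ) ^ (x * k) ≤
      ∫ η, |X β h η n - A ρ β h n| ^ k ∂(law d ρ) := by
    have h1 : ¬ ∀ᶠ n : ℕ in atTop, (n : ℝ) ^ (x * k) ≤
        ∫ η, |X β h η n - A ρ β h n| ^ k ∂(law d ρ) := fun hc => hF ⟨k, hk1, hc⟩
    exact Filter.not_eventually.1 h1
  obtain ⟨Cm, -, hCm⟩ := momU (d := d) (ρ := ρ) hd hρ β k
  have hcast := tendsto_natCast_atTop_atTop (R := ℝ)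
  have hev := (ev C₃ q₁ hy'0 hyy').and ((ev C₂ 1 hy'0 hyy').and
    (eventually_ge_atTop (max (max N₀ 2) (max N₁ N₂))))
  obtain ⟨N, hN, e1, e2, e3⟩ := (hfr.and_eventually hev).exists
  rw [not_le] at hN
  have hN0 : N₀ ≤ N := (le_max_left _ _).trans ((le_max_left _ _).trans e3)
  have hN2 : 2 ≤ N := (le_max_right _ _).trans ((le_max_left _ _).trans e3)
  have hN₁ : N₁ ≤ N := (le_max_left _ _).trans ((le_max_right _ _).trans e3)
  have hN₂ : N₂ ≤ N := (le_max_right _ _).trans ((le_max_right _ _).trans e3)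
  have hn2 : (2 : ℝ) ≤ N := by exact_mod_cast hN2
  have hn1 : (1 : ℝ) ≤ N := by linarith
  have hn0 : (0 : ℝ) < N := by linarith
  -- Markov
  have hM : (law d ρ).real {η | N * lam ρ β h + (N : ℝ) ^ y' ≤ X β h η N} ≤ (N : ℝ) ^ (-Q) := by
    have h1 := mul_meas_ge_le_integral_of_nonneg (μ := law d ρ)
      (f := fun η => |X β h η N - A ρ β h N| ^ k) (Eventually.of_forall fun η => by positivity)
      (hCm h N (by omega)).1 (((N : ℝ) ^ y') ^ k)
    have h2 : (law d ρ).real {η | N * lam ρ β h + (N : ℝ) ^ y' ≤ X β h η N} ≤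
        (law d ρ).real {η | ((N : ℝ) ^ y') ^ k ≤ |X β h η N - A ρ β h N| ^ k} := by
      refine measureReal_mono fun η (hη : N * lam ρ β h + (N : ℝ) ^ y' ≤ X β h η N) => ?_
      show ((N : ℝ) ^ y') ^ k ≤ |X β h η N - A ρ β h N| ^ k
      have h3 := A_le_lam hd hρ β h N
      have h4 := le_abs_self (X β h η N - A ρ β h N)
      exact pow_le_pow_left₀ (Real.rpow_nonneg hn0.le _) (by linarith) k
    have h3 : 0 < ((N : ℝ) ^ y') ^ k := by positivity
    have h4 : ((N : ℝ) ^ y') ^ k * (law d ρ).real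
        {η | N * lam ρ β h + (N : ℝ) ^ y' ≤ X β h η N} ≤ (N : ℝ) ^ (x * k) :=
      ((mul_le_mul_of_nonneg_left h2 h3.le).trans h1).trans hN.le
    have h5 : ((N : ℝ) ^ y') ^ k = (N : ℝ) ^ (y' * k) := by
      rw [Real.rpow_mul hn0.le, Real.rpow_natCast]
    have h6 : (N : ℝ) ^ (x * k) ≤ (N : ℝ) ^ (y' * k) * (N : ℝ) ^ (-Q) := by
      rw [← Real.rpow_add hn0]
      refine Real.rpow_le_rpow_of_exponent_le hn1 ?_
      nlinarith
    rw [h5] at h4 h3
    exact le_of_mul_le_mul_left (h4.trans h6) h3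
  -- the upper tails
  have hup : ∀ l : ℕ, l ≤ N → (law d ρ).real {η | l * lam ρ β h + ((N : ℝ) ^ y - 4) ≤ X β h η l} ≤
      (N : ℝ) ^ (C₂ - Q) := by
    intro l hl
    have h1 := hU N hN₂ h le_rfl l hl ((N : ℝ) ^ y')
    have h2 : (law d ρ).real {η | l * lam ρ β h + ((N : ℝ) ^ y - 4) ≤ X β h η l} ≤
        (law d ρ).real {η | l * lam ρ β h + (N : ℝ) ^ y' + C₂ * Real.log N ≤ X β h η l} := by
      refine measureReal_mono fun η (hη : l * lam ρ β h + ((N : ℝ) ^ y - 4) ≤ X β h η l) => ?_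
      show l * lam ρ β h + (N : ℝ) ^ y' + C₂ * Real.log N ≤ X β h η l
      nlinarith
    refine h2.trans (h1.trans ?_)
    have h3 : (N : ℝ) ^ (C₂ - Q) = (N : ℝ) ^ C₂ * (N : ℝ) ^ (-Q) := by
      rw [← Real.rpow_add hn0]
      congr 1
    rw [h3]
    exact mul_le_mul_of_nonneg_left hM (Real.rpow_nonneg hn0.le _)
  have half : ∀ {a b : ℝ}, a + 1 ≤ b → (N : ℝ) ^ (-b) ≤ (N : ℝ) ^ (-a) / 2 := by
    intro a b hab
    have h1 : (N : ℝ) ^ (-b) ≤ (N : ℝ) ^ (-a - 1) :=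
      Real.rpow_le_rpow_of_exponent_le hn1 (by linarith)
    have h2 : (N : ℝ) ^ (-a - 1) = (N : ℝ) ^ (-a) / N := by
      rw [Real.rpow_sub hn0, Real.rpow_one]
    rw [h2] at h1
    refine h1.trans ?_
    exact div_le_div_of_nonneg_left (Real.rpow_nonneg hn0.le _) two_pos hn2
  refine ⟨N, hN0, fun l hl => ?_⟩
  have hsub : {η : Env d | (N : ℝ) ^ y < |X β h η l - l * lam ρ β h|} ⊆
      {η | l * lam ρ β h + ((N : ℝ) ^ y - 4) ≤ X β h η l} ∪
        {η | X β h η l ≤ l * lam ρ β h - (N : ℝ) ^ y} := by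
    intro η hη
    have hη' : (N : ℝ) ^ y < |X β h η l - l * lam ρ β h| := hη
    rcases lt_abs.1 hη' with h1 | h1
    · left
      show l * lam ρ β h + ((N : ℝ) ^ y - 4) ≤ X β h η l
      linarith
    · right
      show X β h η l ≤ l * lam ρ β h - (N : ℝ) ^ y
      linarith
  have hup' : (law d ρ).real {η | l * lam ρ β h + ((N : ℝ) ^ y - 4) ≤ X β h η l} ≤
      (N : ℝ) ^ (-q) / 2 := by
    refine (hup l hl).trans ?_
    have h1 := half (a := q) (b := Q - C₂) (by rw [hQ]; linarith)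
    have h2 : -(Q - C₂) = C₂ - Q := by ring
    rw [h2] at h1
    exact h1
  have hlow : (law d ρ).real {η | X β h η l ≤ l * lam ρ β h - (N : ℝ) ^ y} ≤
      (N : ℝ) ^ (-q) / 2 := by
    by_contra hcon
    rw [not_le] at hcon
    have hlog : Real.log (1 / (N : ℝ) ^ (-q₁)) = q₁ * Real.log N := by
      rw [one_div, ← Real.rpow_neg hn0.le, neg_neg, Real.log_rpow hn0]
    have hq₁2 : (N : ℝ) ^ (-q₁) ≤ 1 / 2 := by
      have h1 := half (a := 0) (b := q₁) (by linarith)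
      rwa [neg_zero, Real.rpow_zero] at h1
    have key := hA h l (l * lam ρ β h - (N : ℝ) ^ y) (l * lam ρ β h - 2) ((N : ℝ) ^ (-q₁))
      (Real.rpow_pos_of_pos hn0 _) hq₁2
      (by
        rw [hlog]
        have := Real.rpow_pos_of_pos hn0 y'
        linarith)
      ((half hq₁q).trans hcon.le)
      ((Real.rpow_le_rpow_of_exponent_le hn1 (by linarith)).trans (hLo N hN₁ l hl h le_rfl))
    have h1 : (law d ρ).real {η | l * lam ρ β h - 2 + 1 * (l * lam ρ β h - 2 -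
        (l * lam ρ β h - (N : ℝ) ^ y)) < X β h η l} ≤ (N : ℝ) ^ (C₂ - Q) := by
      refine le_trans (measureReal_mono fun η hη => ?_) (hup l hl)
      have hη' : l * lam ρ β h - 2 + 1 * (l * lam ρ β h - 2 -
        (l * lam ρ β h - (N : ℝ) ^ y)) < X β h η l := hη
      show l * lam ρ β h + ((N : ℝ) ^ y - 4) ≤ X β h η l
      linarith
    have h2 := key.trans h1
    have h3 : ((N : ℝ) ^ (-q₁)) ^ C₃ = (N : ℝ) ^ (-(C₃ * q₁)) := by
      rw [← Real.rpow_mul hn0.le]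
      congr 1
      ring
    rw [h3] at h2
    have h4 : (N : ℝ) ^ (C₂ - Q) < (N : ℝ) ^ (-(C₃ * q₁)) :=
      Real.rpow_lt_rpow_of_exponent_lt (by linarith) (by rw [hQ]; linarith)
    linarith
  calc (law d ρ).real {η | (N : ℝ) ^ y < |X β h η l - l * lam ρ β h|}
      ≤ _ := (measureReal_mono hsub).trans (measureReal_union_le _ _)
    _ ≤ (N : ℝ) ^ (-q) / 2 + (N : ℝ) ^ (-q) / 2 := add_le_add hup' hlow
    _ = (N : ℝ) ^ (-q) := by ring

end Pool.Agent.W_7d29a1_PK
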