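import Pool.Agent.W_7d29a1_PK.DefsLK5

/-!
The KPZ relation at one tilt and one velocity for the lower exponents, in the model: the two halves
from the leaves (helper63).
-/

namespace Pool.Agent.W_7d29a1_PK

open MeasureTheory ProbabilityTheory Filter Topology Pool.Agent.W_MP_7d29a1_pr
  Pool.Agent.W_7d29a1_h46 Pool.Agent.W_7d29a1_h46u Pool.Agent.W_7d29a1_D2
  Pool.Agent.W_7d29a1_D2.B35 Pool.Agent.W_7d29a1_Q29 Pool.Agent.W_7d29a1_R34
  Pool.Agent.W_7d29a1_SP Pool.Agent.W_7d29a1_V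

variable {d : ℕ} {ρ : Measure ℝ} {β : ℝ}

/-- **The first half** from the leaves. -/
theorem lkLow63 (hM : MomL d ρ β) (hL : LowL d ρ β) : LkLow d ρ β := by
  intro h v p a x hp ha hLo hx hpa
  rcases hx with rfl | ⟨hx0, hF⟩
  · exact hL h v p a 0 hp ha le_rfl hLo (Or.inl rfl) hpa
  have hp0 : 0 < p := by linarith
  set δ : ℝ := 1 + (p - 1) * x - p * a with hδ
  have hδ0 : 0 < δ := by rw [hδ]; linarith
  set t : ℝ := min (x / 2) (δ / (2 * p)) with ht
  have ht0 : 0 < t := lt_min (by linarith) (by positivity)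
  have ht1 : t ≤ x / 2 := min_le_left _ _
  have ht2 : t ≤ δ / (2 * p) := min_le_right _ _
  have ht3 : p * t ≤ δ / 2 := by
    have h1 := mul_le_mul_of_nonneg_left ht2 hp0.le
    have h2 : p * (δ / (2 * p)) = δ / 2 := by field_simp
    linarith
  refine hL h v p a (x - t) hp ha (by linarith) hLo (hM h x (x - t) (by linarith) (by linarith) hF) ?_
  have h4 : (p - 1) * (x - t) = (p - 1) * x - p * t + t := by ring
  rw [h4]
  linarith

/-- **The second half** from the leaves. -/
theorem lkUp63 (hG : GoodL d ρ β) (hU : UppL d ρ β) : LkUp d ρ β := by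
  intro h v p a x hp ha hUp hx hF hE
  by_contra hcon
  push Not at hcon
  have hp0 : 0 < p := by linarith
  set δ : ℝ := p * a - (1 + (p - 1) * x) with hδ
  have hδ0 : 0 < δ := by rw [hδ]; linarith
  set y : ℝ := x + δ / (2 * p) with hy
  have ht0 : 0 < δ / (2 * p) := by positivity
  have hxy : x < y := by rw [hy]; linarith
  have h2 : p * (δ / (2 * p)) = δ / 2 := by field_simp
  have hyp : 1 + (p - 1) * y < p * a := by
    have h4 : (p - 1) * y = (p - 1) * x + p * (δ / (2 * p)) - δ / (2 * p) := by rw [hy]; ring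
    rw [h4, h2]
    linarith
  obtain ⟨q, hq⟩ := hE
  obtain ⟨q', hq'0, N₀, hN₀⟩ := hU h v p a y hp (by linarith) ha hUp hyp q
  obtain ⟨N₁, hN₁⟩ := eventually_atTop.1 hq
  obtain ⟨N, hN, hGd⟩ := hG h x y hx hxy hF q' hq'0 (max N₀ N₁)
  obtain ⟨n, hn, hEx⟩ := hN₁ N ((le_max_right _ _).trans hN)
  exact absurd hEx (not_le.2 (hN₀ N ((le_max_left _ _).trans hN) hGd n hn))

end Pool.Agent.W_7d29a1_PK
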