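import Pool.Agent.W_7d29a1_PK.Main2
import Pool.Agent.W_7d29a1_PK.DefsLK5

/-!
The exit at all large scales: the first half of the KPZ relation for the lower exponents.
-/

namespace Pool.Agent.W_7d29a1_PK

open MeasureTheory ProbabilityTheory Filter Topology Pool.Agent.W_MP_7d29a1_pr
  Pool.Agent.W_7d29a1_h46 Pool.Agent.W_7d29a1_h46u Pool.Agent.W_7d29a1_D2
  Pool.Agent.W_7d29a1_D2.B35 Pool.Agent.W_7d29a1_Q29 Pool.Agent.W_7d29a1_R34
  Pool.Agent.W_7d29a1_SP Pool.Agent.W_7d29a1_V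

/-- LOWL. -/
theorem lowL83 {d : ℕ} {ρ : Measure ℝ} [IsProbabilityMeasure ρ] {β : ℝ} (hS : StpPK d ρ β)
    (hT : TailPK d ρ β) : LowL d ρ β := by
  intro h v p a y hp ha hy hL hLu hcon
  obtain ⟨c, hc, δ, hδ, hL⟩ := hL
  have hp0 : 0 < p := by linarith
  obtain ⟨a', haa, hpa⟩ : ∃ a' : ℝ, a < a' ∧ p * a' < 1 + (p - 1) * y := by
    have h1 : a < (1 + (p - 1) * y) / p := by
      rw [lt_div_iff₀ hp0]; linarith
    obtain ⟨a', h2, h3⟩ := exists_between h1
    exact ⟨a', h2, by rw [lt_div_iff₀ hp0] at h3; linarith⟩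
  obtain ⟨q', hq', N₁, hluck⟩ : ∃ q' : ℝ, 0 < q' ∧ ∃ N₁ : ℕ, ∀ N : ℕ, N₁ ≤ N → (y = 0 ∨
      (N : ℝ) ^ (-q') ≤
        (law d ρ).real {η | N * lam ρ β h + (N : ℝ) ^ y / 8 ≤ X β h η N}) := by
    rcases hLu with h0 | ⟨q, hq, N₁, h1⟩
    · exact ⟨1, one_pos, 0, fun _ _ => Or.inl h0⟩
    · refine ⟨q, hq, N₁, fun N hN => Or.inr ((h1 N hN).trans (measureReal_mono fun η hη => ?_))⟩
      have h2 : N * lam ρ β h + (N : ℝ) ^ y ≤ X β h η N := hη
      have h3 : 0 ≤ (N : ℝ) ^ y := by positivity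
      show N * lam ρ β h + (N : ℝ) ^ y / 8 ≤ X β h η N
      linarith
  obtain ⟨q₀, hq₀, N₀, H⟩ := Mn2.core hS hT h (p := p) (x := y) (a := a') (q' := q') (c := c)
    (δ := min δ 1) (K := max ‖h‖ ‖v‖) hp hy hq' hpa
    (F := fun n W => ∫ η, (1 - PolT β h η (tube d n v W)) ∂(law d ρ)) (by
      intro n r r' hr
      exact Mn2.ex_mono h fun q hq i hi => (hq i hi).trans hr) hc (by positivity)
    (le_max_left _ _) (by
      intro t ht0 ht
      have ht1 : t ≤ δ := ht.trans (min_le_left _ _)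
      have ht2 : t ≤ 1 := ht.trans (min_le_right _ _)
      obtain ⟨r, hr, hg⟩ := hL t ht0 ht1
      refine ⟨r, inner ℝ v r, by rw [hr]; exact ht2, ?_, hg, ?_⟩
      · refine (abs_real_inner_le_norm v r).trans ?_
        rw [hr]
        refine le_trans ?_ (le_max_right _ _)
        nlinarith [norm_nonneg v]
      · intro n W
        refine Mn2.ex_mono h fun q hq i hi => ?_
        have h1 : ‖emb (pos q i) - (i : ℝ) • v‖ ≤ W / t := hq i hi
        have h2 : inner ℝ r (emb (pos q i)) - i * inner ℝ v r =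
            inner ℝ r (emb (pos q i) - (i : ℝ) • v) := by
          rw [inner_sub_right, real_inner_smul_right, real_inner_comm v r]
        show |inner ℝ r (emb (pos q i)) - i * inner ℝ v r| ≤ W
        rw [h2]
        refine (abs_real_inner_le_norm _ _).trans ?_
        rw [hr]
        calc t * ‖emb (pos q i) - (i : ℝ) • v‖ ≤ t * (W / t) :=
              mul_le_mul_of_nonneg_left h1 ht0.le
          _ = W := by field_simp)
  obtain ⟨N₂, hN₂⟩ := Mn2.ev_pow (a' - a) (3 ^ a) (by linarith)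
  refine ⟨⌈q₀⌉₊, ?_⟩
  filter_upwards [eventually_ge_atTop (2 * (N₀ + N₁ + N₂ + 3))] with N hN
  set M := N / 2 with hM
  have hM1 : N₀ + N₁ + N₂ + 3 ≤ M := by omega
  obtain ⟨n, hn1, hn2, hn3⟩ := H M (by omega) (hluck M (by omega))
  refine ⟨n, by omega, ?_⟩
  have hM0 : (0 : ℝ) < M := by
    have : 0 < M := by omega
    exact_mod_cast this
  have hN1 : (1 : ℝ) ≤ N := by
    have : 1 ≤ N := by omega
    exact_mod_cast this
  have hMN : (M : ℝ) ≤ N := by
    have : M ≤ N := by omega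
    exact_mod_cast this
  have hn0 : (0 : ℝ) < n := by
    have : 0 < n := by omega
    exact_mod_cast this
  have hNn : (N : ℝ) ≤ 3 * n := by
    have : N ≤ 3 * n := by omega
    exact_mod_cast this
  have h1 : (N : ℝ) ^ (-((⌈q₀⌉₊ : ℕ) : ℝ)) ≤ (M : ℝ) ^ (-q₀) := by
    refine (Real.rpow_le_rpow_of_exponent_le hN1 (neg_le_neg (Nat.le_ceil q₀))).trans ?_
    exact Real.rpow_le_rpow_of_nonpos hM0 hMN (by linarith)
  have h2 : (N : ℝ) ^ a ≤ (n : ℝ) ^ a' := by
    calc (N : ℝ) ^ a ≤ (3 * n) ^ a := Real.rpow_le_rpow (by linarith) hNn ha.le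
      _ = 3 ^ a * (n : ℝ) ^ a := Real.mul_rpow (by norm_num) hn0.le
      _ ≤ (n : ℝ) ^ (a' - a) * (n : ℝ) ^ a :=
          mul_le_mul_of_nonneg_right (hN₂ n (by omega)) (Real.rpow_nonneg hn0.le _)
      _ = (n : ℝ) ^ a' := by
          rw [← Real.rpow_add hn0]; congr 1; ring
  exact h1.trans (hn3.trans (Mn2.ex_mono h fun q hq i hi => (hq i hi).trans h2))

end Pool.Agent.W_7d29a1_PK
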