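import Pool.Agent.W_7d29a1_PK.LKa77
import Pool.Agent.W_7d29a1_PK.DefsLK5

/-!
`UppL`: at a good scale the polymers of all the lengths up to the scale stay in the tube
(helper77).
-/

set_option autoImplicit false

namespace Pool.Agent.W_7d29a1_PK

open MeasureTheory ProbabilityTheory Filter Topology Set Pool.Agent.W_MP_7d29a1_pr
  Pool.Agent.W_7d29a1_h46 Pool.Agent.W_7d29a1_h46u Pool.Agent.W_7d29a1_D2
  Pool.Agent.W_7d29a1_PK.Half77 Pool.Agent.W_7d29a1_PK.LK77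

variable {d : ℕ} {ρ : Measure ℝ} [IsProbabilityMeasure ρ] {β : ℝ}

namespace Upp77

/-- The sign. -/
def sg (b : Bool) : ℝ := if b then 1 else -1

lemma inner_ej (c : ℝ) (j : Fin d) (x : Vec d) : inner ℝ (c • (ej j : Vec d)) x = c * x j := by
  have h := TubU_inner (0 : Vec d) c j x
  rw [zero_add, inner_zero_left, zero_add] at h
  exact h

lemma norm_ej (j : Fin d) : ‖(ej j : Vec d)‖ = 1 := by
  unfold ej
  simp

lemma far_eq (β : ℝ) (h v : Vec d) (η : Env d) (n i : ℕ) (j : Fin d) (b : Bool) (w : ℝ) :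
    Far β h η n i j v (sg b) w =
      ZT β h η (Hn d n i (sg b • (ej j : Vec d)) (sg b * v j) w) / Z β h η n := by
  unfold Far Hn
  congr 2
  ext p
  have h1 : |sg b| = 1 := by
    cases b <;> simp [sg]
  show |sg b| * w ≤ sg b * ((emb (pos p i)) j - i * v j) ↔
    w ≤ inner ℝ (sg b • (ej j : Vec d)) (emb (pos p i)) - i * (sg b * v j)
  rw [h1, inner_ej, one_mul]
  have h2 : sg b * (emb (pos p i)) j - i * (sg b * v j) =
      sg b * ((emb (pos p i)) j - i * v j) := by ring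
  rw [h2]

lemma up_ray {h v : Vec d} {p C δ : ℝ} {L : Vec d → ℝ}
    (hU : ∀ r : Vec d, ‖r‖ ≤ δ → gap L h v r ≤ C * ‖r‖ ^ p) (j : Fin d) (b : Bool) :
    ∀ t : ℝ, 0 < t → t ≤ δ → L (h + t • (sg b • (ej j : Vec d))) ≤
      L h + t * (sg b * v j) + (|C| + 1) * t ^ p := by
  intro t ht htδ
  have hn : ‖t • (sg b • (ej j : Vec d))‖ = t := by
    have h1 : |sg b| = 1 := by
      cases b <;> simp [sg]
    rw [norm_smul, norm_smul, norm_ej, Real.norm_eq_abs, Real.norm_eq_abs, h1, abs_of_pos ht]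
    ring
  have h1 := hU (t • (sg b • (ej j : Vec d))) (by rw [hn]; exact htδ)
  have h2 : inner ℝ v (t • (sg b • (ej j : Vec d))) = t * (sg b * v j) := by
    rw [real_inner_comm, smul_smul, inner_ej]
    ring
  unfold gap at h1
  rw [hn, h2] at h1
  have h3 : C * t ^ p ≤ (|C| + 1) * t ^ p :=
    mul_le_mul_of_nonneg_right (by linarith [le_abs_self C]) (Real.rpow_nonneg ht.le _)
  linarith

end Upp77

open Upp77

/-- **UPPL**, every law with the amplification of the masses of sets of walks. -/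
theorem uppL77 (hd : 0 < d) (hρ : EM ρ) (hE : AmpE ρ β d) : UppL d ρ β := by
  intro h v p a y hp hy ha1 hU hax q
  obtain ⟨C, δ, hδ, hgap⟩ := hU
  have hd0 : (0 : ℝ) < d := by exact_mod_cast hd
  obtain ⟨q₁, hq₁⟩ : ∃ q₁ : ℝ, q₁ = q + d + 3 := ⟨_, rfl⟩
  have hq0 : (0 : ℝ) ≤ q := Nat.cast_nonneg q
  have hq₁0 : 0 < q₁ := by
    rw [hq₁]
    linarith
  obtain ⟨Q, HQ⟩ := half hd hρ hE h hp hy ha1 hax q₁
  have hev : ∀ k : Fin d × Bool, ∀ᶠ M : ℕ in atTop,
      (∀ l ≤ M, (law d ρ).real {η | l * lam ρ β h + 2 * (M : ℝ) ^ y ≤ X β h η l} ≤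
        (M : ℝ) ^ (-Q)) →
      ∀ i ≤ M, (law d ρ).real {η | Real.exp (i * lam ρ β h - 12 * (M : ℝ) ^ y) <
        ZT β h η (Hn d i i (sg k.2 • (ej k.1 : Vec d)) (sg k.2 * v k.1)
          (1 / d * (M : ℝ) ^ a))} ≤ (M : ℝ) ^ (-q₁) := fun k =>
    HQ _ _ (|C| + 1) δ (1 / d) hδ (by positivity) (by positivity) (up_ray hgap k.1 k.2)
  obtain ⟨K, hK⟩ : ∃ K : ℝ, K = 2 * 3 ^ d + 1 + 8 * d := ⟨_, rfl⟩
  obtain ⟨N₀, hN₀⟩ := eventually_atTop.1 ((eventually_all.2 hev).and (ev_log2 hy q₁ hq₁0.le))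
  refine ⟨max Q q₁, lt_max_of_lt_right hq₁0, max (max N₀ 2) (⌈K⌉₊ + 1),
    fun N hN hG n hn => ?_⟩
  have hNN : N₀ ≤ N := ((le_max_left _ _).trans (le_max_left _ _)).trans hN
  have hN2 : 2 ≤ N := ((le_max_right _ _).trans (le_max_left _ _)).trans hN
  have hNK : K < N := by
    have h1 : ⌈K⌉₊ + 1 ≤ N := (le_max_right _ _).trans hN
    have h2 : ((⌈K⌉₊ + 1 : ℕ) : ℝ) ≤ N := by exact_mod_cast h1
    push_cast at h2
    linarith [Nat.le_ceil K]
  have hN2' : (2 : ℝ) ≤ N := by exact_mod_cast hN2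
  have hN1 : (1 : ℝ) ≤ N := by linarith
  have hNp : (0 : ℝ) < N := by linarith
  have hnN : (n : ℝ) ≤ N := by exact_mod_cast hn
  have hn0 : (0 : ℝ) ≤ n := Nat.cast_nonneg n
  obtain ⟨hhalf, hlog⟩ := hN₀ N hNN
  have hlogN : 0 ≤ Real.log N := Real.log_nonneg hN1
  have hNy : 10 ≤ (N : ℝ) ^ y := by
    have : 0 ≤ q₁ * (1 + Real.log N) := by positivity
    linarith
  have hup : ∀ l ≤ N, (law d ρ).real {η | l * lam ρ β h + 2 * (N : ℝ) ^ y ≤ X β h η l} ≤
      (N : ℝ) ^ (-Q) := by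
    intro l hl
    refine (measureReal_mono ?_).trans ((hG l hl).trans
      (Real.rpow_le_rpow_of_exponent_le hN1 (neg_le_neg (le_max_left _ _))))
    intro η (hη : l * lam ρ β h + 2 * (N : ℝ) ^ y ≤ X β h η l)
    show (N : ℝ) ^ y < |X β h η l - l * lam ρ β h|
    refine lt_of_lt_of_le ?_ (le_abs_self _)
    linarith
  have hgd : ∀ l ≤ N, (law d ρ).real {η | (N : ℝ) ^ y < |X β h η l - l * lam ρ β h|} ≤
      (N : ℝ) ^ (-q₁) := fun l hl =>
    (hG l hl).trans (Real.rpow_le_rpow_of_exponent_le hN1 (neg_le_neg (le_max_right _ _)))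
  obtain ⟨B, hB⟩ : ∃ B : ℝ, B = (N : ℝ) ^ (-q₁) := ⟨_, rfl⟩
  have hB0 : 0 < B := by
    rw [hB]
    exact Real.rpow_pos_of_pos hNp _
  -- the bad events
  obtain ⟨S1, hS1⟩ : ∃ S1 : ℕ × Site d → Set (Env d), S1 = fun m =>
      {η | (N : ℝ) ^ y < |X β h (sh m.1 m.2 η) (n - m.1) - ((n - m.1 : ℕ) : ℝ) * lam ρ β h|} :=
    ⟨_, rfl⟩
  obtain ⟨S2, hS2⟩ : ∃ S2 : ℕ × (Fin d × Bool) → Set (Env d), S2 = fun m =>
      {η | Real.exp (m.1 * lam ρ β h - 12 * (N : ℝ) ^ y) <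
        ZT β h η (Hn d m.1 m.1 (sg m.2.2 • (ej m.2.1 : Vec d)) (sg m.2.2 * v m.2.1)
          (1 / d * (N : ℝ) ^ a))} := ⟨_, rfl⟩
  obtain ⟨S3, hS3⟩ : ∃ S3 : Set (Env d), S3 =
      {η | (N : ℝ) ^ y < |X β h η n - n * lam ρ β h|} := ⟨_, rfl⟩
  have b1 : ∀ m ∈ (Finset.range (n + 1)) ×ˢ boxF d n, (law d ρ).real (S1 m) ≤ B := by
    intro m _
    have hmeas : MeasurableSet {η : Env d | (N : ℝ) ^ y <
        |X β h η (n - m.1) - ((n - m.1 : ℕ) : ℝ) * lam ρ β h|} :=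
      measurableSet_lt measurable_const ((measurable_X β h (n - m.1)).sub_const _).abs
    have h1 : (law d ρ).real (S1 m) = (law d ρ).real {η : Env d | (N : ℝ) ^ y <
        |X β h η (n - m.1) - ((n - m.1 : ℕ) : ℝ) * lam ρ β h|} := by
      rw [hS1]
      exact real_shift80 hmeas m.1 m.2
    rw [h1, hB]
    exact hgd (n - m.1) ((Nat.sub_le _ _).trans hn)
  have b2 : ∀ m ∈ (Finset.range (n + 1)) ×ˢ (Finset.univ : Finset (Fin d × Bool)),
      (law d ρ).real (S2 m) ≤ B := by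
    intro m hm
    have hm1 : m.1 ≤ N :=
      (Nat.lt_succ_iff.1 (Finset.mem_range.1 (Finset.mem_product.1 hm).1)).trans hn
    rw [hS2, hB]
    exact hhalf m.2 hup m.1 hm1
  have b3 : (law d ρ).real S3 ≤ B := by
    rw [hS3, hB]
    exact hgd n hn
  obtain ⟨G, hGdef⟩ : ∃ G : Set (Env d), G =
      ((⋃ m ∈ (Finset.range (n + 1)) ×ˢ boxF d n, S1 m) ∪
        (⋃ m ∈ (Finset.range (n + 1)) ×ˢ (Finset.univ : Finset (Fin d × Bool)), S2 m) ∪ S3)ᶜ :=
    ⟨_, rfl⟩
  have hGc : (law d ρ).real Gᶜ ≤ ((n : ℝ) + 1) * (2 * n + 1) ^ d * B +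
      ((n : ℝ) + 1) * (2 * d) * B + B := by
    rw [hGdef, compl_compl]
    refine (measureReal_union_le _ _).trans (add_le_add
      ((measureReal_union_le _ _).trans (add_le_add ?_ ?_)) b3)
    · refine (measureReal_biUnion_finset_le _ _).trans ((Finset.sum_le_sum b1).trans
        (le_of_eq ?_))
      rw [Finset.sum_const, Finset.card_product, Finset.card_range, card_boxF, nsmul_eq_mul]
      push_cast
      ring
    · refine (measureReal_biUnion_finset_le _ _).trans ((Finset.sum_le_sum b2).trans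
        (le_of_eq ?_))
      rw [Finset.sum_const, Finset.card_product, Finset.card_range, nsmul_eq_mul,
        Finset.card_univ, Fintype.card_prod, Fintype.card_fin, Fintype.card_bool]
      push_cast
      ring
  have hexp : Real.exp (-(10 * (N : ℝ) ^ y)) ≤ B := by
    have h1 : B = Real.exp (-(q₁ * Real.log N)) := by
      rw [hB, Real.rpow_def_of_pos hNp]
      congr 1
      ring
    rw [h1]
    refine Real.exp_le_exp.2 (neg_le_neg ?_)
    nlinarith
  have hgood : ∀ η ∈ G, 1 - PolT β h η (tube d n v ((N : ℝ) ^ a)) ≤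
      ((n : ℝ) + 1) * (2 * d) * B := by
    intro η hη
    rw [hGdef, mem_compl_iff, mem_union, mem_union, not_or, not_or, mem_iUnion₂,
      mem_iUnion₂] at hη
    obtain ⟨⟨g1, g2⟩, g3⟩ := hη
    have hZn : 0 < Z β h η n := Z_pos hd β h η n
    have hXn : n * lam ρ β h - (N : ℝ) ^ y ≤ X β h η n := by
      have h1 : ¬ (N : ℝ) ^ y < |X β h η n - n * lam ρ β h| := by
        intro h2
        apply g3
        rw [hS3]
        exact h2
      have h2 := (abs_le.1 (not_lt.1 h1)).1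
      linarith
    have hfar : ∀ i ≤ n, ∀ k : Fin d × Bool,
        ZT β h η (Hn d n i (sg k.2 • (ej k.1 : Vec d)) (sg k.2 * v k.1)
          (1 / d * (N : ℝ) ^ a)) / Z β h η n ≤ B := by
      intro i hi k
      have hi' : i ∈ Finset.range (n + 1) := Finset.mem_range.2 (Nat.lt_succ_iff.2 hi)
      have hM : ∀ z ∈ boxF d i, Z β h (sh i z η) (n - i) ≤
          Real.exp (((n - i : ℕ) : ℝ) * lam ρ β h + (N : ℝ) ^ y) := by
        intro z hz
        have h1 : ¬ (N : ℝ) ^ y <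
            |X β h (sh i z η) (n - i) - ((n - i : ℕ) : ℝ) * lam ρ β h| := by
          intro h2
          refine g1 ⟨(i, z), Finset.mem_product.2 ⟨hi', TubV_box hi hz⟩, ?_⟩
          rw [hS1]
          exact h2
        have h2 := (abs_le.1 (not_lt.1 h1)).2
        rw [TubV_exp hd]
        exact Real.exp_le_exp.2 (by linarith)
      have h1 := hn_le β h (sg k.2 • (ej k.1 : Vec d)) η hi (sg k.2 * v k.1)
        (1 / d * (N : ℝ) ^ a) hM
      have h2 : ZT β h η (Hn d i i (sg k.2 • (ej k.1 : Vec d)) (sg k.2 * v k.1)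
          (1 / d * (N : ℝ) ^ a)) ≤ Real.exp (i * lam ρ β h - 12 * (N : ℝ) ^ y) := by
        by_contra hc
        refine g2 ⟨(i, k), Finset.mem_product.2 ⟨hi', Finset.mem_univ _⟩, ?_⟩
        rw [hS2]
        exact not_le.1 hc
      refine le_trans ?_ hexp
      rw [div_le_iff₀ hZn]
      refine h1.trans ((mul_le_mul_of_nonneg_right h2 (Real.exp_pos _).le).trans ?_)
      rw [TubV_exp hd, ← Real.exp_add, ← Real.exp_add]
      refine Real.exp_le_exp.2 ?_
      have h3 : ((n - i : ℕ) : ℝ) = n - i := by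
        rw [Nat.cast_sub hi]
      rw [h3]
      nlinarith
    refine (one_sub_le hd β h η n v (r := (N : ℝ) ^ a) one_pos).trans ?_
    have h5 : ∀ i ∈ Finset.range (n + 1), ∑ j : Fin d,
        (Far β h η n i j v 1 ((N : ℝ) ^ a / d) + Far β h η n i j v (-1) ((N : ℝ) ^ a / d)) ≤
        2 * d * B := by
      intro i hi
      have hi' : i ≤ n := Nat.lt_succ_iff.1 (Finset.mem_range.1 hi)
      have h6 : ∀ j ∈ (Finset.univ : Finset (Fin d)),
          Far β h η n i j v 1 ((N : ℝ) ^ a / d) + Far β h η n i j v (-1) ((N : ℝ) ^ a / d) ≤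
            2 * B := by
        intro j _
        have a1 := far_eq β h v η n i j true ((N : ℝ) ^ a / d)
        have a2 := far_eq β h v η n i j false ((N : ℝ) ^ a / d)
        have e : (N : ℝ) ^ a / d = 1 / d * (N : ℝ) ^ a := by ring
        have c1 := hfar i hi' (j, true)
        have c2 := hfar i hi' (j, false)
        simp only at c1 c2
        rw [← e, ← a1] at c1
        rw [← e, ← a2] at c2
        have s1 : sg true = 1 := by simp [sg]
        have s2 : sg false = -1 := by simp [sg]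
        rw [s1] at c1
        rw [s2] at c2
        linarith
      refine (Finset.sum_le_sum h6).trans (le_of_eq ?_)
      rw [Finset.sum_const, Finset.card_univ, Fintype.card_fin, nsmul_eq_mul]
      ring
    refine (Finset.sum_le_sum h5).trans (le_of_eq ?_)
    rw [Finset.sum_const, Finset.card_range, nsmul_eq_mul]
    push_cast
    ring
  have hmain := TubW_split (μ := law d ρ)
    (f := fun η => 1 - PolT β h η (tube d n v ((N : ℝ) ^ a)))
    (fun η => by
      have := PolT_nonneg β h η (tube d n v ((N : ℝ) ^ a))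
      linarith)
    (G := G) (b := ((n : ℝ) + 1) * (2 * d) * B) (by positivity) hgood
    (fun η => by
      have := PolT_le_one β h η (tube d n v ((N : ℝ) ^ a))
      linarith)
  refine lt_of_le_of_lt (hmain.trans (add_le_add hGc le_rfl)) ?_
  have e4 : (n : ℝ) + 1 ≤ 2 * N := by linarith
  have e5 : (2 * (n : ℝ) + 1) ^ d ≤ 3 ^ d * (N : ℝ) ^ d := by
    rw [← mul_pow]
    exact pow_le_pow_left₀ (by positivity) (by linarith) d
  have e6 : (1 : ℝ) ≤ (N : ℝ) ^ d := one_le_pow₀ hN1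
  have e7 : ((n : ℝ) + 1) * (2 * n + 1) ^ d ≤ 2 * 3 ^ d * ((N : ℝ) ^ d * N) := by
    have := mul_le_mul e4 e5 (by positivity) (by positivity : (0 : ℝ) ≤ 2 * N)
    linarith
  have e8 : (N : ℝ) ≤ (N : ℝ) ^ d * N := le_mul_of_one_le_left hNp.le e6
  have e9 : ((n : ℝ) + 1) * (2 * d) ≤ 4 * d * ((N : ℝ) ^ d * N) := by
    have h1 : ((n : ℝ) + 1) * (2 * d) ≤ 2 * N * (2 * d) :=
      mul_le_mul_of_nonneg_right e4 (by positivity)
    have h2 : (4 * d) * (N : ℝ) ≤ 4 * d * ((N : ℝ) ^ d * N) :=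
      mul_le_mul_of_nonneg_left e8 (by positivity)
    linarith
  have e10 : (1 : ℝ) ≤ (N : ℝ) ^ d * N := by linarith
  have e11 : ((n : ℝ) + 1) * (2 * n + 1) ^ d * B + ((n : ℝ) + 1) * (2 * d) * B + B +
      ((n : ℝ) + 1) * (2 * d) * B ≤ K * ((N : ℝ) ^ d * N) * B := by
    have h1 : ((n : ℝ) + 1) * (2 * n + 1) ^ d + ((n : ℝ) + 1) * (2 * d) + 1 +
        ((n : ℝ) + 1) * (2 * d) ≤ K * ((N : ℝ) ^ d * N) := by
      rw [hK]
      linarith
    have h2 := mul_le_mul_of_nonneg_right h1 hB0.le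
    linarith
  refine lt_of_le_of_lt e11 ?_
  have e12 : (N : ℝ) ^ d * N * B = (N : ℝ) ^ (-(q : ℝ)) * (N : ℝ) ^ (-(2 : ℝ)) := by
    rw [hB, ← Real.rpow_natCast]
    nth_rewrite 2 [← Real.rpow_one (N : ℝ)]
    rw [← Real.rpow_add hNp, ← Real.rpow_add hNp, ← Real.rpow_add hNp]
    congr 1
    rw [hq₁]
    ring
  have e13 : K * (N : ℝ) ^ (-(2 : ℝ)) < 1 := by
    rw [Real.rpow_neg hNp.le, Real.rpow_two, ← div_eq_mul_inv, div_lt_one (by positivity)]
    nlinarith
  calc K * ((N : ℝ) ^ d * N) * B = K * (N : ℝ) ^ (-(2 : ℝ)) * (N : ℝ) ^ (-(q : ℝ)) := by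
        rw [mul_assoc, e12]
        ring
    _ < 1 * (N : ℝ) ^ (-(q : ℝ)) :=
        mul_lt_mul_of_pos_right e13 (Real.rpow_pos_of_pos hNp _)
    _ = _ := one_mul _

/-- **UPPL**, every law. -/
theorem uppLAll77 (hd : 0 < d) (hρ : EM ρ) (hnc : ∀ c : ℝ, ρ {c} ≠ 1) (hβ : 0 < β) :
    UppL d ρ β := uppL77 hd hρ (ampEAll hρ hnc hβ)

end Pool.Agent.W_7d29a1_PK
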