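import Pool.Agent.W_7d29a1_PK.All2
import Pool.Agent.W_7d29a1_PK.MomL81
import Pool.Agent.W_7d29a1_PK.LowL83
import Pool.Agent.W_7d29a1_PK.Good5
import Pool.Agent.W_7d29a1_PK.Upp77
import Pool.Agent.W_7d29a1_PK.Lk63
import Pool.Agent.W_7d29a1_PK.Let63

/-!
The KPZ relation at every tilt and every velocity, for the lower exponents; every law with all
exponential moments, every dimension: the assembly (helper63).
-/

namespace Pool.Agent.W_7d29a1_PK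

open MeasureTheory ProbabilityTheory Filter Topology Pool.Agent.W_MP_7d29a1_pr
  Pool.Agent.W_7d29a1_h46 Pool.Agent.W_7d29a1_h46u Pool.Agent.W_7d29a1_D2

/-- The first half in the model, every law. -/
theorem lkLowAll63 {d : ℕ} (hd : 0 < d) {ρ : Measure ℝ} [IsProbabilityMeasure ρ] (hρ : EM ρ)
    (hnc : ∀ c : ℝ, ρ {c} ≠ 1) {β : ℝ} (hβ : 0 < β) : LkLow d ρ β :=
  lkLow63 (momL81 hd hρ (ampAll2 hd hρ hnc hβ) (low33 hd hρ β))
    (lowL83 (stpAll2 hd hρ hnc hβ) (tail81 hd hρ))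

/-- The second half in the model, every law. -/
theorem lkUpAll63 {d : ℕ} (hd : 0 < d) {ρ : Measure ℝ} [IsProbabilityMeasure ρ] (hρ : EM ρ)
    (hnc : ∀ c : ℝ, ρ {c} ≠ 1) {β : ℝ} (hβ : 0 < β) : LkUp d ρ β :=
  lkUp63 (good5 hd hρ (low33 hd hρ β) (upl33 hd (low33 hd hρ β)) (ampAll2 hd hρ hnc hβ))
    (uppLAll77 hd hρ hnc hβ)

section Final

variable {d : ℕ} {Ω : Type*} [MeasurableSpace Ω] {μ : Measure Ω} [IsProbabilityMeasure μ]
  {ρ : Measure ℝ} [IsProbabilityMeasure ρ] {ω : ℕ × Site d → Ω → ℝ} {β : ℝ}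

/-- **C1**, every law. -/
theorem lkC1All63 (hd : 0 < d) (hω : IID μ ρ ω) (hρ : EM ρ) (hnc : ∀ c : ℝ, ρ {c} ≠ 1)
    (hβ : 0 < β) {h v : Vec d} {p : ℝ} (hp : 1 < p) (hUp : UpG (lam ρ β) h v p) :
    p * nuLo μ β ω h v ≤ 1 + (p - 1) * chiLo μ β ω h :=
  L63.lkC1_63 hd hω hρ (lkUpAll63 hd hρ hnc hβ) hp hUp

/-- **C2**, every law. -/
theorem lkC2All63 (hd : 0 < d) (hω : IID μ ρ ω) (hρ : EM ρ) (hnc : ∀ c : ℝ, ρ {c} ≠ 1)
    (hβ : 0 < β) {h v : Vec d} {p : ℝ} (hp : 1 ≤ p) (hLo : LoA (lam ρ β) h v p) :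
    1 + (p - 1) * chiLo μ β ω h ≤ p * nuLo μ β ω h v :=
  L63.lkC2_63 hd hω hρ (lkLowAll63 hd hρ hnc hβ) hp hLo

/-- **The theorem**: the KPZ relation for the lower exponents where the free energy is quadratic. -/
theorem lkAll63 (hd : 0 < d) (hω : IID μ ρ ω) (hρ : EM ρ) (hnc : ∀ c : ℝ, ρ {c} ≠ 1)
    (hβ : 0 < β) {h v : Vec d} (hLo : LoA (lam ρ β) h v 2) (hUp : UpG (lam ρ β) h v 2) :
    chiLo μ β ω h = 2 * nuLo μ β ω h v - 1 := by
  have h1 := lkC1All63 (μ := μ) (ω := ω) hd hω hρ hnc hβ one_lt_two hUp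
  have h2 := lkC2All63 (μ := μ) (ω := ω) hd hω hρ hnc hβ one_le_two hLo
  linarith

end Final

end Pool.Agent.W_7d29a1_PK
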