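import Pool.Agent.W_7d29a1_PK.DefsPK2
import Pool.Agent.W_7d29a1_KZ.TrZ19
import Pool.Agent.W_7d29a1_KL.TubeL46

/-!
THEOREM PK in the letters of the exponents: from the model `law d ρ` to the field of the theorem.
-/

set_option autoImplicit false

namespace Pool.Agent.W_7d29a1_PK

open MeasureTheory ProbabilityTheory Filter Topology Pool.Agent.W_MP_7d29a1_pr
  Pool.Agent.W_7d29a1_h46 Pool.Agent.W_7d29a1_h46u Pool.Agent.W_7d29a1_D2
  Pool.Agent.W_7d29a1_Q29 Pool.Agent.W_7d29a1_V Pool.Agent.W_7d29a1_VT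

namespace L98

variable {d : ℕ} {Ω : Type*} [MeasurableSpace Ω] {μ : Measure Ω} [IsProbabilityMeasure μ]
  {ρ : Measure ℝ} [IsProbabilityMeasure ρ] {ω : ℕ × Site d → Ω → ℝ} {β : ℝ}

/-- The statement at one member of the set of the wandering exponent, with the exponent of all
moments. -/
lemma core98 (hd : 0 < d) (hω : IID μ ρ ω) (hρ : EM ρ) {h : Vec d} {p a : ℝ}
    (H : 1 ≤ p * a ∧ ∀ x : ℝ, 0 < x → ¬ FlF ρ β h x → 1 + (p - 1) * x ≤ p * a) (hp : 1 ≤ p) :
    1 + (p - 1) * chiF μ β ω h ≤ p * a := by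
  obtain ⟨h1, h2⟩ := H
  have h0 : 0 ≤ chiF μ β ω h := chiF_nonneg h
  rcases h0.eq_or_lt with h3 | h3
  · rw [← h3, mul_zero, add_zero]
    exact h1
  · have h4 : ∀ x : ℝ, 0 < x → x < chiF μ β ω h → 1 + (p - 1) * x ≤ p * a := by
      intro x hx hxc
      refine h2 x hx fun hF => ?_
      exact absurd (csInf_le (bddBelow_chiSetF h) ((mem_chiSetF (μ := μ) (β := β) hd hω hρ h x).2
        ⟨hx, hF⟩)) (not_le.2 hxc)
    refine le_of_forall_pos_le_add fun ε hε => ?_
    obtain ⟨x, hx⟩ : ∃ x : ℝ, x = max (chiF μ β ω h / 2) (chiF μ β ω h - ε / p) := ⟨_, rfl⟩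
    have hp0 : 0 < p := by linarith
    have hεp : 0 < ε / p := div_pos hε hp0
    have hx0 : 0 < x := by
      rw [hx]
      exact lt_of_lt_of_le (half_pos h3) (le_max_left _ _)
    have hx1 : x < chiF μ β ω h := by
      rw [hx]
      exact max_lt (by linarith) (by linarith)
    have hx2 : chiF μ β ω h - ε / p ≤ x := by
      rw [hx]
      exact le_max_right _ _
    have h5 := h4 x hx0 hx1
    have h6 : (p - 1) * (chiF μ β ω h - ε / p) ≤ (p - 1) * x :=
      mul_le_mul_of_nonneg_left hx2 (by linarith)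
    have h7 : (p - 1) * (ε / p) ≤ ε := by
      have h8 : (p - 1) * (ε / p) = ε - ε / p := by
        field_simp
      rw [h8]
      linarith
    have h8 : (p - 1) * (chiF μ β ω h - ε / p) =
        (p - 1) * chiF μ β ω h - (p - 1) * (ε / p) := by ring
    linarith

/-- **The second half of the KPZ relation at one tilt and one velocity.** -/
theorem letT98 (hM : MainT d ρ β) (hd : 0 < d) (hω : IID μ ρ ω) (hρ : EM ρ) {h v : Vec d}
    {p : ℝ} (hp : 1 ≤ p) (hLo : LoA (lam ρ β) h v p) :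
    1 + (p - 1) * chiF μ β ω h ≤ p * nuS μ β ω h v := by
  have hp0 : 0 < p := by linarith
  have h1 : (1 + (p - 1) * chiF μ β ω h) / p ≤ nuS μ β ω h v := by
    refine le_csInf ⟨2, StrB_two_mem hd ω β h v⟩ fun a ha => ?_
    rw [div_le_iff₀ hp0, mul_comm a p]
    obtain ⟨-, hT⟩ := (mem_nuSetS hω h v a).1 ha
    exact core98 hd hω hρ (hM h v p a hp hLo hT) hp
  rwa [div_le_iff₀ hp0, mul_comm (nuS μ β ω h v) p] at h1

/-- **The second half of the KPZ relation at one tilt and one line**, for one component. -/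
theorem letL98 (hM : MainL d ρ β) (hd : 0 < d) (hω : IID μ ρ ω) (hρ : EM ρ) {h w : Vec d}
    {s p : ℝ} (hp : 1 ≤ p) (hLo : LoR (lam ρ β) h w s p) :
    1 + (p - 1) * chiF μ β ω h ≤ p * nuL μ β ω h w s := by
  have hp0 : 0 < p := by linarith
  have h1 : (1 + (p - 1) * chiF μ β ω h) / p ≤ nuL μ β ω h w s := by
    refine le_csInf ⟨2, two_mem_nuSetL hd hω h w s⟩ fun a ha => ?_
    rw [div_le_iff₀ hp0, mul_comm a p]
    obtain ⟨-, hT⟩ := (mem_nuSetL hω h w s a).1 ha
    exact core98 hd hω hρ (hM h w s p a hp hLo hT) hp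
  rwa [div_le_iff₀ hp0, mul_comm (nuL μ β ω h w s) p] at h1

/-- **An upper bound of the free energy without any hypothesis about it.** -/
theorem letB98 (hB : BonT d ρ β)
    (hB0 : ∀ (h v : Vec d) (p a : ℝ), 1 ≤ p → TbF ρ β h v a → p * a < 1 → UpG (lam ρ β) h v p)
    (hd : 0 < d) (hω : IID μ ρ ω) (hρ : EM ρ) {h v : Vec d}
    {p : ℝ} (hp : 1 ≤ p) (hlt : p * nuS μ β ω h v < 1 + (p - 1) * chiT μ β ω h) :
    UpG (lam ρ β) h v p := by
  have hp0 : 0 < p := by linarith
  have h1 : nuS μ β ω h v < (1 + (p - 1) * chiT μ β ω h) / p := by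
    rw [lt_div_iff₀ hp0, mul_comm]
    exact hlt
  obtain ⟨a, ha, ha1⟩ := exists_lt_of_csInf_lt (s := nuSetS μ β ω h v)
    ⟨2, StrB_two_mem hd ω β h v⟩ h1
  rw [lt_div_iff₀ hp0, mul_comm] at ha1
  obtain ⟨-, hT⟩ := (mem_nuSetS hω h v a).1 ha
  rcases lt_or_ge (p * a) 1 with h2 | h2
  · exact hB0 h v p a hp hT h2
  · have h3 : 0 < (p - 1) * chiT μ β ω h := by linarith
    have hp1 : 0 < p - 1 := by
      rcases (sub_nonneg.2 hp).eq_or_lt with h4 | h4
      · rw [← h4, zero_mul] at h3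
        exact absurd h3 (lt_irrefl _)
      · exact h4
    have h5 : (p * a - 1) / (p - 1) < chiT μ β ω h := by
      rw [div_lt_iff₀ hp1, mul_comm]
      linarith
    have hne : {x : ℝ | 0 < x ∧ ∀ᶠ n : ℕ in Filter.atTop,
        (n : ℝ) ^ (2 * x) ≤ Var[fun y => Real.log (Zn β h (fun p => ω p y) n); μ]}.Nonempty := by
      by_contra h6
      rw [Set.not_nonempty_iff_eq_empty] at h6
      have h7 : chiT μ β ω h = 0 := by
        unfold chiT
        rw [h6, Real.sSup_empty]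
      rw [h7, mul_zero] at h3
      exact lt_irrefl _ h3
    obtain ⟨x, ⟨hx0, hx⟩, hx1⟩ := exists_lt_of_lt_csSup hne h5
    refine hB h v p a x hp hT hx0 ?_ ?_
    · filter_upwards [hx] with n hn
      rwa [W_7d29a1_KZ.varV19 hd hω hρ] at hn
    · rw [div_lt_iff₀ hp1, mul_comm] at hx1
      linarith

end L98

end Pool.Agent.W_7d29a1_PK
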