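import Pool.Agent.W_7d29a1_NR.NrAll86
import Pool.Agent.W_7d29a1_KL.FlucD46
import Pool.Agent.W_7d29a1_D2.Den67
import Pool.Agent.W_7d29a1_D2.TrF53
import Pool.Agent.W_7d29a1_SP.Bas15

/-!
The nonrandom fluctuation of the free energy is at most `n ^ x` for every `x` above the exponent of
the variance: every tilt, every law of the problem, in the letters of the problem.
-/

set_option autoImplicit false

namespace Pool.Agent.W_7d29a1_PK.Nr11

open MeasureTheory ProbabilityTheory Filter Topology Pool.Agent.W_MP_7d29a1_pr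
  Pool.Agent.W_7d29a1_h46 Pool.Agent.W_7d29a1_h46u Pool.Agent.W_7d29a1_D2
  Pool.Agent.W_7d29a1_D2.B35 Pool.Agent.W_7d29a1_Q29 Pool.Agent.W_7d29a1_R34
  Pool.Agent.W_7d29a1_SP Pool.Agent.W_7d29a1_KL Pool.Agent.W_7d29a1_NR

variable {d : ℕ} {Ω : Type*} [MeasurableSpace Ω] {μ : Measure Ω} [IsProbabilityMeasure μ]
  {ρ : Measure ℝ} [IsProbabilityMeasure ρ] {ω : ℕ × Site d → Ω → ℝ} {β : ℝ}

/-- The variance of the problem is `Va`. -/
lemma varV11 (hd : 0 < d) (hω : IID μ ρ ω) (hρ : EM ρ) (h : Vec d) (n : ℕ) :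
    Var[fun y => Real.log (Zn β h (fun p => ω p y) n); μ] = Va ρ β h n := by
  rw [K67.var67 hd hω hρ]
  unfold Va
  simp only [sq_abs]

/-- The variance is at most `n ^ 2` for all large `n`. -/
lemma var_one11 (hd : 0 < d) (hω : IID μ ρ ω) (hρ : EM ρ) (h : Vec d) :
    ∀ᶠ n : ℕ in atTop,
      Var[fun y => Real.log (Zn β h (fun p => ω p y) n); μ] ≤ (n : ℝ) ^ (2 * (1 : ℝ)) := by
  obtain ⟨-, hF⟩ := (mem_chiSetF (μ := μ) (β := β) hd hω hρ h (1 / 2)).1
    (half_mem_chiSetF hd hω hρ h)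
  obtain ⟨C, hC⟩ := hF 2
  filter_upwards [tendsto_natCast_atTop_atTop.eventually_ge_atTop C, eventually_ge_atTop 1]
    with n hn hn1
  have hn0 : (0 : ℝ) < n := by exact_mod_cast hn1
  rw [varV11 hd hω hρ]
  have h6 := hC n hn1
  rw [show (1 / 2 * ((2 : ℕ) : ℝ)) = 1 by norm_num, Real.rpow_one] at h6
  have h7 : ∫ η, |X β h η n - A ρ β h n| ^ 2 ∂(law d ρ) = Va ρ β h n := by
    unfold Va
    simp only [sq_abs]
  rw [h7] at h6
  have h2 : (n : ℝ) ^ (2 * (1 : ℝ)) = (n : ℝ) * n := by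
    rw [mul_one, show (2 : ℝ) = ((2 : ℕ) : ℝ) by norm_num, Real.rpow_natCast]
    ring
  rw [h2]
  exact h6.trans (mul_le_mul_of_nonneg_right hn hn0.le)

/-- The mean of the problem. -/
lemma mean11 (hd : 0 < d) (hω : IID μ ρ ω) (hρ : EM ρ) (h : Vec d) (n : ℕ) :
    ∫ y, Real.log (Zn β h (fun p => ω p y) n) ∂μ = A ρ β h n - n * Real.log (2 * d) := by
  have hX := measurable_X (d := d) β h n
  have e2 : ∫ z, Real.log (Zn β h (fun p => ω p z) n) ∂μ =
      ∫ z, (fun η : Env d => X β h η n - Real.log ((2 * d : ℝ) ^ n)) (fun p => ω p z) ∂μ :=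
    integral_congr_ae (Filter.Eventually.of_forall fun z => StrA_log hd β h _ n)
  rw [e2, StrA_int hω (hX.sub_const _), integral_sub (concU hd hρ β h n).1 (integrable_const _),
    integral_const, Real.log_pow]
  unfold A
  simp

/-- The nonrandom fluctuation against the exponent of the variance, in the model. -/
theorem enV11 (hd : 0 < d) (hω : IID μ ρ ω) (hρ : EM ρ) (hnc : ∀ c : ℝ, ρ {c} ≠ 1) (hβ : 0 < β)
    (h : Vec d) {x : ℝ} (hx : chiV μ β ω h < x) :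
    ∀ᶠ n : ℕ in atTop, En ρ β h n ≤ (n : ℝ) ^ x := by
  have hne : {x : ℝ | 0 < x ∧ ∀ᶠ n : ℕ in atTop,
      Var[fun y => Real.log (Zn β h (fun p => ω p y) n); μ] ≤ (n : ℝ) ^ (2 * x)}.Nonempty :=
    ⟨1, one_pos, var_one11 hd hω hρ h⟩
  obtain ⟨b, hb, hbx⟩ := exists_lt_of_csInf_lt hne hx
  have hV : ∀ᶠ n : ℕ in atTop, Va ρ β h n ≤ (n : ℝ) ^ (2 * b) := by
    filter_upwards [hb.2] with n hn
    rwa [varV11 hd hω hρ] at hn
  have h1 := nrX86 hd hρ hnc hβ h (x := 2 * b) (ε := 2 * (x - b)) (by linarith [hb.1])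
    (by linarith) hV
  filter_upwards [h1] with n hn
  have hn0 : (0 : ℝ) ≤ n := Nat.cast_nonneg n
  have h3 : 0 ≤ Va ρ β h n := Va_nonneg11 h n
  have h4 : ((n : ℝ) ^ x) ^ 2 = (n : ℝ) ^ (2 * b + 2 * (x - b)) := by
    rw [← Real.rpow_natCast, ← Real.rpow_mul hn0]
    congr 1
    push_cast
    ring
  have h2 : En ρ β h n ^ 2 ≤ ((n : ℝ) ^ x) ^ 2 := by
    rw [h4]
    linarith
  exact abs_le_of_sq_le_sq' h2 (Real.rpow_nonneg hn0 _) |>.2

/-- **The nonrandom fluctuation against the exponent of the variance**, every tilt, every law, in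
the letters of the problem. -/
theorem nrV11 (hd : 0 < d) (hω : IID μ ρ ω) (hρ : EM ρ) (hnc : ∀ c : ℝ, ρ {c} ≠ 1) (hβ : 0 < β)
    (h : Vec d) {x : ℝ} (hx : chiV μ β ω h < x) :
    ∀ᶠ n : ℕ in atTop,
      0 ≤ n * (lam ρ β h - Real.log (2 * d)) -
        ∫ y, Real.log (Zn β h (fun p => ω p y) n) ∂μ ∧
      n * (lam ρ β h - Real.log (2 * d)) -
        ∫ y, Real.log (Zn β h (fun p => ω p y) n) ∂μ ≤ (n : ℝ) ^ x := by
  filter_upwards [enV11 hd hω hρ hnc hβ h hx] with n hn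
  have h1 : 0 ≤ En ρ β h n := En_nonneg15 hd hρ β h n
  rw [mean11 hd hω hρ]
  unfold En at hn h1
  constructor
  · nlinarith
  · nlinarith

end Pool.Agent.W_7d29a1_PK.Nr11
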