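import Pool.Agent.W_7d29a1_PK.BonLo63
import Pool.Agent.W_7d29a1_PK.LKAll63
import Pool.Agent.W_7d29a1_PK.Cor39

/-!
The order of the free energy at one tilt and one direction, if the exponents exist: the sphere
maximum of `L (h + r) - L h - ⟨v, r⟩` is `t ^ ((1 - χ) / (ν - χ) + o(1))`, and `χ = 2 ν - 1` if and
only if this order is two (helper63).
-/

namespace Pool.Agent.W_7d29a1_PK

open MeasureTheory ProbabilityTheory Filter Topology Pool.Agent.W_MP_7d29a1_pr
  Pool.Agent.W_7d29a1_h46 Pool.Agent.W_7d29a1_h46u Pool.Agent.W_7d29a1_D2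

namespace L63

/-- The increment of the free energy is at most linear. -/
theorem upG_one63 {d : ℕ} (hd : 0 < d) {ρ : Measure ℝ} [IsProbabilityMeasure ρ] (hρ : EM ρ)
    (β : ℝ) (h v : Vec d) : UpG (lam ρ β) h v 1 := by
  refine ⟨1 + ‖v‖, 1, one_pos, fun r _ => ?_⟩
  unfold gap
  have h1 := lip26 hd hρ β h r
  have h2 := (abs_le.1 (abs_real_inner_le_norm v r)).1
  rw [Real.rpow_one]
  nlinarith

/-- **The order** of the free energy, from the two arrows. -/
theorem ord63 {d : ℕ} {L : Vec d → ℝ} {h v : Vec d} {ν χ : ℝ} (hχν : χ < ν) (hν1 : ν ≤ 1)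
    (h1 : UpG L h v 1)
    (h3 : ∀ p : ℝ, 1 < p → ¬ UpG L h v p → 1 + (p - 1) * χ ≤ p * ν)
    (h4 : ∀ p : ℝ, 1 < p → ¬ LoA L h v p → p * ν ≤ 1 + (p - 1) * χ) {e : ℝ} (he : 0 < e) :
    UpG L h v ((1 - χ) / (ν - χ) - e) ∧ LoA L h v ((1 - χ) / (ν - χ) + e) := by
  obtain ⟨γ, hγ⟩ : ∃ γ : ℝ, γ = (1 - χ) / (ν - χ) := ⟨_, rfl⟩
  rw [← hγ]
  have h0 : 0 < ν - χ := by linarith
  have hγ1 : 1 ≤ γ := by
    rw [hγ, le_div_iff₀ h0]
    linarith
  have hγe : γ * (ν - χ) = 1 - χ := by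
    rw [hγ]
    field_simp
  constructor
  · rcases le_or_gt (γ - e) 1 with hle | hgt
    · exact upG_anti hle one_pos h1
    · by_contra hn
      have h5 := h3 _ hgt hn
      nlinarith
  · by_contra hn
    have h5 := h4 _ (by linarith) hn
    nlinarith

/-- **Order two** if and only if `χ = 2 ν - 1`. -/
theorem ordIff63 {d : ℕ} {L : Vec d → ℝ} {h v : Vec d} {ν χ : ℝ} (hχν : χ < ν) (hν1 : ν ≤ 1)
    (h1 : UpG L h v 1)
    (hC1 : ∀ p : ℝ, 1 < p → UpG L h v p → p * ν ≤ 1 + (p - 1) * χ)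
    (hC2 : ∀ p : ℝ, 1 < p → LoA L h v p → 1 + (p - 1) * χ ≤ p * ν)
    (h3 : ∀ p : ℝ, 1 < p → ¬ UpG L h v p → 1 + (p - 1) * χ ≤ p * ν)
    (h4 : ∀ p : ℝ, 1 < p → ¬ LoA L h v p → p * ν ≤ 1 + (p - 1) * χ) :
    χ = 2 * ν - 1 ↔ ∀ e : ℝ, 0 < e → UpG L h v (2 - e) ∧ LoA L h v (2 + e) := by
  constructor
  · intro hK e he
    have h0 : 0 < ν - χ := by linarith
    have h2 : (1 - χ) / (ν - χ) = 2 := by
      rw [div_eq_iff h0.ne']
      linarith
    have h5 := ord63 hχν hν1 h1 h3 h4 he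
    rwa [h2] at h5
  · intro H
    have hle : 2 * ν ≤ 1 + χ := by
      refine le_of_forall_pos_le_add fun η hη => ?_
      obtain ⟨e, he⟩ : ∃ e : ℝ, e = min (1 / 2) (η / (1 + |ν - χ|)) := ⟨_, rfl⟩
      have hD : 0 < 1 + |ν - χ| := by positivity
      have he0 : 0 < e := by
        rw [he]
        exact lt_min (by norm_num) (div_pos hη hD)
      have he1 : e ≤ 1 / 2 := by rw [he]; exact min_le_left _ _
      have he2 : e * (1 + |ν - χ|) ≤ η := by
        have : e ≤ η / (1 + |ν - χ|) := by rw [he]; exact min_le_right _ _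
        rwa [le_div_iff₀ hD] at this
      have h5 := hC1 (2 - e) (by linarith) (H e he0).1
      have h6 : e * (ν - χ) ≤ e * (1 + |ν - χ|) :=
        mul_le_mul_of_nonneg_left (by linarith [le_abs_self (ν - χ)]) he0.le
      nlinarith
    have hge : 1 + χ ≤ 2 * ν := by
      refine le_of_forall_pos_le_add fun η hη => ?_
      obtain ⟨e, he⟩ : ∃ e : ℝ, e = min (1 / 2) (η / (1 + |ν - χ|)) := ⟨_, rfl⟩
      have hD : 0 < 1 + |ν - χ| := by positivity
      have he0 : 0 < e := by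
        rw [he]
        exact lt_min (by norm_num) (div_pos hη hD)
      have he2 : e * (1 + |ν - χ|) ≤ η := by
        have : e ≤ η / (1 + |ν - χ|) := by rw [he]; exact min_le_right _ _
        rwa [le_div_iff₀ hD] at this
      have h5 := hC2 (2 + e) (by linarith) (H e he0).2
      have h6 : e * (ν - χ) ≤ e * (1 + |ν - χ|) :=
        mul_le_mul_of_nonneg_left (by linarith [le_abs_self (ν - χ)]) he0.le
      nlinarith
    linarith

end L63

end Pool.Agent.W_7d29a1_PK
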