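import Pool.Agent.W_7d29a1_PK.PA34

/-!
THEOREM PA (helper34), assembly: `p ν* ≤ 1 + (p - 1) χ*` at every tilt with an upper bound of the
order `p`, for one component (`upL34`) and for the whole displacement (`upG34`), every law.
-/

set_option autoImplicit false

namespace Pool.Agent.W_7d29a1_PK

open MeasureTheory ProbabilityTheory Filter Topology Pool.Agent.W_MP_7d29a1_pr
  Pool.Agent.W_7d29a1_h46 Pool.Agent.W_7d29a1_h46u Pool.Agent.W_7d29a1_D2
  Pool.Agent.W_7d29a1_Q29 Pool.Agent.W_7d29a1_R34 Pool.Agent.W_7d29a1_V Pool.Agent.W_7d29a1_VT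
  Pool.Agent.W_7d29a1_V.Li70 Pool.Agent.W_7d29a1_AM Pool.Agent.W_7d29a1_KL
  Pool.Agent.W_7d29a1_D2.TubK74 Pool.Agent.W_7d29a1_SP

namespace A34

variable {d : ℕ} {ρ : Measure ℝ} [IsProbabilityMeasure ρ] {β : ℝ}

lemma int_farL34 (hd : 0 < d) (β : ℝ) (h u : Vec d) (n i : ℕ) (s t w : ℝ) :
    Integrable (fun η : Env d => FarL β h u η n i s t w) (law d ρ) := by
  have hm : Measurable fun η : Env d => FarL β h u η n i s t w := by
    unfold FarL
    exact (measurable_ZT β h _).div (measurable_ZT β h _)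
  refine Integrable.of_bound (C := 1) hm.aestronglyMeasurable (Eventually.of_forall fun η => ?_)
  rw [Real.norm_eq_abs, abs_of_nonneg (farL_nonneg34 hd β h u η n i s t w)]
  exact farL_le_one34 hd β h u η n i s t w

lemma farL_flip34 (β : ℝ) (h u : Vec d) (η : Env d) (n i : ℕ) (s w : ℝ) :
    FarL β h u η n i s (-1) w = FarL β h (-u) η n i (-s) 1 w := by
  have h1 : {q : Fin n → Step d | |(-1 : ℝ)| * w ≤ (-1) * (inner ℝ u (emb (pos q i)) - i * s)} =
      {q : Fin n → Step d | |(1 : ℝ)| * w ≤ 1 * (inner ℝ (-u) (emb (pos q i)) - i * (-s))} := by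
    ext q
    simp only [Set.mem_ofPred_eq]
    rw [abs_neg, inner_neg_left]
    constructor <;> intro h2 <;> linarith
  unfold FarL
  rw [h1]

lemma farL_mono34 (hd : 0 < d) (β : ℝ) (h u : Vec d) (η : Env d) (n i : ℕ) (s : ℝ) {w w' : ℝ}
    (hw : w ≤ w') : FarL β h u η n i s 1 w' ≤ FarL β h u η n i s 1 w := by
  unfold FarL
  refine div_le_div_of_nonneg_right (ZT_mono β h η ?_) (Z_pos hd β h η n).le
  intro q hq
  have hq' : |(1 : ℝ)| * w' ≤ 1 * (inner ℝ u (emb (pos q i)) - i * s) := hq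
  show |(1 : ℝ)| * w ≤ 1 * (inner ℝ u (emb (pos q i)) - i * s)
  rw [abs_one, one_mul] at hq' ⊢
  linarith

/-- From large lengths to all lengths. -/
lemma ev34 {f : ℕ → ℝ} (h1 : ∀ n, f n ≤ 1) {q N : ℕ} {C : ℝ}
    (H : ∀ n : ℕ, N ≤ n → 1 ≤ n → f n ≤ C * (n : ℝ) ^ (-(q : ℝ))) :
    ∃ C' : ℝ, ∀ n : ℕ, 1 ≤ n → f n ≤ C' * (n : ℝ) ^ (-(q : ℝ)) := by
  refine ⟨max C ((N : ℝ) ^ (q : ℝ)), fun n hn => ?_⟩
  have hn1 : (1 : ℝ) ≤ n := by exact_mod_cast hn
  have hn0 : (0 : ℝ) < n := by linarith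
  have hq0 : 0 ≤ (n : ℝ) ^ (-(q : ℝ)) := Real.rpow_nonneg hn0.le _
  rcases lt_or_ge n N with hnN | hnN
  · refine (h1 n).trans ?_
    have h3 : 1 ≤ (N : ℝ) ^ (q : ℝ) * (n : ℝ) ^ (-(q : ℝ)) := by
      rw [Real.rpow_neg hn0.le, ← div_eq_mul_inv, one_le_div (Real.rpow_pos_of_pos hn0 _)]
      exact Real.rpow_le_rpow hn0.le (by exact_mod_cast hnN.le) (Nat.cast_nonneg q)
    exact h3.trans (mul_le_mul_of_nonneg_right (le_max_right _ _) hq0)
  · exact (H n hnN hn).trans (mul_le_mul_of_nonneg_right (le_max_left _ _) hq0)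

lemma int_one_sub_le34 (β : ℝ) (h : Vec d) {n : ℕ} (E : Set (Fin n → Step d)) :
    ∫ η, (1 - PolT β h η E) ∂(law d ρ) ≤ 1 := by
  have h2 := integral_mono_of_nonneg (μ := law d ρ) (f := fun η : Env d => 1 - PolT β h η E)
    (g := fun _ => (1 : ℝ))
    (Eventually.of_forall fun η => by
      have := PolT_le_one β h η E
      show 0 ≤ 1 - PolT β h η E
      linarith)
    (integrable_const (1 : ℝ)) (Eventually.of_forall fun η => by
      have := PolT_nonneg β h η E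
      show 1 - PolT β h η E ≤ 1
      linarith)
  refine h2.trans (le_of_eq ?_)
  simp

/-- **LEAF PA, one component**: the slab condition at a single tilt. -/
theorem sbF34 (hd : 0 < d) (hρ : EM ρ) (hβ : 0 ≤ β) (hN : AmpCN ρ β) {h u : Vec d} {s x p a : ℝ}
    (hp : 0 < p) (hx : 0 < x) (hx1 : x < 1) (hF : FlF ρ β h x) (hU : UpU (lam ρ β) h u s p)
    (ha : 1 + (p - 1) * x < p * a) : SbF ρ β h u s a := by
  obtain ⟨C₃, δ₃, hδ₃, H⟩ := hU
  have hU1 : ∀ t : ℝ, 0 < t → t ≤ δ₃ →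
      lam ρ β (h + t • u) ≤ lam ρ β h + s * t + C₃ * t ^ p := by
    intro t ht ht3
    have h1 := H t (by rw [abs_of_pos ht]; exact ht3)
    rw [abs_of_pos ht] at h1
    linarith
  have hU2 : ∀ t : ℝ, 0 < t → t ≤ δ₃ →
      lam ρ β (h + t • (-u)) ≤ lam ρ β h + (-s) * t + C₃ * t ^ p := by
    intro t ht ht3
    have h1 := H (-t) (by rw [abs_neg, abs_of_pos ht]; exact ht3)
    rw [abs_neg, abs_of_pos ht] at h1
    rw [smul_neg, ← neg_smul]
    linarith
  intro q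
  obtain ⟨N1, H1⟩ := far34 hd hρ hβ hN hx hx1 hF hp hδ₃ hU1 ha (q + 1)
  obtain ⟨N2, H2⟩ := far34 hd hρ hβ hN hx hx1 hF hp hδ₃ hU2 ha (q + 1)
  refine ev34 (N := max N1 N2) (C := 8) (fun n => int_one_sub_le34 β h _) fun n hn hn1 => ?_
  have hn1' : (1 : ℝ) ≤ n := by exact_mod_cast hn1
  have hn0 : (0 : ℝ) < n := by linarith
  have hI : ∀ i : ℕ, Integrable (fun η : Env d => FarL β h u η n i s 1 ((n : ℝ) ^ a) +
      FarL β h u η n i s (-1) ((n : ℝ) ^ a)) (law d ρ) := fun i =>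
    (int_farL34 hd β h u n i s 1 _).add (int_farL34 hd β h u n i s (-1) _)
  have h1 : ∫ η, (1 - PolT β h η (slb d n u s ((n : ℝ) ^ a))) ∂(law d ρ) ≤
      ∫ η, ∑ i ∈ Finset.range (n + 1), (FarL β h u η n i s 1 ((n : ℝ) ^ a) +
        FarL β h u η n i s (-1) ((n : ℝ) ^ a)) ∂(law d ρ) := by
    refine integral_mono_of_nonneg (Eventually.of_forall fun η => ?_)
      (integrable_finsetSum _ fun i _ => hI i) (Eventually.of_forall fun η => ?_)
    · have := PolT_le_one β h η (slb d n u s ((n : ℝ) ^ a))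
      show 0 ≤ 1 - PolT β h η (slb d n u s ((n : ℝ) ^ a))
      linarith
    · exact one_sub_leL hd β h u η n s (t := 1) one_pos
  rw [integral_finsetSum _ fun i _ => hI i] at h1
  have h2 : ∀ i ∈ Finset.range (n + 1), ∫ η, (FarL β h u η n i s 1 ((n : ℝ) ^ a) +
      FarL β h u η n i s (-1) ((n : ℝ) ^ a)) ∂(law d ρ) ≤
        4 * (n : ℝ) ^ (-((q + 1 : ℕ) : ℝ)) := by
    intro i hi
    have hi' : i ≤ n := Nat.lt_succ_iff.1 (Finset.mem_range.1 hi)
    rw [integral_add (int_farL34 hd β h u n i s 1 _) (int_farL34 hd β h u n i s (-1) _)]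
    have a1 := H1 n ((le_max_left _ _).trans hn) i hi'
    have a2 := H2 n ((le_max_right _ _).trans hn) i hi'
    have a3 : ∫ η, FarL β h u η n i s (-1) ((n : ℝ) ^ a) ∂(law d ρ) =
        ∫ η, FarL β h (-u) η n i (-s) 1 ((n : ℝ) ^ a) ∂(law d ρ) := by
      simp only [farL_flip34]
    rw [a3]
    linarith
  refine h1.trans ((Finset.sum_le_sum h2).trans ?_)
  rw [Finset.sum_const, Finset.card_range, nsmul_eq_mul]
  have h3 : (n : ℝ) ^ (-((q + 1 : ℕ) : ℝ)) * n = (n : ℝ) ^ (-(q : ℝ)) := by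
    nth_rewrite 2 [← Real.rpow_one (n : ℝ)]
    rw [← Real.rpow_add hn0]
    congr 1
    push_cast
    ring
  have h4 : 0 ≤ (n : ℝ) ^ (-((q + 1 : ℕ) : ℝ)) := Real.rpow_nonneg hn0.le _
  push_cast at h3 h4 ⊢
  nlinarith

/-- **LEAF PA, the whole displacement**: the tube condition at a single tilt. -/
theorem tbF34 (hd : 0 < d) (hρ : EM ρ) (hβ : 0 ≤ β) (hN : AmpCN ρ β) {h v : Vec d} {x p a : ℝ}
    (hp : 0 < p) (hx : 0 < x) (hx1 : x < 1) (hF : FlF ρ β h x) (hU : UpG (lam ρ β) h v p)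
    (ha : 1 + (p - 1) * x < p * a) : TbF ρ β h v a := by
  obtain ⟨C₃, δ₃, hδ₃, H⟩ := hU
  have hej : ∀ j : Fin d, ‖(ej j : Vec d)‖ = 1 := fun j => by
    unfold ej
    simp
  have hin : ∀ j : Fin d, inner ℝ v (ej j : Vec d) = v j := fun j => by
    have h2 := TubU_inner (0 : Vec d) 1 j v
    rw [zero_add, inner_zero_left, zero_add, one_smul, one_mul] at h2
    rw [real_inner_comm, h2]
  have hU1 : ∀ j : Fin d, ∀ t : ℝ, 0 < t → t ≤ δ₃ →
      lam ρ β (h + t • ej j) ≤ lam ρ β h + v j * t + C₃ * t ^ p := by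
    intro j t ht ht3
    have hnorm : ‖t • (ej j : Vec d)‖ = t := by
      rw [norm_smul, hej, Real.norm_eq_abs, abs_of_pos ht, mul_one]
    have h1 := H (t • ej j) (by rw [hnorm]; exact ht3)
    unfold gap at h1
    rw [hnorm, real_inner_smul_right, hin] at h1
    linarith
  have hU2 : ∀ j : Fin d, ∀ t : ℝ, 0 < t → t ≤ δ₃ →
      lam ρ β (h + t • (-(ej j : Vec d))) ≤ lam ρ β h + (-(v j)) * t + C₃ * t ^ p := by
    intro j t ht ht3
    have hnorm : ‖t • (-(ej j : Vec d))‖ = t := by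
      rw [norm_smul, norm_neg, hej, Real.norm_eq_abs, abs_of_pos ht, mul_one]
    have h1 := H (t • (-(ej j : Vec d))) (by rw [hnorm]; exact ht3)
    unfold gap at h1
    rw [hnorm, real_inner_smul_right, inner_neg_right, hin] at h1
    linarith
  obtain ⟨a', ha', haa⟩ : ∃ a' : ℝ, 1 + (p - 1) * x < p * a' ∧ a' < a := by
    obtain ⟨a', h1, h2⟩ := exists_between
      (show (1 + (p - 1) * x) / p < a by rw [div_lt_iff₀ hp]; linarith)
    refine ⟨a', ?_, h2⟩
    rw [div_lt_iff₀ hp] at h1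
    linarith
  intro q
  have hd0 : (0 : ℝ) < d := by exact_mod_cast hd
  choose N1 H1 using fun j : Fin d => far34 hd hρ hβ hN hx hx1 hF hp hδ₃ (hU1 j) ha' (q + 1)
  choose N2 H2 using fun j : Fin d => far34 hd hρ hβ hN hx hx1 hF hp hδ₃ (hU2 j) ha' (q + 1)
  have e0 : ∀ᶠ n : ℕ in atTop, (d : ℝ) ≤ (n : ℝ) ^ (a - a') :=
    ((tendsto_rpow_atTop (by linarith)).comp
      (tendsto_natCast_atTop_atTop (R := ℝ))).eventually (eventually_ge_atTop _)
  obtain ⟨N0, H0⟩ := eventually_atTop.1 e0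
  refine ev34 (N := max N0 (Finset.univ.sup N1 ⊔ Finset.univ.sup N2)) (C := 8 * d)
    (fun n => int_one_sub_le34 β h _) fun n hn hn1 => ?_
  have hn1' : (1 : ℝ) ≤ n := by exact_mod_cast hn1
  have hn0 : (0 : ℝ) < n := by linarith
  have hnN1 : ∀ j, N1 j ≤ n := fun j => by
    have h1 : N1 j ≤ Finset.univ.sup N1 := Finset.le_sup (Finset.mem_univ j)
    exact h1.trans (le_sup_left.trans ((le_max_right _ _).trans hn))
  have hnN2 : ∀ j, N2 j ≤ n := fun j => by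
    have h1 : N2 j ≤ Finset.univ.sup N2 := Finset.le_sup (Finset.mem_univ j)
    exact h1.trans (le_sup_right.trans ((le_max_right _ _).trans hn))
  have hwd : (n : ℝ) ^ a' ≤ (n : ℝ) ^ a / d := by
    rw [le_div_iff₀ hd0]
    have h1 := H0 n ((le_max_left _ _).trans hn)
    have h2 : (n : ℝ) ^ a = (n : ℝ) ^ a' * (n : ℝ) ^ (a - a') := by
      rw [← Real.rpow_add hn0]
      congr 1
      ring
    rw [h2]
    exact mul_le_mul_of_nonneg_left h1 (Real.rpow_nonneg hn0.le _)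
  have hset1 : ∀ (j : Fin d) (i : ℕ) (η : Env d) (w : ℝ),
      Far β h η n i j v 1 w = FarL β h (ej j) η n i (v j) 1 w := by
    intro j i η w
    unfold Far FarL
    congr 2
    ext s
    simp only [Set.mem_ofPred_eq]
    have h2 := TubU_inner (0 : Vec d) 1 j (emb (pos s i))
    rw [zero_add, inner_zero_left, zero_add, one_smul, one_mul] at h2
    rw [h2]
  have hset2 : ∀ (j : Fin d) (i : ℕ) (η : Env d) (w : ℝ),
      Far β h η n i j v (-1) w = FarL β h (-(ej j)) η n i (-(v j)) 1 w := by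
    intro j i η w
    rw [← farL_flip34]
    unfold Far FarL
    congr 2
    ext s
    simp only [Set.mem_ofPred_eq]
    have h2 := TubU_inner (0 : Vec d) 1 j (emb (pos s i))
    rw [zero_add, inner_zero_left, zero_add, one_smul, one_mul] at h2
    rw [h2]
  have hle : ∀ η : Env d, 1 - PolT β h η (tube d n v ((n : ℝ) ^ a)) ≤
      ∑ i ∈ Finset.range (n + 1), ∑ j : Fin d,
        (FarL β h (ej j) η n i (v j) 1 ((n : ℝ) ^ a') +
          FarL β h (-(ej j)) η n i (-(v j)) 1 ((n : ℝ) ^ a')) := by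
    intro η
    refine (one_sub_le hd β h η n v (t := 1) one_pos).trans ?_
    refine Finset.sum_le_sum fun i _ => Finset.sum_le_sum fun j _ => ?_
    rw [hset1, hset2]
    exact add_le_add (farL_mono34 hd β h _ η n i _ hwd) (farL_mono34 hd β h _ η n i _ hwd)
  have hI : ∀ (i : ℕ) (j : Fin d), Integrable (fun η : Env d =>
      FarL β h (ej j) η n i (v j) 1 ((n : ℝ) ^ a') +
        FarL β h (-(ej j)) η n i (-(v j)) 1 ((n : ℝ) ^ a')) (law d ρ) := fun i j =>
    (int_farL34 hd β h _ n i _ 1 _).add (int_farL34 hd β h _ n i _ 1 _)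
  have h1 : ∫ η, (1 - PolT β h η (tube d n v ((n : ℝ) ^ a))) ∂(law d ρ) ≤
      ∫ η, ∑ i ∈ Finset.range (n + 1), ∑ j : Fin d,
        (FarL β h (ej j) η n i (v j) 1 ((n : ℝ) ^ a') +
          FarL β h (-(ej j)) η n i (-(v j)) 1 ((n : ℝ) ^ a')) ∂(law d ρ) := by
    refine integral_mono_of_nonneg (Eventually.of_forall fun η => ?_)
      (integrable_finsetSum _ fun i _ => integrable_finsetSum _ fun j _ => hI i j)
      (Eventually.of_forall hle)
    have := PolT_le_one β h η (tube d n v ((n : ℝ) ^ a))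
    show 0 ≤ 1 - PolT β h η (tube d n v ((n : ℝ) ^ a))
    linarith
  rw [integral_finsetSum _ fun i _ => integrable_finsetSum _ fun j _ => hI i j] at h1
  have h2 : ∀ i ∈ Finset.range (n + 1), ∫ η, ∑ j : Fin d,
      (FarL β h (ej j) η n i (v j) 1 ((n : ℝ) ^ a') +
        FarL β h (-(ej j)) η n i (-(v j)) 1 ((n : ℝ) ^ a')) ∂(law d ρ) ≤
        d * (4 * (n : ℝ) ^ (-((q + 1 : ℕ) : ℝ))) := by
    intro i hi
    have hi' : i ≤ n := Nat.lt_succ_iff.1 (Finset.mem_range.1 hi)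
    rw [integral_finsetSum _ fun j _ => hI i j]
    have h3 : ∀ j ∈ (Finset.univ : Finset (Fin d)), ∫ η,
        (FarL β h (ej j) η n i (v j) 1 ((n : ℝ) ^ a') +
          FarL β h (-(ej j)) η n i (-(v j)) 1 ((n : ℝ) ^ a')) ∂(law d ρ) ≤
          4 * (n : ℝ) ^ (-((q + 1 : ℕ) : ℝ)) := by
      intro j _
      rw [integral_add (int_farL34 hd β h _ n i _ 1 _) (int_farL34 hd β h _ n i _ 1 _)]
      have a1 := H1 j n (hnN1 j) i hi'
      have a2 := H2 j n (hnN2 j) i hi'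
      linarith
    refine (Finset.sum_le_sum h3).trans (le_of_eq ?_)
    rw [Finset.sum_const, Finset.card_univ, Fintype.card_fin, nsmul_eq_mul]
  refine h1.trans ((Finset.sum_le_sum h2).trans ?_)
  rw [Finset.sum_const, Finset.card_range, nsmul_eq_mul]
  have h3 : (n : ℝ) ^ (-((q + 1 : ℕ) : ℝ)) * n = (n : ℝ) ^ (-(q : ℝ)) := by
    nth_rewrite 2 [← Real.rpow_one (n : ℝ)]
    rw [← Real.rpow_add hn0]
    congr 1
    push_cast
    ring
  have h4 : 0 ≤ (n : ℝ) ^ (-((q + 1 : ℕ) : ℝ)) := Real.rpow_nonneg hn0.le _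
  have h5 : ((n + 1 : ℕ) : ℝ) * (d * (4 * (n : ℝ) ^ (-((q + 1 : ℕ) : ℝ)))) ≤
      (2 * n) * (d * (4 * (n : ℝ) ^ (-((q + 1 : ℕ) : ℝ)))) := by
    refine mul_le_mul_of_nonneg_right ?_ (by positivity)
    push_cast
    linarith
  refine h5.trans (le_of_eq ?_)
  rw [← h3]
  ring

end A34

open A34

variable {d : ℕ} {Ω : Type*} [MeasurableSpace Ω] {μ : Measure Ω} [IsProbabilityMeasure μ]
  {ρ : Measure ℝ} [IsProbabilityMeasure ρ] {ω : ℕ × Site d → Ω → ℝ} {β : ℝ}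

/-- The passage to the exponents. -/
lemma exp34 {p X nu : ℝ} (hp : 1 ≤ p) (hX : X ≤ 1 / 2)
    (key : ∀ y : ℝ, X < y → y < 1 → p * nu ≤ 1 + (p - 1) * y) : p * nu ≤ 1 + (p - 1) * X := by
  have hp0 : 0 < p := by linarith
  refine le_of_forall_pos_le_add fun ε hε => ?_
  have h3 : 0 < ε / p := div_pos hε hp0
  have h4 := key (min (X + ε / p) (3 / 4)) (lt_min (by linarith) (by linarith))
    ((min_le_right _ _).trans_lt (by norm_num))
  have h6 : (p - 1) * min (X + ε / p) (3 / 4) ≤ (p - 1) * (X + ε / p) :=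
    mul_le_mul_of_nonneg_left (min_le_left _ _) (by linarith)
  have h7 : (p - 1) * (ε / p) ≤ ε := by
    have h8 : (p - 1) * (ε / p) ≤ p * (ε / p) := mul_le_mul_of_nonneg_right (by linarith) h3.le
    rw [mul_div_cancel₀ _ hp0.ne'] at h8
    exact h8
  rw [mul_add] at h6
  linarith

/-- **THEOREM PA, one component**, every law: at every tilt `h` and every direction `u`, an upper
bound of the order `p` on the line gives `p ν_u* ≤ 1 + (p - 1) χ*`. -/
theorem upL34 (hd : 0 < d) (hω : IID μ ρ ω) (hρ : EM ρ) (hnc : ∀ c : ℝ, ρ {c} ≠ 1) (hβ : 0 < β)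
    {h u : Vec d} {s p : ℝ} (hp : 1 ≤ p) (hU : UpU (lam ρ β) h u s p) :
    p * nuL μ β ω h u s ≤ 1 + (p - 1) * chiF μ β ω h := by
  have hN := ampCNAll5 hρ hnc hβ
  have hp0 : 0 < p := by linarith
  refine exp34 hp (chiF_le_half hd hω hρ h) fun y hy hy1 => ?_
  obtain ⟨x, hx, hxy⟩ := exists_lt_of_csInf_lt ⟨1 / 2, half_mem_chiSetF hd hω hρ h⟩
    (show sInf (chiSetF μ β ω h) < y from hy)
  obtain ⟨hx0, hF⟩ := (mem_chiSetF hd hω hρ h x).1 hx
  have h1 : nuL μ β ω h u s ≤ (1 + (p - 1) * y) / p := by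
    refine le_of_forall_gt_imp_ge_of_dense fun a ha => ?_
    have ha1 : 1 + (p - 1) * x < p * a := by
      rw [div_lt_iff₀ hp0] at ha
      have h2 : (p - 1) * x ≤ (p - 1) * y := mul_le_mul_of_nonneg_left hxy.le (by linarith)
      linarith
    have ha0 : 0 < a := by
      have h2 : 0 ≤ (p - 1) * x := mul_nonneg (by linarith) hx0.le
      have h3 : 0 < p * a := by linarith
      exact (mul_pos_iff_of_pos_left hp0).1 h3
    exact csInf_le ⟨0, fun b hb => hb.1.le⟩ ((mem_nuSetL hω h u s a).2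
      ⟨ha0, sbF34 hd hρ hβ.le hN hp0 hx0 (hxy.trans hy1) hF hU ha1⟩)
  rw [le_div_iff₀ hp0] at h1
  linarith

/-- **THEOREM PA, the whole displacement**, every law: at every tilt `h` and every `v`, an upper
bound of the order `p` for the growth of the free energy gives `p ν* ≤ 1 + (p - 1) χ*`. -/
theorem upG34 (hd : 0 < d) (hω : IID μ ρ ω) (hρ : EM ρ) (hnc : ∀ c : ℝ, ρ {c} ≠ 1) (hβ : 0 < β)
    {h v : Vec d} {p : ℝ} (hp : 1 ≤ p) (hU : UpG (lam ρ β) h v p) :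
    p * nuS μ β ω h v ≤ 1 + (p - 1) * chiF μ β ω h := by
  have hN := ampCNAll5 hρ hnc hβ
  have hp0 : 0 < p := by linarith
  refine exp34 hp (chiF_le_half hd hω hρ h) fun y hy hy1 => ?_
  obtain ⟨x, hx, hxy⟩ := exists_lt_of_csInf_lt ⟨1 / 2, half_mem_chiSetF hd hω hρ h⟩
    (show sInf (chiSetF μ β ω h) < y from hy)
  obtain ⟨hx0, hF⟩ := (mem_chiSetF hd hω hρ h x).1 hx
  have h1 : nuS μ β ω h v ≤ (1 + (p - 1) * y) / p := by
    refine le_of_forall_gt_imp_ge_of_dense fun a ha => ?_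
    have ha1 : 1 + (p - 1) * x < p * a := by
      rw [div_lt_iff₀ hp0] at ha
      have h2 : (p - 1) * x ≤ (p - 1) * y := mul_le_mul_of_nonneg_left hxy.le (by linarith)
      linarith
    have ha0 : 0 < a := by
      have h2 : 0 ≤ (p - 1) * x := mul_nonneg (by linarith) hx0.le
      have h3 : 0 < p * a := by linarith
      exact (mul_pos_iff_of_pos_left hp0).1 h3
    exact csInf_le ⟨0, fun b hb => hb.1.le⟩ ((mem_nuSetS hω h v a).2
      ⟨ha0, tbF34 hd hρ hβ.le hN hp0 hx0 (hxy.trans hy1) hF hU ha1⟩)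
  rw [le_div_iff₀ hp0] at h1
  linarith

/-- Literal A1 of helper46. -/
theorem litA1_34 (hd : 0 < d) (hω : IID μ ρ ω) (hρ : EM ρ) (hnc : ∀ c : ℝ, ρ {c} ≠ 1)
    (hβ : 0 < β) : ∀ (h v : Vec d) (p : ℝ), 1 ≤ p → UpG (lam ρ β) h v p →
      p * nuS μ β ω h v ≤ 1 + (p - 1) * chiF μ β ω h :=
  fun _ _ _ hp hU => upG34 hd hω hρ hnc hβ hp hU

/-- Literal A2 of helper46. -/
theorem litA2_34 (hd : 0 < d) (hω : IID μ ρ ω) (hρ : EM ρ) (hnc : ∀ c : ℝ, ρ {c} ≠ 1)
    (hβ : 0 < β) : ∀ (h u : Vec d) (s p : ℝ), 1 ≤ p → UpU (lam ρ β) h u s p →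
      p * nuL μ β ω h u s ≤ 1 + (p - 1) * chiF μ β ω h :=
  fun _ _ _ _ hp hU => upL34 hd hω hρ hnc hβ hp hU

end Pool.Agent.W_7d29a1_PK
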