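import Pool.Agent.W_7d29a1_PK.DefsPK2

/-!
Theorem PK, second block: an upper bound of the free energy from the tube and a lower bound of the
variance (helper26).
-/

set_option autoImplicit false

namespace Pool.Agent.W_7d29a1_PK

open MeasureTheory ProbabilityTheory Filter Topology Pool.Agent.W_MP_7d29a1_pr
  Pool.Agent.W_7d29a1_h46 Pool.Agent.W_7d29a1_h46u Pool.Agent.W_7d29a1_D2
  Pool.Agent.W_7d29a1_D2.B35 Pool.Agent.W_7d29a1_Q29 Pool.Agent.W_7d29a1_R34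
  Pool.Agent.W_7d29a1_SP Pool.Agent.W_7d29a1_V

variable {d : ℕ} {ρ : Measure ℝ} [IsProbabilityMeasure ρ] {β : ℝ}

lemma tube_sub26 {n : ℕ} (u v : Vec d) {r W : ℝ} (h : ‖u‖ * r ≤ W) :
    tube d n v r ⊆ slb d n u (inner ℝ u v) W := by
  intro q hq i hi
  have h1 := hq i hi
  have h2 : inner ℝ u (emb (pos q i)) - i * inner ℝ u v =
      inner ℝ u (emb (pos q i) - (i : ℝ) • v) := by
    rw [inner_sub_right, real_inner_smul_right]
  rw [h2]
  exact (abs_real_inner_le_norm _ _).trans ((mul_le_mul_of_nonneg_left h1 (norm_nonneg u)).trans h)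

/-- The mass outside the slab is at most the mass outside the tube. -/
lemma Ex_le26 (h u v : Vec d) {n : ℕ} {r W : ℝ} (hr : ‖u‖ * r ≤ W) :
    Ex ρ β h u (inner ℝ u v) n W ≤ ∫ η, (1 - PolT β h η (tube d n v r)) ∂(law d ρ) := by
  have hi : ∀ E : Set (Fin n → Step d), Integrable (fun η => PolT β h η E) (law d ρ) := by
    intro E
    refine Integrable.of_bound (measurable_PolT β h E).aestronglyMeasurable 1
      (Eventually.of_forall fun η => ?_)
    rw [Real.norm_eq_abs, abs_of_nonneg (PolT_nonneg _ _ _ _)]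
    exact PolT_le_one _ _ _ _
  refine integral_mono ((integrable_const 1).sub (hi _)) ((integrable_const 1).sub (hi _))
    fun η => ?_
  have := PolT_mono β h η (tube_sub26 (n := n) u v hr)
  simp only
  linarith

/-- The Lipschitz bound of the free energy. -/
lemma lip26 (hd : 0 < d) (hρ : EM ρ) (β : ℝ) (h r : Vec d) :
    lam ρ β (h + r) ≤ lam ρ β h + ‖r‖ := by
  have h1 : ∀ n : ℕ, A ρ β (h + r) n ≤ A ρ β h n + ‖r‖ * n := by
    intro n
    unfold A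
    have e1 := (concU hd hρ β (h + r) n).1
    have e2 := (concU hd hρ β h n).1
    have e3 : ∫ η, X β (h + r) η n ∂(law d ρ) ≤ ∫ η, (X β h η n + ‖r‖ * n) ∂(law d ρ) :=
      integral_mono e1 (e2.add (integrable_const _)) fun η => X_tilt hd β h r η n
    rw [integral_add e2 (integrable_const _), integral_const] at e3
    simpa using e3
  refine LamU_le ρ β (h + r) fun n => ?_
  have h2 := A_le_lam hd hρ β h (n + 1)
  have h3 := h1 (n + 1)
  push_cast at h2 h3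
  nlinarith

/-- The least natural upper quantile. -/
lemma quant26 (h : Vec d) {Q : ℝ} {N : ℕ} {y : ℝ}
    (hK : (law d ρ).real {η | N * lam ρ β h + y ≤ X β h η N} ≤ (N : ℝ) ^ (-Q)) :
    ∃ k : ℕ, (k : ℝ) ≤ |y| + 1 ∧
      (law d ρ).real {η | N * lam ρ β h + k < X β h η N} ≤ (N : ℝ) ^ (-Q) ∧
      ∀ j : ℕ, j < k → (N : ℝ) ^ (-Q) < (law d ρ).real {η | N * lam ρ β h + j < X β h η N} := by
  classical
  have hex : ∃ k : ℕ, (law d ρ).real {η | N * lam ρ β h + k < X β h η N} ≤ (N : ℝ) ^ (-Q) := by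
    refine ⟨⌈|y|⌉₊, le_trans (measureReal_mono ?_ (measure_ne_top _ _)) hK⟩
    intro η hη
    have h1 : (N : ℝ) * lam ρ β h + (⌈|y|⌉₊ : ℝ) < X β h η N := hη
    have h2 := Nat.le_ceil |y|
    have h3 := le_abs_self y
    show (N : ℝ) * lam ρ β h + y ≤ X β h η N
    linarith
  refine ⟨Nat.find hex, ?_, Nat.find_spec hex, fun j hj => not_le.1 (Nat.find_min hex hj)⟩
  have h4 : Nat.find hex ≤ ⌈|y|⌉₊ := by
    refine Nat.find_min' hex (le_trans (measureReal_mono ?_ (measure_ne_top _ _)) hK)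
    intro η hη
    have h1 : (N : ℝ) * lam ρ β h + (⌈|y|⌉₊ : ℝ) < X β h η N := hη
    have h2 := Nat.le_ceil |y|
    have h3 := le_abs_self y
    show (N : ℝ) * lam ρ β h + y ≤ X β h η N
    linarith
  have h5 : (Nat.find hex : ℝ) ≤ (⌈|y|⌉₊ : ℝ) := by exact_mod_cast h4
  have h6 := (Nat.ceil_lt_add_one (abs_nonneg y)).le
  linarith

/-- The arithmetic at the end. -/
lemma fin26 {N p a y g T s : ℝ} (hN : 1 ≤ N) (hp : 1 ≤ p) (hg : 0 < g) (hT : 0 ≤ T) (hs : 0 ≤ s)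
    (h1 : g ≤ T * s * N ^ (a - 1)) (h2 : N ^ (y - 1) ≤ g) (h3 : p * a ≤ 1 + (p - 1) * y) :
    g ≤ T ^ p * s ^ p := by
  have hN0 : 0 < N := by linarith
  have e1 : g ^ p ≤ T ^ p * s ^ p * N ^ ((a - 1) * p) := by
    have := Real.rpow_le_rpow hg.le h1 (by linarith : (0 : ℝ) ≤ p)
    rwa [Real.mul_rpow (mul_nonneg hT hs) (Real.rpow_nonneg hN0.le _), Real.mul_rpow hT hs,
      ← Real.rpow_mul hN0.le] at this
  have e2 : N ^ ((y - 1) * (p - 1)) ≤ g ^ (p - 1) := by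
    have := Real.rpow_le_rpow (Real.rpow_nonneg hN0.le _) h2 (by linarith : (0 : ℝ) ≤ p - 1)
    rwa [← Real.rpow_mul hN0.le] at this
  have e3 : g ^ p = g * g ^ (p - 1) := by
    rw [← Real.rpow_one_add' hg.le (by linarith)]
    congr 1
    ring
  have e4 : g * N ^ ((y - 1) * (p - 1)) ≤ T ^ p * s ^ p * N ^ ((a - 1) * p) := by
    calc g * N ^ ((y - 1) * (p - 1)) ≤ g * g ^ (p - 1) := by gcongr
      _ = g ^ p := e3.symm
      _ ≤ _ := e1
  have e5 : N ^ ((a - 1) * p) ≤ N ^ ((y - 1) * (p - 1)) := by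
    refine Real.rpow_le_rpow_of_exponent_le hN ?_
    have f1 : (y - 1) * (p - 1) = 1 + (p - 1) * y - p := by ring
    have f2 : (a - 1) * p = p * a - p := by ring
    rw [f1, f2]
    linarith
  have hTs : 0 ≤ T ^ p * s ^ p := mul_nonneg (Real.rpow_nonneg hT _) (Real.rpow_nonneg hs _)
  have e6 : g * N ^ ((y - 1) * (p - 1)) ≤ T ^ p * s ^ p * N ^ ((y - 1) * (p - 1)) :=
    e4.trans (mul_le_mul_of_nonneg_left e5 hTs)
  exact le_of_mul_le_mul_right e6 (Real.rpow_pos_of_pos hN0 _)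

/-- Choice of the exponent `y`. -/
lemma exp26 {p a x : ℝ} (hp : 1 ≤ p) (hx : 0 < x) (h : p * a < 1 + (p - 1) * x) :
    ∃ y : ℝ, 0 < y ∧ y < x ∧ p * a ≤ 1 + (p - 1) * y := by
  set D := 1 + (p - 1) * x - p * a with hD
  have hD0 : 0 < D := by rw [hD]; linarith
  have hp0 : 0 < p := by linarith
  refine ⟨x - min (x / 2) (D / p), ?_, ?_, ?_⟩
  · have := min_le_left (x / 2) (D / p)
    linarith
  · have : 0 < min (x / 2) (D / p) := lt_min (by linarith) (div_pos hD0 hp0)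
    linarith
  · have h1 : min (x / 2) (D / p) ≤ D / p := min_le_right _ _
    have h2 : (p - 1) * min (x / 2) (D / p) ≤ (p - 1) * (D / p) :=
      mul_le_mul_of_nonneg_left h1 (by linarith)
    have h3 : (p - 1) * (D / p) ≤ D := by
      rw [mul_div_assoc']
      rw [div_le_iff₀ hp0]
      nlinarith
    have h4 : p * a = 1 + (p - 1) * x - D := by rw [hD]; ring
    rw [h4]
    nlinarith

/-- Large lengths. -/
lemma ev26 {g C : ℝ} (hg : 0 < g) (N₀ : ℕ) :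
    ∃ N : ℕ, N₀ ≤ N ∧ C * ((N : ℝ) ^ (3 / 4 : ℝ) + 1 + Real.log N) ≤ N * g := by
  have h1 : Tendsto (fun N : ℕ => (N : ℝ) ^ (-(1 / 4) : ℝ)) atTop (𝓝 0) :=
    (tendsto_rpow_neg_atTop (by norm_num : (0 : ℝ) < 1 / 4)).comp tendsto_natCast_atTop_atTop
  have h2 : Tendsto (fun N : ℕ => (N : ℝ)⁻¹) atTop (𝓝 0) :=
    tendsto_inv_atTop_zero.comp tendsto_natCast_atTop_atTop
  have h3 : Tendsto (fun N : ℕ => Real.log N / (N : ℝ)) atTop (𝓝 0) := by
    have := (Real.isLittleO_log_id_atTop.tendsto_div_nhds_zero).comp tendsto_natCast_atTop_atTop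
    exact this
  have h4 : Tendsto (fun N : ℕ => C * ((N : ℝ) ^ (-(1 / 4) : ℝ) + (N : ℝ)⁻¹ +
      Real.log N / (N : ℝ))) atTop (𝓝 0) := by
    have := ((h1.add h2).add h3).const_mul C
    simpa using this
  obtain ⟨N, hN⟩ := ((h4.eventually (gt_mem_nhds hg)).and
    (eventually_ge_atTop (max N₀ 1))).exists
  obtain ⟨hN1, hN2⟩ := hN
  refine ⟨N, (le_max_left _ _).trans hN2, ?_⟩
  have hN3 : 1 ≤ N := (le_max_right _ _).trans hN2
  have hN0 : (0 : ℝ) < N := by exact_mod_cast hN3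
  have h5 : C * ((N : ℝ) ^ (3 / 4 : ℝ) + 1 + Real.log N) =
      N * (C * ((N : ℝ) ^ (-(1 / 4) : ℝ) + (N : ℝ)⁻¹ + Real.log N / (N : ℝ))) := by
    have h6 : (N : ℝ) ^ (3 / 4 : ℝ) = N * (N : ℝ) ^ (-(1 / 4) : ℝ) := by
      rw [← Real.rpow_one_add' hN0.le (by norm_num)]
      congr 1
      norm_num
    rw [h6]
    field_simp
  rw [h5]
  exact mul_le_mul_of_nonneg_left hN1.le hN0.le

/-- **The second theorem** (second block), from a lower bound of the upper tail; `y = 0` without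
any lower bound. -/
theorem bonY26 (hd : 0 < d) (hρ : EM ρ) (hS : StpPK d ρ β) (hU : UplPK d ρ β)
    (hT : TailPK d ρ β) (h v : Vec d) (p a y : ℝ) (hp : 1 ≤ p) (hTb : TbF ρ β h v a)
    (hL : y = 0 ∨ ∃ q : ℝ, 0 < q ∧ ∃ N₀ : ℕ, ∀ N : ℕ, N₀ ≤ N →
      (N : ℝ) ^ (-q) ≤ (law d ρ).real {η | N * lam ρ β h + (N : ℝ) ^ y ≤ X β h η N})
    (hpy : p * a ≤ 1 + (p - 1) * y) : UpG (lam ρ β) h v p := by
  obtain ⟨qm, hqm, Nm, hM1⟩ : ∃ qm : ℝ, 0 < qm ∧ ∃ Nm : ℕ, y = 0 ∨ ∀ N : ℕ, Nm ≤ N →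
      (N : ℝ) ^ (-qm) ≤ (law d ρ).real {η | N * lam ρ β h + (N : ℝ) ^ y ≤ X β h η N} := by
    rcases hL with hL | ⟨qm, hqm, Nm, hL⟩
    · exact ⟨1, one_pos, 0, Or.inl hL⟩
    · exact ⟨qm, hqm, Nm, Or.inr hL⟩
  obtain ⟨q, c, C, hq, hc, hC, hS1⟩ := hS (‖h‖ + ‖v‖ + 1)
  obtain ⟨CU, hCU, NU, hU1⟩ := hU (‖h‖ + ‖v‖ + 1)
  obtain ⟨Q, hQ⟩ : ∃ Q : ℝ, Q = max q qm + 1 := ⟨_, rfl⟩
  have hQq : q ≤ Q := by rw [hQ]; linarith [le_max_left q qm]
  have hQm : qm < Q := by rw [hQ]; linarith [le_max_right q qm]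
  have hQ0 : 0 < Q := by linarith
  obtain ⟨NT, hT1⟩ := hT h Q (1 / 4) (by norm_num)
  obtain ⟨q₀, hq₀, NS, hS2⟩ := hS1 (CU + Q) (2 * (CU + 2)) (by linarith) (by linarith)
  obtain ⟨Cb, hCb⟩ := hTb (⌈q₀⌉₊ + 1)
  obtain ⟨Ns, hNs⟩ : ∃ Ns : ℕ, Ns = max (max (max NT Nm) (max NU NS)) (max (⌈Cb⌉₊ + 1) 3) :=
    ⟨_, rfl⟩
  have n1 : NT ≤ Ns := by omega
  have n2 : Nm ≤ Ns := by omega
  have n3 : NU ≤ Ns := by omega
  have n4 : NS ≤ Ns := by omega
  have n5 : ⌈Cb⌉₊ + 1 ≤ Ns := by omega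
  have n6 : 3 ≤ Ns := by omega
  have hlog : ∀ N : ℕ, Ns ≤ N → 1 ≤ Real.log N := by
    intro N hN
    have h3 : (3 : ℝ) ≤ N := by exact_mod_cast n6.trans hN
    rw [Real.le_log_iff_exp_le (by linarith)]
    have := Real.exp_one_lt_d9
    linarith
  have hquant : ∀ N : ℕ, ∃ k : ℕ, Ns ≤ N → ((k : ℝ) ≤ (N : ℝ) ^ (3 / 4 : ℝ) + 1 ∧
      (law d ρ).real {η | N * lam ρ β h + k < X β h η N} ≤ (N : ℝ) ^ (-Q) ∧
      ∀ j : ℕ, j < k → (N : ℝ) ^ (-Q) <
        (law d ρ).real {η | N * lam ρ β h + j < X β h η N}) := by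
    intro N
    by_cases hN : Ns ≤ N
    · obtain ⟨k, k1, k2, k3⟩ := quant26 (ρ := ρ) (β := β) h (Q := Q) (N := N)
        (y := (N : ℝ) ^ (1 / 2 + 1 / 4 : ℝ)) (hT1 N (n1.trans hN))
      refine ⟨k, fun _ => ⟨?_, k2, k3⟩⟩
      rw [abs_of_nonneg (Real.rpow_nonneg (Nat.cast_nonneg N) _)] at k1
      norm_num at k1
      exact k1
    · exact ⟨0, fun hN' => absurd hN' hN⟩
  choose k hk using hquant
  have hNs0 : (0 : ℝ) < Ns := by
    have : (3 : ℝ) ≤ Ns := by exact_mod_cast n6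
    linarith
  have hv0 : 0 < 1 + ‖v‖ := by linarith [norm_nonneg v]
  obtain ⟨T, hTd⟩ : ∃ T : ℝ, T = C / c * 2 ^ |a| := ⟨_, rfl⟩
  have hT0 : 0 ≤ T := by rw [hTd]; positivity
  refine ⟨T ^ p, min 1 (1 / (2 * (Ns * (1 + ‖v‖)))), lt_min one_pos (by positivity), ?_⟩
  intro r hr
  have hr1 : ‖r‖ ≤ 1 := hr.trans (min_le_left _ _)
  have hr2 : ‖r‖ ≤ 1 / (2 * (Ns * (1 + ‖v‖))) := hr.trans (min_le_right _ _)
  obtain ⟨g, hg⟩ : ∃ g : ℝ, g = gap (lam ρ β) h v r := ⟨_, rfl⟩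
  rw [← hg]
  have hTs : 0 ≤ T ^ p * ‖r‖ ^ p :=
    mul_nonneg (Real.rpow_nonneg hT0 _) (Real.rpow_nonneg (norm_nonneg r) _)
  rcases le_or_gt g 0 with hg0 | hg0
  · exact hg0.trans hTs
  have hgle : g ≤ (1 + ‖v‖) * ‖r‖ := by
    rw [hg]
    unfold gap
    have h1 := lip26 hd hρ β h r
    have h2 := (abs_le.1 (abs_real_inner_le_norm v r)).1
    have h3 : (1 + ‖v‖) * ‖r‖ = ‖r‖ + ‖v‖ * ‖r‖ := by ring
    linarith
  have hgN : Ns * g ≤ 1 / 2 := by
    calc Ns * g ≤ Ns * ((1 + ‖v‖) * (1 / (2 * (Ns * (1 + ‖v‖))))) := by gcongr; exact hgle.trans (by gcongr)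
      _ = 1 / 2 := by field_simp
  have hg1 : g ≤ 1 := by
    have h3 : (3 : ℝ) ≤ Ns := by exact_mod_cast n6
    have h4 : g ≤ Ns * g := le_mul_of_one_le_left hg0.le (by linarith)
    linarith
  -- the least length
  classical
  have hex : ∃ N : ℕ, Ns ≤ N ∧ C * (k N + Real.log N) ≤ N * g := by
    obtain ⟨N, hN1, hN2⟩ := ev26 (C := C) hg0 Ns
    refine ⟨N, hN1, le_trans ?_ hN2⟩
    have := (hk N hN1).1
    gcongr
  obtain ⟨N, hN⟩ : ∃ N : ℕ, N = Nat.find hex := ⟨_, rfl⟩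
  have hspec := Nat.find_spec hex
  rw [← hN] at hspec
  obtain ⟨hNs1, hNk⟩ := hspec
  have hNne : N ≠ Ns := by
    intro hcon
    have h1 := hlog Ns le_rfl
    rw [hcon] at hNk
    have h2 : (0 : ℝ) ≤ k Ns := Nat.cast_nonneg _
    have h3 : 1 * 1 ≤ C * ((k Ns : ℝ) + Real.log Ns) :=
      mul_le_mul hC (by linarith) zero_le_one (by linarith)
    linarith
  obtain ⟨M, hM2⟩ : ∃ M : ℕ, N = M + 1 := ⟨N - 1, by omega⟩
  have hMs : Ns ≤ M := by omega
  have hMk : M * g < C * (k M + Real.log M) := by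
    have := Nat.find_min hex (m := M) (by omega)
    by_contra hcon
    exact this ⟨hMs, not_lt.1 hcon⟩
  have hNM : (N : ℝ) = M + 1 := by exact_mod_cast hM2
  have hM3 : (3 : ℝ) ≤ M := by exact_mod_cast n6.trans hMs
  have hN0 : (0 : ℝ) < N := by rw [hNM]; linarith
  have hN1 : (1 : ℝ) ≤ N := by rw [hNM]; linarith
  have hC0 : 0 < C := by linarith
  have hlN := hlog N hNs1
  have hlM : Real.log M ≤ Real.log N := Real.log_le_log (by linarith) (by rw [hNM]; linarith)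
  obtain ⟨u, hu⟩ : ∃ u : ℝ, u = N * g / C - Real.log N := ⟨_, rfl⟩
  have huC : C * (u + Real.log N) = N * g := by
    rw [hu]
    field_simp
    ring
  have hku : (k N : ℝ) ≤ u := by
    have h1 : (k N : ℝ) + Real.log N ≤ N * g / C := by
      rw [le_div_iff₀ hC0]
      linarith
    rw [hu]
    linarith
  have hu0 : 0 ≤ u := le_trans (Nat.cast_nonneg _) hku
  -- the first hypothesis
  have H1 : (law d ρ).real {η | N * lam ρ β h + u < X β h η N} ≤ (N : ℝ) ^ (-q) := by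
    refine le_trans (measureReal_mono ?_ (measure_ne_top _ _)) ((hk N hNs1).2.1.trans
      (Real.rpow_le_rpow_of_exponent_le hN1 (by linarith)))
    intro η hη
    have h1 : (N : ℝ) * lam ρ β h + u < X β h η N := hη
    show (N : ℝ) * lam ρ β h + k N < X β h η N
    linarith
  -- the second hypothesis
  have H2 : u ≤ 2 * (CU + 2) * Real.log N ∨
      (N : ℝ) ^ (-(CU + Q)) ≤ (law d ρ).real {η | N * lam ρ β h + u / 2 ≤ X β h η N} := by
    rcases le_or_gt u (2 * (CU + 2) * Real.log N) with hcase | hcase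
    · exact Or.inl hcase
    right
    have hkM : u - 1 < k M := by
      have h1 : (M : ℝ) * g / C < k M + Real.log M := by
        rw [div_lt_iff₀ hC0]
        linarith
      have h2 : u = M * g / C + g / C - Real.log N := by
        rw [hu, hNM]
        ring
      have h3 : g / C ≤ 1 := by
        rw [div_le_one hC0]
        linarith
      linarith
    have hkM1 : 1 ≤ k M := by
      by_contra hcon
      have h0 : k M = 0 := by omega
      rw [h0] at hkM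
      norm_num at hkM
      have h1 : 2 * (CU + 2) * 1 ≤ 2 * (CU + 2) * Real.log N :=
        mul_le_mul_of_nonneg_left hlN (by linarith)
      linarith
    obtain ⟨j, hj⟩ : ∃ j : ℕ, k M = j + 1 := ⟨k M - 1, by omega⟩
    have hjM : (k M : ℝ) = j + 1 := by exact_mod_cast hj
    have hjq := (hk M hMs).2.2 j (by omega)
    have h5 := hU1 N (n3.trans hNs1) h (by linarith [norm_nonneg v]) M (by omega)
      (j - CU * Real.log N)
    have h6 : (law d ρ).real {η | M * lam ρ β h + j < X β h η M} ≤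
        (law d ρ).real {η | M * lam ρ β h + (j - CU * Real.log N) + CU * Real.log N ≤
          X β h η M} := by
      refine measureReal_mono ?_ (measure_ne_top _ _)
      intro η hη
      have h1 : (M : ℝ) * lam ρ β h + j < X β h η M := hη
      show (M : ℝ) * lam ρ β h + (j - CU * Real.log N) + CU * Real.log N ≤ X β h η M
      linarith
    have h7 : (law d ρ).real {η | N * lam ρ β h + (j - CU * Real.log N) ≤ X β h η N} ≤
        (law d ρ).real {η | N * lam ρ β h + u / 2 ≤ X β h η N} := by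
      refine measureReal_mono ?_ (measure_ne_top _ _)
      intro η hη
      have h1 : (N : ℝ) * lam ρ β h + (j - CU * Real.log N) ≤ X β h η N := hη
      show (N : ℝ) * lam ρ β h + u / 2 ≤ X β h η N
      have h2 : u / 2 ≤ j - CU * Real.log N := by
        have h3 : 2 * (CU + 2) * Real.log N = 2 * (CU * Real.log N) + 4 * Real.log N := by ring
        rw [h3] at hcase
        linarith
      linarith
    have h8 : (N : ℝ) ^ (-Q) ≤ (M : ℝ) ^ (-Q) :=
      Real.rpow_le_rpow_of_nonpos (by linarith) (by rw [hNM]; linarith) (by linarith)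
    have h9 : (N : ℝ) ^ (-Q) ≤ (N : ℝ) ^ CU *
        (law d ρ).real {η | N * lam ρ β h + u / 2 ≤ X β h η N} := by
      calc (N : ℝ) ^ (-Q) ≤ (M : ℝ) ^ (-Q) := h8
        _ ≤ _ := hjq.le
        _ ≤ _ := h6
        _ ≤ _ := h5
        _ ≤ _ := by gcongr
    have h10 : (N : ℝ) ^ (-(CU + Q)) = (N : ℝ) ^ (-CU) * (N : ℝ) ^ (-Q) := by
      rw [← Real.rpow_add hN0]
      congr 1
      ring
    rw [h10]
    calc (N : ℝ) ^ (-CU) * (N : ℝ) ^ (-Q) ≤ (N : ℝ) ^ (-CU) * ((N : ℝ) ^ CU *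
        (law d ρ).real {η | N * lam ρ β h + u / 2 ≤ X β h η N}) := by gcongr
      _ = (law d ρ).real {η | N * lam ρ β h + u / 2 ≤ X β h η N} := by
        rw [← mul_assoc, ← Real.rpow_add hN0, neg_add_cancel, Real.rpow_zero, one_mul]
  -- the exit
  have H3 : C * (u + Real.log N) ≤ N * (lam ρ β (h + r) - lam ρ β h - inner ℝ r v) := by
    rw [huC, hg]
    unfold gap
    rw [real_inner_comm]
  have hσ : |inner ℝ r v| ≤ ‖h‖ + ‖v‖ + 1 := by
    have h1 := abs_real_inner_le_norm r v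
    have h2 : ‖r‖ * ‖v‖ ≤ ‖v‖ := mul_le_of_le_one_left (norm_nonneg v) hr1
    have h3 := norm_nonneg h
    linarith
  obtain ⟨n, hn1, hn2, hn3⟩ := hS2 N (n4.trans hNs1) h r (inner ℝ r v)
    (by linarith [norm_nonneg v]) hr1 hσ u hu0 H1 H2 H3
  have hn0 : (N : ℝ) ≤ n := by exact_mod_cast hn1
  have hn0' : (n : ℝ) ≤ 2 * N := by exact_mod_cast hn2
  have hnpos : (0 : ℝ) < n := by linarith
  have K1 : c * (u + Real.log N) ≤ ‖r‖ * (n : ℝ) ^ a := by
    by_contra hcon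
    have h1 := Ex_le26 (ρ := ρ) (β := β) h r v (n := n) (not_le.1 hcon).le
    have h2 := hCb n (by omega)
    have h3 : (N : ℝ) ^ (-q₀) ≤ Cb * (n : ℝ) ^ (-((⌈q₀⌉₊ + 1 : ℕ) : ℝ)) := hn3.trans (h1.trans h2)
    have h4 : 0 < (N : ℝ) ^ (-q₀) := Real.rpow_pos_of_pos hN0 _
    have h5 : 0 < Cb := by
      by_contra hc0
      have h6 : Cb * (n : ℝ) ^ (-((⌈q₀⌉₊ + 1 : ℕ) : ℝ)) ≤ 0 :=
        mul_nonpos_of_nonpos_of_nonneg (not_lt.1 hc0) (Real.rpow_nonneg hnpos.le _)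
      linarith
    have h7 : (n : ℝ) ^ (-((⌈q₀⌉₊ + 1 : ℕ) : ℝ)) ≤ (N : ℝ) ^ (-q₀ - 1) := by
      calc (n : ℝ) ^ (-((⌈q₀⌉₊ + 1 : ℕ) : ℝ)) ≤ (N : ℝ) ^ (-((⌈q₀⌉₊ + 1 : ℕ) : ℝ)) :=
            Real.rpow_le_rpow_of_nonpos hN0 hn0 (by
              have : (0 : ℝ) ≤ ((⌈q₀⌉₊ + 1 : ℕ) : ℝ) := Nat.cast_nonneg _
              linarith)
        _ ≤ (N : ℝ) ^ (-q₀ - 1) := by
            refine Real.rpow_le_rpow_of_exponent_le hN1 ?_
            have := Nat.le_ceil q₀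
            push_cast
            linarith
    have h8 : (N : ℝ) ^ (-q₀ - 1) = (N : ℝ) ^ (-q₀) / N := by
      rw [Real.rpow_sub_one hN0.ne']
    have h9 : Cb < N := by
      have e1 := Nat.le_ceil Cb
      have e2 : ((⌈Cb⌉₊ + 1 : ℕ) : ℝ) ≤ N := by exact_mod_cast n5.trans hNs1
      push_cast at e2
      linarith
    have h10 : Cb * (n : ℝ) ^ (-((⌈q₀⌉₊ + 1 : ℕ) : ℝ)) < (N : ℝ) ^ (-q₀) := by
      calc Cb * (n : ℝ) ^ (-((⌈q₀⌉₊ + 1 : ℕ) : ℝ)) ≤ Cb * ((N : ℝ) ^ (-q₀) / N) := by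
            rw [← h8]
            gcongr
        _ = (Cb / N) * (N : ℝ) ^ (-q₀) := by ring
        _ < 1 * (N : ℝ) ^ (-q₀) := by
            refine mul_lt_mul_of_pos_right ?_ h4
            rw [div_lt_one hN0]
            exact h9
        _ = _ := one_mul _
    linarith
  have K2 : (n : ℝ) ^ a ≤ 2 ^ |a| * (N : ℝ) ^ a := by
    rcases le_or_gt 0 a with ha | ha
    · rw [abs_of_nonneg ha, ← Real.mul_rpow (by norm_num) hN0.le]
      exact Real.rpow_le_rpow hnpos.le hn0' ha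
    · have e1 : (n : ℝ) ^ a ≤ (N : ℝ) ^ a := Real.rpow_le_rpow_of_nonpos hN0 hn0 ha.le
      have e2 : (1 : ℝ) ≤ 2 ^ |a| := Real.one_le_rpow (by norm_num) (abs_nonneg a)
      have e3 : 0 ≤ (N : ℝ) ^ a := Real.rpow_nonneg hN0.le _
      exact e1.trans (le_mul_of_one_le_left e3 e2)
  have K3 : g ≤ T * ‖r‖ * (N : ℝ) ^ (a - 1) := by
    have e1 : u + Real.log N = N * g / C := by rw [hu]; ring
    have e2 : c * (N * g / C) ≤ ‖r‖ * (2 ^ |a| * (N : ℝ) ^ a) := by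
      rw [← e1]
      exact K1.trans (mul_le_mul_of_nonneg_left K2 (norm_nonneg r))
    have e3 : (N : ℝ) ^ (a - 1) = (N : ℝ) ^ a / N := Real.rpow_sub_one hN0.ne' a
    have e4 : T * ‖r‖ * (N : ℝ) ^ (a - 1) = (C / (c * N)) * (‖r‖ * (2 ^ |a| * (N : ℝ) ^ a)) := by
      rw [e3, hTd]
      field_simp
    have e5 : g = (C / (c * N)) * (c * (N * g / C)) := by
      field_simp
    rw [e4]
    calc g = (C / (c * N)) * (c * (N * g / C)) := e5
      _ ≤ _ := mul_le_mul_of_nonneg_left e2 (by positivity)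
  have hug : u + Real.log N ≤ N * g := by
    have e5 : 0 ≤ u + Real.log N := by linarith
    have e6 : u + Real.log N ≤ C * (u + Real.log N) := le_mul_of_one_le_left e5 hC
    linarith
  have K4 : (N : ℝ) ^ (y - 1) ≤ g := by
    have e2 : (N : ℝ) ^ (y - 1) = (N : ℝ) ^ y / N := Real.rpow_sub_one hN0.ne' y
    rw [e2, div_le_iff₀ hN0]
    rcases hM1 with hM1 | hM1
    · rw [hM1, Real.rpow_zero, mul_comm]
      linarith
    have e1 : (N : ℝ) ^ y ≤ k N := by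
      by_contra hcon
      have h1 := hM1 N (n2.trans hNs1)
      have h2 : (law d ρ).real {η | N * lam ρ β h + (N : ℝ) ^ y ≤ X β h η N} ≤
          (law d ρ).real {η | N * lam ρ β h + k N < X β h η N} := by
        refine measureReal_mono ?_ (measure_ne_top _ _)
        intro η hη
        have h3 : (N : ℝ) * lam ρ β h + (N : ℝ) ^ y ≤ X β h η N := hη
        show (N : ℝ) * lam ρ β h + k N < X β h η N
        linarith [not_le.1 hcon]
      have h4 := (hk N hNs1).2.1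
      have h5 : (N : ℝ) ^ (-Q) < (N : ℝ) ^ (-qm) :=
        Real.rpow_lt_rpow_of_exponent_lt (by rw [hNM]; linarith) (by linarith)
      linarith
    rw [mul_comm]
    linarith
  exact fin26 hN1 hp hg0 hT0 (norm_nonneg r) K3 K4 hpy

/-- **The second theorem** (second block), the exponent `x = 0` included. -/
theorem bonX26 (hd : 0 < d) (hρ : EM ρ) (hS : StpPK d ρ β) (hU : UplPK d ρ β)
    (hT : TailPK d ρ β) (hM : MomV d ρ β) (h v : Vec d) (p a x : ℝ) (hp : 1 ≤ p)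
    (hTb : TbF ρ β h v a) (hx : 0 ≤ x)
    (hV : x = 0 ∨ ∀ᶠ n : ℕ in atTop, (n : ℝ) ^ (2 * x) ≤ Va ρ β h n)
    (hpa : p * a < 1 + (p - 1) * x) : UpG (lam ρ β) h v p := by
  rcases hx.eq_or_lt with hx0 | hx0
  · refine bonY26 hd hρ hS hU hT h v p a 0 hp hTb (Or.inl rfl) ?_
    rw [← hx0] at hpa
    exact hpa.le
  rcases hV with hV | hV
  · exact absurd hV hx0.ne'
  obtain ⟨y, hy0, hyx, hpy⟩ := exp26 hp hx0 hpa
  exact bonY26 hd hρ hS hU hT h v p a y hp hTb (Or.inr (hM h x y hy0 hyx hV)) hpy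

/-- **The second theorem** (second block). -/
theorem bon26 (hd : 0 < d) (hρ : EM ρ) (hS : StpPK d ρ β) (hU : UplPK d ρ β)
    (hT : TailPK d ρ β) (hM : MomV d ρ β) : BonT d ρ β :=
  fun h v p a x hp hTb hx hV hpa => bonX26 hd hρ hS hU hT hM h v p a x hp hTb hx.le (Or.inr hV) hpa

end Pool.Agent.W_7d29a1_PK
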