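import Pool.Agent.W_7d29a1_PK.Ind63

/-!
Theorem PK, the leaf EXI from IND and DEC (helper63).
-/

set_option autoImplicit false

namespace Pool.Agent.W_7d29a1_PK

open MeasureTheory ProbabilityTheory Filter Topology Pool.Agent.W_MP_7d29a1_pr
  Pool.Agent.W_7d29a1_h46 Pool.Agent.W_7d29a1_h46u Pool.Agent.W_7d29a1_D2
  Pool.Agent.W_7d29a1_D2.B35 Pool.Agent.W_7d29a1_V

variable {d : ℕ} {ρ : Measure ℝ} [IsProbabilityMeasure ρ]

/-- The elementary inequality of EXI. -/
lemma num63 {y p₁ p₂ E E' B : ℝ} (hy : 0 ≤ y) (hp₁ : 0 ≤ p₁) (hp₁' : p₁ ≤ 1) (hp₂ : 0 ≤ p₂)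
    (hE : 0 ≤ E) (hE' : 0 ≤ E') (hB : 0 ≤ B)
    (h : Real.exp (-y) / 2 * (p₁ / 2 * (3 / 4 * p₂ - B * E)) ≤ E') :
    Real.exp (-y) * p₁ * p₂ / 8 ≤ E' + B * E := by
  have h1 : Real.exp (-y) ≤ 1 := Real.exp_le_one_iff.2 (by linarith)
  have h0 := Real.exp_pos (-y)
  have h2 : Real.exp (-y) * p₁ ≤ 1 := by nlinarith
  have h3 : 0 ≤ Real.exp (-y) * p₁ := by positivity
  have h4 : 0 ≤ B * E := by positivity
  have h5 : 0 ≤ Real.exp (-y) * p₁ * p₂ := by positivity
  nlinarith [mul_le_mul_of_nonneg_right h2 h4]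

/-- **EXI.** -/
theorem exi63' (hd : 0 < d) {β : ℝ} (hI : IndPK d ρ β) (hDc : DecPK d β) : ExiPK d ρ β := by
  intro h w s N τ D r a b u y p₁ p₂ hN hτ hr hD hy hp₁ hp₂ H1 H2 H3 H4
  have hB : (0 : ℝ) ≤ 4 * (2 * (τ : ℝ) + 1) ^ d := by positivity
  set α : ℝ := u + (b - a) + 2 - y with hα
  have hI' := hI h w s N τ D r α u p₂ hN hr hD H3 H4
  set A1 : Set (Env d) := {η | Real.exp a ≤ PP β h η τ D ∧ X β h η τ ≤ b} with hA1
  set A2 : Set (Env d) := {η | α - Real.log 2 ≤ X β h (sh τ D η) N ∧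
    ∀ x ∈ boxF d τ, |inner ℝ w (emb x) - τ * s| ≤ r → X β h (sh τ x η) N ≤ u + Real.log 2}
    with hA2
  have hXd : DependsOn (fun η : Env d => X β h η τ) {p : ℕ × Site d | p.1 ≤ τ} := by
    have k1 := dependsOn_ZT97 (d := d) β h (Set.univ : Set (Fin τ → Step d))
      {p : ℕ × Site d | p.1 ≤ τ} fun _ _ i hi => (show i + 1 ≤ τ by omega)
    intro η η' hη
    show Real.log (Z β h η τ) = Real.log (Z β h η' τ)
    exact congrArg Real.log (k1 hη)
  have hev1 : Ev97 {p : ℕ × Site d | p.1 ≤ τ} A1 := by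
    have k1 : Ev97 {p : ℕ × Site d | p.1 ≤ τ} {η : Env d | Real.exp a ≤ PP β h η τ D} :=
      ev97_ge (measurable_ZT β h _) (dependsOn_ZT97 β h {q : Fin τ → Step d | pos q τ = D} _
        fun _ _ i hi => (show i + 1 ≤ τ by omega)) _
    exact k1.inter (ev97_le (measurable_X β h τ) hXd _)
  have hsh : ∀ x : Site d, DependsOn (fun η : Env d => X β h (sh τ x η) N)
      ({p : ℕ × Site d | p.1 ≤ τ}ᶜ) := by
    intro x
    have k1 := dependsOn_ZT97 (d := d) β h (Set.univ : Set (Fin N → Step d)) {p | 1 ≤ p.1}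
      fun q _ i hi => by simp
    intro η η' hη
    show Real.log (Z β h (sh τ x η) N) = Real.log (Z β h (sh τ x η') N)
    refine congrArg Real.log (k1 fun p hp => hη _ ?_)
    show ¬ (p.1 + τ ≤ τ)
    have : 1 ≤ p.1 := hp
    omega
  have hev2 : Ev97 ({p : ℕ × Site d | p.1 ≤ τ}ᶜ) A2 := by
    have k1 : Ev97 ({p : ℕ × Site d | p.1 ≤ τ}ᶜ)
        {η : Env d | α - Real.log 2 ≤ X β h (sh τ D η) N} :=
      ev97_ge ((measurable_X β h N).comp (measurable_sh τ D)) (hsh D) _
    have k2 : ∀ x : Site d, Ev97 ({p : ℕ × Site d | p.1 ≤ τ}ᶜ)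
        {η : Env d | X β h (sh τ x η) N ≤ u + Real.log 2} := fun x =>
      ev97_le ((measurable_X β h N).comp (measurable_sh τ x)) (hsh x) _
    have k4 : Ev97 ({p : ℕ × Site d | p.1 ≤ τ}ᶜ) {η : Env d | ∀ x ∈ boxF d τ,
        |inner ℝ w (emb x) - τ * s| ≤ r → X β h (sh τ x η) N ≤ u + Real.log 2} := by
      refine ⟨?_, fun η η' hη => ?_⟩
      · have k3 : {η : Env d | ∀ x ∈ boxF d τ, |inner ℝ w (emb x) - τ * s| ≤ r →
            X β h (sh τ x η) N ≤ u + Real.log 2} = ⋂ x ∈ boxF d τ,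
            {η : Env d | |inner ℝ w (emb x) - τ * s| ≤ r →
              X β h (sh τ x η) N ≤ u + Real.log 2} := by
          ext η
          simp only [Set.mem_iInter]
          exact Iff.rfl
        rw [k3]
        refine Finset.measurableSet_biInter _ fun x _ => ?_
        by_cases hx : |inner ℝ w (emb x) - τ * s| ≤ r
        · have k5 : {η : Env d | |inner ℝ w (emb x) - τ * s| ≤ r →
              X β h (sh τ x η) N ≤ u + Real.log 2} =
              {η : Env d | X β h (sh τ x η) N ≤ u + Real.log 2} := by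
            ext η
            exact ⟨fun k => k hx, fun k _ => k⟩
          rw [k5]
          exact (k2 x).1
        · have k5 : {η : Env d | |inner ℝ w (emb x) - τ * s| ≤ r →
              X β h (sh τ x η) N ≤ u + Real.log 2} = Set.univ :=
            Set.eq_univ_of_forall fun η k => absurd k hx
          rw [k5]
          exact MeasurableSet.univ
      · constructor
        · intro h1 x hx1 hx2
          exact ((k2 x).2 η η' hη).1 (h1 x hx1 hx2)
        · intro h1 x hx1 hx2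
          exact ((k2 x).2 η η' hη).2 (h1 x hx1 hx2)
    exact k1.inter k4
  have hP1 : p₁ / 2 ≤ (law d ρ).real A1 := by
    have k1 : (law d ρ).real {η : Env d | Real.exp a ≤ PP β h η τ D} ≤
        (law d ρ).real A1 + (law d ρ).real {η | b < X β h η τ} := by
      refine le_trans (measureReal_mono fun η hη => ?_) (measureReal_union_le _ _)
      by_cases k2 : X β h η τ ≤ b
      · exact Or.inl ⟨hη, k2⟩
      · exact Or.inr (not_le.1 k2)
    linarith
  have hp1' : p₁ ≤ 1 := H1.trans measureReal_le_one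
  have hkey : ∀ η ∈ A1 ∩ A2, Real.exp (-y) / 2 ≤ 1 - PolT β h η (slb d (τ + N) w s r) := by
    rintro η ⟨⟨k1, k2⟩, k3, k4⟩
    refine le_trans ?_ (hDc h w s η N τ D r a b (α - Real.log 2) (u + Real.log 2) hr
      (by linarith) k1 k2 k3 k4)
    have e1 : Real.exp (a + (α - Real.log 2)) =
        Real.exp (b + (u + Real.log 2)) * (Real.exp (-y) * Real.exp (2 - 2 * Real.log 2)) := by
      rw [← Real.exp_add, ← Real.exp_add]
      congr 1
      rw [hα]
      ring
    have e2 : (1 : ℝ) ≤ Real.exp (2 - 2 * Real.log 2) := by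
      rw [← Real.exp_zero]
      apply Real.exp_le_exp.2
      have := Real.log_two_lt_d9
      linarith
    have e3 := Real.exp_pos (-y)
    have e3' : Real.exp (-y) ≤ 1 := Real.exp_le_one_iff.2 (by linarith)
    have e4 := Real.exp_pos (b + (u + Real.log 2))
    rw [le_div_iff₀ (by positivity), e1]
    have e5 : Real.exp (-y) ≤ Real.exp (-y) * Real.exp (2 - 2 * Real.log 2) := by nlinarith
    set t : ℝ := Real.exp (-y) * Real.exp (2 - 2 * Real.log 2) with ht
    have e6 : Real.exp (-y) / 2 * (t + 1) ≤ t := by nlinarith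
    nlinarith [mul_le_mul_of_nonneg_left e6 e4.le]
  have hm : Measurable fun η : Env d => PolT β h η (slb d (τ + N) w s r) :=
    measurable_PolT β h _
  have hint : Integrable (fun η : Env d => 1 - PolT β h η (slb d (τ + N) w s r))
      (law d ρ) := by
    refine Integrable.of_bound (C := 1) (measurable_const.sub hm).aestronglyMeasurable
      (Eventually.of_forall fun η => ?_)
    rw [Real.norm_eq_abs, abs_le]
    have h1 := PolT_nonneg β h η (slb d (τ + N) w s r)
    have h2 := PolT_le_one β h η (slb d (τ + N) w s r)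
    constructor <;> linarith
  have hmain : Real.exp (-y) / 2 * (law d ρ).real
      {η | Real.exp (-y) / 2 ≤ 1 - PolT β h η (slb d (τ + N) w s r)} ≤ Ex ρ β h w s (τ + N) r :=
    mul_meas_ge_le_integral_of_nonneg (μ := law d ρ)
      (Eventually.of_forall fun η : Env d =>
        sub_nonneg.2 (PolT_le_one β h η (slb d (τ + N) w s r))) hint (Real.exp (-y) / 2)
  have hsub : (law d ρ).real (A1 ∩ A2) ≤ (law d ρ).real
      {η | Real.exp (-y) / 2 ≤ 1 - PolT β h η (slb d (τ + N) w s r)} :=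
    measureReal_mono fun η hη => hkey η hη
  have hprod : p₁ / 2 * (3 / 4 * p₂ - 4 * (2 * (τ : ℝ) + 1) ^ d * Ex ρ β h w s N r) ≤
      (law d ρ).real (A1 ∩ A2) := by
    rw [ev97_mul hev1 hev2]
    calc p₁ / 2 * (3 / 4 * p₂ - 4 * (2 * (τ : ℝ) + 1) ^ d * Ex ρ β h w s N r)
        ≤ p₁ / 2 * (law d ρ).real A2 := mul_le_mul_of_nonneg_left hI' (by linarith)
      _ ≤ (law d ρ).real A1 * (law d ρ).real A2 :=
        mul_le_mul_of_nonneg_right hP1 measureReal_nonneg
  refine num63 hy hp₁ hp1' hp₂ (Ex_nonneg63 β h w s N r) (Ex_nonneg63 β h w s (τ + N) r) hB ?_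
  refine le_trans ?_ hmain
  exact mul_le_mul_of_nonneg_left (hprod.trans hsub) (by positivity)

/-- **EXI.** -/
theorem exi63 (hd : 0 < d) (β : ℝ) : ExiPK d ρ β := exi63' hd (ind63 hd β) (dec63 hd β)

end Pool.Agent.W_7d29a1_PK
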