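import Pool.Agent.W_7d29a1_PL.DefsPL
import Pool.Agent.W_7d29a1_V.DefsL70
import Pool.Agent.W_7d29a1_D2.Defs46

/-!
The second half of the KPZ relation at one tilt and one velocity, for the exponents of all moments:
definitions and frozen statements of the leaves (helper2).
-/

namespace Pool.Agent.W_7d29a1_PK

open MeasureTheory ProbabilityTheory Filter Topology Pool.Agent.W_MP_7d29a1_pr
  Pool.Agent.W_7d29a1_h46 Pool.Agent.W_7d29a1_h46u Pool.Agent.W_7d29a1_D2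
  Pool.Agent.W_7d29a1_D2.B35 Pool.Agent.W_7d29a1_Q29 Pool.Agent.W_7d29a1_R34
  Pool.Agent.W_7d29a1_SP Pool.Agent.W_7d29a1_V

/-- The mean mass outside the slab `|⟨w, S_i⟩ - i s| ≤ r`. -/
noncomputable def Ex {d : ℕ} (ρ : Measure ℝ) (β : ℝ) (h w : Vec d) (s : ℝ) (n : ℕ) (r : ℝ) : ℝ :=
  ∫ η, (1 - PolT β h η (slb d n w s r)) ∂(law d ρ)

/-- The slab property (the condition of `VT.nuSetL` in the model `law d ρ`). -/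
def SbF {d : ℕ} (ρ : Measure ℝ) (β : ℝ) (h w : Vec d) (s a : ℝ) : Prop :=
  ∀ q : ℕ, ∃ C : ℝ, ∀ n : ℕ, 1 ≤ n → Ex ρ β h w s n ((n : ℝ) ^ a) ≤ C * (n : ℝ) ^ (-(q : ℝ))

/-- A lower bound of order `p` on one side of the line. -/
def LoR {d : ℕ} (L : Vec d → ℝ) (h w : Vec d) (s p : ℝ) : Prop :=
  ∃ c δ : ℝ, 0 < c ∧ 0 < δ ∧ ∀ t : ℝ, 0 < t → t ≤ δ → c * t ^ p ≤ L (h + t • w) - L h - s * t

section Leaves

variable (d : ℕ) (ρ : Measure ℝ) (β : ℝ)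

/-- LOW (all tilts of a ball, all lengths up to `N`): the mean is reached with a polynomial
probability. -/
def LowPK : Prop := ∀ K : ℝ, ∃ C : ℝ, 1 ≤ C ∧ ∃ N₀ : ℕ, ∀ N : ℕ, N₀ ≤ N → ∀ m : ℕ, m ≤ N →
  ∀ k : Vec d, ‖k‖ ≤ K →
    (N : ℝ) ^ (-C) ≤ (law d ρ).real {η | m * lam ρ β k - 2 < X β k η m}

/-- MEAN: the free energy is at most its mean with a polynomial probability. -/
def MeanPK : Prop := ∀ K : ℝ, ∃ C : ℝ, 1 ≤ C ∧ ∃ N₀ : ℕ, ∀ N : ℕ, N₀ ≤ N →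
  ∀ k : Vec d, ‖k‖ ≤ K →
    (N : ℝ) ^ (-C) ≤ (law d ρ).real {η | X β k η N ≤ A ρ β k N + 1} ∧
      A ρ β k N ≤ N * lam ρ β k

/-- TAIL: the upper tail beyond the square root. -/
def TailPK : Prop := ∀ (h : Vec d) (q e : ℝ), 0 < e → ∃ N₀ : ℕ, ∀ N : ℕ, N₀ ≤ N →
  (law d ρ).real {η | N * lam ρ β h + (N : ℝ) ^ (1 / 2 + e) ≤ X β h η N} ≤ (N : ℝ) ^ (-q)

/-- UPL: the upper tails at shorter lengths. -/
def UplPK : Prop := ∀ K : ℝ, ∃ C : ℝ, 1 ≤ C ∧ ∃ N₀ : ℕ, ∀ N : ℕ, N₀ ≤ N → ∀ h : Vec d, ‖h‖ ≤ K →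
  ∀ l : ℕ, l ≤ N → ∀ u : ℝ,
    (law d ρ).real {η | l * lam ρ β h + u + C * Real.log N ≤ X β h η l} ≤
      (N : ℝ) ^ C * (law d ρ).real {η | N * lam ρ β h + u ≤ X β h η N}

/-- AMP: amplification of the upper deviations (`AM.ampNAll5`). -/
def AmpPK : Prop := ∀ t : ℝ, 1 ≤ t → ∃ C : ℝ, 1 ≤ C ∧
  ∀ (h : Vec d) (m : ℕ) (s₀ s₁ q : ℝ), 0 < q → q ≤ 1 / 2 →
    C * (1 + Real.log (1 / q)) ≤ s₁ - s₀ → q ≤ (law d ρ).real {η | X β h η m ≤ s₀} →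
    q ≤ (law d ρ).real {η | s₁ < X β h η m} →
      q ^ C ≤ (law d ρ).real {η | s₁ + t * (s₁ - s₀) < X β h η m}

/-- CUT (one environment): if the free energies are not large and every passage with the
displacement `R` is expensive, then the free energy at the tilt `h + r` is not large. -/
def CutPK : Prop := ∀ (h r : Vec d) (σ : ℝ) (η : Env d) (N : ℕ) (L Λ G R : ℝ), 0 ≤ Λ → 0 ≤ R →
  ‖r‖ + |σ| ≤ R →
  N * (2 * (N : ℝ) + 1) ^ d * Real.exp (2 * R - G) ≤ 1 / 2 →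
  (∀ (t l : ℕ) (z : Site d), t + l ≤ N → z ∈ boxF d t → X β h (sh t z η) l ≤ l * L + Λ) →
  (∀ (t τ : ℕ) (z D : Site d), t + τ ≤ N → 1 ≤ τ → z ∈ boxF d t → D ∈ boxF d τ →
    R ≤ |inner ℝ r (emb D) - τ * σ| → PP β h (sh t z η) τ D ≤ Real.exp (τ * L - G)) →
    X β (h + r) η N ≤ N * L + N * σ + R + Λ + Real.log 2

/-- MOV: a deterministic displacement which is cheap with a polynomial probability. -/
def MovPK : Prop := ∀ K : ℝ, ∃ C : ℝ, 1 ≤ C ∧ ∃ N₀ : ℕ, ∀ N : ℕ, N₀ ≤ N → ∀ (h r : Vec d) (σ : ℝ),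
  ‖h‖ ≤ K → ‖r‖ ≤ 1 → |σ| ≤ K → ∀ Λ G : ℝ, C * Real.log N ≤ Λ →
  (∀ l : ℕ, l ≤ N → (law d ρ).real {η | l * lam ρ β h + Λ ≤ X β h η l} ≤ (N : ℝ) ^ (-C)) →
  C * Λ ≤ G → G ≤ N * (lam ρ β (h + r) - lam ρ β h - σ) →
    ∃ (τ : ℕ) (D : Site d), 1 ≤ τ ∧ τ ≤ N ∧ G / 8 ≤ |inner ℝ r (emb D) - τ * σ| ∧
      (N : ℝ) ^ (-C) ≤ (law d ρ).real {η | Real.exp (τ * lam ρ β h - G) ≤ PP β h η τ D}

/-- IND: the future free energies at `D` and at the sites of the slab are independent up to the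
exit. -/
def IndPK : Prop := ∀ (h w : Vec d) (s : ℝ) (N τ : ℕ) (D : Site d) (r α γ p₂ : ℝ), 1 ≤ N →
  0 < r → 4 * r ≤ |inner ℝ w (emb D) - τ * s| →
  (2 * (τ : ℝ) + 1) ^ d * (law d ρ).real {η | γ < X β h η N} ≤ 1 / 4 →
  p₂ ≤ (law d ρ).real {η | α ≤ X β h η N} →
    3 / 4 * p₂ - 4 * (2 * (τ : ℝ) + 1) ^ d * Ex ρ β h w s N r ≤
      (law d ρ).real {η | α - Real.log 2 ≤ X β h (sh τ D η) N ∧
        ∀ x ∈ boxF d τ, |inner ℝ w (emb x) - τ * s| ≤ r → X β h (sh τ x η) N ≤ γ + Real.log 2}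

/-- DEC (one environment): the mass outside the slab, from the passage at the time `τ`. -/
def DecPK : Prop := ∀ (h w : Vec d) (s : ℝ) (η : Env d) (N τ : ℕ) (D : Site d)
  (r a b α γ : ℝ), 0 < r → r < |inner ℝ w (emb D) - τ * s| →
  Real.exp a ≤ PP β h η τ D → X β h η τ ≤ b → α ≤ X β h (sh τ D η) N →
  (∀ x ∈ boxF d τ, |inner ℝ w (emb x) - τ * s| ≤ r → X β h (sh τ x η) N ≤ γ) →
    Real.exp (a + α) / (Real.exp (a + α) + Real.exp (b + γ)) ≤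
      1 - PolT β h η (slb d (τ + N) w s r)

/-- EXI: the exit. -/
def ExiPK : Prop := ∀ (h w : Vec d) (s : ℝ) (N τ : ℕ) (D : Site d) (r a b u y p₁ p₂ : ℝ), 1 ≤ N →
  1 ≤ τ → 0 < r → 4 * r ≤ |inner ℝ w (emb D) - τ * s| → 0 ≤ y → 0 ≤ p₁ → 0 ≤ p₂ →
  p₁ ≤ (law d ρ).real {η | Real.exp a ≤ PP β h η τ D} →
  (law d ρ).real {η | b < X β h η τ} ≤ p₁ / 2 →
  (2 * (τ : ℝ) + 1) ^ d * (law d ρ).real {η | u < X β h η N} ≤ 1 / 4 →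
  p₂ ≤ (law d ρ).real {η | u + (b - a) + 2 - y ≤ X β h η N} →
    Real.exp (-y) * p₁ * p₂ / 8 ≤
      Ex ρ β h w s (τ + N) r + 4 * (2 * (τ : ℝ) + 1) ^ d * Ex ρ β h w s N r

/-- STP: the exit at one length. `u` is an upper quantile; if `u` is not small, then a half of it
is reached with the probability `N ^ (-q')`. -/
def StpPK : Prop := ∀ K : ℝ, ∃ q c C : ℝ, 0 < q ∧ 0 < c ∧ 1 ≤ C ∧ ∀ q' B : ℝ, 0 < q' → 0 ≤ B →
  ∃ q₀ : ℝ, 0 < q₀ ∧ ∃ N₀ : ℕ, ∀ N : ℕ, N₀ ≤ N → ∀ (h r : Vec d) (σ : ℝ),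
  ‖h‖ ≤ K → ‖r‖ ≤ 1 → |σ| ≤ K → ∀ u : ℝ, 0 ≤ u →
  (law d ρ).real {η | N * lam ρ β h + u < X β h η N} ≤ (N : ℝ) ^ (-q) →
  (u ≤ B * Real.log N ∨
    (N : ℝ) ^ (-q') ≤ (law d ρ).real {η | N * lam ρ β h + u / 2 ≤ X β h η N}) →
  C * (u + Real.log N) ≤ N * (lam ρ β (h + r) - lam ρ β h - σ) →
    ∃ n : ℕ, N ≤ n ∧ n ≤ 2 * N ∧ (N : ℝ) ^ (-q₀) ≤ Ex ρ β h r σ n (c * (u + Real.log N))

/-- MOM: large moments give a large upper tail. -/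
def MomPK : Prop := ∀ (h : Vec d) (x : ℝ), 0 < x → ¬ FlF ρ β h x → ∃ q : ℝ, 0 < q ∧
  ∀ N₀ : ℕ, ∃ N : ℕ, N₀ ≤ N ∧
    (N : ℝ) ^ (-q) ≤ (law d ρ).real {η | N * lam ρ β h + (N : ℝ) ^ x / 8 ≤ X β h η N}

/-- **The theorem**, slabs: the second half of the KPZ relation at one tilt and one line. -/
def MainL : Prop := ∀ (h w : Vec d) (s p a : ℝ), 1 ≤ p → LoR (lam ρ β) h w s p →
  SbF ρ β h w s a → 1 ≤ p * a ∧ ∀ x : ℝ, 0 < x → ¬ FlF ρ β h x → 1 + (p - 1) * x ≤ p * a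

/-- **The theorem**, tubes: the second half of the KPZ relation at one tilt and one velocity. -/
def MainT : Prop := ∀ (h v : Vec d) (p a : ℝ), 1 ≤ p → LoA (lam ρ β) h v p →
  TbF ρ β h v a → 1 ≤ p * a ∧ ∀ x : ℝ, 0 < x → ¬ FlF ρ β h x → 1 + (p - 1) * x ≤ p * a

/-- MOV2 (second block): a large variance at all large lengths gives a large upper tail. -/
def MomV : Prop := ∀ (h : Vec d) (x y : ℝ), 0 < y → y < x →
  (∀ᶠ n : ℕ in atTop, (n : ℝ) ^ (2 * x) ≤ Va ρ β h n) → ∃ q : ℝ, 0 < q ∧ ∃ N₀ : ℕ, ∀ N : ℕ,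
    N₀ ≤ N → (N : ℝ) ^ (-q) ≤ (law d ρ).real {η | N * lam ρ β h + (N : ℝ) ^ y ≤ X β h η N}

/-- **The second theorem** (second block): an upper bound of the free energy without any
hypothesis about it. -/
def BonT : Prop := ∀ (h v : Vec d) (p a x : ℝ), 1 ≤ p → TbF ρ β h v a → 0 < x →
  (∀ᶠ n : ℕ in atTop, (n : ℝ) ^ (2 * x) ≤ Va ρ β h n) → p * a < 1 + (p - 1) * x →
    UpG (lam ρ β) h v p

end Leaves

end Pool.Agent.W_7d29a1_PK
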