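import Pool.Agent.W_7d29a1_AM.AmpNU5
import Pool.Agent.W_7d29a1_SP.Bas15
import Pool.Agent.W_7d29a1_h46u.ConcV
import Pool.Agent.W_7d29a1_PK.DefsPK2

/-!
THEOREM PK, leaves MEAN, TAIL, MOM and MOMV (helper81).
-/

set_option autoImplicit false

namespace Pool.Agent.W_7d29a1_PK

open MeasureTheory ProbabilityTheory Filter Topology Pool.Agent.W_MP_7d29a1_pr
  Pool.Agent.W_7d29a1_h46 Pool.Agent.W_7d29a1_h46u Pool.Agent.W_7d29a1_D2
  Pool.Agent.W_7d29a1_D2.B35 Pool.Agent.W_7d29a1_Q29 Pool.Agent.W_7d29a1_R34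
  Pool.Agent.W_7d29a1_SP Pool.Agent.W_7d29a1_AM

namespace F81

variable {d : ℕ} {ρ : Measure ℝ} [IsProbabilityMeasure ρ] {β : ℝ}

/-- A moment that is large at infinitely many times. -/
lemma freq81 {h : Vec d} {x : ℝ} (hx : 0 < x) (hF : ¬ FlF ρ β h x) : ∃ q : ℕ, 1 ≤ q ∧
    ∃ᶠ N : ℕ in atTop, 1 ≤ N ∧
      (N : ℝ) ^ (x * q) < ∫ η, |X β h η N - A ρ β h N| ^ q ∂(law d ρ) := by
  unfold FlF at hF
  push Not at hF
  obtain ⟨q, hq⟩ := hF
  have hq1 : 1 ≤ q := by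
    by_contra hcon
    have hq0 : q = 0 := by omega
    subst hq0
    obtain ⟨n, hn, h1⟩ := hq 1
    simp at h1
  refine ⟨q, hq1, ?_⟩
  by_contra hcon
  rw [Filter.not_frequently] at hcon
  obtain ⟨N₀, hN₀⟩ := Filter.eventually_atTop.1 hcon
  obtain ⟨f, hf⟩ : ∃ f : ℕ → ℝ, f = fun n => ∫ η, |X β h η n - A ρ β h n| ^ q ∂(law d ρ) :=
    ⟨_, rfl⟩
  have hf0 : ∀ n, 0 ≤ f n := fun n => by
    rw [hf]
    exact integral_nonneg fun η => pow_nonneg (abs_nonneg _) _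
  obtain ⟨n, hn, h1⟩ := hq (1 + ∑ i ∈ Finset.range N₀, f i)
  have hn1 : (1 : ℝ) ≤ n := by exact_mod_cast hn
  have hp : (1 : ℝ) ≤ (n : ℝ) ^ (x * q) := Real.one_le_rpow hn1 (by positivity)
  have hS : 0 ≤ ∑ i ∈ Finset.range N₀, f i := Finset.sum_nonneg fun i _ => hf0 i
  have h2 : (1 + ∑ i ∈ Finset.range N₀, f i) * (n : ℝ) ^ (x * q) < f n := by
    rw [hf]
    rw [hf] at h1
    exact h1
  rcases lt_or_ge n N₀ with h3 | h3
  · have h4 : f n ≤ ∑ i ∈ Finset.range N₀, f i :=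
      Finset.single_le_sum (f := f) (fun i _ => hf0 i) (Finset.mem_range.2 h3)
    nlinarith
  · have h4 := hN₀ n h3
    apply h4
    refine ⟨hn, ?_⟩
    have h5 : (n : ℝ) ^ (x * q) ≤ (1 + ∑ i ∈ Finset.range N₀, f i) * (n : ℝ) ^ (x * q) := by
      nlinarith
    have h6 := lt_of_le_of_lt h5 h2
    rw [hf] at h6
    exact h6

/-- Anticoncentration with a polynomial probability, from one moment at one time. -/
lemma anti81 (hd : 0 < d) (hρ : EM ρ) (β : ℝ) {q : ℕ} (hq1 : 1 ≤ q) : ∀ᶠ N : ℕ in atTop,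
    ∀ (h : Vec d) (x : ℝ), 0 < x →
      (N : ℝ) ^ (x * q) ≤ ∫ η, |X β h η N - A ρ β h N| ^ q ∂(law d ρ) →
      (N : ℝ) ^ (-((q : ℝ) + 1)) ≤
        (law d ρ).real {η | (N : ℝ) ^ x / 2 ≤ |X β h η N - A ρ β h N|} := by
  obtain ⟨C2, hC2, hmom⟩ := momU (d := d) hd hρ β (2 * q)
  obtain ⟨C1, hC1, hmom1⟩ := momU (d := d) hd hρ β q
  filter_upwards [tendsto_natCast_atTop_atTop.eventually_ge_atTop (4 * (C2 + 1)),
    eventually_ge_atTop 1] with N h2 hN h x hx h1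
  have hN1 : (1 : ℝ) ≤ N := by exact_mod_cast hN
  have hN0 : (0 : ℝ) < N := by linarith
  obtain ⟨i2, b2⟩ := hmom h N hN
  obtain ⟨i1, _⟩ := hmom1 h N hN
  obtain ⟨Y, hY⟩ : ∃ Y : Env d → ℝ, Y = fun η => |X β h η N - A ρ β h N| := ⟨_, rfl⟩
  obtain ⟨a, ha⟩ : ∃ a : ℝ, a = (N : ℝ) ^ (x * q) := ⟨_, rfl⟩
  have ha1 : 1 ≤ a := by rw [ha]; exact Real.one_le_rpow hN1 (by positivity)
  obtain ⟨Nq, hNq⟩ : ∃ Nq : ℝ, Nq = (N : ℝ) ^ (q : ℝ) := ⟨_, rfl⟩
  have hNq0 : 0 < Nq := by rw [hNq]; positivity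
  have b2' : ∫ η, Y η ^ (2 * q) ∂(law d ρ) ≤ C2 * Nq := by
    rw [hY, hNq]
    refine b2.trans (le_of_eq ?_)
    congr 2
    push_cast
    ring
  have hYm : Measurable Y := by
    rw [hY]
    exact ((measurable_X β h N).sub_const _).abs
  obtain ⟨B, hB⟩ : ∃ B : Set (Env d), B = {η | (N : ℝ) ^ x / 2 ≤ Y η} := ⟨_, rfl⟩
  have hBm : MeasurableSet B := by
    rw [hB]
    exact measurableSet_le measurable_const hYm
  have hY0 : ∀ η, 0 ≤ Y η := fun η => by rw [hY]; exact abs_nonneg _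
  -- pointwise
  obtain ⟨l, hl⟩ : ∃ l : ℝ, l = a / (4 * (C2 + 1) * Nq) := ⟨_, rfl⟩
  have hl0 : 0 < l := by rw [hl]; positivity
  have hpt : ∀ η, Y η ^ q ≤ a / 2 + (l * Y η ^ (2 * q) + B.indicator (fun _ => 1 / (4 * l)) η) := by
    intro η
    have hY2 : Y η ^ (2 * q) = (Y η ^ q) ^ 2 := by rw [mul_comm, pow_mul]
    have hyq : 0 ≤ Y η ^ q := pow_nonneg (hY0 η) q
    by_cases hη : η ∈ B
    · rw [Set.indicator_of_mem hη, hY2]
      have h3 : Y η ^ q ≤ l * (Y η ^ q) ^ 2 + 1 / (4 * l) := by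
        have h4 : 0 ≤ (2 * l * Y η ^ q - 1) ^ 2 / (4 * l) := by positivity
        have h5 : (2 * l * Y η ^ q - 1) ^ 2 / (4 * l) =
            l * (Y η ^ q) ^ 2 - Y η ^ q + 1 / (4 * l) := by
          field_simp
          ring
        rw [h5] at h4
        linarith
      linarith
    · rw [Set.indicator_of_notMem hη, hY2]
      have h3 : Y η < (N : ℝ) ^ x / 2 := by
        rw [hB] at hη
        exact not_le.1 hη
      have h4 : Y η ^ q ≤ ((N : ℝ) ^ x / 2) ^ q := pow_le_pow_left₀ (hY0 η) h3.le q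
      have h5 : ((N : ℝ) ^ x / 2) ^ q ≤ a / 2 := by
        rw [div_pow, ha, Real.rpow_mul hN0.le, Real.rpow_natCast]
        refine div_le_div_of_nonneg_left (by positivity) (by norm_num) ?_
        calc (2 : ℝ) = 2 ^ 1 := by norm_num
          _ ≤ 2 ^ q := pow_le_pow_right₀ (by norm_num) hq1
      have h6 : 0 ≤ l * (Y η ^ q) ^ 2 := by positivity
      linarith
  have hiY2 : Integrable (fun η => Y η ^ (2 * q)) (law d ρ) := by rw [hY]; exact i2
  have hiY1 : Integrable (fun η => Y η ^ q) (law d ρ) := by rw [hY]; exact i1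
  have hiB : Integrable (B.indicator fun _ => 1 / (4 * l)) (law d ρ) :=
    (integrable_const _).indicator hBm
  have hint := integral_mono hiY1 ((integrable_const (a / 2)).add ((hiY2.const_mul l).add hiB)) hpt
  have e1 : ∫ η, (a / 2 + (l * Y η ^ (2 * q) + B.indicator (fun _ => 1 / (4 * l)) η)) ∂(law d ρ) =
      a / 2 + (l * ∫ η, Y η ^ (2 * q) ∂(law d ρ) + (law d ρ).real B * (1 / (4 * l))) := by
    have ea : ∫ η, (a / 2 + (l * Y η ^ (2 * q) + B.indicator (fun _ => 1 / (4 * l)) η))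
        ∂(law d ρ) = ∫ _ : Env d, a / 2 ∂(law d ρ) +
          ∫ η, (l * Y η ^ (2 * q) + B.indicator (fun _ => 1 / (4 * l)) η) ∂(law d ρ) :=
      integral_add (integrable_const _) ((hiY2.const_mul l).add hiB)
    have eb : ∫ η, (l * Y η ^ (2 * q) + B.indicator (fun _ => 1 / (4 * l)) η) ∂(law d ρ) =
        ∫ η, l * Y η ^ (2 * q) ∂(law d ρ) +
          ∫ η, B.indicator (fun _ => 1 / (4 * l)) η ∂(law d ρ) :=
      integral_add (hiY2.const_mul l) hiB
    rw [ea, eb, integral_const, integral_const_mul,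
      integral_indicator hBm, setIntegral_const, probReal_univ, one_smul, smul_eq_mul]
  have h7 : a ≤ a / 2 + (l * ∫ η, Y η ^ (2 * q) ∂(law d ρ) +
      (law d ρ).real B * (1 / (4 * l))) := by
    rw [← e1]
    refine le_trans ?_ hint
    rw [ha, hY]
    exact h1
  have h8 : l * ∫ η, Y η ^ (2 * q) ∂(law d ρ) ≤ a / 4 := by
    have h9 : l * ∫ η, Y η ^ (2 * q) ∂(law d ρ) ≤ l * ((C2 + 1) * Nq) := by
      refine mul_le_mul_of_nonneg_left (b2'.trans ?_) hl0.le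
      nlinarith
    have h10 : l * ((C2 + 1) * Nq) = a / 4 := by
      rw [hl]
      field_simp
    linarith
  have h11 : a / 4 ≤ (law d ρ).real B * (1 / (4 * l)) := by linarith
  have h12 : a * l ≤ (law d ρ).real B := by
    have h13 : (law d ρ).real B * (1 / (4 * l)) = (law d ρ).real B / (4 * l) := by ring
    rw [h13, le_div_iff₀ (by positivity)] at h11
    linarith
  have h14 : (N : ℝ) ^ (-((q : ℝ) + 1)) ≤ a * l := by
    have h15 : a * l = a ^ 2 / (4 * (C2 + 1) * Nq) := by rw [hl]; ring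
    have h16 : (N : ℝ) ^ (-((q : ℝ) + 1)) = 1 / (Nq * N) := by
      rw [Real.rpow_neg hN0.le, Real.rpow_add hN0, Real.rpow_one, hNq, one_div]
    rw [h15, h16, div_le_div_iff₀ (by positivity) (by positivity)]
    have h17 : 1 ≤ a ^ 2 := by nlinarith
    calc 1 * (4 * (C2 + 1) * Nq) ≤ N * Nq := by nlinarith
      _ ≤ a ^ 2 * (Nq * N) := by nlinarith [mul_pos hNq0 hN0]
  have hBY : B = {η | (N : ℝ) ^ x / 2 ≤ |X β h η N - A ρ β h N|} := by rw [hB, hY]
  rw [← hBY]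
  linarith

/-- The free energy is at most its mean plus one with a polynomial probability. -/
lemma mean81 (hd : 0 < d) (hρ : EM ρ) (β : ℝ) : ∀ᶠ N : ℕ in atTop, ∀ h : Vec d,
    (N : ℝ) ^ (-(2 : ℝ)) ≤ (law d ρ).real {η | X β h η N ≤ A ρ β h N + 1} := by
  obtain ⟨C, hC, hmom⟩ := momU (d := d) hd hρ β 2
  obtain ⟨C0, _, hmom1⟩ := momU (d := d) hd hρ β 1
  filter_upwards [eventually_ge_atTop 1,
    tendsto_natCast_atTop_atTop.eventually_ge_atTop (2 * (C + 2))] with N hN hN2 h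
  have hN1 : (1 : ℝ) ≤ N := by exact_mod_cast hN
  have hN0 : (0 : ℝ) < N := by linarith
  obtain ⟨i2, b2⟩ := hmom h N hN
  have e2 : (N : ℝ) ^ ((1 / 2 : ℝ) * (2 : ℕ)) = N := by
    rw [show (1 / 2 : ℝ) * (2 : ℕ) = 1 by push_cast; norm_num, Real.rpow_one]
  rw [e2] at b2
  have hI : Integrable (fun η => X β h η N) (law d ρ) := (concU hd hρ β h N).1
  obtain ⟨B, hB⟩ : ∃ B : Set (Env d), B = {η | X β h η N ≤ A ρ β h N + 1} := ⟨_, rfl⟩
  have hBm : MeasurableSet B := by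
    rw [hB]
    exact measurableSet_le (measurable_X β h N) measurable_const
  obtain ⟨l, hl⟩ : ∃ l : ℝ, l = 1 / (4 * ((C + 1) * N)) := ⟨_, rfl⟩
  have hCN : 0 < (C + 1) * N := by positivity
  have hl0 : 0 < l := by rw [hl]; positivity
  have hpt : ∀ η, (1 : ℝ) ≤ (X β h η N - A ρ β h N) + (l * |X β h η N - A ρ β h N| ^ 2 +
      B.indicator (fun _ => 1 + 1 / (4 * l)) η) := by
    intro η
    have h3 : -|X β h η N - A ρ β h N| ≤ X β h η N - A ρ β h N := neg_abs_le _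
    have hy : 0 ≤ |X β h η N - A ρ β h N| := abs_nonneg _
    by_cases hη : η ∈ B
    · rw [Set.indicator_of_mem hη]
      have h4 : 0 ≤ (2 * l * |X β h η N - A ρ β h N| - 1) ^ 2 / (4 * l) := by positivity
      have h5 : (2 * l * |X β h η N - A ρ β h N| - 1) ^ 2 / (4 * l) =
          l * |X β h η N - A ρ β h N| ^ 2 - |X β h η N - A ρ β h N| + 1 / (4 * l) := by
        field_simp
        ring
      rw [h5] at h4
      linarith
    · rw [Set.indicator_of_notMem hη]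
      have h4 : A ρ β h N + 1 < X β h η N := by
        rw [hB] at hη
        exact not_le.1 hη
      have h5 : 0 ≤ l * |X β h η N - A ρ β h N| ^ 2 := by positivity
      linarith
  have hiB : Integrable (B.indicator fun _ => 1 + 1 / (4 * l)) (law d ρ) :=
    (integrable_const _).indicator hBm
  have hi0 : Integrable (fun η => X β h η N - A ρ β h N) (law d ρ) :=
    hI.sub (integrable_const _)
  have hint := integral_mono (integrable_const (1 : ℝ)) (hi0.add ((i2.const_mul l).add hiB)) hpt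
  have hz : ∫ η, (X β h η N - A ρ β h N) ∂(law d ρ) = 0 := by
    rw [integral_sub hI (integrable_const _), integral_const, probReal_univ, one_smul]
    unfold A
    ring
  have e1 : ∫ η, ((X β h η N - A ρ β h N) + (l * |X β h η N - A ρ β h N| ^ 2 +
      B.indicator (fun _ => 1 + 1 / (4 * l)) η)) ∂(law d ρ) =
      l * ∫ η, |X β h η N - A ρ β h N| ^ 2 ∂(law d ρ) +
        (law d ρ).real B * (1 + 1 / (4 * l)) := by
    have ea : ∫ η, ((X β h η N - A ρ β h N) + (l * |X β h η N - A ρ β h N| ^ 2 +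
        B.indicator (fun _ => 1 + 1 / (4 * l)) η)) ∂(law d ρ) =
        ∫ η, (X β h η N - A ρ β h N) ∂(law d ρ) + ∫ η, (l * |X β h η N - A ρ β h N| ^ 2 +
        B.indicator (fun _ => 1 + 1 / (4 * l)) η) ∂(law d ρ) :=
      integral_add hi0 ((i2.const_mul l).add hiB)
    have eb : ∫ η, (l * |X β h η N - A ρ β h N| ^ 2 +
        B.indicator (fun _ => 1 + 1 / (4 * l)) η) ∂(law d ρ) =
        ∫ η, l * |X β h η N - A ρ β h N| ^ 2 ∂(law d ρ) +
        ∫ η, B.indicator (fun _ => 1 + 1 / (4 * l)) η ∂(law d ρ) :=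
      integral_add (i2.const_mul l) hiB
    rw [ea, eb, hz, zero_add, integral_const_mul, integral_indicator hBm,
      setIntegral_const, smul_eq_mul]
  have h7 : (1 : ℝ) ≤ l * ∫ η, |X β h η N - A ρ β h N| ^ 2 ∂(law d ρ) +
      (law d ρ).real B * (1 + 1 / (4 * l)) := by
    rw [← e1]
    refine le_trans (le_of_eq ?_) hint
    rw [integral_const, probReal_univ, one_smul]
  have h8 : l * ∫ η, |X β h η N - A ρ β h N| ^ 2 ∂(law d ρ) ≤ 1 / 4 := by
    have h9 : l * ∫ η, |X β h η N - A ρ β h N| ^ 2 ∂(law d ρ) ≤ l * ((C + 1) * N) := by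
      refine mul_le_mul_of_nonneg_left (b2.trans ?_) hl0.le
      nlinarith
    have h10 : l * ((C + 1) * N) = 1 / 4 := by
      rw [hl]
      field_simp
    linarith
  have h11 : 1 / (4 * l) = (C + 1) * N := by
    rw [hl]
    field_simp
  rw [h11] at h7
  have h12 : 3 / 4 ≤ (law d ρ).real B * (1 + (C + 1) * N) := by linarith
  have h13 : (N : ℝ) ^ (-(2 : ℝ)) = 1 / (N * N) := by
    rw [Real.rpow_neg hN0.le, show (2 : ℝ) = ((2 : ℕ) : ℝ) by norm_num, Real.rpow_natCast,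
      one_div, sq]
  rw [← hB, h13, div_le_iff₀ (by positivity)]
  have hB0 : 0 ≤ (law d ρ).real B := measureReal_nonneg
  have h14 : 1 + (C + 1) * N ≤ (C + 2) * N := by nlinarith
  have h15 : (law d ρ).real B * (1 + (C + 1) * N) ≤ (law d ρ).real B * ((C + 2) * N) :=
    mul_le_mul_of_nonneg_left h14 hB0
  have h16 : (law d ρ).real B * (2 * (C + 2) * N) ≤ (law d ρ).real B * (N * N) :=
    mul_le_mul_of_nonneg_left (by nlinarith) hB0
  nlinarith

/-- The amplification at one time. -/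
lemma four81 (hA : AmpPK d ρ β) (hd : 0 < d) (hρ : EM ρ) {x : ℝ} (hx : 0 < x) (Q₀ C₀ : ℝ) :
    ∃ q' : ℝ, 0 < q' ∧ ∀ᶠ N : ℕ in atTop, ∀ h : Vec d,
      (N : ℝ) ^ (-Q₀) ≤ (law d ρ).real {η | (N : ℝ) ^ x / 2 ≤ |X β h η N - A ρ β h N|} →
      (N : ℝ) ^ (-C₀) ≤ (law d ρ).real {η | N * lam ρ β h - 2 ≤ X β h η N} →
      (N : ℝ) ^ (-q') ≤ (law d ρ).real {η | N * lam ρ β h + (N : ℝ) ^ x / 5 ≤ X β h η N} := by
  obtain ⟨CA, hCA, hamp⟩ := hA 1 le_rfl
  obtain ⟨Q, hQ⟩ : ∃ Q : ℝ, Q = max C₀ (max Q₀ 2) + 1 := ⟨_, rfl⟩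
  have hQ1 : C₀ ≤ Q := by rw [hQ]; linarith [le_max_left C₀ (max Q₀ 2)]
  have hQ2 : Q₀ + 1 ≤ Q := by
    rw [hQ]
    linarith [le_max_right C₀ (max Q₀ 2), le_max_left Q₀ 2]
  have hQ3 : 3 ≤ Q := by
    rw [hQ]
    linarith [le_max_right C₀ (max Q₀ 2), le_max_right Q₀ 2]
  have hQ0 : 0 < Q := by linarith
  refine ⟨Q * CA, by positivity, ?_⟩
  have hlog : ∀ᶠ N : ℕ in atTop, CA * (1 + Q * Real.log N) ≤ (N : ℝ) ^ x / 4 - 4 := by
    have h1 : Tendsto (fun N : ℕ => (N : ℝ) ^ x) atTop atTop :=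
      (tendsto_rpow_atTop hx).comp tendsto_natCast_atTop_atTop
    have h2 : ∀ᶠ N : ℕ in atTop, Real.log N ≤ (1 / (8 * CA * Q)) * (N : ℝ) ^ x := by
      have h3 := (isLittleO_log_rpow_atTop hx).bound (show 0 < 1 / (8 * CA * Q) by positivity)
      filter_upwards [tendsto_natCast_atTop_atTop.eventually h3,
        eventually_ge_atTop 1] with N h4 hN
      have hN1 : (1 : ℝ) ≤ N := by exact_mod_cast hN
      rw [Real.norm_eq_abs, Real.norm_eq_abs, abs_of_nonneg (Real.log_nonneg hN1),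
        abs_of_nonneg (by positivity)] at h4
      exact h4
    filter_upwards [h2, h1.eventually_ge_atTop (8 * (CA + 4))] with N h3 h4
    have h5 : CA * Q * Real.log N ≤ CA * Q * ((1 / (8 * CA * Q)) * (N : ℝ) ^ x) :=
      mul_le_mul_of_nonneg_left h3 (by positivity)
    have h6 : CA * Q * ((1 / (8 * CA * Q)) * (N : ℝ) ^ x) = (N : ℝ) ^ x / 8 := by
      field_simp
    nlinarith
  have hbig : ∀ᶠ N : ℕ in atTop, (140 : ℝ) ≤ (N : ℝ) ^ x :=
    ((tendsto_rpow_atTop hx).comp tendsto_natCast_atTop_atTop).eventually_ge_atTop _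
  filter_upwards [hlog, hbig, mean81 hd hρ β, eventually_ge_atTop 2] with N hlg hbg hmn' hN
    h hP hP0
  have hmn := hmn' h
  have hN2 : (2 : ℝ) ≤ N := by exact_mod_cast hN
  have hN1 : (1 : ℝ) ≤ N := by linarith
  have hN0 : (0 : ℝ) < N := by linarith
  obtain ⟨q, hq⟩ : ∃ q : ℝ, q = (N : ℝ) ^ (-Q) := ⟨_, rfl⟩
  have hq0 : 0 < q := by rw [hq]; exact Real.rpow_pos_of_pos hN0 _
  have hmono : ∀ R : ℝ, R ≤ Q → q ≤ (N : ℝ) ^ (-R) := fun R hR => by
    rw [hq]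
    exact Real.rpow_le_rpow_of_exponent_le hN1 (by linarith)
  have hhalf : (N : ℝ) ^ (-(1 : ℝ)) ≤ 1 / 2 := by
    rw [Real.rpow_neg hN0.le, Real.rpow_one, one_div]
    exact inv_anti₀ (by norm_num) hN2
  have hq2 : q ≤ 1 / 2 := (hmono 1 (by linarith)).trans hhalf
  have hqCA : q ^ CA = (N : ℝ) ^ (-(Q * CA)) := by
    rw [hq, ← Real.rpow_mul hN0.le]
    congr 1
    ring
  have hqCA1 : q ^ CA ≤ q := by
    calc q ^ CA ≤ q ^ (1 : ℝ) := Real.rpow_le_rpow_of_exponent_ge hq0 (by linarith) hCA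
      _ = q := Real.rpow_one _
  have hlq : Real.log (1 / q) = Q * Real.log N := by
    rw [hq, one_div, ← Real.rpow_neg hN0.le, neg_neg, Real.log_rpow hN0]
  obtain ⟨L, hL⟩ : ∃ L : ℝ, L = N * lam ρ β h := ⟨_, rfl⟩
  obtain ⟨w, hw⟩ : ∃ w : ℝ, w = (N : ℝ) ^ x := ⟨_, rfl⟩
  rw [← hL] at hP0
  rw [← hL]
  rw [← hw] at hP hlg hbg
  rw [← hw]
  have hAL : A ρ β h N ≤ L := by rw [hL]; exact A_le_lam hd hρ β h N
  -- the amplification
  have key : q ≤ (law d ρ).real {η | X β h η N ≤ L - w / 4 + 1} →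
      (N : ℝ) ^ (-(Q * CA)) ≤ (law d ρ).real {η | L + w / 5 ≤ X β h η N} := by
    intro h1
    have h2 : q ≤ (law d ρ).real {η | L - 3 < X β h η N} := by
      refine (hmono C₀ hQ1).trans (hP0.trans (measureReal_mono fun η hη => ?_))
      have h3 : L - 2 ≤ X β h η N := hη
      show L - 3 < X β h η N
      linarith
    have h3 := hamp h N (L - w / 4 + 1) (L - 3) q hq0 hq2 (by
      rw [hlq]
      linarith) h1 h2
    rw [hqCA] at h3
    refine h3.trans (measureReal_mono fun η hη => ?_)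
    have h4 : L - 3 + 1 * (L - 3 - (L - w / 4 + 1)) < X β h η N := hη
    show L + w / 5 ≤ X β h η N
    linarith
  by_cases hc : A ρ β h N ≤ L - w / 4
  · refine key ((hmono 2 (by linarith)).trans (hmn.trans (measureReal_mono fun η hη => ?_)))
    have h1 : X β h η N ≤ A ρ β h N + 1 := hη
    show X β h η N ≤ L - w / 4 + 1
    linarith
  · rw [not_le] at hc
    have hsub : {η : Env d | w / 2 ≤ |X β h η N - A ρ β h N|} ⊆
        {η | X β h η N ≤ L - w / 4 + 1} ∪ {η | L + w / 5 ≤ X β h η N} := by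
      intro η hη
      have h1 : w / 2 ≤ |X β h η N - A ρ β h N| := hη
      rcases abs_cases (X β h η N - A ρ β h N) with ⟨h2, _⟩ | ⟨h2, _⟩
      · right
        show L + w / 5 ≤ X β h η N
        linarith
      · left
        show X β h η N ≤ L - w / 4 + 1
        linarith
    have h1 := (measureReal_mono hsub (measure_ne_top (law d ρ) _)).trans
      (measureReal_union_le _ _)
    have h2 : 2 * q ≤ (N : ℝ) ^ (-Q₀) := by
      have h3 : q ≤ (N : ℝ) ^ (-(Q₀ + 1)) := hmono _ hQ2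
      have h4 : (N : ℝ) ^ (-(Q₀ + 1)) = (N : ℝ) ^ (-Q₀) * (N : ℝ) ^ (-(1 : ℝ)) := by
        rw [← Real.rpow_add hN0]
        congr 1
        ring
      have h5 : (N : ℝ) ^ (-Q₀) * (N : ℝ) ^ (-(1 : ℝ)) ≤ (N : ℝ) ^ (-Q₀) * (1 / 2) :=
        mul_le_mul_of_nonneg_left hhalf (by positivity)
      linarith
    by_cases h3 : q ≤ (law d ρ).real {η | X β h η N ≤ L - w / 4 + 1}
    · exact key h3
    · rw [not_le] at h3
      rw [← hqCA]
      refine hqCA1.trans ?_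
      linarith

end F81

open F81

variable {d : ℕ} {ρ : Measure ℝ} [IsProbabilityMeasure ρ] {β : ℝ}

/-- **MEAN.** -/
theorem mean81 (hd : 0 < d) (hρ : EM ρ) : MeanPK d ρ β := by
  intro K
  obtain ⟨N₀, hN₀⟩ := Filter.eventually_atTop.1 (F81.mean81 (d := d) (ρ := ρ) hd hρ β)
  exact ⟨2, by norm_num, N₀, fun N hN k _ => ⟨hN₀ N hN k, A_le_lam hd hρ β k N⟩⟩

/-- **TAIL.** -/
theorem tail81 (hd : 0 < d) (hρ : EM ρ) : TailPK d ρ β := by
  intro h q e he
  obtain ⟨k, hk⟩ := exists_nat_ge ((|q| + 1) / e)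
  rw [div_le_iff₀ he] at hk
  obtain ⟨C, hC, hmom⟩ := momU (d := d) hd hρ β k
  obtain ⟨N₀, hN₀⟩ := exists_nat_ge (max C 1)
  refine ⟨N₀, fun N hN => ?_⟩
  have hNN : (N₀ : ℝ) ≤ N := by exact_mod_cast hN
  have hNC : C ≤ N := (le_max_left _ _).trans (hN₀.trans hNN)
  have hN1 : (1 : ℝ) ≤ N := (le_max_right _ _).trans (hN₀.trans hNN)
  have hN' : 1 ≤ N := by exact_mod_cast hN1
  have hN0 : (0 : ℝ) < N := by linarith
  obtain ⟨i1, b1⟩ := hmom h N hN'
  have h1 := mul_meas_ge_le_integral_of_nonneg (μ := law d ρ)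
    (f := fun η => |X β h η N - A ρ β h N| ^ k)
    (Eventually.of_forall fun η => pow_nonneg (abs_nonneg _) _) i1
    (((N : ℝ) ^ (1 / 2 + e)) ^ k)
  obtain ⟨P, hP⟩ : ∃ P : ℝ, P =
    (law d ρ).real {η | N * lam ρ β h + (N : ℝ) ^ (1 / 2 + e) ≤ X β h η N} := ⟨_, rfl⟩
  have hP0 : 0 ≤ P := by rw [hP]; exact measureReal_nonneg
  rw [← hP]
  have h2 : P ≤ (law d ρ).real {η | ((N : ℝ) ^ (1 / 2 + e)) ^ k ≤
        |X β h η N - A ρ β h N| ^ k} := by
    rw [hP]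
    refine measureReal_mono fun η hη => ?_
    have h3 : N * lam ρ β h + (N : ℝ) ^ (1 / 2 + e) ≤ X β h η N := hη
    have h4 := A_le_lam hd hρ β h N
    have h5 : (N : ℝ) ^ (1 / 2 + e) ≤ |X β h η N - A ρ β h N| := by
      refine le_trans ?_ (le_abs_self _)
      linarith
    exact pow_le_pow_left₀ (Real.rpow_nonneg hN0.le _) h5 _
  have h5 : ((N : ℝ) ^ (1 / 2 + e)) ^ k * P ≤ C * (N : ℝ) ^ ((1 / 2 : ℝ) * (k : ℝ)) :=
    (mul_le_mul_of_nonneg_left h2 (by positivity)).trans (h1.trans b1)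
  have e1 : ((N : ℝ) ^ (1 / 2 + e)) ^ k =
      (N : ℝ) ^ ((1 / 2 : ℝ) * (k : ℝ)) * (N : ℝ) ^ (e * (k : ℝ)) := by
    rw [← Real.rpow_natCast, ← Real.rpow_mul hN0.le, ← Real.rpow_add hN0]
    congr 1
    ring
  rw [e1] at h5
  have h6 : (N : ℝ) ^ (e * (k : ℝ)) * P ≤ C := by
    have h7 : 0 < (N : ℝ) ^ ((1 / 2 : ℝ) * (k : ℝ)) := by positivity
    by_contra hcon
    rw [not_le] at hcon
    have := mul_lt_mul_of_pos_left hcon h7
    nlinarith
  have h8 : (N : ℝ) ^ (q + 1) ≤ (N : ℝ) ^ (e * (k : ℝ)) :=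
    Real.rpow_le_rpow_of_exponent_le hN1 (by
      have := le_abs_self q
      linarith)
  have h9 : (N : ℝ) ^ (q + 1) * P ≤ N :=
    (mul_le_mul_of_nonneg_right h8 hP0).trans (h6.trans hNC)
  rw [Real.rpow_add hN0, Real.rpow_one] at h9
  rw [Real.rpow_neg hN0.le, ← one_div, le_div_iff₀ (by positivity)]
  by_contra hcon
  rw [not_le] at hcon
  have := mul_lt_mul_of_pos_left hcon hN0
  nlinarith

/-- **MOM.** -/
theorem mom81 (hd : 0 < d) (hρ : EM ρ) (hA : AmpPK d ρ β) (hL : LowPK d ρ β) :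
    MomPK d ρ β := by
  intro h x hx hF
  obtain ⟨q, hq1, hfr⟩ := freq81 hx hF
  obtain ⟨C₀, _, N₁, hlow⟩ := hL ‖h‖
  obtain ⟨q', hq', hev⟩ := four81 (d := d) (ρ := ρ) (β := β) hA hd hρ hx ((q : ℝ) + 1) C₀
  refine ⟨q', hq', fun N₀ => ?_⟩
  obtain ⟨N, hN, h1⟩ := (hfr.and_eventually ((anti81 (ρ := ρ) hd hρ β hq1).and
    (hev.and ((eventually_ge_atTop N₁).and (eventually_ge_atTop N₀))))).exists
  obtain ⟨h2, h3, h4, h5⟩ := h1
  refine ⟨N, h5, ?_⟩
  have h6 := h3 h (h2 h x hx hN.2.le) ((hlow N h4 N le_rfl h le_rfl).trans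
    (measureReal_mono fun η hη => by
      have h7 : N * lam ρ β h - 2 < X β h η N := hη
      exact h7.le))
  refine h6.trans (measureReal_mono fun η hη => ?_)
  have h7 : N * lam ρ β h + (N : ℝ) ^ x / 5 ≤ X β h η N := hη
  have h8 : 0 ≤ (N : ℝ) ^ x := Real.rpow_nonneg (Nat.cast_nonneg N) x
  show N * lam ρ β h + (N : ℝ) ^ x / 8 ≤ X β h η N
  linarith

/-- **MOMV.** -/
theorem momV81 (hd : 0 < d) (hρ : EM ρ) (hA : AmpPK d ρ β) (hL : LowPK d ρ β) :
    MomV d ρ β := by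
  intro h x y hy hyx hV
  have hx : 0 < x := hy.trans hyx
  obtain ⟨C₀, _, N₁, hlow⟩ := hL ‖h‖
  obtain ⟨q', hq', hev⟩ := four81 (d := d) (ρ := ρ) (β := β) hA hd hρ hx (((2 : ℕ) : ℝ) + 1) C₀
  refine ⟨q', hq', ?_⟩
  have hxy : ∀ᶠ N : ℕ in atTop, (N : ℝ) ^ y ≤ (N : ℝ) ^ x / 5 := by
    have h1 : Tendsto (fun N : ℕ => (N : ℝ) ^ (x - y)) atTop atTop :=
      (tendsto_rpow_atTop (by linarith)).comp tendsto_natCast_atTop_atTop
    filter_upwards [h1.eventually_ge_atTop 5, eventually_ge_atTop 1] with N h2 hN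
    have hN0 : (0 : ℝ) < N := by exact_mod_cast hN
    have h3 : (N : ℝ) ^ x = (N : ℝ) ^ (x - y) * (N : ℝ) ^ y := by
      rw [← Real.rpow_add hN0]
      congr 1
      ring
    have h4 : 0 < (N : ℝ) ^ y := Real.rpow_pos_of_pos hN0 _
    rw [h3]
    nlinarith
  obtain ⟨N₀, hN₀⟩ := Filter.eventually_atTop.1 (hV.and ((anti81 (ρ := ρ) hd hρ β
    (q := 2) (by norm_num)).and (hev.and ((eventually_ge_atTop N₁).and hxy))))
  refine ⟨N₀, fun N hN => ?_⟩
  obtain ⟨h1, h2, h3, h4, h5⟩ := hN₀ N hN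
  have h6 := h3 h (h2 h x hx (by
    have e1 : x * ((2 : ℕ) : ℝ) = 2 * x := by push_cast; ring
    rw [e1]
    refine h1.trans (le_of_eq ?_)
    unfold Va
    simp only [sq_abs])) ((hlow N h4 N le_rfl h le_rfl).trans
    (measureReal_mono fun η hη => by
      have h7 : N * lam ρ β h - 2 < X β h η N := hη
      exact h7.le))
  refine h6.trans (measureReal_mono fun η hη => ?_)
  have h7 : N * lam ρ β h + (N : ℝ) ^ x / 5 ≤ X β h η N := hη
  show N * lam ρ β h + (N : ℝ) ^ y ≤ X β h η N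
  linarith

end Pool.Agent.W_7d29a1_PK
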