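import Pool.Agent.W_7d29a1_PK.DefsPK2

/-!
The second half of the KPZ relation at one point: from the exit at one length to the theorem
(helper2).
-/

namespace Pool.Agent.W_7d29a1_PK

open MeasureTheory ProbabilityTheory Filter Topology Pool.Agent.W_MP_7d29a1_pr
  Pool.Agent.W_7d29a1_h46 Pool.Agent.W_7d29a1_h46u Pool.Agent.W_7d29a1_D2
  Pool.Agent.W_7d29a1_D2.B35 Pool.Agent.W_7d29a1_Q29 Pool.Agent.W_7d29a1_R34
  Pool.Agent.W_7d29a1_SP Pool.Agent.W_7d29a1_V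

namespace Mn2

variable {d : ℕ} {ρ : Measure ℝ} [IsProbabilityMeasure ρ] {β : ℝ}

lemma int_ex (h : Vec d) {n : ℕ} (E : Set (Fin n → Step d)) :
    Integrable (fun η : Env d => 1 - PolT β h η E) (law d ρ) := by
  refine Integrable.of_bound (measurable_const.sub
    (measurable_PolT β h E)).aestronglyMeasurable 1 (Filter.Eventually.of_forall fun η => ?_)
  rw [Real.norm_eq_abs, abs_le]
  have h1 := PolT_nonneg β h η E
  have h2 := PolT_le_one β h η E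
  constructor <;> linarith

lemma ex_mono (h : Vec d) {n : ℕ} {E E' : Set (Fin n → Step d)} (hE : E ⊆ E') :
    ∫ η, (1 - PolT β h η E') ∂(law d ρ) ≤ ∫ η, (1 - PolT β h η E) ∂(law d ρ) := by
  refine integral_mono (int_ex h _) (int_ex h _) fun η => ?_
  have h1 : PolT β h η E ≤ PolT β h η E' := PolT_mono β h η hE
  show 1 - PolT β h η E' ≤ 1 - PolT β h η E
  linarith

lemma ev_pow (b T : ℝ) (hb : 0 < b) : ∃ N₀ : ℕ, ∀ N : ℕ, N₀ ≤ N → T ≤ (N : ℝ) ^ b := by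
  have h1 : Tendsto (fun N : ℕ => (N : ℝ) ^ b) atTop atTop :=
    (tendsto_rpow_atTop hb).comp tendsto_natCast_atTop_atTop
  obtain ⟨N₀, hN₀⟩ := (tendsto_atTop.1 h1 T).exists_forall_of_atTop
  exact ⟨N₀, fun N hN => hN₀ N hN⟩

lemma ev_log (T : ℝ) : ∃ N₀ : ℕ, ∀ N : ℕ, N₀ ≤ N → T ≤ Real.log N := by
  have h1 : Tendsto (fun N : ℕ => Real.log (N : ℝ)) atTop atTop :=
    Real.tendsto_log_atTop.comp tendsto_natCast_atTop_atTop
  obtain ⟨N₀, hN₀⟩ := (tendsto_atTop.1 h1 T).exists_forall_of_atTop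
  exact ⟨N₀, fun N hN => hN₀ N hN⟩

/-- An integer upper quantile. -/
lemma quant (h : Vec d) {N : ℕ} {Q z : ℝ} (hN : 3 ≤ N)
    (hz : (law d ρ).real {η | N * lam ρ β h + z ≤ X β h η N} ≤ (N : ℝ) ^ (-(Q + 1))) :
    ∃ j : ℕ, (j : ℝ) ≤ ⌈z⌉₊ ∧
      (law d ρ).real {η | N * lam ρ β h + (j : ℝ) ≤ X β h η N} < (N : ℝ) ^ (-Q) ∧
      ∀ i : ℕ, i < j → (N : ℝ) ^ (-Q) ≤
        (law d ρ).real {η | N * lam ρ β h + (i : ℝ) ≤ X β h η N} := by
  classical
  have hN0 : (3 : ℝ) ≤ N := by exact_mod_cast hN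
  have hlt : (N : ℝ) ^ (-(Q + 1)) < (N : ℝ) ^ (-Q) :=
    Real.rpow_lt_rpow_of_exponent_lt (by linarith) (by linarith)
  have hex : ∃ j : ℕ, (law d ρ).real {η | N * lam ρ β h + (j : ℝ) ≤ X β h η N} <
      (N : ℝ) ^ (-Q) := by
    refine ⟨⌈z⌉₊, lt_of_le_of_lt (le_trans (measureReal_mono ?_) hz) hlt⟩
    intro η hη
    rw [Set.mem_ofPred_eq] at hη ⊢
    have := Nat.le_ceil z
    linarith
  refine ⟨Nat.find hex, ?_, Nat.find_spec hex, fun i hi => not_lt.1 (Nat.find_min hex hi)⟩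
  have h1 : Nat.find hex ≤ ⌈z⌉₊ := by
    refine Nat.find_min' hex (lt_of_le_of_lt (le_trans (measureReal_mono ?_) hz) hlt)
    intro η hη
    rw [Set.mem_ofPred_eq] at hη ⊢
    have := Nat.le_ceil z
    linarith
  exact_mod_cast h1

/-- The core: an exit of the size `N ^ ((1 + (p - 1) x) / p)` with a polynomial probability. -/
lemma core (hS : StpPK d ρ β) (hT : TailPK d ρ β) (h : Vec d) {p x a q' : ℝ} (hp : 1 ≤ p)
    (hx : 0 ≤ x) (hq' : 0 < q') (hpa : p * a < 1 + (p - 1) * x) (F : ℕ → ℝ → ℝ)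
    (hF : ∀ (n : ℕ) (r r' : ℝ), r ≤ r' → F n r' ≤ F n r) {c δ K : ℝ} (hc : 0 < c) (hδ : 0 < δ)
    (hK : ‖h‖ ≤ K)
    (hdir : ∀ t : ℝ, 0 < t → t ≤ δ → ∃ (r : Vec d) (σ : ℝ), ‖r‖ ≤ 1 ∧ |σ| ≤ K ∧
      c * t ^ p ≤ lam ρ β (h + r) - lam ρ β h - σ ∧ ∀ (n : ℕ) (W : ℝ),
        Ex ρ β h r σ n W ≤ F n (W / t)) :
    ∃ q₀ : ℝ, 0 < q₀ ∧ ∃ N₀ : ℕ, ∀ N : ℕ, N₀ ≤ N →
      (x = 0 ∨ (N : ℝ) ^ (-q') ≤
        (law d ρ).real {η | N * lam ρ β h + (N : ℝ) ^ x / 8 ≤ X β h η N}) →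
      ∃ n : ℕ, N ≤ n ∧ n ≤ 2 * N ∧ (N : ℝ) ^ (-q₀) ≤ F n ((n : ℝ) ^ a) := by
  obtain ⟨q, cS, CS, hq, hcS, hCS, S⟩ := hS K
  set Q : ℝ := max q q' + 1 with hQ
  have hQq : q ≤ Q := (le_max_left q q').trans (by linarith)
  have hQq' : q' ≤ Q := (le_max_right q q').trans (by linarith)
  obtain ⟨q₀, hq₀, N1, S1⟩ := S Q 1 (by linarith) zero_le_one
  obtain ⟨N2, hN2⟩ := hT h (Q + 1) (1 / 4) (by norm_num)
  have hp0 : 0 < p := by linarith
  have hip : 0 < 1 / p := by positivity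
  have hip1 : 1 / p ≤ 1 := by
    rw [div_le_one hp0]
    exact hp
  set b : ℝ := x * (1 - 1 / p) + 1 / p with hb
  set a' : ℝ := max a 0 with ha'
  have hba : a' < b := by
    rw [ha', max_lt_iff]
    constructor
    · have h1 : b * p = 1 + (p - 1) * x := by
        rw [hb]
        field_simp
        ring
      have h2 : a * p < b * p := by
        rw [h1]
        linarith
      exact lt_of_mul_lt_mul_right h2 hp0.le
    · rw [hb]
      have : 0 ≤ x * (1 - 1 / p) := mul_nonneg hx (by linarith)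
      linarith
  have ha'0 : 0 ≤ a' := le_max_right _ _
  set c₂ : ℝ := cS * (c / CS) ^ (1 / p) / 8 with hc₂
  have hCS0 : 0 < CS := by linarith
  have hc₂0 : 0 < c₂ := by
    rw [hc₂]
    positivity
  obtain ⟨N3, hN3⟩ := ev_pow (b - a') (2 ^ a' / c₂) (by linarith)
  obtain ⟨N4, hN4⟩ := ev_log 1
  obtain ⟨N5, hN5⟩ := ev_pow (1 / 4) (4 * CS / (c * δ ^ p)) (by norm_num)
  refine ⟨q₀, hq₀, max (max N1 N2) (max (max N3 N4) (max N5 3)), ?_⟩
  intro N hN hluck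
  have hNN1 : N1 ≤ N := ((le_max_left _ _).trans (le_max_left _ _)).trans hN
  have hNN2 : N2 ≤ N := ((le_max_right _ _).trans (le_max_left _ _)).trans hN
  have hNN3 : N3 ≤ N := (((le_max_left _ _).trans (le_max_left _ _)).trans (le_max_right _ _)).trans hN
  have hNN4 : N4 ≤ N := (((le_max_right _ _).trans (le_max_left _ _)).trans (le_max_right _ _)).trans hN
  have hNN5 : N5 ≤ N := (((le_max_left _ _).trans (le_max_right _ _)).trans (le_max_right _ _)).trans hN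
  have hNN6 : 3 ≤ N := (((le_max_right _ _).trans (le_max_right _ _)).trans (le_max_right _ _)).trans hN
  have hN0 : (3 : ℝ) ≤ N := by exact_mod_cast hNN6
  have hNp : (0 : ℝ) < N := by linarith
  have hN1' : (1 : ℝ) ≤ N := by linarith
  have hlog := hN4 N hNN4
  have hz := hN2 N hNN2
  obtain ⟨j, hj1, hj2, hj3⟩ := quant (β := β) h hNN6 hz
  have he34 : (1 / 2 + 1 / 4 : ℝ) = 3 / 4 := by norm_num
  rw [he34] at hj1
  -- the bound of the quantile
  have hju : (j : ℝ) ≤ (N : ℝ) ^ (3 / 4 : ℝ) + 1 :=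
    hj1.trans (Nat.ceil_lt_add_one (Real.rpow_nonneg hNp.le _)).le
  have hN34 : (1 : ℝ) ≤ (N : ℝ) ^ (3 / 4 : ℝ) := Real.one_le_rpow hN1' (by norm_num)
  have hlogu : Real.log N ≤ 2 * (N : ℝ) ^ (3 / 4 : ℝ) := by
    have h1 := Real.log_le_rpow_div hNp.le (show (0 : ℝ) < 3 / 4 by norm_num)
    linarith
  set A : ℝ := (j : ℝ) + Real.log N with hA
  have hj0 : (0 : ℝ) ≤ j := Nat.cast_nonneg j
  have hA1 : 1 ≤ A := by linarith
  have hA4 : A ≤ 4 * (N : ℝ) ^ (3 / 4 : ℝ) := by linarith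
  have hAx : (N : ℝ) ^ x / 8 ≤ A := by
    rcases hluck with h1 | h1
    · rw [h1, Real.rpow_zero]
      linarith
    · by_contra hcon
      rw [not_le] at hcon
      have h2 : (N : ℝ) ^ (-q') ≤
          (law d ρ).real {η | N * lam ρ β h + (j : ℝ) ≤ X β h η N} := by
        refine h1.trans (measureReal_mono ?_)
        intro η hη
        rw [Set.mem_ofPred_eq] at hη ⊢
        linarith
      have h3 : (N : ℝ) ^ (-Q) ≤ (N : ℝ) ^ (-q') :=
        Real.rpow_le_rpow_of_exponent_le hN1' (by linarith)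
      linarith
  -- the scale
  set t : ℝ := (CS * A / (c * N)) ^ (1 / p) with ht
  have hbase : 0 < CS * A / (c * N) := by positivity
  have ht0 : 0 < t := Real.rpow_pos_of_pos hbase _
  have htp : t ^ p = CS * A / (c * N) := by
    rw [ht, ← Real.rpow_mul hbase.le, one_div, inv_mul_cancel₀ hp0.ne', Real.rpow_one]
  have htδ : t ≤ δ := by
    have h1 : CS * A / (c * N) ≤ δ ^ p := by
      have h2 := hN5 N hNN5
      have hδp : 0 < δ ^ p := Real.rpow_pos_of_pos hδ _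
      rw [div_le_iff₀ (by positivity)] at h2 ⊢
      have h3 : (N : ℝ) ^ (1 / 4 : ℝ) * (N : ℝ) ^ (3 / 4 : ℝ) = N := by
        rw [← Real.rpow_add hNp]
        norm_num
      calc CS * A ≤ CS * (4 * (N : ℝ) ^ (3 / 4 : ℝ)) :=
            mul_le_mul_of_nonneg_left hA4 hCS0.le
        _ = (4 * CS) * (N : ℝ) ^ (3 / 4 : ℝ) := by ring
        _ ≤ ((N : ℝ) ^ (1 / 4 : ℝ) * (c * δ ^ p)) * (N : ℝ) ^ (3 / 4 : ℝ) :=
            mul_le_mul_of_nonneg_right h2 (Real.rpow_nonneg hNp.le _)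
        _ = (c * δ ^ p) * ((N : ℝ) ^ (1 / 4 : ℝ) * (N : ℝ) ^ (3 / 4 : ℝ)) := by ring
        _ = δ ^ p * (c * N) := by rw [h3]; ring
    calc t = (CS * A / (c * N)) ^ (1 / p) := rfl
      _ ≤ (δ ^ p) ^ (1 / p) := Real.rpow_le_rpow hbase.le h1 hip.le
      _ = δ := by
          rw [← Real.rpow_mul hδ.le, one_div, mul_inv_cancel₀ hp0.ne', Real.rpow_one]
  obtain ⟨r, σ, hr, hσ, hg, hE⟩ := hdir t ht0 htδ
  obtain ⟨n, hn1, hn2, hn3⟩ := S1 N hNN1 h r σ hK hr hσ (j : ℝ) hj0 (by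
      refine le_trans (measureReal_mono ?_) (hj2.le.trans
        (Real.rpow_le_rpow_of_exponent_le hN1' (by linarith)))
      intro η hη
      rw [Set.mem_ofPred_eq] at hη ⊢
      linarith) (by
      rcases Nat.lt_or_ge j 2 with h1 | h1
      · left
        have h2 : (j : ℝ) ≤ 1 := by
          have : j ≤ 1 := by omega
          exact_mod_cast this
        linarith
      · right
        refine (hj3 (j - 1) (by omega)).trans (measureReal_mono ?_)
        intro η hη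
        rw [Set.mem_ofPred_eq] at hη ⊢
        rw [Nat.cast_sub (by omega)] at hη
        have h2 : (2 : ℝ) ≤ j := by exact_mod_cast h1
        push_cast at hη
        linarith) (by
      refine le_trans ?_ (mul_le_mul_of_nonneg_left hg hNp.le)
      rw [htp]
      refine le_of_eq ?_
      rw [← hA]
      field_simp)
  refine ⟨n, hn1, hn2, hn3.trans ((hE n _).trans (hF n _ _ ?_))⟩
  -- the size of the exit
  have hn0 : (0 : ℝ) < n := by
    have : (N : ℝ) ≤ n := by exact_mod_cast hn1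
    linarith
  have hn1' : (1 : ℝ) ≤ n := by
    have : (N : ℝ) ≤ n := by exact_mod_cast hn1
    linarith
  have hnn : (n : ℝ) ≤ 2 * N := by exact_mod_cast hn2
  have h1 : (n : ℝ) ^ a ≤ 2 ^ a' * (N : ℝ) ^ a' := by
    calc (n : ℝ) ^ a ≤ (n : ℝ) ^ a' := Real.rpow_le_rpow_of_exponent_le hn1' (le_max_left _ _)
      _ ≤ (2 * (N : ℝ)) ^ a' := Real.rpow_le_rpow hn0.le hnn ha'0
      _ = 2 ^ a' * (N : ℝ) ^ a' := Real.mul_rpow (by norm_num) hNp.le
  have h2 : 2 ^ a' * (N : ℝ) ^ a' ≤ c₂ * (N : ℝ) ^ b := by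
    have h3 := hN3 N hNN3
    rw [div_le_iff₀ hc₂0] at h3
    have h4 : (N : ℝ) ^ (b - a') * (N : ℝ) ^ a' = (N : ℝ) ^ b := by
      rw [← Real.rpow_add hNp]
      congr 1
      ring
    calc 2 ^ a' * (N : ℝ) ^ a' ≤ ((N : ℝ) ^ (b - a') * c₂) * (N : ℝ) ^ a' :=
          mul_le_mul_of_nonneg_right h3 (Real.rpow_nonneg hNp.le _)
      _ = c₂ * ((N : ℝ) ^ (b - a') * (N : ℝ) ^ a') := by ring
      _ = c₂ * (N : ℝ) ^ b := by rw [h4]
  have h5 : c₂ * (N : ℝ) ^ b ≤ cS * A / t := by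
    have hA0 : 0 < A := by linarith
    have h6 : cS * A / t = cS * (c / CS) ^ (1 / p) * ((N : ℝ) ^ (1 / p) * A ^ (1 - 1 / p)) := by
      have h7 : t = (CS / c) ^ (1 / p) * A ^ (1 / p) / (N : ℝ) ^ (1 / p) := by
        rw [ht, show CS * A / (c * N) = (CS / c) * A / N by field_simp,
          Real.div_rpow (by positivity) hNp.le, Real.mul_rpow (by positivity) hA0.le]
      have h8 : A = A ^ (1 - 1 / p) * A ^ (1 / p) := by
        rw [← Real.rpow_add hA0]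
        rw [show (1 - 1 / p + 1 / p) = 1 by ring, Real.rpow_one]
      have h9 : (c / CS) ^ (1 / p) * (CS / c) ^ (1 / p) = 1 := by
        rw [← Real.mul_rpow (by positivity) (by positivity), show c / CS * (CS / c) = 1 by
          field_simp, Real.one_rpow]
      have h10 : 0 < A ^ (1 / p) := Real.rpow_pos_of_pos hA0 _
      have h11 : 0 < (N : ℝ) ^ (1 / p) := Real.rpow_pos_of_pos hNp _
      have h12 : 0 < (CS / c) ^ (1 / p) := Real.rpow_pos_of_pos (by positivity) _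
      rw [div_eq_iff ht0.ne', h7]
      have h13 : cS * (c / CS) ^ (1 / p) * ((N : ℝ) ^ (1 / p) * A ^ (1 - 1 / p)) *
          ((CS / c) ^ (1 / p) * A ^ (1 / p) / (N : ℝ) ^ (1 / p)) =
          cS * ((c / CS) ^ (1 / p) * (CS / c) ^ (1 / p)) * (A ^ (1 - 1 / p) * A ^ (1 / p)) := by
        field_simp
      rw [h13, h9, mul_one, ← h8]
    rw [h6, hc₂, hb]
    have h7 : (N : ℝ) ^ (x * (1 - 1 / p)) / 8 ≤ A ^ (1 - 1 / p) := by
      have h8 : ((N : ℝ) ^ x / 8) ^ (1 - 1 / p) ≤ A ^ (1 - 1 / p) :=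
        Real.rpow_le_rpow (by positivity) hAx (by linarith)
      refine le_trans ?_ h8
      rw [Real.div_rpow (by positivity) (by norm_num), ← Real.rpow_mul hNp.le]
      refine div_le_div_of_nonneg_left (Real.rpow_nonneg hNp.le _) (by positivity) ?_
      calc (8 : ℝ) ^ (1 - 1 / p) ≤ (8 : ℝ) ^ (1 : ℝ) :=
            Real.rpow_le_rpow_of_exponent_le (by norm_num) (by linarith)
        _ = 8 := Real.rpow_one _
    have h9 : (N : ℝ) ^ (x * (1 - 1 / p) + 1 / p) =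
        (N : ℝ) ^ (x * (1 - 1 / p)) * (N : ℝ) ^ (1 / p) := Real.rpow_add hNp _ _
    rw [h9]
    have h10 : 0 ≤ cS * (c / CS) ^ (1 / p) * (N : ℝ) ^ (1 / p) := by positivity
    calc cS * (c / CS) ^ (1 / p) / 8 * ((N : ℝ) ^ (x * (1 - 1 / p)) * (N : ℝ) ^ (1 / p))
        = cS * (c / CS) ^ (1 / p) * (N : ℝ) ^ (1 / p) * ((N : ℝ) ^ (x * (1 - 1 / p)) / 8) := by
          ring
      _ ≤ cS * (c / CS) ^ (1 / p) * (N : ℝ) ^ (1 / p) * A ^ (1 - 1 / p) :=
          mul_le_mul_of_nonneg_left h7 h10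
      _ = cS * (c / CS) ^ (1 / p) * ((N : ℝ) ^ (1 / p) * A ^ (1 - 1 / p)) := by ring
  exact h1.trans (h2.trans h5)

/-- The core against the exit condition. -/
lemma fin (hS : StpPK d ρ β) (hMo : MomPK d ρ β) (hT : TailPK d ρ β) (h : Vec d) {p a : ℝ}
    (hp : 1 ≤ p) (F : ℕ → ℝ → ℝ) (hF : ∀ (n : ℕ) (r r' : ℝ), r ≤ r' → F n r' ≤ F n r)
    {c δ K : ℝ} (hc : 0 < c) (hδ : 0 < δ) (hK : ‖h‖ ≤ K)
    (hdir : ∀ t : ℝ, 0 < t → t ≤ δ → ∃ (r : Vec d) (σ : ℝ), ‖r‖ ≤ 1 ∧ |σ| ≤ K ∧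
      c * t ^ p ≤ lam ρ β (h + r) - lam ρ β h - σ ∧ ∀ (n : ℕ) (W : ℝ),
        Ex ρ β h r σ n W ≤ F n (W / t))
    (ha : ∀ q : ℕ, ∃ C : ℝ, ∀ n : ℕ, 1 ≤ n → F n ((n : ℝ) ^ a) ≤ C * (n : ℝ) ^ (-(q : ℝ))) :
    1 ≤ p * a ∧ ∀ x : ℝ, 0 < x → ¬ FlF ρ β h x → 1 + (p - 1) * x ≤ p * a := by
  have hno : ∀ (x q' : ℝ), 0 ≤ x → 0 < q' → p * a < 1 + (p - 1) * x →
      (∀ N₀ : ℕ, ∃ N : ℕ, N₀ ≤ N ∧ (x = 0 ∨ (N : ℝ) ^ (-q') ≤
        (law d ρ).real {η | N * lam ρ β h + (N : ℝ) ^ x / 8 ≤ X β h η N})) → False := by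
    intro x q' hx hq' hpa hfr
    obtain ⟨q₀, hq₀, N₀, hcore⟩ := core hS hT h hp hx hq' hpa F hF hc hδ hK hdir
    obtain ⟨C, hC⟩ := ha (⌈q₀⌉₊ + 1)
    set C' : ℝ := max C 0 with hC'
    obtain ⟨N1, hN1⟩ := exists_nat_gt C'
    obtain ⟨N, hN, hl⟩ := hfr (max (max N₀ N1) 1)
    have hNN0 : N₀ ≤ N := ((le_max_left _ _).trans (le_max_left _ _)).trans hN
    have hNN1 : N1 ≤ N := ((le_max_right _ _).trans (le_max_left _ _)).trans hN
    have hNN2 : 1 ≤ N := (le_max_right _ _).trans hN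
    obtain ⟨n, hn1, hn2, hn3⟩ := hcore N hNN0 hl
    have hNp : (1 : ℝ) ≤ N := by exact_mod_cast hNN2
    have hN0 : (0 : ℝ) < N := by linarith
    have hnN : (N : ℝ) ≤ n := by exact_mod_cast hn1
    have h1 := hC n (hNN2.trans hn1)
    have h2 : (n : ℝ) ^ (-((⌈q₀⌉₊ + 1 : ℕ) : ℝ)) ≤ (N : ℝ) ^ (-(q₀ + 1)) := by
      calc (n : ℝ) ^ (-((⌈q₀⌉₊ + 1 : ℕ) : ℝ)) ≤ (N : ℝ) ^ (-((⌈q₀⌉₊ + 1 : ℕ) : ℝ)) :=
            Real.rpow_le_rpow_of_nonpos hN0 hnN (by
              have : (0 : ℝ) ≤ ((⌈q₀⌉₊ + 1 : ℕ) : ℝ) := Nat.cast_nonneg _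
              linarith)
        _ ≤ (N : ℝ) ^ (-(q₀ + 1)) := by
            refine Real.rpow_le_rpow_of_exponent_le hNp ?_
            have := Nat.le_ceil q₀
            push_cast
            linarith
    have h3 : (N : ℝ) ^ (-q₀) ≤ C' * (N : ℝ) ^ (-(q₀ + 1)) := by
      refine hn3.trans (h1.trans ?_)
      calc C * (n : ℝ) ^ (-((⌈q₀⌉₊ + 1 : ℕ) : ℝ)) ≤ C' * (n : ℝ) ^ (-((⌈q₀⌉₊ + 1 : ℕ) : ℝ)) :=
            mul_le_mul_of_nonneg_right (le_max_left _ _) (Real.rpow_nonneg (by linarith) _)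
        _ ≤ C' * (N : ℝ) ^ (-(q₀ + 1)) := mul_le_mul_of_nonneg_left h2 (le_max_right _ _)
    have h4 : (N : ℝ) ^ (-q₀) = N * (N : ℝ) ^ (-(q₀ + 1)) := by
      have : (N : ℝ) * (N : ℝ) ^ (-(q₀ + 1)) = (N : ℝ) ^ (1 : ℝ) * (N : ℝ) ^ (-(q₀ + 1)) := by
        rw [Real.rpow_one]
      rw [this, ← Real.rpow_add hN0]
      congr 1
      ring
    rw [h4] at h3
    have h5 : (N : ℝ) ≤ C' := le_of_mul_le_mul_right h3 (Real.rpow_pos_of_pos hN0 _)
    have h6 : (N1 : ℝ) ≤ N := by exact_mod_cast hNN1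
    linarith
  constructor
  · by_contra hcon
    rw [not_le] at hcon
    exact hno 0 1 le_rfl one_pos (by linarith) fun N₀ => ⟨N₀, le_rfl, Or.inl rfl⟩
  · intro x hx hFl
    by_contra hcon
    rw [not_le] at hcon
    obtain ⟨q', hq', hfr⟩ := hMo h x hx hFl
    exact hno x q' hx.le hq' hcon fun N₀ => by
      obtain ⟨N, hN, hN'⟩ := hfr N₀
      exact ⟨N, hN, Or.inr hN'⟩

end Mn2

open Mn2 in
/-- The theorem for slabs. -/
theorem mainL2 {d : ℕ} {ρ : Measure ℝ} [IsProbabilityMeasure ρ] {β : ℝ} (hS : StpPK d ρ β)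
    (hMo : MomPK d ρ β) (hT : TailPK d ρ β) : MainL d ρ β := by
  intro h w s p a hp ⟨c, δ, hc, hδ, hL⟩ ha
  have hw : 0 < 1 + ‖w‖ := by positivity
  refine fin (K := max ‖h‖ |s|) (c := c) (δ := min (min δ 1) (1 / (1 + ‖w‖))) hS hMo hT h hp
    (fun n W => Ex ρ β h w s n W) ?_ hc (by positivity) (le_max_left _ _) ?_ ha
  · intro n r r' hr
    exact ex_mono h fun q hq i hi => (hq i hi).trans hr
  · intro t ht0 ht
    have ht1 : t ≤ δ := (ht.trans (min_le_left _ _)).trans (min_le_left _ _)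
    have ht2 : t ≤ 1 := (ht.trans (min_le_left _ _)).trans (min_le_right _ _)
    have ht3 : t ≤ 1 / (1 + ‖w‖) := ht.trans (min_le_right _ _)
    refine ⟨t • w, s * t, ?_, ?_, ?_, ?_⟩
    · rw [norm_smul, Real.norm_eq_abs, abs_of_pos ht0]
      rw [le_div_iff₀ hw] at ht3
      nlinarith [norm_nonneg w]
    · rw [abs_mul, abs_of_pos ht0]
      refine le_trans ?_ (le_max_right _ _)
      nlinarith [abs_nonneg s]
    · exact hL t ht0 ht1
    · intro n W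
      refine ex_mono h fun q hq i hi => ?_
      have h1 := hq i hi
      rw [le_div_iff₀ ht0] at h1
      have h2 : inner ℝ (t • w) (emb (pos q i)) - i * (s * t) =
          (inner ℝ w (emb (pos q i)) - i * s) * t := by
        rw [real_inner_smul_left]
        ring
      show |inner ℝ (t • w) (emb (pos q i)) - i * (s * t)| ≤ W
      rw [h2, abs_mul, abs_of_pos ht0]
      exact h1

open Mn2 in
/-- The theorem for tubes. -/
theorem mainT2 {d : ℕ} {ρ : Measure ℝ} [IsProbabilityMeasure ρ] {β : ℝ} (hS : StpPK d ρ β)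
    (hMo : MomPK d ρ β) (hT : TailPK d ρ β) : MainT d ρ β := by
  intro h v p a hp ⟨c, hc, δ, hδ, hL⟩ ha
  refine fin (K := max ‖h‖ ‖v‖) (c := c) (δ := min δ 1) hS hMo hT h hp
    (fun n W => ∫ η, (1 - PolT β h η (tube d n v W)) ∂(law d ρ)) ?_ hc (by positivity)
    (le_max_left _ _) ?_ ha
  · intro n r r' hr
    exact ex_mono h fun q hq i hi => (hq i hi).trans hr
  · intro t ht0 ht
    have ht1 : t ≤ δ := ht.trans (min_le_left _ _)
    have ht2 : t ≤ 1 := ht.trans (min_le_right _ _)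
    obtain ⟨r, hr, hg⟩ := hL t ht0 ht1
    refine ⟨r, inner ℝ v r, by rw [hr]; exact ht2, ?_, ?_, ?_⟩
    · refine (abs_real_inner_le_norm v r).trans ?_
      rw [hr]
      refine le_trans ?_ (le_max_right _ _)
      nlinarith [norm_nonneg v]
    · exact hg
    · intro n W
      refine ex_mono h fun q hq i hi => ?_
      have h1 : ‖emb (pos q i) - (i : ℝ) • v‖ ≤ W / t := hq i hi
      have h2 : inner ℝ r (emb (pos q i)) - i * inner ℝ v r =
          inner ℝ r (emb (pos q i) - (i : ℝ) • v) := by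
        rw [inner_sub_right, real_inner_smul_right, real_inner_comm v r]
      show |inner ℝ r (emb (pos q i)) - i * inner ℝ v r| ≤ W
      rw [h2]
      refine (abs_real_inner_le_norm _ _).trans ?_
      rw [hr]
      calc t * ‖emb (pos q i) - (i : ℝ) • v‖ ≤ t * (W / t) :=
            mul_le_mul_of_nonneg_left h1 ht0.le
        _ = W := by field_simp

end Pool.Agent.W_7d29a1_PK
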