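import Pool.Agent.W_7d29a1_PK.Cut67

/-!
Some deterministic macroscopic piece is cheap with a polynomial probability (helper67).
-/

namespace Pool.Agent.W_7d29a1_PK

open MeasureTheory ProbabilityTheory Filter Topology Pool.Agent.W_MP_7d29a1_pr
  Pool.Agent.W_7d29a1_h46 Pool.Agent.W_7d29a1_h46u Pool.Agent.W_7d29a1_D2.B35
  Pool.Agent.W_7d29a1_D2.Crs74 C67

variable {d : ℕ} {ρ : Measure ℝ} [IsProbabilityMeasure ρ]

/-- **Some deterministic piece is cheap**, general gauge. -/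
theorem one67 (hd : 0 < d) (β : ℝ) (h r : Vec d) {G : ℕ → Site d → ℝ} {c : ℝ} (hg : Gau d G c)
    {N : ℕ} {L L' Γ R T b ε δ : ℝ} (hT : 0 ≤ T) (hR : 0 ≤ R) (hε : 0 < ε)
    (hr : ∀ x : Site d, inner ℝ r (emb x) ≤ N * b + T * G N x)
    (h0 : ε ≤ (law d ρ).real {η | N * L + N * b + T * R + L' + Real.log 2 < X β (h + r) η N})
    (h1 : ∀ l ≤ N, (law d ρ).real {η | l * L + L' < X β h η l} ≤ δ)
    (hδ : ((N : ℝ) + 1) ^ 2 * (2 * (N : ℝ) + 1) ^ d * δ ≤ ε / 2)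
    (hΓ : N * (2 * (N : ℝ) + 1) ^ d * Real.exp (T * (R + c) - Γ) ≤ 1 / 2) :
    ∃ (τ : ℕ) (D : Site d), 1 ≤ τ ∧ τ ≤ N ∧ D ∈ boxF d τ ∧ R < G τ D ∧ G τ D ≤ R + c ∧
      ε / (4 * (((N : ℝ) + 1) ^ 2 * ((2 * (N : ℝ) + 1) ^ d) ^ 2)) ≤
        (law d ρ).real {η | Real.exp (τ * L - Γ) < PP β h η τ D} := by
  classical
  by_contra hcon
  push Not at hcon
  obtain ⟨κ, hκ⟩ : ∃ κ : ℝ, κ = ε / (4 * (((N : ℝ) + 1) ^ 2 * ((2 * (N : ℝ) + 1) ^ d) ^ 2)) :=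
    ⟨_, rfl⟩
  rw [← hκ] at hcon
  have hκ0 : 0 < κ := by rw [hκ]; positivity
  obtain ⟨S1, hS1⟩ : ∃ S1 : Finset ((ℕ × ℕ) × Site d),
    S1 = (Finset.range (N + 1) ×ˢ Finset.range (N + 1)) ×ˢ boxF d N := ⟨_, rfl⟩
  obtain ⟨S2, hS2⟩ : ∃ S2 : Finset ((ℕ × ℕ) × (Site d × Site d)),
    S2 = (Finset.range (N + 1) ×ˢ Finset.range (N + 1)) ×ˢ (boxF d N ×ˢ boxF d N) := ⟨_, rfl⟩
  obtain ⟨E1, hE1⟩ : ∃ E1 : (ℕ × ℕ) × Site d → Set (Env d), E1 = fun p =>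
    {η | p.1.2 * L + L' < X β h (sh p.1.1 p.2 η) p.1.2} := ⟨_, rfl⟩
  obtain ⟨E2, hE2⟩ : ∃ E2 : (ℕ × ℕ) × (Site d × Site d) → Set (Env d), E2 = fun p =>
    {η | 1 ≤ p.1.2 ∧ p.1.2 ≤ N ∧ p.2.2 ∈ shl d G c R p.1.2 ∧
      Real.exp (p.1.2 * L - Γ) < PP β h (sh p.1.1 p.2.1 η) p.1.2 p.2.2} := ⟨_, rfl⟩
  have hsub : {η : Env d | N * L + N * b + T * R + L' + Real.log 2 < X β (h + r) η N} ⊆
      (⋃ p ∈ S1, E1 p) ∪ (⋃ p ∈ S2, E2 p) := by
    intro η hη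
    by_contra hno
    rw [Set.mem_union, not_or] at hno
    obtain ⟨n1, n2⟩ := hno
    simp only [Set.mem_iUnion, not_exists] at n1 n2
    have hbox : ∀ {t : ℕ} {x : Site d}, t ≤ N → x ∈ boxF d t → x ∈ boxF d N :=
      fun ht hx => TubV_box ht hx
    refine absurd (show N * L + N * b + T * R + L' + Real.log 2 < X β (h + r) η N from hη)
      (not_lt.2 (cut67 hd β h r hg η hT hR hr ?_ ?_ hΓ))
    · intro t l x htl hx
      have h3 := n1 ((t, l), x) (by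
        rw [hS1]
        refine Finset.mem_product.2 ⟨Finset.mem_product.2 ⟨Finset.mem_range.2 ?_,
          Finset.mem_range.2 ?_⟩, hbox (by omega) hx⟩
        · show t < N + 1
          omega
        · show l < N + 1
          omega)
      rw [hE1] at h3
      exact not_lt.1 h3
    · intro t τ x D hτ htτ hx hD
      have hDb : D ∈ boxF d N := hbox (show τ ≤ N by omega) (Finset.mem_filter.1 hD).1
      have h3 := n2 ((t, τ), (x, D)) (by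
        rw [hS2]
        refine Finset.mem_product.2 ⟨Finset.mem_product.2 ⟨Finset.mem_range.2 ?_,
          Finset.mem_range.2 ?_⟩, Finset.mem_product.2 ⟨hbox (by omega) hx, hDb⟩⟩
        · show t < N + 1
          omega
        · show τ < N + 1
          omega)
      rw [hE2] at h3
      by_contra h4
      exact h3 ⟨hτ, by show τ ≤ N; omega, hD, not_le.1 h4⟩
  have hmX : ∀ l : ℕ, MeasurableSet {η : Env d | l * L + L' < X β h η l} := fun l =>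
    measurableSet_lt measurable_const (measurable_X β h l)
  have b1 : ∀ p ∈ S1, (law d ρ).real (E1 p) ≤ δ := by
    intro p hp
    rw [hS1] at hp
    obtain ⟨hp1, -⟩ := Finset.mem_product.1 hp
    obtain ⟨-, hp2⟩ := Finset.mem_product.1 hp1
    have hp3 := Finset.mem_range.1 hp2
    rw [hE1]
    have h3 : (law d ρ).real {η : Env d | p.1.2 * L + L' < X β h (sh p.1.1 p.2 η) p.1.2} =
        (law d ρ).real {η | p.1.2 * L + L' < X β h η p.1.2} :=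
      (mp_sh (ρ := ρ) p.1.1 p.2).measureReal_preimage (hmX p.1.2).nullMeasurableSet
    show (law d ρ).real {η : Env d | p.1.2 * L + L' < X β h (sh p.1.1 p.2 η) p.1.2} ≤ δ
    rw [h3]
    exact h1 p.1.2 (by omega)
  have b2 : ∀ p ∈ S2, (law d ρ).real (E2 p) ≤ κ := by
    intro p _
    rw [hE2]
    show (law d ρ).real {η : Env d | 1 ≤ p.1.2 ∧ p.1.2 ≤ N ∧ p.2.2 ∈ shl d G c R p.1.2 ∧
      Real.exp (p.1.2 * L - Γ) < PP β h (sh p.1.1 p.2.1 η) p.1.2 p.2.2} ≤ κ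
    by_cases hp : 1 ≤ p.1.2 ∧ p.1.2 ≤ N ∧ p.2.2 ∈ shl d G c R p.1.2
    · obtain ⟨q1, q2, q3⟩ := hp
      have hm : MeasurableSet {η : Env d | Real.exp (p.1.2 * L - Γ) < PP β h η p.1.2 p.2.2} :=
        measurableSet_lt measurable_const (measurable_ZT β h _)
      have h3 : (law d ρ).real {η : Env d | Real.exp (p.1.2 * L - Γ) <
          PP β h (sh p.1.1 p.2.1 η) p.1.2 p.2.2} =
          (law d ρ).real {η | Real.exp (p.1.2 * L - Γ) < PP β h η p.1.2 p.2.2} :=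
        (mp_sh (ρ := ρ) p.1.1 p.2.1).measureReal_preimage hm.nullMeasurableSet
      have h4 : {η : Env d | 1 ≤ p.1.2 ∧ p.1.2 ≤ N ∧ p.2.2 ∈ shl d G c R p.1.2 ∧
          Real.exp (p.1.2 * L - Γ) < PP β h (sh p.1.1 p.2.1 η) p.1.2 p.2.2} ⊆
          {η : Env d | Real.exp (p.1.2 * L - Γ) < PP β h (sh p.1.1 p.2.1 η) p.1.2 p.2.2} :=
        fun η hη => hη.2.2.2
      refine (measureReal_mono h4).trans ?_
      rw [h3]
      have q4 := Finset.mem_filter.1 q3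
      exact (hcon p.1.2 p.2.2 q1 q2 q4.1 q4.2.1 q4.2.2).le
    · have h4 : {η : Env d | 1 ≤ p.1.2 ∧ p.1.2 ≤ N ∧ p.2.2 ∈ shl d G c R p.1.2 ∧
          Real.exp (p.1.2 * L - Γ) < PP β h (sh p.1.1 p.2.1 η) p.1.2 p.2.2} = ∅ := by
        rw [Set.eq_empty_iff_forall_notMem]
        intro η hη
        exact hp ⟨hη.1, hη.2.1, hη.2.2.1⟩
      rw [h4, measureReal_empty]
      exact hκ0.le
  have c1 : (S1.card : ℝ) = ((N : ℝ) + 1) ^ 2 * (2 * (N : ℝ) + 1) ^ d := by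
    rw [hS1, Finset.card_product, Finset.card_product, Finset.card_range, card_boxF]
    push_cast
    ring
  have c2 : (S2.card : ℝ) = ((N : ℝ) + 1) ^ 2 * ((2 * (N : ℝ) + 1) ^ d) ^ 2 := by
    rw [hS2, Finset.card_product, Finset.card_product, Finset.card_product, Finset.card_range,
      card_boxF]
    push_cast
    ring
  have u1 : (law d ρ).real (⋃ p ∈ S1, E1 p) ≤ ε / 2 := by
    refine (measureReal_biUnion_finset_le S1 E1).trans ?_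
    refine (Finset.sum_le_card_nsmul _ _ _ b1).trans ?_
    rw [nsmul_eq_mul, c1]
    exact hδ
  have u2 : (law d ρ).real (⋃ p ∈ S2, E2 p) ≤ ε / 4 := by
    refine (measureReal_biUnion_finset_le S2 E2).trans ?_
    refine (Finset.sum_le_card_nsmul _ _ _ b2).trans ?_
    rw [nsmul_eq_mul, c2, hκ]
    apply le_of_eq
    field_simp
  have h5 := h0.trans ((measureReal_mono hsub).trans (measureReal_union_le _ _))
  linarith

/-- The slab form. -/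
theorem oneS67 (hd : 0 < d) (β : ℝ) (h u : Vec d) (s : ℝ)
    {N : ℕ} {L L' Γ R t ε δ : ℝ} (ht : 0 ≤ t) (hR : 0 ≤ R) (hε : 0 < ε)
    (h0 : ε ≤ (law d ρ).real
      {η | N * L + N * (t * s) + t * R + L' + Real.log 2 < X β (h + t • u) η N})
    (h1 : ∀ l ≤ N, (law d ρ).real {η | l * L + L' < X β h η l} ≤ δ)
    (hδ : ((N : ℝ) + 1) ^ 2 * (2 * (N : ℝ) + 1) ^ d * δ ≤ ε / 2)
    (hΓ : N * (2 * (N : ℝ) + 1) ^ d * Real.exp (t * (R + (‖u‖ + |s|)) - Γ) ≤ 1 / 2) :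
    ∃ (τ : ℕ) (D : Site d), 1 ≤ τ ∧ τ ≤ N ∧ D ∈ boxF d τ ∧
      R < |inner ℝ u (emb D) - τ * s| ∧ |inner ℝ u (emb D) - τ * s| ≤ R + (‖u‖ + |s|) ∧
      ε / (4 * (((N : ℝ) + 1) ^ 2 * ((2 * (N : ℝ) + 1) ^ d) ^ 2)) ≤
        (law d ρ).real {η | Real.exp (τ * L - Γ) < PP β h η τ D} := by
  refine one67 hd β h (t • u) (gau_S u s) ht hR hε (fun x => ?_) h0 h1 hδ hΓ
  unfold gS
  rw [real_inner_smul_left]
  have h2 := le_abs_self (inner ℝ u (emb x) - N * s)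
  nlinarith [mul_le_mul_of_nonneg_left h2 ht]

/-- The tube form. -/
theorem oneT67 (hd : 0 < d) (β : ℝ) (h v r : Vec d)
    {N : ℕ} {L L' Γ R ε δ : ℝ} (hR : 0 ≤ R) (hε : 0 < ε)
    (h0 : ε ≤ (law d ρ).real
      {η | N * L + N * inner ℝ r v + ‖r‖ * R + L' + Real.log 2 < X β (h + r) η N})
    (h1 : ∀ l ≤ N, (law d ρ).real {η | l * L + L' < X β h η l} ≤ δ)
    (hδ : ((N : ℝ) + 1) ^ 2 * (2 * (N : ℝ) + 1) ^ d * δ ≤ ε / 2)
    (hΓ : N * (2 * (N : ℝ) + 1) ^ d * Real.exp (‖r‖ * (R + (1 + ‖v‖)) - Γ) ≤ 1 / 2) :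
    ∃ (τ : ℕ) (D : Site d), 1 ≤ τ ∧ τ ≤ N ∧ D ∈ boxF d τ ∧
      R < ‖emb D - (τ : ℝ) • v‖ ∧ ‖emb D - (τ : ℝ) • v‖ ≤ R + (1 + ‖v‖) ∧
      ε / (4 * (((N : ℝ) + 1) ^ 2 * ((2 * (N : ℝ) + 1) ^ d) ^ 2)) ≤
        (law d ρ).real {η | Real.exp (τ * L - Γ) < PP β h η τ D} := by
  refine one67 hd β h r (gau_T v) (norm_nonneg r) hR hε (fun x => ?_) h0 h1 hδ hΓ
  unfold gT
  have h5 := real_inner_le_norm r (emb x - (N : ℝ) • v)
  rw [inner_sub_right, real_inner_smul_right] at h5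
  linarith

end Pool.Agent.W_7d29a1_PK
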