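import Pool.Agent.W_7d29a1_PK.DefsPK2
import Pool.Agent.W_7d29a1_PK.One67

/-!
Leaves CUT and MOV (helper67).
-/

namespace Pool.Agent.W_7d29a1_PK

open MeasureTheory ProbabilityTheory Filter Topology Pool.Agent.W_MP_7d29a1_pr
  Pool.Agent.W_7d29a1_h46 Pool.Agent.W_7d29a1_h46u Pool.Agent.W_7d29a1_D2
  Pool.Agent.W_7d29a1_D2.B35 Pool.Agent.W_7d29a1_Q29 Pool.Agent.W_7d29a1_R34
  Pool.Agent.W_7d29a1_SP Pool.Agent.W_7d29a1_V C67

variable {d : ℕ} {ρ : Measure ℝ} [IsProbabilityMeasure ρ]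

/-- **Leaf CUT.** -/
theorem cutPK67 (hd : 0 < d) {β : ℝ} : CutPK d β := by
  intro h r σ η N L Λ G R hΛ hR hc hΓ hG hE
  have key := cut67 (R := R) (T := 1) (b := σ) (L := L) (L' := Λ) (Γ := G) (N := N) hd β h r
    (gau_S r σ) η zero_le_one hR (fun x => ?_) hG (fun t τ x D hτ htτ hx hD => ?_) ?_
  · linarith
  · unfold gS
    have := le_abs_self (inner ℝ r (emb x) - N * σ)
    linarith
  · have hD2 := Finset.mem_filter.1 hD
    exact hE t τ x D htτ hτ hx hD2.1 hD2.2.1.le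
  · refine le_trans (mul_le_mul_of_nonneg_left (Real.exp_le_exp.2 ?_) (by positivity)) hΓ
    linarith

lemma num67 (d : ℕ) {N : ℕ} (hN : 2 ≤ N) :
    ((N : ℝ) + 1) ^ 2 ≤ (N : ℝ) ^ (4 : ℝ) ∧ (2 * (N : ℝ) + 1) ^ d ≤ (N : ℝ) ^ (3 * (d : ℝ)) ∧
      (N : ℝ) * (2 * (N : ℝ) + 1) ^ d ≤ (N : ℝ) ^ (1 + 3 * (d : ℝ)) := by
  have hN' : (2 : ℝ) ≤ N := by exact_mod_cast hN
  have hN0 : (0 : ℝ) < N := by linarith
  have h1 : ((N : ℝ) + 1) ^ 2 ≤ (N : ℝ) ^ (4 : ℝ) := by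
    have e1 : (N : ℝ) ^ (4 : ℝ) = (N : ℝ) ^ 4 := by exact_mod_cast Real.rpow_natCast (N : ℝ) 4
    rw [e1]
    nlinarith [sq_nonneg ((N : ℝ) ^ 2 - N - 1), mul_self_nonneg ((N : ℝ) - 1),
      mul_pos hN0 hN0]
  have h2 : (2 * (N : ℝ) + 1) ^ d ≤ (N : ℝ) ^ (3 * (d : ℝ)) := by
    have e1 : (N : ℝ) ^ (3 * (d : ℝ)) = ((N : ℝ) ^ 3) ^ d := by
      rw [Real.rpow_mul hN0.le, Real.rpow_natCast]
      congr 1
      exact_mod_cast Real.rpow_natCast (N : ℝ) 3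
    rw [e1]
    refine pow_le_pow_left₀ (by positivity) ?_ d
    nlinarith [mul_pos hN0 hN0]
  refine ⟨h1, h2, ?_⟩
  rw [Real.rpow_add hN0, Real.rpow_one]
  exact mul_le_mul_of_nonneg_left h2 hN0.le

/-- **Leaf MOV**, from LOW. -/
theorem movPK67 (hd : 0 < d) {β : ℝ} (hL : LowPK d ρ β) : MovPK d ρ β := by
  intro K
  obtain ⟨C₀, hC₀, N₁, hlow⟩ := hL (K + 1)
  obtain ⟨C, hC⟩ : ∃ C : ℝ, C = C₀ + 6 * d + |K| + 10 := ⟨_, rfl⟩
  have hK := abs_nonneg K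
  have hKK := le_abs_self K
  have hd0 : (0 : ℝ) ≤ d := Nat.cast_nonneg d
  refine ⟨C, by linarith, max N₁ 3, ?_⟩
  intro N hN h r σ hh hr hσ Λ G hΛ htail hG1 hG2
  have hN1 : N₁ ≤ N := (le_max_left _ _).trans hN
  have hN3 : 3 ≤ N := (le_max_right _ _).trans hN
  have hN2 : 2 ≤ N := by omega
  have hN3' : (3 : ℝ) ≤ N := by exact_mod_cast hN3
  have hN0 : (0 : ℝ) < N := by linarith
  have hNge : (1 : ℝ) ≤ N := by linarith
  obtain ⟨n1, n2, n3⟩ := num67 d hN2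
  -- log N ≥ 1
  have hlog : 1 ≤ Real.log N := by
    rw [Real.le_log_iff_exp_le hN0]
    have := Real.exp_one_lt_d9
    linarith
  have hC10 : 10 ≤ C := by linarith
  have hΛ1 : 10 ≤ Λ := by nlinarith
  have hG10 : 10 * Λ ≤ G := by nlinarith
  have hG0 : 0 ≤ G := by linarith
  have hlog2 : Real.log 2 ≤ 1 := by
    have := Real.log_two_lt_d9
    linarith
  have hKn : ‖h + r‖ ≤ K + 1 := (norm_add_le _ _).trans (by linarith)
  have hl := hlow N hN1 N le_rfl (h + r) hKn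
  have a0 : (N : ℝ) ^ (-C₀) ≤ (law d ρ).real {η | N * lam ρ β h + N * σ + 1 * (G / 8) + Λ +
      Real.log 2 < X β (h + r) η N} := by
    refine hl.trans (measureReal_mono fun η hη => ?_)
    have hη' : N * lam ρ β (h + r) - 2 < X β (h + r) η N := hη
    show N * lam ρ β h + N * σ + 1 * (G / 8) + Λ + Real.log 2 < X β (h + r) η N
    have : N * (lam ρ β (h + r) - lam ρ β h - σ) =
      N * lam ρ β (h + r) - N * lam ρ β h - N * σ := by ring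
    linarith
  have a1 : ∀ l ≤ N, (law d ρ).real {η | l * lam ρ β h + Λ < X β h η l} ≤ (N : ℝ) ^ (-C) := by
    intro l hl
    exact (measureReal_mono fun η (hη : l * lam ρ β h + Λ < X β h η l) => hη.le).trans
      (htail l hl)
  have a2 : ((N : ℝ) + 1) ^ 2 * (2 * (N : ℝ) + 1) ^ d * (N : ℝ) ^ (-C) ≤ (N : ℝ) ^ (-C₀) / 2 := by
    have e1 : ((N : ℝ) + 1) ^ 2 * (2 * (N : ℝ) + 1) ^ d * (N : ℝ) ^ (-C) ≤
        (N : ℝ) ^ (4 : ℝ) * (N : ℝ) ^ (3 * (d : ℝ)) * (N : ℝ) ^ (-C) :=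
      mul_le_mul_of_nonneg_right (mul_le_mul n1 n2 (by positivity) (by positivity))
        (Real.rpow_nonneg hN0.le _)
    refine e1.trans ?_
    rw [← Real.rpow_add hN0, ← Real.rpow_add hN0, le_div_iff₀ (by norm_num : (0 : ℝ) < 2)]
    have e2 : (2 : ℝ) ≤ (N : ℝ) ^ (1 : ℝ) := by
      rw [Real.rpow_one]
      linarith
    refine (mul_le_mul_of_nonneg_left e2 (Real.rpow_nonneg hN0.le _)).trans ?_
    rw [← Real.rpow_add hN0]
    exact Real.rpow_le_rpow_of_exponent_le hNge (by linarith)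
  have a3 : N * (2 * (N : ℝ) + 1) ^ d * Real.exp (1 * (G / 8 + (‖r‖ + |σ|)) - G) ≤ 1 / 2 := by
    refine (mul_le_mul_of_nonneg_right n3 (Real.exp_pos _).le).trans ?_
    rw [Real.rpow_def_of_pos hN0, ← Real.exp_add]
    have e1 : (1 / 2 : ℝ) = Real.exp (-Real.log 2) := by
      rw [Real.exp_neg, Real.exp_log (by norm_num)]
      norm_num
    rw [e1]
    apply Real.exp_le_exp.2
    have e2 : 10 * (C * Real.log N) ≤ G := by linarith
    have e3 : (1 + 3 * (d : ℝ)) * Real.log N + |K| * Real.log N + 8 * Real.log N ≤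
        C * Real.log N := by nlinarith
    have e4 : |K| ≤ |K| * Real.log N := le_mul_of_one_le_right hK hlog
    have e5 : 0 ≤ (1 + 3 * (d : ℝ)) * Real.log N := by positivity
    nlinarith
  obtain ⟨τ, D, p1, p2, p3, p4, p5, p6⟩ := one67 (ρ := ρ) (ε := (N : ℝ) ^ (-C₀))
    (δ := (N : ℝ) ^ (-C)) (L := lam ρ β h) (L' := Λ) (Γ := G) (R := G / 8) (T := 1) (b := σ)
    (N := N) hd β h r (gau_S r σ) zero_le_one (by positivity) (Real.rpow_pos_of_pos hN0 _)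
    (fun x => by
      unfold gS
      have := le_abs_self (inner ℝ r (emb x) - N * σ)
      linarith) a0 a1 a2 a3
  refine ⟨τ, D, p1, p2, p4.le, ?_⟩
  refine le_trans ?_ (p6.trans (measureReal_mono
    fun η (hη : Real.exp (τ * lam ρ β h - G) < PP β h η τ D) => hη.le))
  rw [le_div_iff₀ (by positivity)]
  have e1 : 4 * (((N : ℝ) + 1) ^ 2 * ((2 * (N : ℝ) + 1) ^ d) ^ 2) ≤
      (N : ℝ) ^ (2 : ℝ) * ((N : ℝ) ^ (4 : ℝ) * ((N : ℝ) ^ (3 * (d : ℝ))) ^ 2) := by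
    have e2 : (4 : ℝ) ≤ (N : ℝ) ^ (2 : ℝ) := by
      have e3 : (N : ℝ) ^ (2 : ℝ) = (N : ℝ) ^ 2 := by exact_mod_cast Real.rpow_natCast (N : ℝ) 2
      rw [e3]
      have e6 := pow_le_pow_left₀ (by norm_num : (0 : ℝ) ≤ 3) hN3' 2
      norm_num at e6
      linarith
    have e4 : ((2 * (N : ℝ) + 1) ^ d) ^ 2 ≤ ((N : ℝ) ^ (3 * (d : ℝ))) ^ 2 :=
      pow_le_pow_left₀ (by positivity) n2 2
    exact mul_le_mul e2 (mul_le_mul n1 e4 (by positivity) (by positivity)) (by positivity)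
      (by positivity)
  refine (mul_le_mul_of_nonneg_left e1 (Real.rpow_nonneg hN0.le _)).trans ?_
  have e5 : ((N : ℝ) ^ (3 * (d : ℝ))) ^ 2 = (N : ℝ) ^ (6 * (d : ℝ)) := by
    rw [sq, ← Real.rpow_add hN0]
    congr 1
    ring
  rw [e5, ← Real.rpow_add hN0, ← Real.rpow_add hN0, ← Real.rpow_add hN0]
  exact Real.rpow_le_rpow_of_exponent_le hNge (by linarith)

end Pool.Agent.W_7d29a1_PK
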