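import Pool.Agent.W_7d29a1_PK.DefsPK2

/-!
The exit at one length: the assembly of the leaves (helper2).
-/

namespace Pool.Agent.W_7d29a1_PK

open MeasureTheory ProbabilityTheory Filter Topology Pool.Agent.W_MP_7d29a1_pr
  Pool.Agent.W_7d29a1_h46 Pool.Agent.W_7d29a1_h46u Pool.Agent.W_7d29a1_D2
  Pool.Agent.W_7d29a1_D2.B35 Pool.Agent.W_7d29a1_Q29 Pool.Agent.W_7d29a1_R34
  Pool.Agent.W_7d29a1_SP Pool.Agent.W_7d29a1_V

namespace St2

variable {d : ℕ} {ρ : Measure ℝ} [IsProbabilityMeasure ρ] {β : ℝ}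

lemma ex_anti (h w : Vec d) (s : ℝ) (n : ℕ) {r r' : ℝ} (hr : r ≤ r') :
    Ex ρ β h w s n r' ≤ Ex ρ β h w s n r := by
  unfold Ex
  have hi : ∀ E : Set (Fin n → Step d),
      Integrable (fun η : Env d => 1 - PolT β h η E) (law d ρ) := by
    intro E
    refine Integrable.of_bound (measurable_const.sub
      (measurable_PolT β h E)).aestronglyMeasurable 1 (Filter.Eventually.of_forall fun η => ?_)
    rw [Real.norm_eq_abs, abs_le]
    have h1 := PolT_nonneg β h η E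
    have h2 := PolT_le_one β h η E
    constructor <;> linarith
  refine integral_mono (hi _) (hi _) fun η => ?_
  have h1 : PolT β h η (slb d n w s r) ≤ PolT β h η (slb d n w s r') := by
    refine PolT_mono β h η ?_
    intro q hq i hin
    exact (hq i hin).trans hr
  show 1 - PolT β h η (slb d n w s r') ≤ 1 - PolT β h η (slb d n w s r)
  linarith

/-- The arithmetic of the last step. -/
lemma last {N τ : ℕ} (hN : 3 ≤ N) (hτ : τ ≤ N) {Q E1 E2 : ℝ}
    (h : (N : ℝ) ^ (-Q) ≤ E1 + 4 * (2 * (τ : ℝ) + 1) ^ d * E2) :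
    (N : ℝ) ^ (-(Q + 2 * d + 3)) ≤ E1 ∨ (N : ℝ) ^ (-(Q + 2 * d + 3)) ≤ E2 := by
  by_contra hcon
  rw [not_or, not_le, not_le] at hcon
  obtain ⟨h1, h2⟩ := hcon
  have hN0 : (3 : ℝ) ≤ N := by exact_mod_cast hN
  have hNp : (0 : ℝ) < N := by linarith
  have hτ' : (τ : ℝ) ≤ N := by exact_mod_cast hτ
  have hτ0 : (0 : ℝ) ≤ τ := Nat.cast_nonneg τ
  have h3 : (2 * (τ : ℝ) + 1) ^ d ≤ ((N : ℝ) ^ 2) ^ d := by
    refine pow_le_pow_left₀ (by positivity) ?_ d
    nlinarith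
  have h4 : ((N : ℝ) ^ 2) ^ d = (N : ℝ) ^ (2 * (d : ℝ)) := by
    rw [← pow_mul, ← Real.rpow_natCast]
    push_cast
    rfl
  have h5 : (0 : ℝ) < (2 * (τ : ℝ) + 1) ^ d := by positivity
  set e := (N : ℝ) ^ (-(Q + 2 * d + 3)) with he
  have he0 : 0 < e := Real.rpow_pos_of_pos hNp _
  have h6 : E1 + 4 * (2 * (τ : ℝ) + 1) ^ d * E2 < e + 4 * (N : ℝ) ^ (2 * (d : ℝ)) * e := by
    have : 4 * (2 * (τ : ℝ) + 1) ^ d * E2 ≤ 4 * (2 * (τ : ℝ) + 1) ^ d * e :=
      mul_le_mul_of_nonneg_left h2.le (by positivity)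
    have h7 : 4 * (2 * (τ : ℝ) + 1) ^ d * e ≤ 4 * (N : ℝ) ^ (2 * (d : ℝ)) * e := by
      refine mul_le_mul_of_nonneg_right ?_ he0.le
      rw [← h4]
      linarith
    linarith
  have h8 : (1 : ℝ) ≤ (N : ℝ) ^ (2 * (d : ℝ)) :=
    Real.one_le_rpow (by linarith) (by positivity)
  have h9 : (N : ℝ) ^ (2 * (d : ℝ)) * e = (N : ℝ) ^ (-Q) * (N : ℝ) ^ (-3 : ℝ) := by
    rw [he, ← Real.rpow_add hNp, ← Real.rpow_add hNp]
    congr 1
    ring
  have h10 : (N : ℝ) ^ (-3 : ℝ) ≤ 1 / 27 := by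
    rw [Real.rpow_neg hNp.le, show ((3 : ℝ)) = ((3 : ℕ) : ℝ) by norm_num, Real.rpow_natCast,
      ← one_div]
    refine one_div_le_one_div_of_le (by norm_num) ?_
    have : (3 : ℝ) ^ 3 ≤ (N : ℝ) ^ 3 := pow_le_pow_left₀ (by norm_num) hN0 3
    linarith
  have h11 : 0 < (N : ℝ) ^ (-Q) := Real.rpow_pos_of_pos hNp _
  have h12 : e ≤ (N : ℝ) ^ (2 * (d : ℝ)) * e := by nlinarith
  have h13 : (N : ℝ) ^ (2 * (d : ℝ)) * e ≤ (N : ℝ) ^ (-Q) * (1 / 27) := by
    rw [h9]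
    exact mul_le_mul_of_nonneg_left h10 h11.le
  nlinarith

/-- A large length beats a constant. -/
lemma ev_log (T : ℝ) : ∃ N₀ : ℕ, ∀ N : ℕ, N₀ ≤ N → 3 ≤ N ∧ T ≤ Real.log N := by
  have h1 : Tendsto (fun N : ℕ => Real.log (N : ℝ)) atTop atTop :=
    Real.tendsto_log_atTop.comp tendsto_natCast_atTop_atTop
  obtain ⟨N₀, hN₀⟩ := (tendsto_atTop.1 h1 T).exists_forall_of_atTop
  exact ⟨max 3 N₀, fun N hN => ⟨(le_max_left _ _).trans hN, hN₀ N ((le_max_right _ _).trans hN)⟩⟩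

lemma rpow_le_c {N : ℕ} (hN : 3 ≤ N) {a b : ℝ} (hab : a ≤ b) : (N : ℝ) ^ a ≤ (N : ℝ) ^ b := by
  have hN0 : (3 : ℝ) ≤ N := by exact_mod_cast hN
  exact Real.rpow_le_rpow_of_exponent_le (by linarith) hab

/-- `N ^ (a - 1) ≤ N ^ a / 2`. -/
lemma rpow_half {N : ℕ} (hN : 3 ≤ N) {a b : ℝ} (hab : a + 1 ≤ b) :
    (N : ℝ) ^ a ≤ (N : ℝ) ^ b / 2 := by
  have hN0 : (3 : ℝ) ≤ N := by exact_mod_cast hN
  have hNp : (0 : ℝ) < N := by linarith
  have h1 : (N : ℝ) ^ (a + 1) ≤ (N : ℝ) ^ b := rpow_le_c hN hab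
  rw [Real.rpow_add hNp, Real.rpow_one] at h1
  have h2 : 0 < (N : ℝ) ^ a := Real.rpow_pos_of_pos hNp _
  nlinarith

/-- `N ^ (a - 2) ≤ N ^ a / 8`. -/
lemma rpow_eighth {N : ℕ} (hN : 3 ≤ N) {a b : ℝ} (hab : a + 2 ≤ b) :
    (N : ℝ) ^ a ≤ (N : ℝ) ^ b / 8 := by
  have hN0 : (3 : ℝ) ≤ N := by exact_mod_cast hN
  have hNp : (0 : ℝ) < N := by linarith
  have h1 : (N : ℝ) ^ (a + 2) ≤ (N : ℝ) ^ b := rpow_le_c hN hab
  rw [Real.rpow_add hNp, show ((2 : ℝ)) = ((2 : ℕ) : ℝ) by norm_num, Real.rpow_natCast] at h1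
  have h2 : 0 < (N : ℝ) ^ a := Real.rpow_pos_of_pos hNp _
  have h3 : (9 : ℝ) ≤ (N : ℝ) ^ 2 := by nlinarith
  nlinarith

end St2

open St2 in
/-- STP from the leaves. -/
theorem stp2 {d : ℕ} {ρ : Measure ℝ} [IsProbabilityMeasure ρ] {β : ℝ}
    (hL : LowPK d ρ β) (hM : MeanPK d ρ β) (hU : UplPK d ρ β) (hV : MovPK d ρ β)
    (hE : ExiPK d ρ β) (hA : AmpPK d ρ β) : StpPK d ρ β := by
  intro K
  obtain ⟨C0, hC0, N0, L⟩ := hL K
  obtain ⟨CE, hCE, N1, M⟩ := hM K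
  obtain ⟨CU, hCU, N2, U⟩ := hU K
  obtain ⟨CM, hCM, N3, V⟩ := hV K
  obtain ⟨CD, hCD, Am⟩ := hA (8 * CM + 16) (by linarith)
  have hd0 : (0 : ℝ) ≤ d := Nat.cast_nonneg d
  refine ⟨CU + CM + 2 * d + 4, CM / 32, CM * (CU + CM + 2), by linarith, by linarith, ?_, ?_⟩
  · nlinarith
  intro q' B hq' hB
  set qA : ℝ := max q' CE + 1 with hqA
  have hqA1 : 1 ≤ qA := by
    have : CE ≤ max q' CE := le_max_right _ _
    linarith
  set KD : ℝ := 2 * CD * (1 + qA) + 12 + CU + CM with hKD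
  set B' : ℝ := max B KD with hB'
  have hB'0 : 0 ≤ B' := hB.trans (le_max_left _ _)
  set Y : ℝ := B' + (1 + CM) * (B' + 1 + CU + CM) + 4 with hY
  have hY0 : 0 ≤ Y := by
    rw [hY]
    have : 0 ≤ (1 + CM) * (B' + 1 + CU + CM) := by
      apply mul_nonneg <;> linarith
    linarith
  set Q : ℝ := CM + qA * CD + C0 + Y + 2 with hQ
  have hqC : 0 ≤ qA * CD := by
    apply mul_nonneg <;> linarith
  obtain ⟨N4, hN4⟩ := ev_log 1
  refine ⟨Q + 2 * d + 3, by linarith, max (max N0 N1) (max N2 (max N3 N4)), ?_⟩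
  intro N hN h r σ hh hr hσ u hu hup hluck hgap
  have hNN0 : N0 ≤ N := ((le_max_left _ _).trans (le_max_left _ _)).trans hN
  have hNN1 : N1 ≤ N := ((le_max_right _ _).trans (le_max_left _ _)).trans hN
  have hNN2 : N2 ≤ N := ((le_max_left _ _).trans (le_max_right _ _)).trans hN
  have hNN3 : N3 ≤ N := ((le_max_left _ _).trans ((le_max_right _ _).trans (le_max_right _ _))).trans hN
  have hNN4 : N4 ≤ N := ((le_max_right _ _).trans ((le_max_right _ _).trans (le_max_right _ _))).trans hN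
  obtain ⟨hN3', hlog⟩ := hN4 N hNN4
  have hN0 : (3 : ℝ) ≤ N := by exact_mod_cast hN3'
  have hNp : (0 : ℝ) < N := by linarith
  set ℓ : ℝ := Real.log N with hℓ
  set lm : ℝ := lam ρ β h with hlm
  set Λ : ℝ := u + 1 + (CU + CM) * ℓ with hΛ
  have hcl : 0 ≤ (CU + CM) * ℓ := by
    apply mul_nonneg <;> linarith
  -- the upper tails at the shorter lengths
  have htail : ∀ l : ℕ, l ≤ N → (law d ρ).real {η | l * lm + Λ ≤ X β h η l} ≤
      (N : ℝ) ^ (-(CM + 2 * d + 4)) := by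
    intro l hl
    have h1 := U N hNN2 h hh l hl (u + 1)
    have h2 : (law d ρ).real {η | l * lm + Λ ≤ X β h η l} ≤
        (law d ρ).real {η | l * lam ρ β h + (u + 1) + CU * Real.log N ≤ X β h η l} := by
      refine measureReal_mono ?_
      intro η hη
      rw [Set.mem_ofPred_eq] at hη ⊢
      refine le_trans ?_ hη
      have : 0 ≤ CM * ℓ := by
        apply mul_nonneg <;> linarith
      rw [hΛ]
      nlinarith
    have h3 : (law d ρ).real {η | N * lam ρ β h + (u + 1) ≤ X β h η N} ≤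
        (N : ℝ) ^ (-(CU + CM + 2 * d + 4)) := by
      refine le_trans (measureReal_mono ?_) hup
      intro η hη
      rw [Set.mem_ofPred_eq] at hη ⊢
      linarith
    calc (law d ρ).real {η | l * lm + Λ ≤ X β h η l}
        ≤ (N : ℝ) ^ CU * (N : ℝ) ^ (-(CU + CM + 2 * d + 4)) :=
          h2.trans (h1.trans (mul_le_mul_of_nonneg_left h3 (Real.rpow_nonneg hNp.le _)))
      _ = (N : ℝ) ^ (-(CM + 2 * d + 4)) := by
          rw [← Real.rpow_add hNp]
          congr 1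
          ring
  -- the move
  obtain ⟨τ, D, hτ1, hτN, hDf, hDp⟩ := V N hNN3 h r σ hh hr hσ Λ (CM * Λ) (by
      rw [hΛ]
      nlinarith) (fun l hl => (htail l hl).trans (rpow_le_c hN3' (by linarith))) le_rfl (by
      refine le_trans ?_ hgap
      have h1 : u + 1 + (CU + CM) * ℓ ≤ (CU + CM + 2) * (u + ℓ) := by nlinarith
      calc CM * Λ ≤ CM * ((CU + CM + 2) * (u + ℓ)) :=
            mul_le_mul_of_nonneg_left h1 (by linarith)
        _ = CM * (CU + CM + 2) * (u + Real.log N) := by rw [hℓ]; ring)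
  have hΛ1 : 1 ≤ Λ := by rw [hΛ]; linarith
  have hrE : 0 < CM * Λ / 32 := by
    apply div_pos (mul_pos (by linarith) (by linarith)) (by norm_num)
  have hrE' : CM / 32 * (u + Real.log N) ≤ CM * Λ / 32 := by
    have h1 : u + ℓ ≤ Λ := by
      rw [hΛ]
      nlinarith
    have h2 : CM * (u + ℓ) ≤ CM * Λ := mul_le_mul_of_nonneg_left h1 (by linarith)
    rw [← hℓ]
    linarith
  have h2τ : (2 * (τ : ℝ) + 1) ^ d ≤ (N : ℝ) ^ (2 * (d : ℝ)) := by
    have hτ' : (τ : ℝ) ≤ N := by exact_mod_cast hτN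
    have hτ0 : (0 : ℝ) ≤ τ := Nat.cast_nonneg τ
    have h3 : (2 * (τ : ℝ) + 1) ^ d ≤ ((N : ℝ) ^ 2) ^ d := by
      refine pow_le_pow_left₀ (by positivity) ?_ d
      nlinarith
    have h4 : ((N : ℝ) ^ 2) ^ d = (N : ℝ) ^ (2 * (d : ℝ)) := by
      rw [← pow_mul, ← Real.rpow_natCast]
      push_cast
      rfl
    rw [← h4]
    exact h3
  -- the exit, for any luck
  have hexit : ∀ y p₂ : ℝ, 0 ≤ y → 0 ≤ p₂ →
      p₂ ≤ (law d ρ).real {η | N * lm + u + (τ * lm + Λ - (τ * lm - CM * Λ)) + 2 - y ≤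
        X β h η N} →
      (N : ℝ) ^ (-Q) ≤ Real.exp (-y) * (N : ℝ) ^ (-CM) * p₂ / 8 →
      ∃ n : ℕ, N ≤ n ∧ n ≤ 2 * N ∧ (N : ℝ) ^ (-(Q + 2 * d + 3)) ≤
        Ex ρ β h r σ n (CM / 32 * (u + Real.log N)) := by
    intro y p₂ hy hp₂ hp hQ'
    have h1 := hE h r σ N τ D (CM * Λ / 32) (τ * lm - CM * Λ) (τ * lm + Λ) (N * lm + u) y
      ((N : ℝ) ^ (-CM)) p₂ (by omega) hτ1 hrE (by linarith) hy (Real.rpow_nonneg hNp.le _) hp₂ hDp
      (by
        refine le_trans (measureReal_mono ?_) ((htail τ hτN).trans (rpow_half hN3' (by linarith)))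
        intro η hη
        rw [Set.mem_ofPred_eq] at hη ⊢
        linarith)
      (by
        calc (2 * (τ : ℝ) + 1) ^ d * (law d ρ).real {η | N * lm + u < X β h η N}
            ≤ (N : ℝ) ^ (2 * (d : ℝ)) * (N : ℝ) ^ (-(CU + CM + 2 * d + 4)) :=
              mul_le_mul h2τ hup (by positivity) (Real.rpow_nonneg hNp.le _)
          _ = (N : ℝ) ^ (-(CU + CM + 4)) := by
              rw [← Real.rpow_add hNp]
              congr 1
              ring
          _ ≤ (N : ℝ) ^ (0 : ℝ) / 8 := rpow_eighth hN3' (by linarith)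
          _ ≤ 1 / 4 := by rw [Real.rpow_zero]; norm_num) hp
    rcases last hN3' hτN (hQ'.trans h1) with h2 | h2
    · exact ⟨τ + N, by omega, by omega, h2.trans (ex_anti h r σ _ hrE')⟩
    · exact ⟨N, le_rfl, by omega, h2.trans (ex_anti h r σ _ hrE')⟩
  by_cases hcase : u ≤ B' * ℓ
  · -- no luck is needed
    have hΛ2 : Λ ≤ (B' + 1 + CU + CM) * ℓ := by
      rw [hΛ]
      nlinarith
    have hy1 : u + (1 + CM) * Λ + 4 ≤ Y * ℓ := by
      have h1 : (1 + CM) * Λ ≤ (1 + CM) * ((B' + 1 + CU + CM) * ℓ) :=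
        mul_le_mul_of_nonneg_left hΛ2 (by linarith)
      rw [hY]
      nlinarith
    refine hexit (u + (1 + CM) * Λ + 4) ((N : ℝ) ^ (-C0)) ?_ (Real.rpow_nonneg hNp.le _) ?_ ?_
    · have : 0 ≤ (1 + CM) * Λ := by
        apply mul_nonneg <;> linarith
      linarith
    · refine (L N hNN0 N le_rfl h hh).trans (measureReal_mono ?_)
      intro η hη
      rw [Set.mem_ofPred_eq] at hη ⊢
      have : N * lm + u + (τ * lm + Λ - (τ * lm - CM * Λ)) + 2 - (u + (1 + CM) * Λ + 4) =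
          N * lm - 2 := by ring
      rw [this]
      exact hη.le
    · have h1 : (N : ℝ) ^ (-Y) ≤ Real.exp (-(u + (1 + CM) * Λ + 4)) := by
        rw [Real.rpow_def_of_pos hNp]
        apply Real.exp_le_exp.2
        rw [← hℓ]
        linarith
      have h2 : (N : ℝ) ^ (-Q) ≤ (N : ℝ) ^ (-(Y + CM + C0)) / 8 :=
        rpow_eighth hN3' (by rw [hQ]; linarith)
      have h3 : (N : ℝ) ^ (-(Y + CM + C0)) = (N : ℝ) ^ (-Y) * (N : ℝ) ^ (-CM) * (N : ℝ) ^ (-C0) := by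
        rw [← Real.rpow_add hNp, ← Real.rpow_add hNp]
        congr 1
        ring
      refine h2.trans ?_
      rw [h3]
      refine div_le_div_of_nonneg_right ?_ (by norm_num)
      refine mul_le_mul_of_nonneg_right ?_ (Real.rpow_nonneg hNp.le _)
      exact mul_le_mul_of_nonneg_right h1 (Real.rpow_nonneg hNp.le _)
  · -- the luck
    rw [not_le] at hcase
    have hKDl : KD * ℓ ≤ u := by
      refine le_trans ?_ hcase.le
      exact mul_le_mul_of_nonneg_right (le_max_right _ _) (by linarith)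
    have hlk : (N : ℝ) ^ (-q') ≤ (law d ρ).real {η | N * lam ρ β h + u / 2 ≤ X β h η N} := by
      rcases hluck with h1 | h1
      · exfalso
        have : B * ℓ ≤ B' * ℓ := mul_le_mul_of_nonneg_right (le_max_left _ _) (by linarith)
        linarith
      · exact h1
    have hKD1 : 2 * CD * (1 + qA) * ℓ + (12 + CU + CM) * ℓ ≤ u := by
      refine le_trans (le_of_eq ?_) hKDl
      rw [hKD]
      ring
    have hCq : 0 ≤ CD * (1 + qA) * ℓ := by
      apply mul_nonneg (mul_nonneg _ _) <;> linarith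
    have hCq1 : CD * (1 + qA * ℓ) ≤ CD * (1 + qA) * ℓ := by
      have : 1 + qA * ℓ ≤ (1 + qA) * ℓ := by nlinarith
      calc CD * (1 + qA * ℓ) ≤ CD * ((1 + qA) * ℓ) := mul_le_mul_of_nonneg_left this (by linarith)
        _ = CD * (1 + qA) * ℓ := by ring
    have h12 : (12 + CU + CM) * ℓ = 12 * ℓ + (CU + CM) * ℓ := by ring
    have hu12 : 12 ≤ u := by linarith
    have huΛ : Λ ≤ 2 * u := by
      rw [hΛ]
      linarith
    have hqq : Real.log (1 / (N : ℝ) ^ (-qA)) = qA * ℓ := by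
      rw [one_div, Real.log_inv, Real.log_rpow hNp]
      ring
    have h1 := Am h N (N * lm + 1) (N * lm + u / 2 - 1) ((N : ℝ) ^ (-qA))
      (Real.rpow_pos_of_pos hNp _) (by
        have := rpow_half (a := -qA) (b := 0) hN3' (by linarith)
        rwa [Real.rpow_zero] at this) (by
        rw [hqq]
        linarith) (by
        obtain ⟨hM1, hM2⟩ := M N hNN1 h hh
        refine le_trans (rpow_le_c hN3' ?_) (hM1.trans (measureReal_mono ?_))
        · have : CE ≤ max q' CE := le_max_right _ _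
          rw [hqA]
          linarith
        · intro η hη
          rw [Set.mem_ofPred_eq] at hη ⊢
          linarith) (by
        refine le_trans (rpow_le_c hN3' ?_) (hlk.trans (measureReal_mono ?_))
        · have : q' ≤ max q' CE := le_max_left _ _
          rw [hqA]
          linarith
        · intro η hη
          rw [Set.mem_ofPred_eq] at hη ⊢
          linarith)
    refine hexit 0 (((N : ℝ) ^ (-qA)) ^ CD) le_rfl (Real.rpow_nonneg (Real.rpow_nonneg hNp.le _) _)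
      (h1.trans (measureReal_mono ?_)) ?_
    · intro η hη
      rw [Set.mem_ofPred_eq] at hη ⊢
      refine le_trans ?_ hη.le
      have h2 : N * lm + u + (τ * lm + Λ - (τ * lm - CM * Λ)) + 2 - 0 =
          N * lm + u + (1 + CM) * Λ + 2 := by ring
      have h3 : (1 + CM) * Λ ≤ (1 + CM) * (2 * u) := mul_le_mul_of_nonneg_left huΛ (by linarith)
      rw [h2]
      nlinarith
    · have h2 : ((N : ℝ) ^ (-qA)) ^ CD = (N : ℝ) ^ (-(qA * CD)) := by
        rw [← Real.rpow_mul hNp.le]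
        congr 1
        ring
      have h3 : (N : ℝ) ^ (-Q) ≤ (N : ℝ) ^ (-(CM + qA * CD)) / 8 :=
        rpow_eighth hN3' (by rw [hQ]; linarith)
      have h4 : (N : ℝ) ^ (-(CM + qA * CD)) = (N : ℝ) ^ (-CM) * (N : ℝ) ^ (-(qA * CD)) := by
        rw [← Real.rpow_add hNp]
        congr 1
        ring
      rw [h2, neg_zero, Real.exp_zero, one_mul, ← h4]
      exact h3

end Pool.Agent.W_7d29a1_PK
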