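import Pool.Agent.W_7d29a1_PK.Low33
import Pool.Agent.W_7d29a1_PK.Four81
import Pool.Agent.W_7d29a1_PK.Mov67
import Pool.Agent.W_7d29a1_PK.Exi63
import Pool.Agent.W_7d29a1_PK.Bon26
import Pool.Agent.W_7d29a1_PK.Stp2
import Pool.Agent.W_7d29a1_PK.Main2

/-!
The second half of the KPZ relation at every tilt and every velocity, for the exponents of all
moments; every law with all exponential moments, every dimension: the assembly (helper2).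
-/

namespace Pool.Agent.W_7d29a1_PK

open MeasureTheory ProbabilityTheory Filter Topology Pool.Agent.W_MP_7d29a1_pr
  Pool.Agent.W_7d29a1_h46 Pool.Agent.W_7d29a1_h46u

/-- AMP, every law. -/
theorem ampAll2 {d : ℕ} (hd : 0 < d) {ρ : Measure ℝ} [IsProbabilityMeasure ρ] (hρ : EM ρ)
    (hnc : ∀ c : ℝ, ρ {c} ≠ 1) {β : ℝ} (hβ : 0 < β) : AmpPK d ρ β :=
  W_7d29a1_AM.ampNAll5 hd hρ hnc hβ

/-- STP, every law. -/
theorem stpAll2 {d : ℕ} (hd : 0 < d) {ρ : Measure ℝ} [IsProbabilityMeasure ρ] (hρ : EM ρ)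
    (hnc : ∀ c : ℝ, ρ {c} ≠ 1) {β : ℝ} (hβ : 0 < β) : StpPK d ρ β :=
  stp2 (low33 hd hρ β) (mean81 hd hρ) (upl33 hd (low33 hd hρ β)) (movPK67 hd (low33 hd hρ β))
    (exi63 hd β) (ampAll2 hd hρ hnc hβ)

/-- **The theorem for slabs**, every law. -/
theorem mainLAll2 {d : ℕ} (hd : 0 < d) {ρ : Measure ℝ} [IsProbabilityMeasure ρ] (hρ : EM ρ)
    (hnc : ∀ c : ℝ, ρ {c} ≠ 1) {β : ℝ} (hβ : 0 < β) : MainL d ρ β :=
  mainL2 (stpAll2 hd hρ hnc hβ) (mom81 hd hρ (ampAll2 hd hρ hnc hβ) (low33 hd hρ β))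
    (tail81 hd hρ)

/-- **The theorem for tubes**, every law. -/
theorem mainTAll2 {d : ℕ} (hd : 0 < d) {ρ : Measure ℝ} [IsProbabilityMeasure ρ] (hρ : EM ρ)
    (hnc : ∀ c : ℝ, ρ {c} ≠ 1) {β : ℝ} (hβ : 0 < β) : MainT d ρ β :=
  mainT2 (stpAll2 hd hρ hnc hβ) (mom81 hd hρ (ampAll2 hd hρ hnc hβ) (low33 hd hρ β))
    (tail81 hd hρ)

/-- **The second theorem**, every law. -/
theorem bonAll2 {d : ℕ} (hd : 0 < d) {ρ : Measure ℝ} [IsProbabilityMeasure ρ] (hρ : EM ρ)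
    (hnc : ∀ c : ℝ, ρ {c} ≠ 1) {β : ℝ} (hβ : 0 < β) : BonT d ρ β :=
  bon26 hd hρ (stpAll2 hd hρ hnc hβ) (upl33 hd (low33 hd hρ β)) (tail81 hd hρ)
    (momV81 hd hρ (ampAll2 hd hρ hnc hβ) (low33 hd hρ β))

end Pool.Agent.W_7d29a1_PK
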