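import Pool.Agent.W_7d29a1_AM.AmpNU5

/-!
Amplification of the upper deviations of the weight of a set of walks, every law, every dimension
(helper77).
-/

set_option autoImplicit false

namespace Pool.Agent.W_7d29a1_PK

open MeasureTheory ProbabilityTheory Filter Topology Set Pool.Agent.W_MP_7d29a1_pr
  Pool.Agent.W_7d29a1_h46 Pool.Agent.W_7d29a1_h46u Pool.Agent.W_7d29a1_D2.B35
  Pool.Agent.W_7d29a1_Q29 Pool.Agent.W_7d29a1_R34 Pool.Agent.W_7d29a1_SP Pool.Agent.W_7d29a1_AM

/-- Amplification of the upper deviations of the weight of a set of walks. -/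
def AmpE (ρ : Measure ℝ) (β : ℝ) (d : ℕ) : Prop := ∀ t : ℝ, 1 ≤ t → ∃ C : ℝ, 1 ≤ C ∧
  ∀ (h : Vec d) (m : ℕ) (E : Set (Fin m → Step d)) (s₀ s₁ q : ℝ), 0 < q → q ≤ 1 / 2 →
    C * (1 + Real.log (1 / q)) ≤ s₁ - s₀ →
    q ≤ (law d ρ).real {η | ZT β h η E ≤ Real.exp s₀} →
    q ≤ (law d ρ).real {η | Real.exp s₁ < ZT β h η E} →
      q ^ C ≤ (law d ρ).real {η | Real.exp (s₁ + t * (s₁ - s₀)) < ZT β h η E}

open Classical in
/-- The weights of the walks of a set. -/
noncomputable def cE {d m : ℕ} (h : Vec d) (E : Set (Fin m → Step d)) (s : Fin m → Step d) : ℝ :=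
  if s ∈ E then U5.cw h m s else 0

lemma cE_nonneg {d m : ℕ} (h : Vec d) (E : Set (Fin m → Step d)) (s : Fin m → Step d) :
    0 ≤ cE h E s := by
  unfold cE
  split_ifs
  · exact (Real.exp_pos _).le
  · exact le_rfl

lemma ZE_pr {d m : ℕ} (β : ℝ) (h : Vec d) (E : Set (Fin m → Step d)) (η : Env d) :
    C5.Z β (cE h E) U5.At (U5.pr d m η) = ZT β h η E := by
  classical
  unfold C5.Z C5.T ZT wgt cE U5.cw
  refine Finset.sum_congr rfl fun s _ => ?_
  by_cases hs : s ∈ E
  · rw [if_pos hs, if_pos hs, U5.sum_At, Real.exp_add]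
  · rw [if_neg hs, if_neg hs, zero_mul]

lemma VE_pr {d m : ℕ} (β : ℝ) (h : Vec d) (E : Set (Fin m → Step d)) (s₀ : ℝ) (η : Env d) :
    C5.V β (cE h E) U5.At s₀ (U5.pr d m η) =
      Real.log (1 + ZT β h η E * Real.exp (-s₀)) := by
  unfold C5.V C5.Dn
  rw [ZE_pr]

/-- **Amplification of the upper deviations of the weight of a set of walks.** -/
theorem ampE {d : ℕ} {ρ : Measure ℝ} [IsProbabilityMeasure ρ] {β : ℝ}
    (hβ : 0 ≤ β) (hA : AmpCN ρ β) : AmpE ρ β d := by
  intro t ht
  obtain ⟨C, hC1, hC⟩ := hA (t + 3) (by linarith)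
  refine ⟨3 * C, by linarith, fun h m E s₀ s₁ q hq hq2 hs h0 h1 => ?_⟩
  set s := s₁ - s₀ with hs'
  have hlq : 0 ≤ Real.log (1 / q) := Real.log_nonneg (by rw [le_div_iff₀ hq]; linarith)
  have hs3 : 3 ≤ s := by nlinarith
  have hc : ∀ k, 0 ≤ cE h E k := cE_nonneg h E
  have mV := (cls5 hβ hc U5.At s₀).meas
  have hV := VE_pr (m := m) β h E s₀
  have hZ0 : ∀ η : Env d, 0 ≤ ZT β h η E := fun η => ZT_nonneg β h η _
  have hlaw : ∀ T : Set ℝ, MeasurableSet T →
      (PN ρ (U5.Nn d m)).real {y | C5.V β (cE h E) U5.At s₀ y ∈ T} =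
      (law d ρ).real {η | Real.log (1 + ZT β h η E * Real.exp (-s₀)) ∈ T} := fun T hT => by
    have mS : MeasurableSet {y | C5.V β (cE h E) U5.At s₀ y ∈ T} := mV hT
    rw [← U5.law_pr, map_measureReal_apply (U5.meas_pr m) mS]
    congr 1
    ext η
    show C5.V β (cE h E) U5.At s₀ (U5.pr d m η) ∈ T ↔
      Real.log (1 + ZT β h η E * Real.exp (-s₀)) ∈ T
    rw [hV]
  have e0 := hlaw (Iic (Real.log 2)) measurableSet_Iic
  have e1 := hlaw (Ici s) measurableSet_Ici
  have e2 := hlaw (Ici ((t + 3) * s)) measurableSet_Ici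
  simp only [mem_Iic, mem_Ici] at e0 e1 e2
  have hCs : C * (1 + Real.log (1 / q)) ≤ s := by nlinarith
  have key := hC (U5.Nn d m) (C5.V β (cE h E) U5.At s₀) (C5.P β (cE h E) U5.At s₀)
    (cls5 hβ hc U5.At s₀) q s hq hq2 hCs ?_ ?_
  · have h2 : q ^ C ≤ (law d ρ).real {η | Real.exp (s₁ + t * s) < ZT β h η E} := by
      refine key.trans ?_
      rw [e2]
      refine measureReal_mono fun η
        (hη : (t + 3) * s ≤ Real.log (1 + ZT β h η E * Real.exp (-s₀))) => ?_
      show Real.exp (s₁ + t * s) < ZT β h η E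
      have hz := hZ0 η
      have h3 : Real.exp ((t + 3) * s) ≤ 1 + ZT β h η E * Real.exp (-s₀) := by
        rw [← Real.le_log_iff_exp_le (by positivity)]
        exact hη
      have h4 : Real.exp (s₁ + t * s) = Real.exp ((t + 1) * s) * Real.exp s₀ := by
        rw [← Real.exp_add]
        congr 1
        rw [hs']
        ring
      have h5 : Real.exp ((t + 1) * s) + 1 < Real.exp ((t + 3) * s) := by
        have h6 : Real.exp ((t + 3) * s) = Real.exp ((t + 1) * s) * Real.exp (2 * s) := by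
          rw [← Real.exp_add]
          congr 1
          ring
        have h7 : (3 : ℝ) ≤ Real.exp (2 * s) := by
          have := Real.add_one_le_exp (2 * s)
          linarith
        have h8 : (1 : ℝ) ≤ Real.exp ((t + 1) * s) := Real.one_le_exp (by positivity)
        rw [h6]
        nlinarith
      have h9 : Real.exp ((t + 1) * s) < ZT β h η E * Real.exp (-s₀) := by linarith
      rw [h4]
      calc Real.exp ((t + 1) * s) * Real.exp s₀ <
          ZT β h η E * Real.exp (-s₀) * Real.exp s₀ :=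
            mul_lt_mul_of_pos_right h9 (Real.exp_pos _)
        _ = ZT β h η E := by
            rw [mul_assoc, ← Real.exp_add, neg_add_cancel, Real.exp_zero, mul_one]
    refine le_trans ?_ h2
    exact Real.rpow_le_rpow_of_exponent_ge hq (by linarith) (by linarith)
  · rw [e0]
    refine h0.trans ?_
    refine measureReal_mono fun η (hη : ZT β h η E ≤ Real.exp s₀) => ?_
    show Real.log (1 + ZT β h η E * Real.exp (-s₀)) ≤ Real.log 2
    have hz := hZ0 η
    apply Real.log_le_log (by positivity)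
    have : ZT β h η E * Real.exp (-s₀) ≤ Real.exp s₀ * Real.exp (-s₀) :=
      mul_le_mul_of_nonneg_right hη (Real.exp_pos _).le
    rw [← Real.exp_add, add_neg_cancel, Real.exp_zero] at this
    linarith
  · rw [e1]
    refine h1.trans ?_
    refine measureReal_mono fun η (hη : Real.exp s₁ < ZT β h η E) => ?_
    show s ≤ Real.log (1 + ZT β h η E * Real.exp (-s₀))
    have hz := hZ0 η
    rw [Real.le_log_iff_exp_le (by positivity)]
    have : Real.exp s₁ * Real.exp (-s₀) ≤ ZT β h η E * Real.exp (-s₀) :=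
      mul_le_mul_of_nonneg_right hη.le (Real.exp_pos _).le
    rw [← Real.exp_add] at this
    have e : s₁ + -s₀ = s := by rw [hs']; ring
    rw [e] at this
    linarith

/-- The amplification, every law. -/
theorem ampEAll {d : ℕ} {ρ : Measure ℝ} [IsProbabilityMeasure ρ] (hρ : EM ρ)
    (hnc : ∀ c : ℝ, ρ {c} ≠ 1) {β : ℝ} (hβ : 0 < β) : AmpE ρ β d :=
  ampE hβ.le (ampCNAll5 hρ hnc hβ)

end Pool.Agent.W_7d29a1_PK
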