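import Pool.Agent.W_7d29a1_PK.Core34
import Pool.Agent.W_7d29a1_PK.PB34
import Pool.Agent.W_7d29a1_PK.DefsLK5

/-!
THEOREM BL (helper34): at every tilt and every velocity, exits at all large scales that are large
against the fluctuations give a lower bound for the growth of the free energy at all small scales.
No hypothesis on the free energy.
-/

set_option autoImplicit false

namespace Pool.Agent.W_7d29a1_PK

open MeasureTheory ProbabilityTheory Filter Topology Pool.Agent.W_MP_7d29a1_pr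
  Pool.Agent.W_7d29a1_h46 Pool.Agent.W_7d29a1_h46u Pool.Agent.W_7d29a1_D2
  Pool.Agent.W_7d29a1_Q29 Pool.Agent.W_7d29a1_R34 Pool.Agent.W_7d29a1_V
  Pool.Agent.W_7d29a1_V.Li70 Pool.Agent.W_7d29a1_AM
  Pool.Agent.W_7d29a1_D2.TubK74 Pool.Agent.W_7d29a1_SP

namespace A34

variable {d : ℕ} {ρ : Measure ℝ} [IsProbabilityMeasure ρ] {β : ℝ}

lemma Far_one34 (β : ℝ) (h v : Vec d) (n i : ℕ) (j : Fin d) (η : Env d) (w : ℝ) :
    Far β h η n i j v 1 w = FarL β h (ej j) η n i (v j) 1 w := by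
  unfold Far FarL
  congr 2
  ext s
  simp only [Set.mem_ofPred_eq]
  have h2 := TubU_inner (0 : Vec d) 1 j (emb (pos s i))
  rw [zero_add, inner_zero_left, zero_add, one_smul, one_mul] at h2
  rw [h2]

lemma Far_neg34 (β : ℝ) (h v : Vec d) (n i : ℕ) (j : Fin d) (η : Env d) (w : ℝ) :
    Far β h η n i j v (-1) w = FarL β h (-(ej j)) η n i (-(v j)) 1 w := by
  rw [← farL_flip34]
  unfold Far FarL
  congr 2
  ext s
  simp only [Set.mem_ofPred_eq]
  have h2 := TubU_inner (0 : Vec d) 1 j (emb (pos s i))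
  rw [zero_add, inner_zero_left, zero_add, one_smul, one_mul] at h2
  rw [h2]

/-- The mass outside the tube from the far masses. -/
lemma tube_sum34 (hd : 0 < d) (β : ℝ) (h v : Vec d) {n : ℕ} {R e : ℝ}
    (H1 : ∀ j : Fin d, ∀ i ≤ n, ∫ η, FarL β h (ej j) η n i (v j) 1 (R / d) ∂(law d ρ) ≤ e)
    (H2 : ∀ j : Fin d, ∀ i ≤ n,
      ∫ η, FarL β h (-(ej j)) η n i (-(v j)) 1 (R / d) ∂(law d ρ) ≤ e) :
    ∫ η, (1 - PolT β h η (tube d n v R)) ∂(law d ρ) ≤ ((n : ℝ) + 1) * (d * (2 * e)) := by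
  have hI : ∀ (i : ℕ) (j : Fin d), Integrable (fun η : Env d =>
      FarL β h (ej j) η n i (v j) 1 (R / d) +
        FarL β h (-(ej j)) η n i (-(v j)) 1 (R / d)) (law d ρ) := fun i j =>
    (int_farL34 hd β h _ n i _ 1 _).add (int_farL34 hd β h _ n i _ 1 _)
  have h1 : ∫ η, (1 - PolT β h η (tube d n v R)) ∂(law d ρ) ≤
      ∫ η, ∑ i ∈ Finset.range (n + 1), ∑ j : Fin d,
        (FarL β h (ej j) η n i (v j) 1 (R / d) +
          FarL β h (-(ej j)) η n i (-(v j)) 1 (R / d)) ∂(law d ρ) := by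
    refine integral_mono_of_nonneg (Eventually.of_forall fun η => ?_)
      (integrable_finsetSum _ fun i _ => integrable_finsetSum _ fun j _ => hI i j)
      (Eventually.of_forall fun η => ?_)
    · have := PolT_le_one β h η (tube d n v R)
      show 0 ≤ 1 - PolT β h η (tube d n v R)
      linarith
    · refine (one_sub_le hd β h η n v (t := 1) one_pos).trans (le_of_eq ?_)
      refine Finset.sum_congr rfl fun i _ => Finset.sum_congr rfl fun j _ => ?_
      rw [Far_one34, Far_neg34]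
  rw [integral_finsetSum _ fun i _ => integrable_finsetSum _ fun j _ => hI i j] at h1
  have h2 : ∀ i ∈ Finset.range (n + 1), ∫ η, ∑ j : Fin d,
      (FarL β h (ej j) η n i (v j) 1 (R / d) +
        FarL β h (-(ej j)) η n i (-(v j)) 1 (R / d)) ∂(law d ρ) ≤ d * (2 * e) := by
    intro i hi
    have hi' : i ≤ n := Nat.lt_succ_iff.1 (Finset.mem_range.1 hi)
    rw [integral_finsetSum _ fun j _ => hI i j]
    have h3 : ∀ j ∈ (Finset.univ : Finset (Fin d)), ∫ η,
        (FarL β h (ej j) η n i (v j) 1 (R / d) +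
          FarL β h (-(ej j)) η n i (-(v j)) 1 (R / d)) ∂(law d ρ) ≤ 2 * e := by
      intro j _
      rw [integral_add (int_farL34 hd β h _ n i _ 1 _) (int_farL34 hd β h _ n i _ 1 _)]
      have a1 := H1 j i hi'
      have a2 := H2 j i hi'
      linarith
    refine (Finset.sum_le_sum h3).trans (le_of_eq ?_)
    rw [Finset.sum_const, Finset.card_univ, Fintype.card_fin, nsmul_eq_mul]
  refine h1.trans ((Finset.sum_le_sum h2).trans (le_of_eq ?_))
  rw [Finset.sum_const, Finset.card_range, nsmul_eq_mul]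
  push_cast
  ring

/-- The tube at one scale, from an upper bound of the free energy at one distance from the tilt. -/
theorem scale34 (hd : 0 < d) (hρ : EM ρ) (hβ : 0 ≤ β) (hN : AmpCN ρ β) {h v : Vec d} {p a x : ℝ}
    (hp : 0 < p) (hx : 0 < x) (hx1 : x < 1) (hF : FlF ρ β h x)
    (hpa : 1 + (p - 1) * x < p * a) (q : ℕ) :
    ∃ N₀ : ℕ, ∀ N : ℕ, N₀ ≤ N → ∀ t : ℝ, 0 < t → (N : ℝ) ^ (-((1 - x) / p)) ≤ t →
      N * t ^ p ≤ 2 * (N : ℝ) ^ x → (∀ r : Vec d, ‖r‖ = t → gap (lam ρ β) h v r ≤ t ^ p) →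
      ∀ n : ℕ, n ≤ N → ∫ η, (1 - PolT β h η (tube d n v ((N : ℝ) ^ a))) ∂(law d ρ) <
        (N : ℝ) ^ (-(q : ℝ)) := by
  classical
  -- the numbers
  have ha' : x + (1 - x) / p < a := by
    have h1 : p * (x + (1 - x) / p) < p * a := by
      rw [mul_add, mul_div_cancel₀ _ hp.ne']
      linarith
    exact lt_of_mul_lt_mul_left h1 hp.le
  obtain ⟨ε, hε, hε1, hε2⟩ : ∃ ε : ℝ, 0 < ε ∧ x + (1 - x) / p + 3 * ε ≤ a ∧ x + ε < 1 := by
    refine ⟨min ((a - (x + (1 - x) / p)) / 3) ((1 - x) / 2), lt_min (by linarith) (by linarith),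
      ?_, ?_⟩
    · have := min_le_left ((a - (x + (1 - x) / p)) / 3) ((1 - x) / 2)
      linarith
    · have := min_le_right ((a - (x + (1 - x) / p)) / 3) ((1 - x) / 2)
      linarith
  have hK : FlK ρ β (fun _ => ({h} : Set (Vec d))) x := by
    refine ⟨fun _ _ _ => le_rfl, fun q => ?_⟩
    obtain ⟨C, hC⟩ := hF q
    refine ⟨C, fun k hk n hn => ?_⟩
    rw [Set.mem_singleton_iff.1 hk]
    exact hC n hn
  have hh : ∀ Q : ℕ, h ∈ (fun _ : ℕ => ({h} : Set (Vec d))) Q := fun _ => rfl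
  have hT := tailK74 hd hρ hx.le hK
  obtain ⟨C₁, hC₁, H₁⟩ := rateK74 hd hρ hx.le hK hh ε hε hε2
  obtain ⟨C, hC1, hC⟩ := hN 3 (by norm_num)
  obtain ⟨q₂, hq₂⟩ := exists_nat_ge (((q : ℝ) + 5) * C + 1)
  obtain ⟨Q₂, C₂, hC₂, H₂⟩ := hT ε hε (q + 5 + d)
  obtain ⟨Q₄, C₄, hC₄, H₄⟩ := hT ε hε (q₂ + d)
  obtain ⟨K, hK0, HK⟩ := Pool.Agent.W_7d29a1_KZ.N20.va_lin (d := d) (ρ := ρ) hd hρ β
  have hd0 : (0 : ℝ) < d := by exact_mod_cast hd
  have hcast := tendsto_natCast_atTop_atTop (R := ℝ)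
  have hxε : 0 < x + ε := by linarith
  obtain ⟨D₂, hD₂⟩ : ∃ D₂ : ℝ, D₂ = C₂ * (1 + 3 ^ d) := ⟨_, rfl⟩
  obtain ⟨D₄, hD₄⟩ : ∃ D₄ : ℝ, D₄ = C₄ * (1 + 3 ^ d) := ⟨_, rfl⟩
  have hD₂0 : 0 ≤ D₂ := by rw [hD₂]; positivity
  have hD₄0 : 0 ≤ D₄ := by rw [hD₄]; positivity
  have g2 : ∀ᶠ n : ℕ in atTop, d * (2 * C₁ + 12) ≤ (n : ℝ) ^ (2 * ε) :=
    ((tendsto_rpow_atTop (by linarith : (0 : ℝ) < 2 * ε)).comp hcast).eventually
      (eventually_ge_atTop _)
  have g3 := ev_log34 hxε ((q : ℝ) + 2)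
  have g4 := ev_log34 hxε (C * ((q : ℝ) + 5))
  have g5 : ∀ᶠ n : ℕ in atTop, (D₂ + 1) * (2 + K + 1) + 16 * d ≤ (n : ℝ) :=
    hcast.eventually (eventually_ge_atTop _)
  have g6 : ∀ᶠ n : ℕ in atTop, D₄ < (n : ℝ) := hcast.eventually (eventually_gt_atTop _)
  obtain ⟨N₀, hN'⟩ := eventually_atTop.1 (g2.and (g3.and (g4.and (g5.and
    (g6.and (eventually_ge_atTop 2))))))
  refine ⟨N₀, fun N hNN t ht0 htN htp hgap n hnN => ?_⟩
  obtain ⟨k2, k3, k4, k5, k6, k7⟩ := hN' N hNN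
  have hN1 : 1 ≤ N := by omega
  have hN1' : (1 : ℝ) ≤ N := by exact_mod_cast hN1
  have hN2' : (2 : ℝ) ≤ N := by exact_mod_cast k7
  have hN0 : (0 : ℝ) < N := by linarith
  have hlog : 0 ≤ Real.log N := Real.log_nonneg hN1'
  obtain ⟨w, hw⟩ : ∃ w : ℝ, w = (N : ℝ) ^ (x + ε) := ⟨_, rfl⟩
  have hw1 : 1 ≤ w := by rw [hw]; exact Real.one_le_rpow hN1' hxε.le
  have hxw : (N : ℝ) ^ x ≤ w := by
    rw [hw]
    exact Real.rpow_le_rpow_of_exponent_le hN1' (by linarith)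
  have hTw : (2 * C₁ + 12) * w ≤ t * ((N : ℝ) ^ a / d) := by
    have h1 : (N : ℝ) ^ (2 * ε) * w ≤ t * (N : ℝ) ^ a := by
      have h2 : (N : ℝ) ^ (2 * ε) * w ≤ (N : ℝ) ^ (-((1 - x) / p)) * (N : ℝ) ^ a := by
        rw [hw, ← Real.rpow_add hN0, ← Real.rpow_add hN0]
        exact Real.rpow_le_rpow_of_exponent_le hN1' (by linarith)
      exact h2.trans (mul_le_mul_of_nonneg_right htN (Real.rpow_nonneg hN0.le _))
    have h3 : d * (2 * C₁ + 12) * w ≤ t * (N : ℝ) ^ a :=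
      (mul_le_mul_of_nonneg_right k2 (by linarith)).trans h1
    have h4 : t * ((N : ℝ) ^ a / d) = t * (N : ℝ) ^ a / d := by ring
    rw [h4, le_div_iff₀ hd0]
    linarith
  have hlq : ((q : ℝ) + 2) * Real.log N ≤ w := by
    rw [hw]
    have : (0 : ℝ) ≤ q := Nat.cast_nonneg q
    linarith
  -- the probabilities
  obtain ⟨r, hr⟩ : ∃ r : ℝ, r = (N : ℝ) ^ (-((q + 5 : ℕ) : ℝ)) := ⟨_, rfl⟩
  obtain ⟨b₀, hb₀⟩ : ∃ b₀ : ℝ, b₀ = (N : ℝ) ^ (-((q + 2 : ℕ) : ℝ)) := ⟨_, rfl⟩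
  have hr0 : 0 < r := by rw [hr]; exact Real.rpow_pos_of_pos hN0 _
  have hb₀0 : 0 < b₀ := by rw [hb₀]; exact Real.rpow_pos_of_pos hN0 _
  have hrb : b₀ = r * (N : ℝ) ^ (3 : ℕ) := by
    rw [hb₀, hr, ← Real.rpow_natCast, ← Real.rpow_add hN0]
    congr 1
    push_cast
    ring
  have hb1 : b₀ ≤ 1 := by
    rw [hb₀]
    exact Real.rpow_le_one_of_one_le_of_nonpos hN1' (by
      have : (0 : ℝ) ≤ ((q + 2 : ℕ) : ℝ) := Nat.cast_nonneg _
      linarith)
  have hn3 : (N : ℝ) ≤ (N : ℝ) ^ (3 : ℕ) := by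
    have := one_le_pow₀ (n := 2) hN1'
    calc (N : ℝ) = N * 1 := (mul_one _).symm
      _ ≤ N * (N : ℝ) ^ 2 := mul_le_mul_of_nonneg_left this hN0.le
      _ = _ := by ring
  have hr2 : r ≤ 1 / 2 := by
    have h1 : r * N ≤ 1 := by
      calc r * N ≤ r * (N : ℝ) ^ (3 : ℕ) := mul_le_mul_of_nonneg_left hn3 hr0.le
        _ = b₀ := hrb.symm
        _ ≤ 1 := hb1
    have h2 : r * 2 ≤ r * N := mul_le_mul_of_nonneg_left hN2' hr0.le
    linarith
  have hlr : Real.log (1 / r) = ((q : ℝ) + 5) * Real.log N := by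
    rw [hr, one_div, ← Real.rpow_neg hN0.le, neg_neg, Real.log_rpow hN0]
    push_cast
    ring
  have hlb : Real.log b₀ = -(((q : ℝ) + 2) * Real.log N) := by
    rw [hb₀, Real.log_rpow hN0]
    push_cast
    ring
  have hk5a : (D₂ + 1) * (2 + K + 1) ≤ (N : ℝ) := by linarith
  -- one far mass
  have key : ∀ (u : Vec d) (s : ℝ), lam ρ β (h + t • u) ≤ lam ρ β h + s * t + t ^ p →
      ∀ i ≤ n, ∫ η, FarL β h u η n i s 1 ((N : ℝ) ^ a / d) ∂(law d ρ) ≤ 2 * b₀ := by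
    intro u s hus i hi
    have hiN : (i : ℝ) ≤ N := by exact_mod_cast hi.trans hnN
    have hi0 : (0 : ℝ) ≤ i := Nat.cast_nonneg _
    have htp0 : 0 < t ^ p := Real.rpow_pos_of_pos ht0 _
    obtain ⟨G, hG⟩ : ∃ G : Set (Env d), G = {η | |X β h η n - A ρ β h n| ≤ w ∧
      ∀ y ∈ boxF d i, |X β h (sh i y η) (n - i) - A ρ β h (n - i)| ≤ w} := ⟨_, rfl⟩
    have hGb : ∀ (Q : ℕ) (C' : ℝ), 0 ≤ C' → (∀ m ≤ N, ∀ (t' : ℕ) (y : Site d), (law d ρ).real
        {η | w < |X β h (sh t' y η) m - A ρ β h m|} ≤ C' * (N : ℝ) ^ (-((Q + d : ℕ) : ℝ))) →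
        (law d ρ).real Gᶜ ≤ C' * (1 + 3 ^ d) * (N : ℝ) ^ (-(Q : ℝ)) := by
      intro Q C' hC' H
      obtain ⟨B', hB'⟩ : ∃ B' : ℝ, B' = C' * (N : ℝ) ^ (-((Q + d : ℕ) : ℝ)) := ⟨_, rfl⟩
      have hB'0 : 0 ≤ B' := by
        rw [hB']
        exact mul_nonneg hC' (Real.rpow_nonneg hN0.le _)
      have hsub : Gᶜ ⊆ {η | w < |X β h η n - A ρ β h n|} ∪
          ⋃ y ∈ boxF d i, {η | w < |X β h (sh i y η) (n - i) - A ρ β h (n - i)|} := by
        intro η hη
        by_contra hcon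
        rw [Set.mem_union, not_or, Set.mem_iUnion₂] at hcon
        apply hη
        rw [hG]
        refine ⟨not_lt.1 hcon.1, fun y hy => ?_⟩
        by_contra hc
        exact hcon.2 ⟨y, hy, not_le.1 hc⟩
      have h0 := H n hnN 0 0
      simp only [TubV_sh] at h0
      have h1 : (law d ρ).real (⋃ y ∈ boxF d i,
          {η | w < |X β h (sh i y η) (n - i) - A ρ β h (n - i)|}) ≤ (boxF d i).card * B' := by
        refine (measureReal_biUnion_finset_le _ _).trans ((Finset.sum_le_sum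
          (fun y _ => H (n - i) ((Nat.sub_le _ _).trans hnN) i y)).trans (le_of_eq ?_))
        rw [Finset.sum_const, nsmul_eq_mul, hB']
      have h2 : ((boxF d i).card : ℝ) ≤ 3 ^ d * (N : ℝ) ^ d := by
        rw [card_boxF]
        have h7 : (3 : ℝ) ^ d * (N : ℝ) ^ d = (3 * (N : ℝ)) ^ d := (mul_pow _ _ _).symm
        rw [h7]
        have h8 : (0 : ℝ) ≤ 2 * (i : ℝ) + 1 := by positivity
        have h9 : 2 * (i : ℝ) + 1 ≤ 3 * (N : ℝ) := by linarith
        have h10 := pow_le_pow_left₀ h8 h9 d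
        exact_mod_cast h10
      have h3 : (law d ρ).real Gᶜ ≤ B' + 3 ^ d * (N : ℝ) ^ d * B' := by
        refine (measureReal_mono hsub).trans ((measureReal_union_le _ _).trans (add_le_add ?_ ?_))
        · rw [hB']
          exact h0
        · exact h1.trans (mul_le_mul_of_nonneg_right h2 hB'0)
      have h4 : (1 : ℝ) ≤ (N : ℝ) ^ d := one_le_pow₀ hN1'
      have h5 : (N : ℝ) ^ d * B' = C' * (N : ℝ) ^ (-(Q : ℝ)) := by
        rw [hB', ← Real.rpow_natCast, mul_left_comm, ← Real.rpow_add hN0]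
        congr 2
        push_cast
        ring
      have h6 : B' ≤ (N : ℝ) ^ d * B' := le_mul_of_one_le_left hB'0 h4
      calc (law d ρ).real Gᶜ ≤ B' + 3 ^ d * (N : ℝ) ^ d * B' := h3
        _ ≤ (N : ℝ) ^ d * B' + 3 ^ d * ((N : ℝ) ^ d * B') := by linarith
        _ = C' * (1 + 3 ^ d) * (N : ℝ) ^ (-(Q : ℝ)) := by rw [h5]; ring
    have hbad : (law d ρ).real Gᶜ ≤ D₂ * r := by
      have h1 := hGb (q + 5) C₂ hC₂ (fun m hm t' y => by
        rw [hw]
        exact H₂ h rfl N m hN1 hm t' y)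
      rw [hD₂, hr]
      exact h1
    have hbad2 : (law d ρ).real Gᶜ ≤ D₄ * (N : ℝ) ^ (-(q₂ : ℝ)) := by
      have h1 := hGb q₂ C₄ hC₄ (fun m hm t' y => by
        rw [hw]
        exact H₄ h rfl N m hN1 hm t' y)
      rw [hD₄]
      exact h1
    have hV : Va ρ β (h + t • u) i ≤ (K + 1) * N := by
      have h1 := HK (h + t • u) i
      have h2 : K * (i : ℝ) ≤ K * N := mul_le_mul_of_nonneg_left hiN hK0
      linarith
    have hrate : n * lam ρ β h - A ρ β h n ≤ C₁ * w := by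
      rcases Nat.eq_zero_or_pos n with rfl | hn
      · rw [A_zero15]
        push_cast
        have : 0 ≤ C₁ * w := by positivity
        linarith
      · have h1 := H₁ n hn
        have h2 : (n : ℝ) ^ (x + ε) ≤ w := by
          rw [hw]
          exact Real.rpow_le_rpow (Nat.cast_nonneg n) (by exact_mod_cast hnN) hxε.le
        exact h1.trans (mul_le_mul_of_nonneg_left h2 hC₁)
    refine core34 hd hρ hβ hC1 hC (t := t) (B := 2 * (N : ℝ) ^ x) (w := w) (a₁ := (C₁ + 1) * w)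
      (r := r) (G := G) hi ht0 ?_ (by linarith) ?_ hr0 hr2 hb₀0 ?_ ?_ ?_ ?_ ?_
    · have h1 := mul_le_mul_of_nonneg_left hus hi0
      have h2 : (i : ℝ) * t ^ p ≤ N * t ^ p := mul_le_mul_of_nonneg_right hiN htp0.le
      have h3 : (i : ℝ) * (lam ρ β h + s * t + t ^ p) =
          i * (lam ρ β h + s * t) + i * t ^ p := by ring
      rw [h3] at h1
      linarith
    · intro η hη
      rw [hG] at hη
      obtain ⟨m1, m2⟩ := hη
      have h2 := abs_le.1 m1
      have h4 := A_le_lam hd hρ β h n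
      refine ⟨by linarith [h2.1], by linarith [h2.2], fun y hy => ?_⟩
      rw [TubV_exp hd]
      refine Real.exp_le_exp.2 ?_
      have h5 := (abs_le.1 (m2 y hy)).2
      have h6 := A_le_lam hd hρ β h (n - i)
      have h7 : ((n - i : ℕ) : ℝ) = n - i := by rw [Nat.cast_sub hi]
      rw [h7] at h6
      linarith
    · have h1 := low34 (ρ := ρ) hd hρ β (h + t • u) i hV (by positivity)
      refine le_trans ?_ h1
      have h3 : (D₂ + 1) * r ≤ 1 / (2 + (K + 1) * N) := by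
        rw [le_div_iff₀ (by positivity)]
        have h4 : 2 + (K + 1) * N ≤ (2 + K + 1) * N := by
          have : (2 : ℝ) * 1 ≤ 2 * N := by linarith
          linarith
        have h5 : (D₂ + 1) * r * (2 + (K + 1) * N) ≤ (D₂ + 1) * r * ((2 + K + 1) * N) :=
          mul_le_mul_of_nonneg_left h4 (by positivity)
        have h6 : (D₂ + 1) * r * ((2 + K + 1) * N) = r * N * ((D₂ + 1) * (2 + K + 1)) := by ring
        have h7 : r * N * ((D₂ + 1) * (2 + K + 1)) ≤ r * N * N :=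
          mul_le_mul_of_nonneg_left hk5a (by positivity)
        have h8 : r * N * N ≤ b₀ := by
          rw [hrb]
          have h9 : r * (N : ℝ) ^ (3 : ℕ) = r * N * N * N := by ring
          rw [h9]
          exact le_mul_of_one_le_right (by positivity) hN1'
        linarith
      linarith
    · have h5 : (D₂ + 1) * r ≤ b₀ := by
        rw [hrb, mul_comm]
        refine mul_le_mul_of_nonneg_left ?_ hr0.le
        refine le_trans ?_ hn3
        refine le_trans ?_ hk5a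
        exact le_mul_of_one_le_right (by positivity) (by linarith)
      linarith
    · refine lt_of_le_of_lt hbad2 ?_
      have h4 : r ^ C = (N : ℝ) ^ (-(((q : ℝ) + 5) * C)) := by
        rw [hr, ← Real.rpow_mul hN0.le]
        congr 1
        push_cast
        ring
      rw [h4]
      have h6 : (N : ℝ) ^ (-(q₂ : ℝ)) ≤ (N : ℝ) ^ (-(((q : ℝ) + 5) * C) - 1) :=
        Real.rpow_le_rpow_of_exponent_le hN1' (by linarith)
      have h7 : (N : ℝ) ^ (-(((q : ℝ) + 5) * C) - 1) = (N : ℝ) ^ (-(((q : ℝ) + 5) * C)) / N := by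
        rw [Real.rpow_sub hN0, Real.rpow_one]
      have h8 : 0 < (N : ℝ) ^ (-(((q : ℝ) + 5) * C)) := Real.rpow_pos_of_pos hN0 _
      calc D₄ * (N : ℝ) ^ (-(q₂ : ℝ)) ≤ D₄ * ((N : ℝ) ^ (-(((q : ℝ) + 5) * C)) / N) := by
            rw [← h7]
            exact mul_le_mul_of_nonneg_left h6 hD₄0
        _ < N * ((N : ℝ) ^ (-(((q : ℝ) + 5) * C)) / N) := mul_lt_mul_of_pos_right k6 (by positivity)
        _ = _ := by field_simp
    · rw [hlr, hlb]
      have h3 : C * (1 + ((q : ℝ) + 5) * Real.log N) ≤ C * ((q : ℝ) + 5) * (1 + Real.log N) := by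
        have h4 : (1 : ℝ) ≤ (q : ℝ) + 5 := by
          have : (0 : ℝ) ≤ q := Nat.cast_nonneg q
          linarith
        nlinarith
      rw [← hw] at k4
      have h5 : 0 ≤ C₁ * w := by positivity
      linarith
    · rw [hlb]
      have h5 : 0 ≤ C₁ * w := by positivity
      linarith
  -- the tube
  have hej : ∀ j : Fin d, ‖(ej j : Vec d)‖ = 1 := fun j => by
    unfold ej
    simp
  have hin : ∀ j : Fin d, inner ℝ v (ej j : Vec d) = v j := fun j => by
    have h2 := TubU_inner (0 : Vec d) 1 j v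
    rw [zero_add, inner_zero_left, zero_add, one_smul, one_mul] at h2
    rw [real_inner_comm, h2]
  have htube := tube_sum34 (ρ := ρ) hd β h v (n := n) (R := (N : ℝ) ^ a) (e := 2 * b₀)
    (fun j => key (ej j) (v j) (by
      have h1 := hgap (t • ej j) (by rw [norm_smul, hej, Real.norm_eq_abs, abs_of_pos ht0, mul_one])
      unfold gap at h1
      rw [real_inner_smul_right, hin] at h1
      linarith))
    (fun j => key (-(ej j)) (-(v j)) (by
      have h1 := hgap (t • (-(ej j))) (by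
        rw [norm_smul, norm_neg, hej, Real.norm_eq_abs, abs_of_pos ht0, mul_one])
      unfold gap at h1
      rw [real_inner_smul_right, inner_neg_right, hin] at h1
      linarith))
  refine lt_of_le_of_lt htube ?_
  have hnN' : (n : ℝ) ≤ N := by exact_mod_cast hnN
  have h1 : b₀ * (N : ℝ) ^ (2 : ℕ) = (N : ℝ) ^ (-(q : ℝ)) := by
    rw [hb₀, ← Real.rpow_natCast, ← Real.rpow_add hN0]
    congr 1
    push_cast
    ring
  rw [← h1]
  have h2 : ((n : ℝ) + 1) * (d * (2 * (2 * b₀))) ≤ (2 * N) * (d * (2 * (2 * b₀))) :=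
    mul_le_mul_of_nonneg_right (by linarith) (by positivity)
  have h3 : (8 : ℝ) * d < N := by
    have : 0 ≤ (D₂ + 1) * (2 + K + 1) := by positivity
    linarith
  have h4 : (2 * (N : ℝ)) * (d * (2 * (2 * b₀))) = b₀ * (N * (8 * d)) := by ring
  have h5 : b₀ * (N * (8 * d)) < b₀ * (N : ℝ) ^ (2 : ℕ) := by
    refine mul_lt_mul_of_pos_left ?_ hb₀0
    rw [sq]
    exact mul_lt_mul_of_pos_left h3 hN0
  linarith

/-- **THEOREM BL**: exits at all large scales, large against the fluctuations, give the lower bound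
of the order `p` for the growth of the free energy. -/
theorem bl34 (hd : 0 < d) (hρ : EM ρ) (hβ : 0 ≤ β) (hN : AmpCN ρ β) {h v : Vec d} {p a x : ℝ}
    (hp : 0 < p) (hx : 0 < x) (hx1 : x < 1) (hF : FlF ρ β h x) (hE : EtL ρ β h v a)
    (hpa : 1 + (p - 1) * x < p * a) : LoA (lam ρ β) h v p := by
  obtain ⟨q, hq⟩ := hE
  obtain ⟨N₁, H₁⟩ := eventually_atTop.1 hq
  obtain ⟨N₀, H₀⟩ := scale34 hd hρ hβ hN (v := v) hp hx hx1 hF hpa q
  obtain ⟨b, hb⟩ : ∃ b : ℝ, b = (1 - x) / p := ⟨_, rfl⟩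
  have hb0 : 0 < b := by rw [hb]; exact div_pos (by linarith) hp
  obtain ⟨N₂, hN₂⟩ : ∃ N₂ : ℕ, N₂ = max (max N₀ N₁) 1 := ⟨_, rfl⟩
  have hN₂1 : 1 ≤ N₂ := by rw [hN₂]; exact le_max_right _ _
  have hN₂1' : (1 : ℝ) ≤ N₂ := by exact_mod_cast hN₂1
  have hN₂0 : (0 : ℝ) < N₂ := by linarith
  refine ⟨1, one_pos, min 1 ((N₂ : ℝ) ^ (-b)), lt_min one_pos (Real.rpow_pos_of_pos hN₂0 _),
    fun s hs hsδ => ?_⟩
  by_contra hcon
  push Not at hcon
  have hs1 : s ≤ 1 := hsδ.trans (min_le_left _ _)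
  have hs2 : s ≤ (N₂ : ℝ) ^ (-b) := hsδ.trans (min_le_right _ _)
  obtain ⟨y, hy⟩ : ∃ y : ℝ, y = s ^ (-(1 / b)) := ⟨_, rfl⟩
  have hy1 : 1 ≤ y := by
    rw [hy]
    exact Real.one_le_rpow_of_pos_of_le_one_of_nonpos hs hs1 (by
      have := one_div_pos.2 hb0
      linarith)
  have hyN : (N₂ : ℝ) ≤ y := by
    rw [hy]
    have h1 := Real.rpow_le_rpow_of_nonpos hs hs2 (show -(1 / b) ≤ 0 by
      have := one_div_pos.2 hb0
      linarith)
    have h2 : ((N₂ : ℝ) ^ (-b)) ^ (-(1 / b)) = N₂ := by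
      rw [← Real.rpow_mul hN₂0.le]
      have : -b * -(1 / b) = 1 := by field_simp
      rw [this, Real.rpow_one]
    rw [h2] at h1
    exact h1
  have hys : y ^ (-b) = s := by
    rw [hy, ← Real.rpow_mul hs.le]
    have : -(1 / b) * -b = 1 := by field_simp
    rw [this, Real.rpow_one]
  obtain ⟨N, hNd⟩ : ∃ N : ℕ, N = ⌈y⌉₊ := ⟨_, rfl⟩
  have hN3 : y ≤ N := by rw [hNd]; exact Nat.le_ceil y
  have hN4 : (N : ℝ) ≤ 2 * y := by
    rw [hNd]
    have := (Nat.ceil_lt_add_one (by linarith : (0 : ℝ) ≤ y)).le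
    linarith
  have hN0 : (0 : ℝ) < N := by linarith
  have hNN : N₂ ≤ N := by
    have : (N₂ : ℝ) ≤ N := hyN.trans hN3
    exact_mod_cast this
  have hNN0 : N₀ ≤ N := by
    refine le_trans ?_ hNN
    rw [hN₂]
    exact (le_max_left _ _).trans (le_max_left _ _)
  have hNN1 : N₁ ≤ N := by
    refine le_trans ?_ hNN
    rw [hN₂]
    exact (le_max_right _ _).trans (le_max_left _ _)
  have e1 : (N : ℝ) ^ (-((1 - x) / p)) ≤ s := by
    rw [← hb, ← hys]
    exact Real.rpow_le_rpow_of_nonpos (by linarith) hN3 (by linarith)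
  have e2 : N * s ^ p ≤ 2 * (N : ℝ) ^ x := by
    have h1 : (N : ℝ) = (N : ℝ) ^ (1 - x) * (N : ℝ) ^ x := by
      rw [← Real.rpow_add hN0]
      have : 1 - x + x = 1 := by ring
      rw [this, Real.rpow_one]
    have h2 : (N : ℝ) ^ (1 - x) ≤ (2 * y) ^ (1 - x) :=
      Real.rpow_le_rpow hN0.le hN4 (by linarith)
    have h3 : (2 * y) ^ (1 - x) * s ^ p = 2 ^ (1 - x) := by
      rw [Real.mul_rpow (by norm_num) (by linarith), ← hys, ← Real.rpow_mul (by linarith), mul_assoc,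
        ← Real.rpow_add (by linarith)]
      have : 1 - x + -b * p = 0 := by
        rw [hb]
        field_simp
        ring
      rw [this, Real.rpow_zero, mul_one]
    have h4 : (2 : ℝ) ^ (1 - x) ≤ 2 := by
      calc (2 : ℝ) ^ (1 - x) ≤ 2 ^ (1 : ℝ) :=
            Real.rpow_le_rpow_of_exponent_le (by norm_num) (by linarith)
        _ = 2 := Real.rpow_one 2
    have hNx : 0 ≤ (N : ℝ) ^ x := Real.rpow_nonneg hN0.le _
    have hsp : 0 ≤ s ^ p := Real.rpow_nonneg hs.le _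
    calc N * s ^ p = ((N : ℝ) ^ (1 - x) * s ^ p) * (N : ℝ) ^ x := by
          nth_rewrite 1 [h1]
          ring
      _ ≤ ((2 * y) ^ (1 - x) * s ^ p) * (N : ℝ) ^ x :=
          mul_le_mul_of_nonneg_right (mul_le_mul_of_nonneg_right h2 hsp) hNx
      _ = 2 ^ (1 - x) * (N : ℝ) ^ x := by rw [h3]
      _ ≤ 2 * (N : ℝ) ^ x := mul_le_mul_of_nonneg_right h4 hNx
  have e3 : ∀ r : Vec d, ‖r‖ = s → gap (lam ρ β) h v r ≤ s ^ p := by
    intro r hr
    have := hcon r hr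
    linarith
  obtain ⟨n, hn, hn2⟩ := H₁ N hNN1
  have := H₀ N hNN0 s hs e1 e2 e3 n hn
  linarith

end A34

end Pool.Agent.W_7d29a1_PK
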