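import Pool.Agent.W_7d29a1_PK.BL34
import Pool.Agent.W_7d29a1_PK.Let63

/-!
THEOREM BL (helper34), the letter: `1 + (p - 1) χ* < p ν_` implies the lower bound of the order `p`
for the growth of the free energy, at every tilt and every velocity.
-/

set_option autoImplicit false

namespace Pool.Agent.W_7d29a1_PK

open MeasureTheory ProbabilityTheory Filter Topology Pool.Agent.W_MP_7d29a1_pr
  Pool.Agent.W_7d29a1_h46 Pool.Agent.W_7d29a1_h46u Pool.Agent.W_7d29a1_D2

variable {d : ℕ} {Ω : Type*} [MeasurableSpace Ω] {μ : Measure Ω} [IsProbabilityMeasure μ]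
  {ρ : Measure ℝ} [IsProbabilityMeasure ρ] {ω : ℕ × Site d → Ω → ℝ} {β : ℝ}

/-- **THEOREM BL**, every law: at every tilt `h` and every `v`, the order of the growth of the free
energy is at most `(1 - χ*) / (ν_ - χ*)`. -/
theorem blLet34 (hd : 0 < d) (hω : IID μ ρ ω) (hρ : EM ρ) (hnc : ∀ c : ℝ, ρ {c} ≠ 1)
    (hβ : 0 < β) : ∀ (h v : Vec d) (p : ℝ), 1 ≤ p →
      1 + (p - 1) * chiF μ β ω h < p * nuLo μ β ω h v → LoA (lam ρ β) h v p := by
  intro h v p hp hlt
  have hN := Pool.Agent.W_7d29a1_AM.ampCNAll5 hρ hnc hβ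
  have hp0 : 0 < p := by linarith
  have hc0 : 0 ≤ chiF μ β ω h := chiF_nonneg h
  have hhalf := chiF_le_half (β := β) hd hω hρ h
  obtain ⟨e, he, he1, he2⟩ : ∃ e : ℝ, 0 < e ∧
      1 + (p - 1) * (chiF μ β ω h + e) < p * (nuLo μ β ω h v - e) ∧ e ≤ 1 / 4 := by
    have hg : 0 < p * nuLo μ β ω h v - (1 + (p - 1) * chiF μ β ω h) := by linarith
    refine ⟨min ((p * nuLo μ β ω h v - (1 + (p - 1) * chiF μ β ω h)) / (4 * p)) (1 / 4),
      lt_min (by positivity) (by norm_num), ?_, min_le_right _ _⟩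
    have h1 := min_le_left ((p * nuLo μ β ω h v - (1 + (p - 1) * chiF μ β ω h)) / (4 * p))
      (1 / 4 : ℝ)
    obtain ⟨e, hee⟩ : ∃ e : ℝ,
      e = min ((p * nuLo μ β ω h v - (1 + (p - 1) * chiF μ β ω h)) / (4 * p)) (1 / 4) := ⟨_, rfl⟩
    rw [← hee] at h1 ⊢
    have he0 : 0 < e := by
      rw [hee]
      exact lt_min (by positivity) (by norm_num)
    rw [le_div_iff₀ (by positivity)] at h1
    have h2 : (p - 1) * (chiF μ β ω h + e) = (p - 1) * chiF μ β ω h + p * e - e := by ring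
    have h3 : p * (nuLo μ β ω h v - e) = p * nuLo μ β ω h v - p * e := by ring
    rw [h2, h3]
    have h4 : e * (4 * p) = 4 * (p * e) := by ring
    rw [h4] at h1
    have h5 : 0 < p * e := by positivity
    linarith
  obtain ⟨x, hx, hxlt⟩ := exists_lt_of_csInf_lt ⟨1 / 2, half_mem_chiSetF hd hω hρ h⟩
    (show sInf (chiSetF μ β ω h) < chiF μ β ω h + e by
      change chiF μ β ω h < chiF μ β ω h + e
      linarith)
  obtain ⟨hx0, hF⟩ := (mem_chiSetF hd hω hρ h x).1 hx
  have hν : 0 < nuLo μ β ω h v := by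
    have h1 : 0 ≤ (p - 1) * chiF μ β ω h := mul_nonneg (by linarith) hc0
    have h2 : 0 < p * nuLo μ β ω h v := by linarith
    exact (mul_pos_iff_of_pos_left hp0).1 h2
  have hne : (nuSetLo μ β ω h v).Nonempty := by
    by_contra hcon
    rw [Set.not_nonempty_iff_eq_empty] at hcon
    unfold nuLo at hν
    rw [hcon, Real.sSup_empty] at hν
    exact lt_irrefl _ hν
  obtain ⟨a, ha, hal⟩ := exists_lt_of_lt_csSup hne
    (show nuLo μ β ω h v - e < sSup (nuSetLo μ β ω h v) by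
      change nuLo μ β ω h v - e < nuLo μ β ω h v
      linarith)
  obtain ⟨ha0, hE⟩ := (L63.mem_nuSetLo63 hω h v a).1 ha
  refine A34.bl34 hd hρ hβ.le hN hp0 hx0 (by linarith) hF hE ?_
  have h1 : (p - 1) * x ≤ (p - 1) * (chiF μ β ω h + e) :=
    mul_le_mul_of_nonneg_left hxlt.le (by linarith)
  have h2 : p * (nuLo μ β ω h v - e) < p * a := mul_lt_mul_of_pos_left hal hp0
  linarith

end Pool.Agent.W_7d29a1_PK
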