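import Pool.Agent.W_7d29a1_PK.BL77
import Pool.Agent.W_7d29a1_PK.BonLo63

/-!
THEOREM BL in the letters of the problem, every law (helper77).
-/

set_option autoImplicit false

namespace Pool.Agent.W_7d29a1_PK

open MeasureTheory ProbabilityTheory Filter Topology Set Pool.Agent.W_MP_7d29a1_pr
  Pool.Agent.W_7d29a1_h46 Pool.Agent.W_7d29a1_h46u Pool.Agent.W_7d29a1_D2

variable {d : ℕ} {Ω : Type*} [MeasurableSpace Ω] {μ : Measure Ω} [IsProbabilityMeasure μ]
  {ρ : Measure ℝ} [IsProbabilityMeasure ρ] {ω : ℕ × Site d → Ω → ℝ} {β : ℝ}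

/-- **THEOREM BL**, every law, every tilt `h` and velocity `v`, no hypothesis about the free
energy: if it is not at least of order `t ^ p`, then `p nuLo ≤ 1 + (p - 1) chiF`. -/
theorem blAll77 (hd : 0 < d) (hω : IID μ ρ ω) (hρ : EM ρ) (hnc : ∀ c : ℝ, ρ {c} ≠ 1)
    (hβ : 0 < β) {h v : Vec d} {p : ℝ} (hp : 1 < p) (hn : ¬ LoA (lam ρ β) h v p) :
    p * nuLo μ β ω h v ≤ 1 + (p - 1) * chiF μ β ω h :=
  L63.blLo63 hd hω hρ hp
    (fun a x hx hx1 hF hE hax => blM77 hd hρ hnc hβ h v p a x hp hx hx1 hF hE hax) hn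

end Pool.Agent.W_7d29a1_PK
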