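import Pool.Agent.W_7d29a1_PK.DefsPK2

/-!
THEOREM PK, last leaves: MAINL, MAINT and BONT from STP (helper81).
-/

set_option autoImplicit false

namespace Pool.Agent.W_7d29a1_PK

open MeasureTheory ProbabilityTheory Filter Topology Pool.Agent.W_MP_7d29a1_pr
  Pool.Agent.W_7d29a1_h46 Pool.Agent.W_7d29a1_h46u Pool.Agent.W_7d29a1_D2
  Pool.Agent.W_7d29a1_D2.B35 Pool.Agent.W_7d29a1_Q29 Pool.Agent.W_7d29a1_R34
  Pool.Agent.W_7d29a1_SP Pool.Agent.W_7d29a1_V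

namespace B81

variable {d : ℕ} {ρ : Measure ℝ} [IsProbabilityMeasure ρ] {β : ℝ}

/-- The Lipschitz bound of the free energy. -/
lemma lip81 (hd : 0 < d) (hρ : EM ρ) (β : ℝ) (h r : Vec d) :
    lam ρ β (h + r) ≤ lam ρ β h + ‖r‖ := by
  have h1 : ∀ n : ℕ, A ρ β (h + r) n ≤ A ρ β h n + ‖r‖ * n := by
    intro n
    unfold A
    have e1 := (concU hd hρ β (h + r) n).1
    have e2 := (concU hd hρ β h n).1
    have e3 : ∫ η, X β (h + r) η n ∂(law d ρ) ≤ ∫ η, (X β h η n + ‖r‖ * n) ∂(law d ρ) :=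
      integral_mono e1 (e2.add (integrable_const _)) fun η => X_tilt hd β h r η n
    rw [integral_add e2 (integrable_const _), integral_const] at e3
    simpa using e3
  refine LamU_le ρ β (h + r) fun n => ?_
  have h2 := A_le_lam hd hρ β h (n + 1)
  have h3 := h1 (n + 1)
  push_cast at h2 h3
  nlinarith

lemma gap81 (hd : 0 < d) (hρ : EM ρ) (β : ℝ) (h v r : Vec d) :
    gap (lam ρ β) h v r ≤ (1 + ‖v‖) * ‖r‖ := by
  unfold gap
  have h1 := lip81 hd hρ β h r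
  have h2 : -(‖v‖ * ‖r‖) ≤ inner ℝ v r := by
    have h3 := abs_real_inner_le_norm v r
    have h4 := neg_abs_le (inner ℝ v r : ℝ)
    linarith
  nlinarith

lemma integ81 (h : Vec d) {n : ℕ} (E : Set (Fin n → Step d)) :
    Integrable (fun η : Env d => 1 - PolT β h η E) (law d ρ) := by
  refine Integrable.of_bound (measurable_const.sub
    (measurable_PolT β h E)).aestronglyMeasurable 1 (Filter.Eventually.of_forall fun η => ?_)
  rw [Real.norm_eq_abs, abs_le]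
  have h1 := PolT_nonneg β h η E
  have h2 := PolT_le_one β h η E
  constructor <;> linarith

/-- The slab contains the tube. -/
lemma exT81 (h v r : Vec d) (n : ℕ) {R W : ℝ} (hW : ‖r‖ * R ≤ W) :
    Ex ρ β h r (inner ℝ v r) n W ≤ ∫ η, (1 - PolT β h η (tube d n v R)) ∂(law d ρ) := by
  unfold Ex
  refine integral_mono (integ81 h _) (integ81 h _) fun η => ?_
  have h1 : PolT β h η (tube d n v R) ≤
      PolT β h η (slb d n r (inner ℝ v r) W) := by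
    refine PolT_mono β h η ?_
    intro q hq i hin
    have h2 := hq i hin
    have h3 : inner ℝ r (emb (pos q i)) - (i : ℝ) * inner ℝ v r =
        inner ℝ r (emb (pos q i) - (i : ℝ) • v) := by
      rw [inner_sub_right, inner_smul_right, real_inner_comm v r]
    rw [h3]
    calc |inner ℝ r (emb (pos q i) - (i : ℝ) • v)| ≤ ‖r‖ * ‖emb (pos q i) - (i : ℝ) • v‖ :=
          abs_real_inner_le_norm _ _
      _ ≤ ‖r‖ * R := mul_le_mul_of_nonneg_left h2 (norm_nonneg _)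
      _ ≤ W := hW
  show 1 - PolT β h η (slb d n r (inner ℝ v r) W) ≤ 1 - PolT β h η (tube d n v R)
  linarith

/-- The slabs of `t w` and of `w`. -/
lemma exS81 (h w : Vec d) (s : ℝ) (n : ℕ) {t R W : ℝ} (ht : 0 < t) (hW : t * R ≤ W) :
    Ex ρ β h (t • w) (t * s) n W ≤ Ex ρ β h w s n R := by
  unfold Ex
  refine integral_mono (integ81 h _) (integ81 h _) fun η => ?_
  have h1 : PolT β h η (slb d n w s R) ≤ PolT β h η (slb d n (t • w) (t * s) W) := by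
    refine PolT_mono β h η ?_
    intro q hq i hin
    have h2 := hq i hin
    have h3 : inner ℝ (t • w) (emb (pos q i)) - (i : ℝ) * (t * s) =
        t * (inner ℝ w (emb (pos q i)) - (i : ℝ) * s) := by
      rw [real_inner_smul_left]
      ring
    rw [h3, abs_mul, abs_of_pos ht]
    exact (mul_le_mul_of_nonneg_left h2 ht.le).trans hW
  show 1 - PolT β h η (slb d n (t • w) (t * s) W) ≤ 1 - PolT β h η (slb d n w s R)
  linarith

/-- Large lengths: logarithms. -/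
lemma evl81 (T : ℝ) : ∀ᶠ N : ℕ in atTop, 3 ≤ N ∧ T ≤ Real.log N := by
  have h1 : Tendsto (fun N : ℕ => Real.log (N : ℝ)) atTop atTop :=
    Real.tendsto_log_atTop.comp tendsto_natCast_atTop_atTop
  filter_upwards [eventually_ge_atTop 3, h1.eventually_ge_atTop T] with N h2 h3
  exact ⟨h2, h3⟩

lemma evp81 {e : ℝ} (he : 0 < e) (T : ℝ) : ∀ᶠ N : ℕ in atTop, T ≤ (N : ℝ) ^ e :=
  ((tendsto_rpow_atTop he).comp tendsto_natCast_atTop_atTop).eventually_ge_atTop T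

/-- `T log N ≤ N ^ e`. -/
lemma evlp81 {e : ℝ} (he : 0 < e) {T : ℝ} (hT : 0 < T) :
    ∀ᶠ N : ℕ in atTop, T * Real.log N ≤ (N : ℝ) ^ e := by
  have h3 := (isLittleO_log_rpow_atTop he).bound (show 0 < 1 / T by positivity)
  filter_upwards [tendsto_natCast_atTop_atTop.eventually h3, eventually_ge_atTop 1] with N h4 hN
  have hN1 : (1 : ℝ) ≤ N := by exact_mod_cast hN
  rw [Real.norm_eq_abs, Real.norm_eq_abs, abs_of_nonneg (Real.log_nonneg hN1),
    abs_of_nonneg (by positivity)] at h4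
  calc T * Real.log N ≤ T * (1 / T * (N : ℝ) ^ e) := mul_le_mul_of_nonneg_left h4 hT.le
    _ = (N : ℝ) ^ e := by field_simp

/-- The quantiles (of all lengths up to `N`). -/
lemma quan81 (hU : UplPK d ρ β) (hT : TailPK d ρ β) (h : Vec d) {Q : ℝ} (hQ : 0 ≤ Q) :
    ∃ (q' B : ℝ), 0 < q' ∧ 0 ≤ B ∧ ∃ k : ℕ → ℝ, ∀ᶠ N : ℕ in atTop, 0 ≤ k N ∧ k N ≤ k (N + 1) ∧
      k N ≤ 3 * (N : ℝ) ^ (3 / 4 : ℝ) ∧
      (law d ρ).real {η | N * lam ρ β h + k N < X β h η N} ≤ (N : ℝ) ^ (-Q) ∧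
      (k N ≤ B * Real.log N ∨
        (N : ℝ) ^ (-q') ≤ (law d ρ).real {η | N * lam ρ β h + k N / 2 ≤ X β h η N}) := by
  classical
  obtain ⟨CU, hCU, NU, U⟩ := hU ‖h‖
  obtain ⟨NT, T⟩ := hT h (Q + CU) (1 / 4) (by norm_num)
  obtain ⟨P, hP⟩ : ∃ P : ℕ → ℕ → Prop, P = fun (N k : ℕ) => ∀ l : ℕ, l ≤ N →
    (law d ρ).real {η | l * lam ρ β h + (k : ℝ) < X β h η l} ≤ (N : ℝ) ^ (-Q) := ⟨_, rfl⟩
  have hex : ∀ N : ℕ, NU ≤ N → NT ≤ N → 3 ≤ N →
      P N ⌈(N : ℝ) ^ (3 / 4 : ℝ) + CU * Real.log N⌉₊ := by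
    intro N h1 h2 h3
    have hN3 : (3 : ℝ) ≤ N := by exact_mod_cast h3
    have hNp : (0 : ℝ) < N := by linarith
    rw [hP]
    intro l hl
    have h4 := U N h1 h le_rfl l hl ((N : ℝ) ^ (3 / 4 : ℝ))
    have h5 := T N h2
    rw [show (1 / 2 + 1 / 4 : ℝ) = 3 / 4 by norm_num] at h5
    calc (law d ρ).real {η | l * lam ρ β h +
          (⌈(N : ℝ) ^ (3 / 4 : ℝ) + CU * Real.log N⌉₊ : ℕ) < X β h η l}
        ≤ (law d ρ).real {η | l * lam ρ β h + (N : ℝ) ^ (3 / 4 : ℝ) + CU * Real.log N ≤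
            X β h η l} := by
          refine measureReal_mono fun η hη => ?_
          have h6 : l * lam ρ β h + (⌈(N : ℝ) ^ (3 / 4 : ℝ) + CU * Real.log N⌉₊ : ℕ) <
            X β h η l := hη
          have h7 := Nat.le_ceil ((N : ℝ) ^ (3 / 4 : ℝ) + CU * Real.log N)
          show l * lam ρ β h + (N : ℝ) ^ (3 / 4 : ℝ) + CU * Real.log N ≤ X β h η l
          linarith
      _ ≤ (N : ℝ) ^ CU * (N : ℝ) ^ (-(Q + CU)) :=
          h4.trans (mul_le_mul_of_nonneg_left h5 (Real.rpow_nonneg hNp.le _))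
      _ = (N : ℝ) ^ (-Q) := by
          rw [← Real.rpow_add hNp]
          congr 1
          ring
  obtain ⟨k, hk⟩ : ∃ k : ℕ → ℕ, ∀ N : ℕ, (∃ j, P N j) →
      P N (k N) ∧ (∀ j, P N j → k N ≤ j) := by
    refine ⟨fun N => if hN : ∃ j, P N j then Nat.find hN else 0, fun N hN => ?_⟩
    simp only [hN, dif_pos]
    exact ⟨Nat.find_spec hN, fun j hj => Nat.find_min' hN hj⟩
  refine ⟨max 1 (Q + CU), 2 + 2 * CU, by positivity, by linarith, fun N => (k N : ℝ), ?_⟩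
  filter_upwards [eventually_ge_atTop NU, eventually_ge_atTop NT, evl81 1,
    evp81 (show (0 : ℝ) < 3 / 4 by norm_num) 1,
    evlp81 (show (0 : ℝ) < 3 / 4 by norm_num) (show 0 < CU by linarith)] with N h1 h2 h3' h4 h5
  obtain ⟨h3, hlog⟩ := h3'
  have hN3 : (3 : ℝ) ≤ N := by exact_mod_cast h3
  have hNp : (0 : ℝ) < N := by linarith
  have e0 := hex N h1 h2 h3
  obtain ⟨hk1, hk2⟩ := hk N ⟨_, e0⟩
  obtain ⟨hk3, -⟩ := hk (N + 1) ⟨_, hex (N + 1) (by omega) (by omega) (by omega)⟩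
  refine ⟨Nat.cast_nonneg _, ?_, ?_, ?_, ?_⟩
  · refine Nat.cast_le.2 (hk2 _ ?_)
    rw [hP] at hk3 ⊢
    intro l hl
    refine (hk3 l (by omega)).trans ?_
    rw [Real.rpow_neg (by positivity), Real.rpow_neg hNp.le]
    refine inv_anti₀ (Real.rpow_pos_of_pos hNp _) (Real.rpow_le_rpow hNp.le ?_ hQ)
    push_cast
    linarith
  · have h6 : (k N : ℝ) ≤ ⌈(N : ℝ) ^ (3 / 4 : ℝ) + CU * Real.log N⌉₊ := Nat.cast_le.2 (hk2 _ e0)
    have h7 : ((⌈(N : ℝ) ^ (3 / 4 : ℝ) + CU * Real.log N⌉₊ : ℕ) : ℝ) <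
        (N : ℝ) ^ (3 / 4 : ℝ) + CU * Real.log N + 1 := by
      refine Nat.ceil_lt_add_one ?_
      have : 0 ≤ CU * Real.log N := by
        apply mul_nonneg <;> linarith
      positivity
    linarith
  · rw [hP] at hk1
    exact hk1 N le_rfl
  · by_cases hc : (k N : ℝ) ≤ (2 + 2 * CU) * Real.log N
    · exact Or.inl hc
    right
    rw [not_le] at hc
    have hk0 : 1 ≤ k N := by
      by_contra hcon
      have h8 : k N = 0 := by omega
      rw [h8] at hc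
      have : 0 ≤ (2 + 2 * CU) * Real.log N := by
        apply mul_nonneg <;> linarith
      simp at hc
      linarith
    have h9 : ¬ P N (k N - 1) := fun hcon => by
      have := hk2 _ hcon
      omega
    rw [hP] at h9
    push Not at h9
    obtain ⟨l, hl, h10⟩ := h9
    have h11 := U N h1 h le_rfl l hl ((k N : ℝ) - 1 - CU * Real.log N)
    have h12 : (N : ℝ) ^ (-Q) ≤ (law d ρ).real {η | l * lam ρ β h +
        ((k N : ℝ) - 1 - CU * Real.log N) + CU * Real.log N ≤ X β h η l} := by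
      refine h10.le.trans (measureReal_mono fun η hη => ?_)
      have h13 : l * lam ρ β h + ((k N - 1 : ℕ) : ℝ) < X β h η l := hη
      rw [Nat.cast_sub hk0, Nat.cast_one] at h13
      show l * lam ρ β h + ((k N : ℝ) - 1 - CU * Real.log N) + CU * Real.log N ≤ X β h η l
      linarith
    have h14 : (N : ℝ) ^ (-(Q + CU)) ≤ (law d ρ).real {η | N * lam ρ β h +
        ((k N : ℝ) - 1 - CU * Real.log N) ≤ X β h η N} := by
      have h15 := h12.trans h11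
      have h16 : (N : ℝ) ^ (-Q) = (N : ℝ) ^ CU * (N : ℝ) ^ (-(Q + CU)) := by
        rw [← Real.rpow_add hNp]
        congr 1
        ring
      rw [h16] at h15
      exact le_of_mul_le_mul_left h15 (Real.rpow_pos_of_pos hNp _)
    refine (Real.rpow_le_rpow_of_exponent_le (by linarith)
      (neg_le_neg (le_max_right 1 (Q + CU)))).trans (h14.trans (measureReal_mono fun η hη => ?_))
    have h17 : N * lam ρ β h + ((k N : ℝ) - 1 - CU * Real.log N) ≤ X β h η N := hη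
    show N * lam ρ β h + (k N : ℝ) / 2 ≤ X β h η N
    linarith

/-- STP at the quantiles. -/
lemma use81 (hS : StpPK d ρ β) (hU : UplPK d ρ β) (hT : TailPK d ρ β) (h : Vec d) {K : ℝ}
    (hK : ‖h‖ ≤ K) {Q : ℝ} (hQ : 0 ≤ Q) : ∃ c C q₀ : ℝ, ∃ k : ℕ → ℝ, 0 < c ∧ 1 ≤ C ∧ 0 < q₀ ∧
      ∀ᶠ N : ℕ in atTop, 0 ≤ k N ∧ k N ≤ k (N + 1) ∧ k N ≤ 3 * (N : ℝ) ^ (3 / 4 : ℝ) ∧
      (law d ρ).real {η | N * lam ρ β h + k N < X β h η N} ≤ (N : ℝ) ^ (-Q) ∧
      ∀ (r : Vec d) (σ : ℝ), ‖r‖ ≤ 1 → |σ| ≤ K →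
        C * (k N + Real.log N) ≤ N * (lam ρ β (h + r) - lam ρ β h - σ) →
        ∃ n : ℕ, N ≤ n ∧ n ≤ 2 * N ∧
          (N : ℝ) ^ (-q₀) ≤ Ex ρ β h r σ n (c * (k N + Real.log N)) := by
  obtain ⟨q, c, C, hq, hc, hC, S⟩ := hS K
  obtain ⟨q', B, hq', hB, k, hk⟩ := quan81 hU hT h (Q := max Q q) (le_max_of_le_left hQ)
  obtain ⟨q₀, hq₀, N₀, S⟩ := S q' B hq' hB
  refine ⟨c, C, q₀, k, hc, hC, hq₀, ?_⟩
  filter_upwards [hk, eventually_ge_atTop N₀, eventually_ge_atTop 1] with N h1 h2 h3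
  obtain ⟨a1, a2, a3, a4, a5⟩ := h1
  have hN1 : (1 : ℝ) ≤ N := by exact_mod_cast h3
  refine ⟨a1, a2, a3, a4.trans (Real.rpow_le_rpow_of_exponent_le hN1
    (neg_le_neg (le_max_left _ _))), fun r σ hr hσ hg => ?_⟩
  exact S N h2 h r σ hK hr hσ (k N) a1 (a4.trans (Real.rpow_le_rpow_of_exponent_le hN1
    (neg_le_neg (le_max_right _ _)))) a5 hg

/-- Powers of comparable lengths. -/
lemma powM81 {N n : ℕ} (hN : 1 ≤ N) (h1 : N ≤ n) (h2 : n ≤ 2 * N) (a : ℝ) :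
    (n : ℝ) ^ a ≤ 2 ^ |a| * (N : ℝ) ^ a := by
  have hN1 : (1 : ℝ) ≤ N := by exact_mod_cast hN
  have hN0 : (0 : ℝ) < N := by linarith
  have hn1 : (N : ℝ) ≤ n := by exact_mod_cast h1
  have hn2 : (n : ℝ) ≤ 2 * N := by exact_mod_cast h2
  have h3 : (n : ℝ) = (n / N) * N := by field_simp
  have h4 : (1 : ℝ) ≤ n / N := by rw [le_div_iff₀ hN0]; linarith
  have h5 : (n : ℝ) / N ≤ 2 := by rw [div_le_iff₀ hN0]; exact hn2
  have h6 : ((n : ℝ) / N) ^ a ≤ 2 ^ |a| :=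
    (Real.rpow_le_rpow_of_exponent_le h4 (le_abs_self a)).trans
      (Real.rpow_le_rpow (by linarith) h5 (abs_nonneg a))
  calc (n : ℝ) ^ a = ((n / N) * N) ^ a := by rw [← h3]
    _ = ((n : ℝ) / N) ^ a * (N : ℝ) ^ a := Real.mul_rpow (by linarith) hN0.le
    _ ≤ 2 ^ |a| * (N : ℝ) ^ a := mul_le_mul_of_nonneg_right h6 (by positivity)

/-- A superpolynomial bound beats a polynomial. -/
lemma small81 {F : ℕ → ℝ} (hF : ∀ q : ℕ, ∃ C : ℝ, ∀ n : ℕ, 1 ≤ n → F n ≤ C * (n : ℝ) ^ (-(q : ℝ)))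
    (q₀ : ℝ) : ∀ᶠ N : ℕ in atTop, ∀ n : ℕ, N ≤ n → F n < (N : ℝ) ^ (-q₀) := by
  obtain ⟨C, hC⟩ := hF (⌈q₀⌉₊ + 1)
  filter_upwards [tendsto_natCast_atTop_atTop.eventually_ge_atTop (|C| + 1),
    eventually_ge_atTop 1] with N h1 h2 n hn
  have hN1 : (1 : ℝ) ≤ N := by exact_mod_cast h2
  have hN0 : (0 : ℝ) < N := by linarith
  have hnN : (N : ℝ) ≤ n := by exact_mod_cast hn
  have hq : q₀ ≤ ⌈q₀⌉₊ := Nat.le_ceil q₀
  have h3 : (n : ℝ) ^ (-((⌈q₀⌉₊ + 1 : ℕ) : ℝ)) ≤ (N : ℝ) ^ (-q₀) * (N : ℝ) ^ (-(1 : ℝ)) := by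
    rw [← Real.rpow_add hN0]
    calc (n : ℝ) ^ (-((⌈q₀⌉₊ + 1 : ℕ) : ℝ)) ≤ (N : ℝ) ^ (-((⌈q₀⌉₊ + 1 : ℕ) : ℝ)) := by
          rw [Real.rpow_neg (by linarith), Real.rpow_neg hN0.le]
          exact inv_anti₀ (Real.rpow_pos_of_pos hN0 _)
            (Real.rpow_le_rpow hN0.le hnN (Nat.cast_nonneg _))
      _ ≤ (N : ℝ) ^ (-q₀ + -(1 : ℝ)) := by
          refine Real.rpow_le_rpow_of_exponent_le hN1 ?_
          push_cast
          linarith
  have h4 : 0 < (N : ℝ) ^ (-q₀) := Real.rpow_pos_of_pos hN0 _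
  calc F n ≤ C * (n : ℝ) ^ (-((⌈q₀⌉₊ + 1 : ℕ) : ℝ)) := hC n (h2.trans hn)
    _ ≤ |C| * (n : ℝ) ^ (-((⌈q₀⌉₊ + 1 : ℕ) : ℝ)) :=
        mul_le_mul_of_nonneg_right (le_abs_self C) (Real.rpow_nonneg (by linarith) _)
    _ ≤ |C| * ((N : ℝ) ^ (-q₀) * (N : ℝ) ^ (-(1 : ℝ))) :=
        mul_le_mul_of_nonneg_left h3 (abs_nonneg C)
    _ = (|C| / N) * (N : ℝ) ^ (-q₀) := by
        rw [Real.rpow_neg hN0.le 1, Real.rpow_one]
        ring
    _ < 1 * (N : ℝ) ^ (-q₀) := by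
        refine mul_lt_mul_of_pos_right ?_ h4
        rw [div_lt_one hN0]
        linarith
    _ = (N : ℝ) ^ (-q₀) := one_mul _

end B81

open B81

variable {d : ℕ} {ρ : Measure ℝ} [IsProbabilityMeasure ρ] {β : ℝ}

/-- The upper bound of the free energy, core: `y = 0` is allowed. -/
theorem bonC81 (hd : 0 < d) (hρ : EM ρ) (hS : StpPK d ρ β) (hU : UplPK d ρ β) (hT : TailPK d ρ β)
    (h v : Vec d) {p a y : ℝ} (hp : 1 ≤ p) (hTb : TbF ρ β h v a) (hpy : p * a < 1 + (p - 1) * y)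
    (hV : y = 0 ∨ ∃ q : ℝ, 0 < q ∧ ∃ N₀ : ℕ, ∀ N : ℕ, N₀ ≤ N → (N : ℝ) ^ (-q) ≤
      (law d ρ).real {η | N * lam ρ β h + (N : ℝ) ^ y ≤ X β h η N}) :
    UpG (lam ρ β) h v p := by
  obtain ⟨qy, hqy, NV, V⟩ : ∃ q : ℝ, 0 < q ∧ ∃ N₀ : ℕ, ∀ N : ℕ, N₀ ≤ N → y = 0 ∨
      (N : ℝ) ^ (-q) ≤ (law d ρ).real {η | N * lam ρ β h + (N : ℝ) ^ y ≤ X β h η N} := by
    rcases hV with h0 | ⟨q, hq, N₀, h1⟩
    · exact ⟨1, one_pos, 0, fun N _ => Or.inl h0⟩
    · exact ⟨q, hq, N₀, fun N hN => Or.inr (h1 N hN)⟩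
  have hv0 := norm_nonneg v
  obtain ⟨c, C, q₀, k, hc, hC, hq₀, hk⟩ := use81 hS hU hT h (K := ‖h‖ + ‖v‖) (by linarith)
    (Q := qy + 1) (by linarith)
  obtain ⟨M, hM⟩ : ∃ M : ℝ, M = 2 ^ |a| := ⟨_, rfl⟩
  have hM0 : 0 < M := by rw [hM]; positivity
  have hsm := small81 hTb q₀
  obtain ⟨N₁, hN₁⟩ := Filter.eventually_atTop.1 (hk.and (hsm.and (evl81 1)))
  obtain ⟨N₂, hN₂⟩ : ∃ N₂ : ℕ, N₂ = max (max N₁ NV) 3 := ⟨_, rfl⟩
  have hN₂3 : 3 ≤ N₂ := by rw [hN₂]; exact le_max_right _ _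
  have hN₂1 : N₁ ≤ N₂ := by rw [hN₂]; exact (le_max_left _ _).trans (le_max_left _ _)
  have hN₂V : NV ≤ N₂ := by rw [hN₂]; exact (le_max_right _ _).trans (le_max_left _ _)
  -- the estimate at one length
  have key : ∀ N : ℕ, N₂ ≤ N → ∀ r : Vec d, ‖r‖ ≤ 1 →
      C * (k N + Real.log N) ≤ N * gap (lam ρ β) h v r →
      c * (k N + Real.log N) < ‖r‖ * (M * (N : ℝ) ^ a) ∧ (N : ℝ) ^ y ≤ k N + Real.log N := by
    intro N hN r hr hg
    obtain ⟨⟨a1, a2, a3, a4, a5⟩, b1, b2, b3⟩ := hN₁ N (hN₂1.trans hN)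
    have hN3 : (3 : ℝ) ≤ N := by exact_mod_cast b2
    have hN0 : (0 : ℝ) < N := by linarith
    refine ⟨?_, ?_⟩
    · by_contra hcon
      rw [not_lt] at hcon
      have hσ : |(inner ℝ v r : ℝ)| ≤ ‖h‖ + ‖v‖ := by
        have h1 := abs_real_inner_le_norm v r
        have h2 : ‖v‖ * ‖r‖ ≤ ‖v‖ * 1 := mul_le_mul_of_nonneg_left hr hv0
        have h3 := norm_nonneg h
        linarith
      obtain ⟨n, hn1, hn2, hn3⟩ := a5 r (inner ℝ v r) hr hσ (by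
        unfold gap at hg
        exact hg)
      have h1 : ‖r‖ * (n : ℝ) ^ a ≤ c * (k N + Real.log N) := by
        refine le_trans (mul_le_mul_of_nonneg_left ?_ (norm_nonneg r)) hcon
        rw [hM]
        exact powM81 (by omega) hn1 hn2 a
      have h2 := hn3.trans (exT81 (ρ := ρ) (β := β) h v r n h1)
      exact absurd h2 (not_le.2 (b1 n hn1))
    · rcases V N (hN₂V.trans hN) with h0 | h2
      · rw [h0, Real.rpow_zero]
        linarith
      have h1 : (N : ℝ) ^ y ≤ k N := by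
        by_contra hcon
        rw [not_le] at hcon
        have h3 : (law d ρ).real {η | N * lam ρ β h + (N : ℝ) ^ y ≤ X β h η N} ≤
            (law d ρ).real {η | N * lam ρ β h + k N < X β h η N} := by
          refine measureReal_mono fun η hη => ?_
          have h4 : N * lam ρ β h + (N : ℝ) ^ y ≤ X β h η N := hη
          show N * lam ρ β h + k N < X β h η N
          linarith
        have h5 := (h2.trans h3).trans a4
        have h6 : (N : ℝ) ^ (-(qy + 1)) < (N : ℝ) ^ (-qy) :=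
          Real.rpow_lt_rpow_of_exponent_lt (by linarith) (by linarith)
        linarith
      linarith
  -- the radius
  obtain ⟨δ, hδ⟩ : ∃ δ : ℝ, δ = min (min 1 (c / M)) (1 / ((1 + ‖v‖) * (N₂ + 1))) := ⟨_, rfl⟩
  have hδ0 : 0 < δ := by
    rw [hδ]
    exact lt_min (lt_min one_pos (by positivity)) (by positivity)
  refine ⟨2 * C * (M / c) ^ p, δ, hδ0, fun r hr => ?_⟩
  have hr1 : ‖r‖ ≤ 1 := by
    rw [hδ] at hr
    exact hr.trans ((min_le_left _ _).trans (min_le_left _ _))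
  have hr2 : ‖r‖ ≤ c / M := by
    rw [hδ] at hr
    exact hr.trans ((min_le_left _ _).trans (min_le_right _ _))
  have hr3 : ‖r‖ ≤ 1 / ((1 + ‖v‖) * (N₂ + 1)) := by
    rw [hδ] at hr
    exact hr.trans (min_le_right _ _)
  have hr0 := norm_nonneg r
  obtain ⟨g, hg⟩ : ∃ g : ℝ, g = gap (lam ρ β) h v r := ⟨_, rfl⟩
  rw [← hg]
  by_cases hg0 : g ≤ 0
  · exact hg0.trans (by positivity)
  rw [not_le] at hg0
  -- existence of a length
  have hex : ∃ N : ℕ, N₂ ≤ N ∧ C * (k N + Real.log N) ≤ N * g := by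
    have h1 := ((evp81 (show (0 : ℝ) < 1 / 4 by norm_num) (4 * C / g)).and
      ((evlp81 (show (0 : ℝ) < 3 / 4 by norm_num) one_pos).and (eventually_ge_atTop N₂)))
    obtain ⟨N, h2, h3, h4⟩ := h1.exists
    refine ⟨N, h4, ?_⟩
    obtain ⟨⟨a1, a2, a3, a4, a5⟩, b1, b2, b3⟩ := hN₁ N (hN₂1.trans h4)
    have hN3 : (3 : ℝ) ≤ N := by exact_mod_cast b2
    have hN0 : (0 : ℝ) < N := by linarith
    rw [one_mul] at h3
    have h5 : (N : ℝ) = (N : ℝ) ^ (1 / 4 : ℝ) * (N : ℝ) ^ (3 / 4 : ℝ) := by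
      rw [← Real.rpow_add hN0, show (1 / 4 + 3 / 4 : ℝ) = 1 by norm_num, Real.rpow_one]
    have h6 : 0 < (N : ℝ) ^ (3 / 4 : ℝ) := Real.rpow_pos_of_pos hN0 _
    have h7 : 4 * C ≤ (N : ℝ) ^ (1 / 4 : ℝ) * g := by
      rwa [div_le_iff₀ hg0] at h2
    calc C * (k N + Real.log N) ≤ C * (4 * (N : ℝ) ^ (3 / 4 : ℝ)) :=
          mul_le_mul_of_nonneg_left (by linarith) (by linarith)
      _ = 4 * C * (N : ℝ) ^ (3 / 4 : ℝ) := by ring
      _ ≤ (N : ℝ) ^ (1 / 4 : ℝ) * g * (N : ℝ) ^ (3 / 4 : ℝ) :=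
          mul_le_mul_of_nonneg_right h7 h6.le
      _ = ((N : ℝ) ^ (1 / 4 : ℝ) * (N : ℝ) ^ (3 / 4 : ℝ)) * g := by ring
      _ = N * g := by rw [← h5]
  classical
  obtain ⟨N, ⟨hN1, hN2⟩, hmin⟩ : ∃ N : ℕ, (N₂ ≤ N ∧ C * (k N + Real.log N) ≤ N * g) ∧
      ∀ m : ℕ, m < N → ¬ (N₂ ≤ m ∧ C * (k m + Real.log m) ≤ m * g) :=
    ⟨Nat.find hex, Nat.find_spec hex, fun m hm => Nat.find_min hex hm⟩
  -- it is larger than the threshold
  have hne : N ≠ N₂ := by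
    intro he
    obtain ⟨⟨a1, a2, a3, a4, a5⟩, b1, b2, b3⟩ := hN₁ N₂ hN₂1
    rw [he] at hN2
    have h1 : g ≤ (1 + ‖v‖) * ‖r‖ := by rw [hg]; exact gap81 hd hρ β h v r
    have h2 : (1 + ‖v‖) * ‖r‖ ≤ 1 / ((N₂ : ℝ) + 1) := by
      calc (1 + ‖v‖) * ‖r‖ ≤ (1 + ‖v‖) * (1 / ((1 + ‖v‖) * (N₂ + 1))) :=
            mul_le_mul_of_nonneg_left hr3 (by linarith)
        _ = 1 / ((N₂ : ℝ) + 1) := by field_simp
    have h3 : (N₂ : ℝ) * g ≤ N₂ * (1 / ((N₂ : ℝ) + 1)) :=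
      mul_le_mul_of_nonneg_left (h1.trans h2) (Nat.cast_nonneg _)
    have h4 : (N₂ : ℝ) * (1 / ((N₂ : ℝ) + 1)) < 1 := by
      rw [mul_one_div, div_lt_one (by positivity)]
      linarith
    have h5 : 1 ≤ C * (k N₂ + Real.log N₂) := by nlinarith
    linarith
  obtain ⟨m, rfl⟩ : ∃ m : ℕ, N = m + 1 := ⟨N - 1, by omega⟩
  have hm2 : N₂ ≤ m := by omega
  obtain ⟨⟨a1, a2, a3, a4, a5⟩, b1, b2, b3⟩ := hN₁ m (hN₂1.trans hm2)
  have hm3 : (3 : ℝ) ≤ m := by exact_mod_cast b2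
  have h1 : m * g < C * (k m + Real.log m) := by
    by_contra hcon
    exact hmin m (by omega) ⟨hm2, not_lt.1 hcon⟩
  have h2 : k m + Real.log m ≤ k (m + 1) + Real.log ((m + 1 : ℕ) : ℝ) := by
    have h3 : Real.log m ≤ Real.log ((m + 1 : ℕ) : ℝ) :=
      Real.log_le_log (by linarith) (by push_cast; linarith)
    linarith
  obtain ⟨Y, hY⟩ : ∃ Y : ℝ, Y = k (m + 1) + Real.log ((m + 1 : ℕ) : ℝ) := ⟨_, rfl⟩
  obtain ⟨h4, h5⟩ := key (m + 1) hN1 r hr1 (by rw [← hg]; exact hN2)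
  rw [← hY] at h2 h4 h5
  obtain ⟨n, hn⟩ : ∃ n : ℝ, n = ((m + 1 : ℕ) : ℝ) := ⟨_, rfl⟩
  rw [← hn] at h4 h5
  have hn1 : n = m + 1 := by rw [hn]; push_cast; rfl
  have hn0 : 0 < n := by linarith
  have hn1' : 1 ≤ n := by linarith
  have h6 : n * g ≤ 2 * C * Y := by
    have h7 : n * g ≤ 2 * (m * g) := by
      rw [hn1]
      nlinarith
    have h8 : C * (k m + Real.log m) ≤ C * Y := mul_le_mul_of_nonneg_left h2 (by linarith)
    linarith
  obtain ⟨z, hz⟩ : ∃ z : ℝ, z = M / c * ‖r‖ := ⟨_, rfl⟩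
  have hz1 : z ≤ 1 := by
    rw [hz]
    calc M / c * ‖r‖ ≤ M / c * (c / M) := mul_le_mul_of_nonneg_left hr2 (by positivity)
      _ = 1 := by field_simp
  have h9 : Y < z * n ^ a := by
    have h10 : c * Y < c * (z * n ^ a) := by
      refine h4.trans_eq ?_
      rw [hz]
      field_simp
    exact lt_of_mul_lt_mul_left h10 hc.le
  have hna0 : 0 < n ^ a := Real.rpow_pos_of_pos hn0 _
  have h11 : n ^ y < z * n ^ a := lt_of_le_of_lt h5 h9
  have hz0 : 0 < z := by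
    by_contra hcon
    rw [not_lt] at hcon
    have h12 : 0 < n ^ y := Real.rpow_pos_of_pos hn0 _
    have h13 : z * n ^ a ≤ 0 := mul_nonpos_of_nonpos_of_nonneg hcon hna0.le
    linarith
  rcases le_or_gt a y with hay | hay
  · exfalso
    have h12 : n ^ a ≤ n ^ y := Real.rpow_le_rpow_of_exponent_le hn1' hay
    have h13 : z * n ^ a ≤ 1 * n ^ a := mul_le_mul_of_nonneg_right hz1 hna0.le
    linarith
  · -- g ≤ 2 C z n^(a-1)
    have h12 : g ≤ 2 * C * z * n ^ (a - 1) := by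
      have h13 : n * g ≤ 2 * C * (z * n ^ a) :=
        h6.trans (mul_le_mul_of_nonneg_left h9.le (by linarith))
      have h14 : n ^ a = n ^ (a - 1) * n := by
        rw [← Real.rpow_add_one hn0.ne', sub_add_cancel]
      rw [h14] at h13
      have h15 : n * g ≤ n * (2 * C * z * n ^ (a - 1)) := by
        refine h13.trans_eq ?_
        ring
      exact le_of_mul_le_mul_left h15 hn0
    have h16 : n ^ (-(a - y)) ≤ z := by
      have h17 : n ^ y = n ^ (-(a - y)) * n ^ a := by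
        rw [← Real.rpow_add hn0]
        congr 1
        ring
      rw [h17] at h11
      exact (lt_of_mul_lt_mul_right h11 hna0.le).le
    have hb : 0 < a - y := by linarith
    obtain ⟨θ, hθ⟩ : ∃ θ : ℝ, θ = (1 - a) / (a - y) := ⟨_, rfl⟩
    have hθ1 : p - 1 ≤ θ := by
      rw [hθ, le_div_iff₀ hb]
      nlinarith
    have hθ0 : 0 ≤ θ := by linarith
    have h18 : n ^ (a - 1) ≤ z ^ (p - 1) := by
      have h19 : n ^ (a - 1) = (n ^ (-(a - y))) ^ θ := by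
        rw [← Real.rpow_mul hn0.le, hθ]
        congr 1
        field_simp
        ring
      rw [h19]
      calc (n ^ (-(a - y))) ^ θ ≤ z ^ θ :=
            Real.rpow_le_rpow (Real.rpow_nonneg hn0.le _) h16 hθ0
        _ ≤ z ^ (p - 1) := Real.rpow_le_rpow_of_exponent_ge hz0 hz1 hθ1
    calc g ≤ 2 * C * z * n ^ (a - 1) := h12
      _ ≤ 2 * C * z * z ^ (p - 1) := mul_le_mul_of_nonneg_left h18 (by positivity)
      _ = 2 * C * z ^ p := by
          rw [mul_assoc, mul_assoc, mul_assoc]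
          congr 2
          rw [mul_comm z, ← Real.rpow_add_one hz0.ne', sub_add_cancel]
      _ = 2 * C * (M / c) ^ p * ‖r‖ ^ p := by
          rw [hz, Real.mul_rpow (by positivity) hr0]
          ring

/-- **BONT.** -/
theorem bon81 (hd : 0 < d) (hρ : EM ρ) (hS : StpPK d ρ β) (hU : UplPK d ρ β) (hT : TailPK d ρ β)
    (hV : MomV d ρ β) : BonT d ρ β := by
  intro h v p a x hp hTb hx hVa hpa
  obtain ⟨y, hy0, hyx, hpy⟩ : ∃ y : ℝ, 0 < y ∧ y < x ∧ p * a < 1 + (p - 1) * y := by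
    obtain ⟨m, hm⟩ : ∃ m : ℝ, m = 1 + (p - 1) * x - p * a := ⟨_, rfl⟩
    have hm0 : 0 < m := by rw [hm]; linarith
    have h1 : 0 < m / (2 * p) := by positivity
    have h2 : 0 < min (x / 2) (m / (2 * p)) := lt_min (by positivity) h1
    refine ⟨x - min (x / 2) (m / (2 * p)), ?_, by linarith, ?_⟩
    · have := min_le_left (x / 2) (m / (2 * p))
      linarith
    · have h3 := min_le_right (x / 2) (m / (2 * p))
      have h4 : (p - 1) * min (x / 2) (m / (2 * p)) ≤ (p - 1) * (m / (2 * p)) :=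
        mul_le_mul_of_nonneg_left h3 (by linarith)
      have h5 : (p - 1) * (m / (2 * p)) ≤ p * (m / (2 * p)) :=
        mul_le_mul_of_nonneg_right (by linarith) h1.le
      have h6 : p * (m / (2 * p)) = m / 2 := by field_simp
      nlinarith
  exact bonC81 hd hρ hS hU hT h v hp hTb hpy (Or.inr (hV h x y hy0 hyx hVa))

/-- **BONT** with the exponent `0`. -/
theorem bonZ81 (hd : 0 < d) (hρ : EM ρ) (hS : StpPK d ρ β) (hU : UplPK d ρ β)
    (hT : TailPK d ρ β) {h v : Vec d} {p a : ℝ} (hp : 1 ≤ p) (hTb : TbF ρ β h v a)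
    (hpa : p * a < 1) : UpG (lam ρ β) h v p :=
  bonC81 hd hρ hS hU hT h v hp hTb (y := 0) (by linarith) (Or.inl rfl)

end Pool.Agent.W_7d29a1_PK
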