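import Pool.Agent.W_7d29a1_PK.All2
import Pool.Agent.W_7d29a1_PK.Bon81
import Pool.Agent.W_7d29a1_PK.MomL81
import Pool.Agent.W_7d29a1_PK.Let63

/-!
The bonus with the lower fluctuation exponent: an upper bound of the free energy without any
hypothesis about it (helper5).
-/

namespace Pool.Agent.W_7d29a1_PK

open MeasureTheory ProbabilityTheory Filter Topology Pool.Agent.W_MP_7d29a1_pr
  Pool.Agent.W_7d29a1_h46 Pool.Agent.W_7d29a1_h46u Pool.Agent.W_7d29a1_D2
  Pool.Agent.W_7d29a1_D2.B35 Pool.Agent.W_7d29a1_Q29 Pool.Agent.W_7d29a1_R34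
  Pool.Agent.W_7d29a1_SP Pool.Agent.W_7d29a1_V

variable {d : ℕ} {Ω : Type*} [MeasurableSpace Ω] {μ : Measure Ω} [IsProbabilityMeasure μ]
  {ρ : Measure ℝ} [IsProbabilityMeasure ρ] {ω : ℕ × Site d → Ω → ℝ} {β : ℝ}

/-- **The bonus with the lower fluctuation exponent**: if `p ν* < 1 + (p - 1) χ_`, then the free energy
is at most of order `p` at `h`, with the slope `v`. No hypothesis about the free energy. -/
theorem bonLo5 (hd : 0 < d) (hω : IID μ ρ ω) (hρ : EM ρ) (hnc : ∀ c : ℝ, ρ {c} ≠ 1) (hβ : 0 < β)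
    {h v : Vec d} {p : ℝ} (hp : 1 ≤ p)
    (hlt : p * nuS μ β ω h v < 1 + (p - 1) * chiLo μ β ω h) : UpG (lam ρ β) h v p := by
  have hp0 : 0 < p := by linarith
  have hLo := low33 (d := d) hd hρ β
  have hA := ampAll2 (d := d) hd hρ hnc hβ
  have hS := stpAll2 (d := d) hd hρ hnc hβ
  have hU := upl33 (d := d) hd (low33 hd hρ β)
  have hT := tail81 (d := d) (β := β) hd hρ
  have hM := momL81 (d := d) hd hρ hA hLo
  obtain ⟨a, ha, ha2⟩ := exists_lt_of_csInf_lt ⟨2, StrB_two_mem hd ω β h v⟩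
    (show sInf (nuSetS μ β ω h v) < (1 + (p - 1) * chiLo μ β ω h) / p by
      rw [lt_div_iff₀ hp0, mul_comm]
      exact hlt)
  rw [lt_div_iff₀ hp0, mul_comm] at ha2
  obtain ⟨ha0, hTb⟩ := (mem_nuSetS hω h v a).1 ha
  rcases lt_or_ge (p * a) 1 with h1 | h1
  · exact bonC81 hd hρ hS hU hT h v hp hTb (y := 0) (by linarith) (Or.inl rfl)
  · have h2 : 0 < (p - 1) * chiLo μ β ω h := by linarith
    have hc0 := L63.chiLo_nonneg63 (μ := μ) (β := β) (ω := ω) h
    have hp1 : 0 < p - 1 := by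
      by_contra hcon
      nlinarith
    have hc : 0 < chiLo μ β ω h := by
      by_contra hcon
      nlinarith
    have h3 : (p * a - 1) / (p - 1) < chiLo μ β ω h := by
      rw [div_lt_iff₀ hp1]
      linarith
    have hne : (chiSetLo μ β ω h).Nonempty := by
      by_contra hcon
      rw [Set.not_nonempty_iff_eq_empty] at hcon
      unfold chiLo at hc
      rw [hcon, Real.sSup_empty] at hc
      exact lt_irrefl _ hc
    obtain ⟨x, hx, hx2⟩ := exists_lt_of_lt_csSup hne
      (show max 0 ((p * a - 1) / (p - 1)) < sSup (chiSetLo μ β ω h) from max_lt hc h3)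
    obtain ⟨y, hy1, hy2⟩ := exists_between hx2
    obtain ⟨hx0, hF⟩ := (L63.mem_chiSetLo63 hd hω hρ h x).1 hx
    have hy0 : 0 < y := (le_max_left _ _).trans_lt hy1
    have hya : p * a < 1 + (p - 1) * y := by
      have h4 := (le_max_right 0 ((p * a - 1) / (p - 1))).trans_lt hy1
      rw [div_lt_iff₀ hp1] at h4
      linarith
    exact bonC81 hd hρ hS hU hT h v hp hTb hya (hM h x y hy0 hy2 hF)

end Pool.Agent.W_7d29a1_PK
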