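import Pool.Agent.W_7d29a1_PK.Main18

/-!
The second block: an upper bound of the free energy from the tubes and a lower bound of the variance
(leaf BonT).
-/

namespace Pool.Agent.W_7d29a1_PK.Bon18

open MeasureTheory ProbabilityTheory Filter Topology Pool.Agent.W_MP_7d29a1_pr
  Pool.Agent.W_7d29a1_h46 Pool.Agent.W_7d29a1_h46u Pool.Agent.W_7d29a1_D2
  Pool.Agent.W_7d29a1_D2.B35 Pool.Agent.W_7d29a1_Q29 Pool.Agent.W_7d29a1_R34
  Pool.Agent.W_7d29a1_SP Pool.Agent.W_7d29a1_V Pool.Agent.W_7d29a1_PK.Main18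

variable {d : ℕ} {ρ : Measure ℝ} [IsProbabilityMeasure ρ] {β : ℝ}

/-- The Lipschitz bound of the free energy. -/
lemma lip18 (hd : 0 < d) (hρ : EM ρ) (β : ℝ) (h r : Vec d) :
    lam ρ β (h + r) ≤ lam ρ β h + ‖r‖ := by
  have h1 : ∀ n : ℕ, A ρ β (h + r) n ≤ A ρ β h n + ‖r‖ * n := by
    intro n
    unfold A
    have e1 := (concU hd hρ β (h + r) n).1
    have e2 := (concU hd hρ β h n).1
    have e3 : ∫ η, X β (h + r) η n ∂(law d ρ) ≤ ∫ η, (X β h η n + ‖r‖ * n) ∂(law d ρ) :=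
      integral_mono e1 (e2.add (integrable_const _)) fun η => X_tilt hd β h r η n
    rw [integral_add e2 (integrable_const _), integral_const] at e3
    simpa using e3
  refine LamU_le ρ β (h + r) fun n => ?_
  have h2 := A_le_lam hd hρ β h (n + 1)
  have h3 := h1 (n + 1)
  push_cast at h2 h3
  nlinarith

lemma anti18 {h : Vec d} {N : ℕ} {u u' : ℝ} (huu : u ≤ u') :
    (law d ρ).real {η | N * lam ρ β h + u' ≤ X β h η N} ≤
      (law d ρ).real {η | N * lam ρ β h + u ≤ X β h η N} := by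
  refine measureReal_mono (fun η hη => ?_)
  have h1 : N * lam ρ β h + u' ≤ X β h η N := hη
  change N * lam ρ β h + u ≤ X β h η N
  linarith

/-- The quantile. -/
lemma qu18 {h : Vec d} {Q z : ℝ} {N : ℕ} (hN : 2 ≤ N)
    (HT : (law d ρ).real {η | N * lam ρ β h + (N : ℝ) ^ z ≤ X β h η N} ≤ (N : ℝ) ^ (-(Q + 1))) :
    ∃ u : ℝ, 0 ≤ u ∧ u ≤ (N : ℝ) ^ z ∧
      (∀ u' : ℝ, u < u' →
        (law d ρ).real {η | N * lam ρ β h + u' ≤ X β h η N} < (N : ℝ) ^ (-Q)) ∧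
      ∀ u' : ℝ, 0 ≤ u' → u' < u →
        (N : ℝ) ^ (-Q) ≤ (law d ρ).real {η | N * lam ρ β h + u' ≤ X β h η N} := by
  have hNr2 : (2 : ℝ) ≤ N := by exact_mod_cast hN
  have hNr : (0 : ℝ) < N := by linarith
  have hQexp : (N : ℝ) ^ (-(Q + 1)) < (N : ℝ) ^ (-Q) :=
    Real.rpow_lt_rpow_of_exponent_lt (by linarith) (by linarith)
  obtain ⟨S, hSdef⟩ : ∃ S : Set ℝ, S = {u : ℝ | 0 ≤ u ∧
    (N : ℝ) ^ (-Q) ≤ (law d ρ).real {η | N * lam ρ β h + u ≤ X β h η N}} := ⟨_, rfl⟩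
  have hSmem : ∀ u, u ∈ S ↔ 0 ≤ u ∧
    (N : ℝ) ^ (-Q) ≤ (law d ρ).real {η | N * lam ρ β h + u ≤ X β h η N} := fun u => by
      rw [hSdef]; rfl
  have hSb : ∀ u ∈ S, u ≤ (N : ℝ) ^ z := by
    intro u hu
    by_contra hcon
    rw [not_le] at hcon
    have h1 := ((hSmem u).1 hu).2
    have h2 := anti18 (d := d) (ρ := ρ) (β := β) (h := h) (N := N) hcon.le
    linarith
  have hbdd : BddAbove S := ⟨_, hSb⟩
  have hu0 : 0 ≤ sSup S := Real.sSup_nonneg fun x hx => ((hSmem x).1 hx).1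
  refine ⟨sSup S, hu0, Real.sSup_le hSb (Real.rpow_nonneg hNr.le _), fun u' hu' => ?_,
    fun u' hu' hlt => ?_⟩
  · by_contra hcon
    rw [not_lt] at hcon
    have h1 : u' ∈ S := (hSmem u').2 ⟨hu0.trans hu'.le, hcon⟩
    have h2 := le_csSup hbdd h1
    linarith
  · have hne : S.Nonempty := by
      by_contra hemp
      rw [Set.not_nonempty_iff_eq_empty] at hemp
      rw [hemp, Real.sSup_empty] at hlt
      linarith
    obtain ⟨w, hw, hlw⟩ := exists_lt_of_lt_csSup hne hlt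
    exact ((hSmem w).1 hw).2.trans (anti18 hlw.le)

/-- The arithmetic: `‖r‖ n ^ a` is at most `c N g / C`. -/
lemma size18 {p a y c C g R e : ℝ} (hp : 1 ≤ p) (hc : 0 < c) (hC : 1 ≤ C) (hg : 0 < g)
    (hR : 0 ≤ R) (hgR : R ^ p < g) (he : e = 1 - a + (y - 1) * (1 - 1 / p)) {N n : ℕ}
    (hN : 1 ≤ N) (h1 : N ≤ n) (h2 : n ≤ 2 * N) (hE : (2 : ℝ) ^ |a| * (C / c) ≤ (N : ℝ) ^ e)
    (hgN : (N : ℝ) ^ (y - 1) ≤ g) : (n : ℝ) ^ a * R ≤ c * (N * g / C) := by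
  have hp0 : 0 < p := by linarith
  have hC0 : 0 < C := by linarith
  have hN0 : (0 : ℝ) < N := by exact_mod_cast hN
  obtain ⟨s, hs⟩ : ∃ s : ℝ, s = 1 / p := ⟨_, rfl⟩
  have hs0 : 0 < s := by rw [hs]; positivity
  have hs1 : s ≤ 1 := by
    rw [hs, div_le_one hp0]
    exact hp
  have hps : p * s = 1 := by rw [hs, mul_one_div_cancel hp0.ne']
  rw [← hs] at he
  have h3 : R ≤ g ^ s := by
    calc R = (R ^ p) ^ s := by rw [← Real.rpow_mul hR, hps, Real.rpow_one]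
      _ ≤ g ^ s := Real.rpow_le_rpow (Real.rpow_nonneg hR _) hgR.le hs0.le
  have h4 := pow18 a hN h1 h2
  have hgs : 0 < g ^ s := Real.rpow_pos_of_pos hg _
  have h5 : ((N : ℝ) ^ (y - 1)) ^ (1 - s) ≤ g ^ (1 - s) :=
    Real.rpow_le_rpow (Real.rpow_nonneg hN0.le _) hgN (by linarith)
  have h6 : (N : ℝ) ^ e * (N : ℝ) ^ a = N * ((N : ℝ) ^ (y - 1)) ^ (1 - s) := by
    rw [← Real.rpow_mul hN0.le, ← Real.rpow_add hN0]
    calc (N : ℝ) ^ (e + a) = (N : ℝ) ^ (1 + (y - 1) * (1 - s)) := by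
          congr 1
          rw [he]
          ring
      _ = N * (N : ℝ) ^ ((y - 1) * (1 - s)) := by rw [Real.rpow_add hN0, Real.rpow_one]
  have h7 : g = g ^ (1 - s) * g ^ s := by
    rw [← Real.rpow_add hg]
    simp
  have hNa : 0 < (N : ℝ) ^ a := Real.rpow_pos_of_pos hN0 _
  calc (n : ℝ) ^ a * R ≤ ((2 : ℝ) ^ |a| * (N : ℝ) ^ a) * g ^ s :=
        mul_le_mul h4 h3 hR (by positivity)
    _ = c / C * (((2 : ℝ) ^ |a| * (C / c)) * ((N : ℝ) ^ a * g ^ s)) := by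
        field_simp
    _ ≤ c / C * ((N : ℝ) ^ e * ((N : ℝ) ^ a * g ^ s)) :=
        mul_le_mul_of_nonneg_left (mul_le_mul_of_nonneg_right hE (by positivity)) (by positivity)
    _ = c / C * (((N : ℝ) ^ e * (N : ℝ) ^ a) * g ^ s) := by ring
    _ = c / C * (N * ((N : ℝ) ^ (y - 1)) ^ (1 - s) * g ^ s) := by rw [h6]
    _ ≤ c / C * (N * g ^ (1 - s) * g ^ s) := by
        refine mul_le_mul_of_nonneg_left (mul_le_mul_of_nonneg_right
          (mul_le_mul_of_nonneg_left h5 hN0.le) hgs.le) (by positivity)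
    _ = c / C * (N * (g ^ (1 - s) * g ^ s)) := by ring
    _ = c / C * (N * g) := by rw [← h7]
    _ = c * (N * g / C) := by ring

lemma log18 {y C : ℝ} (hy : 0 < y) :
    ∀ᶠ N : ℕ in atTop, 4 + C * Real.log N ≤ (N : ℝ) ^ y := by
  have h1 : Tendsto (fun N : ℕ => Real.log (N : ℝ) / (N : ℝ) ^ y) atTop (𝓝 0) := by
    have h2 := (isLittleO_log_rpow_atTop hy).tendsto_div_nhds_zero
    exact h2.comp tendsto_natCast_atTop_atTop
  have h3 : Tendsto (fun N : ℕ => (N : ℝ) ^ y) atTop atTop :=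
    (tendsto_rpow_atTop hy).comp tendsto_natCast_atTop_atTop
  have h4 := (h1.const_mul C)
  rw [mul_zero] at h4
  filter_upwards [h4.eventually_lt_const (show (0 : ℝ) < 1 / 2 by norm_num),
    h3.eventually_ge_atTop 8, eventually_ge_atTop 1] with N a1 a2 a3
  have hN0 : (0 : ℝ) < N := by exact_mod_cast a3
  have hNy : (0 : ℝ) < (N : ℝ) ^ y := Real.rpow_pos_of_pos hN0 _
  rw [mul_div_assoc', div_lt_iff₀ hNy] at a1
  linarith

set_option maxHeartbeats 1000000 in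
/-- **BonT.** -/
theorem bonT18 (hd : 0 < d) (hρ : EM ρ) (hS : StpPK d ρ β) (hU : UplPK d ρ β)
    (hT : TailPK d ρ β) (hV : MomV d ρ β) : BonT d ρ β := by
  intro h v p a x hp htb hx hVa hlt
  have hp0 : 0 < p := by linarith
  obtain ⟨y, hy0, hyx, hy⟩ : ∃ y : ℝ, 0 < y ∧ y < x ∧ p * a < 1 + (p - 1) * y := by
    obtain ⟨ε, hε⟩ : ∃ ε : ℝ, ε = min (x / 2) ((1 + (p - 1) * x - p * a) / (2 * p)) := ⟨_, rfl⟩
    have e1 : ε ≤ x / 2 := by rw [hε]; exact min_le_left _ _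
    have e2 : ε ≤ (1 + (p - 1) * x - p * a) / (2 * p) := by rw [hε]; exact min_le_right _ _
    have e3 : 0 < ε := by
      rw [hε]
      exact lt_min (by linarith) (div_pos (by linarith) (by linarith))
    rw [le_div_iff₀ (by linarith)] at e2
    refine ⟨x - ε, by linarith, by linarith, ?_⟩
    nlinarith
  obtain ⟨K, hK⟩ : ∃ K : ℝ, K = ‖h‖ + ‖v‖ + 1 := ⟨_, rfl⟩
  have hKh : ‖h‖ ≤ K := by rw [hK]; linarith [norm_nonneg v]
  obtain ⟨qm, hqm, N₀, Hm⟩ := hV h x y hy0 hyx hVa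
  obtain ⟨q, c, C, hq, hc, hC, H⟩ := hS K
  obtain ⟨C₂, hC₂, N₁, Hu⟩ := hU K
  obtain ⟨Q, hQ1, hQ2⟩ : ∃ Q : ℝ, q ≤ Q ∧ qm ≤ Q := ⟨max q qm, le_max_left _ _, le_max_right _ _⟩
  have hQ0 : 0 < Q := lt_of_lt_of_le hq hQ1
  obtain ⟨q₀, hq₀, N₂, HN⟩ := H (Q + C₂) 0 (by linarith) le_rfl
  obtain ⟨N₃, HT⟩ := hT h (Q + 1) (1 / 4) (by norm_num)
  obtain ⟨k, hk⟩ := exists_nat_ge (q₀ + 1)
  obtain ⟨C', hC'⟩ := htb k
  obtain ⟨e, he⟩ : ∃ e : ℝ, e = 1 - a + (y - 1) * (1 - 1 / p) := ⟨_, rfl⟩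
  have he0 : 0 < e := by
    have h1 : p * e = 1 + (p - 1) * y - p * a := by
      rw [he]
      field_simp
      ring
    have h2 : 0 < p * e := by rw [h1]; linarith
    exact (mul_pos_iff_of_pos_left hp0).1 h2
  have hE : Tendsto (fun N : ℕ => (N : ℝ) ^ e) atTop atTop :=
    (tendsto_rpow_atTop he0).comp tendsto_natCast_atTop_atTop
  obtain ⟨M, hM⟩ := eventually_atTop.1 ((((eventually_ge_atTop 3).and
    (eventually_ge_atTop (max (max N₀ N₁) (max N₂ N₃)))).and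
      (log18 (C := 2 * C₂) hy0)).and ((hE.eventually_ge_atTop ((2 : ℝ) ^ |a| * (C / c))).and
        (tendsto_natCast_atTop_atTop.eventually (eventually_gt_atTop |C'|))))
  have hMu : ∀ N : ℕ, ∃ u : ℝ, M ≤ N → (0 ≤ u ∧ u ≤ (N : ℝ) ^ (1 / 2 + 1 / 4 : ℝ) ∧
      (∀ u' : ℝ, u < u' →
        (law d ρ).real {η | N * lam ρ β h + u' ≤ X β h η N} < (N : ℝ) ^ (-Q)) ∧
      ∀ u' : ℝ, 0 ≤ u' → u' < u →
        (N : ℝ) ^ (-Q) ≤ (law d ρ).real {η | N * lam ρ β h + u' ≤ X β h η N}) := by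
    intro N
    by_cases hN : M ≤ N
    · obtain ⟨⟨⟨b1, b2⟩, -⟩, -⟩ := hM N hN
      have b3 : N₃ ≤ N := ((le_max_right _ _).trans (le_max_right _ _)).trans b2
      obtain ⟨u, hu⟩ := qu18 (d := d) (ρ := ρ) (β := β) (h := h) (Q := Q) (by omega) (HT N b3)
      exact ⟨u, fun _ => hu⟩
    · exact ⟨0, fun hN' => absurd hN' hN⟩
  choose u hu using hMu
  have huy : ∀ N : ℕ, M ≤ N → (N : ℝ) ^ y ≤ u N := by
    intro N hN
    obtain ⟨⟨⟨b1, b2⟩, -⟩, -⟩ := hM N hN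
    have b3 : N₀ ≤ N := ((le_max_left _ _).trans (le_max_left _ _)).trans b2
    have hNr1 : (1 : ℝ) ≤ N := by exact_mod_cast (show 1 ≤ N by omega)
    by_contra hcon
    rw [not_le] at hcon
    have c1 := (hu N hN).2.2.1 _ hcon
    have c2 := Hm N b3
    have c3 : (N : ℝ) ^ (-Q) ≤ (N : ℝ) ^ (-qm) :=
      Real.rpow_le_rpow_of_exponent_le hNr1 (by linarith)
    linarith
  obtain ⟨δ, hδ⟩ : ∃ δ : ℝ, δ = 1 / ((1 + ‖v‖) * (M + 2)) := ⟨_, rfl⟩
  have hv0 : 0 < 1 + ‖v‖ := by linarith [norm_nonneg v]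
  have hM0 : (0 : ℝ) ≤ M := Nat.cast_nonneg M
  have hδ0 : 0 < δ := by
    rw [hδ]
    positivity
  refine ⟨1, δ, hδ0, fun r hr => ?_⟩
  by_contra hcon
  rw [not_le, one_mul] at hcon
  obtain ⟨g, hg⟩ : ∃ g : ℝ, g = gap (lam ρ β) h v r := ⟨_, rfl⟩
  rw [← hg] at hcon
  have hg0 : 0 < g := lt_of_le_of_lt (Real.rpow_nonneg (norm_nonneg r) _) hcon
  have hg1 : g * (M + 2) ≤ 1 := by
    have c1 := lip18 hd hρ β h r
    have c2 := abs_real_inner_le_norm v r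
    have c3 : -inner ℝ v r ≤ ‖v‖ * ‖r‖ := (neg_le_abs _).trans c2
    have c4 : g ≤ (1 + ‖v‖) * ‖r‖ := by
      rw [hg]
      unfold gap
      linarith
    have c5 : (1 + ‖v‖) * ‖r‖ ≤ (1 + ‖v‖) * δ := mul_le_mul_of_nonneg_left hr hv0.le
    have c6 : (1 + ‖v‖) * δ * (M + 2) = 1 := by
      rw [hδ]
      field_simp
    calc g * (M + 2) ≤ (1 + ‖v‖) * δ * (M + 2) :=
          mul_le_mul_of_nonneg_right (c4.trans c5) (by linarith)
      _ = 1 := c6
  have hgle : g ≤ 1 := by nlinarith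
  have hr1 : ‖r‖ ≤ 1 := by
    refine hr.trans ?_
    rw [hδ, div_le_one (by positivity)]
    nlinarith [norm_nonneg v]
  have hC0 : 0 < C := by linarith
  -- a length at which the gain is large
  have hex : ∃ N : ℕ, M ≤ N ∧ C * (u N + 1 + Real.log N) ≤ N * g := by
    obtain ⟨N', hN'⟩ := eventually_atTop.1 (Num27.ev_small (K := C) (K' := 2)
      (y := 1 / 2 + 1 / 4) (by norm_num) hg0)
    refine ⟨max M N', le_max_left _ _, hN' _ (le_max_right _ _) _ ?_ hC0.le⟩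
    have c1 := (hu _ (le_max_left M N')).2.1
    obtain ⟨⟨⟨b1, b2⟩, -⟩, -⟩ := hM _ (le_max_left M N')
    have b3 : (3 : ℝ) ≤ ((max M N' : ℕ) : ℝ) := by exact_mod_cast b1
    have b4 : 1 ≤ Real.log ((max M N' : ℕ) : ℝ) := by
      rw [Real.le_log_iff_exp_le (by linarith)]
      have := Real.exp_one_lt_d9
      linarith
    linarith
  classical
  obtain ⟨N, ⟨hMN, hTN⟩, hmin⟩ : ∃ N : ℕ, (M ≤ N ∧ C * (u N + 1 + Real.log N) ≤ N * g) ∧
      ∀ m : ℕ, m < N → ¬ (M ≤ m ∧ C * (u m + 1 + Real.log m) ≤ m * g) :=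
    ⟨Nat.find hex, Nat.find_spec hex, fun m hm => Nat.find_min hex hm⟩
  obtain ⟨⟨⟨b1, b2⟩, b3⟩, b4, b5⟩ := hM N hMN
  have n1 : N₁ ≤ N := ((le_max_right _ _).trans (le_max_left _ _)).trans b2
  have n2 : N₂ ≤ N := ((le_max_left _ _).trans (le_max_right _ _)).trans b2
  have hN1 : 1 ≤ N := by omega
  have hNr : (0 : ℝ) < N := by exact_mod_cast hN1
  have hNr1 : (1 : ℝ) ≤ N := by exact_mod_cast hN1
  have hlog : 0 ≤ Real.log N := Real.log_nonneg hNr1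
  have hu0 := (hu N hMN).1
  have hMlt : M < N := by
    rcases lt_or_eq_of_le hMN with h1 | h1
    · exact h1
    · exfalso
      have h2 : 1 ≤ C * (u N + 1 + Real.log N) := by nlinarith
      have h3 : (M : ℝ) = N := by exact_mod_cast h1
      rw [← h3] at hTN
      rw [← h3] at h2
      nlinarith
  obtain ⟨l, hl⟩ : ∃ l : ℕ, N = l + 1 := ⟨N - 1, by omega⟩
  have hMl : M ≤ l := by omega
  have hnot := hmin l (by omega)
  have hTl : (l : ℝ) * g < C * (u l + 1 + Real.log l) := by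
    by_contra h1
    rw [not_lt] at h1
    exact hnot ⟨hMl, h1⟩
  have hNl : (N : ℝ) = l + 1 := by rw [hl]; push_cast; ring
  obtain ⟨⟨⟨l1, -⟩, -⟩, -⟩ := hM l hMl
  have hlr : (0 : ℝ) < l := by exact_mod_cast (show 0 < l by omega)
  have hlN : Real.log l ≤ Real.log N := Real.log_le_log hlr (by rw [hNl]; linarith)
  -- the level
  obtain ⟨w, hw⟩ : ∃ w : ℝ, w = N * g / C - Real.log N := ⟨_, rfl⟩
  have hCw : C * (w + Real.log N) = N * g := by
    rw [hw]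
    field_simp
    ring
  have hw1 : u N + 1 ≤ w := by
    have h1 : C * (u N + 1 + Real.log N) ≤ C * (w + Real.log N) := by rw [hCw]; exact hTN
    have h2 := le_of_mul_le_mul_left h1 hC0
    linarith
  have hw2 : w - 2 < u l := by
    have h1 : C * (w + Real.log N) < C * (u l + 1 + Real.log l) + g := by
      rw [hCw, hNl]
      linarith
    have h2 : C * (w + Real.log N) < C * (u l + 2 + Real.log N) := by
      have h3 : C * (u l + 1 + Real.log l) + g ≤ C * (u l + 2 + Real.log N) := by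
        nlinarith
      linarith
    have h3 := lt_of_mul_lt_mul_left h2 hC0.le
    linarith
  have hNy := huy N hMN
  have hc1 : (law d ρ).real {η | N * lam ρ β h + w < X β h η N} ≤ (N : ℝ) ^ (-q) := by
    have h1 : (law d ρ).real {η | N * lam ρ β h + w < X β h η N} ≤
        (law d ρ).real {η | N * lam ρ β h + w ≤ X β h η N} := by
      refine measureReal_mono (fun η hη => ?_)
      have h0 : N * lam ρ β h + w < X β h η N := hη
      change N * lam ρ β h + w ≤ X β h η N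
      exact h0.le
    have h2 := (hu N hMN).2.2.1 w (by linarith)
    have h3 : (N : ℝ) ^ (-Q) ≤ (N : ℝ) ^ (-q) :=
      Real.rpow_le_rpow_of_exponent_le hNr1 (by linarith)
    linarith
  have hc2 : (N : ℝ) ^ (-(Q + C₂)) ≤
      (law d ρ).real {η | N * lam ρ β h + w / 2 ≤ X β h η N} := by
    have hlog2 : 0 ≤ C₂ * Real.log N := mul_nonneg (by linarith) hlog
    have h1 := (hu l hMl).2.2.2 (w - 2) (by linarith) hw2
    have h2 := Hu N n1 h hKh l (by omega) (w - 2 - C₂ * Real.log N)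
    have e1 : (l : ℝ) * lam ρ β h + (w - 2 - C₂ * Real.log N) + C₂ * Real.log N =
        l * lam ρ β h + (w - 2) := by ring
    rw [e1] at h2
    have h3 : (N : ℝ) ^ (-Q) ≤ (l : ℝ) ^ (-Q) :=
      Real.rpow_le_rpow_of_nonpos hlr (by rw [hNl]; linarith) (by linarith)
    have h4 : (law d ρ).real {η | N * lam ρ β h + (w - 2 - C₂ * Real.log N) ≤ X β h η N} ≤
        (law d ρ).real {η | N * lam ρ β h + w / 2 ≤ X β h η N} := by
      refine anti18 ?_
      linarith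
    have h5 : (N : ℝ) ^ (-Q) ≤ (N : ℝ) ^ C₂ *
        (law d ρ).real {η | N * lam ρ β h + w / 2 ≤ X β h η N} := by
      have h6 : 0 ≤ (N : ℝ) ^ C₂ := Real.rpow_nonneg hNr.le _
      have h7 := mul_le_mul_of_nonneg_left h4 h6
      linarith
    have h6 : (N : ℝ) ^ (-(Q + C₂)) * (N : ℝ) ^ C₂ = (N : ℝ) ^ (-Q) := by
      rw [← Real.rpow_add hNr]
      congr 1
      ring
    have h7 : 0 < (N : ℝ) ^ C₂ := Real.rpow_pos_of_pos hNr _
    have h8 : (N : ℝ) ^ (-(Q + C₂)) * (N : ℝ) ^ C₂ ≤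
        (law d ρ).real {η | N * lam ρ β h + w / 2 ≤ X β h η N} * (N : ℝ) ^ C₂ := by
      rw [h6, mul_comm ((law d ρ).real _)]
      exact h5
    exact le_of_mul_le_mul_right h8 h7
  have hσ : |inner ℝ v r| ≤ K := by
    have h1 := abs_real_inner_le_norm v r
    have h2 : ‖v‖ * ‖r‖ ≤ ‖v‖ * 1 := mul_le_mul_of_nonneg_left hr1 (norm_nonneg _)
    rw [hK]
    linarith [norm_nonneg h]
  have hc3 : C * (w + Real.log N) ≤ N * (lam ρ β (h + r) - lam ρ β h - inner ℝ v r) := by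
    rw [hCw, hg]
    exact le_rfl
  obtain ⟨n, hn1, hn2, hn3⟩ := HN N n2 h r (inner ℝ v r) hKh hr1 hσ w (by linarith) hc1
    (Or.inr hc2) hc3
  have hn1' : 1 ≤ n := hN1.trans hn1
  have hwg : w + Real.log N = N * g / C := by
    rw [hw]
    ring
  rw [hwg] at hn3
  have hgN : (N : ℝ) ^ (y - 1) ≤ g := by
    have h1 : (N : ℝ) ^ y ≤ N * g := by
      have h2 : u N ≤ C * (u N + 1 + Real.log N) := by nlinarith
      linarith
    have h3 : (N : ℝ) ^ (y - 1) * N = (N : ℝ) ^ y := by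
      calc (N : ℝ) ^ (y - 1) * N = (N : ℝ) ^ (y - 1) * (N : ℝ) ^ (1 : ℝ) := by
            rw [Real.rpow_one]
        _ = (N : ℝ) ^ (y - 1 + 1) := (Real.rpow_add hNr _ _).symm
        _ = (N : ℝ) ^ y := by
            congr 1
            ring
    have h4 : (N : ℝ) ^ (y - 1) * N ≤ g * N := by
      rw [h3, mul_comm g]
      exact h1
    exact le_of_mul_le_mul_right h4 hNr
  have hsize := size18 hp hc hC hg0 (norm_nonneg r) hcon he hN1 hn1 hn2 b4 hgN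
  have hsub : tube d n v ((n : ℝ) ^ a) ⊆ slb d n r (inner ℝ v r) (c * (N * g / C)) := by
    intro s hs i hi
    have h1 := hs i hi
    have h2 : inner ℝ r (emb (pos s i)) - i * inner ℝ v r =
        inner ℝ r (emb (pos s i) - (i : ℝ) • v) := by
      rw [inner_sub_right, real_inner_smul_right, real_inner_comm v r]
    rw [h2]
    have h3 := abs_real_inner_le_norm r (emb (pos s i) - (i : ℝ) • v)
    have h4 : ‖r‖ * ‖emb (pos s i) - (i : ℝ) • v‖ ≤ ‖r‖ * (n : ℝ) ^ a :=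
      mul_le_mul_of_nonneg_left h1 (norm_nonneg r)
    linarith [mul_comm ‖r‖ ((n : ℝ) ^ a)]
  have hEx : Ex ρ β h r (inner ℝ v r) n (c * (N * g / C)) ≤
      ∫ η, (1 - PolT β h η (tube d n v ((n : ℝ) ^ a))) ∂(law d ρ) := by
    unfold Ex
    refine integral_mono_of_nonneg (Eventually.of_forall fun η => ?_) ?_
      (Eventually.of_forall fun η => ?_)
    · exact sub_nonneg.2 (PolT_le_one β h η _)
    · refine Integrable.mono' (integrable_const (1 : ℝ))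
        ((measurable_PolT β h _).const_sub 1).aestronglyMeasurable
        (Eventually.of_forall fun η => ?_)
      have h5 := PolT_le_one β h η (tube d n v ((n : ℝ) ^ a))
      have h6 := PolT_nonneg β h η (tube d n v ((n : ℝ) ^ a))
      rw [Real.norm_eq_abs, abs_of_nonneg (by linarith)]
      linarith
    · exact sub_le_sub_left (PolT_mono β h η hsub) 1
  have h2 := hC' n hn1'
  have hnr : (N : ℝ) ≤ n := by exact_mod_cast hn1
  have h3 : (n : ℝ) ^ (-(k : ℝ)) ≤ (N : ℝ) ^ (-(k : ℝ)) :=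
    Real.rpow_le_rpow_of_nonpos hNr hnr (by simp)
  have h4 : (N : ℝ) ^ (-(k : ℝ)) ≤ (N : ℝ) ^ (-(q₀ + 1)) :=
    Real.rpow_le_rpow_of_exponent_le hNr1 (by linarith)
  have h5 : (N : ℝ) ^ (-(q₀ + 1)) * N = (N : ℝ) ^ (-q₀) := by
    have h6 : -q₀ = -(q₀ + 1) + 1 := by ring
    calc (N : ℝ) ^ (-(q₀ + 1)) * N = (N : ℝ) ^ (-(q₀ + 1)) * (N : ℝ) ^ (1 : ℝ) := by
          rw [Real.rpow_one]
      _ = (N : ℝ) ^ (-(q₀ + 1) + 1) := (Real.rpow_add hNr _ _).symm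
      _ = (N : ℝ) ^ (-q₀) := by rw [← h6]
  have hx0 : 0 < (N : ℝ) ^ (-(q₀ + 1)) := Real.rpow_pos_of_pos hNr _
  have hn0 : 0 ≤ (n : ℝ) ^ (-(k : ℝ)) := Real.rpow_nonneg (Nat.cast_nonneg n) _
  have h7 : C' * (n : ℝ) ^ (-(k : ℝ)) ≤ |C'| * (N : ℝ) ^ (-(q₀ + 1)) := by
    calc C' * (n : ℝ) ^ (-(k : ℝ)) ≤ |C'| * (n : ℝ) ^ (-(k : ℝ)) :=
          mul_le_mul_of_nonneg_right (le_abs_self _) hn0
      _ ≤ |C'| * (N : ℝ) ^ (-(q₀ + 1)) :=
          mul_le_mul_of_nonneg_left (h3.trans h4) (abs_nonneg _)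
  have h8 : (N : ℝ) ^ (-(q₀ + 1)) * N ≤ |C'| * (N : ℝ) ^ (-(q₀ + 1)) := by
    rw [h5]
    linarith
  have h9 : (N : ℝ) ≤ |C'| := by
    rw [mul_comm] at h8
    exact le_of_mul_le_mul_right h8 hx0
  have h10 : |C'| < (N : ℝ) := b5
  linarith

end Pool.Agent.W_7d29a1_PK.Bon18
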