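import Pool.Agent.W_7d29a1_PK.Bon81
import Pool.Agent.W_7d29a1_KL.UpLo46

/-!
An upper bound of the free energy on a line from the slab property, without any hypothesis about
the free energy (helper98; the text of `Bon81` for one component).
-/

set_option autoImplicit false

namespace Pool.Agent.W_7d29a1_PK

open MeasureTheory ProbabilityTheory Filter Topology Pool.Agent.W_MP_7d29a1_pr
  Pool.Agent.W_7d29a1_h46 Pool.Agent.W_7d29a1_h46u Pool.Agent.W_7d29a1_D2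
  Pool.Agent.W_7d29a1_D2.B35 Pool.Agent.W_7d29a1_Q29 Pool.Agent.W_7d29a1_R34
  Pool.Agent.W_7d29a1_SP Pool.Agent.W_7d29a1_V Pool.Agent.W_7d29a1_KL

open B81

variable {d : ℕ} {ρ : Measure ℝ} [IsProbabilityMeasure ρ] {β : ℝ}

lemma gapS98 (hd : 0 < d) (hρ : EM ρ) (β : ℝ) (h w : Vec d) (s t : ℝ) :
    lam ρ β (h + t • w) - lam ρ β h - s * t ≤ (1 + ‖w‖ + |s|) * |t| := by
  have h1 := lip81 hd hρ β h (t • w)
  rw [norm_smul, Real.norm_eq_abs] at h1
  have h2 : -(|s| * |t|) ≤ s * t := by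
    rw [← abs_mul]
    exact neg_abs_le _
  have h3 := abs_nonneg t
  nlinarith

/-- The slabs of `t w` and of `w`, both signs. -/
lemma exS98 (h w : Vec d) (s : ℝ) (n : ℕ) {t R W : ℝ} (hW : |t| * R ≤ W) :
    Ex ρ β h (t • w) (s * t) n W ≤ Ex ρ β h w s n R := by
  unfold Ex
  refine integral_mono (integ81 h _) (integ81 h _) fun η => ?_
  have h1 : PolT β h η (slb d n w s R) ≤ PolT β h η (slb d n (t • w) (s * t) W) := by
    refine PolT_mono β h η ?_
    intro q hq i hin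
    have h2 := hq i hin
    have h3 : inner ℝ (t • w) (emb (pos q i)) - (i : ℝ) * (s * t) =
        t * (inner ℝ w (emb (pos q i)) - (i : ℝ) * s) := by
      rw [real_inner_smul_left]
      ring
    rw [h3, abs_mul]
    exact (mul_le_mul_of_nonneg_left h2 (abs_nonneg t)).trans hW
  show 1 - PolT β h η (slb d n (t • w) (s * t) W) ≤ 1 - PolT β h η (slb d n w s R)
  linarith

/-- The upper bound of the free energy on a line, core: `y = 0` is allowed. -/
theorem bonS98 (hd : 0 < d) (hρ : EM ρ) (hS : StpPK d ρ β) (hU : UplPK d ρ β) (hT : TailPK d ρ β)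
    (h w : Vec d) (s : ℝ) {p a y : ℝ} (hp : 1 ≤ p) (hTb : SbF ρ β h w s a)
    (hpy : p * a < 1 + (p - 1) * y)
    (hV : y = 0 ∨ ∃ q : ℝ, 0 < q ∧ ∃ N₀ : ℕ, ∀ N : ℕ, N₀ ≤ N → (N : ℝ) ^ (-q) ≤
      (law d ρ).real {η | N * lam ρ β h + (N : ℝ) ^ y ≤ X β h η N}) :
    UpU (lam ρ β) h w s p := by
  obtain ⟨qy, hqy, NV, V⟩ : ∃ q : ℝ, 0 < q ∧ ∃ N₀ : ℕ, ∀ N : ℕ, N₀ ≤ N → y = 0 ∨
      (N : ℝ) ^ (-q) ≤ (law d ρ).real {η | N * lam ρ β h + (N : ℝ) ^ y ≤ X β h η N} := by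
    rcases hV with h0 | ⟨q, hq, N₀, h1⟩
    · exact ⟨1, one_pos, 0, fun N _ => Or.inl h0⟩
    · exact ⟨q, hq, N₀, fun N hN => Or.inr (h1 N hN)⟩
  have hw0 := norm_nonneg w
  have hs0 := abs_nonneg s
  obtain ⟨Λ, hΛ⟩ : ∃ Λ : ℝ, Λ = 1 + ‖w‖ + |s| := ⟨_, rfl⟩
  have hΛ1 : 1 ≤ Λ := by linarith
  obtain ⟨c, C, q₀, k, hc, hC, hq₀, hk⟩ := use81 hS hU hT h (K := ‖h‖ + |s|) (by linarith)
    (Q := qy + 1) (by linarith)
  obtain ⟨M, hM⟩ : ∃ M : ℝ, M = 2 ^ |a| := ⟨_, rfl⟩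
  have hM0 : 0 < M := by rw [hM]; positivity
  have hsm := small81 hTb q₀
  obtain ⟨N₁, hN₁⟩ := Filter.eventually_atTop.1 (hk.and (hsm.and (evl81 1)))
  obtain ⟨N₂, hN₂⟩ : ∃ N₂ : ℕ, N₂ = max (max N₁ NV) 3 := ⟨_, rfl⟩
  have hN₂3 : 3 ≤ N₂ := by rw [hN₂]; exact le_max_right _ _
  have hN₂1 : N₁ ≤ N₂ := by rw [hN₂]; exact (le_max_left _ _).trans (le_max_left _ _)
  have hN₂V : NV ≤ N₂ := by rw [hN₂]; exact (le_max_right _ _).trans (le_max_left _ _)
  -- the estimate at one length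
  have key : ∀ N : ℕ, N₂ ≤ N → ∀ t : ℝ, |t| * Λ ≤ 1 →
      C * (k N + Real.log N) ≤ N * (lam ρ β (h + t • w) - lam ρ β h - s * t) →
      c * (k N + Real.log N) < |t| * (M * (N : ℝ) ^ a) ∧ (N : ℝ) ^ y ≤ k N + Real.log N := by
    intro N hN t ht hg
    obtain ⟨⟨a1, a2, a3, a4, a5⟩, b1, b2, b3⟩ := hN₁ N (hN₂1.trans hN)
    have hN3 : (3 : ℝ) ≤ N := by exact_mod_cast b2
    have hN0 : (0 : ℝ) < N := by linarith
    refine ⟨?_, ?_⟩
    · by_contra hcon
      rw [not_lt] at hcon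
      have ht1 : |t| ≤ 1 := by
        have h1 : |t| * 1 ≤ |t| * Λ := mul_le_mul_of_nonneg_left hΛ1 (abs_nonneg t)
        linarith
      have hr : ‖t • w‖ ≤ 1 := by
        rw [norm_smul, Real.norm_eq_abs]
        have h1 : |t| * ‖w‖ ≤ |t| * Λ := mul_le_mul_of_nonneg_left (by linarith) (abs_nonneg t)
        linarith
      have hσ : |s * t| ≤ ‖h‖ + |s| := by
        rw [abs_mul]
        have h2 : |s| * |t| ≤ |s| * 1 := mul_le_mul_of_nonneg_left ht1 hs0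
        have h3 := norm_nonneg h
        linarith
      obtain ⟨n, hn1, hn2, hn3⟩ := a5 (t • w) (s * t) hr hσ hg
      have h1 : |t| * (n : ℝ) ^ a ≤ c * (k N + Real.log N) := by
        refine le_trans (mul_le_mul_of_nonneg_left ?_ (abs_nonneg t)) hcon
        rw [hM]
        exact powM81 (by omega) hn1 hn2 a
      have h2 := hn3.trans (exS98 (ρ := ρ) (β := β) h w s n h1)
      exact absurd h2 (not_le.2 (b1 n hn1))
    · rcases V N (hN₂V.trans hN) with h0 | h2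
      · rw [h0, Real.rpow_zero]
        linarith
      have h1 : (N : ℝ) ^ y ≤ k N := by
        by_contra hcon
        rw [not_le] at hcon
        have h3 : (law d ρ).real {η | N * lam ρ β h + (N : ℝ) ^ y ≤ X β h η N} ≤
            (law d ρ).real {η | N * lam ρ β h + k N < X β h η N} := by
          refine measureReal_mono fun η hη => ?_
          have h4 : N * lam ρ β h + (N : ℝ) ^ y ≤ X β h η N := hη
          show N * lam ρ β h + k N < X β h η N
          linarith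
        have h5 := (h2.trans h3).trans a4
        have h6 : (N : ℝ) ^ (-(qy + 1)) < (N : ℝ) ^ (-qy) :=
          Real.rpow_lt_rpow_of_exponent_lt (by linarith) (by linarith)
        linarith
      linarith
  -- the radius
  obtain ⟨δ, hδ⟩ : ∃ δ : ℝ, δ = min (min (1 / Λ) (c / M)) (1 / (Λ * (N₂ + 1))) := ⟨_, rfl⟩
  have hδ0 : 0 < δ := by
    rw [hδ]
    exact lt_min (lt_min (by positivity) (by positivity)) (by positivity)
  refine ⟨2 * C * (M / c) ^ p, δ, hδ0, fun t hr => ?_⟩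
  have hr1 : |t| * Λ ≤ 1 := by
    rw [hδ] at hr
    have h1 := hr.trans ((min_le_left _ _).trans (min_le_left _ _))
    rwa [le_div_iff₀ (by linarith)] at h1
  have hr2 : |t| ≤ c / M := by
    rw [hδ] at hr
    exact hr.trans ((min_le_left _ _).trans (min_le_right _ _))
  have hr3 : |t| ≤ 1 / (Λ * (N₂ + 1)) := by
    rw [hδ] at hr
    exact hr.trans (min_le_right _ _)
  have hr0 := abs_nonneg t
  obtain ⟨g, hg⟩ : ∃ g : ℝ, g = lam ρ β (h + t • w) - lam ρ β h - s * t := ⟨_, rfl⟩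
  rw [← hg]
  by_cases hg0 : g ≤ 0
  · exact hg0.trans (by positivity)
  rw [not_le] at hg0
  -- existence of a length
  have hex : ∃ N : ℕ, N₂ ≤ N ∧ C * (k N + Real.log N) ≤ N * g := by
    have h1 := ((evp81 (show (0 : ℝ) < 1 / 4 by norm_num) (4 * C / g)).and
      ((evlp81 (show (0 : ℝ) < 3 / 4 by norm_num) one_pos).and (eventually_ge_atTop N₂)))
    obtain ⟨N, h2, h3, h4⟩ := h1.exists
    refine ⟨N, h4, ?_⟩
    obtain ⟨⟨a1, a2, a3, a4, a5⟩, b1, b2, b3⟩ := hN₁ N (hN₂1.trans h4)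
    have hN3 : (3 : ℝ) ≤ N := by exact_mod_cast b2
    have hN0 : (0 : ℝ) < N := by linarith
    rw [one_mul] at h3
    have h5 : (N : ℝ) = (N : ℝ) ^ (1 / 4 : ℝ) * (N : ℝ) ^ (3 / 4 : ℝ) := by
      rw [← Real.rpow_add hN0, show (1 / 4 + 3 / 4 : ℝ) = 1 by norm_num, Real.rpow_one]
    have h6 : 0 < (N : ℝ) ^ (3 / 4 : ℝ) := Real.rpow_pos_of_pos hN0 _
    have h7 : 4 * C ≤ (N : ℝ) ^ (1 / 4 : ℝ) * g := by
      rwa [div_le_iff₀ hg0] at h2
    calc C * (k N + Real.log N) ≤ C * (4 * (N : ℝ) ^ (3 / 4 : ℝ)) :=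
          mul_le_mul_of_nonneg_left (by linarith) (by linarith)
      _ = 4 * C * (N : ℝ) ^ (3 / 4 : ℝ) := by ring
      _ ≤ (N : ℝ) ^ (1 / 4 : ℝ) * g * (N : ℝ) ^ (3 / 4 : ℝ) :=
          mul_le_mul_of_nonneg_right h7 h6.le
      _ = ((N : ℝ) ^ (1 / 4 : ℝ) * (N : ℝ) ^ (3 / 4 : ℝ)) * g := by ring
      _ = N * g := by rw [← h5]
  classical
  obtain ⟨N, ⟨hN1, hN2⟩, hmin⟩ : ∃ N : ℕ, (N₂ ≤ N ∧ C * (k N + Real.log N) ≤ N * g) ∧
      ∀ m : ℕ, m < N → ¬ (N₂ ≤ m ∧ C * (k m + Real.log m) ≤ m * g) :=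
    ⟨Nat.find hex, Nat.find_spec hex, fun m hm => Nat.find_min hex hm⟩
  -- it is larger than the threshold
  have hne : N ≠ N₂ := by
    intro he
    obtain ⟨⟨a1, a2, a3, a4, a5⟩, b1, b2, b3⟩ := hN₁ N₂ hN₂1
    rw [he] at hN2
    have h1 : g ≤ Λ * |t| := by rw [hg, hΛ]; exact gapS98 hd hρ β h w s t
    have h2 : Λ * |t| ≤ 1 / ((N₂ : ℝ) + 1) := by
      calc Λ * |t| ≤ Λ * (1 / (Λ * (N₂ + 1))) :=
            mul_le_mul_of_nonneg_left hr3 (by linarith)
        _ = 1 / ((N₂ : ℝ) + 1) := by field_simp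
    have h3 : (N₂ : ℝ) * g ≤ N₂ * (1 / ((N₂ : ℝ) + 1)) :=
      mul_le_mul_of_nonneg_left (h1.trans h2) (Nat.cast_nonneg _)
    have h4 : (N₂ : ℝ) * (1 / ((N₂ : ℝ) + 1)) < 1 := by
      rw [mul_one_div, div_lt_one (by positivity)]
      linarith
    have h5 : 1 ≤ C * (k N₂ + Real.log N₂) := by nlinarith
    linarith
  obtain ⟨m, rfl⟩ : ∃ m : ℕ, N = m + 1 := ⟨N - 1, by omega⟩
  have hm2 : N₂ ≤ m := by omega
  obtain ⟨⟨a1, a2, a3, a4, a5⟩, b1, b2, b3⟩ := hN₁ m (hN₂1.trans hm2)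
  have hm3 : (3 : ℝ) ≤ m := by exact_mod_cast b2
  have h1 : m * g < C * (k m + Real.log m) := by
    by_contra hcon
    exact hmin m (by omega) ⟨hm2, not_lt.1 hcon⟩
  have h2 : k m + Real.log m ≤ k (m + 1) + Real.log ((m + 1 : ℕ) : ℝ) := by
    have h3 : Real.log m ≤ Real.log ((m + 1 : ℕ) : ℝ) :=
      Real.log_le_log (by linarith) (by push_cast; linarith)
    linarith
  obtain ⟨Y, hY⟩ : ∃ Y : ℝ, Y = k (m + 1) + Real.log ((m + 1 : ℕ) : ℝ) := ⟨_, rfl⟩
  obtain ⟨h4, h5⟩ := key (m + 1) hN1 t hr1 (by rw [← hg]; exact hN2)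
  rw [← hY] at h2 h4 h5
  obtain ⟨n, hn⟩ : ∃ n : ℝ, n = ((m + 1 : ℕ) : ℝ) := ⟨_, rfl⟩
  rw [← hn] at h4 h5
  have hn1 : n = m + 1 := by rw [hn]; push_cast; rfl
  have hn0 : 0 < n := by linarith
  have hn1' : 1 ≤ n := by linarith
  have h6 : n * g ≤ 2 * C * Y := by
    have h7 : n * g ≤ 2 * (m * g) := by
      rw [hn1]
      nlinarith
    have h8 : C * (k m + Real.log m) ≤ C * Y := mul_le_mul_of_nonneg_left h2 (by linarith)
    linarith
  obtain ⟨z, hz⟩ : ∃ z : ℝ, z = M / c * |t| := ⟨_, rfl⟩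
  have hz1 : z ≤ 1 := by
    rw [hz]
    calc M / c * |t| ≤ M / c * (c / M) := mul_le_mul_of_nonneg_left hr2 (by positivity)
      _ = 1 := by field_simp
  have h9 : Y < z * n ^ a := by
    have h10 : c * Y < c * (z * n ^ a) := by
      refine h4.trans_eq ?_
      rw [hz]
      field_simp
    exact lt_of_mul_lt_mul_left h10 hc.le
  have hna0 : 0 < n ^ a := Real.rpow_pos_of_pos hn0 _
  have h11 : n ^ y < z * n ^ a := lt_of_le_of_lt h5 h9
  have hz0 : 0 < z := by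
    by_contra hcon
    rw [not_lt] at hcon
    have h12 : 0 < n ^ y := Real.rpow_pos_of_pos hn0 _
    have h13 : z * n ^ a ≤ 0 := mul_nonpos_of_nonpos_of_nonneg hcon hna0.le
    linarith
  rcases le_or_gt a y with hay | hay
  · exfalso
    have h12 : n ^ a ≤ n ^ y := Real.rpow_le_rpow_of_exponent_le hn1' hay
    have h13 : z * n ^ a ≤ 1 * n ^ a := mul_le_mul_of_nonneg_right hz1 hna0.le
    linarith
  · -- g ≤ 2 C z n^(a-1)
    have h12 : g ≤ 2 * C * z * n ^ (a - 1) := by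
      have h13 : n * g ≤ 2 * C * (z * n ^ a) :=
        h6.trans (mul_le_mul_of_nonneg_left h9.le (by linarith))
      have h14 : n ^ a = n ^ (a - 1) * n := by
        rw [← Real.rpow_add_one hn0.ne', sub_add_cancel]
      rw [h14] at h13
      have h15 : n * g ≤ n * (2 * C * z * n ^ (a - 1)) := by
        refine h13.trans_eq ?_
        ring
      exact le_of_mul_le_mul_left h15 hn0
    have h16 : n ^ (-(a - y)) ≤ z := by
      have h17 : n ^ y = n ^ (-(a - y)) * n ^ a := by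
        rw [← Real.rpow_add hn0]
        congr 1
        ring
      rw [h17] at h11
      exact (lt_of_mul_lt_mul_right h11 hna0.le).le
    have hb : 0 < a - y := by linarith
    obtain ⟨θ, hθ⟩ : ∃ θ : ℝ, θ = (1 - a) / (a - y) := ⟨_, rfl⟩
    have hθ1 : p - 1 ≤ θ := by
      rw [hθ, le_div_iff₀ hb]
      have e1 : (p - 1) * (a - y) = p * a - a - (p - 1) * y := by ring
      linarith
    have hθ0 : 0 ≤ θ := by linarith
    have h18 : n ^ (a - 1) ≤ z ^ (p - 1) := by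
      have h19 : n ^ (a - 1) = (n ^ (-(a - y))) ^ θ := by
        rw [← Real.rpow_mul hn0.le, hθ]
        congr 1
        field_simp
        ring
      rw [h19]
      calc (n ^ (-(a - y))) ^ θ ≤ z ^ θ :=
            Real.rpow_le_rpow (Real.rpow_nonneg hn0.le _) h16 hθ0
        _ ≤ z ^ (p - 1) := Real.rpow_le_rpow_of_exponent_ge hz0 hz1 hθ1
    calc g ≤ 2 * C * z * n ^ (a - 1) := h12
      _ ≤ 2 * C * z * z ^ (p - 1) := mul_le_mul_of_nonneg_left h18 (by positivity)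
      _ = 2 * C * z ^ p := by
          rw [mul_assoc, mul_assoc, mul_assoc]
          congr 2
          rw [mul_comm z, ← Real.rpow_add_one hz0.ne', sub_add_cancel]
      _ = 2 * C * (M / c) ^ p * |t| ^ p := by
          rw [hz, Real.mul_rpow (by positivity) hr0]
          ring

end Pool.Agent.W_7d29a1_PK
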