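import Pool.Agent.W_7d29a1_D2.Defs46

/-!
The order of the free energy at a tilt from the exponents: pure corollary of the arrows (helper8).
-/

set_option autoImplicit false

namespace Pool.Agent.W_7d29a1_PK

open Pool.Agent.W_MP_7d29a1_pr Pool.Agent.W_7d29a1_h46 Pool.Agent.W_7d29a1_h46u
  Pool.Agent.W_7d29a1_D2

/-- If the lower and the upper exponents agree, the order of `L` at `h` is
`(1 - χ) / (ν - χ)`. Here `nS, nL, cF, cL` are the upper and lower wandering exponents and the upper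
and lower fluctuation exponents. -/
theorem order8 {d : ℕ} {L : Vec d → ℝ} {h v : Vec d} {nS nL cF cL : ℝ}
    (hU : ∀ p : ℝ, 1 ≤ p → ¬ UpG L h v p → 1 + (p - 1) * cL ≤ p * nS)
    (hLo : ∀ p : ℝ, 1 < p → ¬ LoA L h v p → p * nL ≤ 1 + (p - 1) * cF)
    (hc0 : 0 ≤ cF) (h3 : 2 * cF ≤ nS) (h4 : 0 < nS) (h1 : nL = nS) (h2 : cL = cF) :
    cF < nS ∧ ∀ p : ℝ, 1 < p → (p * (nS - cF) < 1 - cF → UpG L h v p) ∧
      (1 - cF < p * (nS - cF) → LoA L h v p) := by
  subst h1 h2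
  refine ⟨by linarith, fun p hp => ⟨fun hlt => ?_, fun hlt => ?_⟩⟩
  · by_contra hn
    have := hU p hp.le hn
    nlinarith
  · by_contra hn
    have := hLo p hp hn
    nlinarith

/-- Under the same hypotheses, if the scaling relation `χ = 2 ν - 1` holds then the order is two:
`L` is between `t ^ (2 + ε)` and `t ^ (2 - ε)`. -/
theorem orderTwo8 {d : ℕ} {L : Vec d → ℝ} {h v : Vec d} {nS nL cF cL : ℝ}
    (hU : ∀ p : ℝ, 1 ≤ p → ¬ UpG L h v p → 1 + (p - 1) * cL ≤ p * nS)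
    (hLo : ∀ p : ℝ, 1 < p → ¬ LoA L h v p → p * nL ≤ 1 + (p - 1) * cF)
    (hU' : ∀ p : ℝ, 1 ≤ p → UpG L h v p → p * nS ≤ 1 + (p - 1) * cF)
    (hLo' : ∀ p : ℝ, 1 < p → LoA L h v p → 1 + (p - 1) * cF ≤ p * nS)
    (hc0 : 0 ≤ cF) (h3 : 2 * cF ≤ nS) (h4 : 0 < nS) (h1 : nL = nS) (h2 : cL = cF)
    (hc1 : cF < 1) :
    cF = 2 * nS - 1 ↔ ∀ ε : ℝ, 0 < ε → ε < 1 → UpG L h v (2 - ε) ∧ LoA L h v (2 + ε) := by
  obtain ⟨hlt, H⟩ := order8 hU hLo hc0 h3 h4 h1 h2
  constructor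
  · intro hk ε hε hε1
    have e : nS - cF = (1 - cF) / 2 := by linarith
    refine ⟨(H (2 - ε) (by linarith)).1 ?_, (H (2 + ε) (by linarith)).2 ?_⟩
    · rw [e]
      nlinarith
    · rw [e]
      nlinarith
  · intro hk
    apply le_antisymm
    · refine le_of_forall_pos_le_add fun δ hδ => ?_
      obtain ⟨ε, hε⟩ : ∃ ε : ℝ, ε = min (δ / 2) (1 / 2) := ⟨_, rfl⟩
      have hε0 : 0 < ε := by rw [hε]; positivity
      have hε1 : ε ≤ 1 / 2 := by rw [hε]; exact min_le_right _ _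
      have hε2 : ε ≤ δ / 2 := by rw [hε]; exact min_le_left _ _
      have hb := hLo' (2 + ε) (by linarith) (hk ε hε0 (by linarith)).2
      -- (2 + ε) nS ≥ 1 + (1 + ε) cF
      have hn1 : nS ≤ 1 := by
        by_contra hcon
        have h5 := hU' 1 le_rfl
        have h6 := (hk ε hε0 (by linarith)).1
        have h7 := hU' (2 - ε) (by linarith) h6
        nlinarith
      nlinarith
    · refine le_of_forall_pos_le_add fun δ hδ => ?_
      obtain ⟨ε, hε⟩ : ∃ ε : ℝ, ε = min (δ / 2) (1 / 2) := ⟨_, rfl⟩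
      have hε0 : 0 < ε := by rw [hε]; positivity
      have hε1 : ε ≤ 1 / 2 := by rw [hε]; exact min_le_right _ _
      have hε2 : ε ≤ δ / 2 := by rw [hε]; exact min_le_left _ _
      have hb := hU' (2 - ε) (by linarith) (hk ε hε0 (by linarith)).1
      have hn1 : nS ≤ 1 := by
        by_contra hcon
        nlinarith
      nlinarith

end Pool.Agent.W_7d29a1_PK
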