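import Pool.Agent.W_7d29a1_PK.PA34

/-!
The core of THEOREM PA with explicit numbers, at one length (helper34).
-/

set_option autoImplicit false

namespace Pool.Agent.W_7d29a1_PK

open MeasureTheory ProbabilityTheory Filter Topology Pool.Agent.W_MP_7d29a1_pr
  Pool.Agent.W_7d29a1_h46 Pool.Agent.W_7d29a1_h46u Pool.Agent.W_7d29a1_D2
  Pool.Agent.W_7d29a1_Q29 Pool.Agent.W_7d29a1_R34 Pool.Agent.W_7d29a1_V Pool.Agent.W_7d29a1_VT
  Pool.Agent.W_7d29a1_V.Li70 Pool.Agent.W_7d29a1_AM Pool.Agent.W_7d29a1_KL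
  Pool.Agent.W_7d29a1_D2.TubK74 Pool.Agent.W_7d29a1_SP

namespace A34

variable {d : ℕ} {ρ : Measure ℝ} [IsProbabilityMeasure ρ] {β : ℝ}

/-- The far mass on one side is small, at one length, with explicit numbers. -/
theorem core34 (hd : 0 < d) (hρ : EM ρ) (hβ : 0 ≤ β) {C : ℝ} (hC1 : 1 ≤ C)
    (hC : Pool.Agent.W_7d29a1_NR.HaN41.AmpDN ρ β 3 C) {h u : Vec d} {s t B R w a₁ b₀ r : ℝ}
    {n i : ℕ} (hi : i ≤ n) (ht0 : 0 < t)
    (hE : (i : ℝ) * lam ρ β (h + t • u) ≤ i * (lam ρ β h + s * t) + B) (hw : 0 < w)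
    {G : Set (Env d)}
    (hgood : ∀ η ∈ G, n * lam ρ β h - a₁ ≤ X β h η n ∧ X β h η n ≤ n * lam ρ β h + w ∧
      ∀ y ∈ boxF d i, Z β h (sh i y η) (n - i) ≤ Real.exp (((n : ℝ) - i) * lam ρ β h + w))
    (hr0 : 0 < r) (hr2 : r ≤ 1 / 2) (hb₀0 : 0 < b₀)
    (e1 : r + (law d ρ).real Gᶜ ≤
      (law d ρ).real {η | X β (h + t • u) η i ≤ A ρ β (h + t • u) i + 1})
    (e2 : r + (law d ρ).real Gᶜ ≤ b₀) (e3 : (law d ρ).real Gᶜ < r ^ C)
    (hb1 : C * (1 + Real.log (1 / r)) ≤ t * R - B - w - 1 - a₁ + Real.log b₀)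
    (hb2 : 2 * w + a₁ - Real.log b₀ ≤ t * R - B - w - 1 - a₁ + Real.log b₀) :
    ∫ η, FarL β h u η n i s 1 R ∂(law d ρ) ≤ 2 * b₀ := by
  classical
  obtain ⟨E, hE'⟩ : ∃ E : Set (Fin n → Step d), E = {q : Fin n → Step d |
    |(1 : ℝ)| * R ≤ 1 * (inner ℝ u (emb (pos q i)) - i * s)} := ⟨_, rfl⟩
  have hFE : ∀ η : Env d, FarL β h u η n i s 1 R = ZT β h η E / Z β h η n := by
    intro η
    rw [hE']
    rfl
  by_contra hcon
  rw [not_le] at hcon
  have hEn : E.Nonempty := by
    by_contra hc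
    rw [Set.not_nonempty_iff_eq_empty] at hc
    have h1 : ∀ η : Env d, FarL β h u η n i s 1 R = 0 := by
      intro η
      rw [hFE, hc]
      unfold ZT
      simp
    simp only [h1, integral_zero] at hcon
    linarith
  obtain ⟨M, hM⟩ : ∃ M : ℝ, M = n * lam ρ β h + B + w + 1 - t * R := ⟨_, rfl⟩
  obtain ⟨b, hb⟩ : ∃ b : ℝ, b = t * R - B - w - 1 - a₁ + Real.log b₀ := ⟨_, rfl⟩
  rw [← hb] at hb1 hb2
  have hMb : M + b = n * lam ρ β h - a₁ + Real.log b₀ := by rw [hM, hb]; ring
  -- the lower level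
  have h0 : r ≤ (law d ρ).real {η | Real.log (ZT β h η E) ≤ M} := by
    have h2 : (law d ρ).real {η | X β (h + t • u) η i ≤ A ρ β (h + t • u) i + 1} ≤
        (law d ρ).real {η | Real.log (ZT β h η E) ≤ M} + (law d ρ).real Gᶜ := by
      refine (measureReal_mono ?_).trans (measureReal_union_le _ _)
      intro η hη
      have hη' : X β (h + t • u) η i ≤ A ρ β (h + t • u) i + 1 := hη
      by_cases hg : η ∈ G
      · left
        obtain ⟨-, -, g3⟩ := hgood η hg
        have h3 := farL_le hd β h u η hi s t R g3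
        rw [LeafA74.farL_pos β h u η n i s _ ht0, hFE] at h3
        have hZ := Z_pos hd β h η n
        have h4 : ZT β h η E ≤ Real.exp (-(t * (i * s)) - |t| * R) *
            Z β (h + t • u) η i * Real.exp (((n : ℝ) - i) * lam ρ β h + w) :=
          (div_le_div_iff_of_pos_right hZ).1 h3
        rw [TubV_exp hd β (h + t • u) η i, ← Real.exp_add, ← Real.exp_add, abs_of_pos ht0] at h4
        have h5 := Real.log_le_log (ZT_pos β h η hEn) h4
        rw [Real.log_exp] at h5
        have h6 := A_le_lam hd hρ β (h + t • u) i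
        show Real.log (ZT β h η E) ≤ M
        rw [hM]
        have e4 : (i : ℝ) * (lam ρ β h + s * t) = i * lam ρ β h + t * (i * s) := by ring
        rw [e4] at hE
        linarith
      · right
        exact hg
    linarith
  -- the upper level
  have h1 : r ≤ (law d ρ).real {η | M + b ≤ Real.log (ZT β h η E)} := by
    have h2 := TubW_split (μ := law d ρ)
      (f := fun η => FarL β h u η n i s 1 R)
      (fun η => farL_le_one34 hd β h u η n i s 1 _)
      (G := {η | FarL β h u η n i s 1 R ≤ b₀}) (b := b₀) hb₀0.le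
      (fun η hη => hη) (fun η => farL_nonneg34 hd β h u η n i s 1 _)
    have h3 : b₀ < (law d ρ).real {η | FarL β h u η n i s 1 R ≤ b₀}ᶜ := by
      linarith
    have h4 : (law d ρ).real {η | FarL β h u η n i s 1 R ≤ b₀}ᶜ ≤
        (law d ρ).real {η | M + b ≤ Real.log (ZT β h η E)} + (law d ρ).real Gᶜ := by
      refine (measureReal_mono ?_).trans (measureReal_union_le _ _)
      intro η hη
      have hη' : ¬ FarL β h u η n i s 1 R ≤ b₀ := hη
      rw [not_le, hFE] at hη'
      by_cases hg : η ∈ G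
      · left
        obtain ⟨g1, -, -⟩ := hgood η hg
        have hZ := Z_pos hd β h η n
        rw [lt_div_iff₀ hZ] at hη'
        have h5 := Real.log_le_log (by positivity) hη'.le
        rw [Real.log_mul hb₀0.ne' hZ.ne'] at h5
        have h7 : Real.log (Z β h η n) = X β h η n := rfl
        rw [h7] at h5
        show M + b ≤ Real.log (ZT β h η E)
        rw [hMb]
        linarith
      · right
        exact hg
    linarith
  -- the amplification
  have h2 := Pool.Agent.W_7d29a1_KP.U68.ampE68 (d := d) (ρ := ρ) (D₁ := 3) (c := 1) hβ hC1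
    hC (by norm_num) one_pos h hEn (r := r)
    (L := n * lam ρ β h + 2 * w) (M := M) (b := b) hr0 hr2 hb1 (by
      rw [one_mul, hMb]
      linarith) h0 h1
  have h3 : (law d ρ).real {η | n * lam ρ β h + 2 * w ≤ Real.log (ZT β h η E)} ≤
      (law d ρ).real Gᶜ := by
    refine measureReal_mono ?_
    intro η hη hg
    obtain ⟨-, g2, -⟩ := hgood η hg
    have hη' : n * lam ρ β h + 2 * w ≤ Real.log (ZT β h η E) := hη
    have h4 : Real.log (ZT β h η E) ≤ X β h η n :=
      Real.log_le_log (ZT_pos β h η hEn) (ZT_mono β h η (Set.subset_univ E))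
    linarith
  linarith

end A34

end Pool.Agent.W_7d29a1_PK
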