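import Pool.Agent.W_7d29a1_D2.Blk35
import Pool.Agent.W_7d29a1_D2.Crs74
import Pool.Agent.W_7d29a1_V.DefsL70

/-!
Cutting a walk at its first exit of a slab: an exponential moment recursion (helper54).
-/

namespace Pool.Agent.W_7d29a1_PK

open MeasureTheory ProbabilityTheory Filter Topology Pool.Agent.W_MP_7d29a1_pr
  Pool.Agent.W_7d29a1_h46 Pool.Agent.W_7d29a1_h46u Pool.Agent.W_7d29a1_D2
  Pool.Agent.W_7d29a1_D2.B35

variable {d : ℕ}

namespace C54

/-- The offset of the site `y` of the row `l` in the direction `u`, slope `s`. -/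
noncomputable def psi (u : Vec d) (s : ℝ) (l : ℕ) (y : Site d) : ℝ := inner ℝ u (emb y) - l * s

lemma psi_add (u : Vec d) (s : ℝ) (l k : ℕ) (y z : Site d) :
    psi u s (l + k) (y + z) = psi u s l y + psi u s k z := by
  unfold psi
  rw [Walk_emb_add, inner_add_right]
  push_cast
  ring

lemma psi_zero (u : Vec d) (s : ℝ) : psi u s 0 0 = 0 := by
  have h3 : emb (0 : Site d) = 0 := by
    ext j
    simp [emb]
  unfold psi
  rw [h3]
  simp

lemma psi_step {n : ℕ} (u : Vec d) (s : ℝ) (q : Fin n → Step d) {j : ℕ} (hj : j < n) :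
    |psi u s (j + 1) (pos q (j + 1))| ≤ |psi u s j (pos q j)| + (‖u‖ + |s|) := by
  have h1 : psi u s (j + 1) (pos q (j + 1)) =
      psi u s j (pos q j) + (inner ℝ u (emb (vec (q ⟨j, hj⟩))) - s) := by
    rw [Crs74.Crs_pos_succ q hj, psi_add]
    congr 1
    unfold psi
    push_cast
    ring
  have h2 : |inner ℝ u (emb (vec (q ⟨j, hj⟩)))| ≤ ‖u‖ := by
    refine (abs_real_inner_le_norm _ _).trans ?_
    rw [Crs74.Crs_norm_vec, mul_one]
  rw [h1]
  have h3 := abs_add_le (psi u s j (pos q j)) (inner ℝ u (emb (vec (q ⟨j, hj⟩))) - s)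
  have h4 := abs_sub (inner ℝ u (emb (vec (q ⟨j, hj⟩)))) s
  linarith

lemma sh_comp (t τ : ℕ) (x D : Site d) (η : Env d) :
    sh τ D (sh t x η) = sh (t + τ) (x + D) η := by
  funext p
  show η (p.1 + τ + t, p.2 + D + x) = η (p.1 + (t + τ), p.2 + (x + D))
  congr 1
  ext1
  · show p.1 + τ + t = p.1 + (t + τ)
    omega
  · show p.2 + D + x = p.2 + (x + D)
    abel

lemma box_add {t τ : ℕ} {x D : Site d} (hx : x ∈ boxF d t) (hD : D ∈ boxF d τ) :
    x + D ∈ boxF d (t + τ) := by
  rw [mem_boxF] at *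
  intro j
  have h1 := abs_add_le (x j) (D j)
  have h2 := hx j
  have h3 := hD j
  push_cast
  rw [Pi.add_apply]
  linarith

/-- The exponential moment of the offset at the end. -/
noncomputable def Wm (β : ℝ) (h u : Vec d) (s T : ℝ) (η : Env d) (l : ℕ) : ℝ :=
  ∑ q : Fin l → Step d, wgt β h η q * Real.exp (T * |psi u s l (pos q l)|)

lemma Wm_nonneg (β : ℝ) (h u : Vec d) (s T : ℝ) (η : Env d) (l : ℕ) : 0 ≤ Wm β h u s T η l :=
  Finset.sum_nonneg fun _ _ => mul_nonneg (wgt_pos _ _ _ _).le (Real.exp_pos _).le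

open Classical in
/-- The part of the walks through `(τ, D)`. -/
lemma part (β : ℝ) (h u : Vec d) (s T : ℝ) (η : Env d) (τ k : ℕ) (D : Site d) :
    ∑ q : Fin (τ + k) → Step d, (if pos q τ = D then
      wgt β h η q * Real.exp (T * |psi u s k (pos q (τ + k) - D)|) else 0) =
      PP β h η τ D * Wm β h u s T (sh τ D η) k := by
  rw [sum_glue]
  unfold PP ZT Wm
  rw [Finset.sum_mul]
  refine Finset.sum_congr rfl fun a _ => ?_
  by_cases ha : pos a τ = D
  · rw [if_pos (show a ∈ {s : Fin τ → Step d | pos s τ = D} from ha), Finset.mul_sum]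
    refine Finset.sum_congr rfl fun b _ => ?_
    rw [if_pos ((pos_glue_le a b le_rfl).trans ha), wgt_glue, pos_glue_add, ha, add_sub_cancel_left]
    ring
  · rw [if_neg (show a ∉ {s : Fin τ → Step d | pos s τ = D} from ha), zero_mul]
    refine Finset.sum_eq_zero fun b _ => if_neg ?_
    rw [pos_glue_le a b le_rfl]
    exact ha

open Classical in
/-- One walk: it stays in the slab, or it passes through the shell. -/
lemma walk (u : Vec d) (s T R : ℝ) (hT : 0 ≤ T) (hR : 0 ≤ R) {l : ℕ} (q : Fin l → Step d) :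
    Real.exp (T * |psi u s l (pos q l)|) ≤ Real.exp (T * R) +
      ∑ τ ∈ Finset.Icc 1 l, ∑ D ∈ boxF d l,
        (if R < |psi u s τ D| ∧ |psi u s τ D| ≤ R + (‖u‖ + |s|) then
          (if pos q τ = D then Real.exp (T * (R + (‖u‖ + |s|))) *
            Real.exp (T * |psi u s (l - τ) (pos q l - D)|) else 0) else 0) := by
  have hnn : ∀ τ ∈ Finset.Icc 1 l, 0 ≤ ∑ D ∈ boxF d l,
        (if R < |psi u s τ D| ∧ |psi u s τ D| ≤ R + (‖u‖ + |s|) then
          (if pos q τ = D then Real.exp (T * (R + (‖u‖ + |s|))) *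
            Real.exp (T * |psi u s (l - τ) (pos q l - D)|) else 0) else 0) := by
    intro τ _
    refine Finset.sum_nonneg fun D _ => ?_
    split_ifs
    · positivity
    · exact le_rfl
    · exact le_rfl
  by_cases hq : ∀ i ≤ l, |psi u s i (pos q i)| ≤ R
  · have h1 : Real.exp (T * |psi u s l (pos q l)|) ≤ Real.exp (T * R) :=
      Real.exp_le_exp.2 (mul_le_mul_of_nonneg_left (hq l le_rfl) hT)
    have h2 := Finset.sum_nonneg hnn
    linarith
  · push Not at hq
    have hex : ∃ i, i ≤ l ∧ R < |psi u s i (pos q i)| := hq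
    let τ := Nat.find hex
    have hτ : τ ≤ l ∧ R < |psi u s τ (pos q τ)| := Nat.find_spec hex
    have hτ0 : τ ≠ 0 := by
      intro h0
      have h1 := hτ.2
      rw [h0, Crs74.Crs_pos_zero, psi_zero, abs_zero] at h1
      linarith
    obtain ⟨j, hj⟩ := Nat.exists_eq_succ_of_ne_zero hτ0
    have hjm : ¬ (j ≤ l ∧ R < |psi u s j (pos q j)|) := Nat.find_min hex (by
      show j < τ
      omega)
    have hj1 : |psi u s j (pos q j)| ≤ R := by
      by_contra hcon
      exact hjm ⟨by omega, not_le.1 hcon⟩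
    have hsh : |psi u s τ (pos q τ)| ≤ R + (‖u‖ + |s|) := by
      have h1 := psi_step u s q (j := j) (by omega)
      have h2 : τ = j + 1 := hj
      rw [h2]
      linarith
    have hmem : τ ∈ Finset.Icc 1 l := Finset.mem_Icc.2 ⟨by omega, hτ.1⟩
    have hbox : pos q τ ∈ boxF d l := pos_mem_box q τ
    have hsplit : |psi u s l (pos q l)| ≤
        |psi u s τ (pos q τ)| + |psi u s (l - τ) (pos q l - pos q τ)| := by
      have h1 := psi_add u s τ (l - τ) (pos q τ) (pos q l - pos q τ)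
      rw [Nat.add_sub_cancel' hτ.1, add_sub_cancel] at h1
      rw [h1]
      exact abs_add_le _ _
    have h1 : Real.exp (T * |psi u s l (pos q l)|) ≤ Real.exp (T * (R + (‖u‖ + |s|))) *
        Real.exp (T * |psi u s (l - τ) (pos q l - pos q τ)|) := by
      rw [← Real.exp_add]
      refine Real.exp_le_exp.2 ?_
      rw [← mul_add]
      refine mul_le_mul_of_nonneg_left ?_ hT
      linarith
    have h2 : Real.exp (T * (R + (‖u‖ + |s|))) *
        Real.exp (T * |psi u s (l - τ) (pos q l - pos q τ)|) ≤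
        ∑ D ∈ boxF d l, (if R < |psi u s τ D| ∧ |psi u s τ D| ≤ R + (‖u‖ + |s|) then
          (if pos q τ = D then Real.exp (T * (R + (‖u‖ + |s|))) *
            Real.exp (T * |psi u s (l - τ) (pos q l - D)|) else 0) else 0) := by
      refine le_trans (le_of_eq ?_) (Finset.single_le_sum (f := fun D =>
        (if R < |psi u s τ D| ∧ |psi u s τ D| ≤ R + (‖u‖ + |s|) then
          (if pos q τ = D then Real.exp (T * (R + (‖u‖ + |s|))) *
            Real.exp (T * |psi u s (l - τ) (pos q l - D)|) else 0) else 0)) (fun D _ => ?_) hbox)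
      · rw [if_pos ⟨hτ.2, hsh⟩, if_pos rfl]
      · split_ifs
        · positivity
        · exact le_rfl
        · exact le_rfl
    have h3 := Finset.single_le_sum (f := fun τ => ∑ D ∈ boxF d l,
        (if R < |psi u s τ D| ∧ |psi u s τ D| ≤ R + (‖u‖ + |s|) then
          (if pos q τ = D then Real.exp (T * (R + (‖u‖ + |s|))) *
            Real.exp (T * |psi u s (l - τ) (pos q l - D)|) else 0) else 0)) hnn hmem
    have h4 := Real.exp_pos (T * R)
    linarith

lemma PP_off (β : ℝ) (h : Vec d) (η : Env d) (τ : ℕ) {D : Site d} (hD : D ∉ boxF d τ) :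
    PP β h η τ D = 0 := by
  classical
  unfold PP ZT
  refine Finset.sum_eq_zero fun q _ => if_neg ?_
  intro hq
  have h1 : pos q τ = D := hq
  exact hD (h1 ▸ pos_mem_box q τ)

lemma box_mono {a b : ℕ} (hab : a ≤ b) : boxF d a ⊆ boxF d b := by
  intro x hx
  rw [mem_boxF] at *
  intro j
  exact (hx j).trans (by exact_mod_cast hab)

/-- The recursion. -/
lemma rec_le (β : ℝ) (h u : Vec d) (s T R : ℝ) (hT : 0 ≤ T) (hR : 0 ≤ R) (η : Env d) (l : ℕ) :
    Wm β h u s T η l ≤ Real.exp (T * R) * Z β h η l +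
      ∑ τ ∈ Finset.Icc 1 l, ∑ D ∈ boxF d l,
        (if R < |psi u s τ D| ∧ |psi u s τ D| ≤ R + (‖u‖ + |s|) then
          Real.exp (T * (R + (‖u‖ + |s|))) *
            (PP β h η τ D * Wm β h u s T (sh τ D η) (l - τ)) else 0) := by
  classical
  have h1 : Wm β h u s T η l ≤ ∑ q : Fin l → Step d, wgt β h η q * (Real.exp (T * R) +
      ∑ τ ∈ Finset.Icc 1 l, ∑ D ∈ boxF d l,
        (if R < |psi u s τ D| ∧ |psi u s τ D| ≤ R + (‖u‖ + |s|) then
          (if pos q τ = D then Real.exp (T * (R + (‖u‖ + |s|))) *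
            Real.exp (T * |psi u s (l - τ) (pos q l - D)|) else 0) else 0)) := by
    unfold Wm
    exact Finset.sum_le_sum fun q _ =>
      mul_le_mul_of_nonneg_left (walk u s T R hT hR q) (wgt_pos _ _ _ _).le
  refine h1.trans (le_of_eq ?_)
  simp only [mul_add, Finset.sum_add_distrib]
  congr 1
  · rw [Z_eq, Finset.mul_sum]
    exact Finset.sum_congr rfl fun q _ => mul_comm _ _
  · simp only [Finset.mul_sum]
    rw [Finset.sum_comm]
    refine Finset.sum_congr rfl fun τ hτ => ?_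
    rw [Finset.sum_comm]
    refine Finset.sum_congr rfl fun D _ => ?_
    by_cases hD : R < |psi u s τ D| ∧ |psi u s τ D| ≤ R + (‖u‖ + |s|)
    · simp only [if_pos hD]
      obtain ⟨k, rfl⟩ := Nat.exists_eq_add_of_le (Finset.mem_Icc.1 hτ).2
      have hk : τ + k - τ = k := by omega
      rw [hk, ← part, Finset.mul_sum]
      refine Finset.sum_congr rfl fun q _ => ?_
      split_ifs
      · ring
      · ring
    · simp only [if_neg hD, mul_zero, Finset.sum_const_zero]

/-- The exponential moment is small if every piece is expensive. -/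
lemma rec_all (β : ℝ) (h u : Vec d) (s T R : ℝ) (hT : 0 ≤ T) (hR : 0 ≤ R) {η : Env d} {N : ℕ}
    {L L' Γ : ℝ} (hG : ∀ t l : ℕ, t + l ≤ N → ∀ x ∈ boxF d t,
      Z β h (sh t x η) l ≤ Real.exp (l * L + L'))
    (hE : ∀ t τ : ℕ, t + τ ≤ N → 1 ≤ τ → ∀ x ∈ boxF d t, ∀ D ∈ boxF d τ,
      R < |psi u s τ D| → |psi u s τ D| ≤ R + (‖u‖ + |s|) →
      PP β h (sh t x η) τ D ≤ Real.exp (τ * L - Γ))
    (hS : N * ((boxF d N).card : ℝ) * Real.exp (T * (R + (‖u‖ + |s|)) - Γ) ≤ 1 / 2) :
    ∀ l t : ℕ, t + l ≤ N → ∀ x ∈ boxF d t,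
      Wm β h u s T (sh t x η) l ≤ 2 * Real.exp (l * L + L' + T * R) := by
  intro l
  induction l using Nat.strong_induction_on with
  | _ l ih =>
    intro t htl x hx
    have h1 := rec_le β h u s T R hT hR (sh t x η) l
    have h2 : Real.exp (T * R) * Z β h (sh t x η) l ≤ Real.exp (l * L + L' + T * R) := by
      rw [Real.exp_add (l * L + L'), mul_comm]
      exact mul_le_mul_of_nonneg_right (hG t l htl x hx) (Real.exp_pos _).le
    have h3 : ∑ τ ∈ Finset.Icc 1 l, ∑ D ∈ boxF d l,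
        (if R < |psi u s τ D| ∧ |psi u s τ D| ≤ R + (‖u‖ + |s|) then
          Real.exp (T * (R + (‖u‖ + |s|))) *
            (PP β h (sh t x η) τ D * Wm β h u s T (sh τ D (sh t x η)) (l - τ)) else 0) ≤
        ∑ τ ∈ Finset.Icc 1 l, ∑ D ∈ boxF d l, 2 * Real.exp (l * L + L' + T * R) *
          Real.exp (T * (R + (‖u‖ + |s|)) - Γ) := by
      refine Finset.sum_le_sum fun τ hτ => Finset.sum_le_sum fun D _ => ?_
      have hnn : 0 ≤ 2 * Real.exp (l * L + L' + T * R) *
          Real.exp (T * (R + (‖u‖ + |s|)) - Γ) := by positivity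
      obtain ⟨hτ1, hτl⟩ := Finset.mem_Icc.1 hτ
      by_cases hD : R < |psi u s τ D| ∧ |psi u s τ D| ≤ R + (‖u‖ + |s|)
      · rw [if_pos hD]
        by_cases hb : D ∈ boxF d τ
        · have h4 := hE t τ (by omega) hτ1 x hx D hb hD.1 hD.2
          have h5 := ih (l - τ) (by omega) (t + τ) (by omega) (x + D) (box_add hx hb)
          rw [sh_comp]
          have h6 : PP β h (sh t x η) τ D * Wm β h u s T (sh (t + τ) (x + D) η) (l - τ) ≤
              Real.exp (τ * L - Γ) * (2 * Real.exp ((l - τ : ℕ) * L + L' + T * R)) :=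
            mul_le_mul h4 h5 (Wm_nonneg _ _ _ _ _ _ _) (Real.exp_pos _).le
          refine (mul_le_mul_of_nonneg_left h6 (Real.exp_pos _).le).trans (le_of_eq ?_)
          rw [Nat.cast_sub hτl]
          have e1 : Real.exp (T * (R + (‖u‖ + |s|))) * (Real.exp (τ * L - Γ) *
              (2 * Real.exp (((l : ℝ) - τ) * L + L' + T * R))) =
              2 * (Real.exp (T * (R + (‖u‖ + |s|))) * (Real.exp (τ * L - Γ) *
              Real.exp (((l : ℝ) - τ) * L + L' + T * R))) := by ring
          rw [e1, mul_assoc, ← Real.exp_add, ← Real.exp_add, ← Real.exp_add]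
          congr 2
          ring
        · rw [PP_off β h _ τ hb, zero_mul, mul_zero]
          exact hnn
      · rw [if_neg hD]
        exact hnn
    have h4 : ∑ τ ∈ Finset.Icc 1 l, ∑ D ∈ boxF d l, 2 * Real.exp (l * L + L' + T * R) *
          Real.exp (T * (R + (‖u‖ + |s|)) - Γ) ≤ Real.exp (l * L + L' + T * R) := by
      rw [Finset.sum_const, Finset.sum_const, Nat.card_Icc, nsmul_eq_mul, nsmul_eq_mul]
      have hc1 : ((l + 1 - 1 : ℕ) : ℝ) ≤ N := by
        have : l + 1 - 1 ≤ N := by omega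
        exact_mod_cast this
      have hc2 : ((boxF d l).card : ℝ) ≤ (boxF d N).card := by
        exact_mod_cast Finset.card_le_card (box_mono (by omega))
      have hE0 := Real.exp_pos (l * L + L' + T * R)
      have hE1 := Real.exp_pos (T * (R + (‖u‖ + |s|)) - Γ)
      have hc3 : ((l + 1 - 1 : ℕ) : ℝ) * ((boxF d l).card : ℝ) ≤ N * ((boxF d N).card : ℝ) :=
        mul_le_mul hc1 hc2 (Nat.cast_nonneg _) (Nat.cast_nonneg _)
      calc ((l + 1 - 1 : ℕ) : ℝ) * (((boxF d l).card : ℝ) *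
            (2 * Real.exp (l * L + L' + T * R) * Real.exp (T * (R + (‖u‖ + |s|)) - Γ)))
          = (((l + 1 - 1 : ℕ) : ℝ) * ((boxF d l).card : ℝ)) *
            Real.exp (T * (R + (‖u‖ + |s|)) - Γ) * (2 * Real.exp (l * L + L' + T * R)) := by ring
        _ ≤ (N * ((boxF d N).card : ℝ)) *
            Real.exp (T * (R + (‖u‖ + |s|)) - Γ) * (2 * Real.exp (l * L + L' + T * R)) := by
            gcongr
        _ ≤ 1 / 2 * (2 * Real.exp (l * L + L' + T * R)) :=
            mul_le_mul_of_nonneg_right hS (by positivity)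
        _ = Real.exp (l * L + L' + T * R) := by ring
    linarith

lemma sh_zero (η : Env d) : sh 0 0 η = η := by
  funext p
  show η (p.1 + 0, p.2 + 0) = η p
  rw [add_zero, add_zero]

/-- **The cut, deterministic, slab form.** -/
theorem cut54 (hd : 0 < d) (β : ℝ) (h u : Vec d) (s T R : ℝ) (hT : 0 ≤ T) (hR : 0 ≤ R)
    {η : Env d} {N : ℕ} {L L' Γ : ℝ} (hG : ∀ t l : ℕ, t + l ≤ N → ∀ x ∈ boxF d t,
      Z β h (sh t x η) l ≤ Real.exp (l * L + L'))
    (hE : ∀ t τ : ℕ, t + τ ≤ N → 1 ≤ τ → ∀ x ∈ boxF d t, ∀ D ∈ boxF d τ,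
      R < |psi u s τ D| → |psi u s τ D| ≤ R + (‖u‖ + |s|) →
      PP β h (sh t x η) τ D ≤ Real.exp (τ * L - Γ))
    (hS : N * ((boxF d N).card : ℝ) * Real.exp (T * (R + (‖u‖ + |s|)) - Γ) ≤ 1 / 2) :
    X β (h + T • u) η N ≤ N * L + N * (T * s) + T * R + L' + Real.log 2 := by
  have h0 : (0 : Site d) ∈ boxF d 0 := by
    rw [mem_boxF]
    intro j
    simp
  have h1 := rec_all β h u s T R hT hR hG hE hS N 0 (by omega) 0 h0
  rw [sh_zero] at h1
  have h2 : Z β (h + T • u) η N ≤ Real.exp (N * (T * s)) * Wm β h u s T η N := by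
    rw [Z_eq]
    unfold Wm
    rw [Finset.mul_sum]
    refine Finset.sum_le_sum fun q _ => ?_
    unfold wgt
    rw [← Real.exp_add, ← Real.exp_add]
    refine Real.exp_le_exp.2 ?_
    rw [inner_add_left, real_inner_smul_left]
    have h3 : inner ℝ u (emb (pos q N)) = psi u s N (pos q N) + N * s := by
      unfold psi
      ring
    have h4 := mul_le_mul_of_nonneg_left (le_abs_self (psi u s N (pos q N))) hT
    rw [h3]
    nlinarith
  have h3 : Z β (h + T • u) η N ≤ Real.exp (N * L + N * (T * s) + T * R + L' + Real.log 2) := by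
    refine h2.trans ((mul_le_mul_of_nonneg_left h1 (Real.exp_pos _).le).trans (le_of_eq ?_))
    have e1 : (2 : ℝ) = Real.exp (Real.log 2) := (Real.exp_log (by norm_num)).symm
    rw [show Real.exp (N * L + N * (T * s) + T * R + L' + Real.log 2) =
      Real.exp (N * L + N * (T * s) + T * R + L') * 2 by rw [Real.exp_add, Real.exp_log (by norm_num)]]
    rw [show Real.exp (N * (T * s)) * (2 * Real.exp (N * L + L' + T * R)) =
      (Real.exp (N * (T * s)) * Real.exp (N * L + L' + T * R)) * 2 by ring, ← Real.exp_add]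
    congr 2
    ring
  unfold X
  have h4 := Real.log_le_log (Z_pos hd β (h + T • u) η N) h3
  rwa [Real.log_exp] at h4

section prob

variable {ρ : Measure ℝ} [IsProbabilityMeasure ρ]

omit [IsProbabilityMeasure ρ] in
lemma union_le {ι : Type*} (S : Finset ι) (A : ι → Set (Env d)) {c : ℝ}
    (h : ∀ i ∈ S, (law d ρ).real (A i) ≤ c) : (law d ρ).real (⋃ i ∈ S, A i) ≤ S.card * c := by
  refine (measureReal_biUnion_finset_le S A).trans ?_
  rw [← nsmul_eq_mul]
  exact Finset.sum_le_card_nsmul _ _ _ h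

lemma real_sh (t : ℕ) (x : Site d) {S : Set (Env d)} (hS : MeasurableSet S) :
    (law d ρ).real {η | sh t x η ∈ S} = (law d ρ).real S := by
  unfold Measure.real
  congr 1
  exact (mp_sh (ρ := ρ) t x).measure_preimage hS.nullMeasurableSet

lemma measurable_PP (β : ℝ) (h : Vec d) (m : ℕ) (z : Site d) :
    Measurable fun η : Env d => PP β h η m z := measurable_ZT β h _

/-- **The cut: one piece is cheap with a polynomial probability.** -/
theorem one54 (hd : 0 < d) (β : ℝ) (h u : Vec d) {s T R L L' Γ ε δ : ℝ} {N : ℕ} (hN : 1 ≤ N)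
    (hT : 0 ≤ T) (hR : 0 ≤ R) (hε : 0 < ε)
    (h0 : ε ≤ (law d ρ).real
      {η | N * L + N * (T * s) + T * R + L' + 1 ≤ X β (h + T • u) η N})
    (h1 : ∀ l ≤ N, (law d ρ).real {η | l * L + L' < X β h η l} ≤ δ)
    (hδ : ((N : ℝ) + 1) ^ 2 * (boxF d N).card * δ ≤ ε / 2)
    (hS : N * ((boxF d N).card : ℝ) * Real.exp (T * (R + (‖u‖ + |s|)) - Γ) ≤ 1 / 2) :
    ∃ τ : ℕ, 1 ≤ τ ∧ τ ≤ N ∧ ∃ D ∈ boxF d τ, R < |psi u s τ D| ∧
      |psi u s τ D| ≤ R + (‖u‖ + |s|) ∧
      ε ≤ 4 * (((N : ℝ) + 1) ^ 2 * ((boxF d N).card : ℝ) ^ 2) *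
        (law d ρ).real {η | Real.exp (τ * L - Γ) < PP β h η τ D} := by
  classical
  by_contra hcon
  push Not at hcon
  have hcard : 0 < ((boxF d N).card : ℝ) := by
    have : (0 : Site d) ∈ boxF d N := by
      rw [mem_boxF]
      intro j
      simp
    exact_mod_cast Finset.card_pos.2 ⟨0, this⟩
  set M : ℝ := ((N : ℝ) + 1) ^ 2 * ((boxF d N).card : ℝ) ^ 2 with hM
  have hM0 : 0 < M := by positivity
  -- the first bad event
  let I1 : Finset ((ℕ × ℕ) × Site d) := (Finset.range (N + 1) ×ˢ Finset.range (N + 1)) ×ˢ boxF d N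
  let B1 : Set (Env d) := ⋃ i ∈ I1, {η | i.1.2 * L + L' < X β h (sh i.1.1 i.2 η) i.1.2}
  have hB1 : (law d ρ).real B1 ≤ ε / 2 := by
    have h2 : (law d ρ).real B1 ≤ I1.card * δ := by
      refine union_le I1 _ fun i hi => ?_
      have hi1 := (Finset.mem_product.1 (Finset.mem_product.1 hi).1).2
      have h3 : MeasurableSet {η : Env d | i.1.2 * L + L' < X β h η i.1.2} :=
        measurableSet_lt measurable_const (measurable_X β h i.1.2)
      have h4 := real_sh (ρ := ρ) i.1.1 i.2 h3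
      simp only [Set.mem_ofPred_eq] at h4
      rw [h4]
      exact h1 _ (by have := Finset.mem_range.1 hi1; omega)
    refine h2.trans (le_trans (le_of_eq ?_) hδ)
    rw [Finset.card_product, Finset.card_product, Finset.card_range]
    push_cast
    ring
  -- the second bad event
  let I2 : Finset (((ℕ × ℕ) × Site d) × Site d) :=
    (((Finset.range (N + 1) ×ˢ Finset.range (N + 1)) ×ˢ boxF d N) ×ˢ boxF d N).filter fun i =>
      1 ≤ i.1.1.2 ∧ i.2 ∈ boxF d i.1.1.2 ∧ R < |psi u s i.1.1.2 i.2| ∧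
        |psi u s i.1.1.2 i.2| ≤ R + (‖u‖ + |s|)
  let B2 : Set (Env d) := ⋃ i ∈ I2,
    {η | Real.exp (i.1.1.2 * L - Γ) < PP β h (sh i.1.1.1 i.1.2 η) i.1.1.2 i.2}
  have hB2 : (law d ρ).real B2 ≤ ε / 4 := by
    have h2 : (law d ρ).real B2 ≤ I2.card * (ε / (4 * M)) := by
      refine union_le I2 _ fun i hi => ?_
      obtain ⟨hi0, hi1, hi2, hi3, hi4⟩ := Finset.mem_filter.1 hi
      have hi5 := (Finset.mem_product.1 (Finset.mem_product.1 (Finset.mem_product.1 hi0).1).1).2
      have h3 : MeasurableSet {η : Env d | Real.exp (i.1.1.2 * L - Γ) < PP β h η i.1.1.2 i.2} :=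
        measurableSet_lt measurable_const (measurable_PP β h i.1.1.2 i.2)
      have h4 := real_sh (ρ := ρ) i.1.1.1 i.1.2 h3
      simp only [Set.mem_ofPred_eq] at h4
      rw [h4]
      have h5 := hcon i.1.1.2 hi1 (by have := Finset.mem_range.1 hi5; omega) i.2 hi2 hi3 hi4
      rw [le_div_iff₀ (by positivity)]
      linarith
    refine h2.trans ?_
    have h3 : (I2.card : ℝ) ≤ M := by
      have h4 : I2.card ≤
          (((Finset.range (N + 1) ×ˢ Finset.range (N + 1)) ×ˢ boxF d N) ×ˢ boxF d N).card :=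
        Finset.card_filter_le _ _
      rw [Finset.card_product, Finset.card_product, Finset.card_product, Finset.card_range] at h4
      have h5 : (I2.card : ℝ) ≤ (((N + 1) * (N + 1) * (boxF d N).card * (boxF d N).card : ℕ) : ℝ) := by
        exact_mod_cast h4
      refine h5.trans (le_of_eq ?_)
      rw [hM]
      push_cast
      ring
    calc (I2.card : ℝ) * (ε / (4 * M)) ≤ M * (ε / (4 * M)) :=
          mul_le_mul_of_nonneg_right h3 (by positivity)
      _ = ε / 4 := by field_simp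
  -- the good event
  have hsub : {η : Env d | N * L + N * (T * s) + T * R + L' + 1 ≤ X β (h + T • u) η N} ⊆
      B1 ∪ B2 := by
    intro η hη
    by_contra hnot
    rw [Set.mem_union, not_or] at hnot
    obtain ⟨hn1, hn2⟩ := hnot
    have hη' : N * L + N * (T * s) + T * R + L' + 1 ≤ X β (h + T • u) η N := hη
    have hG : ∀ t l : ℕ, t + l ≤ N → ∀ x ∈ boxF d t,
        Z β h (sh t x η) l ≤ Real.exp (l * L + L') := by
      intro t l htl x hx
      have h2 : ¬ (l * L + L' < X β h (sh t x η) l) := by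
        intro h3
        apply hn1
        refine Set.mem_iUnion₂.2 ⟨((t, l), x), ?_, h3⟩
        exact Finset.mem_product.2 ⟨Finset.mem_product.2 ⟨Finset.mem_range.2 (by simp only; omega),
          Finset.mem_range.2 (by simp only; omega)⟩, box_mono (by omega) hx⟩
      rw [TubV_exp hd β h (sh t x η) l]
      exact Real.exp_le_exp.2 (not_lt.1 h2)
    have hE : ∀ t τ : ℕ, t + τ ≤ N → 1 ≤ τ → ∀ x ∈ boxF d t, ∀ D ∈ boxF d τ,
        R < |psi u s τ D| → |psi u s τ D| ≤ R + (‖u‖ + |s|) →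
        PP β h (sh t x η) τ D ≤ Real.exp (τ * L - Γ) := by
      intro t τ htτ hτ1 x hx D hD hD1 hD2
      by_contra h3
      rw [not_le] at h3
      apply hn2
      refine Set.mem_iUnion₂.2 ⟨(((t, τ), x), D), ?_, h3⟩
      refine Finset.mem_filter.2 ⟨?_, hτ1, hD, hD1, hD2⟩
      exact Finset.mem_product.2 ⟨Finset.mem_product.2 ⟨Finset.mem_product.2
        ⟨Finset.mem_range.2 (by simp only; omega), Finset.mem_range.2 (by simp only; omega)⟩,
        box_mono (by omega) hx⟩, box_mono (by omega) hD⟩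
    have h2 := cut54 hd β h u s T R hT hR hG hE hS
    have h3 := Real.log_two_lt_d9
    linarith
  have hfin : (law d ρ).real
      {η | N * L + N * (T * s) + T * R + L' + 1 ≤ X β (h + T • u) η N} ≤ ε / 2 + ε / 4 :=
    (measureReal_mono hsub).trans ((measureReal_union_le _ _).trans (add_le_add hB1 hB2))
  linarith

end prob

end C54

end Pool.Agent.W_7d29a1_PK
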