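import Pool.Agent.W_7d29a1_D2.Blk35
import Pool.Agent.W_7d29a1_D2.Crs74

/-!
If every macroscopic piece is expensive, then the free energy at a nearby tilt is small: an
exponential moment recursion, for a general gauge `G` of the displacement (the distance to `l v`, or
the absolute value of one component of it) (helper67).
-/

namespace Pool.Agent.W_7d29a1_PK

open MeasureTheory ProbabilityTheory Filter Topology Pool.Agent.W_MP_7d29a1_pr
  Pool.Agent.W_7d29a1_h46 Pool.Agent.W_7d29a1_h46u Pool.Agent.W_7d29a1_D2.B35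
  Pool.Agent.W_7d29a1_D2.Crs74

namespace C67

variable {d : ℕ}

/-- A gauge of the displacement: subadditive, `0` at the start, at most `c` after one step. -/
structure Gau (d : ℕ) (G : ℕ → Site d → ℝ) (c : ℝ) : Prop where
  zero : G 0 0 ≤ 0
  add : ∀ (i k : ℕ) (x y : Site d), G (i + k) (x + y) ≤ G i x + G k y
  one : ∀ e : Step d, G 1 (vec e) ≤ c

/-- The exponential moment of the gauge after `l` steps. -/
noncomputable def EX (β : ℝ) (h : Vec d) (G : ℕ → Site d → ℝ) (T : ℝ) (η : Env d) (l : ℕ) : ℝ :=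
  ∑ s : Fin l → Step d, wgt β h η s * Real.exp (T * G l (pos s l))

lemma EX_nonneg (β : ℝ) (h : Vec d) (G : ℕ → Site d → ℝ) (T : ℝ) (η : Env d) (l : ℕ) :
    0 ≤ EX β h G T η l :=
  Finset.sum_nonneg fun _ _ => mul_nonneg (wgt_pos _ _ _ _).le (Real.exp_pos _).le

lemma nrm_pos67 {l : ℕ} (s : Fin l → Step d) : ∀ i ≤ l, nrm (pos s i) ≤ i := by
  intro i
  induction i with
  | zero =>
    intro _
    rw [Crs_pos_zero, nrm_zero]
    simp
  | succ i ih =>
    intro hi
    rw [Crs_pos_succ s (show i < l by omega)]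
    refine (nrm_add_le _ _).trans ?_
    rw [nrm_vec]
    push_cast
    linarith [ih (by omega)]

lemma box67 {l : ℕ} (s : Fin l → Step d) {i : ℕ} (hi : i ≤ l) : pos s i ∈ boxF d i := by
  rw [mem_boxF]
  intro j
  have h1 := (abs_le_nrm (pos s i) j).trans (nrm_pos67 s i hi)
  exact_mod_cast h1

/-- A walk ends in the ball or is at a point of the shell at some time. -/
lemma exit67 {G : ℕ → Site d → ℝ} {c : ℝ} (hg : Gau d G c) {l : ℕ} (s : Fin l → Step d) {R : ℝ}
    (hR : 0 ≤ R) : (G l (pos s l) ≤ R) ∨ ∃ τ, 1 ≤ τ ∧ τ ≤ l ∧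
      R < G τ (pos s τ) ∧ G τ (pos s τ) ≤ R + c := by
  classical
  by_cases hl : G l (pos s l) ≤ R
  · exact Or.inl hl
  · right
    have hex : ∃ τ, ¬ (G τ (pos s τ) ≤ R) := ⟨l, hl⟩
    have hle : Nat.find hex ≤ l := Nat.find_min' hex hl
    have hsp := Nat.find_spec hex
    have hne : Nat.find hex ≠ 0 := by
      intro h0
      rw [h0, Crs_pos_zero] at hsp
      exact hsp (hg.zero.trans hR)
    obtain ⟨σ, hσ⟩ := Nat.exists_eq_succ_of_ne_zero hne
    have hσ' : Nat.find hex = σ + 1 := hσ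
    have hP : G σ (pos s σ) ≤ R := by
      by_contra hcon
      have := Nat.find_min' hex hcon
      omega
    rw [hσ'] at hsp hle
    refine ⟨σ + 1, by omega, hle, not_le.1 hsp, ?_⟩
    rw [Crs_pos_succ s (show σ < l by omega)]
    have h1 := hg.add σ 1 (pos s σ) (vec (s ⟨σ, by omega⟩))
    have h2 := hg.one (s ⟨σ, by omega⟩)
    linarith

open Classical in
/-- The points of the shell at the time `τ`. -/
noncomputable def shl (d : ℕ) (G : ℕ → Site d → ℝ) (c R : ℝ) (τ : ℕ) : Finset (Site d) :=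
  (boxF d τ).filter fun D => R < G τ D ∧ G τ D ≤ R + c

open Classical in
/-- The walks through the site `(τ, D)`. -/
lemma piece67 (β : ℝ) (h : Vec d) {G : ℕ → Site d → ℝ} {c : ℝ} (hg : Gau d G c) {T : ℝ}
    (hT : 0 ≤ T) (η : Env d) (τ k : ℕ) (D : Site d) :
    ∑ s : Fin (τ + k) → Step d, (if pos s τ = D then wgt β h η s *
      Real.exp (T * G (τ + k) (pos s (τ + k))) else 0) ≤
    PP β h η τ D * Real.exp (T * G τ D) * EX β h G T (sh τ D η) k := by
  rw [sum_glue]
  unfold PP ZT EX
  rw [Finset.sum_mul, Finset.sum_mul]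
  refine Finset.sum_le_sum fun s _ => ?_
  by_cases hs : pos s τ = D
  · rw [if_pos (show s ∈ {s : Fin τ → Step d | pos s τ = D} from hs), Finset.mul_sum]
    refine Finset.sum_le_sum fun q _ => ?_
    have h1 : pos (Fin.append s q) τ = D := by rw [pos_glue_le s q le_rfl, hs]
    rw [if_pos h1, wgt_glue, pos_glue_add, hs]
    have h3 : Real.exp (T * G (τ + k) (D + pos q k)) ≤
        Real.exp (T * G τ D) * Real.exp (T * G k (pos q k)) := by
      rw [← Real.exp_add, ← mul_add]
      exact Real.exp_le_exp.2 (mul_le_mul_of_nonneg_left (hg.add _ _ _ _) hT)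
    calc wgt β h η s * wgt β h (sh τ D η) q * Real.exp (T * G (τ + k) (D + pos q k))
        ≤ wgt β h η s * wgt β h (sh τ D η) q * (Real.exp (T * G τ D) *
          Real.exp (T * G k (pos q k))) :=
        mul_le_mul_of_nonneg_left h3 (mul_nonneg (wgt_pos _ _ _ _).le (wgt_pos _ _ _ _).le)
      _ = _ := by ring
  · rw [if_neg (show s ∉ {s : Fin τ → Step d | pos s τ = D} from hs), zero_mul, zero_mul]
    refine le_of_eq (Finset.sum_eq_zero fun q _ => if_neg ?_)
    rw [pos_glue_le s q le_rfl]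
    exact hs

/-- The recursion. -/
lemma rec67 (β : ℝ) (h : Vec d) {G : ℕ → Site d → ℝ} {c : ℝ} (hg : Gau d G c) {T R : ℝ}
    (hT : 0 ≤ T) (hR : 0 ≤ R) (η : Env d) (l : ℕ) :
    EX β h G T η l ≤ Z β h η l * Real.exp (T * R) +
      ∑ τ ∈ Finset.Icc 1 l, ∑ D ∈ shl d G c R τ, PP β h η τ D *
        Real.exp (T * G τ D) * EX β h G T (sh τ D η) (l - τ) := by
  classical
  have h1 : ∀ s : Fin l → Step d, wgt β h η s * Real.exp (T * G l (pos s l)) ≤
      wgt β h η s * Real.exp (T * R) + ∑ τ ∈ Finset.Icc 1 l, ∑ D ∈ shl d G c R τ,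
        (if pos s τ = D then wgt β h η s * Real.exp (T * G l (pos s l)) else 0) := by
    intro s
    have hw := (wgt_pos β h η s).le
    have hn : ∀ (τ : ℕ) (D : Site d), 0 ≤ (if pos s τ = D then wgt β h η s *
          Real.exp (T * G l (pos s l)) else 0) := by
      intro τ D
      split_ifs
      · exact mul_nonneg hw (Real.exp_pos _).le
      · exact le_rfl
    rcases exit67 hg s hR with h2 | ⟨τ, h2, h3, h4, h5⟩
    · have h6 : wgt β h η s * Real.exp (T * G l (pos s l)) ≤
          wgt β h η s * Real.exp (T * R) :=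
        mul_le_mul_of_nonneg_left (Real.exp_le_exp.2 (mul_le_mul_of_nonneg_left h2 hT)) hw
      have h7 : 0 ≤ ∑ τ ∈ Finset.Icc 1 l, ∑ D ∈ shl d G c R τ,
        (if pos s τ = D then wgt β h η s * Real.exp (T * G l (pos s l)) else 0) :=
        Finset.sum_nonneg fun τ _ => Finset.sum_nonneg fun D _ => hn τ D
      linarith
    · have h6 : 0 ≤ wgt β h η s * Real.exp (T * R) := mul_nonneg hw (Real.exp_pos _).le
      have h7 : wgt β h η s * Real.exp (T * G l (pos s l)) ≤
          ∑ τ ∈ Finset.Icc 1 l, ∑ D ∈ shl d G c R τ,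
        (if pos s τ = D then wgt β h η s * Real.exp (T * G l (pos s l)) else 0) := by
        have hD : pos s τ ∈ shl d G c R τ := Finset.mem_filter.2 ⟨box67 s h3, h4, h5⟩
        refine le_trans ?_ (Finset.single_le_sum
          (f := fun τ => ∑ D ∈ shl d G c R τ, (if pos s τ = D then wgt β h η s *
          Real.exp (T * G l (pos s l)) else 0))
          (fun τ _ => Finset.sum_nonneg fun D _ => hn τ D) (Finset.mem_Icc.2 ⟨h2, h3⟩))
        refine le_trans ?_ (Finset.single_le_sum
          (f := fun D => (if pos s τ = D then wgt β h η s *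
          Real.exp (T * G l (pos s l)) else 0))
          (fun D _ => hn τ D) hD)
        rw [if_pos rfl]
      linarith
  unfold EX
  refine (Finset.sum_le_sum fun s _ => h1 s).trans ?_
  rw [Finset.sum_add_distrib, Z_eq, Finset.sum_mul]
  refine add_le_add le_rfl ?_
  rw [Finset.sum_comm]
  refine Finset.sum_le_sum fun τ hτ => ?_
  rw [Finset.sum_comm]
  refine Finset.sum_le_sum fun D _ => ?_
  obtain ⟨k, rfl⟩ := Nat.exists_eq_add_of_le (Finset.mem_Icc.1 hτ).2
  have h2 := piece67 β h hg hT η τ k D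
  have h3 : τ + k - τ = k := by omega
  rw [h3]
  exact h2

lemma sh_sh67 (η : Env d) (t τ : ℕ) (x D : Site d) :
    sh τ D (sh t x η) = sh (t + τ) (x + D) η := by
  funext p
  unfold sh
  simp only
  congr 2
  · omega
  · abel

/-- **The exponential moment**, if every piece to the shell is expensive. -/
theorem mom67 (hd : 0 < d) (β : ℝ) (h : Vec d) {G : ℕ → Site d → ℝ} {c : ℝ} (hg : Gau d G c)
    (η : Env d) {N : ℕ} {L L' Γ R T : ℝ} (hT : 0 ≤ T) (hR : 0 ≤ R)
    (hG : ∀ (t l : ℕ) (x : Site d), t + l ≤ N → x ∈ boxF d t → X β h (sh t x η) l ≤ l * L + L')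
    (hE : ∀ (t τ : ℕ) (x D : Site d), 1 ≤ τ → t + τ ≤ N → x ∈ boxF d t → D ∈ shl d G c R τ →
      PP β h (sh t x η) τ D ≤ Real.exp (τ * L - Γ))
    (hΓ : N * (2 * (N : ℝ) + 1) ^ d * Real.exp (T * (R + c) - Γ) ≤ 1 / 2) :
    ∀ (l t : ℕ) (x : Site d), t + l ≤ N → x ∈ boxF d t →
      EX β h G T (sh t x η) l ≤ 2 * Real.exp (l * L + L' + T * R) := by
  intro l
  induction l using Nat.strong_induction_on with
  | _ l ih =>
    intro t x htl hx
    refine (rec67 β h hg hT hR (sh t x η) l).trans ?_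
    obtain ⟨W, hW⟩ : ∃ W : ℝ, W = Real.exp (l * L + L' + T * R) := ⟨_, rfl⟩
    have hW0 : 0 < W := by rw [hW]; exact Real.exp_pos _
    have h1 : Z β h (sh t x η) l * Real.exp (T * R) ≤ W := by
      have h2 : Z β h (sh t x η) l = Real.exp (X β h (sh t x η) l) := TubV_exp hd β h _ l
      rw [h2, hW, ← Real.exp_add]
      apply Real.exp_le_exp.2
      have := hG t l x htl hx
      linarith
    obtain ⟨b, hb⟩ : ∃ b : ℝ, b = Real.exp (T * (R + c) - Γ) := ⟨_, rfl⟩
    have hb0 : 0 < b := by rw [hb]; exact Real.exp_pos _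
    have h3 : ∀ τ ∈ Finset.Icc 1 l, ∀ D ∈ shl d G c R τ, PP β h (sh t x η) τ D *
        Real.exp (T * G τ D) * EX β h G T (sh τ D (sh t x η)) (l - τ) ≤
        b * (2 * W) := by
      intro τ hτ D hD
      obtain ⟨hτ1, hτ2⟩ := Finset.mem_Icc.1 hτ
      have hD2 := Finset.mem_filter.1 hD
      have e1 := hE t τ x D hτ1 (by omega) hx hD
      have e2 : Real.exp (T * G τ D) ≤ Real.exp (T * (R + c)) :=
        Real.exp_le_exp.2 (mul_le_mul_of_nonneg_left hD2.2.2 hT)
      have hbox : x + D ∈ boxF d (t + τ) := by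
        rw [mem_boxF] at hx ⊢
        intro j
        have b1 := hx j
        have b2 := (mem_boxF.1 hD2.1) j
        have b3 := abs_add_le (x j) (D j)
        show |x j + D j| ≤ ((t + τ : ℕ) : ℤ)
        push_cast
        linarith
      have e3 := ih (l - τ) (by omega) (t + τ) (x + D) (by omega) hbox
      rw [← sh_sh67] at e3
      have e4 : ((l - τ : ℕ) : ℝ) = (l : ℝ) - τ := by
        rw [Nat.cast_sub hτ2]
      rw [e4] at e3
      have p1 := PP_nonneg β h (sh t x η) τ D
      have p3 := EX_nonneg β h G T (sh τ D (sh t x η)) (l - τ)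
      have key : PP β h (sh t x η) τ D * Real.exp (T * G τ D) *
            EX β h G T (sh τ D (sh t x η)) (l - τ) ≤
          Real.exp (τ * L - Γ) * Real.exp (T * (R + c)) *
            (2 * Real.exp (((l : ℝ) - τ) * L + L' + T * R)) := by
        refine mul_le_mul (mul_le_mul e1 e2 (Real.exp_pos _).le (Real.exp_pos _).le) e3 p3 ?_
        positivity
      refine key.trans (le_of_eq ?_)
      rw [hb, hW]
      have h7 : Real.exp (τ * L - Γ) * Real.exp (T * (R + c)) *
          (2 * Real.exp (((l : ℝ) - τ) * L + L' + T * R)) =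
          2 * (Real.exp (τ * L - Γ) * Real.exp (T * (R + c)) *
            Real.exp (((l : ℝ) - τ) * L + L' + T * R)) := by ring
      have h8 : Real.exp (T * (R + c) - Γ) * (2 * Real.exp (l * L + L' + T * R)) =
          2 * (Real.exp (T * (R + c) - Γ) * Real.exp (l * L + L' + T * R)) := by ring
      rw [h7, h8, ← Real.exp_add, ← Real.exp_add, ← Real.exp_add]
      congr 2
      ring
    have h4 : ∑ τ ∈ Finset.Icc 1 l, ∑ D ∈ shl d G c R τ, PP β h (sh t x η) τ D *
        Real.exp (T * G τ D) * EX β h G T (sh τ D (sh t x η)) (l - τ) ≤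
        N * (2 * (N : ℝ) + 1) ^ d * (b * (2 * W)) := by
      have hl : l ≤ N := by omega
      have q1 : ∀ τ ∈ Finset.Icc 1 l, ∑ D ∈ shl d G c R τ, PP β h (sh t x η) τ D *
        Real.exp (T * G τ D) * EX β h G T (sh τ D (sh t x η)) (l - τ) ≤
          (2 * (N : ℝ) + 1) ^ d * (b * (2 * W)) := by
        intro τ hτ
        have hτN : τ ≤ N := (Finset.mem_Icc.1 hτ).2.trans hl
        refine (Finset.sum_le_card_nsmul _ _ _ (h3 τ hτ)).trans ?_
        rw [nsmul_eq_mul]
        refine mul_le_mul_of_nonneg_right ?_ (by positivity)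
        have c1 : (shl d G c R τ).card ≤ (2 * N + 1) ^ d := by
          refine (Finset.card_filter_le _ _).trans ?_
          rw [card_boxF]
          exact Nat.pow_le_pow_left (by omega) d
        have c2 : ((shl d G c R τ).card : ℝ) ≤ (((2 * N + 1) ^ d : ℕ) : ℝ) := by exact_mod_cast c1
        refine c2.trans (le_of_eq ?_)
        push_cast
        ring
      refine (Finset.sum_le_card_nsmul _ _ _ q1).trans ?_
      rw [nsmul_eq_mul, Nat.card_Icc, mul_assoc]
      refine mul_le_mul_of_nonneg_right ?_ (by positivity)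
      have : l + 1 - 1 ≤ N := by omega
      exact_mod_cast this
    have h5 : N * (2 * (N : ℝ) + 1) ^ d * (b * (2 * W)) ≤ W := by
      have h6 : N * (2 * (N : ℝ) + 1) ^ d * (b * (2 * W)) =
        (N * (2 * (N : ℝ) + 1) ^ d * b) * (2 * W) := by ring
      rw [h6]
      rw [← hb] at hΓ
      nlinarith
    rw [← hW]
    linarith

/-- **The cut**: if every macroscopic piece is expensive, then the free energy at the tilt `h + r`
is small. -/
theorem cut67 (hd : 0 < d) (β : ℝ) (h r : Vec d) {G : ℕ → Site d → ℝ} {c : ℝ} (hg : Gau d G c)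
    (η : Env d) {N : ℕ} {L L' Γ R T b : ℝ} (hT : 0 ≤ T) (hR : 0 ≤ R)
    (hr : ∀ x : Site d, inner ℝ r (emb x) ≤ N * b + T * G N x)
    (hG : ∀ (t l : ℕ) (x : Site d), t + l ≤ N → x ∈ boxF d t → X β h (sh t x η) l ≤ l * L + L')
    (hE : ∀ (t τ : ℕ) (x D : Site d), 1 ≤ τ → t + τ ≤ N → x ∈ boxF d t → D ∈ shl d G c R τ →
      PP β h (sh t x η) τ D ≤ Real.exp (τ * L - Γ))
    (hΓ : N * (2 * (N : ℝ) + 1) ^ d * Real.exp (T * (R + c) - Γ) ≤ 1 / 2) :
    X β (h + r) η N ≤ N * L + N * b + T * R + L' + Real.log 2 := by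
  have h0 : sh 0 0 η = η := TubV_sh η
  have h1 := mom67 hd β h hg η hT hR hG hE hΓ N 0 0 (by omega) (zero_mem_boxF 0)
  rw [h0] at h1
  have h2 : Z β (h + r) η N ≤ Real.exp (N * b) * EX β h G T η N := by
    rw [Z_eq]
    unfold EX
    rw [Finset.mul_sum]
    refine Finset.sum_le_sum fun s _ => ?_
    have h3 : wgt β (h + r) η s = wgt β h η s * Real.exp (inner ℝ r (emb (pos s N))) := by
      unfold wgt
      rw [← Real.exp_add, inner_add_left]
      congr 1
      ring
    rw [h3]
    have h6 := Real.exp_le_exp.2 (hr (pos s N))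
    rw [Real.exp_add] at h6
    refine (mul_le_mul_of_nonneg_left h6 (wgt_pos _ _ _ _).le).trans (le_of_eq ?_)
    ring
  have h3 : Z β (h + r) η N ≤ Real.exp (N * L + N * b + T * R + L' + Real.log 2) := by
    refine h2.trans ((mul_le_mul_of_nonneg_left h1 (Real.exp_pos _).le).trans (le_of_eq ?_))
    have h4 : Real.exp (N * b) * (2 * Real.exp (N * L + L' + T * R)) =
      (Real.exp (N * b) * Real.exp (N * L + L' + T * R)) * Real.exp (Real.log 2) := by
      rw [Real.exp_log (show (0 : ℝ) < 2 by norm_num)]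
      ring
    rw [h4, ← Real.exp_add, ← Real.exp_add]
    congr 1
    ring
  unfold X
  have h4 := Real.log_le_log (Z_pos hd β (h + r) η N) h3
  rwa [Real.log_exp] at h4

/-! ### The two gauges -/

/-- The absolute value of one component of the displacement. -/
noncomputable def gS {d : ℕ} (u : Vec d) (s : ℝ) (i : ℕ) (x : Site d) : ℝ :=
  |inner ℝ u (emb x) - i * s|

lemma gau_S (u : Vec d) (s : ℝ) : Gau d (gS u s) (‖u‖ + |s|) where
  zero := by
    unfold gS
    have h3 : emb (0 : Site d) = 0 := by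
      ext j
      simp [emb]
    rw [h3]
    simp
  add := by
    intro i k x y
    unfold gS
    rw [Walk_emb_add, inner_add_right]
    have h1 : inner ℝ u (emb x) + inner ℝ u (emb y) - ((i + k : ℕ) : ℝ) * s =
        (inner ℝ u (emb x) - i * s) + (inner ℝ u (emb y) - k * s) := by
      push_cast
      ring
    rw [h1]
    exact abs_add_le _ _
  one := by
    intro e
    unfold gS
    have h1 := abs_sub (inner ℝ u (emb (vec e))) (((1 : ℕ) : ℝ) * s)
    have h2 := abs_real_inner_le_norm u (emb (vec e))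
    rw [Crs_norm_vec, mul_one] at h2
    have h3 : |((1 : ℕ) : ℝ) * s| = |s| := by simp
    rw [h3] at h1
    linarith

/-- The distance to `i v`. -/
noncomputable def gT {d : ℕ} (v : Vec d) (i : ℕ) (x : Site d) : ℝ := ‖emb x - (i : ℝ) • v‖

lemma gau_T (v : Vec d) : Gau d (gT v) (1 + ‖v‖) where
  zero := by
    unfold gT
    have h3 : emb (0 : Site d) = 0 := by
      ext j
      simp [emb]
    rw [h3]
    simp
  add := by
    intro i k x y
    unfold gT
    rw [Walk_emb_add]
    have h1 : emb x + emb y - ((i + k : ℕ) : ℝ) • v =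
        (emb x - (i : ℝ) • v) + (emb y - (k : ℝ) • v) := by
      push_cast
      rw [add_smul]
      abel
    rw [h1]
    exact norm_add_le _ _
  one := by
    intro e
    unfold gT
    have h1 := norm_sub_le (emb (vec e)) (((1 : ℕ) : ℝ) • v)
    rw [Crs_norm_vec] at h1
    have h2 : ‖((1 : ℕ) : ℝ) • v‖ = ‖v‖ := by simp
    rw [h2] at h1
    exact h1

end C67

end Pool.Agent.W_7d29a1_PK
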