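import Pool.Agent.W_7d29a1_PK.DefsPK2

/-!
The leaf DEC (helper16): the mass outside the slab, from the passage at the time `τ`.
-/

namespace Pool.Agent.W_7d29a1_PK

open MeasureTheory ProbabilityTheory Filter Topology Pool.Agent.W_MP_7d29a1_pr
  Pool.Agent.W_7d29a1_h46 Pool.Agent.W_7d29a1_h46u Pool.Agent.W_7d29a1_D2
  Pool.Agent.W_7d29a1_D2.B35 Pool.Agent.W_7d29a1_Q29 Pool.Agent.W_7d29a1_R34
  Pool.Agent.W_7d29a1_SP Pool.Agent.W_7d29a1_V

theorem dec16 {d : ℕ} (hd : 0 < d) (β : ℝ) : DecPK d β := by
  classical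
  intro h w s η N τ D r a b α γ hr hD ha hb hα hγ
  have hdis : Disjoint (Pool.Agent.W_7d29a1_V.slb d (τ + N) w s r)
      {q : Fin (τ + N) → Step d | pos q τ = D} := by
    rw [Set.disjoint_left]
    intro q hq hq'
    have h1 := hq τ (Nat.le_add_right τ N)
    have h2 : pos q τ = D := hq'
    rw [h2] at h1
    exact absurd h1 (not_le.2 hD)
  have e0 := ZT_disjoint β h η hdis
  have e1 : Real.exp (a + α) ≤ ZT β h η {q : Fin (τ + N) → Step d | pos q τ = D} := by
    have h1 : PP β h η τ D * Z β h (sh τ D η) N ≤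
        ZT β h η {q : Fin (τ + N) → Step d | pos q τ = D} := by
      unfold PP ZT
      rw [Finset.sum_mul, sum_glue]
      refine Finset.sum_le_sum fun p _ => ?_
      by_cases hp : p ∈ {p : Fin τ → Step d | pos p τ = D}
      · have hp' : pos p τ = D := hp
        rw [if_pos hp, Z_eq, Finset.mul_sum]
        refine Finset.sum_le_sum fun q _ => ?_
        rw [if_pos, wgt_glue, hp']
        show pos (Fin.append p q) τ = D
        rw [pos_glue_le p q le_rfl, hp']
      · rw [if_neg hp, zero_mul]
        refine Finset.sum_nonneg fun q _ => ?_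
        split_ifs
        · exact (wgt_pos _ _ _ _).le
        · exact le_rfl
    refine le_trans ?_ h1
    rw [Real.exp_add, TubV_exp hd β h (sh τ D η) N]
    exact mul_le_mul ha (Real.exp_le_exp.2 hα) (Real.exp_pos _).le (PP_nonneg _ _ _ _ _)
  have e2 : ZT β h η (Pool.Agent.W_7d29a1_V.slb d (τ + N) w s r) ≤ Real.exp (b + γ) := by
    have h1 : ZT β h η (Pool.Agent.W_7d29a1_V.slb d (τ + N) w s r) ≤
        Z β h η τ * Real.exp γ := by
      rw [Z_eq, Finset.sum_mul]
      unfold ZT
      rw [sum_glue]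
      refine Finset.sum_le_sum fun p _ => ?_
      by_cases hp : |inner ℝ w (emb (pos p τ)) - τ * s| ≤ r
      · have h2 : Z β h (sh τ (pos p τ) η) N ≤ Real.exp γ := by
          rw [TubV_exp hd]
          exact Real.exp_le_exp.2 (hγ _ (pos_mem_box p τ) hp)
        refine le_trans ?_ (mul_le_mul_of_nonneg_left h2 (wgt_pos β h η p).le)
        rw [Z_eq, Finset.mul_sum]
        refine Finset.sum_le_sum fun q _ => ?_
        rw [← wgt_glue]
        split_ifs
        · exact le_rfl
        · exact (wgt_pos _ _ _ _).le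
      · rw [Finset.sum_eq_zero fun q _ => ?_]
        · exact mul_nonneg (wgt_pos _ _ _ _).le (Real.exp_pos _).le
        · rw [if_neg]
          intro hq
          apply hp
          have h3 := hq τ (Nat.le_add_right τ N)
          rwa [pos_glue_le p q le_rfl] at h3
    refine h1.trans ?_
    rw [Real.exp_add, TubV_exp hd]
    exact mul_le_mul_of_nonneg_right (Real.exp_le_exp.2 hb) (Real.exp_pos _).le
  have hT : 0 < ZT β h η (Set.univ : Set (Fin (τ + N) → Step d)) := ZT_univ_pos hd β h η
  have hM := ZT_nonneg β h η (Pool.Agent.W_7d29a1_V.slb d (τ + N) w s r)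
  have hP := Real.exp_pos (a + α)
  have hQ := Real.exp_pos (b + γ)
  unfold PolT
  generalize ZT β h η (Pool.Agent.W_7d29a1_V.slb d (τ + N) w s r) = M at *
  generalize ZT β h η (Set.univ : Set (Fin (τ + N) → Step d)) = T at *
  generalize Real.exp (a + α) = P at *
  generalize Real.exp (b + γ) = Q at *
  have h1 : M / T ≤ Q / (P + Q) := by
    rw [div_le_div_iff₀ hT (by positivity)]
    nlinarith
  have h2 : P / (P + Q) = 1 - Q / (P + Q) := by
    field_simp
    ring
  rw [h2]
  linarith

end Pool.Agent.W_7d29a1_PK
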