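import Pool.Agent.W_7d29a1_PK.DefsPK2

/-!
A power lower bound for the free energy at every tilt (THEOREM CV): definitions and frozen
statements of the leaves (helper24).
-/

namespace Pool.Agent.W_7d29a1_PK

open MeasureTheory ProbabilityTheory Filter Topology Pool.Agent.W_MP_7d29a1_pr
  Pool.Agent.W_7d29a1_h46 Pool.Agent.W_7d29a1_h46u Pool.Agent.W_7d29a1_D2
  Pool.Agent.W_7d29a1_D2.B35 Pool.Agent.W_7d29a1_V

section Leaves

variable (d : ℕ) (ρ : Measure ℝ) (β : ℝ)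

/-- ONES (scale wise, `O60.core60` with a free tilt `t`): one scale `N`, one size `t` of the tilt.
The free energy at the tilts `h ± t e_j` is at most `B` above the linear one. -/
def OneS : Prop := ∀ (h v : Vec d) (x : ℝ), 0 < x → x < 1 → ∀ q : ℕ, ∃ Q : ℝ, ∃ N₀ : ℕ,
  ∀ N : ℕ, N₀ ≤ N →
    (law d ρ).real {η | N * lam ρ β h + (N : ℝ) ^ x ≤ X β h η N} < (N : ℝ) ^ (-Q) →
    ∀ t w B : ℝ, 0 < t → 0 < w → 0 ≤ B → (∀ r : Vec d, ‖r‖ = t → gap (lam ρ β) h v r ≤ B) →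
      N * B + 13 * (N : ℝ) ^ x ≤ t * w →
      ∫ η, (1 - PolT β h η (tube d N v (d * w))) ∂(law d ρ) ≤ (N : ℝ) ^ (-(q : ℝ))

/-- NPS (one scale, from `NuLow34.core34` and `SpaceV`): the polymer leaves the tube of radius
`N ^ a`, `a < 1 / (d + 1)`, at every large length. -/
def NpS : Prop := ∀ (h v : Vec d) (a : ℝ), 0 < a → (d + 1) * a < 1 → ∃ κ : ℝ, 0 < κ ∧ ∃ N₀ : ℕ,
  ∀ N : ℕ, N₀ ≤ N → κ ≤ ∫ η, (1 - PolT β h η (tube d N v ((N : ℝ) ^ a))) ∂(law d ρ)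

/-- TUBS (one scale, from `V.tubeV` with `W = N ^ a`, Markov and `A ≤ N lam`): the upper tail from
the tube. -/
def TubS : Prop := ∀ (h v : Vec d) (a x : ℝ), 0 < a → a < 1 → a < 2 * x → ∀ Q : ℝ, ∃ q : ℕ,
  ∃ N₀ : ℕ, ∀ N : ℕ, N₀ ≤ N →
    ∫ η, (1 - PolT β h η (tube d N v ((N : ℝ) ^ a))) ∂(law d ρ) ≤ (N : ℝ) ^ (-(q : ℝ)) →
    (law d ρ).real {η | N * lam ρ β h + (N : ℝ) ^ x ≤ X β h η N} < (N : ℝ) ^ (-Q)

/-- **THEOREM CV**: a power lower bound of the free energy at every tilt and every velocity. -/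
def CvT : Prop := ∀ (h v : Vec d) (p : ℝ), 2 * (d : ℝ) + 1 < p → LoA (lam ρ β) h v p

/-- **THEOREM CV at the tilt `0`**, all directions. -/
def CvZ : Prop := ∀ p : ℝ, 2 * (d : ℝ) + 1 < p → ∃ c : ℝ, 0 < c ∧ ∀ h : Vec d, ‖h‖ ≤ 1 →
  lam ρ β (0 : Vec d) + c * ‖h‖ ^ p ≤ lam ρ β h

end Leaves

end Pool.Agent.W_7d29a1_PK
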