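import Pool.Agent.W_7d29a1_PK.DefsLK5
import Pool.Agent.W_7d29a1_D2.K2F20
import Pool.Agent.W_7d29a1_KL.SubD46

/-!
A dense set of tilts where the two scaling relations hold without any hypothesis about the free
energy: from the arrows of the KPZ relation to the dense set, and to the points of continuity of
the exponents.
-/

set_option autoImplicit false

namespace Pool.Agent.W_7d29a1_PK.Dn11

open MeasureTheory ProbabilityTheory Filter Topology Pool.Agent.W_MP_7d29a1_pr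
  Pool.Agent.W_7d29a1_h46 Pool.Agent.W_7d29a1_h46u Pool.Agent.W_7d29a1_D2
  Pool.Agent.W_7d29a1_KL

variable {d : ℕ}

/-- A lower bound of order `2` at small scales excludes an upper bound of order `p > 2`. -/
lemma not_up11 {L : Vec d → ℝ} {h v : Vec d} {p : ℝ} (hp : 2 < p) (hl : LoG L h v 2) :
    ¬ UpG L h v p := by
  rintro ⟨C, δ, hδ, hC⟩
  obtain ⟨c, hc, hL⟩ := hl
  -- a small scale
  have ht : Tendsto (fun t : ℝ => |C| * t ^ (p - 2)) (𝓝 0) (𝓝 (|C| * 0 ^ (p - 2))) :=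
    (continuousAt_const.mul (Real.continuousAt_rpow_const 0 (p - 2) (Or.inr (by linarith)))).tendsto
  rw [Real.zero_rpow (by linarith), mul_zero] at ht
  obtain ⟨s, hs, hs'⟩ := Metric.eventually_nhds_iff.1 (ht.eventually (gt_mem_nhds hc))
  obtain ⟨r, hr0, hr1, hr2⟩ := hL (min δ (s / 2)) (lt_min hδ (by linarith))
  have h1 := hC r (hr1.trans (min_le_left _ _))
  have h2 : |C| * ‖r‖ ^ (p - 2) < c := by
    refine hs' ?_
    rw [Real.dist_eq, sub_zero, abs_of_pos hr0]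
    exact (hr1.trans (min_le_right _ _)).trans_lt (by linarith)
  have h3 : ‖r‖ ^ p = ‖r‖ ^ (p - 2) * ‖r‖ ^ (2 : ℝ) := by
    rw [← Real.rpow_add hr0]
    congr 1
    ring
  have h4 : 0 < ‖r‖ ^ (2 : ℝ) := Real.rpow_pos_of_pos hr0 _
  have h5 : C * ‖r‖ ^ p ≤ |C| * ‖r‖ ^ (p - 2) * ‖r‖ ^ (2 : ℝ) := by
    rw [h3, ← mul_assoc]
    refine mul_le_mul_of_nonneg_right ?_ h4.le
    exact mul_le_mul_of_nonneg_right (le_abs_self C) (Real.rpow_nonneg hr0.le _)
  have h6 : |C| * ‖r‖ ^ (p - 2) * ‖r‖ ^ (2 : ℝ) < c * ‖r‖ ^ (2 : ℝ) :=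
    mul_lt_mul_of_pos_right h2 h4
  linarith

/-- **The dense set**, from the arrows. -/
theorem dense11 {L : Vec d → ℝ} (hc : ConvexOn ℝ Set.univ L)
    (hna : ∀ U : Set (Vec d), IsOpen U → U.Nonempty → ∀ (v : Vec d) (c : ℝ),
      ∃ h ∈ U, L h ≠ c + inner ℝ h v)
    {cl cs : Vec d → ℝ} {nl ns : Vec d → Vec d → ℝ}
    (hA : ∀ (h v : Vec d) (p : ℝ), 1 < p → UpG L h v p → p * ns h v ≤ 1 + (p - 1) * cs h)
    (hA' : ∀ (h v : Vec d) (p : ℝ), 1 < p → UpG L h v p → p * nl h v ≤ 1 + (p - 1) * cl h)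
    (hB : ∀ (h v : Vec d) (p : ℝ), 1 < p → ¬ UpG L h v p → 1 + (p - 1) * cl h ≤ p * ns h v) :
    ∀ U : Set (Vec d), IsOpen U → U.Nonempty → ∃ h ∈ U, ∃ v : Vec d, SubG L h v ∧
      UpG L h v 2 ∧ 2 * nl h v - 1 ≤ cl h ∧ cl h ≤ 2 * ns h v - 1 ∧ 2 * ns h v - 1 ≤ cs h := by
  intro U hU hne
  obtain ⟨h, hh, v, hu, hl, hg⟩ := k2_20 hc hna U hU hne
  refine ⟨h, hh, v, fun k => ?_, hu, ?_, ?_, ?_⟩
  · have := hg k
    unfold gap at this
    linarith
  · have := hA' h v 2 (by norm_num) hu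
    linarith
  · -- `p` decreases to `2`
    have h1 : ∀ p : ℝ, 2 < p → 1 + (p - 1) * cl h ≤ p * ns h v := fun p hp =>
      hB h v p (by linarith) (not_up11 hp hl)
    have h2 : 1 + (2 - 1) * cl h ≤ 2 * ns h v := by
      have hf : Tendsto (fun p : ℝ => p * ns h v - (1 + (p - 1) * cl h)) (𝓝[>] 2)
          (𝓝 (2 * ns h v - (1 + (2 - 1) * cl h))) := by
        refine tendsto_nhdsWithin_of_tendsto_nhds ?_
        have : Continuous fun p : ℝ => p * ns h v - (1 + (p - 1) * cl h) := by fun_prop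
        exact this.tendsto 2
      have h3 : 0 ≤ 2 * ns h v - (1 + (2 - 1) * cl h) := by
        refine ge_of_tendsto hf ?_
        filter_upwards [self_mem_nhdsWithin] with p hp
        have := h1 p hp
        linarith
      linarith
    linarith
  · have := hA h v 2 (by norm_num) hu
    linarith

/-- **The points of continuity**: if the two fluctuation exponents agree at `h` and the exponents
are continuous there, then the KPZ relation holds at `h`. -/
theorem cont11 {L : Vec d → ℝ} {cl cs : Vec d → ℝ} {ns : Vec d → Vec d → ℝ}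
    (hD : ∀ U : Set (Vec d), IsOpen U → U.Nonempty → ∃ h ∈ U, ∃ v : Vec d, SubG L h v ∧
      cl h ≤ 2 * ns h v - 1 ∧ 2 * ns h v - 1 ≤ cs h)
    {h v : Vec d} (he : cl h = cs h) (hcl : ContinuousAt cl h) (hcs : ContinuousAt cs h)
    (hns : ∀ ε : ℝ, 0 < ε → ∃ δ : ℝ, 0 < δ ∧ ∀ h' v' : Vec d, ‖h' - h‖ < δ → SubG L h' v' →
      |ns h' v' - ns h v| < ε) :
    cs h = 2 * ns h v - 1 := by
  have key : ∀ ε : ℝ, 0 < ε → |cs h - (2 * ns h v - 1)| ≤ 3 * ε := by
    intro ε hε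
    obtain ⟨δ, hδ, H⟩ := hns ε hε
    obtain ⟨δ₁, hδ₁, H₁⟩ := Metric.continuousAt_iff.1 hcl ε hε
    obtain ⟨δ₂, hδ₂, H₂⟩ := Metric.continuousAt_iff.1 hcs ε hε
    obtain ⟨h', hh', v', hs, h1, h2⟩ := hD (Metric.ball h (min δ (min δ₁ δ₂))) Metric.isOpen_ball
      ⟨h, Metric.mem_ball_self (lt_min hδ (lt_min hδ₁ hδ₂))⟩
    rw [Metric.mem_ball] at hh'
    have d0 : ‖h' - h‖ < δ := by
      rw [← dist_eq_norm]
      exact hh'.trans_le (min_le_left _ _)
    have d1 := H₁ (hh'.trans_le ((min_le_right _ _).trans (min_le_left _ _)))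
    have d2 := H₂ (hh'.trans_le ((min_le_right _ _).trans (min_le_right _ _)))
    have d3 := H h' v' d0 hs
    rw [Real.dist_eq] at d1 d2
    rw [abs_lt] at d1 d2 d3
    rw [abs_le]
    constructor
    · linarith
    · linarith
  have h0 : |cs h - (2 * ns h v - 1)| ≤ 0 := by
    refine le_of_forall_pos_le_add fun ε hε => ?_
    have := key (ε / 3) (by positivity)
    linarith
  have := abs_nonpos_iff.1 h0
  linarith

end Pool.Agent.W_7d29a1_PK.Dn11
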