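import Pool.Agent.W_7d29a1_PK.DefsPK2
import Pool.Agent.W_7d29a1_h46u.LamU

/-!
Theorem PK: from the core estimate on one ray to the exponents. If at the times in `[N, 2 N]` the
polymer leaves the slab of width `c Lp N / t` with a polynomial probability, as soon as the gap at
`t` is `κ Lp N / N`, then the slab property with the exponent `a` and the growth `N ^ x` of `Lp`
give `1 + (p - 1) x ≤ p a` (helper74).
-/

set_option autoImplicit false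

namespace Pool.Agent.W_7d29a1_PK

open MeasureTheory ProbabilityTheory Filter Topology Pool.Agent.W_MP_7d29a1_pr
  Pool.Agent.W_7d29a1_h46 Pool.Agent.W_7d29a1_h46u Pool.Agent.W_7d29a1_D2
  Pool.Agent.W_7d29a1_D2.B35 Pool.Agent.W_7d29a1_V

variable {d : ℕ} {ρ : Measure ℝ}

/-- The core estimate of size `Lp` on the ray `h + t w`, `t > 0`. -/
def CorE74 {d : ℕ} (ρ : Measure ℝ) (β : ℝ) (h w : Vec d) (s : ℝ) (Lp : ℕ → ℝ) : Prop :=
  ∃ κ c q₀ δ : ℝ, 0 < κ ∧ 0 < c ∧ 0 < q₀ ∧ 0 < δ ∧ ∃ N₀ : ℕ, ∀ N : ℕ, N₀ ≤ N →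
    ∀ t : ℝ, 0 < t → t ≤ δ →
      κ * Lp N ≤ N * (lam ρ β (h + t • w) - lam ρ β h - s * t) →
        ∃ n : ℕ, N ≤ n ∧ n ≤ 2 * N ∧ (N : ℝ) ^ (-q₀) ≤ Ex ρ β h w s n (c * Lp N / t)

lemma slb_mono74 {d n : ℕ} (u : Vec d) (s : ℝ) {W W' : ℝ} (hW : W ≤ W') :
    slb d n u s W ⊆ slb d n u s W' := fun _ hq i hi => (hq i hi).trans hW

lemma int74 [IsProbabilityMeasure ρ] (β : ℝ) (h : Vec d) {n : ℕ} (E : Set (Fin n → Step d)) :
    Integrable (fun η : Env d => 1 - PolT β h η E) (law d ρ) := by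
  refine Integrable.of_bound (C := 1)
    (measurable_const.sub (measurable_PolT β h E)).aestronglyMeasurable
    (Eventually.of_forall fun η => ?_)
  rw [Real.norm_eq_abs, abs_le]
  have h1 := PolT_nonneg β h η E
  have h2 := PolT_le_one β h η E
  constructor <;> linarith

lemma Ex_nonneg74 (β : ℝ) (h w : Vec d) (s : ℝ) (n : ℕ) (r : ℝ) : 0 ≤ Ex ρ β h w s n r :=
  integral_nonneg fun η => sub_nonneg.2 (PolT_le_one β h η _)

lemma Ex_anti74 [IsProbabilityMeasure ρ] (β : ℝ) (h w : Vec d) (s : ℝ) (n : ℕ) {r r' : ℝ}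
    (hr : r ≤ r') : Ex ρ β h w s n r' ≤ Ex ρ β h w s n r := by
  refine integral_mono (int74 β h _) (int74 β h _) fun η => ?_
  have h1 := PolT_mono β h η (slb_mono74 (n := n) w s hr)
  show 1 - PolT β h η (slb d n w s r') ≤ 1 - PolT β h η (slb d n w s r)
  linarith

/-- A polynomial exit at a time in `[N, 2 N]` bounds the width. -/
lemma one74 [IsProbabilityMeasure ρ] {β : ℝ} {h w : Vec d} {s a : ℝ} (ha : 0 ≤ a)
    (hS : SbF ρ β h w s a) (q₀ : ℝ) : ∃ N₁ : ℕ, ∀ N : ℕ, N₁ ≤ N → ∀ n : ℕ, N ≤ n → n ≤ 2 * N →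
      ∀ W : ℝ, (N : ℝ) ^ (-q₀) ≤ Ex ρ β h w s n W → W < (2 * (N : ℝ)) ^ a := by
  obtain ⟨C, hC⟩ := hS (⌈q₀⌉₊ + 1)
  refine ⟨⌈|C|⌉₊ + 1, fun N hN n hn hn2 W hW => ?_⟩
  have hNC : |C| < (N : ℝ) := by
    have h1 : ((⌈|C|⌉₊ + 1 : ℕ) : ℝ) ≤ N := by exact_mod_cast hN
    have h2 := Nat.le_ceil |C|
    push_cast at h1
    linarith
  have hN0 : (0 : ℝ) < N := (abs_nonneg C).trans_lt hNC
  have hN1 : 1 ≤ N := by
    have : 0 < N := by exact_mod_cast hN0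
    omega
  have hN1' : (1 : ℝ) ≤ N := by exact_mod_cast hN1
  have hnN : (N : ℝ) ≤ n := by exact_mod_cast hn
  by_contra hcon
  have hcon' : (2 * (N : ℝ)) ^ a ≤ W := not_lt.1 hcon
  have h1 : (n : ℝ) ^ a ≤ W := by
    refine (Real.rpow_le_rpow (by positivity) ?_ ha).trans hcon'
    exact_mod_cast hn2
  have h2 := hW.trans ((Ex_anti74 β h w s n h1).trans (hC n (hN1.trans hn)))
  have h3 : C * (n : ℝ) ^ (-((⌈q₀⌉₊ + 1 : ℕ) : ℝ)) ≤ |C| * (N : ℝ) ^ (-((⌈q₀⌉₊ + 1 : ℕ) : ℝ)) := by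
    refine mul_le_mul (le_abs_self C) ?_ (by positivity) (abs_nonneg C)
    exact Real.rpow_le_rpow_of_nonpos hN0 hnN (by
      rw [neg_nonpos]
      positivity)
  have h4 : |C| * (N : ℝ) ^ (-((⌈q₀⌉₊ + 1 : ℕ) : ℝ)) <
      (N : ℝ) * (N : ℝ) ^ (-((⌈q₀⌉₊ + 1 : ℕ) : ℝ)) :=
    mul_lt_mul_of_pos_right hNC (by positivity)
  have h5 : (N : ℝ) * (N : ℝ) ^ (-((⌈q₀⌉₊ + 1 : ℕ) : ℝ)) ≤ (N : ℝ) ^ (-q₀) := by
    have h6 : (N : ℝ) * (N : ℝ) ^ (-((⌈q₀⌉₊ + 1 : ℕ) : ℝ)) =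
        (N : ℝ) ^ (-(⌈q₀⌉₊ : ℝ)) := by
      nth_rewrite 1 [← Real.rpow_one (N : ℝ)]
      rw [← Real.rpow_add hN0]
      congr 1
      push_cast
      ring
    rw [h6]
    refine Real.rpow_le_rpow_of_exponent_le hN1' ?_
    have := Nat.le_ceil q₀
    linarith
  linarith

/-- The arithmetic of the exponents. -/
lemma two74 {p a x A c b : ℝ} (hp : 1 ≤ p) (hA : 0 < A) (hc : 0 < c) (hb : 0 < b) {Lp : ℕ → ℝ}
    (hf : ∃ᶠ N : ℕ in atTop, b * (N : ℝ) ^ x ≤ Lp N ∧ ∃ t : ℝ, 0 < t ∧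
      N * t ^ p ≤ A * Lp N ∧ c * Lp N / t < (2 * (N : ℝ)) ^ a) : 1 + (p - 1) * x ≤ p * a := by
  by_contra hcon
  have he : 0 < 1 + (p - 1) * x - p * a := by linarith [not_le.1 hcon]
  set e := 1 + (p - 1) * x - p * a with hedef
  have hp0 : 0 < p := by linarith
  have htend : Tendsto (fun N : ℕ => (N : ℝ) ^ e) atTop atTop :=
    (tendsto_rpow_atTop he).comp tendsto_natCast_atTop_atTop
  have hev := htend.eventually (eventually_gt_atTop ((2 : ℝ) ^ (a * p) * A / (c ^ p * b ^ (p - 1))))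
  obtain ⟨N, ⟨hL, t, ht, h1, h2⟩, hM, hN1⟩ :=
    (hf.and_eventually (hev.and (eventually_ge_atTop 1))).exists
  have hN0 : (0 : ℝ) < N := by exact_mod_cast hN1
  have hbx : 0 < b * (N : ℝ) ^ x := by positivity
  have hLp : 0 < Lp N := hbx.trans_le hL
  have h3 : c * Lp N < (2 * (N : ℝ)) ^ a * t := by rwa [div_lt_iff₀ ht] at h2
  have h4 : (c * Lp N) ^ p < ((2 * (N : ℝ)) ^ a * t) ^ p :=
    Real.rpow_lt_rpow (by positivity) h3 hp0
  rw [Real.mul_rpow hc.le hLp.le, Real.mul_rpow (by positivity) ht.le,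
    ← Real.rpow_mul (by positivity)] at h4
  have h5 : c ^ p * (Lp N) ^ p * N < (2 * (N : ℝ)) ^ (a * p) * (A * Lp N) := by
    calc c ^ p * (Lp N) ^ p * N < (2 * (N : ℝ)) ^ (a * p) * t ^ p * N :=
          mul_lt_mul_of_pos_right h4 hN0
      _ = (2 * (N : ℝ)) ^ (a * p) * (N * t ^ p) := by ring
      _ ≤ (2 * (N : ℝ)) ^ (a * p) * (A * Lp N) := mul_le_mul_of_nonneg_left h1 (by positivity)
  have h6 : (Lp N) ^ p = (Lp N) ^ (p - 1) * Lp N := by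
    nth_rewrite 3 [← Real.rpow_one (Lp N)]
    rw [← Real.rpow_add hLp, sub_add_cancel]
  have h7 : c ^ p * (Lp N) ^ (p - 1) * N < (2 * (N : ℝ)) ^ (a * p) * A := by
    rw [h6] at h5
    have h8 : c ^ p * (Lp N) ^ (p - 1) * N * Lp N < (2 * (N : ℝ)) ^ (a * p) * A * Lp N := by
      linarith
    exact lt_of_mul_lt_mul_right h8 hLp.le
  have h8 : b ^ (p - 1) * (N : ℝ) ^ ((p - 1) * x) ≤ (Lp N) ^ (p - 1) := by
    have h9 := Real.rpow_le_rpow hbx.le hL (by linarith : 0 ≤ p - 1)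
    rw [Real.mul_rpow hb.le (by positivity), ← Real.rpow_mul hN0.le, mul_comm x] at h9
    exact h9
  have h9 : c ^ p * (b ^ (p - 1) * (N : ℝ) ^ ((p - 1) * x)) * N < (2 * (N : ℝ)) ^ (a * p) * A := by
    refine lt_of_le_of_lt ?_ h7
    exact mul_le_mul_of_nonneg_right (mul_le_mul_of_nonneg_left h8 (by positivity)) hN0.le
  have h10 : (N : ℝ) ^ ((p - 1) * x) * N = (N : ℝ) ^ e * (N : ℝ) ^ (a * p) := by
    nth_rewrite 2 [← Real.rpow_one (N : ℝ)]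
    rw [← Real.rpow_add hN0, ← Real.rpow_add hN0]
    congr 1
    rw [hedef]
    ring
  rw [Real.mul_rpow (by norm_num) hN0.le] at h9
  have h11 : c ^ p * b ^ (p - 1) * (N : ℝ) ^ e * (N : ℝ) ^ (a * p) <
      (2 : ℝ) ^ (a * p) * A * (N : ℝ) ^ (a * p) := by
    calc c ^ p * b ^ (p - 1) * (N : ℝ) ^ e * (N : ℝ) ^ (a * p)
        = c ^ p * b ^ (p - 1) * ((N : ℝ) ^ e * (N : ℝ) ^ (a * p)) := by ring
      _ = c ^ p * (b ^ (p - 1) * (N : ℝ) ^ ((p - 1) * x)) * N := by rw [← h10]; ring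
      _ < (2 : ℝ) ^ (a * p) * (N : ℝ) ^ (a * p) * A := h9
      _ = (2 : ℝ) ^ (a * p) * A * (N : ℝ) ^ (a * p) := by ring
  have h12 : c ^ p * b ^ (p - 1) * (N : ℝ) ^ e < (2 : ℝ) ^ (a * p) * A :=
    lt_of_mul_lt_mul_right h11 (by positivity)
  rw [div_lt_iff₀ (by positivity)] at hM
  linarith

/-- **PK from the core**, one ray. -/
theorem main74 [IsProbabilityMeasure ρ] {β : ℝ} {h w : Vec d} {s p a x b : ℝ} {Lp : ℕ → ℝ}
    (hp : 1 ≤ p) (ha : 0 ≤ a) (hLo : LoR (lam ρ β) h w s p) (hS : SbF ρ β h w s a)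
    (hC : CorE74 ρ β h w s Lp) (h0 : ∀ᶠ N : ℕ in atTop, 0 < Lp N)
    (hT : Tendsto (fun N : ℕ => Lp N / N) atTop (𝓝 0)) (hb : 0 < b)
    (hx : ∃ᶠ N : ℕ in atTop, b * (N : ℝ) ^ x ≤ Lp N) : 1 + (p - 1) * x ≤ p * a := by
  obtain ⟨c₁, δ₁, hc₁, hδ₁, hLo⟩ := hLo
  obtain ⟨κ, c, q₀, δ, hκ, hc, hq₀, hδ, N₀, hcore⟩ := hC
  obtain ⟨N₁, hone⟩ := one74 ha hS q₀
  have hp0 : 0 < p := by linarith
  have hm : 0 < min δ δ₁ := lt_min hδ hδ₁
  have hm' : 0 < (min δ δ₁) ^ p * c₁ / κ := by positivity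
  have hev := (tendsto_order.1 hT).2 _ hm'
  refine two74 (A := κ / c₁) (Lp := Lp) hp (by positivity) hc hb
    ((hx.and_eventually ((h0.and hev).and ((eventually_ge_atTop N₀).and
      ((eventually_ge_atTop N₁).and (eventually_ge_atTop 1))))).mono ?_)
  rintro N ⟨hbx, ⟨hL0, hLs⟩, hN₀, hN₁, hN⟩
  have hN0 : (0 : ℝ) < N := by exact_mod_cast hN
  have hbase : 0 < κ * Lp N / (c₁ * N) := by positivity
  set t := (κ * Lp N / (c₁ * N)) ^ (1 / p) with ht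
  have ht0 : 0 < t := by positivity
  have htp : t ^ p = κ * Lp N / (c₁ * N) := by
    rw [ht, ← Real.rpow_mul hbase.le, one_div_mul_cancel hp0.ne', Real.rpow_one]
  have htle : t ≤ min δ δ₁ := by
    refine le_of_not_gt fun hlt => ?_
    have h1 := Real.rpow_lt_rpow hm.le hlt hp0
    rw [htp] at h1
    rw [div_lt_iff₀ hN0] at hLs
    rw [lt_div_iff₀ (by positivity)] at h1
    have h2 : κ * Lp N < (min δ δ₁) ^ p * c₁ * N := by
      have h3 := mul_lt_mul_of_pos_left hLs hκ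
      calc κ * Lp N < κ * ((min δ δ₁) ^ p * c₁ / κ * N) := h3
        _ = (min δ δ₁) ^ p * c₁ * N := by field_simp
    linarith
  have hg : κ * Lp N ≤ N * (lam ρ β (h + t • w) - lam ρ β h - s * t) := by
    have h1 := hLo t ht0 (htle.trans (min_le_right _ _))
    rw [htp] at h1
    calc κ * Lp N = N * (c₁ * (κ * Lp N / (c₁ * N))) := by field_simp
      _ ≤ _ := mul_le_mul_of_nonneg_left h1 hN0.le
  obtain ⟨n, hn, hn2, hex⟩ := hcore N hN₀ t ht0 (htle.trans (min_le_left _ _)) hg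
  refine ⟨hbx, t, ht0, le_of_eq ?_, hone N hN₁ n hn hn2 _ hex⟩
  rw [htp]
  field_simp

/-- **The bonus from the core**, one ray: no lower bound of the free energy. -/
theorem bonus74 [IsProbabilityMeasure ρ] {β : ℝ} {h w : Vec d} {s p a x b : ℝ} {Lp : ℕ → ℝ}
    (hp : 1 ≤ p) (ha : 0 ≤ a) (hS : SbF ρ β h w s a) (hC : CorE74 ρ β h w s Lp)
    {M₀ : ℕ} (hmono : ∀ N : ℕ, M₀ ≤ N → Lp N ≤ Lp (N + 1)) (h0 : ∀ᶠ N : ℕ in atTop, 0 < Lp N)
    (hT : Tendsto (fun N : ℕ => Lp N / N) atTop (𝓝 0)) (hb : 0 < b)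
    (hx : ∀ᶠ N : ℕ in atTop, b * (N : ℝ) ^ x ≤ Lp N)
    (hg : ∀ δ : ℝ, 0 < δ → ∃ t : ℝ, 0 < t ∧ t ≤ δ ∧
      t ^ p < lam ρ β (h + t • w) - lam ρ β h - s * t)
    (hg0 : ∀ ε : ℝ, 0 < ε → ∃ δ : ℝ, 0 < δ ∧ ∀ t : ℝ, 0 < t → t ≤ δ →
      lam ρ β (h + t • w) - lam ρ β h - s * t ≤ ε) : 1 + (p - 1) * x ≤ p * a := by
  obtain ⟨κ, c, q₀, δ, hκ, hc, hq₀, hδ, N₀, hcore⟩ := hC
  obtain ⟨N₁, hone⟩ := one74 ha hS q₀
  have hp0 : 0 < p := by linarith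
  refine two74 (A := 2 * κ) (Lp := Lp) hp (by positivity) hc hb (frequently_atTop.2 fun M => ?_)
  obtain ⟨M₁, hM₁⟩ := eventually_atTop.1 (h0.and hx)
  obtain ⟨M', hM'⟩ : ∃ M' : ℕ, M ≤ M' ∧ N₀ ≤ M' ∧ N₁ ≤ M' ∧ M₀ ≤ M' ∧ M₁ ≤ M' ∧ 1 ≤ M' :=
    ⟨M + N₀ + N₁ + M₀ + M₁ + 1, by omega, by omega, by omega, by omega, by omega, by omega⟩
  obtain ⟨hMM, hMN₀, hMN₁, hMM₀, hMM₁, hM1⟩ := hM'
  have hM0 : (0 : ℝ) < M' := by exact_mod_cast hM1
  have hLM : 0 < Lp M' := (hM₁ M' hMM₁).1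
  obtain ⟨δ', hδ', hsm⟩ := hg0 (κ * Lp M' / (2 * M')) (by positivity)
  obtain ⟨t, ht0, htδ, htg⟩ := hg (min δ δ') (lt_min hδ hδ')
  set g := lam ρ β (h + t • w) - lam ρ β h - s * t with hgdef
  have htp : 0 < t ^ p := by positivity
  have hgpos : 0 < g := htp.trans htg
  have hgs : g ≤ κ * Lp M' / (2 * M') := hsm t ht0 (htδ.trans (min_le_right _ _))
  -- the least length
  have hex : ∃ N : ℕ, M' ≤ N ∧ κ * Lp N ≤ N * g := by
    have h1 := (tendsto_order.1 hT).2 (g / κ) (by positivity)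
    obtain ⟨N, h2, h3⟩ := (h1.and (eventually_ge_atTop M')).exists
    refine ⟨N, h3, ?_⟩
    have hN0 : (0 : ℝ) < N := by
      have : 0 < N := by omega
      exact_mod_cast this
    rw [div_lt_div_iff₀ hN0 hκ] at h2
    linarith
  classical
  obtain ⟨hN1, hN2⟩ := Nat.find_spec hex
  have hmin : ∀ m : ℕ, m < Nat.find hex → ¬ (M' ≤ m ∧ κ * Lp m ≤ m * g) :=
    fun m hm => Nat.find_min hex hm
  set N := Nat.find hex with hNdef
  have hne : M' ≠ N := by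
    intro hc'
    rw [← hc'] at hN2
    have h1 : (M' : ℝ) * g ≤ M' * (κ * Lp M' / (2 * M')) := mul_le_mul_of_nonneg_left hgs hM0.le
    have h2 : (M' : ℝ) * (κ * Lp M' / (2 * M')) = κ * Lp M' / 2 := by field_simp
    have h3 : 0 < κ * Lp M' := by positivity
    linarith
  obtain ⟨m, hm⟩ : ∃ m : ℕ, N = m + 1 := ⟨N - 1, by omega⟩
  have hmM : M' ≤ m := by omega
  have hm1 : (1 : ℝ) ≤ m := by exact_mod_cast hM1.trans hmM
  have h1 : m * g < κ * Lp m := by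
    by_contra hc'
    exact hmin m (by omega) ⟨hmM, not_lt.1 hc'⟩
  have h2 : Lp m ≤ Lp N := by
    rw [hm]
    exact hmono m (hMM₀.trans hmM)
  have h3 : (N : ℝ) * t ^ p ≤ 2 * κ * Lp N := by
    have h4 : (N : ℝ) ≤ 2 * m := by
      rw [hm]
      push_cast
      linarith
    have h5 : (N : ℝ) * t ^ p ≤ 2 * m * t ^ p := mul_le_mul_of_nonneg_right h4 htp.le
    have h6 : (m : ℝ) * t ^ p ≤ m * g := mul_le_mul_of_nonneg_left htg.le (by linarith)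
    have h7 : κ * Lp m ≤ κ * Lp N := mul_le_mul_of_nonneg_left h2 hκ.le
    nlinarith
  obtain ⟨n, hn, hn2, hex'⟩ := hcore N (hMN₀.trans hN1) t ht0 (htδ.trans (min_le_left _ _)) hN2
  exact ⟨N, hMM.trans hN1, (hM₁ N (hMM₁.trans hN1)).2, t, ht0, h3,
    hone N (hMN₁.trans hN1) n hn hn2 _ hex'⟩

end Pool.Agent.W_7d29a1_PK
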