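import Pool.Agent.W_7d29a1_OT.EhrU81
import Pool.Agent.W_7d29a1_KZ.Nvs20
import Pool.Agent.W_7d29a1_D2.FlK4

/-!
A displaced point to point free energy is never nearly as large as the free energy (helper5): from
the moments at one tilt and an upper bound of the free energy on one ray, by the amplification of the
point to point free energy.
-/

namespace Pool.Agent.W_7d29a1_PK

open MeasureTheory ProbabilityTheory Filter Topology Pool.Agent.W_MP_7d29a1_pr
  Pool.Agent.W_7d29a1_h46 Pool.Agent.W_7d29a1_h46u Pool.Agent.W_7d29a1_D2 Pool.Agent.W_7d29a1_D2.B35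
  Pool.Agent.W_7d29a1_Q29 Pool.Agent.W_7d29a1_R34 Pool.Agent.W_7d29a1_AM Pool.Agent.W_7d29a1_OT

namespace F5

variable {d : ℕ} {ρ : Measure ℝ} [IsProbabilityMeasure ρ]

/-- Cantelli. -/
lemma cant (hd : 0 < d) (hρ : EM ρ) (β : ℝ) (k : Vec d) (m : ℕ) :
    1 / (1 + Va ρ β k m) ≤ (law d ρ).real {η | X β k η m ≤ A ρ β k m + 1} := by
  have hI := integrable_cen13 hd hρ β k m
  have hX := (concU (ρ := ρ) hd hρ β k m).1
  have hc : Integrable (fun η => X β k η m - A ρ β k m) (law d ρ) := hX.sub (integrable_const _)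
  obtain ⟨V, hV⟩ : ∃ V : ℝ, V = Va ρ β k m := ⟨_, rfl⟩
  have hV0 : 0 ≤ V := by
    rw [hV]
    exact integral_nonneg fun η => sq_nonneg _
  have h0 : ∫ η, (X β k η m - A ρ β k m) ∂(law d ρ) = 0 := by
    rw [integral_sub hX (integrable_const _), integral_const, probReal_univ, one_smul]
    unfold A
    ring
  have hl : Integrable (fun η => 2 * V * (X β k η m - A ρ β k m) + V ^ 2) (law d ρ) :=
    (hc.const_mul _).add (integrable_const _)
  have hl0 : ∫ η, (2 * V * (X β k η m - A ρ β k m) + V ^ 2) ∂(law d ρ) = V ^ 2 := by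
    rw [integral_add (hc.const_mul _) (integrable_const _), integral_const_mul, h0, integral_const,
      probReal_univ, one_smul, mul_zero, zero_add]
  have h1 : ∫ η, (X β k η m - A ρ β k m + V) ^ 2 ∂(law d ρ) = V + V ^ 2 := by
    have e : ∀ η, (X β k η m - A ρ β k m + V) ^ 2 =
        (X β k η m - A ρ β k m) ^ 2 + (2 * V * (X β k η m - A ρ β k m) + V ^ 2) := fun η => by ring
    simp_rw [e]
    rw [integral_add hI hl, hl0]
    rw [hV]
    rfl
  have hI2 : Integrable (fun η => (X β k η m - A ρ β k m + V) ^ 2) (law d ρ) := by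
    have e : (fun η => (X β k η m - A ρ β k m + V) ^ 2) = fun η =>
        (X β k η m - A ρ β k m) ^ 2 + (2 * V * (X β k η m - A ρ β k m) + V ^ 2) := by
      funext η
      ring
    rw [e]
    exact hI.add hl
  have h2 := mul_meas_ge_le_integral_of_nonneg (μ := law d ρ)
    (f := fun η => (X β k η m - A ρ β k m + V) ^ 2) (Eventually.of_forall fun η => sq_nonneg _)
    hI2 ((1 + V) ^ 2)
  have h3 : (law d ρ).real {η | ¬ X β k η m ≤ A ρ β k m + 1} ≤
      (law d ρ).real {η | (1 + V) ^ 2 ≤ (X β k η m - A ρ β k m + V) ^ 2} := by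
    refine measureReal_mono fun η (hη : ¬ X β k η m ≤ A ρ β k m + 1) => ?_
    rw [not_le] at hη
    show (1 + V) ^ 2 ≤ (X β k η m - A ρ β k m + V) ^ 2
    exact pow_le_pow_left₀ (by linarith) (by linarith) 2
  have h4 : (law d ρ).real {η | ¬ X β k η m ≤ A ρ β k m + 1} ≤ V / (1 + V) := by
    rw [h1] at h2
    have h5 : (1 + V) ^ 2 * (law d ρ).real {η | ¬ X β k η m ≤ A ρ β k m + 1} ≤ V + V ^ 2 :=
      (mul_le_mul_of_nonneg_left h3 (by positivity)).trans h2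
    rw [le_div_iff₀ (by linarith)]
    have h6 : (1 + V) * ((law d ρ).real {η | ¬ X β k η m ≤ A ρ β k m + 1} * (1 + V)) ≤
        (1 + V) * V := by nlinarith
    exact le_of_mul_le_mul_left h6 (by linarith)
  have hms : MeasurableSet {η : Env d | X β k η m ≤ A ρ β k m + 1} :=
    measurableSet_le (measurable_X β k m) measurable_const
  have h5 := probReal_compl_eq_one_sub (μ := law d ρ) hms
  have h6 : ({η : Env d | X β k η m ≤ A ρ β k m + 1})ᶜ = {η | ¬ X β k η m ≤ A ρ β k m + 1} := rfl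
  rw [h6] at h5
  rw [← hV]
  have h7 : 1 / (1 + V) = 1 - V / (1 + V) := by
    field_simp
    ring
  rw [h7]
  linarith

/-- The point to point weight is positive for all environments or for none. -/
lemma PP_dich (β : ℝ) (h : Vec d) (i : ℕ) (y : Site d) :
    (∀ η : Env d, 0 < PP β h η i y) ∨ ∀ η : Env d, PP β h η i y = 0 := by
  classical
  by_cases hs : ∃ s : Fin i → Step d, pos s i = y
  · left
    obtain ⟨s, hs⟩ := hs
    intro η
    unfold PP ZT
    refine Finset.sum_pos' (fun r _ => ?_) ⟨s, Finset.mem_univ _, ?_⟩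
    · split_ifs
      · exact (wgt_pos _ _ _ _).le
      · exact le_rfl
    · rw [if_pos (show s ∈ {r : Fin i → Step d | pos r i = y} from hs)]
      exact wgt_pos _ _ _ _
  · right
    push Not at hs
    intro η
    unfold PP ZT
    exact Finset.sum_eq_zero fun s _ => if_neg (hs s)

/-- The lower level of the point to point free energy. -/
lemma low (hd : 0 < d) (hρ : EM ρ) (β : ℝ) (h w : Vec d) (i : ℕ) (y : Site d) (t s₀ : ℝ)
    (hpos : ∀ η : Env d, 0 < PP β h η i y)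
    (hs : i * lam ρ β (h + t • w) - t * inner ℝ w (emb y) + 1 ≤ s₀) :
    1 / (1 + Va ρ β (h + t • w) i) ≤ (law d ρ).real {η | UF β h {y} i η ≤ s₀} := by
  refine (cant hd hρ β (h + t • w) i).trans (measureReal_mono fun η
    (hη : X β (h + t • w) η i ≤ A ρ β (h + t • w) i + 1) => ?_)
  show UF β h {y} i η ≤ s₀
  have h1 := PP_tilt β h (t • w) η i y
  have h2 := PP_le_Z β (h + t • w) η i y
  have h3 : 0 < PP β (h + t • w) η i y := by
    rw [h1]
    exact mul_pos (Real.exp_pos _) (hpos η)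
  have h4 : Real.log (PP β (h + t • w) η i y) ≤ X β (h + t • w) η i := Real.log_le_log h3 h2
  rw [h1, Real.log_mul (Real.exp_pos _).ne' (hpos η).ne', Real.log_exp, real_inner_smul_left] at h4
  have h5 := A_le_lam hd hρ β (h + t • w) i
  unfold UF
  rw [Finset.sum_singleton]
  linarith

lemma numK (C₀ : ℝ) {δ p : ℝ} (hδ : 0 < δ) (hp : 1 < p) :
    ∃ κ : ℝ, 0 < κ ∧ κ ≤ δ ∧ |C₀| * κ ^ (p - 1) ≤ 1 / 2 := by
  have hp1 : 0 < p - 1 := by linarith
  have hr : 0 < 1 / (2 * (|C₀| + 1)) := by positivity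
  refine ⟨min δ ((1 / (2 * (|C₀| + 1))) ^ (1 / (p - 1))), lt_min hδ (Real.rpow_pos_of_pos hr _),
    min_le_left _ _, ?_⟩
  have h1 : (min δ ((1 / (2 * (|C₀| + 1))) ^ (1 / (p - 1)))) ^ (p - 1) ≤ 1 / (2 * (|C₀| + 1)) := by
    refine (Real.rpow_le_rpow (le_min hδ.le (Real.rpow_nonneg hr.le _)) (min_le_right _ _)
      hp1.le).trans (le_of_eq ?_)
    rw [← Real.rpow_mul hr.le, one_div_mul_cancel hp1.ne', Real.rpow_one]
  refine (mul_le_mul_of_nonneg_left h1 (abs_nonneg _)).trans ?_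
  rw [mul_one_div, div_le_div_iff₀ (by positivity) two_pos]
  linarith [abs_nonneg C₀]

/-- The asymptotics. -/
lemma asym {B κ x' y : ℝ} (hκ : 0 < κ) (hx' : 0 < x') (hy : x' < y) (b : ℝ) :
    ∀ᶠ n : ℕ in atTop, B * (1 + b * Real.log n) + 1 + (n : ℝ) ^ x' ≤ κ / 4 * (n : ℝ) ^ y := by
  have hcast := tendsto_natCast_atTop_atTop (R := ℝ)
  have h1 : ∀ᶠ z : ℝ in atTop, Real.log z * (|B * b|) ≤ z ^ x' / 2 := by
    have h2 := (isLittleO_log_rpow_atTop hx').bound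
      (show (0 : ℝ) < 1 / (2 * (|B * b| + 1)) by positivity)
    filter_upwards [h2, eventually_ge_atTop (1 : ℝ)] with z hz hz1
    rw [Real.norm_eq_abs, abs_of_nonneg (Real.log_nonneg hz1), Real.norm_eq_abs,
      abs_of_nonneg (Real.rpow_nonneg (by linarith) _)] at hz
    have h3 : 0 ≤ z ^ x' := Real.rpow_nonneg (by linarith) _
    have h4 := mul_le_mul_of_nonneg_right hz (abs_nonneg (B * b))
    refine h4.trans ?_
    rw [div_mul_eq_mul_div, one_mul, div_mul_eq_mul_div, div_le_div_iff₀ (by positivity) two_pos]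
    nlinarith [abs_nonneg (B * b)]
  have h2 : ∀ᶠ z : ℝ in atTop, 2 * (|B| + 1) ≤ z ^ x' :=
    (tendsto_rpow_atTop hx').eventually_ge_atTop _
  have h3 : ∀ᶠ z : ℝ in atTop, 8 / κ ≤ z ^ (y - x') :=
    (tendsto_rpow_atTop (by linarith)).eventually_ge_atTop _
  filter_upwards [hcast.eventually h1, hcast.eventually h2, hcast.eventually h3,
    hcast.eventually (eventually_ge_atTop (1 : ℝ))] with n e1 e2 e3 e4
  have hn0 : (0 : ℝ) < n := by linarith
  have e5 : (n : ℝ) ^ y = (n : ℝ) ^ (y - x') * (n : ℝ) ^ x' := by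
    rw [← Real.rpow_add hn0]
    congr 1
    ring
  have e6 : 0 < (n : ℝ) ^ x' := Real.rpow_pos_of_pos hn0 _
  have e7 : 2 * (n : ℝ) ^ x' ≤ κ / 4 * (n : ℝ) ^ y := by
    rw [e5]
    have e8 : 2 ≤ κ / 4 * (n : ℝ) ^ (y - x') := by
      rw [div_le_iff₀ hκ] at e3
      linarith
    nlinarith
  have e9 : B * (b * Real.log n) ≤ Real.log n * |B * b| := by
    have h5 := le_abs_self (B * b)
    have h6 := Real.log_nonneg e4
    nlinarith
  have e10 := le_abs_self B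
  nlinarith

/-- **A displaced point to point free energy is never nearly as large as the free energy.** -/
theorem far5 (hd : 0 < d) (hρ : EM ρ) {β : ℝ} (hβ : 0 ≤ β) (hA : AmpCN ρ β) {h w : Vec d}
    {x x' a p C₀ δ σ : ℝ} (hx : 0 < x) (hF : FlF ρ β h x) (hp : 1 < p) (hδ : 0 < δ)
    (hU : ∀ t : ℝ, 0 < t → t ≤ δ → lam ρ β (h + t • w) ≤ lam ρ β h + t * σ + C₀ * t ^ p)
    (hxx : x < x') (hxy : x' < (p * a - 1) / (p - 1)) (ha1 : a < 1) (q : ℕ) :
    ∃ C : ℝ, 0 ≤ C ∧ ∀ n : ℕ, 1 ≤ n → ∀ i ≤ n, ∀ y : Site d,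
      (n : ℝ) ^ a < inner ℝ w (emb y) - i * σ →
      (law d ρ).real {η | Real.exp (i * lam ρ β h - (n : ℝ) ^ x') < PP β h η i y} ≤
        C * (n : ℝ) ^ (-(q : ℝ)) := by
  have hp1 : 0 < p - 1 := by linarith
  have hd0 : (0 : ℝ) < d := by exact_mod_cast hd
  obtain ⟨y₀, hy₀⟩ : ∃ y₀ : ℝ, y₀ = (p * a - 1) / (p - 1) := ⟨_, rfl⟩
  rw [← hy₀] at hxy
  obtain ⟨ε, hε⟩ : ∃ ε : ℝ, ε = x' - x := ⟨_, rfl⟩
  have hε0 : 0 < ε := by rw [hε]; linarith
  have hx0 : 0 < x' := by linarith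
  have hεx : x + ε ≤ x' := by rw [hε]; linarith
  obtain ⟨κ, hκ, hκδ, hκC⟩ := numK C₀ hδ hp
  obtain ⟨CA, hCA, hamp⟩ := E81.ampF (d := d) (ρ := ρ) hβ hA 2 (by norm_num)
  obtain ⟨CV, hCV, hVa⟩ := Pool.Agent.W_7d29a1_KZ.N20.va_lin (d := d) (ρ := ρ) hd hρ β
  obtain ⟨Q₂, hQ₂⟩ := exists_nat_ge (((q : ℝ) + 2) * CA + 1)
  have hFK : FlK ρ β (fun _ => ({h} : Set (Vec d))) x := by
    refine ⟨fun _ _ _ => le_rfl, fun r => ?_⟩
    obtain ⟨C, hC⟩ := hF r
    refine ⟨C, fun k hk n hn => ?_⟩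
    rw [Set.mem_singleton_iff.1 hk]
    exact hC n hn
  obtain ⟨Q, CT, hCT, hT⟩ := tailK4 hd hρ hx.le hFK hε0 Q₂
  obtain ⟨s, hs⟩ : ∃ s : ℝ, s = (1 - a) / (p - 1) := ⟨_, rfl⟩
  have hs0 : 0 < s := by
    rw [hs]
    exact div_pos (by linarith) hp1
  have hsa : a - s = y₀ := by
    rw [hs, hy₀]
    field_simp
    ring
  have hsp : 1 - s * (p - 1) = a := by
    rw [hs, div_mul_cancel₀ _ hp1.ne']
    ring
  have hcast := tendsto_natCast_atTop_atTop (R := ℝ)
  obtain ⟨N, hN⟩ := eventually_atTop.1 ((asym (B := CA) hκ hx0 hxy ((q : ℝ) + 2)).and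
    ((hcast.eventually (eventually_ge_atTop (2 + CV))).and
      (hcast.eventually (eventually_gt_atTop CT))))
  refine ⟨max 1 ((N : ℝ) ^ (q : ℝ)), le_trans zero_le_one (le_max_left _ _),
    fun n hn i hi y hy => ?_⟩
  have hn1 : (1 : ℝ) ≤ n := by exact_mod_cast hn
  have hn0 : (0 : ℝ) < n := by linarith
  have hq0 : 0 < (n : ℝ) ^ (-(q : ℝ)) := Real.rpow_pos_of_pos hn0 _
  rcases lt_or_ge n N with hnN | hnN
  · refine measureReal_le_one.trans ?_
    have h3 : 1 ≤ (N : ℝ) ^ (q : ℝ) * (n : ℝ) ^ (-(q : ℝ)) := by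
      rw [Real.rpow_neg hn0.le, ← div_eq_mul_inv, one_le_div (Real.rpow_pos_of_pos hn0 _)]
      exact Real.rpow_le_rpow hn0.le (by exact_mod_cast hnN.le) (Nat.cast_nonneg q)
    exact h3.trans (mul_le_mul_of_nonneg_right (le_max_right _ _) hq0.le)
  obtain ⟨e1, e2, e3⟩ := hN n hnN
  refine le_trans ?_ (mul_le_mul_of_nonneg_right (le_max_left _ _) hq0.le)
  rw [one_mul]
  rcases PP_dich β h i y with hpos | hzero
  swap
  · have h1 : {η : Env d | Real.exp (i * lam ρ β h - (n : ℝ) ^ x') < PP β h η i y} = ∅ := by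
      refine Set.eq_empty_iff_forall_notMem.2 fun η hη => ?_
      have hη' : Real.exp (i * lam ρ β h - (n : ℝ) ^ x') < PP β h η i y := hη
      rw [hzero η] at hη'
      exact absurd hη' (not_lt.2 (Real.exp_pos _).le)
    rw [h1, measureReal_empty]
    exact hq0.le
  by_contra hcon
  rw [not_le] at hcon
  have hin : (i : ℝ) ≤ n := by exact_mod_cast hi
  have hi0 : (0 : ℝ) ≤ i := Nat.cast_nonneg i
  -- the tilt
  obtain ⟨t, ht⟩ : ∃ t : ℝ, t = κ * (n : ℝ) ^ (-s) := ⟨_, rfl⟩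
  have hns : 0 < (n : ℝ) ^ (-s) := Real.rpow_pos_of_pos hn0 _
  have hns1 : (n : ℝ) ^ (-s) ≤ 1 := Real.rpow_le_one_of_one_le_of_nonpos hn1 (by linarith)
  have ht0 : 0 < t := by rw [ht]; positivity
  have htδ : t ≤ δ := by
    rw [ht]
    nlinarith
  have hta : t * (n : ℝ) ^ a = κ * (n : ℝ) ^ y₀ := by
    rw [ht, mul_assoc, ← Real.rpow_add hn0, ← hsa]
    congr 2
    ring
  have htp : (n : ℝ) * t ^ (p - 1) = κ ^ (p - 1) * (n : ℝ) ^ a := by
    rw [ht, Real.mul_rpow hκ.le hns.le, ← Real.rpow_mul hn0.le]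
    have h1 : (n : ℝ) ^ a = (n : ℝ) * (n : ℝ) ^ (-s * (p - 1)) := by
      nth_rewrite 2 [← Real.rpow_one (n : ℝ)]
      rw [← Real.rpow_add hn0, ← hsp]
      congr 1
      ring
    rw [h1]
    ring
  have htpp : t ^ p = t ^ (p - 1) * t := by
    nth_rewrite 3 [← Real.rpow_one t]
    rw [← Real.rpow_add ht0]
    congr 1
    ring
  have hna : 0 < (n : ℝ) ^ a := Real.rpow_pos_of_pos hn0 _
  have herr : i * (C₀ * t ^ p) ≤ t * (n : ℝ) ^ a / 2 := by
    have h0 : 0 ≤ t ^ p := Real.rpow_nonneg ht0.le _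
    have h1 : i * (C₀ * t ^ p) ≤ n * (|C₀| * t ^ p) := by
      have h2 : C₀ * t ^ p ≤ |C₀| * t ^ p := mul_le_mul_of_nonneg_right (le_abs_self _) h0
      have h3 : 0 ≤ |C₀| * t ^ p := by positivity
      exact (mul_le_mul_of_nonneg_left h2 hi0).trans (mul_le_mul_of_nonneg_right hin h3)
    refine h1.trans ?_
    calc n * (|C₀| * t ^ p) = |C₀| * (n * t ^ (p - 1)) * t := by rw [htpp]; ring
      _ = (|C₀| * κ ^ (p - 1)) * (t * (n : ℝ) ^ a) := by rw [htp]; ring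
      _ ≤ 1 / 2 * (t * (n : ℝ) ^ a) := mul_le_mul_of_nonneg_right hκC (by positivity)
      _ = t * (n : ℝ) ^ a / 2 := by ring
  have hy' : (n : ℝ) ^ a < inner ℝ w (emb y) - i * σ := hy
  have hs₀ : i * lam ρ β (h + t • w) - t * inner ℝ w (emb y) + 1 ≤
      i * lam ρ β h - κ / 2 * (n : ℝ) ^ y₀ + 1 := by
    have h1 := mul_le_mul_of_nonneg_left (hU t ht0 htδ) hi0
    have h2 := mul_le_mul_of_nonneg_left hy'.le ht0.le
    have h3 : κ / 2 * (n : ℝ) ^ y₀ = t * (n : ℝ) ^ a / 2 := by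
      rw [hta]
      ring
    rw [h3]
    nlinarith
  -- the levels
  obtain ⟨q', hq'⟩ : ∃ q' : ℝ, q' = (n : ℝ) ^ (-((q : ℝ) + 2)) := ⟨_, rfl⟩
  have hq'0 : 0 < q' := by rw [hq']; exact Real.rpow_pos_of_pos hn0 _
  have hn2 : 2 ≤ (n : ℝ) := by linarith
  have hq'n : q' ≤ (n : ℝ) ^ (-(2 : ℝ)) := by
    rw [hq']
    exact Real.rpow_le_rpow_of_exponent_le hn1 (by
      have : (0 : ℝ) ≤ q := Nat.cast_nonneg q
      linarith)
  have hn22 : (n : ℝ) ^ (-(2 : ℝ)) = 1 / (n : ℝ) ^ 2 := by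
    rw [Real.rpow_neg hn0.le, one_div]
    congr 1
    exact Real.rpow_natCast _ 2
  have hq'2 : q' ≤ 1 / 2 := by
    refine hq'n.trans ?_
    rw [hn22, div_le_div_iff₀ (by positivity) two_pos]
    nlinarith
  have hq'V : q' ≤ 1 / (1 + Va ρ β (h + t • w) i) := by
    have h1 := hVa (h + t • w) i
    have h0 : 0 ≤ Va ρ β (h + t • w) i := integral_nonneg fun η => sq_nonneg _
    have h2 : 1 + Va ρ β (h + t • w) i ≤ (n : ℝ) ^ 2 := by
      have h3 : CV * i ≤ CV * n := mul_le_mul_of_nonneg_left hin hCV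
      nlinarith
    refine hq'n.trans ?_
    rw [hn22]
    exact one_div_le_one_div_of_le (by linarith) h2
  have hlog : Real.log (1 / q') = ((q : ℝ) + 2) * Real.log n := by
    rw [hq', one_div, ← Real.rpow_neg hn0.le, neg_neg, Real.log_rpow hn0]
  have hset : {η : Env d | Real.exp (i * lam ρ β h - (n : ℝ) ^ x') < PP β h η i y} =
      {η | i * lam ρ β h - (n : ℝ) ^ x' < UF β h {y} i η} := by
    ext η
    show Real.exp _ < _ ↔ _ < UF β h {y} i η
    unfold UF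
    rw [Finset.sum_singleton, Real.lt_log_iff_exp_lt (hpos η)]
  rw [hset] at hcon
  have hq'q : q' ≤ (n : ℝ) ^ (-(q : ℝ)) := by
    rw [hq']
    exact Real.rpow_le_rpow_of_exponent_le hn1 (by linarith)
  have hx'0 : 0 < (n : ℝ) ^ x' := Real.rpow_pos_of_pos hn0 _
  have hy₀0 : 0 < κ * (n : ℝ) ^ y₀ := mul_pos hκ (Real.rpow_pos_of_pos hn0 _)
  have key := hamp h i {y} (i * lam ρ β h - κ / 2 * (n : ℝ) ^ y₀ + 1)
    (i * lam ρ β h - (n : ℝ) ^ x') q' (fun η => by rw [Finset.sum_singleton]; exact hpos η) hq'0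
    hq'2 (by rw [hlog]; linarith) (hq'V.trans (low hd hρ β h w i y t _ hpos hs₀))
    (hq'q.trans hcon.le)
  -- contradiction
  have h1 : (law d ρ).real {η | i * lam ρ β h - (n : ℝ) ^ x' + 2 * (i * lam ρ β h - (n : ℝ) ^ x' -
      (i * lam ρ β h - κ / 2 * (n : ℝ) ^ y₀ + 1)) < UF β h {y} i η} ≤
      CT * (n : ℝ) ^ (-(Q₂ : ℝ)) := by
    refine (measureReal_mono fun η (hη : _ < UF β h {y} i η) => ?_).trans
      (hT h rfl n n i hn hn hi 0 0)
    show (n : ℝ) ^ x * (n : ℝ) ^ ε < |X β h (sh 0 0 η) i - A ρ β h i|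
    rw [TubV_sh, ← Real.rpow_add hn0]
    have h2 := E81.UF_le hd β h {y} i η (by rw [Finset.sum_singleton]; exact hpos η)
    have h3 := A_le_lam hd hρ β h i
    have h4 : (n : ℝ) ^ (x + ε) ≤ (n : ℝ) ^ x' := Real.rpow_le_rpow_of_exponent_le hn1 hεx
    have h5 := le_abs_self (X β h η i - A ρ β h i)
    have h6 : 0 ≤ CA * (1 + ((q : ℝ) + 2) * Real.log n) := by
      have := Real.log_nonneg hn1
      positivity
    linarith
  have h2 := key.trans h1
  have h3 : q' ^ CA = (n : ℝ) ^ (-(((q : ℝ) + 2) * CA)) := by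
    rw [hq', ← Real.rpow_mul hn0.le]
    congr 1
    ring
  rw [h3] at h2
  have h4 : (n : ℝ) ^ (-(((q : ℝ) + 2) * CA)) = (n : ℝ) ^ ((Q₂ : ℝ) - ((q : ℝ) + 2) * CA) *
      (n : ℝ) ^ (-(Q₂ : ℝ)) := by
    rw [← Real.rpow_add hn0]
    congr 1
    ring
  rw [h4] at h2
  have h5 := le_of_mul_le_mul_right h2 (Real.rpow_pos_of_pos hn0 _)
  have h6 : (n : ℝ) ≤ (n : ℝ) ^ ((Q₂ : ℝ) - ((q : ℝ) + 2) * CA) := by
    nth_rewrite 1 [← Real.rpow_one (n : ℝ)]
    exact Real.rpow_le_rpow_of_exponent_le hn1 (by linarith)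
  linarith

end F5

end Pool.Agent.W_7d29a1_PK
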