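import Pool.Agent.W_7d29a1_AM.AmpNU5
import Pool.Agent.W_7d29a1_D2.Defs46

/-!
Theorem PK, block (4a): if the fluctuation exponent of all moments is larger than `x`, then
`log Z_N` is larger than `N lam + N ^ x` with a probability which is polynomial in `1 / N`, for
infinitely many `N` (helper8).
-/

set_option autoImplicit false

namespace Pool.Agent.W_7d29a1_PK

open MeasureTheory ProbabilityTheory Filter Topology Pool.Agent.W_MP_7d29a1_pr
  Pool.Agent.W_7d29a1_h46 Pool.Agent.W_7d29a1_h46u Pool.Agent.W_7d29a1_D2 Pool.Agent.W_7d29a1_AM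

variable {d : ℕ} {ρ : Measure ℝ} [IsProbabilityMeasure ρ] {β : ℝ}

/-- If the moments are not bounded by the exponent `x'`, the deviations of size `n ^ x`, `x < x'`,
have a polynomial probability infinitely often. -/
theorem dev8 (hd : 0 < d) (hρ : EM ρ) (h : Vec d) {x x' : ℝ} (hx : 0 < x) (hxx : x < x')
    (hF : ¬ FlF ρ β h x') : ∃ Q : ℝ, 0 < Q ∧ ∃ᶠ N : ℕ in atTop,
      (N : ℝ) ^ (-Q) ≤ (law d ρ).real {η | (N : ℝ) ^ x ≤ |X β h η N - A ρ β h N|} := by
  unfold FlF at hF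
  push Not at hF
  obtain ⟨q, hq⟩ := hF
  refine ⟨2 * q + 1, by positivity, ?_⟩
  intro hcon
  obtain ⟨N₀, hN₀⟩ := eventually_atTop.1 hcon
  obtain ⟨C1, hC1, m1⟩ := momU (ρ := ρ) hd hρ β q
  obtain ⟨C2, hC2, m2⟩ := momU (ρ := ρ) hd hρ β (2 * q)
  obtain ⟨n, hn, hlt⟩ := hq (1 + C2 + 1 + C1 * (N₀ : ℝ) ^ ((1 / 2 : ℝ) * q))
  have hn0 : (0 : ℝ) < n := by exact_mod_cast hn
  have hn1 : (1 : ℝ) ≤ n := by exact_mod_cast hn
  have hxq : 1 ≤ (n : ℝ) ^ (x' * q) := Real.one_le_rpow hn1 (by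
    have : (0 : ℝ) ≤ q := Nat.cast_nonneg q
    have h2 : 0 < x' := by linarith
    positivity)
  have hB0 : 0 ≤ C1 * (N₀ : ℝ) ^ ((1 / 2 : ℝ) * q) := by positivity
  rcases le_or_gt N₀ n with hNn | hNn
  · have hp := hN₀ n hNn
    rw [not_le] at hp
    have i2 := (m2 h n hn).1
    have b2 := (m2 h n hn).2
    obtain ⟨E, hE⟩ : ∃ E : Set (Env d), E = {η | (n : ℝ) ^ x ≤ |X β h η n - A ρ β h n|} := ⟨_, rfl⟩
    have hmX : Measurable fun η : Env d => |X β h η n - A ρ β h n| :=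
      ((measurable_X β h n).sub_const _).abs
    have hmE : MeasurableSet E := by
      rw [hE]
      exact measurableSet_le measurable_const hmX
    rw [← hE] at hp
    have hnq : 0 < (n : ℝ) ^ q := by positivity
    have hpt : ∀ η : Env d, |X β h η n - A ρ β h n| ^ q ≤ ((n : ℝ) ^ x) ^ q +
        (((n : ℝ) ^ q)⁻¹ * |X β h η n - A ρ β h n| ^ (2 * q) +
          (n : ℝ) ^ q * E.indicator (fun _ => (1 : ℝ)) η) := by
      intro η
      obtain ⟨y, hy⟩ : ∃ y : ℝ, y = |X β h η n - A ρ β h n| := ⟨_, rfl⟩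
      have hy0 : 0 ≤ y := by rw [hy]; exact abs_nonneg _
      rw [← hy]
      have hind : 0 ≤ E.indicator (fun _ => (1 : ℝ)) η := Set.indicator_nonneg (fun _ _ => by norm_num) _
      have h1 : 0 ≤ ((n : ℝ) ^ q)⁻¹ * y ^ (2 * q) := by positivity
      have h2 : 0 ≤ (n : ℝ) ^ q * E.indicator (fun _ => (1 : ℝ)) η := by positivity
      rcases lt_or_ge y ((n : ℝ) ^ x) with hyx | hyx
      · have h3 : y ^ q ≤ ((n : ℝ) ^ x) ^ q := pow_le_pow_left₀ hy0 hyx.le q
        linarith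
      · have hη : η ∈ E := by
          rw [hE]
          show (n : ℝ) ^ x ≤ |X β h η n - A ρ β h n|
          rw [← hy]
          exact hyx
        rw [Set.indicator_of_mem hη, mul_one]
        have h3 : 0 ≤ ((n : ℝ) ^ x) ^ q := by positivity
        have h4 : y ^ (2 * q) = (y ^ q) ^ 2 := by rw [mul_comm, pow_mul]
        rw [h4]
        have h5 : y ^ q ≤ ((n : ℝ) ^ q)⁻¹ * (y ^ q) ^ 2 + (n : ℝ) ^ q := by
          obtain ⟨z, hz⟩ : ∃ z : ℝ, z = y ^ q := ⟨_, rfl⟩
          obtain ⟨b, hb⟩ : ∃ b : ℝ, b = (n : ℝ) ^ q := ⟨_, rfl⟩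
          rw [← hz, ← hb]
          have hb0 : 0 < b := by rw [hb]; exact hnq
          have hz0 : 0 ≤ z := by rw [hz]; positivity
          rw [inv_mul_eq_div, ← sub_nonneg]
          have h6 : z ^ 2 / b + b - z = (z ^ 2 + b ^ 2 - z * b) / b := by
            field_simp
          rw [h6]
          apply div_nonneg _ hb0.le
          nlinarith [sq_nonneg (z - b)]
        linarith
    have hint : ∫ η, |X β h η n - A ρ β h n| ^ q ∂(law d ρ) ≤ ((n : ℝ) ^ x) ^ q +
        (((n : ℝ) ^ q)⁻¹ * ∫ η, |X β h η n - A ρ β h n| ^ (2 * q) ∂(law d ρ) +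
          (n : ℝ) ^ q * (law d ρ).real E) := by
      have i1 := (m1 h n hn).1
      have i3 : Integrable (E.indicator (fun _ => (1 : ℝ))) (law d ρ) :=
        (integrable_const 1).indicator hmE
      have j2 : Integrable (fun η : Env d => ((n : ℝ) ^ q)⁻¹ * |X β h η n - A ρ β h n| ^ (2 * q))
          (law d ρ) := i2.const_mul _
      have j3 : Integrable (fun η : Env d => (n : ℝ) ^ q * E.indicator (fun _ => (1 : ℝ)) η)
          (law d ρ) := i3.const_mul _
      have j23 : Integrable (fun η : Env d => ((n : ℝ) ^ q)⁻¹ * |X β h η n - A ρ β h n| ^ (2 * q) +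
          (n : ℝ) ^ q * E.indicator (fun _ => (1 : ℝ)) η) (law d ρ) := j2.add j3
      have j0 : Integrable (fun _ : Env d => ((n : ℝ) ^ x) ^ q) (law d ρ) := integrable_const _
      have j : Integrable (fun η : Env d => ((n : ℝ) ^ x) ^ q +
          (((n : ℝ) ^ q)⁻¹ * |X β h η n - A ρ β h n| ^ (2 * q) +
          (n : ℝ) ^ q * E.indicator (fun _ => (1 : ℝ)) η)) (law d ρ) := j0.add j23
      have h7 := integral_mono i1 j hpt
      refine h7.trans (le_of_eq ?_)
      rw [integral_add j0 j23, integral_add j2 j3, integral_const_mul, integral_const_mul,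
        integral_indicator hmE]
      simp
    have h8 : ((n : ℝ) ^ q)⁻¹ * ∫ η, |X β h η n - A ρ β h n| ^ (2 * q) ∂(law d ρ) ≤ C2 := by
      rw [inv_mul_le_iff₀ hnq]
      refine b2.trans (le_of_eq ?_)
      rw [mul_comm]
      congr 1
      rw [← Real.rpow_natCast]
      congr 1
      push_cast
      ring
    have h9 : (n : ℝ) ^ q * (law d ρ).real E ≤ 1 := by
      have h10 : (n : ℝ) ^ q * (law d ρ).real E ≤ (n : ℝ) ^ q * (n : ℝ) ^ (-(2 * (q : ℝ) + 1)) :=
        mul_le_mul_of_nonneg_left hp.le hnq.le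
      refine h10.trans ?_
      rw [← Real.rpow_natCast, ← Real.rpow_add hn0]
      apply Real.rpow_le_one_of_one_le_of_nonpos hn1
      have : (0 : ℝ) ≤ q := Nat.cast_nonneg q
      linarith
    have h11 : ((n : ℝ) ^ x) ^ q ≤ (n : ℝ) ^ (x' * q) := by
      rw [← Real.rpow_mul_natCast hn0.le]
      apply Real.rpow_le_rpow_of_exponent_le hn1
      have : (0 : ℝ) ≤ q := Nat.cast_nonneg q
      exact mul_le_mul_of_nonneg_right hxx.le this
    have h12 : (C2 + 1) * 1 ≤ (C2 + 1) * (n : ℝ) ^ (x' * q) :=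
      mul_le_mul_of_nonneg_left hxq (by linarith)
    have h13 : 0 ≤ C1 * (N₀ : ℝ) ^ ((1 / 2 : ℝ) * q) * (n : ℝ) ^ (x' * q) :=
      mul_nonneg hB0 (by linarith)
    linarith
  · have b1 := (m1 h n hn).2
    have h1 : (n : ℝ) ^ ((1 / 2 : ℝ) * q) ≤ (N₀ : ℝ) ^ ((1 / 2 : ℝ) * q) := by
      apply Real.rpow_le_rpow hn0.le (by exact_mod_cast hNn.le)
      positivity
    have h2 : C1 * (n : ℝ) ^ ((1 / 2 : ℝ) * q) ≤ C1 * (N₀ : ℝ) ^ ((1 / 2 : ℝ) * q) :=
      mul_le_mul_of_nonneg_left h1 hC1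
    have h3 : (1 + C2 + 1 + C1 * (N₀ : ℝ) ^ ((1 / 2 : ℝ) * q)) * 1 ≤
        (1 + C2 + 1 + C1 * (N₀ : ℝ) ^ ((1 / 2 : ℝ) * q)) * (n : ℝ) ^ (x' * q) :=
      mul_le_mul_of_nonneg_left hxq (by linarith)
    linarith

/-- The free energy is at most its mean plus one with a polynomial probability. -/
theorem mean8 (hd : 0 < d) (hρ : EM ρ) (β : ℝ) : ∃ C : ℝ, 0 ≤ C ∧ ∀ (h : Vec d) (n : ℕ), 1 ≤ n →
    1 / (C * n + 4) ≤ (law d ρ).real {η | X β h η n ≤ A ρ β h n + 1} := by
  obtain ⟨C, hC, hm⟩ := momU (ρ := ρ) hd hρ β 2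
  refine ⟨2 * C, by linarith, fun h n hn => ?_⟩
  have hn0 : (0 : ℝ) < n := by exact_mod_cast hn
  obtain ⟨i2, b2⟩ := hm h n hn
  have b2' : ∫ η, |X β h η n - A ρ β h n| ^ 2 ∂(law d ρ) ≤ C * n := by
    refine b2.trans (le_of_eq ?_)
    congr 1
    rw [show (1 / 2 : ℝ) * ((2 : ℕ) : ℝ) = 1 by norm_num, Real.rpow_one]
  have iX : Integrable (fun η => X β h η n) (law d ρ) := (concU hd hρ β h n).1
  obtain ⟨E, hE⟩ : ∃ E : Set (Env d), E = {η | X β h η n ≤ A ρ β h n + 1} := ⟨_, rfl⟩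
  have hmE : MeasurableSet E := by
    rw [hE]
    exact measurableSet_le (measurable_X β h n) measurable_const
  rw [← hE]
  obtain ⟨ε, hε⟩ : ∃ ε : ℝ, ε = 1 / (2 * (C * n + 1)) := ⟨_, rfl⟩
  have hCn : 0 < C * n + 1 := by positivity
  have hε0 : 0 < ε := by rw [hε]; positivity
  -- `1 - 1_E ≤ (X - A) + ε (X - A)^2 + (1 + 1 / (4 ε)) ... ` on the whole space
  have hpt : ∀ η : Env d, 1 ≤ (X β h η n - A ρ β h n) +
      (ε * |X β h η n - A ρ β h n| ^ 2 + (1 + (C * n + 1)) * E.indicator (fun _ => (1 : ℝ)) η) := by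
    intro η
    obtain ⟨y, hy⟩ : ∃ y : ℝ, y = X β h η n - A ρ β h n := ⟨_, rfl⟩
    rw [← hy, sq_abs]
    by_cases hη : η ∈ E
    · rw [Set.indicator_of_mem hη, mul_one]
      have h1 : ε * y ^ 2 + y + (C * n + 1) / 2 = (y + (C * n + 1)) ^ 2 / (2 * (C * n + 1)) := by
        rw [hε]
        field_simp
        ring
      have h2 : 0 ≤ (y + (C * n + 1)) ^ 2 / (2 * (C * n + 1)) := by positivity
      linarith
    · rw [Set.indicator_of_notMem hη, mul_zero]
      have h1 : ¬ X β h η n ≤ A ρ β h n + 1 := by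
        intro h2
        exact hη (by rw [hE]; exact h2)
      have h3 : 0 ≤ ε * y ^ 2 := by positivity
      rw [hy]
      rw [hy] at h3
      linarith
  have j1 : Integrable (fun η : Env d => X β h η n - A ρ β h n) (law d ρ) :=
    iX.sub (integrable_const _)
  have j2 : Integrable (fun η : Env d => ε * |X β h η n - A ρ β h n| ^ 2) (law d ρ) :=
    i2.const_mul _
  have j3 : Integrable (fun η : Env d => (1 + (C * n + 1)) * E.indicator (fun _ => (1 : ℝ)) η)
      (law d ρ) := ((integrable_const 1).indicator hmE).const_mul _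
  have j23 : Integrable (fun η : Env d => ε * |X β h η n - A ρ β h n| ^ 2 +
      (1 + (C * n + 1)) * E.indicator (fun _ => (1 : ℝ)) η) (law d ρ) := j2.add j3
  have j : Integrable (fun η : Env d => (X β h η n - A ρ β h n) +
      (ε * |X β h η n - A ρ β h n| ^ 2 +
      (1 + (C * n + 1)) * E.indicator (fun _ => (1 : ℝ)) η)) (law d ρ) := j1.add j23
  have h7 := integral_mono (integrable_const (1 : ℝ)) j hpt
  have h8 : ∫ η, (X β h η n - A ρ β h n) ∂(law d ρ) = 0 := by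
    rw [integral_sub iX (integrable_const _)]
    simp [A]
  rw [integral_add j1 j23, integral_add j2 j3, integral_const_mul, integral_const_mul,
    integral_indicator hmE, h8] at h7
  simp only [integral_const, probReal_univ, smul_eq_mul, mul_one, zero_add,
    measureReal_restrict_apply MeasurableSet.univ, Set.univ_inter] at h7
  have h9 : ε * ∫ η, |X β h η n - A ρ β h n| ^ 2 ∂(law d ρ) ≤ 1 / 2 := by
    refine (mul_le_mul_of_nonneg_left b2' hε0.le).trans ?_
    rw [hε, div_mul_eq_mul_div, one_mul, div_le_iff₀ (by positivity)]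
    linarith
  have h10 : 1 / 2 ≤ (1 + (C * n + 1)) * (law d ρ).real E := by linarith
  rw [div_le_iff₀ (by positivity)]
  linarith

/-- **Block (4a).** If the moments of the free energy are not bounded with the exponent `x'`, then
for `x < x'` and infinitely many `N` the free energy is larger than `N lam + N ^ x` with a
polynomial probability. -/
theorem up8 (hd : 0 < d) (hρ : EM ρ) (hA : AmpN ρ β d) (h : Vec d) {x x' : ℝ} (hx : 0 < x)
    (hxx : x < x') (hF : ¬ FlF ρ β h x')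
    (h0 : ∃ C₀ : ℝ, ∀ᶠ N : ℕ in atTop,
      (N : ℝ) ^ (-C₀) ≤ (law d ρ).real {η | N * lam ρ β h - 2 ≤ X β h η N}) :
    ∃ Q : ℝ, 0 < Q ∧ ∃ᶠ N : ℕ in atTop,
      (N : ℝ) ^ (-Q) ≤ (law d ρ).real {η | N * lam ρ β h + (N : ℝ) ^ x ≤ X β h η N} := by
  obtain ⟨C₀, hC₀⟩ := h0
  obtain ⟨y, hy⟩ : ∃ y : ℝ, y = (x + x') / 2 := ⟨_, rfl⟩
  have hxy : x < y := by rw [hy]; linarith
  have hyx : y < x' := by rw [hy]; linarith
  have hy0 : 0 < y := by linarith
  obtain ⟨Q₁, hQ₁, hfr⟩ := dev8 hd hρ h hy0 hyx hF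
  obtain ⟨Cm, hCm, hmean⟩ := mean8 (ρ := ρ) hd hρ β
  obtain ⟨C, hC1, hamp⟩ := hA 1 le_rfl
  obtain ⟨Q', hQ'⟩ : ∃ Q' : ℝ, Q' = Q₁ + |C₀| + 3 := ⟨_, rfl⟩
  have hab := abs_nonneg C₀
  have hab2 := le_abs_self C₀
  have hQ'1 : 1 ≤ Q' := by linarith
  refine ⟨Q' * C, by positivity, ?_⟩
  -- the eventual numbers
  have t1 : Tendsto (fun N : ℕ => (N : ℝ)) atTop atTop := tendsto_natCast_atTop_atTop
  have e1 : ∀ᶠ N : ℕ in atTop, (N : ℝ) ^ x + 7 ≤ (N : ℝ) ^ y / 2 := by
    have h1 : Tendsto (fun N : ℕ => (N : ℝ) ^ (y - x)) atTop atTop :=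
      (tendsto_rpow_atTop (by linarith)).comp t1
    filter_upwards [h1.eventually_ge_atTop 16, eventually_ge_atTop 1] with N h2 h3
    have hN : (1 : ℝ) ≤ N := by exact_mod_cast h3
    have hN0 : (0 : ℝ) < N := by linarith
    have h4 : (N : ℝ) ^ y = (N : ℝ) ^ (y - x) * (N : ℝ) ^ x := by
      rw [← Real.rpow_add hN0]
      congr 1
      ring
    have h5 : 1 ≤ (N : ℝ) ^ x := Real.one_le_rpow hN hx.le
    rw [h4]
    nlinarith
  have e2 : ∀ᶠ N : ℕ in atTop, C * (1 + Q' * Real.log N) ≤ (N : ℝ) ^ y / 2 - 4 := by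
    have h1 : Tendsto (fun N : ℕ => (N : ℝ) ^ y) atTop atTop := (tendsto_rpow_atTop hy0).comp t1
    have hCQ : 0 < C * Q' := by nlinarith
    have h2 := t1.eventually ((isLittleO_log_rpow_atTop hy0).bound
      (show (0 : ℝ) < 1 / (4 * (C * Q')) by positivity))
    filter_upwards [h1.eventually_ge_atTop (4 * (C + 4)), h2, eventually_ge_atTop 1]
      with N h3 h4 h5
    have hN : (1 : ℝ) ≤ N := by exact_mod_cast h5
    rw [Real.norm_of_nonneg (Real.log_nonneg hN), Real.norm_of_nonneg (by positivity)] at h4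
    have h6 : C * Q' * Real.log N ≤ (N : ℝ) ^ y / 4 := by
      calc C * Q' * Real.log N ≤ C * Q' * (1 / (4 * (C * Q')) * (N : ℝ) ^ y) :=
            mul_le_mul_of_nonneg_left h4 hCQ.le
        _ = (N : ℝ) ^ y / 4 := by field_simp
    have h7 : C * (1 + Q' * Real.log N) = C + C * Q' * Real.log N := by ring
    rw [h7]
    linarith
  have e3 : ∀ᶠ N : ℕ in atTop, (N : ℝ) ^ (-Q') ≤ 1 / (Cm * N + 4) := by
    filter_upwards [t1.eventually_ge_atTop (Cm + 4), eventually_ge_atTop 1] with N h3 h5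
    have hN : (1 : ℝ) ≤ N := by exact_mod_cast h5
    have hN0 : (0 : ℝ) < N := by linarith
    have h6 : (N : ℝ) ^ (-Q') ≤ (N : ℝ) ^ (-2 : ℝ) :=
      Real.rpow_le_rpow_of_exponent_le hN (by linarith)
    refine h6.trans ?_
    rw [Real.rpow_neg hN0.le, one_div]
    apply inv_anti₀ (by positivity)
    rw [show (2 : ℝ) = ((2 : ℕ) : ℝ) by norm_num, Real.rpow_natCast]
    nlinarith
  have e4 : ∀ᶠ N : ℕ in atTop, 2 ≤ N := eventually_ge_atTop 2
  refine (hfr.and_eventually (hC₀.and (e1.and (e2.and (e3.and e4))))).mono ?_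
  rintro N ⟨hdev, hlo, k1, k2, k3, k4⟩
  have hN0 : (0 : ℝ) < N := by
    have : 0 < N := by omega
    exact_mod_cast this
  have hN2 : (2 : ℝ) ≤ N := by exact_mod_cast k4
  have hN1 : (1 : ℝ) ≤ N := by linarith
  obtain ⟨q, hq⟩ : ∃ q : ℝ, q = (N : ℝ) ^ (-Q') := ⟨_, rfl⟩
  have hq0 : 0 < q := by rw [hq]; exact Real.rpow_pos_of_pos hN0 _
  have hqh : q ≤ 1 / 2 := by
    have h1 : (N : ℝ) ^ (-Q') ≤ (N : ℝ) ^ (-1 : ℝ) :=
      Real.rpow_le_rpow_of_exponent_le hN1 (by linarith)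
    rw [Real.rpow_neg_one] at h1
    rw [hq]
    refine h1.trans ?_
    rw [one_div]
    exact inv_anti₀ (by norm_num) hN2
  have hlogq : Real.log (1 / q) = Q' * Real.log N := by
    rw [one_div, Real.log_inv, hq, Real.log_rpow hN0]
    ring
  have hAl : A ρ β h N ≤ N * lam ρ β h := A_le_lam hd hρ β h N
  -- the final estimate from the low event
  have hfin : q ≤ (law d ρ).real {η | X β h η N ≤ N * lam ρ β h - (N : ℝ) ^ y / 2 + 1} →
      (N : ℝ) ^ (-(Q' * C)) ≤ (law d ρ).real {η | N * lam ρ β h + (N : ℝ) ^ x ≤ X β h η N} := by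
    intro hlow
    have h1 : q ≤ (law d ρ).real {η | N * lam ρ β h - 3 < X β h η N} := by
      have h2 : (N : ℝ) ^ (-Q') ≤ (N : ℝ) ^ (-C₀) :=
        Real.rpow_le_rpow_of_exponent_le hN1 (by linarith)
      rw [hq]
      refine h2.trans (hlo.trans (measureReal_mono ?_))
      intro η hη
      have h3 : N * lam ρ β h - 2 ≤ X β h η N := hη
      show N * lam ρ β h - 3 < X β h η N
      linarith
    have h3 := hamp h N (N * lam ρ β h - (N : ℝ) ^ y / 2 + 1) (N * lam ρ β h - 3) q hq0 hqh (by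
      rw [hlogq]
      linarith) hlow h1
    have h4 : q ^ C = (N : ℝ) ^ (-(Q' * C)) := by
      rw [hq, ← Real.rpow_mul hN0.le]
      congr 1
      ring
    rw [← h4]
    refine h3.trans (measureReal_mono ?_)
    intro η hη
    have h5 : N * lam ρ β h - 3 + 1 * (N * lam ρ β h - 3 - (N * lam ρ β h - (N : ℝ) ^ y / 2 + 1)) <
      X β h η N := hη
    show N * lam ρ β h + (N : ℝ) ^ x ≤ X β h η N
    linarith
  rcases le_or_gt ((N : ℝ) ^ y / 2) (N * lam ρ β h - A ρ β h N) with ha | ha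
  · apply hfin
    rw [hq]
    refine k3.trans ((hmean h N (by omega)).trans (measureReal_mono ?_))
    intro η hη
    have h3 : X β h η N ≤ A ρ β h N + 1 := hη
    show X β h η N ≤ N * lam ρ β h - (N : ℝ) ^ y / 2 + 1
    linarith
  · -- one of the two sides
    have hsplit : (law d ρ).real {η | (N : ℝ) ^ y ≤ |X β h η N - A ρ β h N|} ≤
        (law d ρ).real {η | N * lam ρ β h + (N : ℝ) ^ x ≤ X β h η N} +
        (law d ρ).real {η | X β h η N ≤ N * lam ρ β h - (N : ℝ) ^ y / 2 + 1} := by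
      refine (measureReal_mono ?_).trans (measureReal_union_le _ _)
      intro η hη
      have h3 : (N : ℝ) ^ y ≤ |X β h η N - A ρ β h N| := hη
      rcases le_abs.1 h3 with h4 | h4
      · left
        show N * lam ρ β h + (N : ℝ) ^ x ≤ X β h η N
        linarith
      · right
        show X β h η N ≤ N * lam ρ β h - (N : ℝ) ^ y / 2 + 1
        linarith
    by_contra hcon
    rw [not_le] at hcon
    have h5 : (law d ρ).real {η | X β h η N ≤ N * lam ρ β h - (N : ℝ) ^ y / 2 + 1} < q := by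
      by_contra h6
      rw [not_lt] at h6
      exact absurd (hfin h6) (not_le.2 hcon)
    have h7 : (N : ℝ) ^ (-(Q' * C)) ≤ q := by
      rw [hq]
      apply Real.rpow_le_rpow_of_exponent_le hN1
      nlinarith
    have h8 : 2 * q ≤ (N : ℝ) ^ (-Q₁) := by
      rw [hq]
      have h9 : (N : ℝ) ^ (-Q') ≤ (N : ℝ) ^ (-Q₁ - 1) :=
        Real.rpow_le_rpow_of_exponent_le hN1 (by linarith)
      have h10 : (N : ℝ) ^ (-Q₁ - 1) = (N : ℝ) ^ (-Q₁) / N := by
        rw [Real.rpow_sub_one hN0.ne']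
      rw [h10, le_div_iff₀ hN0] at h9
      have h11 : 0 < (N : ℝ) ^ (-Q') := Real.rpow_pos_of_pos hN0 _
      nlinarith
    linarith

end Pool.Agent.W_7d29a1_PK
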