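import Mathlib

/-!
# A variable is near or below its mean with probability at least `1 / V`

Cauchy-Schwarz (Paley-Zygmund) form of the statement that a square integrable variable does not
exceed its mean plus `s` with probability at least `s ^ 2 / V`.
-/

namespace Pool.Agent.W_7d29a1_PK.Mean27

open MeasureTheory

variable {Ω : Type*} [MeasurableSpace Ω]

/-- If `∫ X ≤ a` and `∫ (a + s - X) ^ 2 ≤ V` then `X ≤ a + s` with probability `≥ s ^ 2 / V`. -/
theorem low {μ : Measure Ω} [IsProbabilityMeasure μ] {X : Ω → ℝ} (hX : MemLp X 2 μ)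
    {a s V : ℝ} (hs : 0 < s) (hm : ∫ x, X x ∂μ ≤ a)
    (hV : ∫ x, (a + s - X x) ^ 2 ∂μ ≤ V) (hV0 : 0 < V) :
    s ^ 2 / V ≤ μ.real {x | X x ≤ a + s} := by
  have hXi : Integrable X μ := hX.integrable (by norm_num)
  have hYp : MemLp (fun x => a + s - X x) 2 μ := (memLp_const (a + s)).sub hX
  have hYi : Integrable (fun x => a + s - X x) μ := hYp.integrable (by norm_num)
  have hY2 : Integrable (fun x => (a + s - X x) ^ 2) μ := hYp.integrable_sq
  have hA : NullMeasurableSet {x | X x ≤ a + s} μ :=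
    nullMeasurableSet_le hX.aestronglyMeasurable.aemeasurable aemeasurable_const
  have hle : ∫ x, (a + s - X x) ∂μ ≤ ∫ x, ((s / (2 * V)) * (a + s - X x) ^ 2 +
      (V / (2 * s)) * Set.indicator {x | X x ≤ a + s} (fun _ => (1 : ℝ)) x) ∂μ := by
    refine integral_mono hYi ?_ ?_
    · refine (hY2.const_mul _).add (Integrable.const_mul ?_ _)
      exact (integrable_const (1 : ℝ)).indicator₀ hA
    · intro x
      by_cases hx : X x ≤ a + s
      · have h1 : Set.indicator {x | X x ≤ a + s} (fun _ => (1 : ℝ)) x = 1 :=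
          Set.indicator_of_mem (show x ∈ {x | X x ≤ a + s} from hx) _
        simp only [h1, mul_one]
        have h2 : 0 ≤ (s / (2 * V)) * (a + s - X x - V / s) ^ 2 := by positivity
        have h3 : (s / (2 * V)) * (a + s - X x - V / s) ^ 2 =
            (s / (2 * V)) * (a + s - X x) ^ 2 + V / (2 * s) - (a + s - X x) := by
          field_simp
          ring
        linarith
      · have h1 : Set.indicator {x | X x ≤ a + s} (fun _ => (1 : ℝ)) x = 0 :=
          Set.indicator_of_notMem (show x ∉ {x | X x ≤ a + s} from hx) _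
        simp only [h1, mul_zero, add_zero]
        have h2 : a + s - X x ≤ 0 := by linarith [not_le.1 hx]
        have h3 : 0 ≤ (s / (2 * V)) * (a + s - X x) ^ 2 := by positivity
        linarith
  have hint : ∫ x, ((s / (2 * V)) * (a + s - X x) ^ 2 +
      (V / (2 * s)) * Set.indicator {x | X x ≤ a + s} (fun _ => (1 : ℝ)) x) ∂μ =
      (s / (2 * V)) * ∫ x, (a + s - X x) ^ 2 ∂μ + (V / (2 * s)) * μ.real {x | X x ≤ a + s} := by
    rw [integral_add (hY2.const_mul _)
      (((integrable_const (1 : ℝ)).indicator₀ hA).const_mul _), integral_const_mul,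
      integral_const_mul, integral_indicator₀ hA]
    simp
  have hl : s ≤ ∫ x, (a + s - X x) ∂μ := by
    rw [integral_sub (integrable_const _) hXi]
    simp only [integral_const, probReal_univ, one_smul]
    linarith
  have h4 : (s / (2 * V)) * ∫ x, (a + s - X x) ^ 2 ∂μ ≤ s / 2 := by
    calc (s / (2 * V)) * ∫ x, (a + s - X x) ^ 2 ∂μ ≤ (s / (2 * V)) * V :=
          mul_le_mul_of_nonneg_left hV (by positivity)
      _ = s / 2 := by field_simp
  have h5 : s / 2 ≤ (V / (2 * s)) * μ.real {x | X x ≤ a + s} := by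
    rw [hint] at hle
    linarith
  rw [div_le_iff₀ hV0]
  have h6 : s ^ 2 = (2 * s) * (s / 2) := by ring
  have h7 : (2 * s) * ((V / (2 * s)) * μ.real {x | X x ≤ a + s}) =
      μ.real {x | X x ≤ a + s} * V := by
    field_simp
  rw [h6, ← h7]
  exact mul_le_mul_of_nonneg_left h5 (by positivity)

/-- Upper bound of a second moment around any point from the one around another point. -/
theorem sq_shift {μ : Measure Ω} [IsProbabilityMeasure μ] {X : Ω → ℝ} (hX : MemLp X 2 μ)
    {a b V : ℝ} (hV : ∫ x, (X x - b) ^ 2 ∂μ ≤ V) :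
    ∫ x, (a - X x) ^ 2 ∂μ ≤ 2 * V + 2 * (a - b) ^ 2 := by
  have h1 : Integrable (fun x => (X x - b) ^ 2) μ :=
    (hX.sub (memLp_const b)).integrable_sq
  have h2 : Integrable (fun x => (a - X x) ^ 2) μ :=
    ((memLp_const a).sub hX).integrable_sq
  calc ∫ x, (a - X x) ^ 2 ∂μ ≤ ∫ x, (2 * (X x - b) ^ 2 + 2 * (a - b) ^ 2) ∂μ := by
        refine integral_mono h2 ((h1.const_mul 2).add (integrable_const _)) fun x => ?_
        show (a - X x) ^ 2 ≤ 2 * (X x - b) ^ 2 + 2 * (a - b) ^ 2
        nlinarith [sq_nonneg ((X x - b) + (a - b))]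
    _ = 2 * ∫ x, (X x - b) ^ 2 ∂μ + 2 * (a - b) ^ 2 := by
        rw [integral_add (h1.const_mul 2) (integrable_const _), integral_const_mul]
        simp
    _ ≤ 2 * V + 2 * (a - b) ^ 2 := by linarith

end Pool.Agent.W_7d29a1_PK.Mean27
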