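import Pool.Agent.W_7d29a1_PK.AmpE77
import Pool.Agent.W_7d29a1_PK.Mean27
import Pool.Agent.W_7d29a1_V.FarL70
import Pool.Agent.W_7d29a1_D2.FlK4

/-!
The mass of the walks in a half space, under an upper bound of order `p` of the free energy on the
ray of its direction, by amplification of that mass (helper77).
-/

set_option autoImplicit false

namespace Pool.Agent.W_7d29a1_PK.Half77

open MeasureTheory ProbabilityTheory Filter Topology Set Pool.Agent.W_MP_7d29a1_pr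
  Pool.Agent.W_7d29a1_h46 Pool.Agent.W_7d29a1_h46u Pool.Agent.W_7d29a1_D2

variable {d : ℕ} {ρ : Measure ℝ} [IsProbabilityMeasure ρ] {β : ℝ}

/-- The walks with `w ≤ ⟨u, S_i⟩ - i s`. -/
def Hn (d n i : ℕ) (u : Vec d) (s w : ℝ) : Set (Fin n → Step d) :=
  {p | w ≤ inner ℝ u (emb (pos p i)) - i * s}

lemma hn_le (β : ℝ) (h u : Vec d) (η : Env d) {i n : ℕ} (hi : i ≤ n) (s w : ℝ)
    {M : ℝ} (hM : ∀ y ∈ boxF d i, Z β h (sh i y η) (n - i) ≤ M) :
    ZT β h η (Hn d n i u s w) ≤ ZT β h η (Hn d i i u s w) * M := by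
  classical
  obtain ⟨k, rfl⟩ := Nat.exists_eq_add_of_le hi
  have hk : i + k - i = k := by omega
  rw [hk] at hM
  unfold ZT
  rw [sum_glue, Finset.sum_mul]
  refine Finset.sum_le_sum fun q _ => ?_
  have hw0 : 0 < wgt β h η q := Real.exp_pos _
  have hMs := hM (pos q i) (pos_mem_box q i)
  by_cases hs : q ∈ Hn d i i u s w
  · have e1 : ∑ r : Fin k → Step d, (if Fin.append q r ∈ Hn d (i + k) i u s w
        then wgt β h η (Fin.append q r) else 0) = wgt β h η q * Z β h (sh i (pos q i) η) k := by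
      rw [Z_eq, Finset.mul_sum]
      refine Finset.sum_congr rfl fun r _ => ?_
      rw [if_pos, wgt_glue]
      show w ≤ inner ℝ u (emb (pos (Fin.append q r) i)) - i * s
      rw [pos_glue_le q r le_rfl]
      exact hs
    rw [e1, if_pos hs]
    exact mul_le_mul_of_nonneg_left hMs hw0.le
  · have e1 : ∑ r : Fin k → Step d, (if Fin.append q r ∈ Hn d (i + k) i u s w
        then wgt β h η (Fin.append q r) else 0) = 0 := by
      refine Finset.sum_eq_zero fun r _ => ?_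
      rw [if_neg]
      show ¬ w ≤ inner ℝ u (emb (pos (Fin.append q r) i)) - i * s
      rw [pos_glue_le q r le_rfl]
      exact hs
    rw [e1, if_neg hs, zero_mul]

lemma hf_le (β : ℝ) (h u : Vec d) (η : Env d) (i : ℕ) (s w : ℝ) {t : ℝ} (ht : 0 ≤ t) :
    ZT β h η (Hn d i i u s w) ≤ Real.exp (-(t * (i * s)) - t * w) * Z β (h + t • u) η i := by
  classical
  rw [Z_eq β (h + t • u) η i, Finset.mul_sum]
  unfold ZT
  refine Finset.sum_le_sum fun q _ => ?_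
  have hw0 : 0 < wgt β h η q := Real.exp_pos _
  rw [Pool.Agent.W_7d29a1_V.Li70.wgtL]
  by_cases hs : q ∈ Hn d i i u s w
  · rw [if_pos hs]
    have hs' : w ≤ inner ℝ u (emb (pos q i)) - i * s := hs
    have e2 : (1 : ℝ) ≤ Real.exp (-(t * (i * s)) - t * w) *
        Real.exp (t * inner ℝ u (emb (pos q i))) := by
      rw [← Real.exp_add]
      refine Real.one_le_exp ?_
      have e3 : -(t * (i * s)) - t * w + t * inner ℝ u (emb (pos q i)) =
          t * (inner ℝ u (emb (pos q i)) - i * s - w) := by ring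
      rw [e3]
      exact mul_nonneg ht (by linarith)
    calc wgt β h η q ≤ (Real.exp (-(t * (i * s)) - t * w) *
          Real.exp (t * inner ℝ u (emb (pos q i)))) * wgt β h η q :=
          le_mul_of_one_le_left hw0.le e2
      _ = _ := by ring
  · rw [if_neg hs]
    exact mul_nonneg (Real.exp_pos _).le (mul_nonneg (Real.exp_pos _).le hw0.le)

/-- The mean is reached from below with a polynomial probability. -/
lemma low (hd : 0 < d) (hρ : EM ρ) (β : ℝ) : ∃ C : ℝ, 1 ≤ C ∧ ∀ (h : Vec d) (i n : ℕ),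
    i ≤ n → 1 ≤ n → 1 / (C * n) ≤ (law d ρ).real {η | X β h η i ≤ A ρ β h i + 1} := by
  obtain ⟨C, hC, H⟩ := momU (d := d) hd hρ β 2
  refine ⟨2 * C + 2, by linarith, fun h i n hi hn => ?_⟩
  have hn1 : (1 : ℝ) ≤ n := by exact_mod_cast hn
  have hin : (i : ℝ) ≤ n := by exact_mod_cast hi
  rcases Nat.eq_zero_or_pos i with hi0 | hi0
  · subst hi0
    have h1 : ∀ η : Env d, X β h η 0 = 0 := by
      intro η
      rw [X, Z_zero, Real.log_one]
    have h2 : A ρ β h 0 = 0 := by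
      unfold A
      simp only [h1]
      exact integral_zero _ _
    have h3 : {η : Env d | X β h η 0 ≤ A ρ β h 0 + 1} = univ := by
      rw [eq_univ_iff_forall]
      intro η
      show X β h η 0 ≤ A ρ β h 0 + 1
      rw [h1, h2]
      norm_num
    rw [h3, probReal_univ, div_le_one (by positivity)]
    nlinarith
  · obtain ⟨hI, hV⟩ := H h i hi0
    have hi1 : (0 : ℝ) < i := by exact_mod_cast hi0
    have hm : AEStronglyMeasurable (fun η => X β h η i - A ρ β h i) (law d ρ) :=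
      ((measurable_X β h i).sub_const _).aestronglyMeasurable
    have hL1 : MemLp (fun η => X β h η i - A ρ β h i) 2 (law d ρ) := by
      rw [memLp_two_iff_integrable_sq hm]
      simpa only [sq_abs] using hI
    have hL : MemLp (fun η => X β h η i) 2 (law d ρ) := by
      have h2 := hL1.add (memLp_const (A ρ β h i))
      have h3 : (fun η => X β h η i - A ρ β h i) + (fun _ : Env d => A ρ β h i) =
          fun η => X β h η i := by
        funext η
        simp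
      rwa [h3] at h2
    have hV' : ∫ η, (X β h η i - A ρ β h i) ^ 2 ∂(law d ρ) ≤ C * n := by
      have h2 : (i : ℝ) ^ ((1 / 2 : ℝ) * ((2 : ℕ) : ℝ)) = i := by
        have h3 : (1 / 2 : ℝ) * ((2 : ℕ) : ℝ) = 1 := by norm_num
        rw [h3, Real.rpow_one]
      rw [h2] at hV
      simp only [sq_abs] at hV
      exact hV.trans (mul_le_mul_of_nonneg_left hin hC)
    have h5 := Mean27.sq_shift (a := A ρ β h i + 1) hL hV'
    have h6 : ∫ η, (A ρ β h i + 1 - X β h η i) ^ 2 ∂(law d ρ) ≤ (2 * C + 2) * n := by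
      refine h5.trans ?_
      have : (A ρ β h i + 1 - A ρ β h i) ^ 2 = 1 := by ring
      rw [this]
      linarith
    have key := Mean27.low hL (a := A ρ β h i) (s := 1) (V := (2 * C + 2) * n) one_pos le_rfl h6
      (by positivity)
    rw [one_pow] at key
    exact key

lemma ev_pow {y z B c : ℝ} (hyz : y < z) (hc : 0 < c) :
    ∀ᶠ n : ℕ in atTop, B * (n : ℝ) ^ y ≤ c * (n : ℝ) ^ z := by
  have h1 : Tendsto (fun n : ℕ => (n : ℝ) ^ (z - y)) atTop atTop :=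
    (tendsto_rpow_atTop (by linarith)).comp tendsto_natCast_atTop_atTop
  filter_upwards [h1.eventually_ge_atTop (B / c), eventually_ge_atTop 1] with n hn hn1
  have hn0 : (0 : ℝ) < n := by exact_mod_cast hn1
  have h2 : (n : ℝ) ^ z = (n : ℝ) ^ (z - y) * (n : ℝ) ^ y := by
    rw [← Real.rpow_add hn0]
    congr 1
    ring
  rw [div_le_iff₀ hc] at hn
  rw [h2]
  have h3 : 0 ≤ (n : ℝ) ^ y := Real.rpow_nonneg hn0.le _
  nlinarith

lemma ev_log {y : ℝ} (hy : 0 < y) : ∀ᶠ n : ℕ in atTop, Real.log n ≤ (n : ℝ) ^ y := by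
  have h1 := (isLittleO_log_rpow_atTop hy).bound (c := 1) one_pos
  have h2 := tendsto_natCast_atTop_atTop (R := ℝ) |>.eventually h1
  filter_upwards [h2, eventually_ge_atTop 1] with n hn hn1
  have hn0 : (0 : ℝ) ≤ n := Nat.cast_nonneg n
  rw [one_mul, Real.norm_eq_abs, Real.norm_eq_abs, abs_of_nonneg (Real.rpow_nonneg hn0 _)] at hn
  exact (le_abs_self _).trans hn

/-- The moments at one tilt as a family. -/
lemma flK_single {h : Vec d} {x : ℝ} (hF : FlF ρ β h x) : FlK ρ β (fun _ => {h}) x := by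
  refine ⟨fun _ _ _ => le_rfl, fun q => ?_⟩
  obtain ⟨C, hC⟩ := hF q
  refine ⟨C, fun k hk n hn => ?_⟩
  have hk' : k = h := hk
  rw [hk']
  exact hC n hn

/-- All free energies at `h` are close to their limits. -/
lemma good (hd : 0 < d) (hρ : EM ρ) {h : Vec d} {x y : ℝ} (hx : 0 < x) (hF : FlF ρ β h x)
    (hxy : x < y) (hy1 : y < 1) (q : ℕ) : ∃ C : ℝ, 0 ≤ C ∧ ∀ᶠ n : ℕ in atTop,
      (law d ρ).real {η | ¬ ∀ i ≤ n, ∀ z ∈ boxF d n, ∀ l ≤ n,
        |X β h (sh i z η) l - l * lam ρ β h| ≤ (n : ℝ) ^ y} ≤ C * (n : ℝ) ^ (-(q : ℝ)) := by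
  have hε : 0 < (y - x) / 2 := by linarith
  obtain ⟨Q, C, hC, H⟩ := evFK4 hd hρ hx.le (flK_single hF) hε (by linarith) q
  refine ⟨C, hC, ?_⟩
  filter_upwards [ev_pow (B := C) (c := 1) (show x + (y - x) / 2 < y by linarith) one_pos,
    eventually_ge_atTop 1] with n hn hn1
  have hn0 : (0 : ℝ) < n := by exact_mod_cast hn1
  refine (measureReal_mono ?_).trans (H h rfl n n hn1 le_rfl)
  intro η hη hcon
  apply hη
  intro i hi z hz l hl
  refine (hcon i hi z hz l hl).trans ?_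
  rw [← Real.rpow_add hn0]
  rw [one_mul] at hn
  exact hn

/-- **The mass of a half space.** -/
theorem leaf (hd : 0 < d) (hρ : EM ρ) (hA : AmpE ρ β d) {h u : Vec d} {s p C₀ δ x y a κ' : ℝ}
    (hp : 1 < p) (hδ : 0 < δ) (hC₀ : 0 < C₀)
    (hup : ∀ t : ℝ, 0 < t → t ≤ δ → lam ρ β (h + t • u) ≤ lam ρ β h + t * s + C₀ * t ^ p)
    (hx : 0 < x) (hF : FlF ρ β h x) (ha1 : a < 1) (hxy : x < y) (hy1 : y < 1)
    (hy : 1 + (p - 1) * y < p * a) (hκ' : 0 < κ') (Q : ℕ) :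
    ∀ᶠ n : ℕ in atTop, ∀ i ≤ n,
      (law d ρ).real {η | Real.exp (i * lam ρ β h - 4 * (n : ℝ) ^ y) <
        ZT β h η (Hn d i i u s (κ' * (n : ℝ) ^ a))} ≤ (n : ℝ) ^ (-(Q : ℝ)) := by
  have hp1 : 0 < p - 1 := by linarith
  have hy0 : 0 < y := hx.trans hxy
  obtain ⟨z, hz⟩ : ∃ z : ℝ, z = (p * a - 1) / (p - 1) := ⟨_, rfl⟩
  have hyz : y < z := by
    rw [hz, lt_div_iff₀ hp1]
    linarith
  obtain ⟨b, hb⟩ : ∃ b : ℝ, b = (1 - a) / (p - 1) := ⟨_, rfl⟩
  have hb0 : 0 < b := by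
    rw [hb]
    exact div_pos (by linarith) hp1
  have hbz1 : -b + a = z := by
    rw [hb, hz]
    field_simp
    ring
  have hbz2 : 1 + -b * p = z := by
    rw [hb, hz]
    field_simp
    ring
  -- the constant `κ`
  obtain ⟨κ, hκ, hκ2⟩ : ∃ κ : ℝ, 0 < κ ∧ C₀ * κ ^ (p - 1) ≤ κ' / 2 := by
    refine ⟨(κ' / (2 * C₀)) ^ (1 / (p - 1)), Real.rpow_pos_of_pos (by positivity) _, ?_⟩
    rw [← Real.rpow_mul (by positivity), one_div, inv_mul_cancel₀ hp1.ne', Real.rpow_one]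
    refine le_of_eq ?_
    field_simp
  have hκ3 : C₀ * κ ^ p ≤ κ * κ' / 2 := by
    have h1 : κ ^ p = κ ^ (p - 1) * κ := by
      nth_rewrite 3 [← Real.rpow_one κ]
      rw [← Real.rpow_add hκ]
      congr 1
      ring
    rw [h1]
    have h2 := mul_le_mul_of_nonneg_right hκ2 hκ.le
    linarith
  obtain ⟨Ca, hCa, hAmp⟩ := hA 1 le_rfl
  obtain ⟨Cl, hCl, hLow⟩ := low (d := d) hd hρ β
  obtain ⟨Q₂, hQ₂⟩ := exists_nat_gt ((Q + 2 : ℝ) * Ca)
  obtain ⟨Cg, hCg, hGood⟩ := good hd hρ hx hF hxy hy1 Q₂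
  obtain ⟨c, hc⟩ : ∃ c : ℝ, c = κ * κ' / 2 := ⟨_, rfl⟩
  have hc0 : 0 < c := by
    rw [hc]
    positivity
  have ht : ∀ᶠ n : ℕ in atTop, κ * (n : ℝ) ^ (-b) ≤ δ := by
    have h1 := ((tendsto_rpow_neg_atTop hb0).comp (tendsto_natCast_atTop_atTop (R := ℝ))).const_mul κ
    rw [mul_zero] at h1
    exact h1.eventually_le_const hδ
  filter_upwards [ht, hGood, ev_log hy0,
    ev_pow (B := Ca * (Q + 3) + 20) (c := c) hyz hc0,
    ev_pow (B := Cg) (c := 1 / 2) (show -(Q₂ : ℝ) < -((Q + 2 : ℝ) * Ca) by linarith) (by norm_num),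
    eventually_ge_atTop (max 2 ⌈Cl⌉₊)] with n ht hG hlog hpow hlast hn i hi
  have hn2 : 2 ≤ n := (le_max_left _ _).trans hn
  have hnC : Cl ≤ n := by
    have h1 : ⌈Cl⌉₊ ≤ n := (le_max_right _ _).trans hn
    exact (Nat.le_ceil Cl).trans (by exact_mod_cast h1)
  have hn1 : (1 : ℝ) ≤ n := by
    have : 1 ≤ n := by omega
    exact_mod_cast this
  have hn2' : (2 : ℝ) ≤ n := by exact_mod_cast hn2
  have hn0 : (0 : ℝ) < n := by linarith
  have hi0 : (0 : ℝ) ≤ i := Nat.cast_nonneg _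
  have hin : (i : ℝ) ≤ n := by exact_mod_cast hi
  have hny : 1 ≤ (n : ℝ) ^ y := Real.one_le_rpow hn1 hy0.le
  obtain ⟨t, htdef⟩ : ∃ t : ℝ, t = κ * (n : ℝ) ^ (-b) := ⟨_, rfl⟩
  have ht0 : 0 < t := by
    rw [htdef]
    exact mul_pos hκ (Real.rpow_pos_of_pos hn0 _)
  obtain ⟨w, hw⟩ : ∃ w : ℝ, w = κ' * (n : ℝ) ^ a := ⟨_, rfl⟩
  rw [← hw]
  have htw : t * w = 2 * c * (n : ℝ) ^ z := by
    rw [htdef, hw, hc, ← hbz1, Real.rpow_add hn0]
    ring
  have htp : n * (C₀ * t ^ p) ≤ c * (n : ℝ) ^ z := by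
    have h1 : t ^ p = κ ^ p * (n : ℝ) ^ (-b * p) := by
      rw [htdef, Real.mul_rpow hκ.le (Real.rpow_nonneg hn0.le _), ← Real.rpow_mul hn0.le]
    have h2 : (n : ℝ) ^ z = n * (n : ℝ) ^ (-b * p) := by
      rw [← hbz2, Real.rpow_add hn0, Real.rpow_one]
    rw [h1, h2]
    have h3 : 0 ≤ (n : ℝ) * (n : ℝ) ^ (-b * p) := mul_nonneg hn0.le (Real.rpow_nonneg hn0.le _)
    have h4 := mul_le_mul_of_nonneg_right hκ3 h3
    rw [hc]
    linarith
  -- the levels
  obtain ⟨s₀, hs₀⟩ : ∃ s₀ : ℝ, s₀ = i * lam ρ β h + 1 - c * (n : ℝ) ^ z := ⟨_, rfl⟩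
  obtain ⟨s₁, hs₁⟩ : ∃ s₁ : ℝ, s₁ = i * lam ρ β h - 4 * (n : ℝ) ^ y := ⟨_, rfl⟩
  rw [← hs₁]
  have hdiff : s₁ - s₀ = c * (n : ℝ) ^ z - 1 - 4 * (n : ℝ) ^ y := by
    rw [hs₁, hs₀]
    ring
  obtain ⟨q, hq⟩ : ∃ q : ℝ, q = (n : ℝ) ^ (-(Q + 2 : ℝ)) := ⟨_, rfl⟩
  have hq0 : 0 < q := by
    rw [hq]
    exact Real.rpow_pos_of_pos hn0 _
  have hQ0 : (0 : ℝ) ≤ Q := Nat.cast_nonneg _
  have hqn2 : q ≤ 1 / (Cl * n) := by
    have h1 : (n : ℝ) ^ (-(2 : ℝ)) = 1 / (n * n) := by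
      rw [Real.rpow_neg hn0.le, Real.rpow_two, sq, one_div]
    have h2 : q ≤ (n : ℝ) ^ (-(2 : ℝ)) := by
      rw [hq]
      exact Real.rpow_le_rpow_of_exponent_le hn1 (by linarith)
    refine h2.trans ?_
    rw [h1]
    refine one_div_le_one_div_of_le (by positivity) ?_
    exact mul_le_mul_of_nonneg_right hnC hn0.le
  have hq2 : q ≤ 1 / 2 := by
    refine hqn2.trans (one_div_le_one_div_of_le two_pos ?_)
    nlinarith
  have hlogq : Real.log (1 / q) = (Q + 2) * Real.log n := by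
    rw [one_div, Real.log_inv, hq, Real.log_rpow hn0]
    ring
  have hsc : Ca * (1 + Real.log (1 / q)) ≤ s₁ - s₀ := by
    rw [hlogq, hdiff]
    have h1 : (Q + 2 : ℝ) * Real.log n ≤ (Q + 2) * (n : ℝ) ^ y :=
      mul_le_mul_of_nonneg_left hlog (by linarith)
    have h2 : 1 + (Q + 2 : ℝ) * Real.log n ≤ (Q + 3) * (n : ℝ) ^ y := by linarith
    have h3 : Ca * (1 + (Q + 2 : ℝ) * Real.log n) ≤ Ca * ((Q + 3) * (n : ℝ) ^ y) :=
      mul_le_mul_of_nonneg_left h2 (by linarith)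
    nlinarith
  have h0 : q ≤ (law d ρ).real {η | ZT β h η (Hn d i i u s w) ≤ Real.exp s₀} := by
    refine hqn2.trans ((hLow (h + t • u) i n hi (by omega)).trans ?_)
    refine measureReal_mono fun η (hη : X β (h + t • u) η i ≤ A ρ β (h + t • u) i + 1) => ?_
    show ZT β h η (Hn d i i u s w) ≤ Real.exp s₀
    refine (hf_le β h u η i s w ht0.le).trans ?_
    rw [TubV_exp hd, ← Real.exp_add]
    refine Real.exp_le_exp.2 ?_
    have h1 := A_le_lam hd hρ β (h + t • u) i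
    have h2 := hup t ht0 (by rw [htdef]; exact ht)
    have h3 := mul_le_mul_of_nonneg_left h2 hi0
    have h4 : (i : ℝ) * (C₀ * t ^ p) ≤ n * (C₀ * t ^ p) :=
      mul_le_mul_of_nonneg_right hin (mul_nonneg hC₀.le (Real.rpow_nonneg ht0.le _))
    rw [hs₀, htw]
    nlinarith
  by_contra hcon
  rw [not_le] at hcon
  have h1 : q ≤ (law d ρ).real {η | Real.exp s₁ < ZT β h η (Hn d i i u s w)} := by
    refine le_trans ?_ hcon.le
    rw [hq]
    exact Real.rpow_le_rpow_of_exponent_le hn1 (by linarith)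
  have key := hAmp h i (Hn d i i u s w) s₀ s₁ q hq0 hq2 hsc h0 h1
  have h2 : (law d ρ).real {η | Real.exp (s₁ + 1 * (s₁ - s₀)) < ZT β h η (Hn d i i u s w)} ≤
      Cg * (n : ℝ) ^ (-(Q₂ : ℝ)) := by
    refine (measureReal_mono ?_).trans hG
    intro η hη hcon2
    have hη' : Real.exp (s₁ + 1 * (s₁ - s₀)) < ZT β h η (Hn d i i u s w) := hη
    have h3 : ZT β h η (Hn d i i u s w) ≤ Z β h η i := ZT_mono β h η (subset_univ _)
    have h4 := hcon2 0 (Nat.zero_le n) 0 (TubV_zero n) i hi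
    rw [TubV_sh] at h4
    have h5 := (abs_le.1 h4).2
    rw [TubV_exp hd] at h3
    have h6 := Real.exp_lt_exp.1 (hη'.trans_le h3)
    rw [hdiff, hs₁] at h6
    have h7 : (Ca * (Q + 3) + 20) * (n : ℝ) ^ y ≤ c * (n : ℝ) ^ z := hpow
    have h8 : 0 ≤ Ca * (Q + 3) * (n : ℝ) ^ y := by positivity
    nlinarith
  have h3 : q ^ Ca = (n : ℝ) ^ (-((Q + 2 : ℝ) * Ca)) := by
    rw [hq, ← Real.rpow_mul hn0.le]
    congr 1
    ring
  have h4 : 0 < (n : ℝ) ^ (-((Q + 2 : ℝ) * Ca)) := Real.rpow_pos_of_pos hn0 _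
  rw [h3] at key
  have h5 := key.trans (h2.trans hlast)
  linarith

end Pool.Agent.W_7d29a1_PK.Half77
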