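import Pool.Agent.W_7d29a1_PK.Prod63
import Pool.Agent.W_7d29a1_PK.DefsPK2

/-!
Theorem PK, the leaves IND, DEC and EXI (helper63).
-/

set_option autoImplicit false

namespace Pool.Agent.W_7d29a1_PK

open MeasureTheory ProbabilityTheory Filter Topology Pool.Agent.W_MP_7d29a1_pr
  Pool.Agent.W_7d29a1_h46 Pool.Agent.W_7d29a1_h46u Pool.Agent.W_7d29a1_D2
  Pool.Agent.W_7d29a1_D2.B35 Pool.Agent.W_7d29a1_V Pool.Agent.W_7d29a1_V.R48

variable {d : ℕ} {ρ : Measure ℝ} [IsProbabilityMeasure ρ]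

open Classical in
/-- The mass of the slab and the mass of one site off the slab. -/
lemma slb_add63 (hd : 0 < d) (β : ℝ) (h : Vec d) (η : Env d) (u : Vec d) (s W : ℝ) (τ N : ℕ)
    (D : Site d) (hD : W < |inner ℝ u (emb D) - (τ : ℝ) * s|) :
    ZT β h η (slb d (τ + N) u s W) + PP β h η τ D * Z β h (sh τ D η) N ≤ Z β h η (τ + N) := by
  have h1 := slb_le63 hd β h η u s W τ N
  have hnn : ∀ x ∈ boxF d τ, 0 ≤ PP β h η τ x * Z β h (sh τ x η) N := fun x _ =>
    mul_nonneg (PP_nonneg β h η τ x) (Z_pos hd β h _ N).le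
  rw [Z_add_PP]
  by_cases hb : D ∈ boxF d τ
  · have h2 : D ∉ (boxF d τ).filter fun x => |of63 u s τ x| ≤ W := by
      intro hc
      exact absurd (Finset.mem_filter.1 hc).2 (not_le.2 hD)
    have h3 : ∑ x ∈ insert D ((boxF d τ).filter fun x => |of63 u s τ x| ≤ W),
        PP β h η τ x * Z β h (sh τ x η) N ≤ ∑ x ∈ boxF d τ, PP β h η τ x * Z β h (sh τ x η) N := by
      refine Finset.sum_le_sum_of_subset_of_nonneg ?_ fun x hx _ => hnn x hx
      intro x hx
      rcases Finset.mem_insert.1 hx with rfl | hx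
      · exact hb
      · exact (Finset.mem_filter.1 hx).1
    rw [Finset.sum_insert h2] at h3
    linarith
  · have h3 : ∑ x ∈ (boxF d τ).filter (fun x => |of63 u s τ x| ≤ W),
        PP β h η τ x * Z β h (sh τ x η) N ≤ ∑ x ∈ boxF d τ, PP β h η τ x * Z β h (sh τ x η) N :=
      Finset.sum_le_sum_of_subset_of_nonneg (Finset.filter_subset _ _) fun x hx _ => hnn x hx
    rw [PP_eq_zero_of_notMem hb, zero_mul]
    linarith

open Classical in
/-- **DEC.** -/
theorem dec63 (hd : 0 < d) (β : ℝ) : DecPK d β := by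
  intro h w s η N τ D r a b α γ _ hD H1 H2 H3 H4
  have hZτ := Z_pos hd β h η τ
  have hZN := Z_pos hd β h (sh τ D η) N
  have hZ := Z_pos hd β h η (τ + N)
  have k1 := slb_add63 hd β h η w s r τ N D hD
  have k2 : Real.exp (a + α) ≤ PP β h η τ D * Z β h (sh τ D η) N := by
    rw [Real.exp_add]
    refine mul_le_mul H1 ?_ (Real.exp_pos _).le (PP_nonneg β h η τ D)
    have := Real.exp_le_exp.2 H3
    rwa [X, Real.exp_log hZN] at this
  have k3 : ZT β h η (slb d (τ + N) w s r) ≤ Real.exp (b + γ) := by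
    refine (slb_le63 hd β h η w s r τ N).trans ?_
    have k4 : ∑ x ∈ (boxF d τ).filter (fun x => |of63 w s τ x| ≤ r),
        PP β h η τ x * Z β h (sh τ x η) N ≤ ∑ x ∈ boxF d τ, PP β h η τ x * Real.exp γ := by
      refine (Finset.sum_le_sum (g := fun x => PP β h η τ x * Real.exp γ) fun x hx => ?_).trans ?_
      · refine mul_le_mul_of_nonneg_left ?_ (PP_nonneg β h η τ x)
        obtain ⟨hx1, hx2⟩ := Finset.mem_filter.1 hx
        have := Real.exp_le_exp.2 (H4 x hx1 hx2)
        rwa [X, Real.exp_log (Z_pos hd β h (sh τ x η) N)] at this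
      · exact Finset.sum_le_sum_of_subset_of_nonneg (Finset.filter_subset _ _) fun x _ _ =>
          mul_nonneg (PP_nonneg β h η τ x) (Real.exp_pos _).le
    rw [← Finset.sum_mul, ← Z_eq_sum] at k4
    refine k4.trans ?_
    rw [Real.exp_add]
    refine mul_le_mul_of_nonneg_right ?_ (Real.exp_pos _).le
    have := Real.exp_le_exp.2 H2
    rwa [X, Real.exp_log hZτ] at this
  have hS := ZT_nonneg β h η (slb d (τ + N) w s r)
  show _ ≤ 1 - ZT β h η (slb d (τ + N) w s r) / Z β h η (τ + N)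
  have e1 := Real.exp_pos (a + α)
  have e2 := Real.exp_pos (b + γ)
  have k5 : ZT β h η (slb d (τ + N) w s r) / Z β h η (τ + N) ≤
      Real.exp (b + γ) / (Real.exp (a + α) + Real.exp (b + γ)) := by
    rw [div_le_div_iff₀ hZ (by positivity)]
    nlinarith
  have k6 : Real.exp (a + α) / (Real.exp (a + α) + Real.exp (b + γ)) =
      1 - Real.exp (b + γ) / (Real.exp (a + α) + Real.exp (b + γ)) := by
    field_simp
    ring
  rw [k6]
  linarith

lemma Ex_nonneg63 (β : ℝ) (h w : Vec d) (s : ℝ) (n : ℕ) (r : ℝ) : 0 ≤ Ex ρ β h w s n r :=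
  integral_nonneg fun η => sub_nonneg.2 (PolT_le_one β h η _)

open Classical in
/-- **IND.** -/
theorem ind63 (hd : 0 < d) (β : ℝ) : IndPK d ρ β := by
  intro h w s N τ D r α γ p₂ _ hr hD H3 H2
  set B : Finset (Site d) := (boxF d τ).filter fun x => |of63 w s τ x| ≤ r with hB
  have hcard : ((boxF d τ).card : ℝ) = (2 * (τ : ℝ) + 1) ^ d := by
    rw [card_boxF]
    push_cast
    ring
  have hBc : (B.card : ℝ) ≤ (2 * (τ : ℝ) + 1) ^ d := by
    rw [← hcard]
    exact_mod_cast Finset.card_filter_le _ _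
  have hbox1 : (1 : ℝ) ≤ (2 * (τ : ℝ) + 1) ^ d := one_le_pow₀ (by
    have : (0 : ℝ) ≤ τ := Nat.cast_nonneg τ
    linarith)
  have hEx := Ex_nonneg63 (ρ := ρ) β h w s N r
  set δ1 : ℝ := (law d ρ).real {η | γ < X β h η N} with hδ1
  -- the sets of sites
  set SD : Set (ℕ × Site d) := {p | τ < p.1 ∧ |of63 w s p.1 p.2 - of63 w s τ D| ≤ r} with hSD
  set SB : Set (ℕ × Site d) := {p | τ < p.1 ∧ |of63 w s p.1 p.2| ≤ 2 * r} with hSB
  have hdis : SB ⊆ SDᶜ := by
    rintro p ⟨_, hp2⟩ ⟨_, hp4⟩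
    have h1 : 4 * r ≤ |of63 w s τ D| := hD
    have h2 := abs_sub_abs_le_abs_sub (of63 w s τ D) (of63 w s p.1 p.2)
    rw [abs_sub_comm] at h2
    linarith
  -- the events
  set A2 : Set (Env d) := {η | Real.exp α / 2 ≤ ZT β h (sh τ D η) (slb d N w s r)} with hA2
  set A3 : Set (Env d) :=
    {η | ∀ x ∈ B, ZT β h (sh τ x η) (slb d N w s r) ≤ Real.exp γ} with hA3
  set A4 : Set (Env d) :=
    ⋃ x ∈ B, {η | PolT β h (sh τ x η) (slb d N w s r) < 1 / 2} with hA4
  have hev2 : Ev97 SD A2 :=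
    ev97_ge ((measurable_ZT β h _).comp (measurable_sh τ D)) (dep_slb63 β h w s N τ D r) _
  have hev3x : ∀ x ∈ B, Ev97 SB
      {η : Env d | ZT β h (sh τ x η) (slb d N w s r) ≤ Real.exp γ} := by
    intro x hx
    refine (ev97_le ((measurable_ZT β h _).comp (measurable_sh τ x))
      (dep_slb63 β h w s N τ x r) _).mono ?_
    rintro p ⟨hp1, hp2⟩
    refine ⟨hp1, ?_⟩
    have h1 : |of63 w s τ x| ≤ r := (Finset.mem_filter.1 hx).2
    have h2 := abs_sub_abs_le_abs_sub (of63 w s p.1 p.2) (of63 w s τ x)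
    linarith
  have hev3 : Ev97 SB A3 := by
    refine ⟨?_, fun η η' hη => ?_⟩
    · have h1 : A3 = ⋂ x ∈ B,
          {η : Env d | ZT β h (sh τ x η) (slb d N w s r) ≤ Real.exp γ} := by
        ext η
        simp only [hA3, Set.mem_iInter]
        exact Iff.rfl
      rw [h1]
      exact Finset.measurableSet_biInter B fun x hx => (hev3x x hx).1
    · constructor
      · intro h1 x hx
        exact ((hev3x x hx).2 η η' hη).1 (h1 x hx)
      · intro h1 x hx
        exact ((hev3x x hx).2 η η' hη).2 (h1 x hx)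
  -- the probabilities
  have hslabm : MeasurableSet {η : Env d | PolT β h η (slb d N w s r) < 1 / 2} :=
    measurableSet_lt (measurable_PolT β h _) measurable_const
  have hmk : (law d ρ).real {η | PolT β h η (slb d N w s r) < 1 / 2} ≤ 2 * Ex ρ β h w s N r :=
    mark63 (ρ := ρ) hd β h _ le_rfl
  have hp2 : p₂ - 2 * Ex ρ β h w s N r ≤ (law d ρ).real A2 := by
    have k1 : (law d ρ).real A2 =
        (law d ρ).real {η | Real.exp α / 2 ≤ ZT β h η (slb d N w s r)} :=
      shp63 τ D (measurableSet_le measurable_const (measurable_ZT β h _))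
    have k2 : {η : Env d | α ≤ X β h η N} ⊆
        {η | Real.exp α / 2 ≤ ZT β h η (slb d N w s r)} ∪
          {η | PolT β h η (slb d N w s r) < 1 / 2} := by
      intro η hη
      by_cases h1 : PolT β h η (slb d N w s r) < 1 / 2
      · exact Or.inr h1
      · left
        have h2 := half63 hd β h η _ h1
        have h3 : Real.exp α ≤ Z β h η N := by
          have := Real.exp_le_exp.2 (show α ≤ X β h η N from hη)
          rwa [X, Real.exp_log (Z_pos hd β h η N)] at this
        show Real.exp α / 2 ≤ ZT β h η (slb d N w s r)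
        linarith
    have k3 := H2.trans ((measureReal_mono k2).trans (measureReal_union_le _ _))
    rw [k1]
    linarith
  have hp3 : 3 / 4 ≤ (law d ρ).real A3 := by
    have k1 : (law d ρ).real A3ᶜ ≤ ∑ x ∈ B, (law d ρ).real
        {η | Real.exp γ < ZT β h (sh τ x η) (slb d N w s r)} := by
      refine le_trans (measureReal_mono (s₂ := ⋃ x ∈ B,
        {η | Real.exp γ < ZT β h (sh τ x η) (slb d N w s r)}) ?_ (measure_ne_top _ _))
        (measureReal_biUnion_finset_le B _)
      intro η hη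
      have h1 : ¬ ∀ x ∈ B, ZT β h (sh τ x η) (slb d N w s r) ≤ Real.exp γ := hη
      push Not at h1
      obtain ⟨x, hx, h2⟩ := h1
      simp only [Set.mem_iUnion]
      exact ⟨x, hx, h2⟩
    have k2 : ∀ x ∈ B, (law d ρ).real
        {η | Real.exp γ < ZT β h (sh τ x η) (slb d N w s r)} ≤ δ1 := by
      intro x _
      have k3 : (law d ρ).real {η | Real.exp γ < ZT β h (sh τ x η) (slb d N w s r)} =
          (law d ρ).real {η | Real.exp γ < ZT β h η (slb d N w s r)} :=
        shp63 τ x (measurableSet_lt measurable_const (measurable_ZT β h _))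
      rw [k3, hδ1]
      refine measureReal_mono fun η hη => ?_
      have k4 : Real.exp γ < ZT β h η (slb d N w s r) := hη
      have k5 : Real.exp γ < Z β h η N := k4.trans_le (ZT_mono β h η (Set.subset_univ _))
      show γ < Real.log (Z β h η N)
      rwa [Real.lt_log_iff_exp_lt (Z_pos hd β h η N)]
    have k3 : ∑ x ∈ B, (law d ρ).real
        {η | Real.exp γ < ZT β h (sh τ x η) (slb d N w s r)} ≤ 1 / 4 := by
      refine (Finset.sum_le_sum k2).trans ?_
      rw [Finset.sum_const, nsmul_eq_mul]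
      exact (mul_le_mul_of_nonneg_right hBc measureReal_nonneg).trans H3
    have k4 := probReal_compl_eq_one_sub (μ := law d ρ) hev3.1
    linarith
  have hp4 : (law d ρ).real A4 ≤ (2 * (τ : ℝ) + 1) ^ d * (2 * Ex ρ β h w s N r) := by
    refine (measureReal_biUnion_finset_le B _).trans ?_
    have k1 : ∀ x ∈ B, (law d ρ).real
        {η | PolT β h (sh τ x η) (slb d N w s r) < 1 / 2} ≤ 2 * Ex ρ β h w s N r := by
      intro x _
      have k3 : (law d ρ).real {η | PolT β h (sh τ x η) (slb d N w s r) < 1 / 2} =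
          (law d ρ).real {η | PolT β h η (slb d N w s r) < 1 / 2} := shp63 τ x hslabm
      rw [k3]
      exact hmk
    refine (Finset.sum_le_sum k1).trans ?_
    rw [Finset.sum_const, nsmul_eq_mul]
    exact mul_le_mul_of_nonneg_right hBc (by linarith)
  have hind : (law d ρ).real (A2 ∩ A3) = (law d ρ).real A2 * (law d ρ).real A3 :=
    ev97_mul hev2 (hev3.mono hdis)
  have hprod : 3 / 4 * (p₂ - 2 * Ex ρ β h w s N r) ≤ (law d ρ).real (A2 ∩ A3) := by
    rw [hind]
    have k1 : (law d ρ).real A2 * (3 / 4) ≤ (law d ρ).real A2 * (law d ρ).real A3 :=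
      mul_le_mul_of_nonneg_left hp3 measureReal_nonneg
    linarith
  have hfin : 3 / 4 * (p₂ - 2 * Ex ρ β h w s N r) -
      (2 * (τ : ℝ) + 1) ^ d * (2 * Ex ρ β h w s N r) ≤ (law d ρ).real ((A2 ∩ A3) \ A4) := by
    have k1 : (law d ρ).real (A2 ∩ A3) ≤
        (law d ρ).real ((A2 ∩ A3) \ A4) + (law d ρ).real A4 := by
      refine le_trans (measureReal_mono fun η hη => ?_) (measureReal_union_le _ _)
      by_cases h1 : η ∈ A4
      · exact Or.inr h1
      · exact Or.inl ⟨hη, h1⟩
    linarith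
  have hnum : 3 / 4 * p₂ - 4 * (2 * (τ : ℝ) + 1) ^ d * Ex ρ β h w s N r ≤
      3 / 4 * (p₂ - 2 * Ex ρ β h w s N r) -
      (2 * (τ : ℝ) + 1) ^ d * (2 * Ex ρ β h w s N r) := by
    nlinarith [mul_nonneg (sub_nonneg.2 hbox1) hEx]
  refine hnum.trans (hfin.trans (measureReal_mono ?_))
  rintro η ⟨⟨h3, h4⟩, h5⟩
  have h3' : Real.exp α / 2 ≤ ZT β h (sh τ D η) (slb d N w s r) := h3
  have h4' : ∀ x ∈ B, ZT β h (sh τ x η) (slb d N w s r) ≤ Real.exp γ := h4
  have hl2 : Real.exp (Real.log 2) = 2 := Real.exp_log (by norm_num)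
  refine ⟨?_, fun x hx1 hx2 => ?_⟩
  · show α - Real.log 2 ≤ Real.log (Z β h (sh τ D η) N)
    rw [Real.le_log_iff_exp_le (Z_pos hd β h _ N), Real.exp_sub, hl2]
    exact h3'.trans (ZT_mono β h _ (Set.subset_univ _))
  · have hx : x ∈ B := Finset.mem_filter.2 ⟨hx1, hx2⟩
    have k2 : ¬ PolT β h (sh τ x η) (slb d N w s r) < 1 / 2 := by
      intro hc
      refine h5 ?_
      simp only [hA4, Set.mem_iUnion]
      exact ⟨x, hx, hc⟩
    have k3 := half63 hd β h (sh τ x η) _ k2
    have k4 := h4' x hx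
    show Real.log (Z β h (sh τ x η) N) ≤ γ + Real.log 2
    rw [Real.log_le_iff_le_exp (Z_pos hd β h _ N), Real.exp_add, hl2]
    linarith

end Pool.Agent.W_7d29a1_PK
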