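import Pool.Agent.W_7d29a1_PK.DefsPK2
import Pool.Agent.W_7d29a1_D2.JoinM97

/-!
Theorem PK, the block IND: the future free energies at `D` and at the sites of the slab are
independent up to the exit (helper80, after helper63).
-/

namespace Pool.Agent.W_7d29a1_PK

open MeasureTheory ProbabilityTheory Filter Topology Pool.Agent.W_MP_7d29a1_pr
  Pool.Agent.W_7d29a1_h46 Pool.Agent.W_7d29a1_h46u Pool.Agent.W_7d29a1_D2
  Pool.Agent.W_7d29a1_D2.B35 Pool.Agent.W_7d29a1_Q29 Pool.Agent.W_7d29a1_R34
  Pool.Agent.W_7d29a1_SP Pool.Agent.W_7d29a1_V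

variable {d : ℕ} {ρ : Measure ℝ} [IsProbabilityMeasure ρ]

/-- The offset of the site `x` of the row `i`. -/
noncomputable def of80 {d : ℕ} (u : Vec d) (s : ℝ) (i : ℕ) (x : Site d) : ℝ :=
  inner ℝ u (emb x) - (i : ℝ) * s

lemma of80_add (u : Vec d) (s : ℝ) (i t : ℕ) (x z : Site d) :
    of80 u s (i + t) (x + z) = of80 u s i x + of80 u s t z := by
  unfold of80
  rw [Walk_emb_add, inner_add_right, Nat.cast_add]
  ring

/-- The weight of the slab of the site `z` of the row `t` depends on the sites of this slab. -/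
lemma dep80 (β : ℝ) (h u : Vec d) (s : ℝ) (n t : ℕ) (z : Site d) (W : ℝ) :
    DependsOn (fun η : Env d => ZT β h (sh t z η) (slb d n u s W))
      {p | |of80 u s p.1 p.2 - of80 u s t z| ≤ W} := by
  have h1 := dependsOn_ZT97 β h (slb d n u s W) {p | |of80 u s p.1 p.2| ≤ W}
    fun q hq i hi => (hq (i + 1) (by omega))
  intro η η' hη
  refine h1 fun p hp => ?_
  refine hη _ ?_
  show |of80 u s (p.1 + t) (p.2 + z) - of80 u s t z| ≤ W
  rw [of80_add, add_sub_cancel_right]
  exact hp

/-- The polymer measure of a set of walks is not large with small probability. -/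
lemma mark80 (β : ℝ) (h : Vec d) {n : ℕ} (E : Set (Fin n → Step d)) :
    (law d ρ).real {η | PolT β h η E < 1 / 2} ≤ 2 * ∫ η, (1 - PolT β h η E) ∂(law d ρ) := by
  have hm : Measurable fun η : Env d => PolT β h η E := measurable_PolT β h E
  have hint : Integrable (fun η : Env d => 1 - PolT β h η E) (law d ρ) := by
    refine Integrable.of_bound (C := 1) (measurable_const.sub hm).aestronglyMeasurable
      (Eventually.of_forall fun η => ?_)
    rw [Real.norm_eq_abs, abs_le]
    have h1 := PolT_nonneg β h η E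
    have h2 := PolT_le_one β h η E
    constructor <;> linarith
  have h1 := mul_meas_ge_le_integral_of_nonneg (μ := law d ρ)
    (Eventually.of_forall fun η : Env d => sub_nonneg.2 (PolT_le_one β h η E)) hint (1 / 2)
  have h2 : (law d ρ).real {η | PolT β h η E < 1 / 2} ≤
      (law d ρ).real {η | 1 / 2 ≤ 1 - PolT β h η E} := by
    refine measureReal_mono fun η hη => ?_
    have h3 : PolT β h η E < 1 / 2 := hη
    show 1 / 2 ≤ 1 - PolT β h η E
    linarith
  have h3 : (1 / 2 : ℝ) * (law d ρ).real {η | 1 / 2 ≤ 1 - PolT β h η E} ≤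
      ∫ η, (1 - PolT β h η E) ∂(law d ρ) := h1
  linarith

/-- The weight of a set of walks which has half of the mass. -/
lemma half80 (hd : 0 < d) (β : ℝ) (h : Vec d) (η : Env d) {n : ℕ} (E : Set (Fin n → Step d))
    (hE : ¬ PolT β h η E < 1 / 2) : Z β h η n ≤ 2 * ZT β h η E := by
  have h1 : 1 / 2 ≤ ZT β h η E / Z β h η n := not_lt.1 hE
  rw [le_div_iff₀ (Z_pos hd β h η n)] at h1
  linarith

/-- Shifted events have the same probability. -/
lemma shp80 (t : ℕ) (z : Site d) {S : Set (Env d)} (hS : MeasurableSet S) :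
    (law d ρ).real {η | sh t z η ∈ S} = (law d ρ).real S := by
  rw [measureReal_def, measureReal_def, ← (mp_sh (ρ := ρ) t z).measure_preimage
    hS.nullMeasurableSet]
  rfl

/-- **The block IND.** -/
theorem ind80 (hd : 0 < d) (β : ℝ) : IndPK d ρ β := by
  classical
  intro h w s N τ D r α γ p₂ _ hr hD hγ hp
  obtain ⟨δ, hδ⟩ : ∃ δ : ℝ, δ = Ex ρ β h w s N r := ⟨_, rfl⟩
  rw [← hδ]
  obtain ⟨M, hM⟩ : ∃ M : ℝ, M = (2 * (τ : ℝ) + 1) ^ d := ⟨_, rfl⟩
  rw [← hM] at hγ ⊢
  have hM1 : 1 ≤ M := by
    rw [hM]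
    exact one_le_pow₀ (by have : (0 : ℝ) ≤ τ := Nat.cast_nonneg _; linarith)
  have hMc : ((boxF d τ).card : ℝ) = M := by
    rw [hM, card_boxF]
    push_cast
    ring
  set E : Set (Fin N → Step d) := slb d N w s r with hE
  have hmk : (law d ρ).real {η | PolT β h η E < 1 / 2} ≤ 2 * δ := by
    rw [hδ]
    exact mark80 β h E
  have hδ0 : 0 ≤ δ := by
    have := (measureReal_nonneg (μ := law d ρ) (s := {η | PolT β h η E < 1 / 2})).trans hmk
    linarith
  set B : Finset (Site d) := (boxF d τ).filter fun x => |of80 w s τ x| ≤ r with hB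
  have hBc : (B.card : ℝ) ≤ M := by
    rw [← hMc]
    exact_mod_cast Finset.card_filter_le _ _
  -- the sets of sites
  set SD : Set (ℕ × Site d) := {p | |of80 w s p.1 p.2 - of80 w s τ D| ≤ r} with hSD
  set SB : Set (ℕ × Site d) := {p | |of80 w s p.1 p.2| ≤ 2 * r} with hSB
  have hdis : SB ⊆ SDᶜ := by
    intro p hp2 hp4
    have hp2' : |of80 w s p.1 p.2| ≤ 2 * r := hp2
    have hp4' : |of80 w s p.1 p.2 - of80 w s τ D| ≤ r := hp4
    have h1 : 4 * r ≤ |of80 w s τ D| := hD
    have h2 := abs_sub_abs_le_abs_sub (of80 w s τ D) (of80 w s p.1 p.2)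
    rw [abs_sub_comm] at h2
    linarith
  -- the events
  set A2 : Set (Env d) := {η | Real.exp α / 2 ≤ ZT β h (sh τ D η) E} with hA2
  set A3 : Set (Env d) := {η | ∀ x ∈ B, ZT β h (sh τ x η) E ≤ Real.exp γ} with hA3
  set A4 : Set (Env d) := ⋃ x ∈ B, {η | PolT β h (sh τ x η) E < 1 / 2} with hA4
  have hev2 : Ev97 SD A2 :=
    ev97_ge ((measurable_ZT β h _).comp (measurable_sh τ D)) (dep80 β h w s N τ D r) _
  have hev3x : ∀ x ∈ B, Ev97 SB {η : Env d | ZT β h (sh τ x η) E ≤ Real.exp γ} := by
    intro x hx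
    refine (ev97_le ((measurable_ZT β h _).comp (measurable_sh τ x))
      (dep80 β h w s N τ x r) _).mono ?_
    intro p hp2
    have hp2' : |of80 w s p.1 p.2 - of80 w s τ x| ≤ r := hp2
    have h1 : |of80 w s τ x| ≤ r := (Finset.mem_filter.1 hx).2
    have h2 := abs_sub_abs_le_abs_sub (of80 w s p.1 p.2) (of80 w s τ x)
    show |of80 w s p.1 p.2| ≤ 2 * r
    linarith
  have hev3 : Ev97 SB A3 := by
    refine ⟨?_, fun η η' hη => ?_⟩
    · have h1 : A3 = ⋂ x ∈ B, {η : Env d | ZT β h (sh τ x η) E ≤ Real.exp γ} := by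
        ext η
        simp only [hA3, Set.mem_iInter]
        exact Iff.rfl
      rw [h1]
      exact Finset.measurableSet_biInter B fun x hx => (hev3x x hx).1
    · constructor
      · intro h1 x hx
        exact ((hev3x x hx).2 η η' hη).1 (h1 x hx)
      · intro h1 x hx
        exact ((hev3x x hx).2 η η' hη).2 (h1 x hx)
  -- the probabilities
  have hslabm : MeasurableSet {η : Env d | PolT β h η E < 1 / 2} :=
    measurableSet_lt (measurable_PolT β h _) measurable_const
  have hp2 : p₂ - 2 * δ ≤ (law d ρ).real A2 := by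
    have k1 : (law d ρ).real A2 = (law d ρ).real {η | Real.exp α / 2 ≤ ZT β h η E} :=
      shp80 τ D (measurableSet_le measurable_const (measurable_ZT β h _))
    have k2 : {η : Env d | α ≤ X β h η N} ⊆
        {η | Real.exp α / 2 ≤ ZT β h η E} ∪ {η | PolT β h η E < 1 / 2} := by
      intro η hη
      by_cases h1 : PolT β h η E < 1 / 2
      · exact Or.inr h1
      · left
        have h2 := half80 hd β h η _ h1
        have h3 : α ≤ Real.log (Z β h η N) := hη
        have h4 : Real.exp α ≤ Z β h η N := (Real.le_log_iff_exp_le (Z_pos hd β h η N)).1 h3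
        show Real.exp α / 2 ≤ ZT β h η E
        linarith
    have k3 := hp.trans ((measureReal_mono k2).trans (measureReal_union_le _ _))
    rw [k1]
    linarith
  have hp3 : 3 / 4 ≤ (law d ρ).real A3 := by
    have k1 : (law d ρ).real A3ᶜ ≤ ∑ x ∈ B, (law d ρ).real
        {η | Real.exp γ < ZT β h (sh τ x η) E} := by
      refine le_trans (measureReal_mono (s₂ := ⋃ x ∈ B,
        {η | Real.exp γ < ZT β h (sh τ x η) E}) ?_ (measure_ne_top _ _))
        (measureReal_biUnion_finset_le B _)
      intro η hη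
      have h1 : ¬ ∀ x ∈ B, ZT β h (sh τ x η) E ≤ Real.exp γ := hη
      push Not at h1
      obtain ⟨x, hx, h2⟩ := h1
      simp only [Set.mem_iUnion]
      exact ⟨x, hx, h2⟩
    have k2 : ∀ x ∈ B, (law d ρ).real {η | Real.exp γ < ZT β h (sh τ x η) E} ≤
        (law d ρ).real {η | γ < X β h η N} := by
      intro x _
      have k3 : (law d ρ).real {η | Real.exp γ < ZT β h (sh τ x η) E} =
          (law d ρ).real {η | Real.exp γ < ZT β h η E} :=
        shp80 τ x (measurableSet_lt measurable_const (measurable_ZT β h _))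
      rw [k3]
      refine measureReal_mono fun η hη => ?_
      have k4 : Real.exp γ < ZT β h η E := hη
      have k5 : Real.exp γ < Z β h η N := k4.trans_le (ZT_mono β h η (Set.subset_univ _))
      show γ < Real.log (Z β h η N)
      exact (Real.lt_log_iff_exp_lt (Z_pos hd β h η N)).2 k5
    have k3 : ∑ x ∈ B, (law d ρ).real {η | Real.exp γ < ZT β h (sh τ x η) E} ≤ 1 / 4 := by
      refine (Finset.sum_le_sum k2).trans ?_
      rw [Finset.sum_const, nsmul_eq_mul]
      exact (mul_le_mul_of_nonneg_right hBc measureReal_nonneg).trans hγ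
    have k4 := probReal_compl_eq_one_sub (μ := law d ρ) hev3.1
    linarith
  have hp4 : (law d ρ).real A4 ≤ M * (2 * δ) := by
    refine (measureReal_biUnion_finset_le B _).trans ?_
    have k1 : ∀ x ∈ B, (law d ρ).real {η | PolT β h (sh τ x η) E < 1 / 2} ≤ 2 * δ := by
      intro x _
      have k3 : (law d ρ).real {η | PolT β h (sh τ x η) E < 1 / 2} =
          (law d ρ).real {η | PolT β h η E < 1 / 2} := shp80 τ x hslabm
      rw [k3]
      exact hmk
    refine (Finset.sum_le_sum k1).trans ?_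
    rw [Finset.sum_const, nsmul_eq_mul]
    exact mul_le_mul_of_nonneg_right hBc (by linarith)
  have hind : (law d ρ).real (A2 ∩ A3) = (law d ρ).real A2 * (law d ρ).real A3 :=
    ev97_mul hev2 (hev3.mono hdis)
  have hprod : 3 / 4 * p₂ - 3 / 2 * δ ≤ (law d ρ).real (A2 ∩ A3) := by
    rw [hind]
    rcases le_or_gt (p₂ - 2 * δ) 0 with h0 | h0
    · have : 0 ≤ (law d ρ).real A2 * (law d ρ).real A3 :=
        mul_nonneg measureReal_nonneg measureReal_nonneg
      linarith
    · have : (p₂ - 2 * δ) * (3 / 4) ≤ (law d ρ).real A2 * (law d ρ).real A3 :=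
        mul_le_mul hp2 hp3 (by norm_num) measureReal_nonneg
      linarith
  have hsub : A2 ∩ A3 ⊆ {η | α - Real.log 2 ≤ X β h (sh τ D η) N ∧
      ∀ x ∈ boxF d τ, |inner ℝ w (emb x) - τ * s| ≤ r →
        X β h (sh τ x η) N ≤ γ + Real.log 2} ∪ A4 := by
    rintro η ⟨h2, h3⟩
    by_cases h4 : η ∈ A4
    · exact Or.inr h4
    · left
      refine ⟨?_, fun x hx hxr => ?_⟩
      · have k1 : Real.exp α / 2 ≤ ZT β h (sh τ D η) E := h2
        have k2 : Real.exp α / 2 ≤ Z β h (sh τ D η) N :=
          k1.trans (ZT_mono β h _ (Set.subset_univ _))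
        have k3 : Real.exp (α - Real.log 2) = Real.exp α / 2 := by
          rw [Real.exp_sub, Real.exp_log (by norm_num)]
        show α - Real.log 2 ≤ Real.log (Z β h (sh τ D η) N)
        rw [Real.le_log_iff_exp_le (Z_pos hd β h _ N), k3]
        exact k2
      · have hxB : x ∈ B := Finset.mem_filter.2 ⟨hx, hxr⟩
        have k1 : ZT β h (sh τ x η) E ≤ Real.exp γ := h3 x hxB
        have k2 : ¬ PolT β h (sh τ x η) E < 1 / 2 := by
          intro hc
          refine h4 ?_
          simp only [hA4, Set.mem_iUnion]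
          exact ⟨x, hxB, hc⟩
        have k3 := half80 hd β h (sh τ x η) _ k2
        have k4 : Real.exp (γ + Real.log 2) = Real.exp γ * 2 := by
          rw [Real.exp_add, Real.exp_log (by norm_num)]
        show Real.log (Z β h (sh τ x η) N) ≤ γ + Real.log 2
        rw [Real.log_le_iff_le_exp (Z_pos hd β h _ N), k4]
        linarith
  have hfin := (measureReal_mono hsub (measure_ne_top (law d ρ) _)).trans
    (measureReal_union_le _ _)
  have hMδ : δ ≤ M * δ := by nlinarith
  linarith

end Pool.Agent.W_7d29a1_PK
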