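import Pool.Agent.W_7d29a1_PK.Half77
import Pool.Agent.W_7d29a1_PK.DefsPK2

/-!
One scale: the tails, the mass of a half space, the mass outside the tube, from one bound of the
upper tail at the scale `M` (helper77).
-/

set_option autoImplicit false

namespace Pool.Agent.W_7d29a1_PK.LK77

open MeasureTheory ProbabilityTheory Filter Topology Set Pool.Agent.W_MP_7d29a1_pr
  Pool.Agent.W_7d29a1_h46 Pool.Agent.W_7d29a1_h46u Pool.Agent.W_7d29a1_D2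
  Pool.Agent.W_7d29a1_PK.Half77

variable {d : ℕ} {ρ : Measure ℝ} [IsProbabilityMeasure ρ] {β : ℝ}

lemma ev_log2 {x : ℝ} (hx : 0 < x) (B : ℝ) (hB : 0 ≤ B) :
    ∀ᶠ M : ℕ in atTop, B * (1 + Real.log M) + 10 ≤ (M : ℝ) ^ x := by
  filter_upwards [ev_log (y := x / 2) (by linarith),
    ev_pow (y := x / 2) (z := x) (B := 2 * B + 10) (c := 1) (by linarith) one_pos,
    eventually_ge_atTop 1] with M h1 h2 hM
  have hM1 : (1 : ℝ) ≤ M := by exact_mod_cast hM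
  have h3 : 1 ≤ (M : ℝ) ^ (x / 2) := Real.one_le_rpow hM1 (by linarith)
  have h4 : B * (1 + Real.log M) ≤ B * (2 * (M : ℝ) ^ (x / 2)) :=
    mul_le_mul_of_nonneg_left (by linarith) hB
  rw [one_mul] at h2
  nlinarith

/-- **The tails at one scale.** -/
theorem tails (hL : LowPK d ρ β) (hU : UplPK d ρ β) (hA : AmpPK d ρ β) (h : Vec d) {x : ℝ}
    (hx : 0 < x) (q : ℝ) : ∃ Q : ℝ, ∀ᶠ M : ℕ in atTop,
      (law d ρ).real {η | M * lam ρ β h + (M : ℝ) ^ x ≤ X β h η M} < (M : ℝ) ^ (-Q) →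
      ∀ l ≤ M, (law d ρ).real {η | l * lam ρ β h + 2 * (M : ℝ) ^ x ≤ X β h η l} ≤
          (M : ℝ) ^ (-q) ∧
        (law d ρ).real {η | X β h η l < l * lam ρ β h - 8 * (M : ℝ) ^ x} ≤ (M : ℝ) ^ (-q) := by
  obtain ⟨CL, hCL, NL, HL⟩ := hL ‖h‖
  obtain ⟨CU, hCU, NU, HU⟩ := hU ‖h‖
  obtain ⟨CA, hCA, HA⟩ := hA 1 le_rfl
  obtain ⟨q₁, hq₁⟩ : ∃ q₁ : ℝ, q₁ = max (max q CL) 1 := ⟨_, rfl⟩
  have hq₁q : q ≤ q₁ := by
    rw [hq₁]
    exact (le_max_left _ _).trans (le_max_left _ _)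
  have hq₁L : CL ≤ q₁ := by
    rw [hq₁]
    exact (le_max_right _ _).trans (le_max_left _ _)
  have hq₁1 : 1 ≤ q₁ := by
    rw [hq₁]
    exact le_max_right _ _
  refine ⟨CU + CA * q₁ + 1, ?_⟩
  filter_upwards [ev_log2 hx (CU + CA * q₁) (by positivity),
    eventually_ge_atTop (max 2 (max NL NU))] with M hlog hM hsc l hl
  have hM2 : 2 ≤ M := (le_max_left _ _).trans hM
  have hML : NL ≤ M := ((le_max_left _ _).trans (le_max_right _ _)).trans hM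
  have hMU : NU ≤ M := ((le_max_right _ _).trans (le_max_right _ _)).trans hM
  have hM2' : (2 : ℝ) ≤ M := by exact_mod_cast hM2
  have hM1 : (1 : ℝ) ≤ M := by linarith
  have hM0 : (0 : ℝ) < M := by linarith
  have hlog0 : 0 ≤ Real.log M := Real.log_nonneg hM1
  have hCA0 : CA * q₁ ≤ CA * q₁ * 1 := by linarith
  have hCAq : q₁ ≤ CA * q₁ := le_mul_of_one_le_left (by linarith) hCA
  have hMx : 10 ≤ (M : ℝ) ^ x := by
    have : 0 ≤ (CU + CA * q₁) * (1 + Real.log M) := by positivity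
    linarith
  have hup : (law d ρ).real {η | l * lam ρ β h + 2 * (M : ℝ) ^ x ≤ X β h η l} ≤
      (M : ℝ) ^ (-(CA * q₁ + 1)) := by
    have h1 := HU M hMU h le_rfl l hl ((M : ℝ) ^ x)
    have h2 : (law d ρ).real {η | l * lam ρ β h + 2 * (M : ℝ) ^ x ≤ X β h η l} ≤
        (law d ρ).real {η | l * lam ρ β h + (M : ℝ) ^ x + CU * Real.log M ≤ X β h η l} := by
      refine measureReal_mono fun η
        (hη : l * lam ρ β h + 2 * (M : ℝ) ^ x ≤ X β h η l) => ?_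
      show l * lam ρ β h + (M : ℝ) ^ x + CU * Real.log M ≤ X β h η l
      have : 0 ≤ CU + CA * q₁ * (1 + Real.log M) := by positivity
      nlinarith
    refine h2.trans (h1.trans ?_)
    have h3 := mul_le_mul_of_nonneg_left hsc.le (Real.rpow_nonneg hM0.le CU)
    refine h3.trans (le_of_eq ?_)
    rw [← Real.rpow_add hM0]
    congr 1
    ring
  refine ⟨hup.trans (Real.rpow_le_rpow_of_exponent_le hM1 (by linarith)), ?_⟩
  by_contra hcon
  rw [not_le] at hcon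
  obtain ⟨r, hr⟩ : ∃ r : ℝ, r = (M : ℝ) ^ (-q₁) := ⟨_, rfl⟩
  have hr0 : 0 < r := by
    rw [hr]
    exact Real.rpow_pos_of_pos hM0 _
  have hr2 : r ≤ 1 / 2 := by
    have h1 : (M : ℝ) ^ (-q₁) ≤ (M : ℝ) ^ (-(1 : ℝ)) :=
      Real.rpow_le_rpow_of_exponent_le hM1 (by linarith)
    rw [Real.rpow_neg_one] at h1
    rw [hr]
    refine h1.trans ?_
    rw [one_div]
    exact inv_anti₀ two_pos hM2'
  have hlogr : Real.log (1 / r) = q₁ * Real.log M := by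
    rw [one_div, Real.log_inv, hr, Real.log_rpow hM0]
    ring
  obtain ⟨s₀, hs₀⟩ : ∃ s₀ : ℝ, s₀ = l * lam ρ β h - 8 * (M : ℝ) ^ x := ⟨_, rfl⟩
  obtain ⟨s₁, hs₁⟩ : ∃ s₁ : ℝ, s₁ = l * lam ρ β h - 2 := ⟨_, rfl⟩
  have hdiff : s₁ - s₀ = 8 * (M : ℝ) ^ x - 2 := by
    rw [hs₁, hs₀]
    ring
  have hcond : CA * (1 + Real.log (1 / r)) ≤ s₁ - s₀ := by
    rw [hlogr, hdiff]
    have h1 : CA * (1 + q₁ * Real.log M) ≤ CA * q₁ * (1 + Real.log M) := by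
      have : CA * 1 ≤ CA * q₁ := mul_le_mul_of_nonneg_left hq₁1 (by linarith)
      nlinarith
    have h2 : 0 ≤ CU * (1 + Real.log M) := by positivity
    nlinarith
  have h0 : r ≤ (law d ρ).real {η | X β h η l ≤ s₀} := by
    rw [hr]
    refine (Real.rpow_le_rpow_of_exponent_le hM1 (by linarith : -q₁ ≤ -q)).trans
      (hcon.le.trans ?_)
    refine measureReal_mono fun η (hη : X β h η l < l * lam ρ β h - 8 * (M : ℝ) ^ x) => ?_
    show X β h η l ≤ s₀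
    rw [hs₀]
    exact hη.le
  have h1 : r ≤ (law d ρ).real {η | s₁ < X β h η l} := by
    rw [hr, hs₁]
    exact (Real.rpow_le_rpow_of_exponent_le hM1 (by linarith : -q₁ ≤ -CL)).trans
      (HL M hML l hl h le_rfl)
  have key := HA h l s₀ s₁ r hr0 hr2 hcond h0 h1
  have h2 : (law d ρ).real {η | s₁ + 1 * (s₁ - s₀) < X β h η l} ≤
      (law d ρ).real {η | l * lam ρ β h + 2 * (M : ℝ) ^ x ≤ X β h η l} := by
    refine measureReal_mono fun η (hη : s₁ + 1 * (s₁ - s₀) < X β h η l) => ?_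
    show l * lam ρ β h + 2 * (M : ℝ) ^ x ≤ X β h η l
    rw [hdiff, hs₁] at hη
    linarith
  have h3 : r ^ CA = (M : ℝ) ^ (-(CA * q₁)) := by
    rw [hr, ← Real.rpow_mul hM0.le]
    congr 1
    ring
  rw [h3] at key
  have h4 : (M : ℝ) ^ (-(CA * q₁ + 1)) < (M : ℝ) ^ (-(CA * q₁)) :=
    Real.rpow_lt_rpow_of_exponent_lt (by linarith) (by linarith)
  linarith [key.trans (h2.trans hup)]

/-- **The mass of a half space at one scale.** -/
theorem half (hd : 0 < d) (hρ : EM ρ) (hE : AmpE ρ β d) (h : Vec d) {x a p : ℝ}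
    (hp : 1 < p) (hx : 0 < x) (ha1 : a < 1) (hax : 1 + (p - 1) * x < p * a) (q : ℝ) :
    ∃ Q : ℝ, ∀ (u : Vec d) (s C₀ δ κ' : ℝ), 0 < δ → 0 < C₀ → 0 < κ' →
      (∀ t : ℝ, 0 < t → t ≤ δ → lam ρ β (h + t • u) ≤ lam ρ β h + t * s + C₀ * t ^ p) →
      ∀ᶠ M : ℕ in atTop,
      (∀ l ≤ M, (law d ρ).real {η | l * lam ρ β h + 2 * (M : ℝ) ^ x ≤ X β h η l} ≤
        (M : ℝ) ^ (-Q)) →
      ∀ i ≤ M, (law d ρ).real {η | Real.exp (i * lam ρ β h - 12 * (M : ℝ) ^ x) <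
        ZT β h η (Hn d i i u s (κ' * (M : ℝ) ^ a))} ≤ (M : ℝ) ^ (-q) := by
  have hp1 : 0 < p - 1 := by linarith
  obtain ⟨z, hz⟩ : ∃ z : ℝ, z = (p * a - 1) / (p - 1) := ⟨_, rfl⟩
  have hyz : x < z := by
    rw [hz, lt_div_iff₀ hp1]
    linarith
  obtain ⟨b, hb⟩ : ∃ b : ℝ, b = (1 - a) / (p - 1) := ⟨_, rfl⟩
  have hb0 : 0 < b := by
    rw [hb]
    exact div_pos (by linarith) hp1
  have hbz1 : -b + a = z := by
    rw [hb, hz]
    field_simp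
    ring
  have hbz2 : 1 + -b * p = z := by
    rw [hb, hz]
    field_simp
    ring
  obtain ⟨Ca, hCa, hAmp⟩ := hE 1 le_rfl
  obtain ⟨Cl, hCl, hLow⟩ := low (d := d) hd hρ β
  obtain ⟨q₂, hq₂⟩ : ∃ q₂ : ℝ, q₂ = max q 2 := ⟨_, rfl⟩
  have hq₂q : q ≤ q₂ := by
    rw [hq₂]
    exact le_max_left _ _
  have hq₂2 : 2 ≤ q₂ := by
    rw [hq₂]
    exact le_max_right _ _
  refine ⟨Ca * q₂ + 1, fun u s C₀ δ κ' hδ hC₀ hκ' hup => ?_⟩
  obtain ⟨κ, hκ, hκ2⟩ : ∃ κ : ℝ, 0 < κ ∧ C₀ * κ ^ (p - 1) ≤ κ' / 2 := by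
    refine ⟨(κ' / (2 * C₀)) ^ (1 / (p - 1)), Real.rpow_pos_of_pos (by positivity) _, ?_⟩
    rw [← Real.rpow_mul (by positivity), one_div, inv_mul_cancel₀ hp1.ne', Real.rpow_one]
    refine le_of_eq ?_
    field_simp
  have hκ3 : C₀ * κ ^ p ≤ κ * κ' / 2 := by
    have h1 : κ ^ p = κ ^ (p - 1) * κ := by
      nth_rewrite 3 [← Real.rpow_one κ]
      rw [← Real.rpow_add hκ]
      congr 1
      ring
    rw [h1]
    have h2 := mul_le_mul_of_nonneg_right hκ2 hκ.le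
    linarith
  obtain ⟨c, hc⟩ : ∃ c : ℝ, c = κ * κ' / 2 := ⟨_, rfl⟩
  have hc0 : 0 < c := by
    rw [hc]
    positivity
  have ht : ∀ᶠ n : ℕ in atTop, κ * (n : ℝ) ^ (-b) ≤ δ := by
    have h1 := ((tendsto_rpow_neg_atTop hb0).comp (tendsto_natCast_atTop_atTop (R := ℝ))).const_mul κ
    rw [mul_zero] at h1
    exact h1.eventually_le_const hδ
  filter_upwards [ht, ev_log hx,
    ev_pow (B := Ca * (q₂ + 1) + 40) (c := c) hyz hc0,
    eventually_ge_atTop (max 2 ⌈Cl⌉₊)] with n ht hlog hpow hn hG i hi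
  have hn2 : 2 ≤ n := (le_max_left _ _).trans hn
  have hnC : Cl ≤ n := by
    have h1 : ⌈Cl⌉₊ ≤ n := (le_max_right _ _).trans hn
    exact (Nat.le_ceil Cl).trans (by exact_mod_cast h1)
  have hn1 : (1 : ℝ) ≤ n := by
    have : 1 ≤ n := by omega
    exact_mod_cast this
  have hn2' : (2 : ℝ) ≤ n := by exact_mod_cast hn2
  have hn0 : (0 : ℝ) < n := by linarith
  have hi0 : (0 : ℝ) ≤ i := Nat.cast_nonneg _
  have hin : (i : ℝ) ≤ n := by exact_mod_cast hi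
  have hny : 1 ≤ (n : ℝ) ^ x := Real.one_le_rpow hn1 hx.le
  obtain ⟨t, htdef⟩ : ∃ t : ℝ, t = κ * (n : ℝ) ^ (-b) := ⟨_, rfl⟩
  have ht0 : 0 < t := by
    rw [htdef]
    exact mul_pos hκ (Real.rpow_pos_of_pos hn0 _)
  obtain ⟨w, hw⟩ : ∃ w : ℝ, w = κ' * (n : ℝ) ^ a := ⟨_, rfl⟩
  rw [← hw]
  have htw : t * w = 2 * c * (n : ℝ) ^ z := by
    rw [htdef, hw, hc, ← hbz1, Real.rpow_add hn0]
    ring
  have htp : n * (C₀ * t ^ p) ≤ c * (n : ℝ) ^ z := by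
    have h1 : t ^ p = κ ^ p * (n : ℝ) ^ (-b * p) := by
      rw [htdef, Real.mul_rpow hκ.le (Real.rpow_nonneg hn0.le _), ← Real.rpow_mul hn0.le]
    have h2 : (n : ℝ) ^ z = n * (n : ℝ) ^ (-b * p) := by
      rw [← hbz2, Real.rpow_add hn0, Real.rpow_one]
    rw [h1, h2]
    have h3 : 0 ≤ (n : ℝ) * (n : ℝ) ^ (-b * p) := mul_nonneg hn0.le (Real.rpow_nonneg hn0.le _)
    have h4 := mul_le_mul_of_nonneg_right hκ3 h3
    rw [hc]
    linarith
  obtain ⟨s₀, hs₀⟩ : ∃ s₀ : ℝ, s₀ = i * lam ρ β h + 1 - c * (n : ℝ) ^ z := ⟨_, rfl⟩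
  obtain ⟨s₁, hs₁⟩ : ∃ s₁ : ℝ, s₁ = i * lam ρ β h - 12 * (n : ℝ) ^ x := ⟨_, rfl⟩
  rw [← hs₁]
  have hdiff : s₁ - s₀ = c * (n : ℝ) ^ z - 1 - 12 * (n : ℝ) ^ x := by
    rw [hs₁, hs₀]
    ring
  obtain ⟨r, hr⟩ : ∃ r : ℝ, r = (n : ℝ) ^ (-q₂) := ⟨_, rfl⟩
  have hr0 : 0 < r := by
    rw [hr]
    exact Real.rpow_pos_of_pos hn0 _
  have hrn2 : r ≤ 1 / (Cl * n) := by
    have h1 : (n : ℝ) ^ (-(2 : ℝ)) = 1 / (n * n) := by
      rw [Real.rpow_neg hn0.le, Real.rpow_two, sq, one_div]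
    have h2 : r ≤ (n : ℝ) ^ (-(2 : ℝ)) := by
      rw [hr]
      exact Real.rpow_le_rpow_of_exponent_le hn1 (by linarith)
    refine h2.trans ?_
    rw [h1]
    refine one_div_le_one_div_of_le (by positivity) ?_
    exact mul_le_mul_of_nonneg_right hnC hn0.le
  have hr2 : r ≤ 1 / 2 := by
    refine hrn2.trans (one_div_le_one_div_of_le two_pos ?_)
    nlinarith
  have hlogr : Real.log (1 / r) = q₂ * Real.log n := by
    rw [one_div, Real.log_inv, hr, Real.log_rpow hn0]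
    ring
  have hsc : Ca * (1 + Real.log (1 / r)) ≤ s₁ - s₀ := by
    rw [hlogr, hdiff]
    have h1 : q₂ * Real.log n ≤ q₂ * (n : ℝ) ^ x :=
      mul_le_mul_of_nonneg_left hlog (by linarith)
    have h2 : 1 + q₂ * Real.log n ≤ (q₂ + 1) * (n : ℝ) ^ x := by linarith
    have h3 : Ca * (1 + q₂ * Real.log n) ≤ Ca * ((q₂ + 1) * (n : ℝ) ^ x) :=
      mul_le_mul_of_nonneg_left h2 (by linarith)
    nlinarith
  have h0 : r ≤ (law d ρ).real {η | ZT β h η (Hn d i i u s w) ≤ Real.exp s₀} := by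
    refine hrn2.trans ((hLow (h + t • u) i n hi (by omega)).trans ?_)
    refine measureReal_mono fun η (hη : X β (h + t • u) η i ≤ A ρ β (h + t • u) i + 1) => ?_
    show ZT β h η (Hn d i i u s w) ≤ Real.exp s₀
    refine (hf_le β h u η i s w ht0.le).trans ?_
    rw [TubV_exp hd, ← Real.exp_add]
    refine Real.exp_le_exp.2 ?_
    have h1 := A_le_lam hd hρ β (h + t • u) i
    have h2 := hup t ht0 (by rw [htdef]; exact ht)
    have h3 := mul_le_mul_of_nonneg_left h2 hi0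
    have h4 : (i : ℝ) * (C₀ * t ^ p) ≤ n * (C₀ * t ^ p) :=
      mul_le_mul_of_nonneg_right hin (mul_nonneg hC₀.le (Real.rpow_nonneg ht0.le _))
    rw [hs₀, htw]
    nlinarith
  by_contra hcon
  rw [not_le] at hcon
  have h1 : r ≤ (law d ρ).real {η | Real.exp s₁ < ZT β h η (Hn d i i u s w)} := by
    refine le_trans ?_ hcon.le
    rw [hr]
    exact Real.rpow_le_rpow_of_exponent_le hn1 (by linarith)
  have key := hAmp h i (Hn d i i u s w) s₀ s₁ r hr0 hr2 hsc h0 h1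
  have h2 : (law d ρ).real {η | Real.exp (s₁ + 1 * (s₁ - s₀)) < ZT β h η (Hn d i i u s w)} ≤
      (n : ℝ) ^ (-(Ca * q₂ + 1)) := by
    refine (measureReal_mono ?_).trans (hG i hi)
    intro η hη
    have hη' : Real.exp (s₁ + 1 * (s₁ - s₀)) < ZT β h η (Hn d i i u s w) := hη
    show i * lam ρ β h + 2 * (n : ℝ) ^ x ≤ X β h η i
    have h3 : ZT β h η (Hn d i i u s w) ≤ Z β h η i := ZT_mono β h η (subset_univ _)
    rw [TubV_exp hd] at h3
    have h6 := Real.exp_lt_exp.1 (hη'.trans_le h3)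
    rw [hdiff, hs₁] at h6
    have h8 : 0 ≤ Ca * (q₂ + 1) * (n : ℝ) ^ x := by positivity
    nlinarith
  have h3 : r ^ Ca = (n : ℝ) ^ (-(Ca * q₂)) := by
    rw [hr, ← Real.rpow_mul hn0.le]
    congr 1
    ring
  rw [h3] at key
  have h4 : (n : ℝ) ^ (-(Ca * q₂ + 1)) < (n : ℝ) ^ (-(Ca * q₂)) :=
    Real.rpow_lt_rpow_of_exponent_lt (by linarith) (by linarith)
  linarith [key.trans h2]

end Pool.Agent.W_7d29a1_PK.LK77
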