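import Pool.Agent.W_7d29a1_PK.Main18

/-!
The exit at every large scale: the second half of the KPZ relation for the lower exponents.
-/

namespace Pool.Agent.W_7d29a1_PK.LK19

open MeasureTheory ProbabilityTheory Filter Topology Pool.Agent.W_MP_7d29a1_pr
  Pool.Agent.W_7d29a1_h46 Pool.Agent.W_7d29a1_h46u Pool.Agent.W_7d29a1_D2
  Pool.Agent.W_7d29a1_D2.B35 Pool.Agent.W_7d29a1_Q29 Pool.Agent.W_7d29a1_R34
  Pool.Agent.W_7d29a1_SP Pool.Agent.W_7d29a1_V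

variable {d : ℕ} {ρ : Measure ℝ} [IsProbabilityMeasure ρ] {β : ℝ}

/-- The core at every large scale: a family of tilts of all small sizes with a lower bound of the
increment gives the exit with a polynomial probability at some length in `[N, 2 N]`. -/
theorem coreLK19 (hS : StpPK d ρ β) (hT : TailPK d ρ β) {h : Vec d} {p a K c₀ δ : ℝ} (hp : 1 ≤ p)
    (hK : ‖h‖ ≤ K) (hc₀ : 0 < c₀) (hδ : 0 < δ) {Ed : ℕ → ℝ}
    (hfam : ∀ t : ℝ, 0 < t → t ≤ δ → ∃ (r : Vec d) (σ : ℝ), ‖r‖ ≤ 1 ∧ |σ| ≤ K ∧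
      c₀ * t ^ p ≤ lam ρ β (h + r) - lam ρ β h - σ ∧
      ∀ n : ℕ, 1 ≤ n → ∀ R : ℝ, (n : ℝ) ^ a * t ≤ R → Ex ρ β h r σ n R ≤ Ed n)
    {y qM : ℝ} {N₀ : ℕ}
    (hM : ∀ N : ℕ, N₀ ≤ N → ∀ u : ℝ, 0 ≤ u →
      (∀ u' : ℝ, u < u' → (law d ρ).real {η | N * lam ρ β h + u' ≤ X β h η N} <
        (N : ℝ) ^ (-qM)) → (N : ℝ) ^ y / 8 ≤ u + Real.log N)
    (hlt : p * a < 1 + (p - 1) * y) :
    ∃ q₀ : ℝ, 0 < q₀ ∧ ∃ N₁ : ℕ, ∀ N : ℕ, N₁ ≤ N → ∃ n : ℕ, N ≤ n ∧ n ≤ 2 * N ∧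
      (N : ℝ) ^ (-q₀) ≤ Ed n := by
  obtain ⟨q, c, C, hq, hc, hC, H⟩ := hS K
  obtain ⟨Q, hQ1, hQ2⟩ : ∃ Q : ℝ, q ≤ Q ∧ qM ≤ Q := ⟨max q qM, le_max_left _ _, le_max_right _ _⟩
  have hQ0 : 0 < Q := lt_of_lt_of_le hq hQ1
  obtain ⟨q₀, hq₀, N₁, HN⟩ := H Q 2 hQ0 (by norm_num)
  obtain ⟨N₂, HT⟩ := hT h (Q + 1) (1 / 4) (by norm_num)
  have hCpos : 0 < C := lt_of_lt_of_le one_pos hC
  obtain ⟨N₃, HA⟩ := eventually_atTop.1 (Main18.arith18 (z := 1 / 2 + 1 / 4) hp hc₀ hCpos hc hδ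
    (by norm_num) hlt)
  refine ⟨q₀, hq₀, max (max N₁ N₂) (max N₃ (max N₀ 3)), fun N hNN => ?_⟩
  have n1 : N₁ ≤ N := ((le_max_left _ _).trans (le_max_left _ _)).trans hNN
  have n2 : N₂ ≤ N := ((le_max_right _ _).trans (le_max_left _ _)).trans hNN
  have n3 : N₃ ≤ N := ((le_max_left _ _).trans (le_max_right _ _)).trans hNN
  have n4 : N₀ ≤ N := (((le_max_left _ _).trans (le_max_right _ _)).trans (le_max_right _ _)).trans
    hNN
  have n5 : 3 ≤ N := (((le_max_right _ _).trans (le_max_right _ _)).trans (le_max_right _ _)).trans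
    hNN
  have hN := hM N n4
  have hN1 : 1 ≤ N := by omega
  have hNr : (0 : ℝ) < N := by exact_mod_cast hN1
  have hNr1 : (1 : ℝ) ≤ N := by exact_mod_cast hN1
  have hNr3 : (3 : ℝ) ≤ N := by exact_mod_cast n5
  have hlog : 1 ≤ Real.log N := by
    rw [Real.le_log_iff_exp_le hNr]
    have := Real.exp_one_lt_d9
    linarith
  -- the tail function
  obtain ⟨P, hP⟩ : ∃ P : ℝ → ℝ, P = fun u =>
    (law d ρ).real {η | N * lam ρ β h + u ≤ X β h η N} := ⟨_, rfl⟩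
  have hPv : ∀ u, P u = (law d ρ).real {η | N * lam ρ β h + u ≤ X β h η N} := fun u => by
    rw [hP]
  have hanti : ∀ u u' : ℝ, u ≤ u' → P u' ≤ P u := by
    intro u u' huu
    rw [hPv, hPv]
    refine measureReal_mono (fun η hη => ?_)
    have h1 : N * lam ρ β h + u' ≤ X β h η N := hη
    change N * lam ρ β h + u ≤ X β h η N
    linarith
  have hQexp : (N : ℝ) ^ (-(Q + 1)) < (N : ℝ) ^ (-Q) :=
    Real.rpow_lt_rpow_of_exponent_lt (by linarith) (by linarith)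
  obtain ⟨S, hSdef⟩ : ∃ S : Set ℝ, S = {u : ℝ | 0 ≤ u ∧ (N : ℝ) ^ (-Q) ≤ P u} := ⟨_, rfl⟩
  have hSmem : ∀ u, u ∈ S ↔ 0 ≤ u ∧ (N : ℝ) ^ (-Q) ≤ P u := fun u => by rw [hSdef]; rfl
  have hSb : ∀ u ∈ S, u ≤ (N : ℝ) ^ (1 / 2 + 1 / 4 : ℝ) := by
    intro u hu
    by_contra hcon
    rw [not_le] at hcon
    have h1 := ((hSmem u).1 hu).2
    have h2 := hanti _ _ hcon.le
    have h3 := HT N n2
    rw [← hPv] at h3
    linarith
  have hbdd : BddAbove S := ⟨_, hSb⟩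
  obtain ⟨u₀, hu₀⟩ : ∃ u₀ : ℝ, u₀ = sSup S := ⟨_, rfl⟩
  have hu0 : 0 ≤ u₀ := by
    rw [hu₀]
    exact Real.sSup_nonneg fun x hx => ((hSmem x).1 hx).1
  have huN : u₀ ≤ (N : ℝ) ^ (1 / 2 + 1 / 4 : ℝ) := by
    rw [hu₀]
    exact Real.sSup_le hSb (Real.rpow_nonneg hNr.le _)
  have habove : ∀ u' : ℝ, u₀ < u' → P u' < (N : ℝ) ^ (-Q) := by
    intro u' hu'
    by_contra hcon
    rw [not_lt] at hcon
    have h1 : u' ∈ S := (hSmem u').2 ⟨hu0.trans hu'.le, hcon⟩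
    have h2 := le_csSup hbdd h1
    rw [← hu₀] at h2
    linarith
  have hexpM : (N : ℝ) ^ (-Q) ≤ (N : ℝ) ^ (-qM) :=
    Real.rpow_le_rpow_of_exponent_le hNr1 (by linarith)
  have hexpq : (N : ℝ) ^ (-Q) ≤ (N : ℝ) ^ (-q) :=
    Real.rpow_le_rpow_of_exponent_le hNr1 (by linarith)
  have hy8 : (N : ℝ) ^ y / 8 ≤ u₀ + Real.log N := by
    refine hN u₀ hu0 fun u' hu' => ?_
    have h1 := habove u' hu'
    rw [hPv] at h1
    exact h1.trans_le hexpM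
  obtain ⟨t, ht0, htδ, hte, htn⟩ := HA N n3 (u₀ + 1 + Real.log N) (by linarith) (by linarith)
  obtain ⟨r, σ, hr, hσ, hlow, hEx⟩ := hfam t ht0 htδ
  have hc1 : (law d ρ).real {η | N * lam ρ β h + (u₀ + 1) < X β h η N} ≤ (N : ℝ) ^ (-q) := by
    have h1 : (law d ρ).real {η | N * lam ρ β h + (u₀ + 1) < X β h η N} ≤ P (u₀ + 1) := by
      rw [hPv]
      refine measureReal_mono (fun η hη => ?_)
      have h0 : N * lam ρ β h + (u₀ + 1) < X β h η N := hη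
      change N * lam ρ β h + (u₀ + 1) ≤ X β h η N
      exact h0.le
    have h2 := habove (u₀ + 1) (by linarith)
    linarith
  have hc2 : u₀ + 1 ≤ 2 * Real.log N ∨
      (N : ℝ) ^ (-Q) ≤ (law d ρ).real {η | N * lam ρ β h + (u₀ + 1) / 2 ≤ X β h η N} := by
    rcases le_or_gt u₀ 1 with h1 | h1
    · left
      linarith
    · right
      have hne : S.Nonempty := by
        by_contra hemp
        rw [Set.not_nonempty_iff_eq_empty] at hemp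
        rw [hemp, Real.sSup_empty] at hu₀
        linarith
      have h2 : (u₀ + 1) / 2 < sSup S := by
        rw [← hu₀]
        linarith
      obtain ⟨u', hu', hlt'⟩ := exists_lt_of_lt_csSup hne h2
      have h3 := ((hSmem u').1 hu').2
      have h4 := hanti _ _ hlt'.le
      rw [← hPv]
      linarith
  have hc3 : C * (u₀ + 1 + Real.log N) ≤ N * (lam ρ β (h + r) - lam ρ β h - σ) := by
    rw [← hte]
    exact mul_le_mul_of_nonneg_left hlow hNr.le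
  obtain ⟨n, hn1, hn2, hn3⟩ := HN N n1 h r σ hK hr hσ (u₀ + 1) (by linarith) hc1 hc2 hc3
  exact ⟨n, hn1, hn2, hn3.trans (hEx n (hN1.trans hn1) (c * (u₀ + 1 + Real.log N))
    (htn n hn1 hn2))⟩

/-- The condition of the quantiles from a polynomial lower bound of the upper tail. -/
lemma quantLK19 {h : Vec d} {y q : ℝ} {N₀ : ℕ}
    (hP : ∀ N : ℕ, N₀ ≤ N → (N : ℝ) ^ (-q) ≤
      (law d ρ).real {η | N * lam ρ β h + (N : ℝ) ^ y ≤ X β h η N}) :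
    ∀ N : ℕ, max N₀ 1 ≤ N → ∀ u : ℝ, 0 ≤ u →
      (∀ u' : ℝ, u < u' → (law d ρ).real {η | N * lam ρ β h + u' ≤ X β h η N} <
        (N : ℝ) ^ (-q)) → (N : ℝ) ^ y / 8 ≤ u + Real.log N := by
  intro N hN u hu hab
  have hN1 : (1 : ℝ) ≤ N := by exact_mod_cast (le_max_right _ _).trans hN
  have h3 : 0 ≤ Real.log N := Real.log_nonneg hN1
  have h5 : 0 ≤ (N : ℝ) ^ y := Real.rpow_nonneg (by linarith) _
  by_contra hcon
  rw [not_le] at hcon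
  have h4 := hab ((N : ℝ) ^ y) (by linarith)
  have h6 := hP N ((le_max_left _ _).trans hN)
  linarith

/-- The condition of the quantiles for the exponent `0`. -/
lemma quantZero19 {h : Vec d} {q : ℝ} :
    ∀ N : ℕ, 2 ≤ N → ∀ u : ℝ, 0 ≤ u →
      (∀ u' : ℝ, u < u' → (law d ρ).real {η | N * lam ρ β h + u' ≤ X β h η N} <
        (N : ℝ) ^ (-q)) → (N : ℝ) ^ (0 : ℝ) / 8 ≤ u + Real.log N := by
  intro N hN u hu _
  have h2 : (2 : ℝ) ≤ (N : ℝ) := by exact_mod_cast hN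
  have h3 : Real.log 2 ≤ Real.log (N : ℝ) := Real.log_le_log (by norm_num) h2
  have h4 := Real.log_two_gt_d9
  rw [Real.rpow_zero]
  linarith

/-- The mean mass outside the tube. -/
noncomputable def Tx (ρ : Measure ℝ) (β : ℝ) (h v : Vec d) (n : ℕ) (W : ℝ) : ℝ :=
  ∫ η, (1 - PolT β h η (tube d n v W)) ∂(law d ρ)

/-- The family of tilts for the tube: `LoA`. -/
lemma famT19 {h v : Vec d} {p a : ℝ} (hlo : LoA (lam ρ β) h v p) :
    ∃ c₀ δ : ℝ, 0 < c₀ ∧ 0 < δ ∧ ∀ t : ℝ, 0 < t → t ≤ δ → ∃ (r : Vec d) (σ : ℝ), ‖r‖ ≤ 1 ∧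
      |σ| ≤ ‖h‖ + ‖v‖ ∧ c₀ * t ^ p ≤ lam ρ β (h + r) - lam ρ β h - σ ∧
      ∀ n : ℕ, 1 ≤ n → ∀ R : ℝ, (n : ℝ) ^ a * t ≤ R →
        Ex ρ β h r σ n R ≤ Tx ρ β h v n ((n : ℝ) ^ a) := by
  obtain ⟨c₀, hc₀, δ, hδ, hr⟩ := hlo
  refine ⟨c₀, min δ 1, hc₀, lt_min hδ one_pos, ?_⟩
  intro t ht0 htδ
  obtain ⟨r, hrt, hgap⟩ := hr t ht0 (htδ.trans (min_le_left _ _))
  have ht1 : t ≤ 1 := htδ.trans (min_le_right _ _)
  refine ⟨r, inner ℝ v r, by rw [hrt]; exact ht1, ?_, hgap, ?_⟩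
  · have h1 := abs_real_inner_le_norm v r
    rw [hrt] at h1
    have h2 : ‖v‖ * t ≤ ‖v‖ * 1 := mul_le_mul_of_nonneg_left ht1 (norm_nonneg _)
    linarith [norm_nonneg h]
  · intro n hn R hR
    have hsub : tube d n v ((n : ℝ) ^ a) ⊆ slb d n r (inner ℝ v r) R := by
      intro s hs i hi
      have h1 := hs i hi
      have h2 : inner ℝ r (emb (pos s i)) - i * inner ℝ v r =
          inner ℝ r (emb (pos s i) - (i : ℝ) • v) := by
        rw [inner_sub_right, real_inner_smul_right, real_inner_comm v r]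
      rw [h2]
      have h3 := abs_real_inner_le_norm r (emb (pos s i) - (i : ℝ) • v)
      rw [hrt] at h3
      have h4 : t * ‖emb (pos s i) - (i : ℝ) • v‖ ≤ t * (n : ℝ) ^ a :=
        mul_le_mul_of_nonneg_left h1 ht0.le
      linarith [mul_comm t ((n : ℝ) ^ a)]
    unfold Ex Tx
    refine integral_mono_of_nonneg (Eventually.of_forall fun η => ?_) ?_
      (Eventually.of_forall fun η => ?_)
    · exact sub_nonneg.2 (PolT_le_one β h η _)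
    · refine Integrable.mono' (integrable_const (1 : ℝ))
        ((measurable_PolT β h _).const_sub 1).aestronglyMeasurable
        (Eventually.of_forall fun η => ?_)
      have h5 := PolT_le_one β h η (tube d n v ((n : ℝ) ^ a))
      have h6 := PolT_nonneg β h η (tube d n v ((n : ℝ) ^ a))
      rw [Real.norm_eq_abs, abs_of_nonneg (by linarith)]
      linarith
    · exact sub_le_sub_left (PolT_mono β h η hsub) 1

/-- **LKlow, tubes**: a polynomial lower bound of the upper tail at the height `N ^ y` at every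
large length gives the exit of the tube of the width `n ^ a` at some length in `[N, 2 N]`, for
every large `N`, if `p a < 1 + (p - 1) y`. -/
theorem lkT19 (hS : StpPK d ρ β) (hT : TailPK d ρ β) {h v : Vec d} {p a y q : ℝ} (hp : 1 ≤ p)
    (hlo : LoA (lam ρ β) h v p) {N₀ : ℕ}
    (hP : ∀ N : ℕ, N₀ ≤ N → (N : ℝ) ^ (-q) ≤
      (law d ρ).real {η | N * lam ρ β h + (N : ℝ) ^ y ≤ X β h η N})
    (hlt : p * a < 1 + (p - 1) * y) :
    ∃ q₀ : ℝ, 0 < q₀ ∧ ∃ N₁ : ℕ, ∀ N : ℕ, N₁ ≤ N → ∃ n : ℕ, N ≤ n ∧ n ≤ 2 * N ∧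
      (N : ℝ) ^ (-q₀) ≤ Tx ρ β h v n ((n : ℝ) ^ a) := by
  obtain ⟨c₀, δ, hc₀, hδ, hfam⟩ := famT19 (a := a) hlo
  exact coreLK19 hS hT hp (by linarith [norm_nonneg v]) hc₀ hδ hfam (quantLK19 hP) hlt

/-- **LKlow, tubes, exponent `0`**. -/
theorem lkTzero19 (hS : StpPK d ρ β) (hT : TailPK d ρ β) {h v : Vec d} {p a : ℝ} (hp : 1 ≤ p)
    (hlo : LoA (lam ρ β) h v p) (hlt : p * a < 1) :
    ∃ q₀ : ℝ, 0 < q₀ ∧ ∃ N₁ : ℕ, ∀ N : ℕ, N₁ ≤ N → ∃ n : ℕ, N ≤ n ∧ n ≤ 2 * N ∧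
      (N : ℝ) ^ (-q₀) ≤ Tx ρ β h v n ((n : ℝ) ^ a) := by
  obtain ⟨c₀, δ, hc₀, hδ, hfam⟩ := famT19 (a := a) hlo
  exact coreLK19 hS hT hp (by linarith [norm_nonneg v]) hc₀ hδ hfam
    (quantZero19 (q := 0)) (by linarith)

/-- The family of tilts for the slab: `LoR`. -/
lemma famL19 {h w : Vec d} {s p a : ℝ} (hlo : LoR (lam ρ β) h w s p) :
    ∃ c₀ δ : ℝ, 0 < c₀ ∧ 0 < δ ∧ ∀ t : ℝ, 0 < t → t ≤ δ → ∃ (r : Vec d) (σ : ℝ), ‖r‖ ≤ 1 ∧
      |σ| ≤ ‖h‖ + |s| ∧ c₀ * t ^ p ≤ lam ρ β (h + r) - lam ρ β h - σ ∧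
      ∀ n : ℕ, 1 ≤ n → ∀ R : ℝ, (n : ℝ) ^ a * t ≤ R →
        Ex ρ β h r σ n R ≤ Ex ρ β h w s n ((n : ℝ) ^ a) := by
  obtain ⟨c₀, δ, hc₀, hδ, hr⟩ := hlo
  have hw0 : 0 < 1 / (‖w‖ + 1) := by positivity
  refine ⟨c₀, min δ (min 1 (1 / (‖w‖ + 1))), hc₀, lt_min hδ (lt_min one_pos hw0), ?_⟩
  intro t ht0 htδ
  have ht1 : t ≤ 1 := (htδ.trans (min_le_right _ _)).trans (min_le_left _ _)
  have ht2 : t ≤ 1 / (‖w‖ + 1) := (htδ.trans (min_le_right _ _)).trans (min_le_right _ _)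
  refine ⟨t • w, s * t, ?_, ?_, hr t ht0 (htδ.trans (min_le_left _ _)), ?_⟩
  · rw [norm_smul, Real.norm_of_nonneg ht0.le]
    rw [le_div_iff₀ (by positivity)] at ht2
    nlinarith [norm_nonneg w]
  · rw [abs_mul, abs_of_pos ht0]
    nlinarith [abs_nonneg s, norm_nonneg h]
  · intro n hn R hR
    have hsub : slb d n w s ((n : ℝ) ^ a) ⊆ slb d n (t • w) (s * t) R := by
      intro z hz i hi
      have h1 := hz i hi
      have h2 : inner ℝ (t • w) (emb (pos z i)) - i * (s * t) =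
          t * (inner ℝ w (emb (pos z i)) - i * s) := by
        rw [real_inner_smul_left]
        ring
      rw [h2, abs_mul, abs_of_pos ht0]
      have h4 : t * |inner ℝ w (emb (pos z i)) - i * s| ≤ t * (n : ℝ) ^ a :=
        mul_le_mul_of_nonneg_left h1 ht0.le
      linarith [mul_comm t ((n : ℝ) ^ a)]
    unfold Ex
    refine integral_mono_of_nonneg (Eventually.of_forall fun η => ?_) ?_
      (Eventually.of_forall fun η => ?_)
    · exact sub_nonneg.2 (PolT_le_one β h η _)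
    · refine Integrable.mono' (integrable_const (1 : ℝ))
        ((measurable_PolT β h _).const_sub 1).aestronglyMeasurable
        (Eventually.of_forall fun η => ?_)
      have h5 := PolT_le_one β h η (slb d n w s ((n : ℝ) ^ a))
      have h6 := PolT_nonneg β h η (slb d n w s ((n : ℝ) ^ a))
      rw [Real.norm_eq_abs, abs_of_nonneg (by linarith)]
      linarith
    · exact sub_le_sub_left (PolT_mono β h η hsub) 1

/-- **LKlow, slabs**. -/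
theorem lkL19 (hS : StpPK d ρ β) (hT : TailPK d ρ β) {h w : Vec d} {s p a y q : ℝ} (hp : 1 ≤ p)
    (hlo : LoR (lam ρ β) h w s p) {N₀ : ℕ}
    (hP : ∀ N : ℕ, N₀ ≤ N → (N : ℝ) ^ (-q) ≤
      (law d ρ).real {η | N * lam ρ β h + (N : ℝ) ^ y ≤ X β h η N})
    (hlt : p * a < 1 + (p - 1) * y) :
    ∃ q₀ : ℝ, 0 < q₀ ∧ ∃ N₁ : ℕ, ∀ N : ℕ, N₁ ≤ N → ∃ n : ℕ, N ≤ n ∧ n ≤ 2 * N ∧
      (N : ℝ) ^ (-q₀) ≤ Ex ρ β h w s n ((n : ℝ) ^ a) := by
  obtain ⟨c₀, δ, hc₀, hδ, hfam⟩ := famL19 (a := a) hlo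
  exact coreLK19 hS hT hp (by linarith [abs_nonneg s]) hc₀ hδ hfam (quantLK19 hP) hlt

/-- **LKlow, slabs, exponent `0`**. -/
theorem lkLzero19 (hS : StpPK d ρ β) (hT : TailPK d ρ β) {h w : Vec d} {s p a : ℝ} (hp : 1 ≤ p)
    (hlo : LoR (lam ρ β) h w s p) (hlt : p * a < 1) :
    ∃ q₀ : ℝ, 0 < q₀ ∧ ∃ N₁ : ℕ, ∀ N : ℕ, N₁ ≤ N → ∃ n : ℕ, N ≤ n ∧ n ≤ 2 * N ∧
      (N : ℝ) ^ (-q₀) ≤ Ex ρ β h w s n ((n : ℝ) ^ a) := by
  obtain ⟨c₀, δ, hc₀, hδ, hfam⟩ := famL19 (a := a) hlo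
  exact coreLK19 hS hT hp (by linarith [abs_nonneg s]) hc₀ hδ hfam
    (quantZero19 (q := 0)) (by linarith)

end Pool.Agent.W_7d29a1_PK.LK19
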