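import Pool.Agent.W_7d29a1_PK.Main83

/-!
Theorem LK, the first half, scale by scale: the exit at every length, from the step at one length
(helper68, after `Main83.core`).
-/

set_option autoImplicit false

namespace Pool.Agent.W_7d29a1_PK

open MeasureTheory ProbabilityTheory Filter Topology Pool.Agent.W_MP_7d29a1_pr
  Pool.Agent.W_7d29a1_h46 Pool.Agent.W_7d29a1_h46u Pool.Agent.W_7d29a1_D2
  Pool.Agent.W_7d29a1_D2.B35 Pool.Agent.W_7d29a1_Q29 Pool.Agent.W_7d29a1_R34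
  Pool.Agent.W_7d29a1_SP Pool.Agent.W_7d29a1_V

namespace K68

open M83

variable {d : ℕ} {ρ : Measure ℝ} {β : ℝ}

/-- The core of both theorems, at one length. -/
theorem coreN [IsProbabilityMeasure ρ] (hS : StpPK d ρ β) (hTl : TailPK d ρ β) {h : Vec d}
    {K p a y c0 δ Q0 : ℝ} (hK : ‖h‖ ≤ K) (hp : 1 ≤ p) (hc0 : 0 < c0) (hδ : 0 < δ)
    (G : ℕ → ℝ)
    (hloc : ∀ t : ℝ, 0 < t → t ≤ δ → ∃ (r : Vec d) (σ : ℝ), ‖r‖ ≤ 1 ∧ |σ| ≤ K ∧
      c0 * t ^ p ≤ lam ρ β (h + r) - lam ρ β h - σ ∧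
        ∀ n : ℕ, Ex ρ β h r σ n (t * (n : ℝ) ^ a) ≤ G n)
    (ha : p * a < 1 + (p - 1) * y) :
    ∃ q₀ : ℝ, 0 < q₀ ∧ ∃ N₀ : ℕ, ∀ N : ℕ, N₀ ≤ N → (y = 0 ∨ (N : ℝ) ^ (-Q0) ≤
      (law d ρ).real {η | N * lam ρ β h + (N : ℝ) ^ y / 8 ≤ X β h η N}) →
      ∃ n : ℕ, N ≤ n ∧ n ≤ 2 * N ∧ (N : ℝ) ^ (-q₀) ≤ G n := by
  have hp0 : 0 < p := by linarith
  obtain ⟨q, c, C, hq, hc, hC, hS⟩ := hS K
  have hC0 : 0 < C := by linarith
  set Q := max q Q0 with hQ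
  have hQq : q ≤ Q := le_max_left _ _
  have hQ0 : 0 < Q := lt_of_lt_of_le hq hQq
  obtain ⟨q₀, hq₀, N₀, hS⟩ := hS Q 0 hQ0 le_rfl
  obtain ⟨N₁, hTl⟩ := hTl h (Q + 1) (1 / 4) (by norm_num)
  have ev1 : ∀ᶠ N : ℕ in atTop, C * 2 ^ |a * p| * (N : ℝ) ^ (a * p) ≤
      c0 * c ^ p * (1 / 8) ^ (p - 1) * (N : ℝ) ^ (1 + y * (p - 1)) :=
    ev_pow (by positivity) (by nlinarith)
  have ev2 : ∀ᶠ N : ℕ in atTop, 3 * C * (N : ℝ) ^ (3 / 4 : ℝ) ≤ c0 * δ ^ p * (N : ℝ) ^ (1 : ℝ) :=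
    ev_pow (by positivity) (by norm_num)
  obtain ⟨N₂, hN₂⟩ := Filter.eventually_atTop.1 (ev1.and ev2)
  refine ⟨q₀, hq₀, N₀ + N₁ + N₂ + 3, ?_⟩
  intro N hNbig hluck
  obtain ⟨hev1, hev2⟩ := hN₂ N (by omega)
  have hN3 : 3 ≤ N := by omega
  have hN3' : (3 : ℝ) ≤ N := by exact_mod_cast hN3
  have hN0 : (0 : ℝ) < N := by linarith
  have hlog1 : 1 ≤ Real.log N := by
    rw [Real.le_log_iff_exp_le hN0]
    have := Real.exp_one_lt_d9
    linarith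
  have hlog2 : Real.log N ≤ 2 * (N : ℝ) ^ (3 / 4 : ℝ) := by
    have h1 := Real.log_le_rpow_div hN0.le (show (0 : ℝ) < 3 / 4 by norm_num)
    have h2 : 0 ≤ (N : ℝ) ^ (3 / 4 : ℝ) := by positivity
    rw [div_eq_mul_inv] at h1
    nlinarith
  -- the quantile
  have hTail := hTl N (by omega)
  rw [show (1 / 2 + 1 / 4 : ℝ) = 3 / 4 by norm_num] at hTail
  have hTail' : (law d ρ).real {η | N * lam ρ β h + (N : ℝ) ^ (3 / 4 : ℝ) ≤ X β h η N} <
      (N : ℝ) ^ (-Q) := by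
    refine lt_of_le_of_lt hTail ?_
    exact Real.rpow_lt_rpow_of_exponent_lt (by linarith) (by linarith)
  obtain ⟨u, hu0, huT, hu1, hu2, hu3⟩ := quant (law d ρ) (fun η => X β h η N)
    (by positivity) hTail'
  set w := u + Real.log N with hw
  have hw1 : 1 ≤ w := by linarith
  have hw0 : 0 < w := by linarith
  have hwbig : (N : ℝ) ^ y / 8 ≤ w := by
    rcases hluck with h0 | h1
    · rw [h0, Real.rpow_zero]; linarith
    · have h2 : (N : ℝ) ^ (-Q) ≤ (N : ℝ) ^ (-Q0) :=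
        Real.rpow_le_rpow_of_exponent_le (by linarith) (by
          have := le_max_right q Q0
          linarith)
      have := hu3 _ (by positivity) (h2.trans h1)
      linarith
  have hw3 : w ≤ 3 * (N : ℝ) ^ (3 / 4 : ℝ) := by linarith
  -- the tilt
  set t := (C * w / (c0 * N)) ^ (1 / p) with ht
  have hbase : 0 < C * w / (c0 * N) := by positivity
  have ht0 : 0 < t := Real.rpow_pos_of_pos hbase _
  have htp : t ^ p = C * w / (c0 * N) := by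
    rw [ht, ← Real.rpow_mul hbase.le, one_div, inv_mul_cancel₀ hp0.ne', Real.rpow_one]
  have htδ : t ≤ δ := by
    rw [← Real.rpow_le_rpow_iff ht0.le hδ.le hp0, htp, div_le_iff₀ (by positivity)]
    rw [Real.rpow_one] at hev2
    calc C * w ≤ C * (3 * (N : ℝ) ^ (3 / 4 : ℝ)) := by gcongr
      _ = 3 * C * (N : ℝ) ^ (3 / 4 : ℝ) := by ring
      _ ≤ c0 * δ ^ p * N := hev2
      _ = δ ^ p * (c0 * N) := by ring
  obtain ⟨r, σ, hr, hσ, hlow, hEx⟩ := hloc t ht0 htδ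
  have hgap : C * (u + Real.log N) ≤ N * (lam ρ β (h + r) - lam ρ β h - σ) := by
    rw [htp] at hlow
    calc C * (u + Real.log N) = N * (c0 * (C * w / (c0 * N))) := by
          rw [← hw]; field_simp
      _ ≤ _ := by gcongr
  obtain ⟨n, hn1, hn2, hn3⟩ := hS N (by omega) h r σ hK hr hσ u hu0
    (hu1.trans (Real.rpow_le_rpow_of_exponent_le (by linarith) (by linarith)))
    (by
      rcases hu2 with h0 | h1
      · left; rw [h0]; simp
      · exact Or.inr h1) hgap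
  have hn1' : (N : ℝ) ≤ n := by exact_mod_cast hn1
  have hn2' : (n : ℝ) ≤ 2 * N := by exact_mod_cast hn2
  have hwid : t * (n : ℝ) ^ a ≤ c * w :=
    width hp hc hC0 hc0 (by linarith) hn1' hn2' hwbig ht0 htp hev1
  exact ⟨n, hn1, hn2, hn3.trans ((Ex_anti h r σ n hwid).trans (hEx n))⟩

end K68

open M83 K68

/-- **LK, first half, tubes, every length**: `N ^ y / 8` is reached at the length `N` with the
probability `N ^ (-Q0)` (nothing if `y = 0`), then the tube of radius `n ^ a` is left with the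
probability `N ^ (-q₀)` at some length in `[N, 2 N]`, for all `a < (1 + (p - 1) y) / p`. -/
theorem lkT68 {d : ℕ} {ρ : Measure ℝ} [IsProbabilityMeasure ρ] {β : ℝ} (hS : StpPK d ρ β)
    (hTl : TailPK d ρ β) {h v : Vec d} {p a y : ℝ} (Q0 : ℝ) (hp : 1 ≤ p)
    (hL : LoA (lam ρ β) h v p) (ha : p * a < 1 + (p - 1) * y) :
    ∃ q₀ : ℝ, 0 < q₀ ∧ ∃ N₀ : ℕ, ∀ N : ℕ, N₀ ≤ N → (y = 0 ∨ (N : ℝ) ^ (-Q0) ≤
      (law d ρ).real {η | N * lam ρ β h + (N : ℝ) ^ y / 8 ≤ X β h η N}) →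
      ∃ n : ℕ, N ≤ n ∧ n ≤ 2 * N ∧ (N : ℝ) ^ (-q₀) ≤
        ∫ η, (1 - PolT β h η (tube d n v ((n : ℝ) ^ a))) ∂(law d ρ) := by
  obtain ⟨c0, hc0, δ, hδ, hL⟩ := hL
  refine coreN (K := max ‖h‖ ‖v‖) (δ := min δ 1) hS hTl (le_max_left _ _) hp hc0
    (lt_min hδ one_pos) (fun n => ∫ η, (1 - PolT β h η (tube d n v ((n : ℝ) ^ a))) ∂(law d ρ))
    ?_ ha
  intro t ht ht2
  obtain ⟨r, hr, hg⟩ := hL t ht (ht2.trans (min_le_left _ _))
  refine ⟨r, inner ℝ v r, by rw [hr]; exact ht2.trans (min_le_right _ _), ?_, hg, ?_⟩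
  · have h1 := abs_real_inner_le_norm v r
    have h2 : ‖r‖ ≤ 1 := by rw [hr]; exact ht2.trans (min_le_right _ _)
    have h3 : ‖v‖ ≤ max ‖h‖ ‖v‖ := le_max_right _ _
    nlinarith [norm_nonneg v]
  · intro n
    refine out_mono h n fun s hs i hi => ?_
    have h1 : inner ℝ r (emb (pos s i)) - i * inner ℝ v r =
        inner ℝ r (emb (pos s i) - (i : ℝ) • v) := by
      rw [inner_sub_right, inner_smul_right, real_inner_comm v r]
    rw [h1]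
    refine (abs_real_inner_le_norm _ _).trans ?_
    rw [hr]
    exact mul_le_mul_of_nonneg_left (hs i hi) ht.le

/-- **LK, first half, slabs, every length.** -/
theorem lkL68 {d : ℕ} {ρ : Measure ℝ} [IsProbabilityMeasure ρ] {β : ℝ} (hS : StpPK d ρ β)
    (hTl : TailPK d ρ β) {h w : Vec d} {s p a y : ℝ} (Q0 : ℝ) (hp : 1 ≤ p)
    (hL : LoR (lam ρ β) h w s p) (ha : p * a < 1 + (p - 1) * y) :
    ∃ q₀ : ℝ, 0 < q₀ ∧ ∃ N₀ : ℕ, ∀ N : ℕ, N₀ ≤ N → (y = 0 ∨ (N : ℝ) ^ (-Q0) ≤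
      (law d ρ).real {η | N * lam ρ β h + (N : ℝ) ^ y / 8 ≤ X β h η N}) →
      ∃ n : ℕ, N ≤ n ∧ n ≤ 2 * N ∧ (N : ℝ) ^ (-q₀) ≤ Ex ρ β h w s n ((n : ℝ) ^ a) := by
  obtain ⟨c0, δ, hc0, hδ, hL⟩ := hL
  have hw1 : 0 < 1 + ‖w‖ := by positivity
  refine coreN (K := max ‖h‖ |s|) (δ := min δ (1 / (1 + ‖w‖))) hS hTl (le_max_left _ _) hp hc0
    (lt_min hδ (by positivity)) (fun n => Ex ρ β h w s n ((n : ℝ) ^ a)) ?_ ha
  intro t ht ht2
  have ht3 : t ≤ 1 / (1 + ‖w‖) := ht2.trans (min_le_right _ _)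
  rw [le_div_iff₀ hw1] at ht3
  have ht4 : t ≤ 1 := by nlinarith [norm_nonneg w]
  refine ⟨t • w, s * t, ?_, ?_, hL t ht (ht2.trans (min_le_left _ _)), ?_⟩
  · rw [norm_smul, Real.norm_eq_abs, abs_of_pos ht]
    nlinarith
  · rw [abs_mul, abs_of_pos ht]
    have h3 : |s| ≤ max ‖h‖ |s| := le_max_right _ _
    nlinarith [abs_nonneg s]
  · intro n
    refine out_mono h n fun q hq i hi => ?_
    have h1 : inner ℝ (t • w) (emb (pos q i)) - i * (s * t) =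
        t * (inner ℝ w (emb (pos q i)) - i * s) := by
      rw [real_inner_smul_left]; ring
    rw [h1, abs_mul, abs_of_pos ht]
    exact mul_le_mul_of_nonneg_left (hq i hi) ht.le

end Pool.Agent.W_7d29a1_PK
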