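import Pool.Agent.W_7d29a1_PK.OH60
import Pool.Agent.W_7d29a1_PK.DefsPK2

/-!
The upper half of the scaling relation at one tilt and one scale, every law: a small upper tail of
`log Z_N` at the level `N ^ x` keeps the polymers of the lengths `n ≤ N` in the tube (helper60).
-/

namespace Pool.Agent.W_7d29a1_PK.O60

open MeasureTheory ProbabilityTheory Filter Topology Pool.Agent.W_MP_7d29a1_pr
  Pool.Agent.W_7d29a1_h46 Pool.Agent.W_7d29a1_h46u Pool.Agent.W_7d29a1_D2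
  Pool.Agent.W_7d29a1_D2.B35 Pool.Agent.W_7d29a1_OT

variable {d : ℕ} {ρ : Measure ℝ} [IsProbabilityMeasure ρ]

/-- The logarithm is small. -/
lemma log_small60 (C q : ℝ) {x : ℝ} (hx : 0 < x) :
    ∀ᶠ n : ℕ in atTop, C * (1 + q * Real.log n) ≤ (n : ℝ) ^ x := by
  have hcast := tendsto_natCast_atTop_atTop (R := ℝ)
  have h1 : (fun y : ℝ => C * (1 + q * Real.log y)) =o[atTop] fun y : ℝ => y ^ x := by
    have h2 : (fun _ : ℝ => (1 : ℝ)) =o[atTop] fun y : ℝ => y ^ x :=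
      (Asymptotics.isLittleO_const_left.2 (Or.inr (tendsto_norm_atTop_atTop.comp
        (tendsto_rpow_atTop hx))))
    exact (h2.add ((isLittleO_log_rpow_atTop hx).const_mul_left _)).const_mul_left _
  have h3 := (h1.bound one_pos).filter_mono hcast
  have h4 : ∀ᶠ n : ℕ in atTop, ‖C * (1 + q * Real.log (n : ℝ))‖ ≤ 1 * ‖(n : ℝ) ^ x‖ := h3
  filter_upwards [h4] with n hn
  rw [one_mul, Real.norm_of_nonneg (Real.rpow_nonneg (Nat.cast_nonneg n) _)] at hn
  exact (le_abs_self _).trans hn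

/-- The restricted free energy of the far walks is low, one scale. -/
lemma sideS60 (hd : 0 < d) (hρ : EM ρ) {β : ℝ} (hβ : 0 ≤ β) (hA : W_7d29a1_AM.AmpCN ρ β)
    {x : ℝ} (hx : 0 < x) {S : ℝ} (hS : 0 ≤ S) (q : ℕ) : ∃ R : ℝ, ∃ N₀ : ℕ, ∀ N : ℕ, N₀ ≤ N →
      ∀ (h v : Vec d), ∀ i ≤ N, ∀ (j : Fin d) (t w B : ℝ), 0 ≤ B →
      lam ρ β (h + t • ej j) ≤ lam ρ β h + v j * t + B →
      N * B + (S + 2) * (N : ℝ) ^ x ≤ |t| * w →
      (∀ ξ : Env d, 0 < ∑ y ∈ FE v i j t w, PP β h ξ i y) →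
      (law d ρ).real {η | i * lam ρ β h + 2 * (N : ℝ) ^ x ≤ X β h η i} < (N : ℝ) ^ (-R) →
      (law d ρ).real {η | i * lam ρ β h - S * (N : ℝ) ^ x <
        UF β h (FE v i j t w) i η} ≤ (N : ℝ) ^ (-((q + 2 : ℕ) : ℝ)) := by
  obtain ⟨C₀, hC₀, hlow⟩ := low60 (d := d) hd hρ β
  obtain ⟨C, hC1, hamp⟩ := E81.ampF (d := d) (ρ := ρ) hβ hA (S + 2) (by linarith)
  have hcast := tendsto_natCast_atTop_atTop (R := ℝ)
  have e1 : ∀ᶠ n : ℕ in atTop, (1 + C₀) ≤ (n : ℝ) := hcast.eventually (eventually_ge_atTop _)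
  have e2 : ∀ᶠ n : ℕ in atTop, (2 : ℝ) ≤ (n : ℝ) := hcast.eventually (eventually_ge_atTop _)
  have e5 : ∀ᶠ n : ℕ in atTop, (1 : ℝ) ≤ (n : ℝ) ^ x :=
    ((tendsto_rpow_atTop hx).comp hcast).eventually (eventually_ge_atTop _)
  obtain ⟨N₀, hN₀⟩ := eventually_atTop.1 (e1.and (e2.and
    ((log_small60 C ((q + 2 : ℕ) : ℝ) hx).and e5)))
  refine ⟨((q + 2 : ℕ) : ℝ) * C, N₀, fun n hn h v i hi j t w B hB hE htw hpos htail => ?_⟩
  obtain ⟨a1, a2, a4, a5⟩ := hN₀ n hn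
  have hn0 : (0 : ℝ) < n := by linarith
  have hin : (i : ℝ) ≤ n := by exact_mod_cast hi
  obtain ⟨u, hu⟩ : ∃ u : ℝ, u = (n : ℝ) ^ x := ⟨_, rfl⟩
  rw [← hu] at htw a4 a5 htail ⊢
  by_contra hcon
  rw [not_le] at hcon
  obtain ⟨κ, hκ⟩ : ∃ κ : ℝ, κ = (n : ℝ) ^ (-((q + 2 : ℕ) : ℝ)) := ⟨_, rfl⟩
  rw [← hκ] at hcon
  have hκ0 : 0 < κ := by rw [hκ]; exact Real.rpow_pos_of_pos hn0 _
  have hn2 : κ ≤ 1 / (n : ℝ) ^ 2 := by
    rw [hκ, Real.rpow_neg hn0.le, ← one_div, Real.rpow_natCast]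
    refine one_div_le_one_div_of_le (by positivity) ?_
    exact pow_le_pow_right₀ (by linarith) (by omega)
  have hκ2 : κ ≤ 1 / 2 := by
    refine hn2.trans ?_
    rw [div_le_div_iff₀ (by positivity) (by norm_num)]
    nlinarith
  have hκl : κ ≤ 1 / (1 + C₀ * i) := by
    refine hn2.trans (one_div_le_one_div_of_le (by positivity) ?_)
    have h1 : C₀ * i ≤ C₀ * n := mul_le_mul_of_nonneg_left hin hC₀
    nlinarith
  have hlog : Real.log (1 / κ) = ((q + 2 : ℕ) : ℝ) * Real.log n := by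
    rw [hκ, one_div, Real.log_inv, Real.log_rpow hn0]
    ring
  obtain ⟨s₀, hs₀⟩ : ∃ s₀ : ℝ, s₀ = i * lam ρ β h + i * B + 1 - |t| * w := ⟨_, rfl⟩
  obtain ⟨s₁, hs₁⟩ : ∃ s₁ : ℝ, s₁ = i * lam ρ β h - S * u := ⟨_, rfl⟩
  have hiB : (i : ℝ) * B ≤ n * B := mul_le_mul_of_nonneg_right hin hB
  have hgap : u ≤ s₁ - s₀ := by
    rw [hs₀, hs₁]
    have : (S + 2) * u = S * u + u + u := by ring
    rw [this] at htw
    linarith
  have h0 : κ ≤ (law d ρ).real {η | UF β h (FE v i j t w) i η ≤ s₀} := by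
    refine hκl.trans ((hlow (h + t • ej j) i).trans (measureReal_mono fun η
      (hη : X β (h + t • ej j) η i ≤ A ρ β (h + t • ej j) i + 1) => ?_))
    show UF β h (FE v i j t w) i η ≤ s₀
    have h1 := UF_le_X hd β h η i j v t w (hpos η)
    have h2 := A_le_lam hd hρ β (h + t • ej j) i
    have h3 := mul_le_mul_of_nonneg_left hE (Nat.cast_nonneg (α := ℝ) i)
    rw [hs₀]
    have h4 : (i : ℝ) * (lam ρ β h + v j * t + B) = i * lam ρ β h + t * (i * v j) + i * B := by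
      ring
    rw [h4] at h3
    linarith
  have h1 := hamp h i (FE v i j t w) s₀ s₁ κ hpos hκ0 hκ2 (by
    rw [hlog]
    exact a4.trans hgap) h0 (by rw [hs₁]; exact hcon.le)
  have h2 : (law d ρ).real {η | s₁ + (S + 2) * (s₁ - s₀) < UF β h (FE v i j t w) i η} ≤
      (law d ρ).real {η | i * lam ρ β h + 2 * u ≤ X β h η i} := by
    refine measureReal_mono fun η
      (hη : s₁ + (S + 2) * (s₁ - s₀) < UF β h (FE v i j t w) i η) => ?_
    show i * lam ρ β h + 2 * u ≤ X β h η i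
    have h3 := E81.UF_le hd β h (FE v i j t w) i η (hpos η)
    have h5 : (S + 2) * u ≤ (S + 2) * (s₁ - s₀) := mul_le_mul_of_nonneg_left hgap (by linarith)
    have h7 : s₁ + (S + 2) * u = i * lam ρ β h + 2 * u := by
      rw [hs₁]
      ring
    linarith
  have h4 : κ ^ C = (n : ℝ) ^ (-(((q + 2 : ℕ) : ℝ) * C)) := by
    rw [hκ, ← Real.rpow_mul hn0.le]
    congr 1
    ring
  rw [h4] at h1
  linarith [h1.trans h2]

lemma far_UF' (hd : 0 < d) {β : ℝ} {h v : Vec d} {L t U w S : ℝ} {n : ℕ} {η : Env d} (j : Fin d)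
    (hR : n * L - 8 * U ≤ X β h η n)
    (hmid : ∀ i ≤ n, ∀ y ∈ boxF d n, X β h (sh i y η) (n - i) ≤ ((n - i : ℕ) : ℝ) * L + 2 * U)
    {i : ℕ} (hi : i ≤ n)
    (hU : (∀ ξ : Env d, 0 < ∑ y ∈ FE v i j t w, PP β h ξ i y) →
      UF β h (FE v i j t w) i η ≤ i * L - S * U) :
    Far β h η n i j v t w ≤ Real.exp ((10 - S) * U) := by
  classical
  have hM : ∀ y ∈ boxF d i, Z β h (sh i y η) (n - i) ≤
      Real.exp (((n - i : ℕ) : ℝ) * L + 2 * U) := by
    intro y hy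
    rw [TubV_exp hd]
    exact Real.exp_le_exp.2 (hmid i hi y (TubV_box hi hy))
  refine (far_F hd β h η hi j v t w hM).trans ?_
  by_cases hne : ∃ s : Fin i → Step d, pos s i ∈ FE v i j t w
  · have hpos : ∀ ξ : Env d, 0 < ∑ y ∈ FE v i j t w, PP β h ξ i y := by
      intro ξ
      obtain ⟨s, hs⟩ := hne
      rw [sumPP]
      refine lt_of_lt_of_le (Real.exp_pos (inner ℝ h (emb (pos s i)) + β * energy ξ s)) ?_
      have h1 : wgt β h ξ s = (if pos s i ∈ FE v i j t w then wgt β h ξ s else 0) := by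
        rw [if_pos hs]
      change wgt β h ξ s ≤ _
      rw [h1]
      refine Finset.single_le_sum
        (f := fun s => if pos s i ∈ FE v i j t w then wgt β h ξ s else 0) (fun s _ => ?_)
        (Finset.mem_univ s)
      split_ifs
      · exact (Real.exp_pos _).le
      · exact le_rfl
    have h1 := hU hpos
    have h2 : ∑ y ∈ FE v i j t w, PP β h η i y = Real.exp (UF β h (FE v i j t w) i η) := by
      unfold UF
      rw [Real.exp_log (hpos η)]
    rw [h2, TubV_exp hd β h η n, ← Real.exp_add, ← Real.exp_sub]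
    refine Real.exp_le_exp.2 ?_
    have h7 : ((n - i : ℕ) : ℝ) = n - i := by
      rw [Nat.cast_sub hi]
    rw [h7]
    nlinarith
  · have h0 : ∑ y ∈ FE v i j t w, PP β h η i y = 0 := by
      rw [sumPP]
      refine Finset.sum_eq_zero fun s _ => if_neg ?_
      intro hs
      exact hne ⟨s, hs⟩
    rw [h0, zero_mul, zero_div]
    exact (Real.exp_pos _).le

/-- **The mass outside of the tube at the lengths up to `N`**, from the upper tail at `N` only. -/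
theorem core60 (hd : 0 < d) (hρ : EM ρ) {β : ℝ} (hβ : 0 ≤ β) (hA : W_7d29a1_AM.AmpCN ρ β)
    (hLow : LowPK d ρ β) (hUpl : UplPK d ρ β) (hAmp : AmpPK d ρ β)
    {h v : Vec d} {x : ℝ} (hx : 0 < x) (hx1 : x < 1) {p : ℝ} (hp : 0 < p)
    (hE : UpG (lam ρ β) h v p) {a : ℝ} (ha : 1 + (p - 1) * x < p * a) (q : ℕ) :
    ∃ Q : ℝ, ∃ N₀ : ℕ, ∀ N : ℕ, N₀ ≤ N →
      (law d ρ).real {η | N * lam ρ β h + (N : ℝ) ^ x ≤ X β h η N} < (N : ℝ) ^ (-Q) →
      ∀ n : ℕ, n ≤ N →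
        ∫ η, (1 - PolT β h η (tube d n v ((N : ℝ) ^ a))) ∂(law d ρ) ≤ (N : ℝ) ^ (-(q : ℝ)) := by
  classical
  have hd0 : (0 : ℝ) < d := by exact_mod_cast hd
  have hd1 : (1 : ℝ) ≤ d := by exact_mod_cast hd
  have ha' : x + (1 - x) / p < a := by
    have h1 : p * (x + (1 - x) / p) < p * a := by
      rw [mul_add, mul_div_cancel₀ _ hp.ne']
      linarith
    exact lt_of_mul_lt_mul_left h1 hp.le
  obtain ⟨ε, hε, hε1⟩ : ∃ ε : ℝ, 0 < ε ∧ x + (1 - x) / p + ε ≤ a :=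
    ⟨a - (x + (1 - x) / p), by linarith, by linarith⟩
  obtain ⟨C₁, hC₁, N₁, HL⟩ := hLow (‖h‖)
  obtain ⟨C₂, hC₂, N₂, HU⟩ := hUpl (‖h‖)
  obtain ⟨C₄, hC₄, HA⟩ := hAmp 1 le_rfl
  obtain ⟨C₃, δ₃, hδ₃, H₃⟩ := expP_of_upG hE
  have hC₃ : 0 ≤ max C₃ 0 := le_max_right _ _
  -- `S = 11`
  obtain ⟨R, N₅, HS⟩ := sideS60 (d := d) (ρ := ρ) hd hρ hβ hA hx (S := 11) (by norm_num) q
  -- the probability of the lower tail
  obtain ⟨q₂, hq₂⟩ : ∃ q₂ : ℝ, q₂ = C₁ + q + 1 := ⟨_, rfl⟩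
  have hqn : (0 : ℝ) ≤ q := Nat.cast_nonneg q
  have hq₂1 : 1 ≤ q₂ := by linarith
  obtain ⟨Q, hQ⟩ : ∃ Q : ℝ, Q = C₂ + q₂ * C₄ + |R| + q + d + 4 := ⟨_, rfl⟩
  have hcast := tendsto_natCast_atTop_atTop (R := ℝ)
  have hxp : 0 < (1 - x) / p := div_pos (by linarith) hp
  have ht : ∀ᶠ n : ℕ in atTop, (n : ℝ) ^ (-((1 - x) / p)) < δ₃ := by
    have h1 := (tendsto_rpow_neg_atTop hxp).comp hcast
    exact h1.eventually (gt_mem_nhds hδ₃)
  have hbig : ∀ᶠ n : ℕ in atTop, d * (max C₃ 0 + (11 + 2)) ≤ (n : ℝ) ^ ε :=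
    ((tendsto_rpow_atTop hε).comp hcast).eventually (eventually_ge_atTop _)
  have hbig2 : ∀ᶠ n : ℕ in atTop, 4 * (3 ^ d * 2) + 4 * (4 * (d : ℝ)) + 4 ≤ (n : ℝ) :=
    hcast.eventually (eventually_ge_atTop _)
  obtain ⟨N₀, hN₀⟩ := eventually_atTop.1 (ht.and (hbig.and (hbig2.and
    ((eventually_ge_atTop N₁).and ((eventually_ge_atTop N₂).and ((eventually_ge_atTop N₅).and
    ((log_small60 1 C₂ hx).and ((log_small60 (4 + C₄) q₂ hx).and
    (log_small60 1 ((q : ℝ) + 2) hx)))))))))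
  refine ⟨Q, N₀, fun N hN hup n hn => ?_⟩
  obtain ⟨b1, b2, b3, b4, b5, b6, b7, b8, b9⟩ := hN₀ N hN
  have h3d : (1 : ℝ) ≤ 3 ^ d := one_le_pow₀ (by norm_num)
  have hN8 : (8 : ℝ) ≤ N := by linarith
  have hN0 : (0 : ℝ) < N := by linarith
  have hN1 : (1 : ℝ) ≤ N := by linarith
  have hlog0 : 0 ≤ Real.log N := Real.log_nonneg hN1
  have hnN : (n : ℝ) ≤ N := by exact_mod_cast hn
  obtain ⟨U, hU⟩ : ∃ U : ℝ, U = (N : ℝ) ^ x := ⟨_, rfl⟩
  have hU0 : 0 < U := by rw [hU]; exact Real.rpow_pos_of_pos hN0 _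
  obtain ⟨L, hL⟩ : ∃ L : ℝ, L = lam ρ β h := ⟨_, rfl⟩
  rw [← hU] at hup b7 b8 b9
  rw [← hL] at hup
  have hU4 : 4 ≤ U := by
    have h1 : (4 + C₄) * (1 + q₂ * Real.log N) ≥ 4 := by
      have h2 : 0 ≤ q₂ * Real.log N := mul_nonneg (by linarith) hlog0
      nlinarith
    linarith
  -- (a) the upper tails
  have hupl : ∀ l : ℕ, l ≤ N → (law d ρ).real {η | l * L + 2 * U ≤ X β h η l} ≤
      (N : ℝ) ^ (C₂ - Q) := by
    intro l hl
    have h1 := HU N b5 h le_rfl l hl U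
    rw [← hL] at h1
    have h2 : (law d ρ).real {η | l * L + 2 * U ≤ X β h η l} ≤
        (law d ρ).real {η | l * L + U + C₂ * Real.log N ≤ X β h η l} := by
      refine measureReal_mono fun η (hη : l * L + 2 * U ≤ X β h η l) => ?_
      show l * L + U + C₂ * Real.log N ≤ X β h η l
      linarith
    refine h2.trans (h1.trans ?_)
    have h3 : (N : ℝ) ^ (C₂ - Q) = (N : ℝ) ^ C₂ * (N : ℝ) ^ (-Q) := by
      rw [← Real.rpow_add hN0]
      congr 1
    rw [h3]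
    exact mul_le_mul_of_nonneg_left hup.le (Real.rpow_nonneg hN0.le _)
  -- (b) the lower tails
  have hlo : ∀ l : ℕ, l ≤ N → (law d ρ).real {η | X β h η l ≤ l * L - 8 * U} ≤
      (N : ℝ) ^ (-q₂) := by
    intro l hl
    by_contra hcon
    rw [not_le] at hcon
    obtain ⟨κ, hκ⟩ : ∃ κ : ℝ, κ = (N : ℝ) ^ (-q₂) := ⟨_, rfl⟩
    rw [← hκ] at hcon
    have hκ0 : 0 < κ := by rw [hκ]; exact Real.rpow_pos_of_pos hN0 _
    have hκ2 : κ ≤ 1 / 2 := by
      rw [hκ, Real.rpow_neg hN0.le, ← one_div]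
      refine one_div_le_one_div_of_le (by norm_num) ?_
      calc (2 : ℝ) ≤ N := by linarith
        _ = (N : ℝ) ^ (1 : ℝ) := (Real.rpow_one _).symm
        _ ≤ (N : ℝ) ^ q₂ := Real.rpow_le_rpow_of_exponent_le hN1 hq₂1
    have hlogk : Real.log (1 / κ) = q₂ * Real.log N := by
      rw [hκ, one_div, Real.log_inv, Real.log_rpow hN0]
      ring
    have h1 := HA h l (l * L - 8 * U) (l * L - 2) κ hκ0 hκ2 (by
      rw [hlogk]
      have h2 : C₄ * (1 + q₂ * Real.log N) ≤ (4 + C₄) * (1 + q₂ * Real.log N) := by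
        have h3 : 0 ≤ q₂ * Real.log N := mul_nonneg (by linarith) hlog0
        nlinarith
      linarith) hcon.le (by
        have h2 := HL N b4 l hl h le_rfl
        rw [← hL] at h2
        refine le_trans ?_ h2
        rw [hκ]
        exact Real.rpow_le_rpow_of_exponent_le hN1 (by linarith))
    have h2 : (law d ρ).real {η | l * L - 2 + 1 * (l * L - 2 - (l * L - 8 * U)) < X β h η l} ≤
        (N : ℝ) ^ (C₂ - Q) := by
      refine le_trans (measureReal_mono fun η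
        (hη : l * L - 2 + 1 * (l * L - 2 - (l * L - 8 * U)) < X β h η l) => ?_) (hupl l hl)
      show l * L + 2 * U ≤ X β h η l
      linarith
    have h3 : κ ^ C₄ = (N : ℝ) ^ (-(q₂ * C₄)) := by
      rw [hκ, ← Real.rpow_mul hN0.le]
      congr 1
      ring
    rw [h3] at h1
    have h4 : (N : ℝ) ^ (C₂ - Q) < (N : ℝ) ^ (-(q₂ * C₄)) := by
      refine Real.rpow_lt_rpow_of_exponent_lt (by linarith) ?_
      have := abs_nonneg R
      rw [hQ]
      linarith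
    linarith [h1.trans h2]
  -- the tilt
  obtain ⟨t, htdef⟩ : ∃ t : ℝ, t = (N : ℝ) ^ (-((1 - x) / p)) := ⟨_, rfl⟩
  rw [← htdef] at b1
  have ht0 : 0 < t := by rw [htdef]; exact Real.rpow_pos_of_pos hN0 _
  obtain ⟨w, hw⟩ : ∃ w : ℝ, w = (N : ℝ) ^ a / d := ⟨_, rfl⟩
  obtain ⟨B, hB⟩ : ∃ B : ℝ, B = max C₃ 0 * t ^ p := ⟨_, rfl⟩
  have htp : 0 < t ^ p := Real.rpow_pos_of_pos ht0 _
  have hB0 : 0 ≤ B := by rw [hB]; positivity
  have hnB : N * B ≤ max C₃ 0 * U := by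
    have h1 : (N : ℝ) * t ^ p = U := by
      have h2 : t ^ p = (N : ℝ) ^ (-(1 - x)) := by
        rw [htdef, ← Real.rpow_mul hN0.le]
        congr 1
        field_simp
      rw [h2, hU]
      nth_rewrite 1 [← Real.rpow_one (N : ℝ)]
      rw [← Real.rpow_add hN0]
      congr 1
      ring
    calc N * B = max C₃ 0 * (N * t ^ p) := by rw [hB]; ring
      _ = max C₃ 0 * U := by rw [h1]
      _ ≤ _ := le_rfl
  have htw : N * B + (11 + 2) * U ≤ t * w := by
    have h1 : U * (N : ℝ) ^ ε / d ≤ t * w := by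
      rw [hw, ← mul_div_assoc]
      refine div_le_div_of_nonneg_right ?_ hd0.le
      rw [htdef, hU, ← Real.rpow_add hN0, ← Real.rpow_add hN0]
      exact Real.rpow_le_rpow_of_exponent_le hN1 (by linarith)
    have h2 : U * (d * (max C₃ 0 + (11 + 2))) / d ≤ U * (N : ℝ) ^ ε / d :=
      div_le_div_of_nonneg_right (mul_le_mul_of_nonneg_left b2 hU0.le) hd0.le
    have h3 : U * (d * (max C₃ 0 + (11 + 2))) / d = max C₃ 0 * U + (11 + 2) * U := by
      field_simp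
    rw [h3] at h2
    linarith
  have hEt : ∀ j : Fin d, ∀ s : ℝ, |s| = t → lam ρ β (h + s • ej j) ≤
      lam ρ β h + v j * s + B := by
    intro j s hs
    have h1 := H₃ j s (by rw [hs]; exact b1.le)
    rw [hs] at h1
    have h2 : C₃ * t ^ p ≤ max C₃ 0 * t ^ p :=
      mul_le_mul_of_nonneg_right (le_max_left _ _) htp.le
    rw [hB]
    linarith
  have hsg : ∀ b : Bool, |TubK74.sg b * t| = t := by
    intro b
    rw [abs_mul, TubK74.abs_sg, one_mul, abs_of_pos ht0]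
  -- the bad sets of the far walks
  obtain ⟨Bd, hBd⟩ : ∃ Bd : ℕ × Fin d × Bool → Set (Env d), Bd = fun z =>
    {η | (∀ ξ : Env d, 0 < ∑ y ∈ FE v z.1 z.2.1 (TubK74.sg z.2.2 * t) w, PP β h ξ z.1 y) ∧
      z.1 * L - 11 * U < UF β h (FE v z.1 z.2.1 (TubK74.sg z.2.2 * t) w) z.1 η} :=
    ⟨_, rfl⟩
  have hBdp : ∀ z ∈ (Finset.range (n + 1)) ×ˢ (Finset.univ : Finset (Fin d × Bool)),
      (law d ρ).real (Bd z) ≤ (N : ℝ) ^ (-((q + 2 : ℕ) : ℝ)) := by
    intro z hz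
    have hz1 : z.1 ≤ n := Nat.lt_succ_iff.1 (Finset.mem_range.1 (Finset.mem_product.1 hz).1)
    rw [hBd]
    by_cases hpos : ∀ ξ : Env d, 0 < ∑ y ∈ FE v z.1 z.2.1 (TubK74.sg z.2.2 * t) w,
        PP β h ξ z.1 y
    · have h1 := HS N b6 h v z.1 (hz1.trans hn) z.2.1 (TubK74.sg z.2.2 * t) w B hB0
        (hEt z.2.1 _ (hsg z.2.2)) (by rw [hsg, ← hU]; exact htw) hpos (by
          rw [← hU, ← hL]
          refine lt_of_le_of_lt (hupl z.1 (hz1.trans hn)) ?_
          refine Real.rpow_lt_rpow_of_exponent_lt (by linarith) ?_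
          have h2 := le_abs_self R
          have h3 : 0 ≤ q₂ * C₄ := mul_nonneg (by linarith) (by linarith)
          rw [hQ]
          linarith)
      rw [← hU, ← hL] at h1
      refine le_trans (measureReal_mono fun η hη => ?_) h1
      exact hη.2
    · have h1 : {η : Env d | (∀ ξ : Env d, 0 < ∑ y ∈ FE v z.1 z.2.1
          (TubK74.sg z.2.2 * t) w, PP β h ξ z.1 y) ∧ z.1 * L - 11 * U <
            UF β h (FE v z.1 z.2.1 (TubK74.sg z.2.2 * t) w) z.1 η} = ∅ := by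
        rw [Set.eq_empty_iff_forall_notMem]
        intro η hη
        exact hpos hη.1
      show (law d ρ).real {η : Env d | (∀ ξ : Env d, 0 < ∑ y ∈ FE v z.1 z.2.1
          (TubK74.sg z.2.2 * t) w, PP β h ξ z.1 y) ∧ z.1 * L - 11 * U <
            UF β h (FE v z.1 z.2.1 (TubK74.sg z.2.2 * t) w) z.1 η} ≤ _
      rw [h1, measureReal_empty]
      exact Real.rpow_nonneg hN0.le _
  -- the bad sets of the futures
  obtain ⟨S2, hS2⟩ : ∃ S2 : ℕ × Site d → Set (Env d), S2 = fun z =>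
      {η | ((n - z.1 : ℕ) : ℝ) * L + 2 * U ≤ X β h (sh z.1 z.2 η) (n - z.1)} := ⟨_, rfl⟩
  have hS2p : ∀ z ∈ (Finset.range (n + 1)) ×ˢ boxF d n, (law d ρ).real (S2 z) ≤
      (N : ℝ) ^ (C₂ - Q) := by
    intro z _
    rw [hS2]
    have h1 : MeasurableSet {η : Env d | ((n - z.1 : ℕ) : ℝ) * L + 2 * U ≤ X β h η (n - z.1)} :=
      measurableSet_le measurable_const (measurable_X β h _)
    have h2 : (law d ρ).real {η | ((n - z.1 : ℕ) : ℝ) * L + 2 * U ≤
        X β h (sh z.1 z.2 η) (n - z.1)} = (law d ρ).real {η | ((n - z.1 : ℕ) : ℝ) * L + 2 * U ≤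
        X β h η (n - z.1)} := real_shift80 h1 z.1 z.2
    show (law d ρ).real {η | ((n - z.1 : ℕ) : ℝ) * L + 2 * U ≤
        X β h (sh z.1 z.2 η) (n - z.1)} ≤ _
    rw [h2]
    exact hupl (n - z.1) ((Nat.sub_le _ _).trans hn)
  obtain ⟨G, hG⟩ : ∃ G : Set (Env d), G = {η | (∀ z ∈ (Finset.range (n + 1)) ×ˢ boxF d n,
      η ∉ S2 z) ∧ (¬ X β h η n ≤ n * L - 8 * U) ∧
      ∀ z ∈ (Finset.range (n + 1)) ×ˢ (Finset.univ : Finset (Fin d × Bool)), η ∉ Bd z} :=
    ⟨_, rfl⟩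
  have hnm1 : (n : ℝ) + 1 ≤ 2 * N := by linarith
  have hP2 : (N : ℝ) ^ (-((q : ℝ) + 2)) * (N * N) ≤ (N : ℝ) ^ (-(q : ℝ)) := by
    have h1 : (N : ℝ) * N = (N : ℝ) ^ (2 : ℝ) := by rw [Real.rpow_two, sq]
    rw [h1, ← Real.rpow_add hN0]
    exact Real.rpow_le_rpow_of_exponent_le hN1 (by linarith)
  have hqpos : 0 ≤ (N : ℝ) ^ (-((q : ℝ) + 2)) := Real.rpow_nonneg hN0.le _
  have hGc : (law d ρ).real Gᶜ ≤ 3 / 4 * (N : ℝ) ^ (-(q : ℝ)) := by
    have h1 : Gᶜ ⊆ (⋃ z ∈ (Finset.range (n + 1)) ×ˢ boxF d n, S2 z) ∪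
        ({η | X β h η n ≤ n * L - 8 * U} ∪
        ⋃ z ∈ (Finset.range (n + 1)) ×ˢ (Finset.univ : Finset (Fin d × Bool)), Bd z) := by
      intro η hη
      by_contra hcon
      rw [Set.mem_union, Set.mem_union, not_or, not_or, Set.mem_iUnion₂, Set.mem_iUnion₂] at hcon
      obtain ⟨c1, c2, c3⟩ := hcon
      apply hη
      rw [hG]
      exact ⟨fun z hz hz2 => c1 ⟨z, hz, hz2⟩, c2, fun z hz hz2 => c3 ⟨z, hz, hz2⟩⟩
    have h2 : (law d ρ).real (⋃ z ∈ (Finset.range (n + 1)) ×ˢ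
        (Finset.univ : Finset (Fin d × Bool)), Bd z) ≤ 1 / 4 * (N : ℝ) ^ (-(q : ℝ)) := by
      refine (measureReal_biUnion_finset_le _ _).trans ((Finset.sum_le_sum hBdp).trans ?_)
      rw [Finset.sum_const, Finset.card_product, Finset.card_range, Finset.card_univ,
        Fintype.card_prod, Fintype.card_fin, Fintype.card_bool, nsmul_eq_mul]
      push_cast
      have h4 : ((n : ℝ) + 1) * (d * 2) ≤ 1 / 4 * (N * N) := by
        have h5 : ((n : ℝ) + 1) * (d * 2) ≤ (2 * N) * (d * 2) :=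
          mul_le_mul_of_nonneg_right hnm1 (by positivity)
        have h6 : (4 * (4 * (d : ℝ))) * N ≤ N * N := mul_le_mul_of_nonneg_right (by
          have : (0 : ℝ) ≤ 4 * (3 ^ d * 2) := by positivity
          linarith) hN0.le
        linarith
      calc ((n : ℝ) + 1) * (d * 2) * (N : ℝ) ^ (-((q : ℝ) + 2))
          ≤ 1 / 4 * (N * N) * (N : ℝ) ^ (-((q : ℝ) + 2)) :=
            mul_le_mul_of_nonneg_right h4 hqpos
        _ = 1 / 4 * ((N : ℝ) ^ (-((q : ℝ) + 2)) * (N * N)) := by ring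
        _ ≤ _ := mul_le_mul_of_nonneg_left hP2 (by norm_num)
    have h3 : (law d ρ).real (⋃ z ∈ (Finset.range (n + 1)) ×ˢ boxF d n, S2 z) ≤
        1 / 4 * (N : ℝ) ^ (-(q : ℝ)) := by
      refine (measureReal_biUnion_finset_le _ _).trans ((Finset.sum_le_sum hS2p).trans ?_)
      rw [Finset.sum_const, Finset.card_product, Finset.card_range, card_boxF, nsmul_eq_mul]
      push_cast
      have h4 : (2 * (n : ℝ) + 1) ^ d ≤ 3 ^ d * (N : ℝ) ^ d := by
        rw [← mul_pow]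
        exact pow_le_pow_left₀ (by positivity) (by linarith) d
      have h5 : ((n : ℝ) + 1) * (2 * n + 1) ^ d ≤ (2 * N) * (3 ^ d * (N : ℝ) ^ d) :=
        mul_le_mul hnm1 h4 (by positivity) (by positivity)
      have h6 : (N : ℝ) ^ (C₂ - Q) ≤ (N : ℝ) ^ (-((q : ℝ) + 2 + d)) :=
        Real.rpow_le_rpow_of_exponent_le hN1 (by
          have := abs_nonneg R
          have h3 : 0 ≤ q₂ * C₄ := mul_nonneg (by linarith) (by linarith)
          rw [hQ]
          linarith)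
      have h7 : (N : ℝ) ^ d * (N : ℝ) ^ (-((q : ℝ) + 2 + d)) = (N : ℝ) ^ (-((q : ℝ) + 2)) := by
        rw [← Real.rpow_natCast, ← Real.rpow_add hN0]
        congr 1
        ring
      have h8 : (4 * (3 ^ d * 2 : ℝ)) * N ≤ N * N := mul_le_mul_of_nonneg_right (by
          have : (0 : ℝ) ≤ 4 * (4 * (d : ℝ)) := by positivity
          linarith) hN0.le
      calc ((n : ℝ) + 1) * (2 * n + 1) ^ d * (N : ℝ) ^ (C₂ - Q)
          ≤ (2 * N) * (3 ^ d * (N : ℝ) ^ d) * (N : ℝ) ^ (-((q : ℝ) + 2 + d)) :=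
            mul_le_mul h5 h6 (Real.rpow_nonneg hN0.le _) (by positivity)
        _ = (3 ^ d * 2 * N) * ((N : ℝ) ^ d * (N : ℝ) ^ (-((q : ℝ) + 2 + d))) := by ring
        _ = (3 ^ d * 2 * N) * (N : ℝ) ^ (-((q : ℝ) + 2)) := by rw [h7]
        _ ≤ 1 / 4 * (N * N) * (N : ℝ) ^ (-((q : ℝ) + 2)) :=
            mul_le_mul_of_nonneg_right (by linarith) hqpos
        _ = 1 / 4 * ((N : ℝ) ^ (-((q : ℝ) + 2)) * (N * N)) := by ring
        _ ≤ _ := mul_le_mul_of_nonneg_left hP2 (by norm_num)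
    have h4 : (law d ρ).real {η | X β h η n ≤ n * L - 8 * U} ≤ 1 / 4 * (N : ℝ) ^ (-(q : ℝ)) := by
      refine (hlo n hn).trans ?_
      have h5 : (N : ℝ) ^ (-q₂) ≤ (N : ℝ) ^ (-((q : ℝ) + 1)) :=
        Real.rpow_le_rpow_of_exponent_le hN1 (by linarith)
      have h6 : (N : ℝ) ^ (-((q : ℝ) + 1)) = (N : ℝ) ^ (-(q : ℝ)) / N := by
        rw [eq_div_iff hN0.ne']
        nth_rewrite 2 [← Real.rpow_one (N : ℝ)]
        rw [← Real.rpow_add hN0]
        congr 1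
        ring
      rw [h6] at h5
      refine h5.trans ?_
      rw [div_le_iff₀ hN0]
      have h7 : 0 ≤ (N : ℝ) ^ (-(q : ℝ)) := Real.rpow_nonneg hN0.le _
      nlinarith
    refine (measureReal_mono h1).trans ((measureReal_union_le _ _).trans ?_)
    have h5 := measureReal_union_le (μ := law d ρ) {η | X β h η n ≤ n * L - 8 * U}
      (⋃ z ∈ (Finset.range (n + 1)) ×ˢ (Finset.univ : Finset (Fin d × Bool)), Bd z)
    linarith
  have hGb : ∀ η ∈ G, 1 - PolT β h η (tube d n v ((N : ℝ) ^ a)) ≤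
      1 / 4 * (N : ℝ) ^ (-(q : ℝ)) := by
    intro η hη
    rw [hG] at hη
    obtain ⟨g1, g2, g3⟩ := hη
    rw [not_le] at g2
    have hmid : ∀ i ≤ n, ∀ y ∈ boxF d n,
        X β h (sh i y η) (n - i) ≤ ((n - i : ℕ) : ℝ) * L + 2 * U := by
      intro i hi y hy
      by_contra hc
      rw [not_le] at hc
      refine g1 (i, y) (Finset.mem_product.2 ⟨Finset.mem_range.2 (Nat.lt_succ_iff.2 hi), hy⟩) ?_
      rw [hS2]
      exact hc.le
    refine (one_sub_le hd β h η n v (r := (N : ℝ) ^ a) ht0).trans ?_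
    rw [← hw]
    have h1 : ∀ i ∈ Finset.range (n + 1), ∑ j : Fin d,
        (Far β h η n i j v t w + Far β h η n i j v (-t) w) ≤ 2 * d * Real.exp (-U) := by
      intro i hi
      have hi' : i ≤ n := Nat.lt_succ_iff.1 (Finset.mem_range.1 hi)
      have h2 : ∀ j ∈ (Finset.univ : Finset (Fin d)),
          Far β h η n i j v t w + Far β h η n i j v (-t) w ≤ 2 * Real.exp (-U) := by
        intro j _
        have h3 : ∀ b : Bool, Far β h η n i j v (TubK74.sg b * t) w ≤ Real.exp (-U) := by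
          intro b
          have h4 := far_UF' (S := 11) hd j g2.le hmid hi' (w := w) (v := v)
            (t := TubK74.sg b * t) (fun hpos => by
              by_contra hc
              rw [not_le] at hc
              refine g3 (i, j, b) (Finset.mem_product.2 ⟨hi, Finset.mem_univ _⟩) ?_
              rw [hBd]
              exact ⟨hpos, hc⟩)
          have h5 : (10 - 11) * U = -U := by ring
          rwa [h5] at h4
        have a1 := h3 true
        have a2 := h3 false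
        have c1 : TubK74.sg true * t = t := by simp [TubK74.sg]
        have c2 : TubK74.sg false * t = -t := by simp [TubK74.sg]
        rw [c1] at a1
        rw [c2] at a2
        linarith
      refine (Finset.sum_le_sum h2).trans ?_
      rw [Finset.sum_const, Finset.card_univ, Fintype.card_fin, nsmul_eq_mul]
      linarith
    refine (Finset.sum_le_sum h1).trans ?_
    rw [Finset.sum_const, Finset.card_range, nsmul_eq_mul]
    push_cast
    have h2 : Real.exp (-U) ≤ (N : ℝ) ^ (-((q : ℝ) + 2)) := by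
      rw [Real.rpow_def_of_pos hN0]
      refine Real.exp_le_exp.2 ?_
      linarith
    have h4 : ((n : ℝ) + 1) * (2 * d) ≤ 1 / 4 * (N * N) := by
      have h5 : ((n : ℝ) + 1) * (2 * d) ≤ (2 * N) * (2 * d) :=
        mul_le_mul_of_nonneg_right hnm1 (by positivity)
      have h6 : (4 * (4 * (d : ℝ))) * N ≤ N * N := mul_le_mul_of_nonneg_right (by
        have : (0 : ℝ) ≤ 4 * (3 ^ d * 2) := by positivity
        linarith) hN0.le
      linarith
    calc ((n : ℝ) + 1) * (2 * d * Real.exp (-U)) = ((n : ℝ) + 1) * (2 * d) * Real.exp (-U) := by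
          ring
      _ ≤ 1 / 4 * (N * N) * (N : ℝ) ^ (-((q : ℝ) + 2)) :=
          mul_le_mul h4 h2 (Real.exp_pos _).le (by positivity)
      _ = 1 / 4 * ((N : ℝ) ^ (-((q : ℝ) + 2)) * (N * N)) := by ring
      _ ≤ _ := mul_le_mul_of_nonneg_left hP2 (by norm_num)
  have hmain := TubW_split (μ := law d ρ)
    (f := fun η => 1 - PolT β h η (tube d n v ((N : ℝ) ^ a))) (fun η => by
      have := PolT_nonneg β h η (tube d n v ((N : ℝ) ^ a))
      linarith)
    (G := G) (b := 1 / 4 * (N : ℝ) ^ (-(q : ℝ)))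
    (mul_nonneg (by norm_num) (Real.rpow_nonneg hN0.le _)) hGb (fun η => by
      have := PolT_le_one β h η (tube d n v ((N : ℝ) ^ a))
      linarith)
  linarith

end Pool.Agent.W_7d29a1_PK.O60
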