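import Pool.Agent.W_7d29a1_PK.Exp74

/-!
Theorem PK: the upper quantile of the free energies up to the length `N`, and the core estimate on
one ray from the leaves `StpPK`, `UplPK`, `TailPK` (helper74).
-/

set_option autoImplicit false

namespace Pool.Agent.W_7d29a1_PK

open MeasureTheory ProbabilityTheory Filter Topology Pool.Agent.W_MP_7d29a1_pr
  Pool.Agent.W_7d29a1_h46 Pool.Agent.W_7d29a1_h46u Pool.Agent.W_7d29a1_D2
  Pool.Agent.W_7d29a1_D2.B35 Pool.Agent.W_7d29a1_V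

variable {d : ℕ} {ρ : Measure ℝ}

/-- The set of the upper bounds of level `N ^ (-q)`. -/
def LamS74 {d : ℕ} (ρ : Measure ℝ) (β : ℝ) (h : Vec d) (q : ℝ) (N : ℕ) : Set ℝ :=
  {x | 0 ≤ x ∧ ∀ l : ℕ, l ≤ N →
    (law d ρ).real {η | l * lam ρ β h + x < X β h η l} ≤ (N : ℝ) ^ (-q)}

/-- The upper quantile of level `N ^ (-q)` of the free energies up to the length `N`. -/
noncomputable def Lam74 {d : ℕ} (ρ : Measure ℝ) (β : ℝ) (h : Vec d) (q : ℝ) (N : ℕ) : ℝ :=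
  sInf (LamS74 ρ β h q N)

lemma Lam_nonneg74 (β : ℝ) (h : Vec d) (q : ℝ) (N : ℕ) : 0 ≤ Lam74 ρ β h q N :=
  Real.sInf_nonneg fun _ hx => hx.1

lemma LamS_bdd74 (β : ℝ) (h : Vec d) (q : ℝ) (N : ℕ) : BddBelow (LamS74 ρ β h q N) :=
  ⟨0, fun _ hx => hx.1⟩

/-- The set is not empty. -/
lemma LamS_mem74 [IsProbabilityMeasure ρ] {β : ℝ} (hU : UplPK d ρ β) (hT : TailPK d ρ β)
    (h : Vec d) (q : ℝ) : ∃ C : ℝ, 1 ≤ C ∧ ∃ N₀ : ℕ, 1 ≤ N₀ ∧ ∀ N : ℕ, N₀ ≤ N →
      (N : ℝ) ^ ((3 : ℝ) / 4) + C * Real.log N ∈ LamS74 ρ β h q N := by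
  obtain ⟨C, hC, N₁, hU⟩ := hU ‖h‖
  obtain ⟨N₂, hT⟩ := hT h (q + C) (1 / 4) (by norm_num)
  refine ⟨C, hC, max (max N₁ N₂) 1, le_max_right _ _, fun N hN => ?_⟩
  have hN1 : N₁ ≤ N := (le_max_left _ _).trans ((le_max_left _ _).trans hN)
  have hN2 : N₂ ≤ N := (le_max_right _ _).trans ((le_max_left _ _).trans hN)
  have hN3 : 1 ≤ N := (le_max_right _ _).trans hN
  have hN0 : (0 : ℝ) < N := by exact_mod_cast hN3
  have hlog : 0 ≤ Real.log N := Real.log_natCast_nonneg N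
  refine ⟨by positivity, fun l hl => ?_⟩
  have h1 := hU N hN1 h le_rfl l hl ((N : ℝ) ^ ((3 : ℝ) / 4))
  have h2 := hT N hN2
  have h3 : (law d ρ).real {η | N * lam ρ β h + (N : ℝ) ^ ((3 : ℝ) / 4) ≤ X β h η N} ≤
      (N : ℝ) ^ (-(q + C)) := by
    have h4 : (3 : ℝ) / 4 = 1 / 2 + 1 / 4 := by norm_num
    rw [h4]
    exact h2
  have h4 : (N : ℝ) ^ C * (N : ℝ) ^ (-(q + C)) = (N : ℝ) ^ (-q) := by
    rw [← Real.rpow_add hN0]
    congr 1
    ring
  rw [← h4]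
  refine le_trans (le_trans (measureReal_mono fun η hη => ?_) h1)
    (mul_le_mul_of_nonneg_left h3 (by positivity))
  have h5 : (l : ℝ) * lam ρ β h + ((N : ℝ) ^ ((3 : ℝ) / 4) + C * Real.log N) < X β h η l := hη
  show (l : ℝ) * lam ρ β h + (N : ℝ) ^ ((3 : ℝ) / 4) + C * Real.log N ≤ X β h η l
  linarith

/-- Above the quantile. -/
lemma Lam_tail74 [IsProbabilityMeasure ρ] {β : ℝ} {h : Vec d} {q : ℝ} {N : ℕ}
    (hne : (LamS74 ρ β h q N).Nonempty) {x : ℝ} (hx : Lam74 ρ β h q N < x) {l : ℕ} (hl : l ≤ N) :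
    (law d ρ).real {η | l * lam ρ β h + x < X β h η l} ≤ (N : ℝ) ^ (-q) := by
  obtain ⟨y, hy, hyx⟩ := exists_lt_of_csInf_lt hne hx
  refine le_trans (measureReal_mono fun η hη => ?_) (hy.2 l hl)
  have h1 : (l : ℝ) * lam ρ β h + x < X β h η l := hη
  show (l : ℝ) * lam ρ β h + y < X β h η l
  linarith

/-- Below the quantile. -/
lemma Lam_luck74 {β : ℝ} {h : Vec d} {q : ℝ} {N : ℕ} {y : ℝ} (hy0 : 0 ≤ y)
    (hy : y < Lam74 ρ β h q N) : ∃ l : ℕ, l ≤ N ∧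
      (N : ℝ) ^ (-q) < (law d ρ).real {η | l * lam ρ β h + y < X β h η l} := by
  by_contra hcon
  push Not at hcon
  have h1 : Lam74 ρ β h q N ≤ y := csInf_le (LamS_bdd74 β h q N) ⟨hy0, hcon⟩
  linarith

/-- The quantile is monotone. -/
lemma Lam_mono74 {β : ℝ} {h : Vec d} {q : ℝ} (hq : 0 ≤ q) {N : ℕ} (hN : 1 ≤ N)
    (hne : (LamS74 ρ β h q (N + 1)).Nonempty) : Lam74 ρ β h q N ≤ Lam74 ρ β h q (N + 1) := by
  refine csInf_le_csInf (LamS_bdd74 β h q N) hne fun x hx => ⟨hx.1, fun l hl => ?_⟩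
  have hN0 : (0 : ℝ) < N := by exact_mod_cast hN
  refine (hx.2 l (by omega)).trans ?_
  refine Real.rpow_le_rpow_of_nonpos hN0 ?_ (by linarith)
  push_cast
  linarith

/-- A lower bound of the quantile. -/
lemma Lam_low74 [IsProbabilityMeasure ρ] {β : ℝ} {h : Vec d} {q q' : ℝ} (hq : q' < q) {N : ℕ}
    (hN : 2 ≤ N) (hne : (LamS74 ρ β h q N).Nonempty) {y : ℝ}
    (hy : (N : ℝ) ^ (-q') ≤ (law d ρ).real {η | N * lam ρ β h + y ≤ X β h η N}) :
    y ≤ Lam74 ρ β h q N := by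
  refine le_csInf hne fun x hx => ?_
  by_contra hcon
  have hxy : x < y := not_le.1 hcon
  have hN1 : (1 : ℝ) < N := by
    have : (2 : ℝ) ≤ N := by exact_mod_cast hN
    linarith
  have h1 : (N : ℝ) ^ (-q) < (N : ℝ) ^ (-q') := Real.rpow_lt_rpow_of_exponent_lt hN1 (by linarith)
  have h2 : (law d ρ).real {η | N * lam ρ β h + y ≤ X β h η N} ≤
      (law d ρ).real {η | N * lam ρ β h + x < X β h η N} := by
    refine measureReal_mono fun η hη => ?_
    have h3 : (N : ℝ) * lam ρ β h + y ≤ X β h η N := hη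
    show (N : ℝ) * lam ρ β h + x < X β h η N
    linarith
  have h3 := hx.2 N le_rfl
  linarith

/-- The size in the core estimate. -/
noncomputable def Lp74 {d : ℕ} (ρ : Measure ℝ) (β : ℝ) (h : Vec d) (q B : ℝ) (N : ℕ) : ℝ :=
  max (5 / 4 * Lam74 ρ β h q N) (B * Real.log N) + Real.log N

lemma slb_scale74 {d n : ℕ} (w : Vec d) (s W : ℝ) {t : ℝ} (ht : 0 < t) :
    slb d n (t • w) (s * t) W = slb d n w s (W / t) := by
  ext q
  have h1 : ∀ i : ℕ, |inner ℝ (t • w) (emb (pos q i)) - (i : ℝ) * (s * t)| ≤ W ↔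
      |inner ℝ w (emb (pos q i)) - (i : ℝ) * s| ≤ W / t := by
    intro i
    rw [real_inner_smul_left, le_div_iff₀ ht, show t * inner ℝ w (emb (pos q i)) - (i : ℝ) * (s * t) =
      (inner ℝ w (emb (pos q i)) - (i : ℝ) * s) * t by ring, abs_mul, abs_of_pos ht]
  exact forall_congr' fun i => imp_congr_right fun _ => h1 i

/-- **The core estimate** from the leaves. -/
theorem core74 [IsProbabilityMeasure ρ] {β : ℝ} (hSt : StpPK d ρ β) (hU : UplPK d ρ β)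
    (hT : TailPK d ρ β) (h w : Vec d) (s : ℝ) : ∃ Q : ℝ, 0 < Q ∧ ∃ B : ℝ, 1 ≤ B ∧
      ∀ q : ℝ, Q ≤ q → CorE74 ρ β h w s (Lp74 ρ β h q B) := by
  obtain ⟨qS, c, C, hqS, hc, hC, hSt⟩ := hSt (‖h‖ + |s|)
  obtain ⟨CU, hCU, NU, hUp⟩ := hU ‖h‖
  refine ⟨qS, hqS, 10 * CU, by linarith, fun q hq => ?_⟩
  obtain ⟨q₀, hq₀, N₀, hSt⟩ := hSt (q + CU) (10 * CU) (by linarith) (by linarith)
  obtain ⟨_, _, NT, hNT, hne⟩ := LamS_mem74 hU hT h q
  have hw1 : 0 < ‖w‖ + 1 := by positivity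
  refine ⟨C, c, q₀, 1 / (‖w‖ + 1), by linarith, hc, hq₀, by positivity,
    max (max N₀ NU) (max NT 2), fun N hN t ht htδ hg => ?_⟩
  have hN₀ : N₀ ≤ N := (le_max_left _ _).trans ((le_max_left _ _).trans hN)
  have hNU : NU ≤ N := (le_max_right _ _).trans ((le_max_left _ _).trans hN)
  have hNT' : NT ≤ N := (le_max_left _ _).trans ((le_max_right _ _).trans hN)
  have hN2 : 2 ≤ N := (le_max_right _ _).trans ((le_max_right _ _).trans hN)
  have hN2' : (2 : ℝ) ≤ N := by exact_mod_cast hN2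
  have hN0 : (0 : ℝ) < N := by linarith
  have hlog : 0 < Real.log N := Real.log_pos (by linarith)
  have hne' : (LamS74 ρ β h q N).Nonempty := ⟨_, hne N hNT'⟩
  have hL0 := Lam_nonneg74 (ρ := ρ) β h q N
  set Λ := Lam74 ρ β h q N with hΛ
  set u := max (5 / 4 * Λ) (10 * CU * Real.log N) with hu
  have hBlog : 0 < 10 * CU * Real.log N := by positivity
  have hu0 : 0 < u := hBlog.trans_le (le_max_right _ _)
  have huL : Λ < u := by
    rcases hL0.eq_or_lt with h0 | h0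
    · rw [← h0]
      exact hu0
    · exact lt_of_lt_of_le (by linarith) (le_max_left _ _)
  have htle : t * (‖w‖ + 1) ≤ 1 := by rwa [le_div_iff₀ hw1] at htδ
  have htw : ‖t • w‖ ≤ 1 := by
    rw [norm_smul, Real.norm_eq_abs, abs_of_pos ht]
    nlinarith
  have ht1 : t ≤ 1 := by nlinarith [norm_nonneg w]
  have hσ : |s * t| ≤ ‖h‖ + |s| := by
    rw [abs_mul, abs_of_pos ht]
    nlinarith [norm_nonneg h, abs_nonneg s]
  have h1 : (law d ρ).real {η | N * lam ρ β h + u < X β h η N} ≤ (N : ℝ) ^ (-qS) := by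
    refine (Lam_tail74 hne' huL le_rfl).trans ?_
    exact Real.rpow_le_rpow_of_exponent_le (by linarith) (by linarith)
  have h2 : u ≤ 10 * CU * Real.log N ∨
      (N : ℝ) ^ (-(q + CU)) ≤ (law d ρ).real {η | N * lam ρ β h + u / 2 ≤ X β h η N} := by
    rcases le_or_gt (5 / 4 * Λ) (10 * CU * Real.log N) with h3 | h3
    · left
      exact (max_eq_right h3).le
    · right
      have hu' : u = 5 / 4 * Λ := max_eq_left h3.le
      have hΛ0 : 0 < Λ := by linarith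
      obtain ⟨l, hl, h4⟩ := Lam_luck74 (ρ := ρ) (β := β) (h := h) (q := q) (N := N)
        (y := 3 / 4 * Λ) (by linarith) (by linarith)
      have h5 := hUp N hNU h le_rfl l hl (3 / 4 * Λ - CU * Real.log N)
      have h6 : (law d ρ).real {η | l * lam ρ β h + 3 / 4 * Λ < X β h η l} ≤
          (law d ρ).real {η | l * lam ρ β h + (3 / 4 * Λ - CU * Real.log N) + CU * Real.log N ≤
            X β h η l} := by
        refine measureReal_mono fun η hη => ?_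
        have h7 : (l : ℝ) * lam ρ β h + 3 / 4 * Λ < X β h η l := hη
        show (l : ℝ) * lam ρ β h + (3 / 4 * Λ - CU * Real.log N) + CU * Real.log N ≤ X β h η l
        linarith
      have h7 : (law d ρ).real {η | N * lam ρ β h + (3 / 4 * Λ - CU * Real.log N) ≤ X β h η N} ≤
          (law d ρ).real {η | N * lam ρ β h + u / 2 ≤ X β h η N} := by
        refine measureReal_mono fun η hη => ?_
        have h8 : (N : ℝ) * lam ρ β h + (3 / 4 * Λ - CU * Real.log N) ≤ X β h η N := hη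
        show (N : ℝ) * lam ρ β h + u / 2 ≤ X β h η N
        rw [hu']
        linarith
      have h8 : (N : ℝ) ^ (-q) ≤ (N : ℝ) ^ CU *
          (law d ρ).real {η | N * lam ρ β h + u / 2 ≤ X β h η N} :=
        h4.le.trans (h6.trans (h5.trans (mul_le_mul_of_nonneg_left h7 (by positivity))))
      have h9 : (N : ℝ) ^ (-q) = (N : ℝ) ^ CU * (N : ℝ) ^ (-(q + CU)) := by
        rw [← Real.rpow_add hN0]
        congr 1
        ring
      rw [h9] at h8
      exact le_of_mul_le_mul_left h8 (by positivity)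
  have h3 : C * (u + Real.log N) ≤
      N * (lam ρ β (h + t • w) - lam ρ β h - s * t) := hg
  obtain ⟨n, hn, hn2, hex⟩ := hSt N hN₀ h (t • w) (s * t) (by linarith [abs_nonneg s]) htw hσ u hu0.le
    h1 h2 h3
  refine ⟨n, hn, hn2, hex.trans (le_of_eq ?_)⟩
  show ∫ η, (1 - PolT β h η (slb d n (t • w) (s * t) (c * (u + Real.log N)))) ∂(law d ρ) =
    ∫ η, (1 - PolT β h η (slb d n w s (c * (u + Real.log N) / t))) ∂(law d ρ)
  rw [slb_scale74 w s _ ht]

/-- The size is eventually at least one. -/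
lemma Lp_one74 {β : ℝ} {h : Vec d} {q B : ℝ} : ∀ᶠ N : ℕ in atTop, 1 ≤ Lp74 ρ β h q B N := by
  have h1 : Tendsto (fun N : ℕ => Real.log (N : ℝ)) atTop atTop :=
    Real.tendsto_log_atTop.comp tendsto_natCast_atTop_atTop
  filter_upwards [h1.eventually_ge_atTop 1] with N hN
  have h2 : 0 ≤ max (5 / 4 * Lam74 ρ β h q N) (B * Real.log N) :=
    le_max_of_le_left (by linarith [Lam_nonneg74 (ρ := ρ) β h q N])
  unfold Lp74
  linarith

/-- The quantile is below the size. -/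
lemma Lam_le_Lp74 {β : ℝ} {h : Vec d} {q B : ℝ} (N : ℕ) : Lam74 ρ β h q N ≤ Lp74 ρ β h q B N := by
  have h1 := Lam_nonneg74 (ρ := ρ) β h q N
  have h2 : 5 / 4 * Lam74 ρ β h q N ≤ max (5 / 4 * Lam74 ρ β h q N) (B * Real.log N) :=
    le_max_left _ _
  have h3 := Real.log_natCast_nonneg N
  unfold Lp74
  linarith

/-- The size is monotone. -/
lemma Lp_mono74 [IsProbabilityMeasure ρ] {β : ℝ} (hU : UplPK d ρ β) (hT : TailPK d ρ β)
    {h : Vec d} {q B : ℝ} (hq : 0 ≤ q) (hB : 0 ≤ B) : ∃ M₀ : ℕ, ∀ N : ℕ, M₀ ≤ N →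
      Lp74 ρ β h q B N ≤ Lp74 ρ β h q B (N + 1) := by
  obtain ⟨_, _, NT, hNT, hne⟩ := LamS_mem74 hU hT h q
  refine ⟨NT, fun N hN => ?_⟩
  have h1 : Lam74 ρ β h q N ≤ Lam74 ρ β h q (N + 1) :=
    Lam_mono74 hq (hNT.trans hN) ⟨_, hne (N + 1) (by omega)⟩
  have hN0 : (0 : ℝ) < N := by exact_mod_cast hNT.trans hN
  have h2 : Real.log (N : ℝ) ≤ Real.log ((N + 1 : ℕ) : ℝ) := by
    refine Real.log_le_log hN0 ?_
    push_cast
    linarith
  have h3 : max (5 / 4 * Lam74 ρ β h q N) (B * Real.log N) ≤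
      max (5 / 4 * Lam74 ρ β h q (N + 1)) (B * Real.log ((N + 1 : ℕ) : ℝ)) :=
    max_le_max (by linarith) (mul_le_mul_of_nonneg_left h2 hB)
  unfold Lp74
  linarith

/-- The size is small against the length. -/
lemma Lp_small74 [IsProbabilityMeasure ρ] {β : ℝ} (hU : UplPK d ρ β) (hT : TailPK d ρ β)
    {h : Vec d} {q B : ℝ} (hB : 0 ≤ B) :
    Tendsto (fun N : ℕ => Lp74 ρ β h q B N / N) atTop (𝓝 0) := by
  obtain ⟨C, hC, NT, hNT, hne⟩ := LamS_mem74 hU hT h q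
  have hc : Tendsto (fun N : ℕ => (N : ℝ)) atTop atTop := tendsto_natCast_atTop_atTop
  have h1 : Tendsto (fun N : ℕ => (N : ℝ) ^ (-(1 / 4 : ℝ))) atTop (𝓝 0) :=
    (tendsto_rpow_neg_atTop (by norm_num)).comp hc
  have h2 : Tendsto (fun N : ℕ => Real.log (N : ℝ) / N) atTop (𝓝 0) := by
    have h3 := (Real.isLittleO_log_id_atTop.tendsto_div_nhds_zero).comp hc
    exact h3
  have h3 : Tendsto (fun N : ℕ => 5 / 4 * (N : ℝ) ^ (-(1 / 4 : ℝ)) +
      (5 / 4 * C + B + 1) * (Real.log (N : ℝ) / N)) atTop (𝓝 0) := by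
    simpa using (h1.const_mul (5 / 4)).add (h2.const_mul (5 / 4 * C + B + 1))
  refine squeeze_zero' (Lp_one74.mono fun N hN => div_nonneg (by linarith) (Nat.cast_nonneg N))
    ?_ h3
  filter_upwards [eventually_ge_atTop NT] with N hN
  have hN0 : (0 : ℝ) < N := by exact_mod_cast hNT.trans hN
  have hlog := Real.log_natCast_nonneg N
  have h4 : Lam74 ρ β h q N ≤ (N : ℝ) ^ ((3 : ℝ) / 4) + C * Real.log N :=
    csInf_le (LamS_bdd74 β h q N) (hne N hN)
  have h5 : Lp74 ρ β h q B N ≤ 5 / 4 * (N : ℝ) ^ ((3 : ℝ) / 4) +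
      (5 / 4 * C + B + 1) * Real.log N := by
    unfold Lp74
    have h6 : max (5 / 4 * Lam74 ρ β h q N) (B * Real.log N) ≤
        5 / 4 * (N : ℝ) ^ ((3 : ℝ) / 4) + (5 / 4 * C + B) * Real.log N := by
      refine max_le ?_ ?_
      · have : 0 ≤ B * Real.log N := by positivity
        nlinarith
      · have h7 : 0 ≤ (N : ℝ) ^ ((3 : ℝ) / 4) := by positivity
        have h8 : 0 ≤ 5 / 4 * C * Real.log N := by positivity
        nlinarith
    linarith
  rw [div_le_iff₀ hN0]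
  refine h5.trans (le_of_eq ?_)
  have h6 : (N : ℝ) ^ (-(1 / 4 : ℝ)) * N = (N : ℝ) ^ ((3 : ℝ) / 4) := by
    nth_rewrite 2 [← Real.rpow_one (N : ℝ)]
    rw [← Real.rpow_add hN0]
    norm_num
  rw [← h6]
  field_simp

end Pool.Agent.W_7d29a1_PK
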