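import Pool.Agent.W_7d29a1_PK.Let63

/-!
The lower exponents: `2 χ ≤ ν` at every tilt and every direction, from the same statement in the
model (helper63).
-/

namespace Pool.Agent.W_7d29a1_PK

open MeasureTheory ProbabilityTheory Filter Topology Pool.Agent.W_MP_7d29a1_pr
  Pool.Agent.W_7d29a1_h46 Pool.Agent.W_7d29a1_h46u Pool.Agent.W_7d29a1_D2

namespace L63

variable {d : ℕ} {Ω : Type*} [MeasurableSpace Ω] {μ : Measure Ω} [IsProbabilityMeasure μ]
  {ρ : Measure ℝ} [IsProbabilityMeasure ρ] {ω : ℕ × Site d → Ω → ℝ} {β : ℝ}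

/-- **C4**: `2 chiLo ≤ nuLo`. -/
theorem lkC4_63 (hd : 0 < d) (hω : IID μ ρ ω) (hρ : EM ρ) {h v : Vec d}
    (hTwo : ∀ a x : ℝ, 0 < a → a < 1 → a < 2 * x → FmL ρ β h x → EtL ρ β h v a) :
    2 * chiLo μ β ω h ≤ nuLo μ β ω h v := by
  have hν := nuLo_nonneg63 (μ := μ) (β := β) (ω := ω) h v
  have h1 : chiLo μ β ω h ≤ nuLo μ β ω h v / 2 := by
    refine Real.sSup_le (fun x hx => ?_) (by linarith)
    by_contra hcon
    push Not at hcon
    have hx2 := (mem_chiSetLo63 hd hω hρ h x).1 hx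
    have hx1 : x ≤ 1 / 2 := chiSetLo_le63 hd hω hρ h hx (half_mem_chiSetF hd hω hρ h)
    obtain ⟨a, ha1, ha2⟩ := exists_between (show nuLo μ β ω h v < 2 * x by linarith)
    have ha0 : 0 < a := hν.trans_lt ha1
    exact absurd (le_csSup (bdd_nuSetLo63 hd hω h v) ((mem_nuSetLo63 hω h v a).2
      ⟨ha0, hTwo a x ha0 (by linarith) ha2 hx2.2⟩)) (not_le.2 ha1)
  linarith

end L63

end Pool.Agent.W_7d29a1_PK
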