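import Pool.Agent.W_7d29a1_KZ.Nvs20
import Pool.Agent.W_7d29a1_NR.NrS45
import Pool.Agent.W_7d29a1_h46u.RateU

/-!
The upper tail at every tilt near a tilt (block (0) of theorem PK, helper33).
-/

set_option autoImplicit false

namespace Pool.Agent.W_7d29a1_PK

open MeasureTheory ProbabilityTheory Filter Topology Pool.Agent.W_MP_7d29a1_pr
  Pool.Agent.W_7d29a1_h46 Pool.Agent.W_7d29a1_h46u Pool.Agent.W_7d29a1_D2.B35
  Pool.Agent.W_7d29a1_Q29 Pool.Agent.W_7d29a1_R34 Pool.Agent.W_7d29a1_SP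

/-- The free energies near the tilt `h` reach their asymptotic value with at least a polynomial
probability. -/
def LoT (d : ℕ) (ρ : Measure ℝ) (β : ℝ) : Prop := ∀ h : Vec d, ∃ δ C : ℝ, 0 < δ ∧ 1 ≤ C ∧
  ∀ k : Vec d, ‖k - h‖ < δ → ∀ N m : ℕ, 2 ≤ N → m ≤ N →
    (N : ℝ) ^ (-C) ≤ (law d ρ).real {η | m * lam ρ β k - 1 ≤ X β k η m}

namespace P33

variable {d : ℕ}

/-- A chain of maxima. -/
lemma chain33 (hd : 0 < d) (β : ℝ) (k : Vec d) (η : Env d) (m : ℕ) (b : ℝ) (J : ℕ)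
    (h : ∀ j < J, ∀ x ∈ boxF d (j * m), X β k (sh (j * m) x η) m ≤ b) :
    X β k η (J * m) ≤ J * b := by
  induction J with
  | zero =>
    rw [Nat.zero_mul]
    unfold X
    rw [Z_zero, Real.log_one]
    simp
  | succ J ih =>
    have ih' := ih fun j hj => h j (hj.trans (Nat.lt_succ_self J))
    have e : (J + 1) * m = J * m + m := by ring
    rw [e]
    have h1 : Z β k η (J * m + m) ≤ Z β k η (J * m) * Real.exp b := by
      rw [Z_add, Z_eq, Finset.sum_mul]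
      refine Finset.sum_le_sum fun s _ => ?_
      refine mul_le_mul_of_nonneg_left ?_ (wgt_pos _ _ _ _).le
      rw [TubV_exp hd]
      exact Real.exp_le_exp.2 (h J (Nat.lt_succ_self J) _ (pos_mem_box s _))
    rw [TubV_exp hd β k η (J * m), ← Real.exp_add] at h1
    have h2 : X β k η (J * m + m) ≤ X β k η (J * m) + b := by
      have h3 := Real.log_le_log (Z_pos hd β k η (J * m + m)) h1
      rwa [Real.log_exp] at h3
    push_cast
    linarith

end P33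

open P33

/-- **Block (0)**: `LoT`, every law. -/
theorem loT33 {d : ℕ} (hd : 0 < d) {ρ : Measure ℝ} [IsProbabilityMeasure ρ] (hρ : EM ρ)
    (β : ℝ) : LoT d ρ β := by
  intro h
  obtain ⟨C₁, hC₁0, hV⟩ := Pool.Agent.W_7d29a1_KZ.N20.va_lin (d := d) hd hρ β
  obtain ⟨δ, hδ, C₂, hC₂0, hE⟩ := rateU (β := β) (h := h) hd hρ (by norm_num : (0 : ℝ) ≤ 1 / 2)
    (Fl_half hd hρ β h) (ε := 1 / 6) (by norm_num) (by norm_num)
  obtain ⟨M, hM⟩ := exists_nat_ge (C₂ + 2 * Real.sqrt C₁ + 1)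
  have hs0 := Real.sqrt_nonneg C₁
  have hM1 : (1 : ℝ) ≤ M := by linarith
  have hM0 : 0 < M := by
    have : (0 : ℝ) < M := by linarith
    exact_mod_cast this
  -- the constant of the union bound
  obtain ⟨D, hD⟩ : ∃ D : ℝ, D = (M : ℝ) ^ 3 * (3 * (M : ℝ) ^ 3) ^ d := ⟨_, rfl⟩
  have hD1 : 1 ≤ D := by
    rw [hD]
    have h1 : (1 : ℝ) ≤ (M : ℝ) ^ 3 := one_le_pow₀ hM1
    exact one_le_mul_of_one_le_of_one_le h1 (one_le_pow₀ (by linarith))
  obtain ⟨p, hp⟩ : ∃ p : ℕ, 4 * D ≤ (2 : ℝ) ^ p := by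
    obtain ⟨p, hp⟩ := pow_unbounded_of_one_lt (4 * D) (one_lt_two : (1 : ℝ) < 2)
    exact ⟨p, hp.le⟩
  refine ⟨δ, (2 + 3 * d + p + 1 : ℕ), hδ, by push_cast; linarith [(Nat.cast_nonneg d : (0:ℝ) ≤ d),
    (Nat.cast_nonneg p : (0:ℝ) ≤ p)], fun k hk N m hN hm => ?_⟩
  have hN1 : (1 : ℝ) ≤ N := by exact_mod_cast (by omega : 1 ≤ N)
  have hN0 : (0 : ℝ) < N := by linarith
  have hN2 : (2 : ℝ) ≤ N := by exact_mod_cast hN
  rw [Real.rpow_neg hN0.le, Real.rpow_natCast]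
  rcases Nat.eq_zero_or_pos m with rfl | hm0
  · have h1 : {η : Env d | ((0 : ℕ) : ℝ) * lam ρ β k - 1 ≤ X β k η 0} = Set.univ := by
      ext η
      simp only [Set.mem_ofPred_eq, Set.mem_univ, iff_true]
      unfold X
      rw [Z_zero, Real.log_one]
      norm_num
    rw [h1, probReal_univ]
    exact inv_le_one_of_one_le₀ (one_le_pow₀ hN1)
  by_contra hcon
  rw [not_le] at hcon
  obtain ⟨b, hb⟩ : ∃ b : ℝ, b = m * lam ρ β k - 1 := ⟨_, rfl⟩
  rw [← hb] at hcon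
  obtain ⟨J, hJ⟩ : ∃ J : ℕ, J = M ^ 3 * N ^ 2 := ⟨_, rfl⟩
  have hJ0 : 0 < J := by rw [hJ]; positivity
  have hJR : (J : ℝ) = (M : ℝ) ^ 3 * (N : ℝ) ^ 2 := by rw [hJ]; push_cast; ring
  have hJR0 : (0 : ℝ) < J := by exact_mod_cast hJ0
  have hmR : (m : ℝ) ≤ N := by exact_mod_cast hm
  have hm1 : (1 : ℝ) ≤ m := by exact_mod_cast hm0
  have hn1 : 1 ≤ J * m := Nat.mul_pos hJ0 hm0
  -- the union bound
  have hU : (law d ρ).real {η : Env d | ∃ j < J, ∃ x ∈ boxF d (j * m),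
      b < X β k (sh (j * m) x η) m} ≤ 1 / 4 := by
    have e1 : {η : Env d | ∃ j < J, ∃ x ∈ boxF d (j * m), b < X β k (sh (j * m) x η) m} =
        ⋃ j ∈ Finset.range J, ⋃ x ∈ boxF d (j * m),
          {η : Env d | b < X β k (sh (j * m) x η) m} := by
      ext η
      simp only [Set.mem_ofPred_eq, Set.mem_iUnion, Finset.mem_range, exists_prop]
    have e2 : ∀ j x, (law d ρ).real {η : Env d | b < X β k (sh (j * m) x η) m} ≤
        ((N : ℝ) ^ (2 + 3 * d + p + 1))⁻¹ := fun j x => by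
      have hms : MeasurableSet {η : Env d | b < X β k η m} :=
        measurableSet_lt measurable_const (measurable_X β k m)
      have h1 : (law d ρ).real {η : Env d | b < X β k (sh (j * m) x η) m} =
          (law d ρ).real {η : Env d | b < X β k η m} :=
        (mp_sh (ρ := ρ) (j * m) x).measureReal_preimage hms.nullMeasurableSet
      rw [h1]
      refine le_trans (measureReal_mono fun η hη => ?_) hcon.le
      exact le_of_lt (show b < X β k η m from hη)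
    rw [e1]
    calc (law d ρ).real (⋃ j ∈ Finset.range J, ⋃ x ∈ boxF d (j * m),
          {η : Env d | b < X β k (sh (j * m) x η) m})
        ≤ ∑ j ∈ Finset.range J, (law d ρ).real (⋃ x ∈ boxF d (j * m),
          {η : Env d | b < X β k (sh (j * m) x η) m}) := measureReal_biUnion_finset_le _ _
      _ ≤ ∑ j ∈ Finset.range J, ∑ x ∈ boxF d (j * m),
          (law d ρ).real {η : Env d | b < X β k (sh (j * m) x η) m} :=
          Finset.sum_le_sum fun j _ => measureReal_biUnion_finset_le _ _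
      _ ≤ ∑ j ∈ Finset.range J, ((3 * (M : ℝ) ^ 3) ^ d * (N : ℝ) ^ (3 * d)) *
          ((N : ℝ) ^ (2 + 3 * d + p + 1))⁻¹ := by
          refine Finset.sum_le_sum fun j hj => ?_
          refine (Finset.sum_le_sum fun x _ => e2 j x).trans ?_
          rw [Finset.sum_const, nsmul_eq_mul, card_boxF]
          refine mul_le_mul_of_nonneg_right ?_ (by positivity)
          push_cast
          have h1 : (2 * ((j : ℝ) * m) + 1) ≤ 3 * (M : ℝ) ^ 3 * (N : ℝ) ^ 3 := by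
            have hj1 : (j : ℝ) ≤ J := by exact_mod_cast (Finset.mem_range.1 hj).le
            have h2 : (j : ℝ) * m ≤ (M : ℝ) ^ 3 * (N : ℝ) ^ 3 := by
              calc (j : ℝ) * m ≤ J * N := mul_le_mul hj1 hmR (by positivity) hJR0.le
                _ = (M : ℝ) ^ 3 * (N : ℝ) ^ 3 := by rw [hJR]; ring
            have h3 : (1 : ℝ) ≤ (M : ℝ) ^ 3 * (N : ℝ) ^ 3 :=
              one_le_mul_of_one_le_of_one_le (one_le_pow₀ hM1) (one_le_pow₀ hN1)
            linarith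
          calc (2 * ((j : ℝ) * m) + 1) ^ d ≤ (3 * (M : ℝ) ^ 3 * (N : ℝ) ^ 3) ^ d :=
                pow_le_pow_left₀ (by positivity) h1 d
            _ = (3 * (M : ℝ) ^ 3) ^ d * (N : ℝ) ^ (3 * d) := by rw [mul_pow, ← pow_mul]
      _ = D * (N : ℝ) ^ (2 + 3 * d) * ((N : ℝ) ^ (2 + 3 * d + p + 1))⁻¹ := by
          rw [Finset.sum_const, nsmul_eq_mul, Finset.card_range, hJR, hD, pow_add (N : ℝ) 2]
          ring
      _ ≤ 1 / 4 := by
          have h1 : (N : ℝ) ^ (2 + 3 * d + p + 1) = (N : ℝ) ^ (2 + 3 * d) * (N : ℝ) ^ (p + 1) := by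
            rw [← pow_add]
            congr 1
          have h2 : 4 * D ≤ (N : ℝ) ^ (p + 1) := by
            calc 4 * D ≤ (2 : ℝ) ^ p := hp
              _ ≤ (N : ℝ) ^ p := pow_le_pow_left₀ (by norm_num) hN2 p
              _ ≤ (N : ℝ) ^ (p + 1) := pow_le_pow_right₀ hN1 (Nat.le_succ p)
          rw [h1, mul_inv]
          have h3 : (N : ℝ) ^ (2 + 3 * d) * ((N : ℝ) ^ (2 + 3 * d))⁻¹ = 1 :=
            mul_inv_cancel₀ (by positivity)
          calc D * (N : ℝ) ^ (2 + 3 * d) * (((N : ℝ) ^ (2 + 3 * d))⁻¹ * ((N : ℝ) ^ (p + 1))⁻¹)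
              = D * ((N : ℝ) ^ (p + 1))⁻¹ * ((N : ℝ) ^ (2 + 3 * d) * ((N : ℝ) ^ (2 + 3 * d))⁻¹) := by
                ring
            _ = D * ((N : ℝ) ^ (p + 1))⁻¹ := by rw [h3, mul_one]
            _ ≤ 1 / 4 := by
                rw [← div_eq_mul_inv, div_le_iff₀ (by positivity)]
                linarith
  -- the concentration
  obtain ⟨s, hs⟩ : ∃ s : ℝ, s = 2 * Real.sqrt (C₁ * ((J * m : ℕ) : ℝ) + 1 / 4) := ⟨_, rfl⟩
  have hsp : 0 < s := by rw [hs]; positivity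
  have hs2 : s ^ 2 = 4 * (C₁ * ((J * m : ℕ) : ℝ)) + 1 := by
    rw [hs, mul_pow, Real.sq_sqrt (by positivity)]
    ring
  have hCh : (law d ρ).real {η : Env d | s ≤ |X β k η (J * m) - A ρ β k (J * m)|} ≤ 1 / 4 := by
    refine (Pool.Agent.W_7d29a1_NR.cheb45 (f := fun η : Env d => X β k η (J * m) - A ρ β k (J * m))
      (integrable_cen13 hd hρ β k (J * m)) (hV k (J * m)) hsp).trans ?_
    rw [hs2, div_le_iff₀ (by positivity)]
    linarith
  -- a common environment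
  have hex : ∃ η : Env d, η ∉ {η : Env d | ∃ j < J, ∃ x ∈ boxF d (j * m),
      b < X β k (sh (j * m) x η) m} ∪
        {η : Env d | s ≤ |X β k η (J * m) - A ρ β k (J * m)|} := by
    by_contra hno
    push Not at hno
    have h1 : ({η : Env d | ∃ j < J, ∃ x ∈ boxF d (j * m),
      b < X β k (sh (j * m) x η) m} ∪
        {η : Env d | s ≤ |X β k η (J * m) - A ρ β k (J * m)|}) = Set.univ :=
      Set.eq_univ_of_forall hno
    have h2 := measureReal_union_le (μ := law d ρ) {η : Env d | ∃ j < J, ∃ x ∈ boxF d (j * m),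
      b < X β k (sh (j * m) x η) m} {η : Env d | s ≤ |X β k η (J * m) - A ρ β k (J * m)|}
    rw [h1, probReal_univ] at h2
    linarith
  obtain ⟨η, hη⟩ := hex
  rw [Set.mem_union, not_or] at hη
  have hη1 : X β k η (J * m) ≤ J * b := chain33 hd β k η m b J fun j hj x hx => by
    by_contra hc
    exact hη.1 ⟨j, hj, x, hx, not_le.1 hc⟩
  have hη2 : |X β k η (J * m) - A ρ β k (J * m)| < s := not_le.1 hη.2
  have h3 := (abs_lt.1 hη2).1
  have h4 := hE k hk (J * m) hn1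
  -- the contradiction
  have hn : ((J * m : ℕ) : ℝ) = J * m := by push_cast; ring
  have h5 : (J : ℝ) ≤ C₂ * ((J * m : ℕ) : ℝ) ^ ((1 : ℝ) / 2 + 1 / 6) + s := by
    have h6 : (J : ℝ) * b = ((J * m : ℕ) : ℝ) * lam ρ β k - J := by
      rw [hb, hn]
      ring
    linarith
  have hMN : 0 < (M : ℝ) * N := by positivity
  have h6 : ((J * m : ℕ) : ℝ) ≤ ((M : ℝ) * N) ^ 3 := by
    rw [hn]
    calc (J : ℝ) * m ≤ J * N := mul_le_mul_of_nonneg_left hmR hJR0.le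
      _ = ((M : ℝ) * N) ^ 3 := by rw [hJR]; ring
  have h7 : ((J * m : ℕ) : ℝ) ^ ((1 : ℝ) / 2 + 1 / 6) ≤ ((M : ℝ) * N) ^ 2 := by
    calc ((J * m : ℕ) : ℝ) ^ ((1 : ℝ) / 2 + 1 / 6)
        ≤ (((M : ℝ) * N) ^ 3) ^ ((1 : ℝ) / 2 + 1 / 6) :=
          Real.rpow_le_rpow (by positivity) h6 (by norm_num)
      _ = ((M : ℝ) * N) ^ 2 := by
          rw [← Real.rpow_natCast, ← Real.rpow_mul hMN.le, ← Real.rpow_natCast]
          norm_num
  have h8 : s ≤ 2 * Real.sqrt C₁ * ((M : ℝ) * N) ^ 2 + 1 := by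
    rw [hs]
    have h9 : Real.sqrt (C₁ * ((J * m : ℕ) : ℝ) + 1 / 4) ≤
        Real.sqrt C₁ * ((M : ℝ) * N) ^ 2 + 1 / 2 := by
      rw [Real.sqrt_le_left (by positivity)]
      have h10 : Real.sqrt C₁ ^ 2 = C₁ := Real.sq_sqrt hC₁0
      have h11 : (1 : ℝ) ≤ (M : ℝ) * N := one_le_mul_of_one_le_of_one_le hM1 hN1
      have h12 : ((M : ℝ) * N) ^ 3 ≤ (((M : ℝ) * N) ^ 2) ^ 2 := by
        rw [← pow_mul]
        exact pow_le_pow_right₀ h11 (by norm_num)
      have h13 : C₁ * ((J * m : ℕ) : ℝ) ≤ C₁ * (((M : ℝ) * N) ^ 2) ^ 2 :=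
        mul_le_mul_of_nonneg_left (h6.trans h12) hC₁0
      have h14 : 0 ≤ Real.sqrt C₁ * ((M : ℝ) * N) ^ 2 := by positivity
      have h15 : (Real.sqrt C₁ * ((M : ℝ) * N) ^ 2 + 1 / 2) ^ 2 =
          Real.sqrt C₁ ^ 2 * (((M : ℝ) * N) ^ 2) ^ 2 + Real.sqrt C₁ * ((M : ℝ) * N) ^ 2 + 1 / 4 := by
        ring
      rw [h15, h10]
      linarith
    linarith
  have h9 : (J : ℝ) = M * ((M : ℝ) * N) ^ 2 := by rw [hJR]; ring
  have h10 : (1 : ℝ) < ((M : ℝ) * N) ^ 2 := by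
    have h13 : (2 : ℝ) ≤ (M : ℝ) * N := by
      calc (2 : ℝ) = 1 * 2 := by norm_num
        _ ≤ (M : ℝ) * N := mul_le_mul hM1 hN2 (by norm_num) (by linarith)
    nlinarith
  have h11 : C₂ * ((J * m : ℕ) : ℝ) ^ ((1 : ℝ) / 2 + 1 / 6) ≤ C₂ * ((M : ℝ) * N) ^ 2 :=
    mul_le_mul_of_nonneg_left h7 hC₂0
  have h12 : (C₂ + 2 * Real.sqrt C₁ + 1) * ((M : ℝ) * N) ^ 2 ≤ M * ((M : ℝ) * N) ^ 2 :=
    mul_le_mul_of_nonneg_right hM (by positivity)
  have h13 : (C₂ + 2 * Real.sqrt C₁ + 1) * ((M : ℝ) * N) ^ 2 =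
      C₂ * ((M : ℝ) * N) ^ 2 + 2 * Real.sqrt C₁ * ((M : ℝ) * N) ^ 2 + ((M : ℝ) * N) ^ 2 := by ring
  rw [h13, ← h9] at h12
  linarith

end Pool.Agent.W_7d29a1_PK
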