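import Pool.Agent.W_7d29a1_PK.Up33
import Pool.Agent.W_7d29a1_PK.DefsPK2

/-!
Leaves LOW and UPL of theorem PK (helper33).
-/

set_option autoImplicit false

namespace Pool.Agent.W_7d29a1_PK

open MeasureTheory ProbabilityTheory Filter Topology Pool.Agent.W_MP_7d29a1_pr
  Pool.Agent.W_7d29a1_h46 Pool.Agent.W_7d29a1_h46u Pool.Agent.W_7d29a1_D2
  Pool.Agent.W_7d29a1_D2.B35
  Pool.Agent.W_7d29a1_Q29 Pool.Agent.W_7d29a1_R34 Pool.Agent.W_7d29a1_SP

/-- **Leaf LOW.** -/
theorem low33 {d : ℕ} (hd : 0 < d) {ρ : Measure ℝ} [IsProbabilityMeasure ρ] (hρ : EM ρ)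
    (β : ℝ) : LowPK d ρ β := by
  intro K
  have hL := loT33 hd hρ β
  choose δ C hδ hC H using hL
  have hcomp : IsCompact (Metric.closedBall (0 : Vec d) K) := isCompact_closedBall _ _
  obtain ⟨t, _, ht⟩ := hcomp.elim_nhds_subcover (fun h => Metric.ball h (δ h))
    (fun h _ => Metric.ball_mem_nhds h (hδ h))
  have hC0 : ∀ h ∈ t, C h ≤ 1 + ∑ g ∈ t, C g := fun h hh => by
    have := Finset.single_le_sum (f := C) (fun g _ => le_trans zero_le_one (hC g)) hh
    linarith
  refine ⟨1 + ∑ g ∈ t, C g, ?_, 2, fun N hN m hm k hk => ?_⟩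
  · have : 0 ≤ ∑ g ∈ t, C g := Finset.sum_nonneg fun g _ => le_trans zero_le_one (hC g)
    linarith
  have hk' : k ∈ Metric.closedBall (0 : Vec d) K := by
    rw [mem_closedBall_zero_iff]
    exact hk
  obtain ⟨h, hh, hkh⟩ := Set.mem_iUnion₂.1 (ht hk')
  have h1 : ‖k - h‖ < δ h := by
    rw [← dist_eq_norm]
    exact hkh
  have hN1 : (1 : ℝ) ≤ N := by exact_mod_cast (by omega : 1 ≤ N)
  refine le_trans ?_ ((H h k h1 N m hN hm).trans (measureReal_mono (fun η hη => ?_)
    (measure_ne_top _ _)))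
  · exact Real.rpow_le_rpow_of_exponent_le hN1 (neg_le_neg (hC0 h hh))
  · have h2 : m * lam ρ β k - 1 ≤ X β k η m := hη
    show m * lam ρ β k - 2 < X β k η m
    linarith

/-- **Leaf UPL**, from LOW. -/
theorem upl33 {d : ℕ} (hd : 0 < d) {ρ : Measure ℝ} [IsProbabilityMeasure ρ] {β : ℝ}
    (hL : LowPK d ρ β) : UplPK d ρ β := by
  intro K
  obtain ⟨C, hC, N₀, H⟩ := hL K
  have hd0 : (0 : ℝ) ≤ d := Nat.cast_nonneg d
  refine ⟨C + 3 * d + 5, by linarith, max N₀ 2, fun N hN k hk l hl u => ?_⟩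
  have hN' : N₀ ≤ N := (le_max_left _ _).trans hN
  have hNt : 2 ≤ N := (le_max_right _ _).trans hN
  obtain ⟨n, rfl⟩ := Nat.exists_eq_add_of_le hl
  have hN1 : (1 : ℝ) ≤ ((l + n : ℕ) : ℝ) := by exact_mod_cast (by omega : 1 ≤ l + n)
  have hN0 : (0 : ℝ) < ((l + n : ℕ) : ℝ) := by linarith
  have hN2 : (2 : ℝ) ≤ ((l + n : ℕ) : ℝ) := by exact_mod_cast hNt
  -- `p = N ^ (-C)`, with a shift of `1`
  have h0 : ((l + n : ℕ) : ℝ) ^ (-C) ≤
      (law d ρ).real {η | n * (lam ρ β k) - 2 < X β k η n} := H (l + n) hN' n (by omega) k hk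
  have h1 : ((l + n : ℕ) : ℝ) ^ (-C) * (law d ρ).real
      {η | l * lam ρ β k + (u + 1) + 2 + Real.log ((boxF d l).card) < X β k η l} ≤
      (law d ρ).real {η | ((l + n : ℕ) : ℝ) * lam ρ β k + u ≤ X β k η (l + n)} := by
    rcases Nat.eq_zero_or_pos n with rfl | hn
    · have hp1 : ((l + 0 : ℕ) : ℝ) ^ (-C) ≤ 1 :=
        Real.rpow_le_one_of_one_le_of_nonpos hN1 (by linarith)
      have hcl : 0 ≤ Real.log ((boxF d l).card : ℝ) := Real.log_natCast_nonneg _
      calc ((l + 0 : ℕ) : ℝ) ^ (-C) * (law d ρ).real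
            {η | l * lam ρ β k + (u + 1) + 2 + Real.log ((boxF d l).card) < X β k η l}
          ≤ 1 * (law d ρ).real
            {η | l * lam ρ β k + (u + 1) + 2 + Real.log ((boxF d l).card) < X β k η l} :=
            mul_le_mul_of_nonneg_right hp1 measureReal_nonneg
        _ ≤ _ := by
            rw [one_mul]
            refine measureReal_mono (fun η hη => ?_) (measure_ne_top _ _)
            have h2 : l * lam ρ β k + (u + 1) + 2 + Real.log ((boxF d l).card) < X β k η l := hη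
            show ((l + 0 : ℕ) : ℝ) * lam ρ β k + u ≤ X β k η (l + 0)
            rw [Nat.add_zero]
            linarith
    · have hnR : (1 : ℝ) ≤ n := by exact_mod_cast hn
      have hn0 : (n : ℝ) ≠ 0 := by linarith
      -- the level `L' = lam - 1 / n`
      have h2 := up133 (ρ := ρ) hd β k l n (L := lam ρ β k - 1 / n) (u := u + 1 + l / n)
        (p := ((l + n : ℕ) : ℝ) ^ (-C)) (h0.trans (measureReal_mono (fun η hη => by
          have h3 : n * (lam ρ β k) - 2 < X β k η n := hη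
          show n * (lam ρ β k - 1 / n) - 1 ≤ X β k η n
          have h4 : (n : ℝ) * (lam ρ β k - 1 / n) = n * lam ρ β k - 1 := by field_simp
          rw [h4]
          linarith) (measure_ne_top _ _)))
      refine le_trans (mul_le_mul_of_nonneg_left (measureReal_mono (fun η hη => ?_)
        (measure_ne_top _ _)) (by positivity)) (h2.trans (measureReal_mono (fun η hη => ?_)
        (measure_ne_top _ _)))
      · have h3 : l * lam ρ β k + (u + 1) + 2 + Real.log ((boxF d l).card) < X β k η l := hη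
        show l * (lam ρ β k - 1 / n) + (u + 1 + l / n) + 2 + Real.log ((boxF d l).card) <
          X β k η l
        have h4 : (l : ℝ) * (lam ρ β k - 1 / n) + (u + 1 + l / n) =
            l * lam ρ β k + (u + 1) := by
          field_simp
          ring
        rw [h4]
        exact h3
      · have h3 : ((l + n : ℕ) : ℝ) * (lam ρ β k - 1 / n) + (u + 1 + l / n) < X β k η (l + n) :=
          hη
        show ((l + n : ℕ) : ℝ) * lam ρ β k + u ≤ X β k η (l + n)
        have h4 : ((l + n : ℕ) : ℝ) * (lam ρ β k - 1 / n) + (u + 1 + l / n) =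
            ((l + n : ℕ) : ℝ) * lam ρ β k + u := by
          push_cast
          field_simp
          ring
        linarith
  -- the logarithms
  have hlog : Real.log 2 ≤ Real.log ((l + n : ℕ) : ℝ) := Real.log_le_log two_pos hN2
  have hl2 := Real.log_two_gt_d9
  have hl0 : 0 ≤ Real.log ((l + n : ℕ) : ℝ) := Real.log_nonneg hN1
  have h3 : Real.log ((boxF d l).card) ≤ 3 * d * Real.log ((l + n : ℕ) : ℝ) := by
    have h0 : (((boxF d l).card : ℕ) : ℝ) = (2 * (l : ℝ) + 1) ^ d := by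
      rw [card_boxF]
      push_cast
      ring
    rw [h0, Real.log_pow]
    have h4 : Real.log (2 * (l : ℝ) + 1) ≤ 3 * Real.log ((l + n : ℕ) : ℝ) := by
      have h5 : (3 : ℝ) * Real.log ((l + n : ℕ) : ℝ) = Real.log (((l + n : ℕ) : ℝ) ^ 3) := by
        rw [Real.log_pow]
        norm_num
      rw [h5]
      refine Real.log_le_log (by positivity) ?_
      have h6 : (l : ℝ) ≤ ((l + n : ℕ) : ℝ) := by exact_mod_cast hl
      have h7 : 4 * ((l + n : ℕ) : ℝ) ≤ ((l + n : ℕ) : ℝ) ^ 3 := by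
        have h8 : (2 : ℝ) ^ 2 ≤ ((l + n : ℕ) : ℝ) ^ 2 := pow_le_pow_left₀ (by norm_num) hN2 2
        nlinarith
      linarith
    calc (d : ℝ) * Real.log (2 * (l : ℝ) + 1) ≤ d * (3 * Real.log ((l + n : ℕ) : ℝ)) :=
          mul_le_mul_of_nonneg_left h4 hd0
      _ = 3 * d * Real.log ((l + n : ℕ) : ℝ) := by ring
  have h4 : (C + 3 * d + 5) * Real.log ((l + n : ℕ) : ℝ) =
      C * Real.log ((l + n : ℕ) : ℝ) + 3 * d * Real.log ((l + n : ℕ) : ℝ) +
        5 * Real.log ((l + n : ℕ) : ℝ) := by ring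
  have h5 : 0 ≤ C * Real.log ((l + n : ℕ) : ℝ) := by positivity
  have h6 : (law d ρ).real {η | l * lam ρ β k + u + (C + 3 * d + 5) * Real.log ((l + n : ℕ) : ℝ) ≤
      X β k η l} ≤ (law d ρ).real
      {η | l * lam ρ β k + (u + 1) + 2 + Real.log ((boxF d l).card) < X β k η l} := by
    refine measureReal_mono (fun η hη => ?_) (measure_ne_top _ _)
    have h7 : l * lam ρ β k + u + (C + 3 * d + 5) * Real.log ((l + n : ℕ) : ℝ) ≤ X β k η l := hη
    show l * lam ρ β k + (u + 1) + 2 + Real.log ((boxF d l).card) < X β k η l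
    linarith
  have h7 : 1 ≤ ((l + n : ℕ) : ℝ) ^ (C + 3 * d + 5) * ((l + n : ℕ) : ℝ) ^ (-C) := by
    rw [← Real.rpow_add hN0]
    exact Real.one_le_rpow hN1 (by linarith)
  calc (law d ρ).real {η | l * lam ρ β k + u + (C + 3 * d + 5) * Real.log ((l + n : ℕ) : ℝ) ≤
      X β k η l}
      ≤ 1 * (law d ρ).real
        {η | l * lam ρ β k + (u + 1) + 2 + Real.log ((boxF d l).card) < X β k η l} := by
        rw [one_mul]
        exact h6
    _ ≤ (((l + n : ℕ) : ℝ) ^ (C + 3 * d + 5) * ((l + n : ℕ) : ℝ) ^ (-C)) * (law d ρ).real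
        {η | l * lam ρ β k + (u + 1) + 2 + Real.log ((boxF d l).card) < X β k η l} :=
        mul_le_mul_of_nonneg_right h7 measureReal_nonneg
    _ = ((l + n : ℕ) : ℝ) ^ (C + 3 * d + 5) * (((l + n : ℕ) : ℝ) ^ (-C) * (law d ρ).real
        {η | l * lam ρ β k + (u + 1) + 2 + Real.log ((boxF d l).card) < X β k η l}) := by ring
    _ ≤ ((l + n : ℕ) : ℝ) ^ (C + 3 * d + 5) * (law d ρ).real
        {η | ((l + n : ℕ) : ℝ) * lam ρ β k + u ≤ X β k η (l + n)} :=
        mul_le_mul_of_nonneg_left h1 (by positivity)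

end Pool.Agent.W_7d29a1_PK
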