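import Pool.Agent.W_7d29a1_PK.LoT33
import Pool.Agent.W_7d29a1_PK.DefsPK2

/-!
Block LOW of theorem PK (helper40): from the local form `loT33` by compactness of a closed ball.
-/

set_option autoImplicit false

namespace Pool.Agent.W_7d29a1_PK

open MeasureTheory ProbabilityTheory Filter Topology Pool.Agent.W_MP_7d29a1_pr
  Pool.Agent.W_7d29a1_h46 Pool.Agent.W_7d29a1_h46u Pool.Agent.W_7d29a1_D2
  Pool.Agent.W_7d29a1_D2.B35 Pool.Agent.W_7d29a1_Q29 Pool.Agent.W_7d29a1_R34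
  Pool.Agent.W_7d29a1_SP Pool.Agent.W_7d29a1_V

/-- **LOW**, every law. -/
theorem low40 {d : ℕ} (hd : 0 < d) {ρ : Measure ℝ} [IsProbabilityMeasure ρ] (hρ : EM ρ)
    (β : ℝ) : LowPK d ρ β := by
  intro K
  have hL := loT33 hd hρ β
  choose δ C hδ hC hb using hL
  obtain ⟨t, -, hcov⟩ := (isCompact_closedBall (0 : Vec d) K).elim_nhds_subcover
    (fun h => Metric.ball h (δ h)) (fun h _ => Metric.ball_mem_nhds h (hδ h))
  obtain ⟨C', hC'1, hC'⟩ : ∃ C' : ℝ, 1 ≤ C' ∧ ∀ h ∈ t, C h ≤ C' := by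
    refine ⟨max 1 (∑ h ∈ t, |C h|), le_max_left _ _, fun h hh => ?_⟩
    refine le_trans (le_abs_self _) (le_trans ?_ (le_max_right _ _))
    exact Finset.single_le_sum (f := fun h => |C h|) (fun _ _ => abs_nonneg _) hh
  refine ⟨C', hC'1, 2, fun N hN m hm k hk => ?_⟩
  have hk' : k ∈ Metric.closedBall (0 : Vec d) K := by
    rwa [Metric.mem_closedBall, dist_zero_right]
  obtain ⟨h, hh, hkh⟩ := Set.mem_iUnion₂.1 (hcov hk')
  rw [Metric.mem_ball, dist_eq_norm] at hkh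
  have h1 := hb h k hkh N m hN hm
  have hN1 : (1 : ℝ) ≤ N := by exact_mod_cast (by omega : 1 ≤ N)
  refine (Real.rpow_le_rpow_of_exponent_le hN1 (by linarith [hC' h hh])).trans (h1.trans ?_)
  refine measureReal_mono (fun η hη => ?_) (measure_ne_top _ _)
  simp only [Set.mem_setOf_eq] at hη ⊢
  linarith

end Pool.Agent.W_7d29a1_PK
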