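import Pool.Agent.W_7d29a1_PK.MainL58

/-!
The first half of the KPZ relation for the lower exponents: the exit at EVERY large length at which
the free energy has a large upper tail (helper76; the text of `coreL58`, one length at a time).
-/

namespace Pool.Agent.W_7d29a1_PK

open MeasureTheory ProbabilityTheory Filter Topology Pool.Agent.W_MP_7d29a1_pr
  Pool.Agent.W_7d29a1_h46 Pool.Agent.W_7d29a1_h46u Pool.Agent.W_7d29a1_D2
  Pool.Agent.W_7d29a1_D2.B35 Pool.Agent.W_7d29a1_Q29 Pool.Agent.W_7d29a1_R34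
  Pool.Agent.W_7d29a1_SP Pool.Agent.W_7d29a1_V

variable {d : ℕ} {ρ : Measure ℝ} {β : ℝ}

/-- **The exit at every good length.** -/
theorem low76 [IsProbabilityMeasure ρ] (hS : StpPK d ρ β) (hT : TailPK d ρ β) (h w : Vec d)
    (s p a y qm : ℝ) (hp : 1 ≤ p) (hL : LoR (lam ρ β) h w s p) (hy : 0 ≤ y)
    (hcon : p * a < 1 + (p - 1) * y) :
    ∃ q₀ : ℝ, 0 < q₀ ∧ ∃ N₀ : ℕ, ∀ N : ℕ, N₀ ≤ N → (y = 0 ∨ (N : ℝ) ^ (-qm) ≤
      (law d ρ).real {η | N * lam ρ β h + (N : ℝ) ^ y / 8 ≤ X β h η N}) →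
      ∃ n : ℕ, N ≤ n ∧ n ≤ 2 * N ∧ (N : ℝ) ^ (-q₀) ≤ Ex ρ β h w s n ((n : ℝ) ^ a) := by
  have hp0 : 0 < p := by linarith
  have hpy : 0 ≤ (p - 1) * y := mul_nonneg (by linarith) hy
  set b : ℝ := (1 + (p - 1) * y) / p with hbdef
  have hb0 : 0 < b := div_pos (by linarith) hp0
  have hab : a < b := by rw [hbdef, lt_div_iff₀ hp0]; linarith
  set a' : ℝ := max a 0 with ha'
  have ha0 : 0 ≤ a' := le_max_right _ _
  have haa : a ≤ a' := le_max_left _ _
  have hab' : a' < b := max_lt hab hb0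
  obtain ⟨c', δ, hc', hδ, hL⟩ := hL
  obtain ⟨q, c, C, hq, hc, hC, hS⟩ := hS (‖h‖ + |s| + 1)
  set Q : ℝ := max q qm with hQ
  have hQ0 : 0 < Q := lt_max_of_lt_left hq
  obtain ⟨q₀, hq₀, N₁, hS⟩ := hS Q 2 hQ0 (by norm_num)
  obtain ⟨N₂, hT⟩ := hT h (Q + 1) (1 / 4) (by norm_num)
  set δ' : ℝ := min (min δ 1) (1 / (‖w‖ + 1)) with hδ'
  have hw0 : 0 < ‖w‖ + 1 := by positivity
  have hδ0 : 0 < δ' := lt_min (lt_min hδ one_pos) (by positivity)
  have hC0 : 0 < C := by linarith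
  set c₃ : ℝ := c ^ p * (1 / 8) ^ (p - 1) * c' / C with hc₃
  have hc₃0 : 0 < c₃ := by positivity
  have hδp : 0 < δ' ^ p := Real.rpow_pos_of_pos hδ0 p
  -- the large lengths
  have e1 : ∀ᶠ N : ℕ in atTop, 1 ≤ Real.log (N : ℝ) :=
    (Real.tendsto_log_atTop.comp tendsto_natCast_atTop_atTop).eventually_ge_atTop 1
  have e2 : ∀ᶠ N : ℕ in atTop, 4 * C / (c' * δ' ^ p) ≤ (N : ℝ) ^ (1 / 4 : ℝ) :=
    ((tendsto_rpow_atTop (by norm_num : (0 : ℝ) < 1 / 4)).comp
      tendsto_natCast_atTop_atTop).eventually_ge_atTop _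
  have e3 : ∀ᶠ N : ℕ in atTop, (2 : ℝ) ^ a' / c₃ ^ (1 / p) ≤ (N : ℝ) ^ (b - a') :=
    ((tendsto_rpow_atTop (by linarith : (0 : ℝ) < b - a')).comp
      tendsto_natCast_atTop_atTop).eventually_ge_atTop _
  obtain ⟨M, hM⟩ := eventually_atTop.1 (e1.and (e2.and e3))
  refine ⟨q₀, hq₀, max M (max (max N₁ N₂) 2), fun N hN hlu => ?_⟩
  obtain ⟨h1, h2, h3⟩ := hM N ((le_max_left _ _).trans hN)
  have hN12 : max (max N₁ N₂) 2 ≤ N := (le_max_right _ _).trans hN
  have hNN1 : N₁ ≤ N := ((le_max_left _ _).trans (le_max_left _ _)).trans hN12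
  have hNN2 : N₂ ≤ N := ((le_max_right _ _).trans (le_max_left _ _)).trans hN12
  have hN2 : 2 ≤ N := (le_max_right _ _).trans hN12
  have hNr : (2 : ℝ) ≤ N := by exact_mod_cast hN2
  have hN0 : (0 : ℝ) < N := by linarith
  have hN1 : (1 : ℝ) < N := by linarith
  -- the quantile
  set S : Set ℝ := {v | 0 ≤ v ∧ (N : ℝ) ^ (-Q) ≤
    (law d ρ).real {η | N * lam ρ β h + v ≤ X β h η N}} with hSdef
  have hbd : ∀ v ∈ S, v ≤ (N : ℝ) ^ (3 / 4 : ℝ) := by
    rintro v ⟨-, hv⟩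
    by_contra hv2
    rw [not_le] at hv2
    have h5 := hT N hNN2
    have e34 : (1 / 2 + 1 / 4 : ℝ) = 3 / 4 := by norm_num
    rw [e34] at h5
    have h6 : (law d ρ).real {η | N * lam ρ β h + v ≤ X β h η N} ≤
        (law d ρ).real {η | N * lam ρ β h + (N : ℝ) ^ (3 / 4 : ℝ) ≤ X β h η N} :=
      measureReal_mono fun η hη => by
        change N * lam ρ β h + v ≤ X β h η N at hη
        change N * lam ρ β h + (N : ℝ) ^ (3 / 4 : ℝ) ≤ X β h η N
        linarith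
    have h7 : (N : ℝ) ^ (-(Q + 1)) < (N : ℝ) ^ (-Q) :=
      Real.rpow_lt_rpow_of_exponent_lt hN1 (by linarith)
    linarith
  have hSb : BddAbove S := ⟨_, hbd⟩
  set v₀ : ℝ := sSup (insert 0 S) with hv₀
  have hSb' : BddAbove (insert 0 S) := hSb.insert 0
  have hv0 : 0 ≤ v₀ := le_csSup hSb' (Set.mem_insert _ _)
  have hv1 : v₀ ≤ (N : ℝ) ^ (3 / 4 : ℝ) := by
    refine csSup_le ⟨0, Set.mem_insert _ _⟩ ?_
    rintro v (rfl | hv)
    · positivity
    · exact hbd v hv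
  set u : ℝ := v₀ + 1 with hu
  have hu0 : 0 ≤ u := by linarith
  have hup : (law d ρ).real {η | N * lam ρ β h + u < X β h η N} ≤ (N : ℝ) ^ (-q) := by
    have h5 : u ∉ S := fun hmem => by
      have := le_csSup hSb' (Set.mem_insert_of_mem 0 hmem)
      linarith
    have h6 : (law d ρ).real {η | N * lam ρ β h + u ≤ X β h η N} < (N : ℝ) ^ (-Q) := by
      by_contra hcon2
      rw [not_lt] at hcon2
      exact h5 ⟨hu0, hcon2⟩
    have h7 : (law d ρ).real {η | N * lam ρ β h + u < X β h η N} ≤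
        (law d ρ).real {η | N * lam ρ β h + u ≤ X β h η N} :=
      measureReal_mono fun η hη => by
        change N * lam ρ β h + u < X β h η N at hη
        change N * lam ρ β h + u ≤ X β h η N
        exact hη.le
    have h8 : (N : ℝ) ^ (-Q) ≤ (N : ℝ) ^ (-q) :=
      Real.rpow_le_rpow_of_exponent_le hN1.le (by linarith [le_max_left q qm])
    linarith
  have halt : u ≤ 2 * Real.log N ∨ (N : ℝ) ^ (-Q) ≤
      (law d ρ).real {η | N * lam ρ β h + u / 2 ≤ X β h η N} := by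
    rcases le_or_gt v₀ 1 with hle | hgt
    · left
      linarith
    · right
      have h5 : u / 2 < v₀ := by linarith
      obtain ⟨v, hv, hv2⟩ := exists_lt_of_lt_csSup ⟨0, Set.mem_insert _ _⟩ h5
      rcases hv with rfl | hv
      · linarith
      · refine hv.2.trans (measureReal_mono fun η hη => ?_)
        change N * lam ρ β h + v ≤ X β h η N at hη
        change N * lam ρ β h + u / 2 ≤ X β h η N
        linarith
  -- the size of the quantile
  set U : ℝ := u + Real.log N with hU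
  have hU0 : 0 < U := by linarith
  have hUy : (N : ℝ) ^ y / 8 ≤ U := by
    rcases hlu with rfl | hlu
    · rw [Real.rpow_zero]
      linarith
    · have h5 : (N : ℝ) ^ y / 8 ∈ S := by
        refine ⟨by positivity, le_trans ?_ hlu⟩
        exact Real.rpow_le_rpow_of_exponent_le hN1.le (by linarith [le_max_right q qm])
      have h6 := le_csSup hSb' (Set.mem_insert_of_mem 0 h5)
      linarith
  have hU4 : U ≤ 4 * (N : ℝ) ^ (3 / 4 : ℝ) := by
    have h5 : Real.log N ≤ (N : ℝ) ^ (3 / 4 : ℝ) / (3 / 4) :=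
      Real.log_le_rpow_div hN0.le (by norm_num)
    have h6 : (1 : ℝ) ≤ (N : ℝ) ^ (3 / 4 : ℝ) := Real.one_le_rpow hN1.le (by norm_num)
    linarith
  -- the tilt
  set t : ℝ := (C * U / (c' * N)) ^ (1 / p) with ht
  have hx0 : 0 < C * U / (c' * N) := by positivity
  have ht0 : 0 < t := Real.rpow_pos_of_pos hx0 _
  have htp : t ^ p = C * U / (c' * N) := by
    rw [ht, ← Real.rpow_mul hx0.le, one_div_mul_cancel hp0.ne', Real.rpow_one]
  have htδ : t ≤ δ' := by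
    have h5 : C * U / (c' * N) ≤ δ' ^ p := by
      rw [div_le_iff₀ (by positivity)]
      have h6 : (N : ℝ) ^ (3 / 4 : ℝ) * (N : ℝ) ^ (1 / 4 : ℝ) = N := by
        rw [← Real.rpow_add hN0]
        norm_num
      have h7 : 4 * C ≤ (N : ℝ) ^ (1 / 4 : ℝ) * (c' * δ' ^ p) := by
        rwa [div_le_iff₀ (by positivity)] at h2
      have h8 : 0 ≤ (N : ℝ) ^ (3 / 4 : ℝ) := by positivity
      calc C * U ≤ C * (4 * (N : ℝ) ^ (3 / 4 : ℝ)) := mul_le_mul_of_nonneg_left hU4 hC0.le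
        _ = (N : ℝ) ^ (3 / 4 : ℝ) * (4 * C) := by ring
        _ ≤ (N : ℝ) ^ (3 / 4 : ℝ) * ((N : ℝ) ^ (1 / 4 : ℝ) * (c' * δ' ^ p)) :=
          mul_le_mul_of_nonneg_left h7 h8
        _ = ((N : ℝ) ^ (3 / 4 : ℝ) * (N : ℝ) ^ (1 / 4 : ℝ)) * (c' * δ' ^ p) := by ring
        _ = δ' ^ p * (c' * N) := by rw [h6]; ring
    calc t ≤ (δ' ^ p) ^ (1 / p) := Real.rpow_le_rpow hx0.le h5 (by positivity)
      _ = δ' := by rw [← Real.rpow_mul hδ0.le, mul_one_div_cancel hp0.ne', Real.rpow_one]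
  have htd : t ≤ δ := htδ.trans ((min_le_left _ _).trans (min_le_left _ _))
  have ht1 : t ≤ 1 := htδ.trans ((min_le_left _ _).trans (min_le_right _ _))
  have htw : t ≤ 1 / (‖w‖ + 1) := htδ.trans (min_le_right _ _)
  have hr1 : ‖t • w‖ ≤ 1 := by
    rw [norm_smul, Real.norm_eq_abs, abs_of_pos ht0]
    calc t * ‖w‖ ≤ 1 / (‖w‖ + 1) * (‖w‖ + 1) :=
          mul_le_mul htw (by linarith) (norm_nonneg w) (by positivity)
      _ = 1 := one_div_mul_cancel hw0.ne'
  have hs1 : |t * s| ≤ ‖h‖ + |s| + 1 := by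
    rw [abs_mul, abs_of_pos ht0]
    have h5 : t * |s| ≤ 1 * |s| := mul_le_mul_of_nonneg_right ht1 (abs_nonneg s)
    linarith [norm_nonneg h]
  have hg : C * (u + Real.log N) ≤ N * (lam ρ β (h + t • w) - lam ρ β h - t * s) := by
    have h5 := hL t ht0 htd
    rw [htp] at h5
    have h6 : c' * (C * U / (c' * N)) = C * U / N := by field_simp
    rw [h6, div_le_iff₀ hN0] at h5
    calc C * (u + Real.log N) = C * U := rfl
      _ ≤ (lam ρ β (h + t • w) - lam ρ β h - s * t) * N := h5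
      _ = N * (lam ρ β (h + t • w) - lam ρ β h - t * s) := by ring
  obtain ⟨n, hn1, hn2, hex⟩ := hS N hNN1 h (t • w) (t * s)
    (by linarith [abs_nonneg s]) hr1 hs1 u hu0 hup halt hg
  have hn1' : (N : ℝ) ≤ n := by exact_mod_cast hn1
  have hn2' : (n : ℝ) ≤ 2 * N := by exact_mod_cast hn2
  have hn0 : (0 : ℝ) < n := by linarith
  have hex2 : Ex ρ β h (t • w) (t * s) n (c * (u + Real.log N)) =
      Ex ρ β h w s n (c * U / t) := by
    unfold Ex
    rw [slb_smul58 n w s _ ht0]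
  rw [hex2] at hex
  -- the width
  have hW0 : 0 < c * U / t := by positivity
  have hW : c₃ ^ (1 / p) * (N : ℝ) ^ b ≤ c * U / t := by
    have h5 : c₃ * (N : ℝ) ^ (1 + (p - 1) * y) ≤ (c * U / t) ^ p := by
      rw [Real.div_rpow (by positivity) ht0.le, htp, Real.mul_rpow hc.le hU0.le,
        le_div_iff₀ hx0]
      have h6 : U ^ p = U ^ (p - 1) * U := by
        rw [← Real.rpow_add_one hU0.ne', sub_add_cancel]
      have h7 : ((1 / 8 : ℝ) * (N : ℝ) ^ y) ^ (p - 1) ≤ U ^ (p - 1) :=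
        Real.rpow_le_rpow (by positivity) (by linarith) (by linarith)
      rw [Real.mul_rpow (by norm_num) (by positivity), ← Real.rpow_mul hN0.le] at h7
      have h8 : (N : ℝ) ^ (1 + (p - 1) * y) = (N : ℝ) ^ (y * (p - 1)) * N := by
        rw [← Real.rpow_add_one hN0.ne']
        congr 1
        ring
      rw [h6, h8, hc₃]
      have h9 : c ^ p * (1 / 8) ^ (p - 1) * c' / C * ((N : ℝ) ^ (y * (p - 1)) * N) *
          (C * U / (c' * N)) = c ^ p * U * ((1 / 8) ^ (p - 1) * (N : ℝ) ^ (y * (p - 1))) := by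
        field_simp
      rw [h9]
      calc c ^ p * U * ((1 / 8) ^ (p - 1) * (N : ℝ) ^ (y * (p - 1))) ≤ c ^ p * U * U ^ (p - 1) :=
            mul_le_mul_of_nonneg_left h7 (by positivity)
        _ = c ^ p * (U ^ (p - 1) * U) := by ring
    have h6 := Real.rpow_le_rpow (by positivity) h5 (by positivity : 0 ≤ 1 / p)
    rw [← Real.rpow_mul hW0.le, mul_one_div_cancel hp0.ne', Real.rpow_one,
      Real.mul_rpow hc₃0.le (by positivity), ← Real.rpow_mul hN0.le] at h6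
    have h7 : (1 + (p - 1) * y) * (1 / p) = b := by rw [hbdef]; ring
    rwa [h7] at h6
  have hna : (n : ℝ) ^ a ≤ c * U / t := by
    have h5 : (n : ℝ) ^ a ≤ (2 * (N : ℝ)) ^ a' :=
      (Real.rpow_le_rpow_of_exponent_le (by linarith) haa).trans
        (Real.rpow_le_rpow hn0.le hn2' ha0)
    have hcp : 0 < c₃ ^ (1 / p) := Real.rpow_pos_of_pos hc₃0 _
    have h6 : (2 * (N : ℝ)) ^ a' ≤ c₃ ^ (1 / p) * (N : ℝ) ^ b := by
      rw [div_le_iff₀ hcp] at h3
      have h7 : (N : ℝ) ^ (b - a') * (N : ℝ) ^ a' = (N : ℝ) ^ b := by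
        rw [← Real.rpow_add hN0, sub_add_cancel]
      calc (2 * (N : ℝ)) ^ a' = 2 ^ a' * (N : ℝ) ^ a' := Real.mul_rpow (by norm_num) hN0.le
        _ ≤ (N : ℝ) ^ (b - a') * c₃ ^ (1 / p) * (N : ℝ) ^ a' :=
          mul_le_mul_of_nonneg_right h3 (by positivity)
        _ = c₃ ^ (1 / p) * ((N : ℝ) ^ (b - a') * (N : ℝ) ^ a') := by ring
        _ = c₃ ^ (1 / p) * (N : ℝ) ^ b := by rw [h7]
    exact (h5.trans h6).trans hW
  exact ⟨n, hn1, hn2, hex.trans (Ex_anti58 (ρ := ρ) (β := β) h w s n hna)⟩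

end Pool.Agent.W_7d29a1_PK
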