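import Pool.Agent.W_7d29a1_PK.LKlow68
import Pool.Agent.W_7d29a1_PK.DefsLK5

/-!
Theorem LK, leaf LowL: the exit at all large scales.
-/

namespace Pool.Agent.W_7d29a1_PK

open MeasureTheory ProbabilityTheory Filter Topology Pool.Agent.W_MP_7d29a1_pr
  Pool.Agent.W_7d29a1_h46 Pool.Agent.W_7d29a1_h46u Pool.Agent.W_7d29a1_D2
  Pool.Agent.W_7d29a1_D2.B35 Pool.Agent.W_7d29a1_Q29 Pool.Agent.W_7d29a1_R34
  Pool.Agent.W_7d29a1_SP Pool.Agent.W_7d29a1_V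

/-- **LowL.** -/
theorem lowL18 {d : ℕ} {ρ : Measure ℝ} [IsProbabilityMeasure ρ] {β : ℝ} (hS : StpPK d ρ β)
    (hT : TailPK d ρ β) : LowL d ρ β := by
  intro h v p a y hp ha hy0 hlo hlu hlt
  have hp0 : 0 < p := by linarith
  obtain ⟨a', haa, ha'⟩ : ∃ a' : ℝ, a < a' ∧ p * a' < 1 + (p - 1) * y := by
    refine ⟨a + (1 + (p - 1) * y - p * a) / (2 * p), ?_, ?_⟩
    · have : 0 < (1 + (p - 1) * y - p * a) / (2 * p) := div_pos (by linarith) (by linarith)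
      linarith
    · have h1 : p * (a + (1 + (p - 1) * y - p * a) / (2 * p)) =
          p * a + (1 + (p - 1) * y - p * a) / 2 := by
        field_simp
      rw [h1]
      linarith
  obtain ⟨Q0, N₁, hluck⟩ : ∃ Q0 : ℝ, ∃ N₁ : ℕ, ∀ N : ℕ, N₁ ≤ N → (y = 0 ∨ (N : ℝ) ^ (-Q0) ≤
      (law d ρ).real {η | N * lam ρ β h + (N : ℝ) ^ y / 8 ≤ X β h η N}) := by
    rcases hlu with h0 | ⟨q, -, N₁, hN₁⟩
    · exact ⟨0, 0, fun N _ => Or.inl h0⟩
    · refine ⟨q, N₁, fun N hN => Or.inr ((hN₁ N hN).trans ?_)⟩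
      refine measureReal_mono (fun η hη => ?_)
      have h1 : N * lam ρ β h + (N : ℝ) ^ y ≤ X β h η N := hη
      have h2 : 0 ≤ (N : ℝ) ^ y := Real.rpow_nonneg (Nat.cast_nonneg N) _
      change N * lam ρ β h + (N : ℝ) ^ y / 8 ≤ X β h η N
      linarith
  obtain ⟨q₀, hq₀, N₀, H⟩ := lkT68 hS hT (h := h) (v := v) (p := p) (a := a') (y := y) Q0 hp hlo ha'
  obtain ⟨q, hq⟩ := exists_nat_ge q₀
  have ev : ∀ᶠ N : ℕ in atTop, (3 : ℝ) ^ a' ≤ (N : ℝ) ^ (a' - a) :=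
    ((tendsto_rpow_atTop (by linarith : 0 < a' - a)).comp
      tendsto_natCast_atTop_atTop).eventually_ge_atTop _
  refine ⟨q, ?_⟩
  filter_upwards [ev, eventually_ge_atTop (2 * (N₀ + N₁) + 3)] with M hM hMbig
  have hM0 : (0 : ℝ) < M := by exact_mod_cast (show 0 < M by omega)
  have hM1 : (1 : ℝ) ≤ M := by exact_mod_cast (show 1 ≤ M by omega)
  obtain ⟨N, hN⟩ : ∃ N : ℕ, N = M / 2 := ⟨_, rfl⟩
  have hN2 : 2 * N ≤ M := by omega
  have hN3 : M ≤ 3 * N := by omega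
  have hN0' : 1 ≤ N := by omega
  obtain ⟨n, hn1, hn2, hn3⟩ := H N (by omega) (hluck N (by omega))
  refine ⟨n, by omega, ?_⟩
  have hNr : (0 : ℝ) < N := by exact_mod_cast hN0'
  have c1 : (M : ℝ) ^ (-(q : ℝ)) ≤ (N : ℝ) ^ (-q₀) := by
    calc (M : ℝ) ^ (-(q : ℝ)) ≤ (M : ℝ) ^ (-q₀) :=
          Real.rpow_le_rpow_of_exponent_le hM1 (by linarith)
      _ ≤ (N : ℝ) ^ (-q₀) :=
          Real.rpow_le_rpow_of_nonpos hNr (by exact_mod_cast (show N ≤ M by omega)) (by linarith)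
  refine c1.trans (hn3.trans ?_)
  have hrad : (M : ℝ) ^ a ≤ (n : ℝ) ^ a' := by
    have h1 : (M : ℝ) ≤ 3 * n := by exact_mod_cast (show M ≤ 3 * n by omega)
    have h2 : (M : ℝ) ^ a' ≤ (3 : ℝ) ^ a' * (n : ℝ) ^ a' := by
      rw [← Real.mul_rpow (by norm_num) (Nat.cast_nonneg n)]
      exact Real.rpow_le_rpow hM0.le h1 (by linarith)
    have h3 : (M : ℝ) ^ a' = (M : ℝ) ^ a * (M : ℝ) ^ (a' - a) := by
      rw [← Real.rpow_add hM0]
      congr 1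
      ring
    have h4 : (M : ℝ) ^ a * (3 : ℝ) ^ a' ≤ (M : ℝ) ^ a * (M : ℝ) ^ (a' - a) :=
      mul_le_mul_of_nonneg_left hM (Real.rpow_nonneg hM0.le _)
    have h5 : (0 : ℝ) < (3 : ℝ) ^ a' := Real.rpow_pos_of_pos (by norm_num) _
    have h6 : (3 : ℝ) ^ a' * (M : ℝ) ^ a ≤ (3 : ℝ) ^ a' * (n : ℝ) ^ a' := by
      rw [mul_comm ((3 : ℝ) ^ a') ((M : ℝ) ^ a)]
      linarith
    exact le_of_mul_le_mul_left h6 h5
  refine integral_mono_of_nonneg (Eventually.of_forall fun η => ?_) ?_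
    (Eventually.of_forall fun η => ?_)
  · exact sub_nonneg.2 (PolT_le_one β h η _)
  · refine Integrable.mono' (integrable_const (1 : ℝ))
      ((measurable_PolT β h _).const_sub 1).aestronglyMeasurable
      (Eventually.of_forall fun η => ?_)
    have h5 := PolT_le_one β h η (tube d n v ((M : ℝ) ^ a))
    have h6 := PolT_nonneg β h η (tube d n v ((M : ℝ) ^ a))
    rw [Real.norm_eq_abs, abs_of_nonneg (by linarith)]
    linarith
  · refine sub_le_sub_left (PolT_mono β h η fun s hs i hi => ?_) 1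
    exact (hs i hi).trans hrad

end Pool.Agent.W_7d29a1_PK
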