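import Pool.Agent.W_7d29a1_PK.Main83
import Pool.Agent.W_7d29a1_PK.DefsLK5
import Pool.Agent.W_7d29a1_PK.Let63

/-!
Theorem LK, the first half: at every scale the polymer leaves the slab (the tube), with the upper
quantile of the free energy at this scale (helper63).
-/

set_option autoImplicit false

namespace Pool.Agent.W_7d29a1_PK

open MeasureTheory ProbabilityTheory Filter Topology Pool.Agent.W_MP_7d29a1_pr
  Pool.Agent.W_7d29a1_h46 Pool.Agent.W_7d29a1_h46u Pool.Agent.W_7d29a1_D2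
  Pool.Agent.W_7d29a1_D2.B35 Pool.Agent.W_7d29a1_Q29 Pool.Agent.W_7d29a1_R34
  Pool.Agent.W_7d29a1_SP Pool.Agent.W_7d29a1_V

namespace L63

open M83

variable {d : ℕ} {ρ : Measure ℝ} {β : ℝ}

/-- The core of the first half, every scale. -/
theorem core [IsProbabilityMeasure ρ] (hS : StpPK d ρ β) (hTl : TailPK d ρ β) {h : Vec d}
    {K p a y c0 δ Q0 : ℝ} (hK : ‖h‖ ≤ K) (hp : 1 ≤ p) (hy : 0 ≤ y) (hc0 : 0 < c0) (hδ : 0 < δ)
    (G : ℕ → ℝ)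
    (hloc : ∀ t : ℝ, 0 < t → t ≤ δ → ∃ (r : Vec d) (σ : ℝ), ‖r‖ ≤ 1 ∧ |σ| ≤ K ∧
      c0 * t ^ p ≤ lam ρ β (h + r) - lam ρ β h - σ ∧
        ∀ n : ℕ, Ex ρ β h r σ n (t * (n : ℝ) ^ a) ≤ G n)
    (hbig : ∃ N₀ : ℕ, ∀ N : ℕ, N₀ ≤ N → (y = 0 ∨ (N : ℝ) ^ (-Q0) ≤
      (law d ρ).real {η | N * lam ρ β h + (N : ℝ) ^ y / 8 ≤ X β h η N}))
    (hcon : p * a < 1 + (p - 1) * y) :
    ∃ q₀ : ℝ, 0 < q₀ ∧ ∃ N₀ : ℕ, ∀ N : ℕ, N₀ ≤ N → ∃ n : ℕ, N ≤ n ∧ n ≤ 2 * N ∧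
      (N : ℝ) ^ (-q₀) ≤ G n := by
  have hp0 : 0 < p := by linarith
  obtain ⟨q, c, C, hq, hc, hC, hS⟩ := hS K
  have hC0 : 0 < C := by linarith
  set Q := max q Q0 with hQ
  have hQq : q ≤ Q := le_max_left _ _
  have hQ0 : 0 < Q := lt_of_lt_of_le hq hQq
  obtain ⟨q₀, hq₀, N₀, hS⟩ := hS Q 0 hQ0 le_rfl
  obtain ⟨N₁, hTl⟩ := hTl h (Q + 1) (1 / 4) (by norm_num)
  have ev1 : ∀ᶠ N : ℕ in atTop, C * 2 ^ |a * p| * (N : ℝ) ^ (a * p) ≤
      c0 * c ^ p * (1 / 8) ^ (p - 1) * (N : ℝ) ^ (1 + y * (p - 1)) :=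
    ev_pow (by positivity) (by nlinarith)
  have ev2 : ∀ᶠ N : ℕ in atTop, 3 * C * (N : ℝ) ^ (3 / 4 : ℝ) ≤ c0 * δ ^ p * (N : ℝ) ^ (1 : ℝ) :=
    ev_pow (by positivity) (by norm_num)
  obtain ⟨N₂, hN₂⟩ := Filter.eventually_atTop.1 (ev1.and ev2)
  obtain ⟨N₃, hluck⟩ := hbig
  refine ⟨q₀, hq₀, N₀ + N₁ + N₂ + N₃ + 3, fun N hNbig => ?_⟩
  have hluck := hluck N (by omega)
  obtain ⟨hev1, hev2⟩ := hN₂ N (by omega)
  have hN3 : 3 ≤ N := by omega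
  have hN3' : (3 : ℝ) ≤ N := by exact_mod_cast hN3
  have hN0 : (0 : ℝ) < N := by linarith
  have hlog1 : 1 ≤ Real.log N := by
    rw [Real.le_log_iff_exp_le hN0]
    have := Real.exp_one_lt_d9
    linarith
  have hlog2 : Real.log N ≤ 2 * (N : ℝ) ^ (3 / 4 : ℝ) := by
    have h1 := Real.log_le_rpow_div hN0.le (show (0 : ℝ) < 3 / 4 by norm_num)
    have h2 : 0 ≤ (N : ℝ) ^ (3 / 4 : ℝ) := by positivity
    rw [div_eq_mul_inv] at h1
    nlinarith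
  -- the quantile
  have hTail := hTl N (by omega)
  rw [show (1 / 2 + 1 / 4 : ℝ) = 3 / 4 by norm_num] at hTail
  have hTail' : (law d ρ).real {η | N * lam ρ β h + (N : ℝ) ^ (3 / 4 : ℝ) ≤ X β h η N} <
      (N : ℝ) ^ (-Q) := by
    refine lt_of_le_of_lt hTail ?_
    exact Real.rpow_lt_rpow_of_exponent_lt (by linarith) (by linarith)
  obtain ⟨u, hu0, huT, hu1, hu2, hu3⟩ := quant (law d ρ) (fun η => X β h η N)
    (by positivity) hTail'
  set w := u + Real.log N with hw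
  have hw1 : 1 ≤ w := by linarith
  have hw0 : 0 < w := by linarith
  have hwbig : (N : ℝ) ^ y / 8 ≤ w := by
    rcases hluck with h0 | h1
    · rw [h0, Real.rpow_zero]; linarith
    · have h2 : (N : ℝ) ^ (-Q) ≤ (N : ℝ) ^ (-Q0) :=
        Real.rpow_le_rpow_of_exponent_le (by linarith) (by
          have := le_max_right q Q0
          linarith)
      have := hu3 _ (by positivity) (h2.trans h1)
      linarith
  have hw3 : w ≤ 3 * (N : ℝ) ^ (3 / 4 : ℝ) := by linarith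
  -- the tilt
  set t := (C * w / (c0 * N)) ^ (1 / p) with ht
  have hbase : 0 < C * w / (c0 * N) := by positivity
  have ht0 : 0 < t := Real.rpow_pos_of_pos hbase _
  have htp : t ^ p = C * w / (c0 * N) := by
    rw [ht, ← Real.rpow_mul hbase.le, one_div, inv_mul_cancel₀ hp0.ne', Real.rpow_one]
  have htδ : t ≤ δ := by
    rw [← Real.rpow_le_rpow_iff ht0.le hδ.le hp0, htp, div_le_iff₀ (by positivity)]
    rw [Real.rpow_one] at hev2
    calc C * w ≤ C * (3 * (N : ℝ) ^ (3 / 4 : ℝ)) := by gcongr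
      _ = 3 * C * (N : ℝ) ^ (3 / 4 : ℝ) := by ring
      _ ≤ c0 * δ ^ p * N := hev2
      _ = δ ^ p * (c0 * N) := by ring
  obtain ⟨r, σ, hr, hσ, hlow, hEx⟩ := hloc t ht0 htδ
  have hgap : C * (u + Real.log N) ≤ N * (lam ρ β (h + r) - lam ρ β h - σ) := by
    rw [htp] at hlow
    calc C * (u + Real.log N) = N * (c0 * (C * w / (c0 * N))) := by
          rw [← hw]; field_simp
      _ ≤ _ := by gcongr
  obtain ⟨n, hn1, hn2, hn3⟩ := hS N (by omega) h r σ hK hr hσ u hu0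
    (hu1.trans (Real.rpow_le_rpow_of_exponent_le (by linarith) (by linarith)))
    (by
      rcases hu2 with h0 | h1
      · left; rw [h0]; simp
      · exact Or.inr h1) hgap
  have hn1' : (N : ℝ) ≤ n := by exact_mod_cast hn1
  have hn2' : (n : ℝ) ≤ 2 * N := by exact_mod_cast hn2
  have hwid : t * (n : ℝ) ^ a ≤ c * w :=
    width hp hc hC0 hc0 (by linarith) hn1' hn2' hwbig ht0 htp hev1
  exact ⟨n, hn1, hn2, hn3.trans ((Ex_anti h r σ n hwid).trans (hEx n))⟩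

end L63

/-- **LK, first half, tubes**: if the mass of the upper deviations of order `N ^ y` is polynomial at
all large lengths `N`, the polymer leaves the tube of radius `n ^ a` with a polynomial probability at
some length `n` of every large window `[N, 2 N]`. -/
theorem lowLT63 {d : ℕ} {ρ : Measure ℝ} [IsProbabilityMeasure ρ] {β : ℝ} (hS : StpPK d ρ β)
    (hTl : TailPK d ρ β) {h v : Vec d} {p a y Q0 : ℝ} (hp : 1 ≤ p) (hL : LoA (lam ρ β) h v p)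
    (hy : 0 ≤ y)
    (hbig : y = 0 ∨ ∃ N₀ : ℕ, ∀ N : ℕ, N₀ ≤ N → (N : ℝ) ^ (-Q0) ≤
      (law d ρ).real {η | N * lam ρ β h + (N : ℝ) ^ y / 8 ≤ X β h η N})
    (hcon : p * a < 1 + (p - 1) * y) :
    ∃ q₀ : ℝ, 0 < q₀ ∧ ∃ N₀ : ℕ, ∀ N : ℕ, N₀ ≤ N → ∃ n : ℕ, N ≤ n ∧ n ≤ 2 * N ∧
      (N : ℝ) ^ (-q₀) ≤ ∫ η, (1 - PolT β h η (tube d n v ((n : ℝ) ^ a))) ∂(law d ρ) := by
  obtain ⟨c0, hc0, δ, hδ, hL⟩ := hL
  refine L63.core (K := max ‖h‖ ‖v‖) (δ := min δ 1) hS hTl (le_max_left _ _) hp hy hc0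
    (lt_min hδ one_pos) (fun n => ∫ η, (1 - PolT β h η (tube d n v ((n : ℝ) ^ a))) ∂(law d ρ))
    ?_ ?_ hcon (Q0 := Q0)
  · intro t ht ht2
    obtain ⟨r, hr, hg⟩ := hL t ht (ht2.trans (min_le_left _ _))
    refine ⟨r, inner ℝ v r, by rw [hr]; exact ht2.trans (min_le_right _ _), ?_, hg, ?_⟩
    · have h1 := abs_real_inner_le_norm v r
      have h2 : ‖r‖ ≤ 1 := by rw [hr]; exact ht2.trans (min_le_right _ _)
      have h3 : ‖v‖ ≤ max ‖h‖ ‖v‖ := le_max_right _ _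
      nlinarith [norm_nonneg v]
    · intro n
      refine M83.out_mono h n fun s hs i hi => ?_
      have h1 : inner ℝ r (emb (pos s i)) - i * inner ℝ v r =
          inner ℝ r (emb (pos s i) - (i : ℝ) • v) := by
        rw [inner_sub_right, inner_smul_right, real_inner_comm v r]
      rw [h1]
      refine (abs_real_inner_le_norm _ _).trans ?_
      rw [hr]
      exact mul_le_mul_of_nonneg_left (hs i hi) ht.le
  · rcases hbig with h0 | ⟨N₀, hN⟩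
    · exact ⟨0, fun N _ => Or.inl h0⟩
    · exact ⟨N₀, fun N h1 => Or.inr (hN N h1)⟩

/-- **Leaf LOWL.** -/
theorem lowL63 {d : ℕ} {ρ : Measure ℝ} [IsProbabilityMeasure ρ] {β : ℝ} (hS : StpPK d ρ β)
    (hTl : TailPK d ρ β) : LowL d ρ β := by
  intro h v p a y hp ha hy hL hluck hcon
  have hp0 : 0 < p := by linarith
  -- a larger exponent
  have h1 : a < (1 + (p - 1) * y) / p := by
    rw [lt_div_iff₀ hp0]
    linarith
  obtain ⟨b, hab, hb⟩ := exists_between h1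
  rw [lt_div_iff₀ hp0] at hb
  have hbig : ∃ Q0 : ℝ, y = 0 ∨ ∃ N₀ : ℕ, ∀ N : ℕ, N₀ ≤ N → (N : ℝ) ^ (-Q0) ≤
      (law d ρ).real {η | N * lam ρ β h + (N : ℝ) ^ y / 8 ≤ X β h η N} := by
    rcases hluck with h0 | ⟨q, _, N₀, hN₀⟩
    · exact ⟨0, Or.inl h0⟩
    · refine ⟨q, Or.inr ⟨N₀, fun N hN => (hN₀ N hN).trans (measureReal_mono ?_ (by finiteness))⟩⟩
      intro η hη
      have h2 : 0 ≤ (N : ℝ) ^ y := Real.rpow_nonneg (Nat.cast_nonneg N) y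
      simp only [Set.mem_setOf_eq] at hη ⊢
      linarith
  obtain ⟨Q0, hbig⟩ := hbig
  obtain ⟨q₀, hq₀, N₀, hN₀⟩ := lowLT63 hS hTl hp hL hy hbig (by linarith : p * b < 1 + (p - 1) * y)
  have hlim : Tendsto (fun N : ℕ => (N : ℝ) ^ (b - a)) atTop atTop :=
    (tendsto_rpow_atTop (by linarith)).comp tendsto_natCast_atTop_atTop
  refine ⟨⌈q₀⌉₊, ?_⟩
  filter_upwards [hlim.eventually_ge_atTop ((3 : ℝ) ^ b), eventually_ge_atTop (2 * N₀ + 2)]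
    with N hN1 hN2
  have hNp : (1 : ℝ) ≤ N := by exact_mod_cast (show 1 ≤ N by omega)
  have hN0 : (0 : ℝ) < N := by linarith
  obtain ⟨n, hn1, hn2, hn3⟩ := hN₀ (N / 2) (by omega)
  have hM1 : (1 : ℝ) ≤ ((N / 2 : ℕ) : ℝ) := by exact_mod_cast (show 1 ≤ N / 2 by omega)
  have hM2 : ((N / 2 : ℕ) : ℝ) ≤ N := by exact_mod_cast (show N / 2 ≤ N by omega)
  have hb0 : 0 < b := ha.trans hab
  refine ⟨n, by omega, ?_⟩
  have hn4 : (N : ℝ) / 3 ≤ n := by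
    have : N ≤ 3 * n := by omega
    have : (N : ℝ) ≤ 3 * n := by exact_mod_cast this
    linarith
  have hrad : (N : ℝ) ^ a ≤ (n : ℝ) ^ b := by
    have h5 : ((N : ℝ) / 3) ^ b ≤ (n : ℝ) ^ b := Real.rpow_le_rpow (by positivity) hn4 hb0.le
    refine le_trans ?_ h5
    rw [Real.div_rpow hN0.le (by norm_num), le_div_iff₀ (by positivity)]
    have h6 : (N : ℝ) ^ b = (N : ℝ) ^ a * (N : ℝ) ^ (b - a) := by
      rw [← Real.rpow_add hN0]
      congr 1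
      ring
    rw [h6]
    exact mul_le_mul_of_nonneg_left hN1 (Real.rpow_nonneg hN0.le a)
  have h7 : (N : ℝ) ^ (-((⌈q₀⌉₊ : ℕ) : ℝ)) ≤ ((N / 2 : ℕ) : ℝ) ^ (-q₀) := by
    have h8 : (N : ℝ) ^ (-((⌈q₀⌉₊ : ℕ) : ℝ)) ≤ (N : ℝ) ^ (-q₀) :=
      Real.rpow_le_rpow_of_exponent_le hNp (neg_le_neg (Nat.le_ceil q₀))
    exact h8.trans (Real.rpow_le_rpow_of_nonpos (by linarith) hM2 (by linarith))
  exact (h7.trans hn3).trans (L63.tub_anti63 h v n hrad)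

end Pool.Agent.W_7d29a1_PK
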