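import Pool.Agent.W_7d29a1_PK.Bon81
import Pool.Agent.W_7d29a1_PK.DefsLK5

/-!
THEOREM LK, leaf LOWL (helper81).
-/

set_option autoImplicit false

namespace Pool.Agent.W_7d29a1_PK

open MeasureTheory ProbabilityTheory Filter Topology Pool.Agent.W_MP_7d29a1_pr
  Pool.Agent.W_7d29a1_h46 Pool.Agent.W_7d29a1_h46u Pool.Agent.W_7d29a1_D2
  Pool.Agent.W_7d29a1_D2.B35 Pool.Agent.W_7d29a1_Q29 Pool.Agent.W_7d29a1_R34
  Pool.Agent.W_7d29a1_SP Pool.Agent.W_7d29a1_V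

open B81

variable {d : ℕ} {ρ : Measure ℝ} [IsProbabilityMeasure ρ] {β : ℝ}

/-- **LOWL.** -/
theorem lowL81 (hS : StpPK d ρ β) (hU : UplPK d ρ β) (hT : TailPK d ρ β) : LowL d ρ β := by
  intro h v p a y hp ha hy hLo hLu hpa
  obtain ⟨qy, hqy, NV, V⟩ : ∃ q : ℝ, 0 < q ∧ ∃ N₀ : ℕ, ∀ N : ℕ, N₀ ≤ N → y = 0 ∨
      (N : ℝ) ^ (-q) ≤ (law d ρ).real {η | N * lam ρ β h + (N : ℝ) ^ y ≤ X β h η N} := by
    rcases hLu with h0 | ⟨q, hq, N₀, h1⟩
    · exact ⟨1, one_pos, 0, fun N _ => Or.inl h0⟩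
    · exact ⟨q, hq, N₀, fun N hN => Or.inr (h1 N hN)⟩
  have hv0 := norm_nonneg v
  obtain ⟨c, C, q₀, k, hc, hC, hq₀, hk⟩ := use81 hS hU hT h (K := ‖h‖ + ‖v‖) (by linarith)
    (Q := qy + 1) (by linarith)
  obtain ⟨c₀, hc₀, δ, hδ, hdir⟩ := hLo
  obtain ⟨e, he⟩ : ∃ e : ℝ, e = min δ 1 := ⟨_, rfl⟩
  have he0 : 0 < e := by rw [he]; exact lt_min hδ one_pos
  have heδ : e ≤ δ := by rw [he]; exact min_le_left _ _
  have he1 : e ≤ 1 := by rw [he]; exact min_le_right _ _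
  have hp0 : 0 < p := by linarith
  obtain ⟨G, hG⟩ : ∃ G : ℝ, G = C * 3 ^ (a * p) / (c₀ * c ^ p) := ⟨_, rfl⟩
  have hG0 : 0 < G := by rw [hG]; positivity
  have hmain : ∀ᶠ M : ℕ in atTop, 1 ≤ M ∧ ∀ N : ℕ, M ≤ N → N ≤ 3 * M →
      ∃ n : ℕ, n ≤ 2 * M ∧ (M : ℝ) ^ (-q₀) ≤
        ∫ η, (1 - PolT β h η (tube d n v ((N : ℝ) ^ a))) ∂(law d ρ) := by
    filter_upwards [hk, evl81 1, eventually_ge_atTop NV,
      evp81 (show (0 : ℝ) < 1 / 4 by norm_num) (4 * C / (c₀ * e ^ p)),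
      evlp81 (show (0 : ℝ) < 3 / 4 by norm_num) one_pos,
      evp81 (show 0 < y * (p - 1) - (a * p - 1) by linarith) G] with M h1 h2 h3 h4 h5 h6
    obtain ⟨a1, a2, a3, a4, a5⟩ := h1
    obtain ⟨b2, b3⟩ := h2
    refine ⟨by omega, fun N hMN hN => ?_⟩
    have hM3 : (3 : ℝ) ≤ M := by exact_mod_cast b2
    have hM0 : (0 : ℝ) < M := by linarith
    have hN' : (N : ℝ) ≤ 3 * M := by exact_mod_cast hN
    rw [one_mul] at h5
    obtain ⟨Y, hY⟩ : ∃ Y : ℝ, Y = k M + Real.log M := ⟨_, rfl⟩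
    have hY1 : 1 ≤ Y := by rw [hY]; linarith
    have hY0 : 0 < Y := by linarith
    have hY4 : Y ≤ 4 * (M : ℝ) ^ (3 / 4 : ℝ) := by rw [hY]; linarith
    have hYy : (M : ℝ) ^ y ≤ Y := by
      rcases V M h3 with h0 | h7
      · rw [h0, Real.rpow_zero]
        exact hY1
      · have h8 : (M : ℝ) ^ y ≤ k M := by
          by_contra hcon
          rw [not_le] at hcon
          have h9 : (law d ρ).real {η | M * lam ρ β h + (M : ℝ) ^ y ≤ X β h η M} ≤
              (law d ρ).real {η | M * lam ρ β h + k M < X β h η M} := by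
            refine measureReal_mono fun η hη => ?_
            have h4 : M * lam ρ β h + (M : ℝ) ^ y ≤ X β h η M := hη
            show M * lam ρ β h + k M < X β h η M
            linarith
          have h10 := (h7.trans h9).trans a4
          have h11 : (M : ℝ) ^ (-(qy + 1)) < (M : ℝ) ^ (-qy) :=
            Real.rpow_lt_rpow_of_exponent_lt (by linarith) (by linarith)
          linarith
        rw [hY]
        linarith
    -- the scale of the tilt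
    obtain ⟨T, hT'⟩ : ∃ T : ℝ, T = C * Y / (c₀ * M) := ⟨_, rfl⟩
    have hT0 : 0 < T := by rw [hT']; positivity
    have hTe : T ≤ e ^ p := by
      have h7 : (M : ℝ) = (M : ℝ) ^ (1 / 4 : ℝ) * (M : ℝ) ^ (3 / 4 : ℝ) := by
        rw [← Real.rpow_add hM0, show (1 / 4 + 3 / 4 : ℝ) = 1 by norm_num, Real.rpow_one]
      have h8 : 0 < (M : ℝ) ^ (3 / 4 : ℝ) := Real.rpow_pos_of_pos hM0 _
      have hep : 0 < e ^ p := Real.rpow_pos_of_pos he0 _
      rw [div_le_iff₀ (by positivity)] at h4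
      rw [hT', div_le_iff₀ (by positivity)]
      calc C * Y ≤ C * (4 * (M : ℝ) ^ (3 / 4 : ℝ)) :=
            mul_le_mul_of_nonneg_left hY4 (by linarith)
        _ = 4 * C * (M : ℝ) ^ (3 / 4 : ℝ) := by ring
        _ ≤ (M : ℝ) ^ (1 / 4 : ℝ) * (c₀ * e ^ p) * (M : ℝ) ^ (3 / 4 : ℝ) :=
            mul_le_mul_of_nonneg_right h4 h8.le
        _ = e ^ p * (c₀ * ((M : ℝ) ^ (1 / 4 : ℝ) * (M : ℝ) ^ (3 / 4 : ℝ))) := by ring
        _ = e ^ p * (c₀ * M) := by rw [← h7]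
    obtain ⟨t, ht⟩ : ∃ t : ℝ, t = T ^ (1 / p) := ⟨_, rfl⟩
    have ht0 : 0 < t := by rw [ht]; positivity
    have htp : t ^ p = T := by
      rw [ht, ← Real.rpow_mul hT0.le, one_div, inv_mul_cancel₀ hp0.ne', Real.rpow_one]
    have hte : t ≤ e := by
      rw [← htp] at hTe
      exact (Real.rpow_le_rpow_iff ht0.le he0.le hp0).1 hTe
    obtain ⟨r, hr1, hr2⟩ := hdir t ht0 (hte.trans heδ)
    have hr : ‖r‖ ≤ 1 := by rw [hr1]; exact hte.trans he1
    have hσ : |(inner ℝ v r : ℝ)| ≤ ‖h‖ + ‖v‖ := by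
      have h1 := abs_real_inner_le_norm v r
      have h2 : ‖v‖ * ‖r‖ ≤ ‖v‖ * 1 := mul_le_mul_of_nonneg_left hr hv0
      have h3 := norm_nonneg h
      linarith
    obtain ⟨n, hn1, hn2, hn3⟩ := a5 r (inner ℝ v r) hr hσ (by
      rw [← hY]
      unfold gap at hr2
      have h7 : C * Y = M * (c₀ * t ^ p) := by
        rw [htp, hT']
        field_simp
      rw [h7]
      exact mul_le_mul_of_nonneg_left hr2 hM0.le)
    refine ⟨n, hn2, hn3.trans ?_⟩
    rw [← hY]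
    refine exT81 h v r n ?_
    rw [hr1]
    -- the radius
    have h7 : (t * (N : ℝ) ^ a) ^ p ≤ (c * Y) ^ p := by
      have h8 : (N : ℝ) ^ (a * p) ≤ 3 ^ (a * p) * (M : ℝ) ^ (a * p) := by
        rw [← Real.mul_rpow (by norm_num) hM0.le]
        exact Real.rpow_le_rpow (Nat.cast_nonneg _) hN' (by positivity)
      have h9 : G * (M : ℝ) ^ (a * p - 1) ≤ Y ^ (p - 1) := by
        have h10 : (M : ℝ) ^ (y * (p - 1)) ≤ Y ^ (p - 1) := by
          rw [Real.rpow_mul hM0.le]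
          exact Real.rpow_le_rpow (Real.rpow_nonneg hM0.le _) hYy (by linarith)
        refine le_trans ?_ h10
        have h11 : (M : ℝ) ^ (y * (p - 1)) =
            (M : ℝ) ^ (y * (p - 1) - (a * p - 1)) * (M : ℝ) ^ (a * p - 1) := by
          rw [← Real.rpow_add hM0]
          congr 1
          ring
        rw [h11]
        exact mul_le_mul_of_nonneg_right h6 (Real.rpow_nonneg hM0.le _)
      have hcp : 0 < c ^ p := Real.rpow_pos_of_pos hc _
      rw [Real.mul_rpow ht0.le (Real.rpow_nonneg (Nat.cast_nonneg _) _), htp,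
        ← Real.rpow_mul (Nat.cast_nonneg _), Real.mul_rpow hc.le hY0.le]
      have h12 : (M : ℝ) ^ (a * p) = (M : ℝ) ^ (a * p - 1) * M := by
        rw [← Real.rpow_add_one hM0.ne', sub_add_cancel]
      have h13 : Y ^ p = Y ^ (p - 1) * Y := by
        rw [← Real.rpow_add_one hY0.ne', sub_add_cancel]
      calc T * (N : ℝ) ^ (a * p) ≤ T * (3 ^ (a * p) * (M : ℝ) ^ (a * p)) :=
            mul_le_mul_of_nonneg_left h8 hT0.le
        _ = c ^ p * (G * (M : ℝ) ^ (a * p - 1)) * Y := by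
            rw [hT', h12, hG]
            field_simp
        _ ≤ c ^ p * Y ^ (p - 1) * Y :=
            mul_le_mul_of_nonneg_right (mul_le_mul_of_nonneg_left h9 hcp.le) hY0.le
        _ = c ^ p * Y ^ p := by rw [h13]; ring
    exact (Real.rpow_le_rpow_iff (by positivity) (by positivity) hp0).1 h7
  obtain ⟨M₀, hM₀⟩ := Filter.eventually_atTop.1 hmain
  refine ⟨⌈q₀⌉₊, ?_⟩
  filter_upwards [eventually_ge_atTop (2 * M₀ + 2)] with N hN
  obtain ⟨h1, h2⟩ := hM₀ (N / 2) (by omega)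
  obtain ⟨n, hn, h3⟩ := h2 N (by omega) (by omega)
  refine ⟨n, by omega, le_trans ?_ h3⟩
  have hM1 : (1 : ℝ) ≤ ((N / 2 : ℕ) : ℝ) := by exact_mod_cast h1
  have hMN : ((N / 2 : ℕ) : ℝ) ≤ N := by exact_mod_cast Nat.div_le_self N 2
  have hN1 : (1 : ℝ) ≤ N := hM1.trans hMN
  calc (N : ℝ) ^ (-((⌈q₀⌉₊ : ℕ) : ℝ)) ≤ (N : ℝ) ^ (-q₀) :=
        Real.rpow_le_rpow_of_exponent_le hN1 (neg_le_neg (Nat.le_ceil q₀))
    _ ≤ ((N / 2 : ℕ) : ℝ) ^ (-q₀) := by
        rw [Real.rpow_neg (by linarith), Real.rpow_neg (by linarith)]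
        exact inv_anti₀ (Real.rpow_pos_of_pos (by linarith) _)
          (Real.rpow_le_rpow (by linarith) hMN hq₀.le)

end Pool.Agent.W_7d29a1_PK
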