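import Pool.Agent.W_7d29a1_PK.LoT33
import Pool.Agent.W_7d29a1_D2.JoinM97
import Pool.Agent.W_7d29a1_D2.Blk35

/-!
The upper tail at the length `N` bounds the upper tails at the lengths `l ≤ N` (block (1) of
theorem PK, helper33).
-/

set_option autoImplicit false

namespace Pool.Agent.W_7d29a1_PK

open MeasureTheory ProbabilityTheory Filter Topology Pool.Agent.W_MP_7d29a1_pr
  Pool.Agent.W_7d29a1_h46 Pool.Agent.W_7d29a1_h46u Pool.Agent.W_7d29a1_D2
  Pool.Agent.W_7d29a1_D2.B35
  Pool.Agent.W_7d29a1_Q29 Pool.Agent.W_7d29a1_R34 Pool.Agent.W_7d29a1_SP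

/-- One step: from a lower bound of the probability at the length `n`. -/
theorem up133 {d : ℕ} (hd : 0 < d) {ρ : Measure ℝ} [IsProbabilityMeasure ρ] (β : ℝ) (h : Vec d)
    (l n : ℕ) {p L u : ℝ} (hp : p ≤ (law d ρ).real {η | n * L - 1 ≤ X β h η n}) :
    p * (law d ρ).real {η | l * L + u + 2 + Real.log ((boxF d l).card) < X β h η l} ≤
      (law d ρ).real {η | ((l + n : ℕ) : ℝ) * L + u < X β h η (l + n)} := by
  classical
  have hcard : 0 < (boxF d l).card := by
    rw [card_boxF]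
    positivity
  have hcR : (0 : ℝ) < (boxF d l).card := by exact_mod_cast hcard
  set S : Set (ℕ × Site d) := {p | p.1 ≤ l} with hS
  set A : Site d → Set (Env d) := fun z => {η | Real.exp (l * L + u + 2) ≤ wz97 β h η l z} with hA
  set B : Site d → Set (Env d) := fun z => {η | Real.exp (n * L - 1) ≤ Z β h (sh l z η) n} with hB
  have hAe : ∀ z ∈ boxF d l, Ev97 S (A z) := fun z _ =>
    ev97_ge (measurable_wz97 β h l z) (dependsOn_wz97 β h l z) _
  have hBe : ∀ z ∈ boxF d l, Ev97 Sᶜ (B z) ∧ p ≤ (law d ρ).real (B z) := by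
    intro z _
    refine ⟨ev97_ge ((measurable_Z β h n).comp (measurable_sh l z)) ?_ _, ?_⟩
    · intro η η' hη
      refine dependsOn_Z β h n fun q hq => ?_
      refine hη _ ?_
      show ¬ (q.1 + l ≤ l)
      have := hq.1
      omega
    · have hm : MeasurableSet {η : Env d | Real.exp (n * L - 1) ≤ Z β h η n} :=
        measurableSet_le measurable_const (measurable_Z β h n)
      have h1 : (law d ρ).real (B z) = (law d ρ).real {η | Real.exp (n * L - 1) ≤ Z β h η n} :=
        (mp_sh (ρ := ρ) l z).measureReal_preimage hm.nullMeasurableSet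
      rw [h1]
      refine hp.trans (measureReal_mono fun η hη => ?_)
      have h2 : n * L - 1 ≤ X β h η n := hη
      show Real.exp (n * L - 1) ≤ Z β h η n
      rw [TubV_exp hd]
      exact Real.exp_le_exp.2 h2
  have h1 := first97 (ρ := ρ) (boxF d l) hAe hBe Set.univ
    ⟨MeasurableSet.univ, fun _ _ _ => Iff.rfl⟩
  rw [Set.univ_inter, Set.univ_inter] at h1
  have hp0 : 0 ≤ p ∨ p < 0 := le_or_gt 0 p
  rcases hp0 with hp0 | hp0
  · refine le_trans (mul_le_mul_of_nonneg_left (measureReal_mono (fun η hη => ?_)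
      (measure_ne_top _ _)) hp0) (h1.trans (measureReal_mono (fun η hη => ?_)
      (measure_ne_top _ _)))
    · -- some site carries a large weight
      have h2 : l * L + u + 2 + Real.log ((boxF d l).card) < X β h η l := hη
      simp only [Set.mem_iUnion, exists_prop]
      by_contra hcon
      push Not at hcon
      have h3 : Z β h η l ≤ (boxF d l).card * Real.exp (l * L + u + 2) := by
        rw [Z_eq_sum]
        refine (Finset.sum_le_card_nsmul _ _ _ fun z hz => ?_).trans (le_of_eq (nsmul_eq_mul _ _))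
        exact (not_le.1 (hcon z hz)).le
      have h4 : Real.log (Z β h η l) ≤ l * L + u + 2 + Real.log ((boxF d l).card) := by
        refine (Real.log_le_log (Z_pos hd β h η l) h3).trans (le_of_eq ?_)
        rw [Real.log_mul hcR.ne' (Real.exp_pos _).ne', Real.log_exp]
        ring
      exact absurd h2 (not_lt.2 h4)
    · simp only [Set.mem_iUnion, exists_prop] at hη
      obtain ⟨z, hz, hzA, hzB⟩ := hη
      have h2 : Real.exp (l * L + u + 2) ≤ wz97 β h η l z := hzA
      have h3 : Real.exp (n * L - 1) ≤ Z β h (sh l z η) n := hzB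
      have h4 : wz97 β h η l z * Z β h (sh l z η) n ≤ Z β h η (l + n) :=
        PP_chainZ β h η l n z
      have h5 : Real.exp ((l * L + u + 2) + (n * L - 1)) ≤ Z β h η (l + n) := by
        rw [Real.exp_add]
        exact (mul_le_mul h2 h3 (Real.exp_pos _).le (wz97_nonneg β h η l z)).trans h4
      rw [TubV_exp hd, Real.exp_le_exp] at h5
      show ((l + n : ℕ) : ℝ) * L + u < X β h η (l + n)
      push_cast
      linarith
  · exact (mul_nonpos_of_nonpos_of_nonneg hp0.le measureReal_nonneg).trans measureReal_nonneg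

/-- UP: the upper tail at `N` bounds the upper tails at the lengths `l ≤ N`, for the tilts near
`h`. -/
def UpT (d : ℕ) (ρ : Measure ℝ) (β : ℝ) : Prop := ∀ h : Vec d, ∃ δ C : ℝ, 0 < δ ∧ 1 ≤ C ∧
  ∀ k : Vec d, ‖k - h‖ < δ → ∀ N l : ℕ, 2 ≤ N → l ≤ N → ∀ u : ℝ,
    (N : ℝ) ^ (-C) * (law d ρ).real {η | l * lam ρ β k + u + C * Real.log N < X β k η l} ≤
      (law d ρ).real {η | N * lam ρ β k + u < X β k η N}

/-- **Block (1)**: `UpT` from `LoT`. -/
theorem upT33 {d : ℕ} (hd : 0 < d) {ρ : Measure ℝ} [IsProbabilityMeasure ρ] {β : ℝ}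
    (hL : LoT d ρ β) : UpT d ρ β := by
  intro h
  obtain ⟨δ, C, hδ, hC, H⟩ := hL h
  have hd0 : (0 : ℝ) ≤ d := Nat.cast_nonneg d
  refine ⟨δ, C + 3 * d + 3, hδ, by linarith, fun k hk N l hN hl u => ?_⟩
  obtain ⟨n, rfl⟩ := Nat.exists_eq_add_of_le hl
  have hN1 : (1 : ℝ) ≤ ((l + n : ℕ) : ℝ) := by exact_mod_cast (by omega : 1 ≤ l + n)
  have hN0 : (0 : ℝ) < ((l + n : ℕ) : ℝ) := by linarith
  have hN2 : (2 : ℝ) ≤ ((l + n : ℕ) : ℝ) := by exact_mod_cast hN
  have h1 := up133 (ρ := ρ) hd β k l n (L := lam ρ β k) (u := u) (H k hk (l + n) n hN (by omega))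
  refine le_trans (mul_le_mul ?_ (measureReal_mono fun η hη => ?_) measureReal_nonneg
    (by positivity)) h1
  · exact Real.rpow_le_rpow_of_exponent_le hN1 (by linarith)
  · have h2 : l * lam ρ β k + u + (C + 3 * d + 3) * Real.log ((l + n : ℕ) : ℝ) < X β k η l := hη
    show l * lam ρ β k + u + 2 + Real.log ((boxF d l).card) < X β k η l
    have hlog : Real.log 2 ≤ Real.log ((l + n : ℕ) : ℝ) := Real.log_le_log two_pos hN2
    have hl2 := Real.log_two_gt_d9
    have hl0 : 0 ≤ Real.log ((l + n : ℕ) : ℝ) := Real.log_nonneg hN1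
    have h3 : Real.log ((boxF d l).card) ≤ 3 * d * Real.log ((l + n : ℕ) : ℝ) := by
      have h0 : (((boxF d l).card : ℕ) : ℝ) = (2 * (l : ℝ) + 1) ^ d := by
        rw [card_boxF]
        push_cast
        ring
      rw [h0, Real.log_pow]
      have h4 : Real.log (2 * (l : ℝ) + 1) ≤ 3 * Real.log ((l + n : ℕ) : ℝ) := by
        have h5 : (3 : ℝ) * Real.log ((l + n : ℕ) : ℝ) = Real.log (((l + n : ℕ) : ℝ) ^ 3) := by
          rw [Real.log_pow]
          norm_num
        rw [h5]
        refine Real.log_le_log (by positivity) ?_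
        have h6 : (l : ℝ) ≤ ((l + n : ℕ) : ℝ) := by exact_mod_cast hl
        have h7 : 4 * ((l + n : ℕ) : ℝ) ≤ ((l + n : ℕ) : ℝ) ^ 3 := by
          have h8 : (2 : ℝ) ^ 2 ≤ ((l + n : ℕ) : ℝ) ^ 2 := pow_le_pow_left₀ (by norm_num) hN2 2
          nlinarith
        linarith
      calc (d : ℝ) * Real.log (2 * (l : ℝ) + 1) ≤ d * (3 * Real.log ((l + n : ℕ) : ℝ)) :=
            mul_le_mul_of_nonneg_left h4 hd0
        _ = 3 * d * Real.log ((l + n : ℕ) : ℝ) := by ring
    have h4 : 2 + 3 * (d : ℝ) * Real.log ((l + n : ℕ) : ℝ) ≤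
        (C + 3 * d + 3) * Real.log ((l + n : ℕ) : ℝ) := by
      have h5 : (C + 3 * d + 3) * Real.log ((l + n : ℕ) : ℝ) =
          C * Real.log ((l + n : ℕ) : ℝ) + 3 * d * Real.log ((l + n : ℕ) : ℝ) +
            3 * Real.log ((l + n : ℕ) : ℝ) := by ring
      rw [h5]
      have h6 : 0 ≤ C * Real.log ((l + n : ℕ) : ℝ) := by positivity
      linarith
    linarith

end Pool.Agent.W_7d29a1_PK
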