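import Pool.Agent.W_7d29a1_PK.DefsPK2
import Pool.Agent.W_7d29a1_PK.Up33

/-!
The blocks LOW and UPL from their local forms (helper99).
-/

namespace Pool.Agent.W_7d29a1_PK

open MeasureTheory ProbabilityTheory Filter Topology Pool.Agent.W_MP_7d29a1_pr
  Pool.Agent.W_7d29a1_h46 Pool.Agent.W_7d29a1_h46u Pool.Agent.W_7d29a1_D2
  Pool.Agent.W_7d29a1_D2.B35 Pool.Agent.W_7d29a1_Q29 Pool.Agent.W_7d29a1_R34
  Pool.Agent.W_7d29a1_SP Pool.Agent.W_7d29a1_V

/-- A local constant is uniform on a ball. -/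
lemma cov99 {d : ℕ} {P : Vec d → ℝ → Prop} (hP : ∀ k C C', C ≤ C' → P k C → P k C')
    (h : ∀ h : Vec d, ∃ δ C : ℝ, 0 < δ ∧ 1 ≤ C ∧ ∀ k : Vec d, ‖k - h‖ < δ → P k C) (K : ℝ) :
    ∃ C : ℝ, 1 ≤ C ∧ ∀ k : Vec d, ‖k‖ ≤ K → P k C := by
  choose δ C hδ hC H using h
  obtain ⟨t, -, ht⟩ := (isCompact_closedBall (0 : Vec d) K).elim_finite_subcover_image
    (b := Set.univ) (c := fun x => Metric.ball x (δ x)) (fun x _ => Metric.isOpen_ball)
    (fun x _ => Set.mem_iUnion₂.2 ⟨x, Set.mem_univ x, Metric.mem_ball_self (hδ x)⟩)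
  obtain ⟨hf, hc⟩ := ht
  refine ⟨1 + ∑ x ∈ hf.toFinset, C x, ?_, fun k hk => ?_⟩
  · have : 0 ≤ ∑ x ∈ hf.toFinset, C x := Finset.sum_nonneg fun x _ => by linarith [hC x]
    linarith
  · obtain ⟨x, hx, hkx⟩ := Set.mem_iUnion₂.1 (hc (mem_closedBall_zero_iff.2 hk))
    refine hP k (C x) _ ?_ (H x k (by rwa [Metric.mem_ball, dist_eq_norm] at hkx))
    have h1 := Finset.single_le_sum (f := C) (s := hf.toFinset) (fun y _ => by linarith [hC y])
      (hf.mem_toFinset.2 hx)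
    linarith

/-- **LOW**. -/
theorem low99 {d : ℕ} {ρ : Measure ℝ} [IsProbabilityMeasure ρ] {β : ℝ} (hL : LoT d ρ β) :
    LowPK d ρ β := by
  intro K
  obtain ⟨C, hC, H⟩ := cov99 (P := fun k C => ∀ N m : ℕ, 2 ≤ N → m ≤ N →
    (N : ℝ) ^ (-C) ≤ (law d ρ).real {η | m * lam ρ β k - 1 ≤ X β k η m})
    (fun k C C' h h1 N m hN hm => (Real.rpow_le_rpow_of_exponent_le
      (by exact_mod_cast (by omega : 1 ≤ N)) (by linarith)).trans (h1 N m hN hm)) hL K
  refine ⟨C, hC, 2, fun N hN m hm k hk => (H k hk N m hN hm).trans (measureReal_mono ?_)⟩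
  intro η hη
  have h1 : m * lam ρ β k - 1 ≤ X β k η m := hη
  show m * lam ρ β k - 2 < X β k η m
  linarith

/-- **UPL**. -/
theorem upl99 {d : ℕ} {ρ : Measure ℝ} [IsProbabilityMeasure ρ] {β : ℝ} (hU : UpT d ρ β) :
    UplPK d ρ β := by
  intro K
  obtain ⟨C, hC, H⟩ := cov99 (P := fun k C => ∀ N l : ℕ, 2 ≤ N → l ≤ N → ∀ u : ℝ,
    (law d ρ).real {η | l * lam ρ β k + u + C * Real.log N < X β k η l} ≤
      (N : ℝ) ^ C * (law d ρ).real {η | N * lam ρ β k + u < X β k η N})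
    (fun k C C' h h1 N l hN hl u => by
      have hN1 : (1 : ℝ) ≤ N := by exact_mod_cast (by omega : 1 ≤ N)
      have hl0 : 0 ≤ Real.log N := Real.log_nonneg hN1
      refine le_trans (measureReal_mono fun η hη => ?_) ((h1 N l hN hl u).trans
        (mul_le_mul_of_nonneg_right (Real.rpow_le_rpow_of_exponent_le hN1 h)
          measureReal_nonneg))
      have h2 : l * lam ρ β k + u + C' * Real.log N < X β k η l := hη
      show l * lam ρ β k + u + C * Real.log N < X β k η l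
      have h3 := mul_le_mul_of_nonneg_right h hl0
      linarith)
    (fun h => by
      obtain ⟨δ, C, hδ, hC, H⟩ := hU h
      refine ⟨δ, C, hδ, hC, fun k hk N l hN hl u => ?_⟩
      have hN0 : (0 : ℝ) < N := by exact_mod_cast (by omega : 0 < N)
      have h1 := H k hk N l hN hl u
      rw [Real.rpow_neg hN0.le, inv_mul_le_iff₀ (Real.rpow_pos_of_pos hN0 C)] at h1
      exact h1) K
  refine ⟨C + 1, by linarith, 2, fun N hN h hh l hl u => ?_⟩
  have hN1 : (1 : ℝ) ≤ N := by exact_mod_cast (by omega : 1 ≤ N)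
  have hN2 : (1 : ℝ) < N := by exact_mod_cast (by omega : 1 < N)
  have hl0 : 0 < Real.log N := Real.log_pos hN2
  refine le_trans (measureReal_mono fun η hη => ?_) ((H h hh N l hN hl u).trans
    (mul_le_mul (Real.rpow_le_rpow_of_exponent_le hN1 (by linarith))
      (measureReal_mono fun η hη => ?_) measureReal_nonneg (by positivity)))
  · have h2 : l * lam ρ β h + u + (C + 1) * Real.log N ≤ X β h η l := hη
    show l * lam ρ β h + u + C * Real.log N < X β h η l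
    linarith
  · have h2 : N * lam ρ β h + u < X β h η N := hη
    show N * lam ρ β h + u ≤ X β h η N
    linarith

/-- LOW, every law. -/
theorem lowAll99 {d : ℕ} (hd : 0 < d) {ρ : Measure ℝ} [IsProbabilityMeasure ρ] (hρ : EM ρ)
    (β : ℝ) : LowPK d ρ β := low99 (loT33 hd hρ β)

/-- UPL, every law. -/
theorem uplAll99 {d : ℕ} (hd : 0 < d) {ρ : Measure ℝ} [IsProbabilityMeasure ρ] (hρ : EM ρ)
    (β : ℝ) : UplPK d ρ β := upl99 (upT33 hd (loT33 hd hρ β))

end Pool.Agent.W_7d29a1_PK
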