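import Pool.Agent.W_7d29a1_PK.Four8
import Pool.Agent.W_7d29a1_PK.DefsPK2
import Pool.Agent.W_7d29a1_h46u.TailU

/-!
Leaves MEAN and TAIL of theorem PK (helper33).
-/

set_option autoImplicit false

namespace Pool.Agent.W_7d29a1_PK

open MeasureTheory ProbabilityTheory Filter Topology Pool.Agent.W_MP_7d29a1_pr
  Pool.Agent.W_7d29a1_h46 Pool.Agent.W_7d29a1_h46u Pool.Agent.W_7d29a1_D2
  Pool.Agent.W_7d29a1_D2.B35
  Pool.Agent.W_7d29a1_Q29 Pool.Agent.W_7d29a1_R34 Pool.Agent.W_7d29a1_SP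

/-- **Leaf MEAN.** -/
theorem mean33 {d : ℕ} (hd : 0 < d) {ρ : Measure ℝ} [IsProbabilityMeasure ρ] (hρ : EM ρ)
    (β : ℝ) : MeanPK d ρ β := by
  intro K
  obtain ⟨C, hC, H⟩ := mean8 (d := d) hd hρ β
  obtain ⟨M, hM⟩ := exists_nat_ge (C + 4)
  refine ⟨2, by norm_num, max M 1, fun N hN k _ => ⟨?_, ?_⟩⟩
  · have hN1 : 1 ≤ N := (le_max_right _ _).trans hN
    have hNR : (1 : ℝ) ≤ N := by exact_mod_cast hN1
    have hN0 : (0 : ℝ) < N := by linarith
    have hMN : (M : ℝ) ≤ N := by exact_mod_cast (le_max_left _ _).trans hN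
    refine le_trans ?_ (H k N hN1)
    rw [show (-2 : ℝ) = -((2 : ℕ) : ℝ) by norm_num, Real.rpow_neg hN0.le, Real.rpow_natCast,
      ← one_div]
    refine one_div_le_one_div_of_le (by positivity) ?_
    have h1 : (C + 4) * N ≤ N * N := mul_le_mul_of_nonneg_right (hM.trans hMN) hN0.le
    nlinarith
  · exact A_le_lam hd hρ β k N

/-- **Leaf TAIL.** -/
theorem tail33 {d : ℕ} (hd : 0 < d) {ρ : Measure ℝ} [IsProbabilityMeasure ρ] (hρ : EM ρ)
    (β : ℝ) : TailPK d ρ β := by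
  intro h q e he
  obtain ⟨Q, hQ⟩ := exists_nat_ge (q + 1)
  obtain ⟨δ, hδ, C, hC, H⟩ := tailU (β := β) (h := h) hd hρ (by norm_num : (0 : ℝ) ≤ 1 / 2)
    (Fl_half hd hρ β h) (half_pos he) Q
  have ht : Tendsto (fun N : ℕ => (N : ℝ)) atTop atTop := tendsto_natCast_atTop_atTop
  obtain ⟨N₀, hN₀⟩ := eventually_atTop.1 ((ht.eventually_ge_atTop C).and
    (eventually_ge_atTop 2))
  refine ⟨N₀, fun N hN => ?_⟩
  obtain ⟨h1, h2⟩ := hN₀ N hN
  have hNR : (1 : ℝ) < N := by exact_mod_cast (by omega : 1 < N)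
  have hN0 : (0 : ℝ) < N := by linarith
  have h3 := H h (by rw [sub_self, norm_zero]; exact hδ) N N (by omega) le_rfl 0 0
  have hsh : ∀ η : Env d, sh 0 (0 : Site d) η = η := fun η => by
    funext p
    unfold sh
    simp
  simp only [hsh] at h3
  refine le_trans (measureReal_mono (fun η hη => ?_) (measure_ne_top _ _)) (h3.trans ?_)
  · have h4 : N * lam ρ β h + (N : ℝ) ^ (1 / 2 + e) ≤ X β h η N := hη
    have h5 := A_le_lam hd hρ β h N
    have h6 : (N : ℝ) ^ ((1 : ℝ) / 2 + e / 2) < (N : ℝ) ^ (1 / 2 + e) :=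
      Real.rpow_lt_rpow_of_exponent_lt hNR (by linarith)
    show (N : ℝ) ^ ((1 : ℝ) / 2 + e / 2) < |X β h η N - A ρ β h N|
    exact lt_of_lt_of_le (by linarith) (le_abs_self _)
  · calc C * (N : ℝ) ^ (-(Q : ℝ)) ≤ N * (N : ℝ) ^ (-(q + 1)) :=
          mul_le_mul h1 (Real.rpow_le_rpow_of_exponent_le hNR.le (by linarith))
            (Real.rpow_nonneg hN0.le _) hN0.le
      _ = (N : ℝ) ^ (-q) := by
          nth_rewrite 1 [← Real.rpow_one (N : ℝ)]
          rw [← Real.rpow_add hN0]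
          congr 1
          ring

end Pool.Agent.W_7d29a1_PK
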