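import Mathlib

/-!
# The choice of the tilt and of the radius

`exists_t`: if `c t ^ p ≤ g t` near `0` then for `K A ≤ N c δ ^ p` there is `t` in `(0, δ]` with
`N g t = K A`, and then `K A / (8 t)` is at least a constant times `N ^ (1/p) A ^ (1 - 1/p)`.
`ev_pow`: this is larger than `M N ^ a` for large `N` when `A ≥ N ^ x / 5` and
`p a < 1 + (p - 1) x`.
-/

namespace Pool.Agent.W_7d29a1_PK.Num27

open Filter Topology

/-- The choice of the tilt. -/
theorem exists_t {g : ℝ → ℝ} {c p δ : ℝ} (hp : 1 < p) (hc : 0 < c) (hδ : 0 < δ)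
    (hg : ContinuousOn g (Set.Icc 0 δ)) (h0 : g 0 = 0)
    (hlow : ∀ t, 0 < t → t ≤ δ → c * t ^ p ≤ g t) {N K A : ℝ} (hN : 0 < N) (hK : 0 < K)
    (hA : 0 < A) (hs : K * A ≤ N * (c * δ ^ p)) :
    ∃ t, 0 < t ∧ t ≤ δ ∧ N * g t = K * A ∧
      K ^ (1 - 1 / p) * c ^ (1 / p) / 8 * (N ^ (1 / p) * A ^ (1 - 1 / p)) ≤ K * A / (8 * t) := by
  have hKA : 0 < K * A := mul_pos hK hA
  have hp0 : 0 < p := by linarith
  have hcont : ContinuousOn (fun t => N * g t) (Set.Icc 0 δ) := continuousOn_const.mul hg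
  have hmem : K * A ∈ Set.Icc (N * g 0) (N * g δ) := by
    refine ⟨by rw [h0, mul_zero]; exact hKA.le, hs.trans ?_⟩
    exact mul_le_mul_of_nonneg_left (hlow δ hδ le_rfl) hN.le
  obtain ⟨t, ht, hte⟩ := intermediate_value_Icc hδ.le hcont hmem
  have hte' : N * g t = K * A := hte
  have ht0 : 0 < t := by
    rcases lt_or_eq_of_le ht.1 with h | h
    · exact h
    · exfalso
      rw [← h, h0, mul_zero] at hte'
      linarith
  refine ⟨t, ht0, ht.2, hte', ?_⟩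
  have h1 : c * t ^ p ≤ K * A / N := by
    rw [le_div_iff₀ hN]
    calc c * t ^ p * N ≤ g t * N := mul_le_mul_of_nonneg_right (hlow t ht0 ht.2) hN.le
      _ = K * A := by rw [mul_comm]; exact hte'
  have h2 : t ^ p ≤ K * A / N / c := by
    rw [le_div_iff₀ hc, mul_comm]
    exact h1
  have h3 : t ≤ (K * A / N / c) ^ (1 / p) := by
    calc t = (t ^ p) ^ (1 / p) := by
          rw [← Real.rpow_mul ht0.le, mul_one_div_cancel hp0.ne', Real.rpow_one]
      _ ≤ (K * A / N / c) ^ (1 / p) :=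
          Real.rpow_le_rpow (Real.rpow_nonneg ht0.le _) h2 (by positivity)
  have h4 : (0 : ℝ) < (K * A / N / c) ^ (1 / p) := by positivity
  have h5 : K ^ (1 - 1 / p) * c ^ (1 / p) / 8 * (N ^ (1 / p) * A ^ (1 - 1 / p)) =
      K * A / (8 * (K * A / N / c) ^ (1 / p)) := by
    rw [Real.div_rpow (by positivity) hc.le, Real.div_rpow hKA.le hN.le,
      Real.mul_rpow hK.le hA.le, Real.rpow_sub hK, Real.rpow_sub hA, Real.rpow_one,
      Real.rpow_one]
    have a1 : K ^ (1 / p) ≠ 0 := (Real.rpow_pos_of_pos hK _).ne'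
    have a2 : A ^ (1 / p) ≠ 0 := (Real.rpow_pos_of_pos hA _).ne'
    have a3 : N ^ (1 / p) ≠ 0 := (Real.rpow_pos_of_pos hN _).ne'
    have a4 : c ^ (1 / p) ≠ 0 := (Real.rpow_pos_of_pos hc _).ne'
    field_simp
  rw [h5]
  exact div_le_div_of_nonneg_left hKA.le (by positivity)
    (mul_le_mul_of_nonneg_left h3 (by norm_num))

/-- The radius beats `M N ^ a`. -/
theorem ev_pow {κ M p a x : ℝ} (hκ : 0 < κ) (hp : 1 < p)
    (hax : p * a < 1 + (p - 1) * x) :
    ∀ᶠ N : ℕ in atTop, ∀ A : ℝ, (N : ℝ) ^ x / 5 ≤ A →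
      M * (N : ℝ) ^ a ≤ κ * ((N : ℝ) ^ (1 / p) * A ^ (1 - 1 / p)) := by
  have hp0 : 0 < p := by linarith
  have hq0 : 0 < 1 - 1 / p := by
    rw [sub_pos, div_lt_one hp0]
    exact hp
  set e : ℝ := 1 / p + x * (1 - 1 / p) - a with he
  have he0 : 0 < e := by
    have h1 : p * e = 1 + (p - 1) * x - p * a := by
      rw [he]
      field_simp
    have h2 : 0 < p * e := by rw [h1]; linarith
    exact (mul_pos_iff_of_pos_left hp0).1 h2
  have hk : 0 < κ * (1 / 5 : ℝ) ^ (1 - 1 / p) := mul_pos hκ (Real.rpow_pos_of_pos (by norm_num) _)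
  have ht : Tendsto (fun N : ℕ => κ * (1 / 5 : ℝ) ^ (1 - 1 / p) * (N : ℝ) ^ e) atTop atTop :=
    ((tendsto_rpow_atTop he0).comp tendsto_natCast_atTop_atTop).const_mul_atTop hk
  filter_upwards [ht.eventually_ge_atTop M, eventually_ge_atTop 1] with N hM hN A hA
  have hN0 : (0 : ℝ) < N := by exact_mod_cast hN
  have hx0 : (0 : ℝ) < (N : ℝ) ^ x := Real.rpow_pos_of_pos hN0 _
  calc M * (N : ℝ) ^ a ≤ κ * (1 / 5 : ℝ) ^ (1 - 1 / p) * (N : ℝ) ^ e * (N : ℝ) ^ a :=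
        mul_le_mul_of_nonneg_right hM (Real.rpow_nonneg hN0.le _)
    _ = κ * ((N : ℝ) ^ (1 / p) * ((N : ℝ) ^ x / 5) ^ (1 - 1 / p)) := by
        have h1 : ((N : ℝ) ^ x / 5) ^ (1 - 1 / p) =
            (N : ℝ) ^ (x * (1 - 1 / p)) * (1 / 5 : ℝ) ^ (1 - 1 / p) := by
          rw [div_eq_mul_one_div, Real.mul_rpow hx0.le (by norm_num), ← Real.rpow_mul hN0.le]
        have h2 : (N : ℝ) ^ e * (N : ℝ) ^ a = (N : ℝ) ^ (1 / p) * (N : ℝ) ^ (x * (1 - 1 / p)) := by
          rw [← Real.rpow_add hN0, ← Real.rpow_add hN0]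
          congr 1
          rw [he]
          ring
        rw [h1, mul_assoc, h2]
        ring
    _ ≤ κ * ((N : ℝ) ^ (1 / p) * A ^ (1 - 1 / p)) := by
        refine mul_le_mul_of_nonneg_left (mul_le_mul_of_nonneg_left ?_
          (Real.rpow_nonneg hN0.le _)) hκ.le
        exact Real.rpow_le_rpow (by positivity) hA hq0.le

/-- `K L' ≤ N c δ ^ p` for large `N`, uniformly in `L' ≤ N ^ y + K' log N`, `y < 1`. -/
theorem ev_small {K K' y e : ℝ} (hy : y < 1) (he : 0 < e) :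
    ∀ᶠ N : ℕ in atTop, ∀ A : ℝ, A ≤ (N : ℝ) ^ y + K' * Real.log N → 0 ≤ K →
      K * A ≤ N * e := by
  have h1 : Tendsto (fun N : ℕ => (N : ℝ) ^ (-(1 - y))) atTop (𝓝 0) :=
    (tendsto_rpow_neg_atTop (by linarith)).comp tendsto_natCast_atTop_atTop
  have h2 : Tendsto (fun N : ℕ => Real.log (N : ℝ) / N) atTop (𝓝 0) := by
    have h3 : Tendsto (fun x : ℝ => Real.log x / x) atTop (𝓝 0) := by
      have := Real.isLittleO_log_id_atTop.tendsto_div_nhds_zero
      simpa using this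
    exact h3.comp tendsto_natCast_atTop_atTop
  have h4 : Tendsto (fun N : ℕ => K * ((N : ℝ) ^ (-(1 - y)) + K' * (Real.log (N : ℝ) / N)))
      atTop (𝓝 (K * (0 + K' * 0))) := (h1.add (h2.const_mul K')).const_mul K
  rw [mul_zero, add_zero, mul_zero] at h4
  filter_upwards [h4.eventually_lt_const he, eventually_ge_atTop 1] with N hN hN1 A hA hK
  have hN0 : (0 : ℝ) < N := by exact_mod_cast hN1
  have h5 : (N : ℝ) ^ y = N * (N : ℝ) ^ (-(1 - y)) := by
    have h6 : y = 1 + -(1 - y) := by ring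
    calc (N : ℝ) ^ y = (N : ℝ) ^ (1 + -(1 - y)) := by rw [← h6]
      _ = N * (N : ℝ) ^ (-(1 - y)) := by rw [Real.rpow_add hN0, Real.rpow_one]
  calc K * A ≤ K * ((N : ℝ) ^ y + K' * Real.log N) := mul_le_mul_of_nonneg_left hA hK
    _ = N * (K * ((N : ℝ) ^ (-(1 - y)) + K' * (Real.log (N : ℝ) / N))) := by
        rw [h5]
        field_simp
    _ ≤ N * e := mul_le_mul_of_nonneg_left hN.le hN0.le

end Pool.Agent.W_7d29a1_PK.Num27
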