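import Pool.Agent.W_7d29a1_PK.DefsPK2
import Pool.Agent.W_7d29a1_PK.Num27

/-!
The second half of the KPZ relation at one tilt: the theorem from the exit at one length, the large
moments and the upper tail (leaves MainT and MainL).
-/

namespace Pool.Agent.W_7d29a1_PK.Main18

open MeasureTheory ProbabilityTheory Filter Topology Pool.Agent.W_MP_7d29a1_pr
  Pool.Agent.W_7d29a1_h46 Pool.Agent.W_7d29a1_h46u Pool.Agent.W_7d29a1_D2
  Pool.Agent.W_7d29a1_D2.B35 Pool.Agent.W_7d29a1_Q29 Pool.Agent.W_7d29a1_R34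
  Pool.Agent.W_7d29a1_SP Pool.Agent.W_7d29a1_V

lemma pow18 (a : ℝ) {N n : ℕ} (hN : 1 ≤ N) (h1 : N ≤ n) (h2 : n ≤ 2 * N) :
    (n : ℝ) ^ a ≤ (2 : ℝ) ^ |a| * (N : ℝ) ^ a := by
  have hN0 : (0 : ℝ) < N := by exact_mod_cast hN
  have h1' : (N : ℝ) ≤ n := by exact_mod_cast h1
  have h2' : (n : ℝ) ≤ 2 * N := by exact_mod_cast h2
  have hNa : (0 : ℝ) ≤ (N : ℝ) ^ a := Real.rpow_nonneg hN0.le _
  rcases le_total 0 a with ha | ha
  · rw [abs_of_nonneg ha, ← Real.mul_rpow (by norm_num) hN0.le]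
    exact Real.rpow_le_rpow (hN0.le.trans h1') h2' ha
  · have h3 : (n : ℝ) ^ a ≤ (N : ℝ) ^ a := Real.rpow_le_rpow_of_nonpos hN0 h1' ha
    have h4 : (1 : ℝ) ≤ (2 : ℝ) ^ |a| := Real.one_le_rpow (by norm_num) (abs_nonneg a)
    nlinarith

/-- The choice of the size of the tilt. -/
lemma arith18 {c₀ C c p a y δ z : ℝ} (hp : 1 ≤ p) (hc₀ : 0 < c₀) (hC : 0 < C) (hc : 0 < c)
    (hδ : 0 < δ) (hz : z < 1) (hay : p * a < 1 + (p - 1) * y) :
    ∀ᶠ N : ℕ in atTop, ∀ A : ℝ, (N : ℝ) ^ y / 8 ≤ A → A ≤ (N : ℝ) ^ z + 2 * Real.log N →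
      ∃ t : ℝ, 0 < t ∧ t ≤ δ ∧ N * (c₀ * t ^ p) = C * A ∧
        ∀ n : ℕ, N ≤ n → n ≤ 2 * N → (n : ℝ) ^ a * t ≤ c * A := by
  have hp0 : 0 < p := by linarith
  set s : ℝ := 1 / p with hs
  have hs0 : 0 < s := by rw [hs]; positivity
  have hs1 : s ≤ 1 := by
    rw [hs, div_le_one hp0]
    exact hp
  have hps : p * s = 1 := by rw [hs, mul_one_div_cancel hp0.ne']
  set e : ℝ := y * (1 - s) + s - a with he
  have he0 : 0 < e := by
    have h1 : p * e = 1 + (p - 1) * y - p * a := by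
      rw [he]
      linear_combination (1 - y) * hps
    have h2 : 0 < p * e := by rw [h1]; linarith
    exact (mul_pos_iff_of_pos_left hp0).1 h2
  have hk : 0 < c * (1 / 8 : ℝ) ^ (1 - s) := by positivity
  have ht : Tendsto (fun N : ℕ => c * (1 / 8 : ℝ) ^ (1 - s) * (N : ℝ) ^ e) atTop atTop :=
    ((tendsto_rpow_atTop he0).comp tendsto_natCast_atTop_atTop).const_mul_atTop hk
  have hδp : 0 < c₀ * δ ^ p := by positivity
  filter_upwards [ht.eventually_ge_atTop ((2 : ℝ) ^ |a| * (C / c₀) ^ s), eventually_ge_atTop 1,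
    Num27.ev_small (K := C) (K' := 2) hz hδp] with N hM hN hsm A hA hA2
  have hN0 : (0 : ℝ) < N := by exact_mod_cast hN
  have hNy : (0 : ℝ) < (N : ℝ) ^ y := Real.rpow_pos_of_pos hN0 _
  have hA0 : 0 < A := lt_of_lt_of_le (by positivity) hA
  have hB0 : 0 < C * A / (N * c₀) := by positivity
  refine ⟨(C * A / (N * c₀)) ^ s, Real.rpow_pos_of_pos hB0 _, ?_, ?_, ?_⟩
  · have h1 : C * A / (N * c₀) ≤ δ ^ p := by
      rw [div_le_iff₀ (by positivity)]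
      have := hsm A hA2 hC.le
      linarith
    calc (C * A / (N * c₀)) ^ s ≤ (δ ^ p) ^ s := Real.rpow_le_rpow hB0.le h1 hs0.le
      _ = δ := by rw [← Real.rpow_mul hδ.le, hps, Real.rpow_one]
  · rw [← Real.rpow_mul hB0.le, mul_comm s p, hps, Real.rpow_one]
    field_simp
  · intro n h1 h2
    have h3 := pow18 a hN h1 h2
    have hts : 0 ≤ (C * A / (N * c₀)) ^ s := Real.rpow_nonneg hB0.le _
    refine (mul_le_mul_of_nonneg_right h3 hts).trans ?_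
    have h4 : (C * A / (N * c₀)) ^ s = (C / c₀) ^ s * A ^ s * (N : ℝ) ^ (-s) := by
      have h5 : C * A / (N * c₀) = (C / c₀) * A * (N : ℝ)⁻¹ := by
        field_simp
      rw [h5, Real.mul_rpow (by positivity) (by positivity),
        Real.mul_rpow (by positivity) hA0.le, Real.inv_rpow hN0.le, Real.rpow_neg hN0.le]
    have h6 : ((N : ℝ) ^ y / 8) ^ (1 - s) ≤ A ^ (1 - s) :=
      Real.rpow_le_rpow (by positivity) hA (by linarith)
    have h7 : ((N : ℝ) ^ y / 8) ^ (1 - s) = (N : ℝ) ^ (y * (1 - s)) * (1 / 8 : ℝ) ^ (1 - s) := by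
      rw [div_eq_mul_one_div, Real.mul_rpow hNy.le (by norm_num), ← Real.rpow_mul hN0.le]
    have h8 : A = A ^ s * A ^ (1 - s) := by
      rw [← Real.rpow_add hA0]
      simp
    have h9 : (N : ℝ) ^ e * ((N : ℝ) ^ a * (N : ℝ) ^ (-s)) = (N : ℝ) ^ (y * (1 - s)) := by
      rw [← Real.rpow_add hN0, ← Real.rpow_add hN0]
      congr 1
      rw [he]
      ring
    have hAs : 0 ≤ A ^ s := Real.rpow_nonneg hA0.le _
    have hNas : 0 ≤ (N : ℝ) ^ a * (N : ℝ) ^ (-s) := by positivity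
    calc (2 : ℝ) ^ |a| * (N : ℝ) ^ a * (C * A / (N * c₀)) ^ s
        = ((2 : ℝ) ^ |a| * (C / c₀) ^ s) * (((N : ℝ) ^ a * (N : ℝ) ^ (-s)) * A ^ s) := by
          rw [h4]
          ring
      _ ≤ (c * (1 / 8 : ℝ) ^ (1 - s) * (N : ℝ) ^ e) *
            (((N : ℝ) ^ a * (N : ℝ) ^ (-s)) * A ^ s) :=
          mul_le_mul_of_nonneg_right hM (by positivity)
      _ = c * (((N : ℝ) ^ e * ((N : ℝ) ^ a * (N : ℝ) ^ (-s))) * (1 / 8 : ℝ) ^ (1 - s)) * A ^ s := by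
          ring
      _ = c * (((N : ℝ) ^ y / 8) ^ (1 - s)) * A ^ s := by rw [h9, h7]
      _ ≤ c * A ^ (1 - s) * A ^ s :=
          mul_le_mul_of_nonneg_right (mul_le_mul_of_nonneg_left h6 hc.le) hAs
      _ = c * (A ^ s * A ^ (1 - s)) := by ring
      _ = c * A := by rw [← h8]

variable {d : ℕ} {ρ : Measure ℝ} [IsProbabilityMeasure ρ] {β : ℝ}

/-- The core: a family of tilts of all small sizes with a lower bound of the increment and a rapidly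
decaying mass outside the corresponding slabs. -/
theorem core18 (hS : StpPK d ρ β) (hT : TailPK d ρ β) {h : Vec d} {p a K c₀ δ : ℝ} (hp : 1 ≤ p)
    (hK : ‖h‖ ≤ K) (hc₀ : 0 < c₀) (hδ : 0 < δ) {Ed : ℕ → ℝ}
    (hEd : ∀ q : ℕ, ∃ C : ℝ, ∀ n : ℕ, 1 ≤ n → Ed n ≤ C * (n : ℝ) ^ (-(q : ℝ)))
    (hfam : ∀ t : ℝ, 0 < t → t ≤ δ → ∃ (r : Vec d) (σ : ℝ), ‖r‖ ≤ 1 ∧ |σ| ≤ K ∧
      c₀ * t ^ p ≤ lam ρ β (h + r) - lam ρ β h - σ ∧
      ∀ n : ℕ, 1 ≤ n → ∀ R : ℝ, (n : ℝ) ^ a * t ≤ R → Ex ρ β h r σ n R ≤ Ed n)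
    {y qM : ℝ}
    (hM : ∀ N₀ : ℕ, ∃ N : ℕ, N₀ ≤ N ∧ ∀ u : ℝ, 0 ≤ u →
      (∀ u' : ℝ, u < u' → (law d ρ).real {η | N * lam ρ β h + u' ≤ X β h η N} <
        (N : ℝ) ^ (-qM)) → (N : ℝ) ^ y / 8 ≤ u + Real.log N) :
    1 + (p - 1) * y ≤ p * a := by
  by_contra hlt
  rw [not_le] at hlt
  obtain ⟨q, c, C, hq, hc, hC, H⟩ := hS K
  obtain ⟨Q, hQ1, hQ2⟩ : ∃ Q : ℝ, q ≤ Q ∧ qM ≤ Q := ⟨max q qM, le_max_left _ _, le_max_right _ _⟩
  have hQ0 : 0 < Q := lt_of_lt_of_le hq hQ1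
  obtain ⟨q₀, hq₀, N₁, HN⟩ := H Q 2 hQ0 (by norm_num)
  obtain ⟨N₂, HT⟩ := hT h (Q + 1) (1 / 4) (by norm_num)
  obtain ⟨k, hk⟩ := exists_nat_ge (q₀ + 1)
  obtain ⟨C', hC'⟩ := hEd k
  have hCpos : 0 < C := lt_of_lt_of_le one_pos hC
  obtain ⟨N₃, HA⟩ := eventually_atTop.1 (arith18 (z := 1 / 2 + 1 / 4) hp hc₀ hCpos hc hδ
    (by norm_num) hlt)
  obtain ⟨N₄, hN₄⟩ := exists_nat_gt |C'|
  obtain ⟨N, hNN, hN⟩ := hM (max (max N₁ N₂) (max N₃ (max N₄ 3)))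
  have n1 : N₁ ≤ N := ((le_max_left _ _).trans (le_max_left _ _)).trans hNN
  have n2 : N₂ ≤ N := ((le_max_right _ _).trans (le_max_left _ _)).trans hNN
  have n3 : N₃ ≤ N := ((le_max_left _ _).trans (le_max_right _ _)).trans hNN
  have n4 : N₄ ≤ N := (((le_max_left _ _).trans (le_max_right _ _)).trans (le_max_right _ _)).trans
    hNN
  have n5 : 3 ≤ N := (((le_max_right _ _).trans (le_max_right _ _)).trans (le_max_right _ _)).trans
    hNN
  have hN1 : 1 ≤ N := by omega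
  have hNr : (0 : ℝ) < N := by exact_mod_cast hN1
  have hNr1 : (1 : ℝ) ≤ N := by exact_mod_cast hN1
  have hNr3 : (3 : ℝ) ≤ N := by exact_mod_cast n5
  have hlog : 1 ≤ Real.log N := by
    rw [Real.le_log_iff_exp_le hNr]
    have := Real.exp_one_lt_d9
    linarith
  -- the tail function
  obtain ⟨P, hP⟩ : ∃ P : ℝ → ℝ, P = fun u =>
    (law d ρ).real {η | N * lam ρ β h + u ≤ X β h η N} := ⟨_, rfl⟩
  have hPv : ∀ u, P u = (law d ρ).real {η | N * lam ρ β h + u ≤ X β h η N} := fun u => by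
    rw [hP]
  have hanti : ∀ u u' : ℝ, u ≤ u' → P u' ≤ P u := by
    intro u u' huu
    rw [hPv, hPv]
    refine measureReal_mono (fun η hη => ?_)
    have h1 : N * lam ρ β h + u' ≤ X β h η N := hη
    change N * lam ρ β h + u ≤ X β h η N
    linarith
  have hQexp : (N : ℝ) ^ (-(Q + 1)) < (N : ℝ) ^ (-Q) :=
    Real.rpow_lt_rpow_of_exponent_lt (by linarith) (by linarith)
  obtain ⟨S, hSdef⟩ : ∃ S : Set ℝ, S = {u : ℝ | 0 ≤ u ∧ (N : ℝ) ^ (-Q) ≤ P u} := ⟨_, rfl⟩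
  have hSmem : ∀ u, u ∈ S ↔ 0 ≤ u ∧ (N : ℝ) ^ (-Q) ≤ P u := fun u => by rw [hSdef]; rfl
  have hSb : ∀ u ∈ S, u ≤ (N : ℝ) ^ (1 / 2 + 1 / 4 : ℝ) := by
    intro u hu
    by_contra hcon
    rw [not_le] at hcon
    have h1 := ((hSmem u).1 hu).2
    have h2 := hanti _ _ hcon.le
    have h3 := HT N n2
    rw [← hPv] at h3
    linarith
  have hbdd : BddAbove S := ⟨_, hSb⟩
  obtain ⟨u₀, hu₀⟩ : ∃ u₀ : ℝ, u₀ = sSup S := ⟨_, rfl⟩
  have hu0 : 0 ≤ u₀ := by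
    rw [hu₀]
    exact Real.sSup_nonneg fun x hx => ((hSmem x).1 hx).1
  have huN : u₀ ≤ (N : ℝ) ^ (1 / 2 + 1 / 4 : ℝ) := by
    rw [hu₀]
    exact Real.sSup_le hSb (Real.rpow_nonneg hNr.le _)
  have habove : ∀ u' : ℝ, u₀ < u' → P u' < (N : ℝ) ^ (-Q) := by
    intro u' hu'
    by_contra hcon
    rw [not_lt] at hcon
    have h1 : u' ∈ S := (hSmem u').2 ⟨hu0.trans hu'.le, hcon⟩
    have h2 := le_csSup hbdd h1
    rw [← hu₀] at h2
    linarith
  have hexpM : (N : ℝ) ^ (-Q) ≤ (N : ℝ) ^ (-qM) :=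
    Real.rpow_le_rpow_of_exponent_le hNr1 (by linarith)
  have hexpq : (N : ℝ) ^ (-Q) ≤ (N : ℝ) ^ (-q) :=
    Real.rpow_le_rpow_of_exponent_le hNr1 (by linarith)
  have hy8 : (N : ℝ) ^ y / 8 ≤ u₀ + Real.log N := by
    refine hN u₀ hu0 fun u' hu' => ?_
    have h1 := habove u' hu'
    rw [hPv] at h1
    exact h1.trans_le hexpM
  obtain ⟨t, ht0, htδ, hte, htn⟩ := HA N n3 (u₀ + 1 + Real.log N) (by linarith) (by linarith)
  obtain ⟨r, σ, hr, hσ, hlow, hEx⟩ := hfam t ht0 htδ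
  have hc1 : (law d ρ).real {η | N * lam ρ β h + (u₀ + 1) < X β h η N} ≤ (N : ℝ) ^ (-q) := by
    have h1 : (law d ρ).real {η | N * lam ρ β h + (u₀ + 1) < X β h η N} ≤ P (u₀ + 1) := by
      rw [hPv]
      refine measureReal_mono (fun η hη => ?_)
      have h0 : N * lam ρ β h + (u₀ + 1) < X β h η N := hη
      change N * lam ρ β h + (u₀ + 1) ≤ X β h η N
      exact h0.le
    have h2 := habove (u₀ + 1) (by linarith)
    linarith
  have hc2 : u₀ + 1 ≤ 2 * Real.log N ∨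
      (N : ℝ) ^ (-Q) ≤ (law d ρ).real {η | N * lam ρ β h + (u₀ + 1) / 2 ≤ X β h η N} := by
    rcases le_or_gt u₀ 1 with h1 | h1
    · left
      linarith
    · right
      have hne : S.Nonempty := by
        by_contra hemp
        rw [Set.not_nonempty_iff_eq_empty] at hemp
        rw [hemp, Real.sSup_empty] at hu₀
        linarith
      have h2 : (u₀ + 1) / 2 < sSup S := by
        rw [← hu₀]
        linarith
      obtain ⟨u', hu', hlt'⟩ := exists_lt_of_lt_csSup hne h2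
      have h3 := ((hSmem u').1 hu').2
      have h4 := hanti _ _ hlt'.le
      rw [← hPv]
      linarith
  have hc3 : C * (u₀ + 1 + Real.log N) ≤ N * (lam ρ β (h + r) - lam ρ β h - σ) := by
    rw [← hte]
    exact mul_le_mul_of_nonneg_left hlow hNr.le
  obtain ⟨n, hn1, hn2, hn3⟩ := HN N n1 h r σ hK hr hσ (u₀ + 1) (by linarith) hc1 hc2 hc3
  have hn1' : 1 ≤ n := hN1.trans hn1
  have h1 := hEx n hn1' (c * (u₀ + 1 + Real.log N)) (htn n hn1 hn2)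
  have h2 := hC' n hn1'
  have hnr : (N : ℝ) ≤ n := by exact_mod_cast hn1
  have h3 : (n : ℝ) ^ (-(k : ℝ)) ≤ (N : ℝ) ^ (-(k : ℝ)) :=
    Real.rpow_le_rpow_of_nonpos hNr hnr (by simp)
  have h4 : (N : ℝ) ^ (-(k : ℝ)) ≤ (N : ℝ) ^ (-(q₀ + 1)) :=
    Real.rpow_le_rpow_of_exponent_le hNr1 (by linarith)
  have h5 : (N : ℝ) ^ (-(q₀ + 1)) * N = (N : ℝ) ^ (-q₀) := by
    have h6 : -q₀ = -(q₀ + 1) + 1 := by ring
    calc (N : ℝ) ^ (-(q₀ + 1)) * N = (N : ℝ) ^ (-(q₀ + 1)) * (N : ℝ) ^ (1 : ℝ) := by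
          rw [Real.rpow_one]
      _ = (N : ℝ) ^ (-(q₀ + 1) + 1) := (Real.rpow_add hNr _ _).symm
      _ = (N : ℝ) ^ (-q₀) := by rw [← h6]
  have hx0 : 0 < (N : ℝ) ^ (-(q₀ + 1)) := Real.rpow_pos_of_pos hNr _
  have hn0 : 0 ≤ (n : ℝ) ^ (-(k : ℝ)) := Real.rpow_nonneg (Nat.cast_nonneg n) _
  have h7 : C' * (n : ℝ) ^ (-(k : ℝ)) ≤ |C'| * (N : ℝ) ^ (-(q₀ + 1)) := by
    calc C' * (n : ℝ) ^ (-(k : ℝ)) ≤ |C'| * (n : ℝ) ^ (-(k : ℝ)) :=
          mul_le_mul_of_nonneg_right (le_abs_self _) hn0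
      _ ≤ |C'| * (N : ℝ) ^ (-(q₀ + 1)) :=
          mul_le_mul_of_nonneg_left (h3.trans h4) (abs_nonneg _)
  have h8 : (N : ℝ) ^ (-(q₀ + 1)) * N ≤ |C'| * (N : ℝ) ^ (-(q₀ + 1)) := by
    rw [h5]
    linarith
  have h9 : (N : ℝ) ≤ |C'| := by
    rw [mul_comm] at h8
    exact le_of_mul_le_mul_right h8 hx0
  have h10 : (N₄ : ℝ) ≤ N := by exact_mod_cast n4
  linarith

/-- The two conclusions. -/
theorem two18 (hS : StpPK d ρ β) (hM : MomPK d ρ β) (hT : TailPK d ρ β) {h : Vec d}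
    {p a K c₀ δ : ℝ} (hp : 1 ≤ p)
    (hK : ‖h‖ ≤ K) (hc₀ : 0 < c₀) (hδ : 0 < δ) {Ed : ℕ → ℝ}
    (hEd : ∀ q : ℕ, ∃ C : ℝ, ∀ n : ℕ, 1 ≤ n → Ed n ≤ C * (n : ℝ) ^ (-(q : ℝ)))
    (hfam : ∀ t : ℝ, 0 < t → t ≤ δ → ∃ (r : Vec d) (σ : ℝ), ‖r‖ ≤ 1 ∧ |σ| ≤ K ∧
      c₀ * t ^ p ≤ lam ρ β (h + r) - lam ρ β h - σ ∧
      ∀ n : ℕ, 1 ≤ n → ∀ R : ℝ, (n : ℝ) ^ a * t ≤ R → Ex ρ β h r σ n R ≤ Ed n) :
    1 ≤ p * a ∧ ∀ x : ℝ, 0 < x → ¬ FlF ρ β h x → 1 + (p - 1) * x ≤ p * a := by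
  constructor
  · have h1 := core18 hS hT hp hK hc₀ hδ hEd hfam (y := 0) (qM := 0) (fun N₀ => by
      refine ⟨max N₀ 2, le_max_left _ _, fun u hu _ => ?_⟩
      have h2 : (2 : ℝ) ≤ ((max N₀ 2 : ℕ) : ℝ) := by exact_mod_cast le_max_right _ _
      have h3 : Real.log 2 ≤ Real.log ((max N₀ 2 : ℕ) : ℝ) := Real.log_le_log (by norm_num) h2
      have h4 := Real.log_two_gt_d9
      rw [Real.rpow_zero]
      linarith)
    linarith
  · intro x hx hF
    obtain ⟨q, hq, Hm⟩ := hM h x hx hF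
    refine core18 hS hT hp hK hc₀ hδ hEd hfam (y := x) (qM := q) (fun N₀ => ?_)
    obtain ⟨N, hN, hP⟩ := Hm (max N₀ 1)
    have hN1 : (1 : ℝ) ≤ N := by exact_mod_cast (le_max_right _ _).trans hN
    refine ⟨N, (le_max_left _ _).trans hN, fun u hu hab => ?_⟩
    have h3 : 0 ≤ Real.log N := Real.log_nonneg hN1
    by_contra hcon
    rw [not_le] at hcon
    have h4 := hab ((N : ℝ) ^ x / 8) (by linarith)
    linarith

/-- **MainT.** -/
theorem mainT18 (hS : StpPK d ρ β) (hM : MomPK d ρ β) (hT : TailPK d ρ β) : MainT d ρ β := by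
  intro h v p a hp hlo htb
  obtain ⟨c₀, hc₀, δ, hδ, hr⟩ := hlo
  refine two18 hS hM hT (K := ‖h‖ + ‖v‖) (δ := min δ 1) hp
    (by linarith [norm_nonneg v]) hc₀ (lt_min hδ one_pos)
    (Ed := fun n => ∫ η, (1 - PolT β h η (tube d n v ((n : ℝ) ^ a))) ∂(law d ρ)) htb ?_
  intro t ht0 htδ
  obtain ⟨r, hrt, hgap⟩ := hr t ht0 (htδ.trans (min_le_left _ _))
  have ht1 : t ≤ 1 := htδ.trans (min_le_right _ _)
  refine ⟨r, inner ℝ v r, by rw [hrt]; exact ht1, ?_, hgap, ?_⟩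
  · have h1 := abs_real_inner_le_norm v r
    rw [hrt] at h1
    have h2 : ‖v‖ * t ≤ ‖v‖ * 1 := mul_le_mul_of_nonneg_left ht1 (norm_nonneg _)
    linarith [norm_nonneg h]
  · intro n hn R hR
    have hsub : tube d n v ((n : ℝ) ^ a) ⊆ slb d n r (inner ℝ v r) R := by
      intro s hs i hi
      have h1 := hs i hi
      have h2 : inner ℝ r (emb (pos s i)) - i * inner ℝ v r =
          inner ℝ r (emb (pos s i) - (i : ℝ) • v) := by
        rw [inner_sub_right, real_inner_smul_right, real_inner_comm v r]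
      rw [h2]
      have h3 := abs_real_inner_le_norm r (emb (pos s i) - (i : ℝ) • v)
      rw [hrt] at h3
      have h4 : t * ‖emb (pos s i) - (i : ℝ) • v‖ ≤ t * (n : ℝ) ^ a :=
        mul_le_mul_of_nonneg_left h1 ht0.le
      linarith [mul_comm t ((n : ℝ) ^ a)]
    unfold Ex
    refine integral_mono_of_nonneg (Eventually.of_forall fun η => ?_) ?_
      (Eventually.of_forall fun η => ?_)
    · exact sub_nonneg.2 (PolT_le_one β h η _)
    · refine Integrable.mono' (integrable_const (1 : ℝ))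
        ((measurable_PolT β h _).const_sub 1).aestronglyMeasurable
        (Eventually.of_forall fun η => ?_)
      have h5 := PolT_le_one β h η (tube d n v ((n : ℝ) ^ a))
      have h6 := PolT_nonneg β h η (tube d n v ((n : ℝ) ^ a))
      rw [Real.norm_eq_abs, abs_of_nonneg (by linarith)]
      linarith
    · exact sub_le_sub_left (PolT_mono β h η hsub) 1

/-- **MainL.** -/
theorem mainL18 (hS : StpPK d ρ β) (hM : MomPK d ρ β) (hT : TailPK d ρ β) : MainL d ρ β := by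
  intro h w s p a hp hlo hsb
  obtain ⟨c₀, δ, hc₀, hδ, hr⟩ := hlo
  have hw0 : 0 < 1 / (‖w‖ + 1) := by positivity
  refine two18 hS hM hT (K := ‖h‖ + |s|) (δ := min δ (min 1 (1 / (‖w‖ + 1)))) hp
    (by linarith [abs_nonneg s]) hc₀ (lt_min hδ (lt_min one_pos hw0))
    (Ed := fun n => Ex ρ β h w s n ((n : ℝ) ^ a)) hsb ?_
  intro t ht0 htδ
  have ht1 : t ≤ 1 := (htδ.trans (min_le_right _ _)).trans (min_le_left _ _)
  have ht2 : t ≤ 1 / (‖w‖ + 1) := (htδ.trans (min_le_right _ _)).trans (min_le_right _ _)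
  refine ⟨t • w, s * t, ?_, ?_, hr t ht0 (htδ.trans (min_le_left _ _)), ?_⟩
  · rw [norm_smul, Real.norm_of_nonneg ht0.le]
    rw [le_div_iff₀ (by positivity)] at ht2
    nlinarith [norm_nonneg w]
  · rw [abs_mul, abs_of_pos ht0]
    have h2 : |s| * t ≤ |s| * 1 := mul_le_mul_of_nonneg_left ht1 (abs_nonneg _)
    linarith [norm_nonneg h]
  · intro n hn R hR
    have hsub : slb d n w s ((n : ℝ) ^ a) ⊆ slb d n (t • w) (s * t) R := by
      intro q hq i hi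
      have h1 := hq i hi
      have h2 : inner ℝ (t • w) (emb (pos q i)) - i * (s * t) =
          t * (inner ℝ w (emb (pos q i)) - i * s) := by
        rw [real_inner_smul_left]
        ring
      rw [h2, abs_mul, abs_of_pos ht0]
      have h4 := mul_le_mul_of_nonneg_left h1 ht0.le
      linarith [mul_comm t ((n : ℝ) ^ a)]
    unfold Ex
    refine integral_mono_of_nonneg (Eventually.of_forall fun η => ?_) ?_
      (Eventually.of_forall fun η => ?_)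
    · exact sub_nonneg.2 (PolT_le_one β h η _)
    · refine Integrable.mono' (integrable_const (1 : ℝ))
        ((measurable_PolT β h _).const_sub 1).aestronglyMeasurable
        (Eventually.of_forall fun η => ?_)
      have h5 := PolT_le_one β h η (slb d n w s ((n : ℝ) ^ a))
      have h6 := PolT_nonneg β h η (slb d n w s ((n : ℝ) ^ a))
      rw [Real.norm_eq_abs, abs_of_nonneg (by linarith)]
      linarith
    · exact sub_le_sub_left (PolT_mono β h η hsub) 1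

end Pool.Agent.W_7d29a1_PK.Main18
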