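import Pool.Agent.W_7d29a1_PK.DefsPK2

/-!
The second half of the KPZ relation at one tilt: the theorems for tubes and for slabs, from the
step at one length.
-/

namespace Pool.Agent.W_7d29a1_PK

open MeasureTheory ProbabilityTheory Filter Topology Pool.Agent.W_MP_7d29a1_pr
  Pool.Agent.W_7d29a1_h46 Pool.Agent.W_7d29a1_h46u Pool.Agent.W_7d29a1_D2
  Pool.Agent.W_7d29a1_D2.B35 Pool.Agent.W_7d29a1_Q29 Pool.Agent.W_7d29a1_R34
  Pool.Agent.W_7d29a1_SP Pool.Agent.W_7d29a1_V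

namespace M83

/-- The upper quantile. -/
lemma quant {Ω : Type*} [MeasurableSpace Ω] (P : Measure Ω) [IsProbabilityMeasure P] (Y : Ω → ℝ)
    {b p0 T : ℝ} (hT0 : 0 ≤ T) (hTail : P.real {ω | b + T ≤ Y ω} < p0) :
    ∃ u : ℝ, 0 ≤ u ∧ u ≤ T ∧ P.real {ω | b + u < Y ω} ≤ p0 ∧
      (u = 0 ∨ p0 ≤ P.real {ω | b + u / 2 ≤ Y ω}) ∧
      ∀ s : ℝ, 0 ≤ s → p0 ≤ P.real {ω | b + s ≤ Y ω} → s ≤ u := by
  classical
  set S : Set ℝ := insert 0 {s : ℝ | 0 ≤ s ∧ p0 ≤ P.real {ω | b + s ≤ Y ω}} with hS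
  have hub : ∀ s ∈ S, s ≤ T := by
    intro s hs
    rcases hs with hs | ⟨h0, h1⟩
    · rw [hs]; exact hT0
    · by_contra hlt
      push Not at hlt
      have h2 : P.real {ω | b + s ≤ Y ω} ≤ P.real {ω | b + T ≤ Y ω} :=
        measureReal_mono (fun ω hω => by
          have : b + s ≤ Y ω := hω
          show b + T ≤ Y ω
          linarith)
      linarith
  have hbdd : BddAbove S := ⟨T, hub⟩
  have hne : S.Nonempty := ⟨0, Set.mem_insert _ _⟩
  set u := sSup S with hu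
  have hu0 : 0 ≤ u := le_csSup hbdd (Set.mem_insert _ _)
  refine ⟨u, hu0, csSup_le hne hub, ?_, ?_, ?_⟩
  · have hmono : Monotone fun k : ℕ => {ω | b + (u + 1 / ((k : ℝ) + 1)) ≤ Y ω} := by
      intro k l hkl ω hω
      have h1 : b + (u + 1 / ((k : ℝ) + 1)) ≤ Y ω := hω
      show b + (u + 1 / ((l : ℝ) + 1)) ≤ Y ω
      have h2 : (1 : ℝ) / ((l : ℝ) + 1) ≤ 1 / ((k : ℝ) + 1) := by
        have : (k : ℝ) ≤ l := by exact_mod_cast hkl
        exact one_div_le_one_div_of_le (by positivity) (by linarith)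
      linarith
    have hun : {ω | b + u < Y ω} = ⋃ k : ℕ, {ω | b + (u + 1 / ((k : ℝ) + 1)) ≤ Y ω} := by
      ext ω
      simp only [Set.mem_setOf_eq, Set.mem_iUnion]
      constructor
      · intro h
        obtain ⟨k, hk⟩ := exists_nat_one_div_lt (sub_pos.2 h)
        exact ⟨k, by linarith⟩
      · rintro ⟨k, hk⟩
        have : (0 : ℝ) < 1 / ((k : ℝ) + 1) := by positivity
        linarith
    have htend := tendsto_measure_iUnion_atTop (μ := P) hmono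
    have htend2 : Tendsto (fun k : ℕ => P.real {ω | b + (u + 1 / ((k : ℝ) + 1)) ≤ Y ω}) atTop
        (𝓝 (P.real {ω | b + u < Y ω})) := by
      rw [hun]
      exact (ENNReal.tendsto_toReal (measure_ne_top P _)).comp htend
    refine le_of_tendsto' htend2 fun k => ?_
    by_contra hlt
    push Not at hlt
    have hpos : (0 : ℝ) < 1 / ((k : ℝ) + 1) := by positivity
    have hmem : u + 1 / ((k : ℝ) + 1) ∈ S :=
      Set.mem_insert_of_mem _ ⟨by linarith, hlt.le⟩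
    have := le_csSup hbdd hmem
    linarith
  · rcases hu0.eq_or_lt with h | h
    · exact Or.inl h.symm
    · right
      obtain ⟨s, hs, hs2⟩ := exists_lt_of_lt_csSup hne (show u / 2 < sSup S by linarith)
      rcases hs with hs | ⟨h0, h1⟩
      · rw [hs] at hs2; linarith
      · refine h1.trans (measureReal_mono fun ω hω => ?_)
        have : b + s ≤ Y ω := hω
        show b + u / 2 ≤ Y ω
        linarith
  · intro s hs hs2
    exact le_csSup hbdd (Set.mem_insert_of_mem _ ⟨hs, hs2⟩)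

variable {d : ℕ} {ρ : Measure ℝ} {β : ℝ}

lemma slb_mono (w : Vec d) (s : ℝ) (n : ℕ) {r r' : ℝ} (h : r ≤ r') :
    slb d n w s r ⊆ slb d n w s r' := fun _ hq i hi => (hq i hi).trans h

lemma integrable_out [IsProbabilityMeasure ρ] (h : Vec d) (n : ℕ) (E : Set (Fin n → Step d)) :
    Integrable (fun η : Env d => 1 - PolT β h η E) (law d ρ) := by
  refine (integrable_const (1 : ℝ)).mono' ((measurable_PolT β h _).const_sub 1).aestronglyMeasurable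
    (Filter.Eventually.of_forall fun η => ?_)
  rw [Real.norm_eq_abs, abs_le]
  have e1 := PolT_le_one β h η E
  have e2 := PolT_nonneg β h η E
  exact ⟨by linarith, by linarith⟩

lemma out_mono [IsProbabilityMeasure ρ] (h : Vec d) (n : ℕ) {E E' : Set (Fin n → Step d)}
    (hE : E ⊆ E') :
    ∫ η, (1 - PolT β h η E') ∂(law d ρ) ≤ ∫ η, (1 - PolT β h η E) ∂(law d ρ) :=
  integral_mono (integrable_out h n E') (integrable_out h n E)
    fun η => sub_le_sub_left (PolT_mono β h η hE) 1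

lemma Ex_anti [IsProbabilityMeasure ρ] (h w : Vec d) (s : ℝ) (n : ℕ) {r r' : ℝ} (hr : r ≤ r') :
    Ex ρ β h w s n r' ≤ Ex ρ β h w s n r :=
  out_mono h n (slb_mono w s n hr)

/-- The comparison of powers for the width. -/
lemma width {p y a c C c0 w N n t : ℝ} (hp : 1 ≤ p) (hc : 0 < c) (hC : 0 < C)
    (hc0 : 0 < c0) (hN : 1 ≤ N) (hn : N ≤ n) (hn2 : n ≤ 2 * N) (hw : N ^ y / 8 ≤ w)
    (ht : 0 < t) (htp : t ^ p = C * w / (c0 * N))
    (hev : C * 2 ^ |a * p| * N ^ (a * p) ≤ c0 * c ^ p * (1 / 8) ^ (p - 1) * N ^ (1 + y * (p - 1))) :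
    t * n ^ a ≤ c * w := by
  have hN0 : 0 < N := by linarith
  have hn0 : 0 < n := by linarith
  have hp0 : 0 < p := by linarith
  have hw0 : 0 < w := lt_of_lt_of_le (by positivity) hw
  have hna : n ^ (a * p) ≤ 2 ^ |a * p| * N ^ (a * p) := by
    rcases le_total 0 (a * p) with h | h
    · rw [abs_of_nonneg h, ← Real.mul_rpow (by norm_num) hN0.le]
      exact Real.rpow_le_rpow hn0.le hn2 h
    · have h1 : n ^ (a * p) ≤ N ^ (a * p) := Real.rpow_le_rpow_of_nonpos hN0 hn h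
      have h2 : (1 : ℝ) ≤ 2 ^ |a * p| := Real.one_le_rpow (by norm_num) (abs_nonneg _)
      have h3 : 0 < N ^ (a * p) := Real.rpow_pos_of_pos hN0 _
      nlinarith
  have hwp : (1 / 8) ^ (p - 1) * N ^ (y * (p - 1)) ≤ w ^ (p - 1) := by
    have h1 : (N ^ y / 8) ^ (p - 1) ≤ w ^ (p - 1) :=
      Real.rpow_le_rpow (by positivity) hw (by linarith)
    have h2 : (N ^ y / 8) ^ (p - 1) = (1 / 8) ^ (p - 1) * N ^ (y * (p - 1)) := by
      rw [show N ^ y / 8 = 1 / 8 * N ^ y by ring, Real.mul_rpow (by norm_num) (by positivity),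
        Real.rpow_mul hN0.le]
    rw [← h2]; exact h1
  have key : (t * n ^ a) ^ p ≤ (c * w) ^ p := by
    rw [Real.mul_rpow ht.le (by positivity), Real.mul_rpow hc.le hw0.le, htp,
      ← Real.rpow_mul hn0.le]
    have h3 : w ^ p = w ^ (p - 1) * w := by
      rw [← Real.rpow_add_one hw0.ne']
      congr 1; ring
    have h4 : N ^ (1 + y * (p - 1)) = N * N ^ (y * (p - 1)) := by
      rw [Real.rpow_add hN0, Real.rpow_one]
    have hcp : 0 < c ^ p := Real.rpow_pos_of_pos hc _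
    rw [h4] at hev
    have h5 : C * n ^ (a * p) ≤ c0 * c ^ p * N * w ^ (p - 1) := by
      calc C * n ^ (a * p) ≤ C * (2 ^ |a * p| * N ^ (a * p)) := by gcongr
        _ = C * 2 ^ |a * p| * N ^ (a * p) := by ring
        _ ≤ c0 * c ^ p * (1 / 8) ^ (p - 1) * (N * N ^ (y * (p - 1))) := hev
        _ = c0 * c ^ p * N * ((1 / 8) ^ (p - 1) * N ^ (y * (p - 1))) := by ring
        _ ≤ c0 * c ^ p * N * w ^ (p - 1) := by gcongr
    rw [h3]
    rw [div_mul_eq_mul_div, div_le_iff₀ (by positivity)]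
    calc C * w * n ^ (a * p) = C * n ^ (a * p) * w := by ring
      _ ≤ c0 * c ^ p * N * w ^ (p - 1) * w := by gcongr
      _ = c ^ p * (w ^ (p - 1) * w) * (c0 * N) := by ring
  exact (Real.rpow_le_rpow_iff (by positivity) (by positivity) hp0).1 key

/-- A comparison of powers for large natural numbers. -/
lemma ev_pow {A B e f : ℝ} (hB : 0 < B) (hef : e < f) :
    ∀ᶠ N : ℕ in atTop, A * (N : ℝ) ^ e ≤ B * (N : ℝ) ^ f := by
  have h1 : Tendsto (fun N : ℕ => (N : ℝ) ^ (f - e)) atTop atTop :=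
    (tendsto_rpow_atTop (by linarith)).comp tendsto_natCast_atTop_atTop
  filter_upwards [h1.eventually_ge_atTop (A / B), eventually_ge_atTop 1] with N hN hN1
  have hN0 : (0 : ℝ) < N := by exact_mod_cast hN1
  have h2 : (N : ℝ) ^ f = (N : ℝ) ^ (f - e) * (N : ℝ) ^ e := by
    rw [← Real.rpow_add hN0]; congr 1; ring
  rw [h2]
  rw [div_le_iff₀ hB] at hN
  have h3 : 0 < (N : ℝ) ^ e := Real.rpow_pos_of_pos hN0 _
  nlinarith

/-- The core of both theorems. -/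
theorem core [IsProbabilityMeasure ρ] (hS : StpPK d ρ β) (hTl : TailPK d ρ β) {h : Vec d}
    {K p a y c0 δ Q0 : ℝ} (hK : ‖h‖ ≤ K) (hp : 1 ≤ p) (hy : 0 ≤ y) (hc0 : 0 < c0) (hδ : 0 < δ)
    (G : ℕ → ℝ)
    (hloc : ∀ t : ℝ, 0 < t → t ≤ δ → ∃ (r : Vec d) (σ : ℝ), ‖r‖ ≤ 1 ∧ |σ| ≤ K ∧
      c0 * t ^ p ≤ lam ρ β (h + r) - lam ρ β h - σ ∧
        ∀ n : ℕ, Ex ρ β h r σ n (t * (n : ℝ) ^ a) ≤ G n)
    (hG : ∀ q : ℕ, ∃ C : ℝ, ∀ n : ℕ, 1 ≤ n → G n ≤ C * (n : ℝ) ^ (-(q : ℝ)))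
    (hbig : ∀ N₀ : ℕ, ∃ N : ℕ, N₀ ≤ N ∧ (y = 0 ∨ (N : ℝ) ^ (-Q0) ≤
      (law d ρ).real {η | N * lam ρ β h + (N : ℝ) ^ y / 8 ≤ X β h η N})) :
    1 + (p - 1) * y ≤ p * a := by
  by_contra hcon
  push Not at hcon
  have hp0 : 0 < p := by linarith
  obtain ⟨q, c, C, hq, hc, hC, hS⟩ := hS K
  have hC0 : 0 < C := by linarith
  set Q := max q Q0 with hQ
  have hQq : q ≤ Q := le_max_left _ _
  have hQ0 : 0 < Q := lt_of_lt_of_le hq hQq
  obtain ⟨q₀, hq₀, N₀, hS⟩ := hS Q 0 hQ0 le_rfl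
  obtain ⟨N₁, hTl⟩ := hTl h (Q + 1) (1 / 4) (by norm_num)
  obtain ⟨CG, hCG⟩ := hG (⌈q₀⌉₊ + 1)
  have ev1 : ∀ᶠ N : ℕ in atTop, C * 2 ^ |a * p| * (N : ℝ) ^ (a * p) ≤
      c0 * c ^ p * (1 / 8) ^ (p - 1) * (N : ℝ) ^ (1 + y * (p - 1)) :=
    ev_pow (by positivity) (by nlinarith)
  have ev2 : ∀ᶠ N : ℕ in atTop, 3 * C * (N : ℝ) ^ (3 / 4 : ℝ) ≤ c0 * δ ^ p * (N : ℝ) ^ (1 : ℝ) :=
    ev_pow (by positivity) (by norm_num)
  obtain ⟨N₂, hN₂⟩ := Filter.eventually_atTop.1 (ev1.and ev2)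
  obtain ⟨N, hNbig, hluck⟩ := hbig (N₀ + N₁ + N₂ + 3 + ⌈|CG|⌉₊)
  obtain ⟨hev1, hev2⟩ := hN₂ N (by omega)
  have hN3 : 3 ≤ N := by omega
  have hN3' : (3 : ℝ) ≤ N := by exact_mod_cast hN3
  have hN0 : (0 : ℝ) < N := by linarith
  have hlog1 : 1 ≤ Real.log N := by
    rw [Real.le_log_iff_exp_le hN0]
    have := Real.exp_one_lt_d9
    linarith
  have hlog2 : Real.log N ≤ 2 * (N : ℝ) ^ (3 / 4 : ℝ) := by
    have h1 := Real.log_le_rpow_div hN0.le (show (0 : ℝ) < 3 / 4 by norm_num)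
    have h2 : 0 ≤ (N : ℝ) ^ (3 / 4 : ℝ) := by positivity
    rw [div_eq_mul_inv] at h1
    nlinarith
  -- the quantile
  have hTail := hTl N (by omega)
  rw [show (1 / 2 + 1 / 4 : ℝ) = 3 / 4 by norm_num] at hTail
  have hTail' : (law d ρ).real {η | N * lam ρ β h + (N : ℝ) ^ (3 / 4 : ℝ) ≤ X β h η N} <
      (N : ℝ) ^ (-Q) := by
    refine lt_of_le_of_lt hTail ?_
    exact Real.rpow_lt_rpow_of_exponent_lt (by linarith) (by linarith)
  obtain ⟨u, hu0, huT, hu1, hu2, hu3⟩ := quant (law d ρ) (fun η => X β h η N)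
    (by positivity) hTail'
  set w := u + Real.log N with hw
  have hw1 : 1 ≤ w := by linarith
  have hw0 : 0 < w := by linarith
  have hwbig : (N : ℝ) ^ y / 8 ≤ w := by
    rcases hluck with h0 | h1
    · rw [h0, Real.rpow_zero]; linarith
    · have h2 : (N : ℝ) ^ (-Q) ≤ (N : ℝ) ^ (-Q0) :=
        Real.rpow_le_rpow_of_exponent_le (by linarith) (by
          have := le_max_right q Q0
          linarith)
      have := hu3 _ (by positivity) (h2.trans h1)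
      linarith
  have hw3 : w ≤ 3 * (N : ℝ) ^ (3 / 4 : ℝ) := by linarith
  -- the tilt
  set t := (C * w / (c0 * N)) ^ (1 / p) with ht
  have hbase : 0 < C * w / (c0 * N) := by positivity
  have ht0 : 0 < t := Real.rpow_pos_of_pos hbase _
  have htp : t ^ p = C * w / (c0 * N) := by
    rw [ht, ← Real.rpow_mul hbase.le, one_div, inv_mul_cancel₀ hp0.ne', Real.rpow_one]
  have htδ : t ≤ δ := by
    rw [← Real.rpow_le_rpow_iff ht0.le hδ.le hp0, htp, div_le_iff₀ (by positivity)]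
    rw [Real.rpow_one] at hev2
    calc C * w ≤ C * (3 * (N : ℝ) ^ (3 / 4 : ℝ)) := by gcongr
      _ = 3 * C * (N : ℝ) ^ (3 / 4 : ℝ) := by ring
      _ ≤ c0 * δ ^ p * N := hev2
      _ = δ ^ p * (c0 * N) := by ring
  obtain ⟨r, σ, hr, hσ, hlow, hEx⟩ := hloc t ht0 htδ
  have hgap : C * (u + Real.log N) ≤ N * (lam ρ β (h + r) - lam ρ β h - σ) := by
    rw [htp] at hlow
    calc C * (u + Real.log N) = N * (c0 * (C * w / (c0 * N))) := by
          rw [← hw]; field_simp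
      _ ≤ _ := by gcongr
  obtain ⟨n, hn1, hn2, hn3⟩ := hS N (by omega) h r σ hK hr hσ u hu0
    (hu1.trans (Real.rpow_le_rpow_of_exponent_le (by linarith) (by linarith)))
    (by
      rcases hu2 with h0 | h1
      · left; rw [h0]; simp
      · exact Or.inr h1) hgap
  have hn1' : (N : ℝ) ≤ n := by exact_mod_cast hn1
  have hn2' : (n : ℝ) ≤ 2 * N := by exact_mod_cast hn2
  have hn0 : (0 : ℝ) < n := by linarith
  have hwid : t * (n : ℝ) ^ a ≤ c * w :=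
    width hp hc hC0 hc0 (by linarith) hn1' hn2' hwbig ht0 htp hev1
  have hfin : (N : ℝ) ^ (-q₀) ≤ CG * (n : ℝ) ^ (-((⌈q₀⌉₊ + 1 : ℕ) : ℝ)) :=
    hn3.trans ((Ex_anti h r σ n hwid).trans ((hEx n).trans (hCG n (by omega))))
  have h5 : (n : ℝ) ^ (-((⌈q₀⌉₊ + 1 : ℕ) : ℝ)) ≤ (N : ℝ) ^ (-(q₀ + 1)) := by
    have h6 : (n : ℝ) ^ (-((⌈q₀⌉₊ + 1 : ℕ) : ℝ)) ≤ (N : ℝ) ^ (-((⌈q₀⌉₊ + 1 : ℕ) : ℝ)) :=
      Real.rpow_le_rpow_of_nonpos hN0 hn1' (by
        have : (0 : ℝ) ≤ ((⌈q₀⌉₊ + 1 : ℕ) : ℝ) := Nat.cast_nonneg _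
        linarith)
    refine h6.trans (Real.rpow_le_rpow_of_exponent_le (by linarith) ?_)
    have h7 : q₀ ≤ (⌈q₀⌉₊ : ℝ) := Nat.le_ceil _
    push_cast
    linarith
  have h8 : (N : ℝ) ^ (-q₀) ≤ |CG| * (N : ℝ) ^ (-(q₀ + 1)) := by
    refine hfin.trans ?_
    calc CG * (n : ℝ) ^ (-((⌈q₀⌉₊ + 1 : ℕ) : ℝ)) ≤ |CG| * (n : ℝ) ^ (-((⌈q₀⌉₊ + 1 : ℕ) : ℝ)) := by
          gcongr; exact le_abs_self _
      _ ≤ _ := by gcongr
  have h9 : (N : ℝ) ^ (-q₀) = N * (N : ℝ) ^ (-(q₀ + 1)) := by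
    rw [show -q₀ = 1 + -(q₀ + 1) by ring, Real.rpow_add hN0, Real.rpow_one]
  rw [h9] at h8
  have h10 : (0 : ℝ) < (N : ℝ) ^ (-(q₀ + 1)) := Real.rpow_pos_of_pos hN0 _
  have h11 : (N : ℝ) ≤ |CG| := le_of_mul_le_mul_right h8 h10
  have h12 : |CG| ≤ (⌈|CG|⌉₊ : ℝ) := Nat.le_ceil _
  have h13 : ((⌈|CG|⌉₊ : ℕ) : ℝ) + 3 ≤ N := by
    have : ⌈|CG|⌉₊ + 3 ≤ N := by omega
    exact_mod_cast this
  linarith

end M83

open M83

/-- MAIN, tubes. -/
theorem mainT83 {d : ℕ} {ρ : Measure ℝ} [IsProbabilityMeasure ρ] {β : ℝ} (hS : StpPK d ρ β)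
    (hM : MomPK d ρ β) (hTl : TailPK d ρ β) : MainT d ρ β := by
  intro h v p a hp hL hTb
  obtain ⟨c0, hc0, δ, hδ, hL⟩ := hL
  have main : ∀ y Q0 : ℝ, 0 ≤ y → (∀ N₀ : ℕ, ∃ N : ℕ, N₀ ≤ N ∧ (y = 0 ∨ (N : ℝ) ^ (-Q0) ≤
      (law d ρ).real {η | N * lam ρ β h + (N : ℝ) ^ y / 8 ≤ X β h η N})) →
      1 + (p - 1) * y ≤ p * a := by
    intro y Q0 hy hbig
    refine core (K := max ‖h‖ ‖v‖) (δ := min δ 1) hS hTl (le_max_left _ _) hp hy hc0
      (lt_min hδ one_pos) (fun n => ∫ η, (1 - PolT β h η (tube d n v ((n : ℝ) ^ a))) ∂(law d ρ))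
      ?_ hTb hbig
    intro t ht ht2
    obtain ⟨r, hr, hg⟩ := hL t ht (ht2.trans (min_le_left _ _))
    refine ⟨r, inner ℝ v r, by rw [hr]; exact ht2.trans (min_le_right _ _), ?_, hg, ?_⟩
    · have h1 := abs_real_inner_le_norm v r
      have h2 : ‖r‖ ≤ 1 := by rw [hr]; exact ht2.trans (min_le_right _ _)
      have h3 : ‖v‖ ≤ max ‖h‖ ‖v‖ := le_max_right _ _
      nlinarith [norm_nonneg v]
    · intro n
      refine out_mono h n fun s hs i hi => ?_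
      have h1 : inner ℝ r (emb (pos s i)) - i * inner ℝ v r =
          inner ℝ r (emb (pos s i) - (i : ℝ) • v) := by
        rw [inner_sub_right, inner_smul_right, real_inner_comm v r]
      rw [h1]
      refine (abs_real_inner_le_norm _ _).trans ?_
      rw [hr]
      exact mul_le_mul_of_nonneg_left (hs i hi) ht.le
  refine ⟨by simpa using main 0 0 le_rfl fun N₀ => ⟨N₀, le_rfl, Or.inl rfl⟩, fun x hx hF => ?_⟩
  obtain ⟨q, hq, hM⟩ := hM h x hx hF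
  exact main x q hx.le fun N₀ => by
    obtain ⟨N, hN, h1⟩ := hM N₀
    exact ⟨N, hN, Or.inr h1⟩

/-- MAIN, slabs. -/
theorem mainL83 {d : ℕ} {ρ : Measure ℝ} [IsProbabilityMeasure ρ] {β : ℝ} (hS : StpPK d ρ β)
    (hM : MomPK d ρ β) (hTl : TailPK d ρ β) : MainL d ρ β := by
  intro h w s p a hp hL hTb
  obtain ⟨c0, δ, hc0, hδ, hL⟩ := hL
  have main : ∀ y Q0 : ℝ, 0 ≤ y → (∀ N₀ : ℕ, ∃ N : ℕ, N₀ ≤ N ∧ (y = 0 ∨ (N : ℝ) ^ (-Q0) ≤
      (law d ρ).real {η | N * lam ρ β h + (N : ℝ) ^ y / 8 ≤ X β h η N})) →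
      1 + (p - 1) * y ≤ p * a := by
    intro y Q0 hy hbig
    have hw1 : 0 < 1 + ‖w‖ := by positivity
    refine core (K := max ‖h‖ |s|) (δ := min δ (1 / (1 + ‖w‖))) hS hTl (le_max_left _ _) hp hy hc0
      (lt_min hδ (by positivity)) (fun n => Ex ρ β h w s n ((n : ℝ) ^ a)) ?_ hTb hbig
    intro t ht ht2
    have ht3 : t ≤ 1 / (1 + ‖w‖) := ht2.trans (min_le_right _ _)
    rw [le_div_iff₀ hw1] at ht3
    have ht4 : t ≤ 1 := by nlinarith [norm_nonneg w]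
    refine ⟨t • w, s * t, ?_, ?_, hL t ht (ht2.trans (min_le_left _ _)), ?_⟩
    · rw [norm_smul, Real.norm_eq_abs, abs_of_pos ht]
      nlinarith
    · rw [abs_mul, abs_of_pos ht]
      have h3 : |s| ≤ max ‖h‖ |s| := le_max_right _ _
      nlinarith [abs_nonneg s]
    · intro n
      refine out_mono h n fun q hq i hi => ?_
      have h1 : inner ℝ (t • w) (emb (pos q i)) - i * (s * t) =
          t * (inner ℝ w (emb (pos q i)) - i * s) := by
        rw [real_inner_smul_left]; ring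
      rw [h1, abs_mul, abs_of_pos ht]
      exact mul_le_mul_of_nonneg_left (hq i hi) ht.le
  refine ⟨by simpa using main 0 0 le_rfl fun N₀ => ⟨N₀, le_rfl, Or.inl rfl⟩, fun x hx hF => ?_⟩
  obtain ⟨q, hq, hM⟩ := hM h x hx hF
  exact main x q hx.le fun N₀ => by
    obtain ⟨N, hN, h1⟩ := hM N₀
    exact ⟨N, hN, Or.inr h1⟩

end Pool.Agent.W_7d29a1_PK
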