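import Pool.Agent.W_7d29a1_PK.Four8
import Pool.Agent.W_7d29a1_PK.DefsPK2

/-!
MOM and MomV: large moments, or a large variance, give a large upper tail (helper8).
-/

set_option autoImplicit false

namespace Pool.Agent.W_7d29a1_PK

open MeasureTheory ProbabilityTheory Filter Topology Pool.Agent.W_MP_7d29a1_pr
  Pool.Agent.W_7d29a1_h46 Pool.Agent.W_7d29a1_h46u Pool.Agent.W_7d29a1_D2 Pool.Agent.W_7d29a1_AM
  Pool.Agent.W_7d29a1_Q29

variable {d : ℕ} {ρ : Measure ℝ} [IsProbabilityMeasure ρ] {β : ℝ}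

/-- If the moments are not bounded by the exponent `x`, the deviations of size `n ^ x` have a
polynomial probability infinitely often. -/
theorem dev8e (hd : 0 < d) (hρ : EM ρ) (h : Vec d) {x : ℝ} (hx : 0 < x)
    (hF : ¬ FlF ρ β h x) : ∃ Q : ℝ, 0 < Q ∧ ∃ᶠ N : ℕ in atTop,
      (N : ℝ) ^ (-Q) ≤ (law d ρ).real {η | (N : ℝ) ^ x ≤ |X β h η N - A ρ β h N|} := by
  unfold FlF at hF
  push Not at hF
  obtain ⟨q, hq⟩ := hF
  refine ⟨2 * q + 1, by positivity, ?_⟩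
  intro hcon
  obtain ⟨N₀, hN₀⟩ := eventually_atTop.1 hcon
  obtain ⟨C1, hC1, m1⟩ := momU (ρ := ρ) hd hρ β q
  obtain ⟨C2, hC2, m2⟩ := momU (ρ := ρ) hd hρ β (2 * q)
  obtain ⟨n, hn, hlt⟩ := hq (1 + C2 + 1 + C1 * (N₀ : ℝ) ^ ((1 / 2 : ℝ) * q))
  have hn0 : (0 : ℝ) < n := by exact_mod_cast hn
  have hn1 : (1 : ℝ) ≤ n := by exact_mod_cast hn
  have hxq : 1 ≤ (n : ℝ) ^ (x * q) := Real.one_le_rpow hn1 (by
    have : (0 : ℝ) ≤ q := Nat.cast_nonneg q
    positivity)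
  have hB0 : 0 ≤ C1 * (N₀ : ℝ) ^ ((1 / 2 : ℝ) * q) := by positivity
  rcases le_or_gt N₀ n with hNn | hNn
  · have hp := hN₀ n hNn
    rw [not_le] at hp
    have i2 := (m2 h n hn).1
    have b2 := (m2 h n hn).2
    obtain ⟨E, hE⟩ : ∃ E : Set (Env d), E = {η | (n : ℝ) ^ x ≤ |X β h η n - A ρ β h n|} := ⟨_, rfl⟩
    have hmX : Measurable fun η : Env d => |X β h η n - A ρ β h n| :=
      ((measurable_X β h n).sub_const _).abs
    have hmE : MeasurableSet E := by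
      rw [hE]
      exact measurableSet_le measurable_const hmX
    rw [← hE] at hp
    have hnq : 0 < (n : ℝ) ^ q := by positivity
    have hpt : ∀ η : Env d, |X β h η n - A ρ β h n| ^ q ≤ ((n : ℝ) ^ x) ^ q +
        (((n : ℝ) ^ q)⁻¹ * |X β h η n - A ρ β h n| ^ (2 * q) +
          (n : ℝ) ^ q * E.indicator (fun _ => (1 : ℝ)) η) := by
      intro η
      obtain ⟨y, hy⟩ : ∃ y : ℝ, y = |X β h η n - A ρ β h n| := ⟨_, rfl⟩
      have hy0 : 0 ≤ y := by rw [hy]; exact abs_nonneg _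
      rw [← hy]
      have hind : 0 ≤ E.indicator (fun _ => (1 : ℝ)) η := Set.indicator_nonneg (fun _ _ => by norm_num) _
      have h1 : 0 ≤ ((n : ℝ) ^ q)⁻¹ * y ^ (2 * q) := by positivity
      have h2 : 0 ≤ (n : ℝ) ^ q * E.indicator (fun _ => (1 : ℝ)) η := by positivity
      rcases lt_or_ge y ((n : ℝ) ^ x) with hyx | hyx
      · have h3 : y ^ q ≤ ((n : ℝ) ^ x) ^ q := pow_le_pow_left₀ hy0 hyx.le q
        linarith
      · have hη : η ∈ E := by
          rw [hE]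
          show (n : ℝ) ^ x ≤ |X β h η n - A ρ β h n|
          rw [← hy]
          exact hyx
        rw [Set.indicator_of_mem hη, mul_one]
        have h3 : 0 ≤ ((n : ℝ) ^ x) ^ q := by positivity
        have h4 : y ^ (2 * q) = (y ^ q) ^ 2 := by rw [mul_comm, pow_mul]
        rw [h4]
        have h5 : y ^ q ≤ ((n : ℝ) ^ q)⁻¹ * (y ^ q) ^ 2 + (n : ℝ) ^ q := by
          obtain ⟨z, hz⟩ : ∃ z : ℝ, z = y ^ q := ⟨_, rfl⟩
          obtain ⟨b, hb⟩ : ∃ b : ℝ, b = (n : ℝ) ^ q := ⟨_, rfl⟩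
          rw [← hz, ← hb]
          have hb0 : 0 < b := by rw [hb]; exact hnq
          have hz0 : 0 ≤ z := by rw [hz]; positivity
          rw [inv_mul_eq_div, ← sub_nonneg]
          have h6 : z ^ 2 / b + b - z = (z ^ 2 + b ^ 2 - z * b) / b := by
            field_simp
          rw [h6]
          apply div_nonneg _ hb0.le
          nlinarith [sq_nonneg (z - b)]
        linarith
    have hint : ∫ η, |X β h η n - A ρ β h n| ^ q ∂(law d ρ) ≤ ((n : ℝ) ^ x) ^ q +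
        (((n : ℝ) ^ q)⁻¹ * ∫ η, |X β h η n - A ρ β h n| ^ (2 * q) ∂(law d ρ) +
          (n : ℝ) ^ q * (law d ρ).real E) := by
      have i1 := (m1 h n hn).1
      have i3 : Integrable (E.indicator (fun _ => (1 : ℝ))) (law d ρ) :=
        (integrable_const 1).indicator hmE
      have j2 : Integrable (fun η : Env d => ((n : ℝ) ^ q)⁻¹ * |X β h η n - A ρ β h n| ^ (2 * q))
          (law d ρ) := i2.const_mul _
      have j3 : Integrable (fun η : Env d => (n : ℝ) ^ q * E.indicator (fun _ => (1 : ℝ)) η)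
          (law d ρ) := i3.const_mul _
      have j23 : Integrable (fun η : Env d => ((n : ℝ) ^ q)⁻¹ * |X β h η n - A ρ β h n| ^ (2 * q) +
          (n : ℝ) ^ q * E.indicator (fun _ => (1 : ℝ)) η) (law d ρ) := j2.add j3
      have j0 : Integrable (fun _ : Env d => ((n : ℝ) ^ x) ^ q) (law d ρ) := integrable_const _
      have j : Integrable (fun η : Env d => ((n : ℝ) ^ x) ^ q +
          (((n : ℝ) ^ q)⁻¹ * |X β h η n - A ρ β h n| ^ (2 * q) +
          (n : ℝ) ^ q * E.indicator (fun _ => (1 : ℝ)) η)) (law d ρ) := j0.add j23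
      have h7 := integral_mono i1 j hpt
      refine h7.trans (le_of_eq ?_)
      rw [integral_add j0 j23, integral_add j2 j3, integral_const_mul, integral_const_mul,
        integral_indicator hmE]
      simp
    have h8 : ((n : ℝ) ^ q)⁻¹ * ∫ η, |X β h η n - A ρ β h n| ^ (2 * q) ∂(law d ρ) ≤ C2 := by
      rw [inv_mul_le_iff₀ hnq]
      refine b2.trans (le_of_eq ?_)
      rw [mul_comm]
      congr 1
      rw [← Real.rpow_natCast]
      congr 1
      push_cast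
      ring
    have h9 : (n : ℝ) ^ q * (law d ρ).real E ≤ 1 := by
      have h10 : (n : ℝ) ^ q * (law d ρ).real E ≤ (n : ℝ) ^ q * (n : ℝ) ^ (-(2 * (q : ℝ) + 1)) :=
        mul_le_mul_of_nonneg_left hp.le hnq.le
      refine h10.trans ?_
      rw [← Real.rpow_natCast, ← Real.rpow_add hn0]
      apply Real.rpow_le_one_of_one_le_of_nonpos hn1
      have : (0 : ℝ) ≤ q := Nat.cast_nonneg q
      linarith
    have h11 : ((n : ℝ) ^ x) ^ q ≤ (n : ℝ) ^ (x * q) := by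
      rw [← Real.rpow_mul_natCast hn0.le]
    have h12 : (C2 + 1) * 1 ≤ (C2 + 1) * (n : ℝ) ^ (x * q) :=
      mul_le_mul_of_nonneg_left hxq (by linarith)
    have h13 : 0 ≤ C1 * (N₀ : ℝ) ^ ((1 / 2 : ℝ) * q) * (n : ℝ) ^ (x * q) :=
      mul_nonneg hB0 (by linarith)
    linarith
  · have b1 := (m1 h n hn).2
    have h1 : (n : ℝ) ^ ((1 / 2 : ℝ) * q) ≤ (N₀ : ℝ) ^ ((1 / 2 : ℝ) * q) := by
      apply Real.rpow_le_rpow hn0.le (by exact_mod_cast hNn.le)
      positivity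
    have h2 : C1 * (n : ℝ) ^ ((1 / 2 : ℝ) * q) ≤ C1 * (N₀ : ℝ) ^ ((1 / 2 : ℝ) * q) :=
      mul_le_mul_of_nonneg_left h1 hC1
    have h3 : (1 + C2 + 1 + C1 * (N₀ : ℝ) ^ ((1 / 2 : ℝ) * q)) * 1 ≤
        (1 + C2 + 1 + C1 * (N₀ : ℝ) ^ ((1 / 2 : ℝ) * q)) * (n : ℝ) ^ (x * q) :=
      mul_le_mul_of_nonneg_left hxq (by linarith)
    linarith

/-- At one length: deviations of size `N ^ y` with a polynomial probability give an upper tail. -/
theorem core8 (hd : 0 < d) (hρ : EM ρ) (hL : LowPK d ρ β) (hA : AmpPK d ρ β) (h : Vec d) {y : ℝ}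
    (hy0 : 0 < y) {Q₁ : ℝ} (hQ₁ : 0 < Q₁) : ∃ Q : ℝ, 0 < Q ∧ ∀ᶠ N : ℕ in atTop,
      (N : ℝ) ^ (-Q₁) ≤ (law d ρ).real {η | (N : ℝ) ^ y ≤ |X β h η N - A ρ β h N|} →
      (N : ℝ) ^ (-Q) ≤ (law d ρ).real {η | N * lam ρ β h + (N : ℝ) ^ y / 8 ≤ X β h η N} := by
  obtain ⟨C₀, hC₀1, NL, hNL⟩ := hL ‖h‖
  have hC₀ : ∀ᶠ N : ℕ in atTop,
      (N : ℝ) ^ (-C₀) ≤ (law d ρ).real {η | N * lam ρ β h - 2 < X β h η N} := by
    filter_upwards [eventually_ge_atTop NL] with N hN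
    exact hNL N hN N le_rfl h le_rfl
  obtain ⟨Cm, hCm, hmean⟩ := mean8 (ρ := ρ) hd hρ β
  obtain ⟨C, hC1, hamp⟩ := hA 1 le_rfl
  obtain ⟨Q', hQ'⟩ : ∃ Q' : ℝ, Q' = Q₁ + |C₀| + 3 := ⟨_, rfl⟩
  have hab := abs_nonneg C₀
  have hab2 := le_abs_self C₀
  have hQ'1 : 1 ≤ Q' := by linarith
  refine ⟨Q' * C, by positivity, ?_⟩
  -- the eventual numbers
  have t1 : Tendsto (fun N : ℕ => (N : ℝ)) atTop atTop := tendsto_natCast_atTop_atTop
  have e1 : ∀ᶠ N : ℕ in atTop, (N : ℝ) ^ y / 8 + 7 ≤ (N : ℝ) ^ y / 2 := by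
    have h1 : Tendsto (fun N : ℕ => (N : ℝ) ^ y) atTop atTop := (tendsto_rpow_atTop hy0).comp t1
    filter_upwards [h1.eventually_ge_atTop 19] with N h2
    linarith
  have e2 : ∀ᶠ N : ℕ in atTop, C * (1 + Q' * Real.log N) ≤ (N : ℝ) ^ y / 2 - 4 := by
    have h1 : Tendsto (fun N : ℕ => (N : ℝ) ^ y) atTop atTop := (tendsto_rpow_atTop hy0).comp t1
    have hCQ : 0 < C * Q' := by nlinarith
    have h2 := t1.eventually ((isLittleO_log_rpow_atTop hy0).bound
      (show (0 : ℝ) < 1 / (4 * (C * Q')) by positivity))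
    filter_upwards [h1.eventually_ge_atTop (4 * (C + 4)), h2, eventually_ge_atTop 1]
      with N h3 h4 h5
    have hN : (1 : ℝ) ≤ N := by exact_mod_cast h5
    rw [Real.norm_of_nonneg (Real.log_nonneg hN), Real.norm_of_nonneg (by positivity)] at h4
    have h6 : C * Q' * Real.log N ≤ (N : ℝ) ^ y / 4 := by
      calc C * Q' * Real.log N ≤ C * Q' * (1 / (4 * (C * Q')) * (N : ℝ) ^ y) :=
            mul_le_mul_of_nonneg_left h4 hCQ.le
        _ = (N : ℝ) ^ y / 4 := by field_simp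
    have h7 : C * (1 + Q' * Real.log N) = C + C * Q' * Real.log N := by ring
    rw [h7]
    linarith
  have e3 : ∀ᶠ N : ℕ in atTop, (N : ℝ) ^ (-Q') ≤ 1 / (Cm * N + 4) := by
    filter_upwards [t1.eventually_ge_atTop (Cm + 4), eventually_ge_atTop 1] with N h3 h5
    have hN : (1 : ℝ) ≤ N := by exact_mod_cast h5
    have hN0 : (0 : ℝ) < N := by linarith
    have h6 : (N : ℝ) ^ (-Q') ≤ (N : ℝ) ^ (-2 : ℝ) :=
      Real.rpow_le_rpow_of_exponent_le hN (by linarith)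
    refine h6.trans ?_
    rw [Real.rpow_neg hN0.le, one_div]
    apply inv_anti₀ (by positivity)
    rw [show (2 : ℝ) = ((2 : ℕ) : ℝ) by norm_num, Real.rpow_natCast]
    nlinarith
  have e4 : ∀ᶠ N : ℕ in atTop, 2 ≤ N := eventually_ge_atTop 2
  filter_upwards [hC₀, e1, e2, e3, e4] with N hlo k1 k2 k3 k4 hdev
  have hN0 : (0 : ℝ) < N := by
    have : 0 < N := by omega
    exact_mod_cast this
  have hN2 : (2 : ℝ) ≤ N := by exact_mod_cast k4
  have hN1 : (1 : ℝ) ≤ N := by linarith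
  obtain ⟨q, hq⟩ : ∃ q : ℝ, q = (N : ℝ) ^ (-Q') := ⟨_, rfl⟩
  have hq0 : 0 < q := by rw [hq]; exact Real.rpow_pos_of_pos hN0 _
  have hqh : q ≤ 1 / 2 := by
    have h1 : (N : ℝ) ^ (-Q') ≤ (N : ℝ) ^ (-1 : ℝ) :=
      Real.rpow_le_rpow_of_exponent_le hN1 (by linarith)
    rw [Real.rpow_neg_one] at h1
    rw [hq]
    refine h1.trans ?_
    rw [one_div]
    exact inv_anti₀ (by norm_num) hN2
  have hlogq : Real.log (1 / q) = Q' * Real.log N := by
    rw [one_div, Real.log_inv, hq, Real.log_rpow hN0]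
    ring
  have hAl : A ρ β h N ≤ N * lam ρ β h := A_le_lam hd hρ β h N
  -- the final estimate from the low event
  have hfin : q ≤ (law d ρ).real {η | X β h η N ≤ N * lam ρ β h - (N : ℝ) ^ y / 2 + 1} →
      (N : ℝ) ^ (-(Q' * C)) ≤ (law d ρ).real {η | N * lam ρ β h + (N : ℝ) ^ y / 8 ≤ X β h η N} := by
    intro hlow
    have h1 : q ≤ (law d ρ).real {η | N * lam ρ β h - 3 < X β h η N} := by
      have h2 : (N : ℝ) ^ (-Q') ≤ (N : ℝ) ^ (-C₀) :=
        Real.rpow_le_rpow_of_exponent_le hN1 (by linarith)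
      rw [hq]
      refine h2.trans (hlo.trans (measureReal_mono ?_))
      intro η hη
      have h3 : N * lam ρ β h - 2 < X β h η N := hη
      show N * lam ρ β h - 3 < X β h η N
      linarith
    have h3 := hamp h N (N * lam ρ β h - (N : ℝ) ^ y / 2 + 1) (N * lam ρ β h - 3) q hq0 hqh (by
      rw [hlogq]
      linarith) hlow h1
    have h4 : q ^ C = (N : ℝ) ^ (-(Q' * C)) := by
      rw [hq, ← Real.rpow_mul hN0.le]
      congr 1
      ring
    rw [← h4]
    refine h3.trans (measureReal_mono ?_)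
    intro η hη
    have h5 : N * lam ρ β h - 3 + 1 * (N * lam ρ β h - 3 - (N * lam ρ β h - (N : ℝ) ^ y / 2 + 1)) <
      X β h η N := hη
    show N * lam ρ β h + (N : ℝ) ^ y / 8 ≤ X β h η N
    linarith
  rcases le_or_gt ((N : ℝ) ^ y / 2) (N * lam ρ β h - A ρ β h N) with ha | ha
  · apply hfin
    rw [hq]
    refine k3.trans ((hmean h N (by omega)).trans (measureReal_mono ?_))
    intro η hη
    have h3 : X β h η N ≤ A ρ β h N + 1 := hη
    show X β h η N ≤ N * lam ρ β h - (N : ℝ) ^ y / 2 + 1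
    linarith
  · -- one of the two sides
    have hsplit : (law d ρ).real {η | (N : ℝ) ^ y ≤ |X β h η N - A ρ β h N|} ≤
        (law d ρ).real {η | N * lam ρ β h + (N : ℝ) ^ y / 8 ≤ X β h η N} +
        (law d ρ).real {η | X β h η N ≤ N * lam ρ β h - (N : ℝ) ^ y / 2 + 1} := by
      refine (measureReal_mono ?_).trans (measureReal_union_le _ _)
      intro η hη
      have h3 : (N : ℝ) ^ y ≤ |X β h η N - A ρ β h N| := hη
      rcases le_abs.1 h3 with h4 | h4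
      · left
        show N * lam ρ β h + (N : ℝ) ^ y / 8 ≤ X β h η N
        linarith
      · right
        show X β h η N ≤ N * lam ρ β h - (N : ℝ) ^ y / 2 + 1
        linarith
    by_contra hcon
    rw [not_le] at hcon
    have h5 : (law d ρ).real {η | X β h η N ≤ N * lam ρ β h - (N : ℝ) ^ y / 2 + 1} < q := by
      by_contra h6
      rw [not_lt] at h6
      exact absurd (hfin h6) (not_le.2 hcon)
    have h7 : (N : ℝ) ^ (-(Q' * C)) ≤ q := by
      rw [hq]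
      apply Real.rpow_le_rpow_of_exponent_le hN1
      nlinarith
    have h8 : 2 * q ≤ (N : ℝ) ^ (-Q₁) := by
      rw [hq]
      have h9 : (N : ℝ) ^ (-Q') ≤ (N : ℝ) ^ (-Q₁ - 1) :=
        Real.rpow_le_rpow_of_exponent_le hN1 (by linarith)
      have h10 : (N : ℝ) ^ (-Q₁ - 1) = (N : ℝ) ^ (-Q₁) / N := by
        rw [Real.rpow_sub_one hN0.ne']
      rw [h10, le_div_iff₀ hN0] at h9
      have h11 : 0 < (N : ℝ) ^ (-Q') := Real.rpow_pos_of_pos hN0 _
      nlinarith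
    linarith

/-- Large moments give a large upper tail. -/
theorem momPK8 (hd : 0 < d) (hρ : EM ρ) (hL : LowPK d ρ β) (hA : AmpPK d ρ β) : MomPK d ρ β := by
  intro h x hx hF
  obtain ⟨Q₁, hQ₁, hfr⟩ := dev8e hd hρ h hx hF
  obtain ⟨Q, hQ, hev⟩ := core8 hd hρ hL hA h hx hQ₁
  refine ⟨Q, hQ, fun N₀ => ?_⟩
  obtain ⟨N, hN, h1, h2⟩ := ((eventually_ge_atTop N₀).and_frequently (hfr.and_eventually hev)).exists
  exact ⟨N, hN, h2 h1⟩

/-- A large variance gives large deviations with a polynomial probability. -/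
theorem devV8 (hd : 0 < d) (hρ : EM ρ) (h : Vec d) {x z : ℝ} (hz : 0 < z) (hzx : z < x)
    (hV : ∀ᶠ n : ℕ in atTop, (n : ℝ) ^ (2 * x) ≤ Va ρ β h n) :
    ∀ᶠ N : ℕ in atTop, (N : ℝ) ^ (-(3 : ℝ)) ≤
      (law d ρ).real {η | (N : ℝ) ^ z ≤ |X β h η N - A ρ β h N|} := by
  obtain ⟨C, hC, m⟩ := momU (ρ := ρ) hd hρ β 4
  obtain ⟨C2, hC2, m2⟩ := momU (ρ := ρ) hd hρ β 2
  have t1 : Tendsto (fun N : ℕ => (N : ℝ)) atTop atTop := tendsto_natCast_atTop_atTop
  have e1 : ∀ᶠ N : ℕ in atTop, 4 * (N : ℝ) ^ (2 * z) ≤ (N : ℝ) ^ (2 * x) := by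
    have h1 : Tendsto (fun N : ℕ => (N : ℝ) ^ (2 * x - 2 * z)) atTop atTop :=
      (tendsto_rpow_atTop (by linarith)).comp t1
    filter_upwards [h1.eventually_ge_atTop 4, eventually_ge_atTop 1] with N h2 h3
    have hN : (1 : ℝ) ≤ N := by exact_mod_cast h3
    have hN0 : (0 : ℝ) < N := by linarith
    have h4 : (N : ℝ) ^ (2 * x) = (N : ℝ) ^ (2 * x - 2 * z) * (N : ℝ) ^ (2 * z) := by
      rw [← Real.rpow_add hN0]
      congr 1
      ring
    rw [h4]
    exact mul_le_mul_of_nonneg_right h2 (by positivity)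
  filter_upwards [hV, e1, t1.eventually_ge_atTop (8 * (C + 1)), eventually_ge_atTop 1]
    with n hv k1 k2 k3
  have hn1 : (1 : ℝ) ≤ n := by exact_mod_cast k3
  have hn0 : (0 : ℝ) < n := by linarith
  obtain ⟨i4, b4⟩ := m h n k3
  have i2 := (m2 h n k3).1
  have b4' : ∫ η, |X β h η n - A ρ β h n| ^ 4 ∂(law d ρ) ≤ C * (n : ℝ) ^ 2 := by
    refine b4.trans (le_of_eq ?_)
    congr 1
    rw [show (1 / 2 : ℝ) * ((4 : ℕ) : ℝ) = ((2 : ℕ) : ℝ) by norm_num, Real.rpow_natCast]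
  obtain ⟨E, hE⟩ : ∃ E : Set (Env d), E = {η | (n : ℝ) ^ z ≤ |X β h η n - A ρ β h n|} := ⟨_, rfl⟩
  have hmE : MeasurableSet E := by
    rw [hE]
    exact measurableSet_le measurable_const ((measurable_X β h n).sub_const _).abs
  rw [← hE]
  obtain ⟨V, hV0⟩ : ∃ V : ℝ, V = (n : ℝ) ^ (2 * x) := ⟨_, rfl⟩
  have hV1 : 1 ≤ V := by
    rw [hV0]
    exact Real.one_le_rpow hn1 (by linarith)
  obtain ⟨ε, hε⟩ : ∃ ε : ℝ, ε = V / (4 * (C + 1) * (n : ℝ) ^ 2) := ⟨_, rfl⟩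
  have hε0 : 0 < ε := by rw [hε]; positivity
  have hz2 : ((n : ℝ) ^ z) ^ 2 = (n : ℝ) ^ (2 * z) := by
    rw [← Real.rpow_mul_natCast hn0.le]
    congr 1
    push_cast
    ring
  have hpt : ∀ η : Env d, (X β h η n - A ρ β h n) ^ 2 ≤ (n : ℝ) ^ (2 * z) +
      (ε * |X β h η n - A ρ β h n| ^ 4 + ε⁻¹ * E.indicator (fun _ => (1 : ℝ)) η) := by
    intro η
    obtain ⟨y, hy⟩ : ∃ y : ℝ, y = |X β h η n - A ρ β h n| := ⟨_, rfl⟩
    have hy0 : 0 ≤ y := by rw [hy]; exact abs_nonneg _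
    rw [← sq_abs (X β h η n - A ρ β h n), ← hy]
    have hind : 0 ≤ E.indicator (fun _ => (1 : ℝ)) η :=
      Set.indicator_nonneg (fun _ _ => by norm_num) _
    have h1 : 0 ≤ ε * y ^ 4 := by positivity
    have h2 : 0 ≤ ε⁻¹ * E.indicator (fun _ => (1 : ℝ)) η := by positivity
    rcases lt_or_ge y ((n : ℝ) ^ z) with hyx | hyx
    · have h3 : y ^ 2 ≤ ((n : ℝ) ^ z) ^ 2 := pow_le_pow_left₀ hy0 hyx.le 2
      rw [hz2] at h3
      linarith
    · have hη : η ∈ E := by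
        rw [hE]
        show (n : ℝ) ^ z ≤ |X β h η n - A ρ β h n|
        rw [← hy]
        exact hyx
      rw [Set.indicator_of_mem hη, mul_one]
      have h3 : 0 ≤ (n : ℝ) ^ (2 * z) := by positivity
      have h4 : ε * y ^ 4 + ε⁻¹ - y ^ 2 = (ε ^ 2 * (y ^ 2) ^ 2 + 1 - ε * y ^ 2) / ε := by
        field_simp
      have h5 : 0 ≤ (ε ^ 2 * (y ^ 2) ^ 2 + 1 - ε * y ^ 2) / ε := by
        apply div_nonneg _ hε0.le
        nlinarith [sq_nonneg (ε * y ^ 2 - 1)]
      linarith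
  have j2 : Integrable (fun η : Env d => ε * |X β h η n - A ρ β h n| ^ 4) (law d ρ) :=
    i4.const_mul _
  have j3 : Integrable (fun η : Env d => ε⁻¹ * E.indicator (fun _ => (1 : ℝ)) η) (law d ρ) :=
    ((integrable_const 1).indicator hmE).const_mul _
  have j23 : Integrable (fun η : Env d => ε * |X β h η n - A ρ β h n| ^ 4 +
      ε⁻¹ * E.indicator (fun _ => (1 : ℝ)) η) (law d ρ) := j2.add j3
  have j0 : Integrable (fun _ : Env d => (n : ℝ) ^ (2 * z)) (law d ρ) := integrable_const _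
  have j : Integrable (fun η : Env d => (n : ℝ) ^ (2 * z) +
      (ε * |X β h η n - A ρ β h n| ^ 4 + ε⁻¹ * E.indicator (fun _ => (1 : ℝ)) η)) (law d ρ) :=
    j0.add j23
  have i2' : Integrable (fun η : Env d => (X β h η n - A ρ β h n) ^ 2) (law d ρ) := by
    refine i2.congr (Eventually.of_forall fun η => ?_)
    exact sq_abs _
  have h7 := integral_mono i2' j hpt
  rw [integral_add j0 j23, integral_add j2 j3, integral_const_mul, integral_const_mul,
    integral_indicator hmE] at h7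
  simp only [integral_const, probReal_univ, smul_eq_mul, mul_one, one_mul,
    measureReal_restrict_apply MeasurableSet.univ, Set.univ_inter] at h7
  have h9 : ε * ∫ η, |X β h η n - A ρ β h n| ^ 4 ∂(law d ρ) ≤ V / 4 := by
    refine (mul_le_mul_of_nonneg_left b4' hε0.le).trans ?_
    have h10 : ε * (C * (n : ℝ) ^ 2) = V / 4 * (C / (C + 1)) := by
      rw [hε]
      field_simp
    have h11 : C / (C + 1) ≤ 1 := by
      rw [div_le_one (by linarith)]
      linarith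
    rw [h10]
    calc V / 4 * (C / (C + 1)) ≤ V / 4 * 1 := mul_le_mul_of_nonneg_left h11 (by linarith)
      _ = V / 4 := mul_one _
  have h12 : V ≤ ∫ η, (X β h η n - A ρ β h n) ^ 2 ∂(law d ρ) := by
    rw [hV0]
    exact hv
  have h13 : V / 2 ≤ ε⁻¹ * (law d ρ).real E := by
    rw [← hV0] at k1
    linarith
  have h14 : ε * (V / 2) ≤ (law d ρ).real E := by
    have h15 := mul_le_mul_of_nonneg_left h13 hε0.le
    rwa [← mul_assoc, mul_inv_cancel₀ hε0.ne', one_mul] at h15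
  refine le_trans ?_ h14
  rw [Real.rpow_neg hn0.le, show (3 : ℝ) = ((3 : ℕ) : ℝ) by norm_num, Real.rpow_natCast, hε]
  have h16 : 1 / (8 * (C + 1) * (n : ℝ) ^ 2) ≤ V / (4 * (C + 1) * (n : ℝ) ^ 2) * (V / 2) := by
    rw [div_mul_div_comm, div_le_div_iff₀ (by positivity) (by positivity)]
    have h17 : (1 : ℝ) ≤ V * V := by nlinarith
    have h18 : (0 : ℝ) < 8 * (C + 1) * (n : ℝ) ^ 2 := by positivity
    nlinarith
  refine le_trans ?_ h16
  rw [inv_eq_one_div]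
  apply one_div_le_one_div_of_le (by positivity)
  have h19 : (0 : ℝ) ≤ (n : ℝ) ^ 2 := by positivity
  calc 8 * (C + 1) * (n : ℝ) ^ 2 ≤ n * (n : ℝ) ^ 2 := mul_le_mul_of_nonneg_right k2 h19
    _ = (n : ℝ) ^ 3 := by ring

/-- A large variance gives a large upper tail. -/
theorem momV8 (hd : 0 < d) (hρ : EM ρ) (hL : LowPK d ρ β) (hA : AmpPK d ρ β) : MomV d ρ β := by
  intro h x y hy hyx hV
  obtain ⟨z, hz⟩ : ∃ z : ℝ, z = (x + y) / 2 := ⟨_, rfl⟩
  have hyz : y < z := by rw [hz]; linarith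
  have hzx : z < x := by rw [hz]; linarith
  obtain ⟨Q, hQ, hev⟩ := core8 hd hρ hL hA h (show 0 < z by linarith) (show (0 : ℝ) < 3 by norm_num)
  have t1 : Tendsto (fun N : ℕ => (N : ℝ)) atTop atTop := tendsto_natCast_atTop_atTop
  have e1 : ∀ᶠ N : ℕ in atTop, (N : ℝ) ^ y ≤ (N : ℝ) ^ z / 8 := by
    have h1 : Tendsto (fun N : ℕ => (N : ℝ) ^ (z - y)) atTop atTop :=
      (tendsto_rpow_atTop (by linarith)).comp t1
    filter_upwards [h1.eventually_ge_atTop 8, eventually_ge_atTop 1] with N h2 h3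
    have hN : (1 : ℝ) ≤ N := by exact_mod_cast h3
    have hN0 : (0 : ℝ) < N := by linarith
    have h4 : (N : ℝ) ^ z = (N : ℝ) ^ (z - y) * (N : ℝ) ^ y := by
      rw [← Real.rpow_add hN0]
      congr 1
      ring
    have h5 : 8 * (N : ℝ) ^ y ≤ (N : ℝ) ^ (z - y) * (N : ℝ) ^ y :=
      mul_le_mul_of_nonneg_right h2 (by positivity)
    rw [h4]
    linarith
  have hall := (devV8 hd hρ h (show 0 < z by linarith) hzx hV).and (hev.and e1)
  obtain ⟨N₀, hN₀⟩ := eventually_atTop.1 hall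
  refine ⟨Q, hQ, N₀, fun N hN => ?_⟩
  obtain ⟨h1, h2, h3⟩ := hN₀ N hN
  refine (h2 h1).trans (measureReal_mono ?_)
  intro η hη
  have h4 : N * lam ρ β h + (N : ℝ) ^ z / 8 ≤ X β h η N := hη
  show N * lam ρ β h + (N : ℝ) ^ y ≤ X β h η N
  linarith

end Pool.Agent.W_7d29a1_PK
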