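import Pool.Agent.W_7d29a1_PK.Mom8
import Pool.Agent.W_7d29a1_PK.DefsLK5

/-!
Leaf MOML: a large moment at all large lengths gives luck at all large lengths (helper8).
-/

set_option autoImplicit false

namespace Pool.Agent.W_7d29a1_PK

open MeasureTheory ProbabilityTheory Filter Topology Pool.Agent.W_MP_7d29a1_pr
  Pool.Agent.W_7d29a1_h46 Pool.Agent.W_7d29a1_h46u Pool.Agent.W_7d29a1_D2 Pool.Agent.W_7d29a1_AM
  Pool.Agent.W_7d29a1_Q29

variable {d : ℕ} {ρ : Measure ℝ} [IsProbabilityMeasure ρ] {β : ℝ}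

/-- A large moment gives large deviations with a polynomial probability. -/
theorem devL8 (hd : 0 < d) (hρ : EM ρ) (h : Vec d) {x z : ℝ} (hz : 0 < z) (hzx : z < x) {q : ℕ}
    (hq : 1 ≤ q)
    (hV : ∀ᶠ n : ℕ in atTop, (n : ℝ) ^ (x * q) ≤ ∫ η, |X β h η n - A ρ β h n| ^ q ∂(law d ρ)) :
    ∀ᶠ N : ℕ in atTop, (N : ℝ) ^ (-((q : ℝ) + 1)) ≤
      (law d ρ).real {η | (N : ℝ) ^ z ≤ |X β h η N - A ρ β h N|} := by
  obtain ⟨C, hC, m⟩ := momU (ρ := ρ) hd hρ β (2 * q)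
  obtain ⟨C2, hC2, m2⟩ := momU (ρ := ρ) hd hρ β q
  have t1 : Tendsto (fun N : ℕ => (N : ℝ)) atTop atTop := tendsto_natCast_atTop_atTop
  have hqR : (1 : ℝ) ≤ q := by exact_mod_cast hq
  have e1 : ∀ᶠ N : ℕ in atTop, 4 * (N : ℝ) ^ (z * q) ≤ (N : ℝ) ^ (x * q) := by
    have h1 : Tendsto (fun N : ℕ => (N : ℝ) ^ (x * q - z * q)) atTop atTop :=
      (tendsto_rpow_atTop (by nlinarith)).comp t1
    filter_upwards [h1.eventually_ge_atTop 4, eventually_ge_atTop 1] with N h2 h3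
    have hN : (1 : ℝ) ≤ N := by exact_mod_cast h3
    have hN0 : (0 : ℝ) < N := by linarith
    have h4 : (N : ℝ) ^ (x * q) = (N : ℝ) ^ (x * q - z * q) * (N : ℝ) ^ (z * q) := by
      rw [← Real.rpow_add hN0]
      congr 1
      ring
    rw [h4]
    exact mul_le_mul_of_nonneg_right h2 (by positivity)
  filter_upwards [hV, e1, t1.eventually_ge_atTop (8 * (C + 1)), eventually_ge_atTop 1]
    with n hv k1 k2 k3
  have hn1 : (1 : ℝ) ≤ n := by exact_mod_cast k3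
  have hn0 : (0 : ℝ) < n := by linarith
  obtain ⟨i4, b4⟩ := m h n k3
  have i2 := (m2 h n k3).1
  have b4' : ∫ η, |X β h η n - A ρ β h n| ^ (2 * q) ∂(law d ρ) ≤ C * (n : ℝ) ^ q := by
    refine b4.trans (le_of_eq ?_)
    congr 1
    rw [← Real.rpow_natCast]
    congr 1
    push_cast
    ring
  obtain ⟨E, hE⟩ : ∃ E : Set (Env d), E = {η | (n : ℝ) ^ z ≤ |X β h η n - A ρ β h n|} := ⟨_, rfl⟩
  have hmE : MeasurableSet E := by
    rw [hE]
    exact measurableSet_le measurable_const ((measurable_X β h n).sub_const _).abs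
  rw [← hE]
  obtain ⟨V, hV0⟩ : ∃ V : ℝ, V = (n : ℝ) ^ (x * q) := ⟨_, rfl⟩
  have hV1 : 1 ≤ V := by
    rw [hV0]
    exact Real.one_le_rpow hn1 (by
      have : 0 < x := by linarith
      positivity)
  obtain ⟨ε, hε⟩ : ∃ ε : ℝ, ε = V / (4 * (C + 1) * (n : ℝ) ^ q) := ⟨_, rfl⟩
  have hnq : (0 : ℝ) < (n : ℝ) ^ q := by positivity
  have hε0 : 0 < ε := by rw [hε]; positivity
  have hz2 : ((n : ℝ) ^ z) ^ q = (n : ℝ) ^ (z * q) := by
    rw [← Real.rpow_mul_natCast hn0.le]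
  have hpt : ∀ η : Env d, |X β h η n - A ρ β h n| ^ q ≤ (n : ℝ) ^ (z * q) +
      (ε * |X β h η n - A ρ β h n| ^ (2 * q) + ε⁻¹ * E.indicator (fun _ => (1 : ℝ)) η) := by
    intro η
    obtain ⟨y, hy⟩ : ∃ y : ℝ, y = |X β h η n - A ρ β h n| := ⟨_, rfl⟩
    have hy0 : 0 ≤ y := by rw [hy]; exact abs_nonneg _
    rw [← hy]
    have hind : 0 ≤ E.indicator (fun _ => (1 : ℝ)) η :=
      Set.indicator_nonneg (fun _ _ => by norm_num) _
    have h1 : 0 ≤ ε * y ^ (2 * q) := by positivity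
    have h2 : 0 ≤ ε⁻¹ * E.indicator (fun _ => (1 : ℝ)) η := by positivity
    rcases lt_or_ge y ((n : ℝ) ^ z) with hyx | hyx
    · have h3 : y ^ q ≤ ((n : ℝ) ^ z) ^ q := pow_le_pow_left₀ hy0 hyx.le q
      rw [hz2] at h3
      linarith
    · have hη : η ∈ E := by
        rw [hE]
        show (n : ℝ) ^ z ≤ |X β h η n - A ρ β h n|
        rw [← hy]
        exact hyx
      rw [Set.indicator_of_mem hη, mul_one]
      have h3 : 0 ≤ (n : ℝ) ^ (z * q) := by positivity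
      obtain ⟨w, hw⟩ : ∃ w : ℝ, w = y ^ q := ⟨_, rfl⟩
      have h40 : y ^ (2 * q) = w ^ 2 := by rw [hw, mul_comm, pow_mul]
      rw [h40, ← hw]
      have h4 : ε * w ^ 2 + ε⁻¹ - w = (ε ^ 2 * w ^ 2 + 1 - ε * w) / ε := by
        field_simp
      have h5 : 0 ≤ (ε ^ 2 * w ^ 2 + 1 - ε * w) / ε := by
        apply div_nonneg _ hε0.le
        nlinarith [sq_nonneg (ε * w - 1)]
      linarith
  have j2 : Integrable (fun η : Env d => ε * |X β h η n - A ρ β h n| ^ (2 * q)) (law d ρ) :=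
    i4.const_mul _
  have j3 : Integrable (fun η : Env d => ε⁻¹ * E.indicator (fun _ => (1 : ℝ)) η) (law d ρ) :=
    ((integrable_const 1).indicator hmE).const_mul _
  have j23 : Integrable (fun η : Env d => ε * |X β h η n - A ρ β h n| ^ (2 * q) +
      ε⁻¹ * E.indicator (fun _ => (1 : ℝ)) η) (law d ρ) := j2.add j3
  have j0 : Integrable (fun _ : Env d => (n : ℝ) ^ (z * q)) (law d ρ) := integrable_const _
  have j : Integrable (fun η : Env d => (n : ℝ) ^ (z * q) +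
      (ε * |X β h η n - A ρ β h n| ^ (2 * q) + ε⁻¹ * E.indicator (fun _ => (1 : ℝ)) η)) (law d ρ) :=
    j0.add j23
  have h7 := integral_mono i2 j hpt
  rw [integral_add j0 j23, integral_add j2 j3, integral_const_mul, integral_const_mul,
    integral_indicator hmE] at h7
  simp only [integral_const, probReal_univ, smul_eq_mul, mul_one, one_mul,
    measureReal_restrict_apply MeasurableSet.univ, Set.univ_inter] at h7
  have h9 : ε * ∫ η, |X β h η n - A ρ β h n| ^ (2 * q) ∂(law d ρ) ≤ V / 4 := by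
    refine (mul_le_mul_of_nonneg_left b4' hε0.le).trans ?_
    have h10 : ε * (C * (n : ℝ) ^ q) = V / 4 * (C / (C + 1)) := by
      rw [hε]
      field_simp
    have h11 : C / (C + 1) ≤ 1 := by
      rw [div_le_one (by linarith)]
      linarith
    rw [h10]
    calc V / 4 * (C / (C + 1)) ≤ V / 4 * 1 := mul_le_mul_of_nonneg_left h11 (by linarith)
      _ = V / 4 := mul_one _
  have h12 : V ≤ ∫ η, |X β h η n - A ρ β h n| ^ q ∂(law d ρ) := by
    rw [hV0]
    exact hv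
  have h13 : V / 2 ≤ ε⁻¹ * (law d ρ).real E := by
    rw [← hV0] at k1
    linarith
  have h14 : ε * (V / 2) ≤ (law d ρ).real E := by
    have h15 := mul_le_mul_of_nonneg_left h13 hε0.le
    rwa [← mul_assoc, mul_inv_cancel₀ hε0.ne', one_mul] at h15
  refine le_trans ?_ h14
  rw [Real.rpow_neg hn0.le, Real.rpow_add_one hn0.ne', Real.rpow_natCast, hε]
  have h16 : 1 / (8 * (C + 1) * (n : ℝ) ^ q) ≤ V / (4 * (C + 1) * (n : ℝ) ^ q) * (V / 2) := by
    rw [div_mul_div_comm, div_le_div_iff₀ (by positivity) (by positivity)]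
    have h17 : (1 : ℝ) ≤ V * V := by nlinarith
    have h18 : (0 : ℝ) < 8 * (C + 1) * (n : ℝ) ^ q := by positivity
    nlinarith
  refine le_trans ?_ h16
  rw [inv_eq_one_div]
  apply one_div_le_one_div_of_le (by positivity)
  calc 8 * (C + 1) * (n : ℝ) ^ q ≤ n * (n : ℝ) ^ q := mul_le_mul_of_nonneg_right k2 hnq.le
    _ = (n : ℝ) ^ q * n := by ring

/-- **Leaf MOML.** -/
theorem momL8 (hd : 0 < d) (hρ : EM ρ) (hL : LowPK d ρ β) (hA : AmpPK d ρ β) : MomL d ρ β := by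
  intro h x y hy hyx hF
  obtain ⟨q, hq, hV⟩ := hF
  obtain ⟨z, hz⟩ : ∃ z : ℝ, z = (x + y) / 2 := ⟨_, rfl⟩
  have hyz : y < z := by rw [hz]; linarith
  have hzx : z < x := by rw [hz]; linarith
  have hz0 : 0 < z := by linarith
  obtain ⟨Q, hQ, hev⟩ := core8 hd hρ hL hA h hz0 (show (0 : ℝ) < (q : ℝ) + 1 by positivity)
  have e1 : ∀ᶠ N : ℕ in atTop, (N : ℝ) ^ y ≤ (N : ℝ) ^ z / 8 := by
    have t1 : Tendsto (fun N : ℕ => (N : ℝ)) atTop atTop := tendsto_natCast_atTop_atTop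
    have h1 : Tendsto (fun N : ℕ => (N : ℝ) ^ (z - y)) atTop atTop :=
      (tendsto_rpow_atTop (by linarith)).comp t1
    filter_upwards [h1.eventually_ge_atTop 8, eventually_ge_atTop 1] with N h2 h3
    have hN : (1 : ℝ) ≤ N := by exact_mod_cast h3
    have hN0 : (0 : ℝ) < N := by linarith
    have h4 : (N : ℝ) ^ z = (N : ℝ) ^ (z - y) * (N : ℝ) ^ y := by
      rw [← Real.rpow_add hN0]
      congr 1
      ring
    have h5 : 8 * (N : ℝ) ^ y ≤ (N : ℝ) ^ (z - y) * (N : ℝ) ^ y :=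
      mul_le_mul_of_nonneg_right h2 (by positivity)
    rw [h4]
    linarith
  have hall := (devL8 hd hρ h hz0 hzx hq hV).and (hev.and e1)
  obtain ⟨N₀, hN₀⟩ := eventually_atTop.1 hall
  refine Or.inr ⟨Q, hQ, N₀, fun N hN => ?_⟩
  obtain ⟨h1, h2, h3⟩ := hN₀ N hN
  refine (h2 h1).trans (measureReal_mono ?_)
  intro η hη
  have h4 : N * lam ρ β h + (N : ℝ) ^ z / 8 ≤ X β h η N := hη
  show N * lam ρ β h + (N : ℝ) ^ y ≤ X β h η N
  linarith

end Pool.Agent.W_7d29a1_PK
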