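import Pool.Agent.W_7d29a1_PK.DefsPK2
import Pool.Agent.W_7d29a1_PK.One67

/-!
MOV: a deterministic displacement which is cheap with a polynomial probability, from the lower
bound LOW and the deterministic cut of helper67 (helper11).
-/

namespace Pool.Agent.W_7d29a1_PK

open MeasureTheory ProbabilityTheory Filter Topology Pool.Agent.W_MP_7d29a1_pr
  Pool.Agent.W_7d29a1_h46 Pool.Agent.W_7d29a1_h46u Pool.Agent.W_7d29a1_D2
  Pool.Agent.W_7d29a1_D2.B35 Pool.Agent.W_7d29a1_Q29 Pool.Agent.W_7d29a1_R34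
  Pool.Agent.W_7d29a1_SP Pool.Agent.W_7d29a1_V

variable {d : ℕ} {ρ : Measure ℝ} [IsProbabilityMeasure ρ] {β : ℝ}

namespace M11

/-- The numbers of the union bounds. -/
lemma num11 (d : ℕ) {N : ℝ} (hN : 3 ≤ N) :
    (N + 1) ^ 2 * (2 * N + 1) ^ d ≤ N ^ ((4 : ℝ) + 2 * d) ∧
      4 * ((N + 1) ^ 2 * ((2 * N + 1) ^ d) ^ 2) ≤ N ^ ((6 : ℝ) + 4 * d) ∧
      N * (2 * N + 1) ^ d ≤ N ^ ((1 : ℝ) + 2 * d) := by
  have hN0 : 0 < N := by linarith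
  have h1 : (N + 1) ^ 2 ≤ N ^ (4 : ℕ) := by
    have : N + 1 ≤ N ^ 2 := by nlinarith
    calc (N + 1) ^ 2 ≤ (N ^ 2) ^ 2 := by gcongr
      _ = N ^ 4 := by ring
  have h2 : (2 * N + 1) ^ d ≤ N ^ (2 * d) := by
    have : 2 * N + 1 ≤ N ^ 2 := by nlinarith
    calc (2 * N + 1) ^ d ≤ (N ^ 2) ^ d := by gcongr
      _ = N ^ (2 * d) := by rw [← pow_mul]
  have e1 : N ^ ((4 : ℝ) + 2 * d) = N ^ 4 * N ^ (2 * d) := by
    rw [Real.rpow_add hN0, show (2 : ℝ) * d = ((2 * d : ℕ) : ℝ) by push_cast; ring,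
      Real.rpow_natCast, show (4 : ℝ) = ((4 : ℕ) : ℝ) by norm_num, Real.rpow_natCast]
  have e2 : N ^ ((6 : ℝ) + 4 * d) = N ^ 6 * N ^ (4 * d) := by
    rw [Real.rpow_add hN0, show (4 : ℝ) * d = ((4 * d : ℕ) : ℝ) by push_cast; ring,
      Real.rpow_natCast, show (6 : ℝ) = ((6 : ℕ) : ℝ) by norm_num, Real.rpow_natCast]
  have e3 : N ^ ((1 : ℝ) + 2 * d) = N * N ^ (2 * d) := by
    rw [Real.rpow_add hN0, show (2 : ℝ) * d = ((2 * d : ℕ) : ℝ) by push_cast; ring,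
      Real.rpow_natCast, Real.rpow_one]
  refine ⟨?_, ?_, ?_⟩
  · rw [e1]
    exact mul_le_mul h1 h2 (by positivity) (by positivity)
  · rw [e2]
    have h3 : ((2 * N + 1) ^ d) ^ 2 ≤ N ^ (4 * d) := by
      calc ((2 * N + 1) ^ d) ^ 2 ≤ (N ^ (2 * d)) ^ 2 := by gcongr
        _ = N ^ (4 * d) := by rw [← pow_mul]; ring_nf
    have h4 : 4 * (N + 1) ^ 2 ≤ N ^ 6 := by
      have h5 : (4 : ℝ) ≤ N ^ 2 := by nlinarith
      calc 4 * (N + 1) ^ 2 ≤ N ^ 2 * N ^ 4 := mul_le_mul h5 h1 (by positivity) (by positivity)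
        _ = N ^ 6 := by ring
    calc 4 * ((N + 1) ^ 2 * ((2 * N + 1) ^ d) ^ 2) = 4 * (N + 1) ^ 2 * ((2 * N + 1) ^ d) ^ 2 := by
          ring
      _ ≤ N ^ 6 * N ^ (4 * d) := mul_le_mul h4 h3 (by positivity) (by positivity)
  · rw [e3]
    gcongr

end M11

open M11 in
/-- **MOV** from LOW. -/
theorem mov11 (hd : 0 < d) (hL : LowPK d ρ β) : MovPK d ρ β := by
  intro K
  obtain ⟨C0, hC0, N1, hN1⟩ := hL (K + 1)
  obtain ⟨C, hC⟩ : ∃ C : ℝ, C = C0 + 12 + 6 * d := ⟨_, rfl⟩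
  have hd0 : (0 : ℝ) ≤ d := Nat.cast_nonneg d
  have hC1 : 13 ≤ C := by linarith
  refine ⟨C, by linarith, max N1 (max 3 ⌈Real.exp (1 + K)⌉₊), ?_⟩
  intro N hN h r σ hh hr hσ Λ G hΛ hup hG hgap
  have hNa : N1 ≤ N := (le_max_left _ _).trans hN
  have hNb : 3 ≤ N := ((le_max_left _ _).trans (le_max_right _ _)).trans hN
  have hNc : ⌈Real.exp (1 + K)⌉₊ ≤ N := ((le_max_right _ _).trans (le_max_right _ _)).trans hN
  have hN3 : (3 : ℝ) ≤ N := by exact_mod_cast hNb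
  have hN0 : (0 : ℝ) < N := by linarith
  have hNK : Real.exp (1 + K) ≤ N := (Nat.le_ceil _).trans (by exact_mod_cast hNc)
  have hlog : 1 ≤ Real.log N := by
    rw [← Real.log_exp 1]
    refine Real.log_le_log (Real.exp_pos 1) ?_
    have := Real.exp_one_lt_d9
    linarith
  have hlog0 : 0 ≤ Real.log N := by linarith
  have hΛC : C ≤ Λ := by nlinarith
  have hΛ0 : 0 ≤ Λ := by linarith
  have hGΛ : 13 * Λ ≤ G := by nlinarith
  have hG0 : 0 ≤ G := by linarith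
  obtain ⟨n1, n2, n3⟩ := num11 d hN3
  obtain ⟨ε, hε⟩ : ∃ ε : ℝ, ε = (N : ℝ) ^ (-C0) := ⟨_, rfl⟩
  have hε0 : 0 < ε := by rw [hε]; exact Real.rpow_pos_of_pos hN0 _
  have hlog2 : Real.log 2 ≤ 1 := by
    have := Real.log_two_lt_d9
    linarith
  -- the luck at the tilt `h + r`
  have h0 : ε ≤ (law d ρ).real {η | (N : ℝ) * lam ρ β h + N * (1 * σ) + 1 * (G / 8) + Λ +
      Real.log 2 < X β (h + (1 : ℝ) • r) η N} := by
    rw [hε, one_smul]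
    refine (hN1 N hNa N le_rfl (h + r) ?_).trans (measureReal_mono fun η hη => ?_)
    · exact (norm_add_le _ _).trans (by linarith)
    · show (N : ℝ) * lam ρ β h + N * (1 * σ) + 1 * (G / 8) + Λ + Real.log 2 < X β (h + r) η N
      have h2 : (N : ℝ) * lam ρ β (h + r) - 2 < X β (h + r) η N := hη
      nlinarith
  have h1 : ∀ l ≤ N, (law d ρ).real {η | l * lam ρ β h + Λ < X β h η l} ≤ (N : ℝ) ^ (-C) := by
    intro l hl
    refine (measureReal_mono fun η hη => ?_).trans (hup l hl)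
    rw [Set.mem_setOf_eq] at hη ⊢
    exact hη.le
  have hδ : ((N : ℝ) + 1) ^ 2 * (2 * (N : ℝ) + 1) ^ d * (N : ℝ) ^ (-C) ≤ ε / 2 := by
    have h3 : ((N : ℝ) + 1) ^ 2 * (2 * (N : ℝ) + 1) ^ d * (N : ℝ) ^ (-C) ≤
        (N : ℝ) ^ ((4 : ℝ) + 2 * d) * (N : ℝ) ^ (-C) :=
      mul_le_mul_of_nonneg_right n1 (Real.rpow_nonneg hN0.le _)
    rw [← Real.rpow_add hN0] at h3
    have h4 : (N : ℝ) ^ ((4 : ℝ) + 2 * d + -C) ≤ (N : ℝ) ^ (-C0 - 1) :=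
      Real.rpow_le_rpow_of_exponent_le (by linarith) (by rw [hC]; linarith)
    have h5 : (N : ℝ) ^ (-C0 - 1) ≤ ε / 2 := by
      rw [Real.rpow_sub hN0, Real.rpow_one, ← hε]
      exact div_le_div_of_nonneg_left hε0.le (by norm_num) (by linarith)
    linarith
  have hΓ : (N : ℝ) * (2 * (N : ℝ) + 1) ^ d *
      Real.exp (1 * (G / 8 + (‖r‖ + |σ|)) - G) ≤ 1 / 2 := by
    have h3 : Real.exp (1 * (G / 8 + (‖r‖ + |σ|)) - G) ≤ N * (N : ℝ) ^ (-(7 / 8 * C)) := by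
      have h4 : 1 * (G / 8 + (‖r‖ + |σ|)) - G ≤ (1 + K) + -(7 / 8 * C) * Real.log N := by
        have h6 : C * Real.log N ≤ G := by nlinarith
        linarith
      refine (Real.exp_le_exp.2 h4).trans ?_
      rw [Real.exp_add]
      refine mul_le_mul hNK ?_ (Real.exp_pos _).le hN0.le
      rw [Real.rpow_def_of_pos hN0]
      apply le_of_eq
      congr 1
      ring
    have h7 : (N : ℝ) * (2 * (N : ℝ) + 1) ^ d * Real.exp (1 * (G / 8 + (‖r‖ + |σ|)) - G) ≤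
        (N : ℝ) ^ ((1 : ℝ) + 2 * d) * (N * (N : ℝ) ^ (-(7 / 8 * C))) :=
      mul_le_mul n3 h3 (Real.exp_pos _).le (Real.rpow_nonneg hN0.le _)
    have h8 : (N : ℝ) ^ ((1 : ℝ) + 2 * d) * (N * (N : ℝ) ^ (-(7 / 8 * C))) =
        (N : ℝ) ^ ((1 : ℝ) + 2 * d + (1 + -(7 / 8 * C))) := by
      rw [show (N : ℝ) * (N : ℝ) ^ (-(7 / 8 * C)) = (N : ℝ) ^ ((1 : ℝ) + -(7 / 8 * C)) by
        rw [Real.rpow_add hN0, Real.rpow_one], ← Real.rpow_add hN0]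
    have h9 : (N : ℝ) ^ ((1 : ℝ) + 2 * d + (1 + -(7 / 8 * C))) ≤ (N : ℝ) ^ (-1 : ℝ) :=
      Real.rpow_le_rpow_of_exponent_le (by linarith) (by rw [hC]; linarith)
    have h10 : (N : ℝ) ^ (-1 : ℝ) ≤ 1 / 2 := by
      rw [Real.rpow_neg_one, one_div]
      exact inv_anti₀ (by norm_num) (by linarith)
    linarith
  obtain ⟨τ, D, t1, t2, t3, t4, t5, t6⟩ := oneS67 hd β h r σ (t := 1) (R := G / 8) (Γ := G)
    zero_le_one (by linarith) hε0 h0 h1 hδ hΓ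
  refine ⟨τ, D, t1, t2, t4.le, ?_⟩
  have h11 : (N : ℝ) ^ (-C) ≤
      ε / (4 * (((N : ℝ) + 1) ^ 2 * ((2 * (N : ℝ) + 1) ^ d) ^ 2)) := by
    have h12 : ε / (N : ℝ) ^ ((6 : ℝ) + 4 * d) ≤
        ε / (4 * (((N : ℝ) + 1) ^ 2 * ((2 * (N : ℝ) + 1) ^ d) ^ 2)) :=
      div_le_div_of_nonneg_left hε0.le (by positivity) n2
    refine le_trans ?_ h12
    rw [hε, ← Real.rpow_sub hN0]
    exact Real.rpow_le_rpow_of_exponent_le (by linarith) (by rw [hC]; linarith)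
  refine h11.trans (t6.trans (measureReal_mono fun η hη => ?_))
  rw [Set.mem_setOf_eq] at hη ⊢
  exact hη.le

end Pool.Agent.W_7d29a1_PK
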