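import Pool.Agent.W_7d29a1_PK.DefsPK2
import Pool.Agent.W_7d29a1_h46u.LawU
import Pool.Agent.W_7d29a1_h46u.TubV

/-!
MOV: a deterministic displacement which is cheap with a polynomial probability (helper90).
-/

set_option autoImplicit false

namespace Pool.Agent.W_7d29a1_PK

open MeasureTheory ProbabilityTheory Filter Topology Pool.Agent.W_MP_7d29a1_pr
  Pool.Agent.W_7d29a1_h46 Pool.Agent.W_7d29a1_h46u Pool.Agent.W_7d29a1_D2
  Pool.Agent.W_7d29a1_D2.B35 Pool.Agent.W_7d29a1_Q29 Pool.Agent.W_7d29a1_R34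
  Pool.Agent.W_7d29a1_SP Pool.Agent.W_7d29a1_V

namespace Mv90

lemma card90 (d t : ℕ) : (((boxF d t).card : ℕ) : ℝ) = (2 * (t : ℝ) + 1) ^ d := by
  have h1 : (boxF d t).card = (2 * t + 1) ^ d := by
    unfold boxF
    rw [Fintype.card_piFinset]
    simp only [Int.card_Icc, Finset.prod_const, Finset.card_univ, Fintype.card_fin]
    congr 1
    omega
  rw [h1]
  push_cast
  ring

/-- A union bound for finitely many sets. -/
lemma union90 {Ω ι : Type*} [MeasurableSpace Ω] (μ : Measure Ω) [IsProbabilityMeasure μ]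
    (S : Finset ι) (A : ι → Set Ω) {e : ℝ} (h : ∀ i ∈ S, μ.real (A i) ≤ e) :
    μ.real (⋃ i ∈ S, A i) ≤ S.card * e := by
  refine (measureReal_biUnion_finset_le _ _).trans ?_
  refine (Finset.sum_le_card_nsmul _ _ _ h).trans (le_of_eq (nsmul_eq_mul _ _))

/-- The counting. -/
lemma pow90 {N : ℝ} (hN : 3 ≤ N) (d : ℕ) : (2 * N + 1) ^ d ≤ N ^ (2 * (d : ℝ)) := by
  have h0 : 0 < N := by linarith
  have h1 : 2 * N + 1 ≤ N ^ (2 : ℝ) := by
    rw [Real.rpow_two]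
    nlinarith
  calc (2 * N + 1) ^ d ≤ (N ^ (2 : ℝ)) ^ d := pow_le_pow_left₀ (by linarith) h1 d
    _ = N ^ (2 * (d : ℝ)) := by rw [Real.rpow_mul h0.le, Real.rpow_natCast]

end Mv90

open Mv90

/-- **MOV** from CUT and LOW. -/
theorem mov90 {d : ℕ} (_hd : 0 < d) {ρ : Measure ℝ} [IsProbabilityMeasure ρ] {β : ℝ}
    (hC : CutPK d β) (hL : LowPK d ρ β) : MovPK d ρ β := by
  classical
  intro K
  obtain ⟨C₁, hC₁, N₁, H⟩ := hL (K + 1)
  have hd0 : (0 : ℝ) ≤ d := Nat.cast_nonneg d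
  obtain ⟨N₂, hN₂⟩ := exists_nat_ge (Real.exp (8 * (1 + |K|)))
  set C : ℝ := C₁ + 4 * d + 8 with hCdef
  have hC9 : 9 ≤ C := by linarith
  refine ⟨C, by linarith, max N₁ (max N₂ 3), ?_⟩
  intro N hN h r σ hh hr hσ Λ G hΛ hup hG hgap
  have hN1 : N₁ ≤ N := (le_max_left _ _).trans hN
  have hN2 : N₂ ≤ N := (le_max_left _ _).trans ((le_max_right _ _).trans hN)
  have hN3 : 3 ≤ N := (le_max_right _ _).trans ((le_max_right _ _).trans hN)
  have hNr3 : (3 : ℝ) ≤ N := by exact_mod_cast hN3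
  have hNr1 : (1 : ℝ) ≤ N := by linarith
  have hNr0 : (0 : ℝ) < N := by linarith
  -- the logarithm
  have hlog : 8 * (1 + |K|) ≤ Real.log N := by
    rw [Real.le_log_iff_exp_le hNr0]
    refine hN₂.trans ?_
    exact_mod_cast hN2
  have hK0 : 0 ≤ |K| := abs_nonneg K
  have hl8 : 8 ≤ Real.log N := by linarith
  have hΛ0 : Real.log N ≤ Λ := by nlinarith
  have hG8 : 9 * Λ ≤ G := by nlinarith
  have hGlog : C * Real.log N ≤ G := by nlinarith
  by_contra hcon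
  push Not at hcon
  have hKσ : ‖r‖ + |σ| ≤ G / 8 := by
    have h1 : |σ| ≤ |K| := hσ.trans (le_abs_self K)
    linarith
  -- the bad events
  set I₁ : Finset ((ℕ × ℕ) × Site d) :=
    (Finset.range (N + 1) ×ˢ Finset.range (N + 1)) ×ˢ boxF d N with hI₁
  set A₁ : (ℕ × ℕ) × Site d → Set (Env d) := fun i =>
    {η | i.1.2 * lam ρ β h + Λ ≤ X β h (sh i.1.1 i.2 η) i.1.2} with hA₁
  set I₂ : Finset (((ℕ × ℕ) × Site d) × Site d) :=
    (((Finset.range (N + 1) ×ˢ Finset.range (N + 1)) ×ˢ boxF d N) ×ˢ boxF d N).filter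
      (fun i => 1 ≤ i.1.1.2 ∧ G / 8 ≤ |inner ℝ r (emb i.2) - i.1.1.2 * σ|) with hI₂
  set A₂ : ((ℕ × ℕ) × Site d) × Site d → Set (Env d) := fun i =>
    {η | Real.exp (i.1.1.2 * lam ρ β h - G) ≤ PP β h (sh i.1.1.1 i.1.2 η) i.1.1.2 i.2} with hA₂
  have hb₁ : ∀ i ∈ I₁, (law d ρ).real (A₁ i) ≤ (N : ℝ) ^ (-C) := by
    intro i hi
    rw [hI₁, Finset.mem_product, Finset.mem_product, Finset.mem_range, Finset.mem_range] at hi
    have hm : MeasurableSet {η : Env d | i.1.2 * lam ρ β h + Λ ≤ X β h η i.1.2} :=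
      measurableSet_le measurable_const (measurable_X β h _)
    have h1 : (law d ρ).real (A₁ i) =
        (law d ρ).real {η | i.1.2 * lam ρ β h + Λ ≤ X β h η i.1.2} :=
      (mp_sh (ρ := ρ) i.1.1 i.2).measureReal_preimage hm.nullMeasurableSet
    rw [h1]
    exact hup i.1.2 (by omega)
  have hb₂ : ∀ i ∈ I₂, (law d ρ).real (A₂ i) ≤ (N : ℝ) ^ (-C) := by
    intro i hi
    rw [hI₂, Finset.mem_filter, Finset.mem_product, Finset.mem_product, Finset.mem_product,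
      Finset.mem_range, Finset.mem_range] at hi
    obtain ⟨⟨⟨⟨_, h2⟩, _⟩, _⟩, h3, h4⟩ := hi
    have hm : MeasurableSet {η : Env d | Real.exp (i.1.1.2 * lam ρ β h - G) ≤
        PP β h η i.1.1.2 i.2} :=
      measurableSet_le measurable_const (measurable_ZT β h _)
    have h1 : (law d ρ).real (A₂ i) =
        (law d ρ).real {η | Real.exp (i.1.1.2 * lam ρ β h - G) ≤ PP β h η i.1.1.2 i.2} :=
      (mp_sh (ρ := ρ) i.1.1.1 i.1.2).measureReal_preimage hm.nullMeasurableSet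
    rw [h1]
    exact (hcon i.1.1.2 i.2 h3 (by omega) h4).le
  have hu₁ := union90 (law d ρ) I₁ A₁ hb₁
  have hu₂ := union90 (law d ρ) I₂ A₂ hb₂
  -- the counting
  have hP := pow90 hNr3 d
  have hP0 : (0 : ℝ) ≤ (2 * (N : ℝ) + 1) ^ d := by positivity
  have hP1 : (1 : ℝ) ≤ (2 * (N : ℝ) + 1) ^ d := one_le_pow₀ (by linarith)
  have hQ : ((N : ℝ) + 1) * (N + 1) ≤ (N : ℝ) ^ (3 : ℝ) := by
    rw [show (3 : ℝ) = ((3 : ℕ) : ℝ) by norm_num, Real.rpow_natCast]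
    nlinarith [mul_pos hNr0 hNr0, mul_nonneg (sub_nonneg.2 hNr3) (mul_pos hNr0 hNr0).le]
  have hQ0 : (0 : ℝ) ≤ ((N : ℝ) + 1) * (N + 1) := by positivity
  have hc₁ : ((I₁.card : ℕ) : ℝ) ≤ (N : ℝ) ^ (3 + 4 * (d : ℝ)) := by
    rw [hI₁, Finset.card_product, Finset.card_product, Finset.card_range]
    push_cast
    rw [card90]
    calc ((N : ℝ) + 1) * (N + 1) * (2 * (N : ℝ) + 1) ^ d
        ≤ (N : ℝ) ^ (3 : ℝ) * (N : ℝ) ^ (2 * (d : ℝ)) :=
          mul_le_mul hQ hP hP0 (by positivity)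
      _ = (N : ℝ) ^ (3 + 2 * (d : ℝ)) := by rw [← Real.rpow_add hNr0]
      _ ≤ (N : ℝ) ^ (3 + 4 * (d : ℝ)) :=
          Real.rpow_le_rpow_of_exponent_le hNr1 (by linarith)
  have hc₂ : ((I₂.card : ℕ) : ℝ) ≤ (N : ℝ) ^ (3 + 4 * (d : ℝ)) := by
    have h1 : ((I₂.card : ℕ) : ℝ) ≤
        ((((Finset.range (N + 1) ×ˢ Finset.range (N + 1)) ×ˢ boxF d N) ×ˢ boxF d N).card : ℕ) := by
      exact_mod_cast Finset.card_filter_le _ _
    refine h1.trans ?_
    rw [Finset.card_product, Finset.card_product, Finset.card_product, Finset.card_range]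
    push_cast
    rw [card90]
    calc ((N : ℝ) + 1) * (N + 1) * (2 * (N : ℝ) + 1) ^ d * (2 * (N : ℝ) + 1) ^ d
        ≤ (N : ℝ) ^ (3 : ℝ) * (N : ℝ) ^ (2 * (d : ℝ)) * (N : ℝ) ^ (2 * (d : ℝ)) :=
          mul_le_mul (mul_le_mul hQ hP hP0 (by positivity)) hP hP0 (by positivity)
      _ = (N : ℝ) ^ (3 + 4 * (d : ℝ)) := by
          rw [← Real.rpow_add hNr0, ← Real.rpow_add hNr0]
          congr 1
          ring
  have hNC : (0 : ℝ) ≤ (N : ℝ) ^ (-C) := by positivity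
  have htot : (I₁.card : ℝ) * (N : ℝ) ^ (-C) + (I₂.card : ℝ) * (N : ℝ) ^ (-C) <
      (N : ℝ) ^ (-C₁) := by
    have h1 : (I₁.card : ℝ) * (N : ℝ) ^ (-C) + (I₂.card : ℝ) * (N : ℝ) ^ (-C) ≤
        (N : ℝ) * ((N : ℝ) ^ (3 + 4 * (d : ℝ)) * (N : ℝ) ^ (-C)) := by
      have h2 := mul_le_mul_of_nonneg_right hc₁ hNC
      have h3 := mul_le_mul_of_nonneg_right hc₂ hNC
      have h4 : 0 ≤ (N : ℝ) ^ (3 + 4 * (d : ℝ)) * (N : ℝ) ^ (-C) := by positivity
      nlinarith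
    refine lt_of_le_of_lt h1 ?_
    have h2 : (N : ℝ) * ((N : ℝ) ^ (3 + 4 * (d : ℝ)) * (N : ℝ) ^ (-C)) =
        (N : ℝ) ^ (-C₁ - 4) := by
      nth_rewrite 1 [← Real.rpow_one (N : ℝ)]
      rw [← Real.rpow_add hNr0, ← Real.rpow_add hNr0]
      congr 1
      rw [hCdef]
      ring
    rw [h2]
    exact Real.rpow_lt_rpow_of_exponent_lt (by linarith) (by linarith)
  -- a good environment
  have hlow : (N : ℝ) ^ (-C₁) ≤
      (law d ρ).real {η | N * lam ρ β (h + r) - 2 < X β (h + r) η N} := by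
    refine H N hN1 N le_rfl (h + r) ?_
    exact (norm_add_le _ _).trans (by linarith)
  obtain ⟨η, hη, hη₁, hη₂⟩ : ∃ η, N * lam ρ β (h + r) - 2 < X β (h + r) η N ∧
      η ∉ (⋃ i ∈ I₁, A₁ i) ∧ η ∉ (⋃ i ∈ I₂, A₂ i) := by
    by_contra hno
    push Not at hno
    have h1 : {η | N * lam ρ β (h + r) - 2 < X β (h + r) η N} ⊆
        (⋃ i ∈ I₁, A₁ i) ∪ (⋃ i ∈ I₂, A₂ i) := by
      intro η hη
      by_cases h2 : η ∈ (⋃ i ∈ I₁, A₁ i)
      · exact Or.inl h2
      · exact Or.inr (hno η hη h2)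
    have h2 : (law d ρ).real {η | N * lam ρ β (h + r) - 2 < X β (h + r) η N} ≤
        (law d ρ).real (⋃ i ∈ I₁, A₁ i) + (law d ρ).real (⋃ i ∈ I₂, A₂ i) :=
      (measureReal_mono h1 (measure_ne_top _ _)).trans (measureReal_union_le _ _)
    exact absurd (hlow.trans (h2.trans (add_le_add hu₁ hu₂))) (not_le.2 htot)
  have g1 : ∀ (t l : ℕ) (z : Site d), t + l ≤ N → z ∈ boxF d t →
      X β h (sh t z η) l ≤ l * lam ρ β h + Λ := by
    intro t l z htl hz
    by_contra hlt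
    refine hη₁ ?_
    simp only [Set.mem_iUnion, exists_prop]
    refine ⟨((t, l), z), ?_, (not_le.1 hlt).le⟩
    rw [hI₁, Finset.mem_product, Finset.mem_product, Finset.mem_range, Finset.mem_range]
    exact ⟨⟨by show t < N + 1; omega, by show l < N + 1; omega⟩, TubV_box (by omega) hz⟩
  have g2 : ∀ (t τ : ℕ) (z D : Site d), t + τ ≤ N → 1 ≤ τ → z ∈ boxF d t → D ∈ boxF d τ →
      G / 8 ≤ |inner ℝ r (emb D) - τ * σ| →
        PP β h (sh t z η) τ D ≤ Real.exp (τ * lam ρ β h - G) := by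
    intro t τ z D htl hτ hz hD hR
    by_contra hlt
    refine hη₂ ?_
    simp only [Set.mem_iUnion, exists_prop]
    refine ⟨(((t, τ), z), D), ?_, (not_le.1 hlt).le⟩
    rw [hI₂, Finset.mem_filter, Finset.mem_product, Finset.mem_product, Finset.mem_product,
      Finset.mem_range, Finset.mem_range]
    exact ⟨⟨⟨⟨by show t < N + 1; omega, by show τ < N + 1; omega⟩, TubV_box (by omega) hz⟩,
      TubV_box (by omega) hD⟩, hτ, hR⟩
  have hcnt : N * (2 * (N : ℝ) + 1) ^ d * Real.exp (2 * (G / 8) - G) ≤ 1 / 2 := by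
    have h1 : Real.exp (2 * (G / 8) - G) ≤ (N : ℝ) ^ (-(2 * (d : ℝ) + 2)) := by
      rw [Real.rpow_def_of_pos hNr0]
      refine Real.exp_le_exp.2 ?_
      have h2 : (2 * (d : ℝ) + 2) * Real.log N ≤ 3 / 4 * (C * Real.log N) := by
        have h3 : 2 * (d : ℝ) + 2 ≤ 3 / 4 * C := by rw [hCdef]; linarith
        have h4 := mul_le_mul_of_nonneg_right h3 (by linarith : 0 ≤ Real.log N)
        linarith
      linarith
    calc N * (2 * (N : ℝ) + 1) ^ d * Real.exp (2 * (G / 8) - G)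
        ≤ N * (N : ℝ) ^ (2 * (d : ℝ)) * (N : ℝ) ^ (-(2 * (d : ℝ) + 2)) :=
          mul_le_mul (mul_le_mul_of_nonneg_left hP hNr0.le) h1 (Real.exp_pos _).le
            (by positivity)
      _ = (N : ℝ) ^ (-1 : ℝ) := by
          nth_rewrite 1 [← Real.rpow_one (N : ℝ)]
          rw [← Real.rpow_add hNr0, ← Real.rpow_add hNr0]
          congr 1
          ring
      _ ≤ 1 / 2 := by
          rw [Real.rpow_neg_one, inv_eq_one_div]
          exact one_div_le_one_div_of_le (by norm_num) (by linarith)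
  have hfin := hC h r σ η N (lam ρ β h) Λ G (G / 8) (by linarith) (by linarith) hKσ hcnt g1 g2
  have hl2 := Real.log_two_lt_d9
  have h5 : G ≤ G / 8 + Λ + 3 := by
    have : (N : ℝ) * (lam ρ β (h + r) - lam ρ β h - σ) =
      N * lam ρ β (h + r) - N * lam ρ β h - N * σ := by ring
    linarith
  linarith

end Pool.Agent.W_7d29a1_PK
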