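import Pool.Agent.W_7d29a1_D2.TubF74
import Pool.Agent.W_7d29a1_OT.EhrU81

/-!
The upper half of the scaling relation at one tilt, every law: if the free energy has an upper
bound of order `p` at `h` around the slope `v` then `p ν* ≤ 1 + (p - 1) χ*` with the exponents at
the tilt `h` only (helper60).
-/

namespace Pool.Agent.W_7d29a1_PK.O60

open MeasureTheory ProbabilityTheory Filter Topology Pool.Agent.W_MP_7d29a1_pr
  Pool.Agent.W_7d29a1_h46 Pool.Agent.W_7d29a1_h46u Pool.Agent.W_7d29a1_D2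
  Pool.Agent.W_7d29a1_D2.B35 Pool.Agent.W_7d29a1_OT

variable {d : ℕ}

open Classical in
/-- The sum of the weights of the walks that end in `F`. -/
lemma sumPP (β : ℝ) (h : Vec d) (F : Finset (Site d)) (m : ℕ) (η : Env d) :
    ∑ y ∈ F, PP β h η m y = ∑ s : Fin m → Step d, if pos s m ∈ F then wgt β h η s else 0 := by
  unfold PP ZT
  rw [Finset.sum_comm]
  refine Finset.sum_congr rfl fun s _ => ?_
  by_cases hs : pos s m ∈ F
  · rw [if_pos hs, Finset.sum_eq_single (pos s m)]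
    · rw [if_pos (show s ∈ {r : Fin m → Step d | pos r m = pos s m} from rfl)]
    · intro y _ hy
      rw [if_neg]
      intro h1
      exact hy h1.symm
    · intro h1
      exact absurd hs h1
  · rw [if_neg hs]
    refine Finset.sum_eq_zero fun y hy => if_neg ?_
    intro h1
    have h2 : pos s m = y := h1
    rw [h2] at hs
    exact hs hy

open Classical in
/-- The far end points. -/
noncomputable def FE (v : Vec d) (i : ℕ) (j : Fin d) (t w : ℝ) : Finset (Site d) :=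
  (boxF d i).filter fun y => |t| * w ≤ t * ((emb y) j - i * v j)

/-- The mass of the walks that are far at time `i`. -/
lemma far_F (hd : 0 < d) (β : ℝ) (h : Vec d) (η : Env d) {i n : ℕ} (hi : i ≤ n) (j : Fin d)
    (v : Vec d) (t w : ℝ) {M : ℝ} (hM : ∀ y ∈ boxF d i, Z β h (sh i y η) (n - i) ≤ M) :
    Far β h η n i j v t w ≤ (∑ y ∈ FE v i j t w, PP β h η i y) * M / Z β h η n := by
  classical
  obtain ⟨k, rfl⟩ := Nat.exists_eq_add_of_le hi
  have hk : i + k - i = k := by omega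
  rw [hk] at hM
  unfold Far
  refine div_le_div_of_nonneg_right ?_ (Z_pos hd β h η (i + k)).le
  rw [sumPP]
  unfold ZT
  rw [sum_glue, Finset.sum_mul]
  refine Finset.sum_le_sum fun s _ => ?_
  have hw0 : 0 < wgt β h η s := Real.exp_pos _
  have hZk : 0 ≤ Z β h (sh i (pos s i) η) k := (Z_pos hd β h _ k).le
  have hMs := hM (pos s i) (pos_mem_box s i)
  by_cases hs : |t| * w ≤ t * ((emb (pos s i)) j - i * v j)
  · have e1 : ∑ q : Fin k → Step d, (if Fin.append s q ∈ {s : Fin (i + k) → Step d |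
        |t| * w ≤ t * ((emb (pos s i)) j - i * v j)} then wgt β h η (Fin.append s q) else 0) =
        wgt β h η s * Z β h (sh i (pos s i) η) k := by
      rw [Z_eq, Finset.mul_sum]
      refine Finset.sum_congr rfl fun q _ => ?_
      rw [if_pos, wgt_glue]
      rw [Set.mem_ofPred_eq, pos_glue_le s q le_rfl]
      exact hs
    have hmem : pos s i ∈ FE v i j t w := Finset.mem_filter.2 ⟨pos_mem_box s i, hs⟩
    rw [e1, if_pos hmem]
    exact mul_le_mul_of_nonneg_left hMs hw0.le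
  · have e1 : ∑ q : Fin k → Step d, (if Fin.append s q ∈ {s : Fin (i + k) → Step d |
        |t| * w ≤ t * ((emb (pos s i)) j - i * v j)} then wgt β h η (Fin.append s q) else 0) =
        0 := by
      refine Finset.sum_eq_zero fun q _ => ?_
      rw [if_neg]
      rw [Set.mem_ofPred_eq, pos_glue_le s q le_rfl]
      exact hs
    rw [e1]
    refine mul_nonneg ?_ (hZk.trans hMs)
    split_ifs
    · exact hw0.le
    · exact le_rfl

/-- The comparison with the tilted partition function. -/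
lemma sum_FE_le (β : ℝ) (h : Vec d) (η : Env d) (i : ℕ) (j : Fin d) (v : Vec d) (t w : ℝ) :
    ∑ y ∈ FE v i j t w, PP β h η i y ≤
      Real.exp (-(t * (i * v j)) - |t| * w) * Z β (h + t • ej j) η i := by
  classical
  rw [sumPP, Z_eq, Finset.mul_sum]
  refine Finset.sum_le_sum fun s _ => ?_
  have hw0 : 0 < wgt β h η s := Real.exp_pos _
  rw [TubU_wgt, ← mul_assoc, ← Real.exp_add]
  split_ifs with hs
  · have h1 := (Finset.mem_filter.1 hs).2
    refine le_mul_of_one_le_left hw0.le (Real.one_le_exp ?_)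
    linarith
  · exact mul_nonneg (Real.exp_pos _).le hw0.le

lemma UF_le_X (hd : 0 < d) (β : ℝ) (h : Vec d) (η : Env d) (i : ℕ) (j : Fin d) (v : Vec d)
    (t w : ℝ) (hpos : 0 < ∑ y ∈ FE v i j t w, PP β h η i y) :
    UF β h (FE v i j t w) i η ≤ X β (h + t • ej j) η i - t * (i * v j) - |t| * w := by
  unfold UF
  have h1 := Real.log_le_log hpos (sum_FE_le β h η i j v t w)
  rw [Real.log_mul (Real.exp_pos _).ne' (Z_pos hd β _ η i).ne', Real.log_exp] at h1
  unfold X
  linarith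

lemma far_UF (hd : 0 < d) {ρ : Measure ℝ} [IsProbabilityMeasure ρ] (hρ : EM ρ) {β : ℝ}
    {h v : Vec d} {t u R w S : ℝ} {n : ℕ} {η : Env d} (j : Fin d)
    (hR : n * lam ρ β h - A ρ β h n ≤ R)
    (hmid : ∀ i ≤ n, ∀ y ∈ boxF d n, |X β h (sh i y η) (n - i) - A ρ β h (n - i)| ≤ u)
    {i : ℕ} (hi : i ≤ n)
    (hU : (∀ ξ : Env d, 0 < ∑ y ∈ FE v i j t w, PP β h ξ i y) →
      UF β h (FE v i j t w) i η ≤ i * lam ρ β h - S) :
    Far β h η n i j v t w ≤ Real.exp (2 * u + R - S) := by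
  classical
  have hM : ∀ y ∈ boxF d i, Z β h (sh i y η) (n - i) ≤ Real.exp (A ρ β h (n - i) + u) := by
    intro y hy
    rw [TubV_exp hd]
    refine Real.exp_le_exp.2 ?_
    have := (abs_le.1 (hmid i hi y (TubV_box hi hy))).2
    linarith
  refine (far_F hd β h η hi j v t w hM).trans ?_
  by_cases hne : ∃ s : Fin i → Step d, pos s i ∈ FE v i j t w
  · have hpos : ∀ ξ : Env d, 0 < ∑ y ∈ FE v i j t w, PP β h ξ i y := by
      intro ξ
      obtain ⟨s, hs⟩ := hne
      rw [sumPP]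
      refine lt_of_lt_of_le (Real.exp_pos (inner ℝ h (emb (pos s i)) + β * energy ξ s)) ?_
      have h1 : wgt β h ξ s = (if pos s i ∈ FE v i j t w then wgt β h ξ s else 0) := by
        rw [if_pos hs]
      change wgt β h ξ s ≤ _
      rw [h1]
      refine Finset.single_le_sum
        (f := fun s => if pos s i ∈ FE v i j t w then wgt β h ξ s else 0) (fun s _ => ?_)
        (Finset.mem_univ s)
      split_ifs
      · exact (Real.exp_pos _).le
      · exact le_rfl
    have h1 := hU hpos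
    have h2 : ∑ y ∈ FE v i j t w, PP β h η i y = Real.exp (UF β h (FE v i j t w) i η) := by
      unfold UF
      rw [Real.exp_log (hpos η)]
    rw [h2, TubV_exp hd β h η n, ← Real.exp_add, ← Real.exp_sub]
    refine Real.exp_le_exp.2 ?_
    have h3 := A_le_lam hd hρ β h (n - i)
    have h4 := hmid 0 (Nat.zero_le n) 0 (TubV_zero n)
    rw [TubV_sh, Nat.sub_zero] at h4
    have h5 := (abs_le.1 h4).1
    have h7 : ((n - i : ℕ) : ℝ) = n - i := by
      rw [Nat.cast_sub hi]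
    rw [h7] at h3
    have h8 : ((n : ℝ) - i) * lam ρ β h = n * lam ρ β h - i * lam ρ β h := by ring
    rw [h8] at h3
    linarith
  · have h0 : ∑ y ∈ FE v i j t w, PP β h η i y = 0 := by
      rw [sumPP]
      refine Finset.sum_eq_zero fun s _ => if_neg ?_
      intro hs
      exact hne ⟨s, hs⟩
    rw [h0, zero_mul, zero_div]
    exact (Real.exp_pos _).le

variable {ρ : Measure ℝ} [IsProbabilityMeasure ρ]

/-- The free energy is at most its mean plus one with probability at least of order `1 / n`. -/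
lemma low60 (hd : 0 < d) (hρ : EM ρ) (β : ℝ) : ∃ C : ℝ, 0 ≤ C ∧ ∀ (k : Vec d) (n : ℕ),
    1 / (1 + C * n) ≤ (law d ρ).real {η | X β k η n ≤ A ρ β k n + 1} := by
  obtain ⟨C, hC, H⟩ := momU (d := d) hd hρ β 2
  refine ⟨C, hC, fun k n => ?_⟩
  rcases Nat.eq_zero_or_pos n with hn | hn
  · have h1 : ∀ η : Env d, X β k η 0 = 0 := by
      intro η
      rw [X, Z_zero, Real.log_one]
    have h2 : A ρ β k 0 = 0 := by
      unfold A
      simp only [h1]
      exact integral_zero _ _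
    have h3 : {η : Env d | X β k η n ≤ A ρ β k n + 1} = Set.univ := by
      rw [Set.eq_univ_iff_forall]
      intro η
      rw [hn]
      show X β k η 0 ≤ A ρ β k 0 + 1
      rw [h1, h2]
      norm_num
    rw [h3, hn]
    simp
  · obtain ⟨hi, hv⟩ := H k n hn
    have hn0 : (0 : ℝ) < n := by exact_mod_cast hn
    obtain ⟨V, hV⟩ : ∃ V : ℝ, V = C * n := ⟨_, rfl⟩
    have hV0 : 0 ≤ V := by rw [hV]; positivity
    have e1 : C * (n : ℝ) ^ ((1 / 2 : ℝ) * ((2 : ℕ) : ℝ)) = V := by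
      rw [hV]
      norm_num
    rw [e1] at hv
    rw [← hV]
    have iX := (concU (ρ := ρ) hd hρ β k n).1
    simp only [sq_abs] at hi hv
    have iD : Integrable (fun η : Env d => X β k η n - A ρ β k n) (law d ρ) :=
      iX.sub (integrable_const _)
    have hD0 : ∫ η, (X β k η n - A ρ β k n) ∂(law d ρ) = 0 := by
      rw [integral_sub iX (integrable_const _), integral_const]
      simp only [probReal_univ, one_smul]
      exact sub_self _
    have iS : Integrable (fun η : Env d => (X β k η n - A ρ β k n) ^ 2 +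
        (2 * V * (X β k η n - A ρ β k n) + V ^ 2)) (law d ρ) :=
      hi.add ((iD.const_mul _).add (integrable_const _))
    have iL : Integrable (fun η : Env d => 2 * V * (X β k η n - A ρ β k n) + V ^ 2)
        (law d ρ) := (iD.const_mul _).add (integrable_const _)
    have hS : ∫ η, ((X β k η n - A ρ β k n) ^ 2 +
        (2 * V * (X β k η n - A ρ β k n) + V ^ 2)) ∂(law d ρ) ≤ V + V ^ 2 := by
      have b1 := integral_add (μ := law d ρ) hi iL
      have b2 := integral_add (μ := law d ρ) (iD.const_mul (2 * V)) (integrable_const (V ^ 2))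
      rw [integral_const_mul, hD0, integral_const, probReal_univ, one_smul, mul_zero,
        zero_add] at b2
      rw [b2] at b1
      rw [b1]
      linarith
    have h2 := mul_meas_ge_le_integral_of_nonneg (μ := law d ρ)
      (f := fun η => (X β k η n - A ρ β k n) ^ 2 + (2 * V * (X β k η n - A ρ β k n) + V ^ 2))
      (Eventually.of_forall fun η => by
        show (0 : ℝ) ≤ (X β k η n - A ρ β k n) ^ 2 + (2 * V * (X β k η n - A ρ β k n) + V ^ 2)
        have : (X β k η n - A ρ β k n) ^ 2 + (2 * V * (X β k η n - A ρ β k n) + V ^ 2) =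
          (X β k η n - A ρ β k n + V) ^ 2 := by ring
        rw [this]
        exact sq_nonneg _) iS ((1 + V) ^ 2)
    have hms : MeasurableSet {η : Env d | X β k η n ≤ A ρ β k n + 1} :=
      measurableSet_le (measurable_X β k n) measurable_const
    have h3 : (law d ρ).real {η : Env d | X β k η n ≤ A ρ β k n + 1}ᶜ ≤
        (law d ρ).real {η | (1 + V) ^ 2 ≤ (X β k η n - A ρ β k n) ^ 2 +
          (2 * V * (X β k η n - A ρ β k n) + V ^ 2)} := by
      refine measureReal_mono fun η (hη : ¬ X β k η n ≤ A ρ β k n + 1) => ?_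
      show (1 + V) ^ 2 ≤ (X β k η n - A ρ β k n) ^ 2 + (2 * V * (X β k η n - A ρ β k n) + V ^ 2)
      rw [not_le] at hη
      nlinarith
    rw [probReal_compl_eq_one_sub hms] at h3
    have h4 : (1 + V) ^ 2 * (1 - (law d ρ).real {η : Env d | X β k η n ≤ A ρ β k n + 1}) ≤
        V + V ^ 2 := (mul_le_mul_of_nonneg_left h3 (sq_nonneg _)).trans (h2.trans hS)
    rw [div_le_iff₀ (by positivity)]
    have h5 : (1 + V) * ((1 + V) *
        (1 - (law d ρ).real {η : Env d | X β k η n ≤ A ρ β k n + 1})) ≤ (1 + V) * V := by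
      calc (1 + V) * ((1 + V) *
          (1 - (law d ρ).real {η : Env d | X β k η n ≤ A ρ β k n + 1})) = (1 + V) ^ 2 *
          (1 - (law d ρ).real {η : Env d | X β k η n ≤ A ρ β k n + 1}) := by ring
        _ ≤ V + V ^ 2 := h4
        _ = _ := by ring
    have h6 := le_of_mul_le_mul_left h5 (by linarith)
    linarith

omit [IsProbabilityMeasure ρ] in
/-- One tilt as a family of sets. -/
lemma flK60 {β : ℝ} {h : Vec d} {x : ℝ} (hF : FlF ρ β h x) :
    FlK ρ β (fun _ => ({h} : Set (Vec d))) x := by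
  refine ⟨fun _ _ _ => subset_rfl, fun q => ?_⟩
  obtain ⟨C, hC⟩ := hF q
  refine ⟨C, fun k hk n hn => ?_⟩
  rw [Set.mem_singleton_iff.1 hk]
  exact hC n hn

/-- **The restricted free energy of the far walks is low**, by the amplification. -/
lemma side60 (hd : 0 < d) (hρ : EM ρ) {β : ℝ} (hβ : 0 ≤ β) (hA : W_7d29a1_AM.AmpCN ρ β)
    {h : Vec d} {x ε : ℝ} (hx : 0 < x) (hε : 0 < ε) (hF : FlF ρ β h x) {S : ℝ} (hS : 0 ≤ S)
    (q : ℕ) : ∃ N : ℕ, ∀ n : ℕ, N ≤ n → ∀ i ≤ n, ∀ (v : Vec d) (j : Fin d) (t w B : ℝ), 0 ≤ B →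
      lam ρ β (h + t • ej j) ≤ lam ρ β h + v j * t + B →
      n * B + (S + 2) * (n : ℝ) ^ (x + ε) ≤ |t| * w →
      (∀ ξ : Env d, 0 < ∑ y ∈ FE v i j t w, PP β h ξ i y) →
      (law d ρ).real {η | i * lam ρ β h - S * (n : ℝ) ^ (x + ε) <
        UF β h (FE v i j t w) i η} ≤ (n : ℝ) ^ (-((q + 2 : ℕ) : ℝ)) := by
  obtain ⟨C₀, hC₀, hlow⟩ := low60 (d := d) hd hρ β
  obtain ⟨C, hC1, hamp⟩ := E81.ampF (d := d) (ρ := ρ) hβ hA (S + 1) (by linarith)
  obtain ⟨Q, hQ⟩ := exists_nat_gt (((q + 2 : ℕ) : ℝ) * C)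
  obtain ⟨Q₂, C₂, hC₂, htail⟩ := tailK74 (d := d) hd hρ hx.le (flK60 hF) ε hε Q
  have hcast := tendsto_natCast_atTop_atTop (R := ℝ)
  have hxe : 0 < x + ε := by linarith
  have e1 : ∀ᶠ n : ℕ in atTop, (1 + C₀) ≤ (n : ℝ) := hcast.eventually (eventually_ge_atTop _)
  have e2 : ∀ᶠ n : ℕ in atTop, (2 : ℝ) ≤ (n : ℝ) := hcast.eventually (eventually_ge_atTop _)
  have e3 : ∀ᶠ n : ℕ in atTop, C₂ + 1 ≤ (n : ℝ) ^ ((Q : ℝ) - ((q + 2 : ℕ) : ℝ) * C) :=
    ((tendsto_rpow_atTop (by linarith)).comp hcast).eventually (eventually_ge_atTop _)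
  have e4 : ∀ᶠ n : ℕ in atTop, C * (1 + ((q + 2 : ℕ) : ℝ) * Real.log n) ≤
      (n : ℝ) ^ (x + ε) := by
    have h1 : (fun y : ℝ => C * (1 + ((q + 2 : ℕ) : ℝ) * Real.log y)) =o[atTop]
        fun y : ℝ => y ^ (x + ε) := by
      have h2 : (fun _ : ℝ => (1 : ℝ)) =o[atTop] fun y : ℝ => y ^ (x + ε) :=
        (Asymptotics.isLittleO_const_left.2 (Or.inr (tendsto_norm_atTop_atTop.comp
          (tendsto_rpow_atTop hxe))))
      exact (h2.add ((isLittleO_log_rpow_atTop hxe).const_mul_left _)).const_mul_left _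
    have h3 := (h1.bound one_pos).filter_mono hcast
    have h4 : ∀ᶠ n : ℕ in atTop, ‖C * (1 + ((q + 2 : ℕ) : ℝ) * Real.log (n : ℝ))‖ ≤
        1 * ‖(n : ℝ) ^ (x + ε)‖ := h3
    filter_upwards [h4] with n hn
    rw [one_mul, Real.norm_of_nonneg (Real.rpow_nonneg (Nat.cast_nonneg n) _)] at hn
    exact (le_abs_self _).trans hn
  have e5 : ∀ᶠ n : ℕ in atTop, (1 : ℝ) ≤ (n : ℝ) ^ (x + ε) :=
    ((tendsto_rpow_atTop hxe).comp hcast).eventually (eventually_ge_atTop _)
  obtain ⟨N, hN⟩ := eventually_atTop.1 (e1.and (e2.and (e3.and (e4.and e5))))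
  refine ⟨N, fun n hn i hi v j t w B hB hE htw hpos => ?_⟩
  obtain ⟨a1, a2, a3, a4, a5⟩ := hN n hn
  have hn0 : (0 : ℝ) < n := by linarith
  have hn1 : 1 ≤ n := by exact_mod_cast (by linarith : (1 : ℝ) ≤ n)
  have hin : (i : ℝ) ≤ n := by exact_mod_cast hi
  obtain ⟨u, hu⟩ : ∃ u : ℝ, u = (n : ℝ) ^ (x + ε) := ⟨_, rfl⟩
  rw [← hu] at htw a4 a5 ⊢
  by_contra hcon
  rw [not_le] at hcon
  obtain ⟨κ, hκ⟩ : ∃ κ : ℝ, κ = (n : ℝ) ^ (-((q + 2 : ℕ) : ℝ)) := ⟨_, rfl⟩
  rw [← hκ] at hcon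
  have hκ0 : 0 < κ := by rw [hκ]; exact Real.rpow_pos_of_pos hn0 _
  have hn2 : κ ≤ 1 / (n : ℝ) ^ 2 := by
    rw [hκ, Real.rpow_neg hn0.le, ← one_div, Real.rpow_natCast]
    refine one_div_le_one_div_of_le (by positivity) ?_
    exact pow_le_pow_right₀ (by linarith) (by omega)
  have hκ2 : κ ≤ 1 / 2 := by
    refine hn2.trans ?_
    rw [div_le_div_iff₀ (by positivity) (by norm_num)]
    nlinarith
  have hκl : κ ≤ 1 / (1 + C₀ * i) := by
    refine hn2.trans (one_div_le_one_div_of_le (by positivity) ?_)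
    have h1 : C₀ * i ≤ C₀ * n := mul_le_mul_of_nonneg_left hin hC₀
    nlinarith
  have hlog : Real.log (1 / κ) = ((q + 2 : ℕ) : ℝ) * Real.log n := by
    rw [hκ, one_div, Real.log_inv, Real.log_rpow hn0]
    ring
  obtain ⟨s₀, hs₀⟩ : ∃ s₀ : ℝ, s₀ = i * lam ρ β h + i * B + 1 - |t| * w := ⟨_, rfl⟩
  obtain ⟨s₁, hs₁⟩ : ∃ s₁ : ℝ, s₁ = i * lam ρ β h - S * u := ⟨_, rfl⟩
  have hiB : (i : ℝ) * B ≤ n * B := mul_le_mul_of_nonneg_right hin hB
  have hgap : u ≤ s₁ - s₀ := by
    rw [hs₀, hs₁]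
    have : (S + 2) * u = S * u + u + u := by ring
    rw [this] at htw
    linarith
  have h0 : κ ≤ (law d ρ).real {η | UF β h (FE v i j t w) i η ≤ s₀} := by
    refine hκl.trans ((hlow (h + t • ej j) i).trans (measureReal_mono fun η
      (hη : X β (h + t • ej j) η i ≤ A ρ β (h + t • ej j) i + 1) => ?_))
    show UF β h (FE v i j t w) i η ≤ s₀
    have h1 := UF_le_X hd β h η i j v t w (hpos η)
    have h2 := A_le_lam hd hρ β (h + t • ej j) i
    have h3 := mul_le_mul_of_nonneg_left hE (Nat.cast_nonneg (α := ℝ) i)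
    rw [hs₀]
    have h4 : (i : ℝ) * (lam ρ β h + v j * t + B) = i * lam ρ β h + t * (i * v j) + i * B := by
      ring
    rw [h4] at h3
    linarith
  have h1 := hamp h i (FE v i j t w) s₀ s₁ κ hpos hκ0 hκ2 (by
    rw [hlog]
    exact a4.trans hgap) h0 (by rw [hs₁]; exact hcon.le)
  have h2 : (law d ρ).real {η | s₁ + (S + 1) * (s₁ - s₀) < UF β h (FE v i j t w) i η} ≤
      C₂ * (n : ℝ) ^ (-(Q : ℝ)) := by
    refine le_trans (measureReal_mono fun η
      (hη : s₁ + (S + 1) * (s₁ - s₀) < UF β h (FE v i j t w) i η) => ?_)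
      (htail h rfl n i hn1 hi 0 0)
    show (n : ℝ) ^ (x + ε) < |X β h (sh 0 0 η) i - A ρ β h i|
    rw [TubV_sh, ← hu]
    have h3 := E81.UF_le hd β h (FE v i j t w) i η (hpos η)
    have h4 := A_le_lam hd hρ β h i
    have h5 : (S + 1) * u ≤ (S + 1) * (s₁ - s₀) := mul_le_mul_of_nonneg_left hgap (by linarith)
    have h6 := le_abs_self (X β h η i - A ρ β h i)
    have h7 : s₁ + (S + 1) * u = i * lam ρ β h + u := by
      rw [hs₁]
      ring
    linarith
  have h3 := h1.trans h2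
  have h4 : κ ^ C = (n : ℝ) ^ (-(((q + 2 : ℕ) : ℝ) * C)) := by
    rw [hκ, ← Real.rpow_mul hn0.le]
    congr 1
    ring
  have h5 : (n : ℝ) ^ ((Q : ℝ) - ((q + 2 : ℕ) : ℝ) * C) =
      (n : ℝ) ^ (-(((q + 2 : ℕ) : ℝ) * C)) * (n : ℝ) ^ (Q : ℝ) := by
    rw [← Real.rpow_add hn0]
    congr 1
    ring
  rw [h4] at h3
  have h6 : (n : ℝ) ^ (-(((q + 2 : ℕ) : ℝ) * C)) * (n : ℝ) ^ (Q : ℝ) ≤ C₂ := by
    have h7 := mul_le_mul_of_nonneg_right h3 (Real.rpow_nonneg hn0.le (Q : ℝ))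
    have e7 : (n : ℝ) ^ (-(Q : ℝ)) * (n : ℝ) ^ (Q : ℝ) = 1 := by
      rw [← Real.rpow_add hn0, neg_add_cancel, Real.rpow_zero]
    rw [mul_assoc, e7, mul_one] at h7
    exact h7
  rw [← h5] at h6
  linarith

/-- **The mass outside of the tube**, with the fluctuations at the tilt `h` only. -/
theorem tube60 (hd : 0 < d) (hρ : EM ρ) {β : ℝ} (hβ : 0 ≤ β) (hA : W_7d29a1_AM.AmpCN ρ β)
    {h v : Vec d} {x : ℝ} (hx : 0 < x) (hx1 : x < 1) (hF : FlF ρ β h x) {p : ℝ} (hp : 0 < p)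
    (hE : UpG (lam ρ β) h v p) {a : ℝ} (ha : 1 + (p - 1) * x < p * a) (q : ℕ) :
    ∃ C : ℝ, ∀ n : ℕ, 1 ≤ n →
      ∫ η, (1 - PolT β h η (tube d n v ((n : ℝ) ^ a))) ∂(law d ρ) ≤ C * (n : ℝ) ^ (-(q : ℝ)) := by
  classical
  have hd0 : (0 : ℝ) < d := by exact_mod_cast hd
  have hd1 : (1 : ℝ) ≤ d := by exact_mod_cast hd
  have ha' : x + (1 - x) / p < a := by
    have h1 : p * (x + (1 - x) / p) < p * a := by
      rw [mul_add, mul_div_cancel₀ _ hp.ne']
      linarith
    exact lt_of_mul_lt_mul_left h1 hp.le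
  obtain ⟨ε, hε, hε1, hε2⟩ : ∃ ε : ℝ, 0 < ε ∧ x + (1 - x) / p + 3 * ε ≤ a ∧ x + ε < 1 := by
    refine ⟨min ((a - (x + (1 - x) / p)) / 3) ((1 - x) / 2), lt_min (by linarith) (by linarith),
      ?_, ?_⟩
    · have := min_le_left ((a - (x + (1 - x) / p)) / 3) ((1 - x) / 2)
      linarith
    · have := min_le_right ((a - (x + (1 - x) / p)) / 3) ((1 - x) / 2)
      linarith
  obtain ⟨C₁, hC₁, H₁⟩ := rateK74 (d := d) hd hρ hx.le (flK60 hF) (h := h) (fun _ => rfl) ε hε hε2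
  obtain ⟨Q, C₂, hC₂, H₂⟩ := TubK74.prob_K (ρ := ρ) (β := β) (h := h)
    (K := fun _ => ({h} : Set (Vec d))) (fun _ => rfl) (tailK74 hd hρ hx.le (flK60 hF)) hε q
  obtain ⟨C₃, δ₃, hδ₃, H₃⟩ := expP_of_upG hE
  have hC₃ : 0 ≤ max C₃ 0 := le_max_right _ _
  obtain ⟨S, hS⟩ : ∃ S : ℝ, S = C₁ + 3 := ⟨_, rfl⟩
  have hS0 : 0 ≤ S := by linarith
  obtain ⟨N₁, HN₁⟩ := side60 (d := d) hd hρ hβ hA hx hε hF hS0 q
  have hint : ∀ n : ℕ, ∀ η : Env d, 1 - PolT β h η (tube d n v ((n : ℝ) ^ a)) ≤ 1 := fun n η => by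
    have := PolT_nonneg β h η (tube d n v ((n : ℝ) ^ a))
    linarith
  have hint0 : ∀ n : ℕ, ∀ η : Env d, 0 ≤ 1 - PolT β h η (tube d n v ((n : ℝ) ^ a)) := fun n η => by
    have := PolT_le_one β h η (tube d n v ((n : ℝ) ^ a))
    linarith
  have hcast := tendsto_natCast_atTop_atTop (R := ℝ)
  have hxp : 0 < (1 - x) / p := div_pos (by linarith) hp
  have ht : ∀ᶠ n : ℕ in atTop, (n : ℝ) ^ (-((1 - x) / p)) < δ₃ := by
    have h1 := (tendsto_rpow_neg_atTop hxp).comp hcast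
    exact h1.eventually (gt_mem_nhds hδ₃)
  have hbig : ∀ᶠ n : ℕ in atTop, d * (max C₃ 0 + (S + 2)) ≤ (n : ℝ) ^ (2 * ε) :=
    ((tendsto_rpow_atTop (by linarith)).comp hcast).eventually (eventually_ge_atTop _)
  obtain ⟨N, hN⟩ := eventually_atTop.1 (ht.and (hbig.and ((eventually_ge_atTop N₁).and
    (TubW_asym d hd 0 le_rfl (x := x / 2) (ε := x / 8) (by linarith) (by linarith) q))))
  refine ⟨max (C₂ + 8 * d) ((N : ℝ) ^ (q : ℝ)), fun n hn => ?_⟩
  have hn1 : (1 : ℝ) ≤ n := by exact_mod_cast hn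
  have hn0 : (0 : ℝ) < n := by linarith
  have hq0 : 0 ≤ (n : ℝ) ^ (-(q : ℝ)) := Real.rpow_nonneg hn0.le _
  rcases lt_or_ge n N with hnN | hnN
  · -- small n
    have h1 : ∫ η, (1 - PolT β h η (tube d n v ((n : ℝ) ^ a))) ∂(law d ρ) ≤ 1 := by
      have h2 := integral_mono_of_nonneg (μ := law d ρ) (Eventually.of_forall (hint0 n))
        (integrable_const (1 : ℝ)) (Eventually.of_forall (hint n))
      refine h2.trans (le_of_eq ?_)
      simp
    refine h1.trans ?_
    have h3 : 1 ≤ (N : ℝ) ^ (q : ℝ) * (n : ℝ) ^ (-(q : ℝ)) := by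
      rw [Real.rpow_neg hn0.le, ← div_eq_mul_inv, one_le_div (Real.rpow_pos_of_pos hn0 _)]
      exact Real.rpow_le_rpow hn0.le (by exact_mod_cast hnN.le) (Nat.cast_nonneg q)
    exact h3.trans (mul_le_mul_of_nonneg_right (le_max_right _ _) hq0)
  · obtain ⟨ht1, hbig1, hN1, hasym⟩ := hN n hnN
    obtain ⟨t, htdef⟩ : ∃ t : ℝ, t = (n : ℝ) ^ (-((1 - x) / p)) := ⟨_, rfl⟩
    rw [← htdef] at ht1
    have ht0 : 0 < t := by rw [htdef]; exact Real.rpow_pos_of_pos hn0 _
    obtain ⟨u, hu⟩ : ∃ u : ℝ, u = (n : ℝ) ^ (x + ε) := ⟨_, rfl⟩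
    have hu0 : 0 < u := by rw [hu]; exact Real.rpow_pos_of_pos hn0 _
    obtain ⟨w, hw⟩ : ∃ w : ℝ, w = (n : ℝ) ^ a / d := ⟨_, rfl⟩
    obtain ⟨B, hB⟩ : ∃ B : ℝ, B = max C₃ 0 * t ^ p := ⟨_, rfl⟩
    have htp : 0 < t ^ p := Real.rpow_pos_of_pos ht0 _
    have hB0 : 0 ≤ B := by rw [hB]; positivity
    have hR := H₁ n hn
    rw [← hu] at hR
    have hbad := H₂ n hn (fun _ _ _ => h) (fun _ _ _ => rfl)
    rw [← hu] at hbad
    have hnB : n * B ≤ max C₃ 0 * u := by
      have h1 : (n : ℝ) * t ^ p = (n : ℝ) ^ x := by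
        have h2 : t ^ p = (n : ℝ) ^ (-(1 - x)) := by
          rw [htdef, ← Real.rpow_mul hn0.le]
          congr 1
          field_simp
        rw [h2]
        nth_rewrite 1 [← Real.rpow_one (n : ℝ)]
        rw [← Real.rpow_add hn0]
        congr 1
        ring
      have h2 : (n : ℝ) ^ x ≤ u := by
        rw [hu]
        exact Real.rpow_le_rpow_of_exponent_le hn1 (by linarith)
      calc n * B = max C₃ 0 * (n * t ^ p) := by rw [hB]; ring
        _ = max C₃ 0 * (n : ℝ) ^ x := by rw [h1]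
        _ ≤ _ := mul_le_mul_of_nonneg_left h2 hC₃
    have htw : n * B + (S + 2) * u ≤ t * w := by
      have h1 : u * (n : ℝ) ^ (2 * ε) / d ≤ t * w := by
        rw [hw, ← mul_div_assoc]
        refine div_le_div_of_nonneg_right ?_ hd0.le
        rw [htdef, hu, ← Real.rpow_add hn0, ← Real.rpow_add hn0]
        exact Real.rpow_le_rpow_of_exponent_le hn1 (by linarith)
      have h2 : u * (d * (max C₃ 0 + (S + 2))) / d ≤ u * (n : ℝ) ^ (2 * ε) / d :=
        div_le_div_of_nonneg_right (mul_le_mul_of_nonneg_left hbig1 hu0.le) hd0.le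
      have h3 : u * (d * (max C₃ 0 + (S + 2))) / d = max C₃ 0 * u + (S + 2) * u := by
        field_simp
      rw [h3] at h2
      linarith
    have hEt : ∀ j : Fin d, ∀ s : ℝ, |s| = t → lam ρ β (h + s • ej j) ≤
        lam ρ β h + v j * s + B := by
      intro j s hs
      have h1 := H₃ j s (by rw [hs]; exact ht1.le)
      rw [hs] at h1
      have h2 : C₃ * t ^ p ≤ max C₃ 0 * t ^ p :=
        mul_le_mul_of_nonneg_right (le_max_left _ _) htp.le
      rw [hB]
      linarith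
    have hsg : ∀ b : Bool, |TubK74.sg b * t| = t := by
      intro b
      rw [abs_mul, TubK74.abs_sg, one_mul, abs_of_pos ht0]
    -- the bad sets of the far walks
    obtain ⟨Bd, hBd⟩ : ∃ Bd : ℕ × Fin d × Bool → Set (Env d), Bd = fun z =>
      {η | (∀ ξ : Env d, 0 < ∑ y ∈ FE v z.1 z.2.1 (TubK74.sg z.2.2 * t) w, PP β h ξ z.1 y) ∧
        z.1 * lam ρ β h - S * u < UF β h (FE v z.1 z.2.1 (TubK74.sg z.2.2 * t) w) z.1 η} :=
      ⟨_, rfl⟩
    have hBdp : ∀ z ∈ (Finset.range (n + 1)) ×ˢ (Finset.univ : Finset (Fin d × Bool)),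
        (law d ρ).real (Bd z) ≤ (n : ℝ) ^ (-((q + 2 : ℕ) : ℝ)) := by
      intro z hz
      have hz1 : z.1 ≤ n := Nat.lt_succ_iff.1 (Finset.mem_range.1 (Finset.mem_product.1 hz).1)
      rw [hBd]
      by_cases hpos : ∀ ξ : Env d, 0 < ∑ y ∈ FE v z.1 z.2.1 (TubK74.sg z.2.2 * t) w,
          PP β h ξ z.1 y
      · have h1 := HN₁ n hN1 z.1 hz1 v z.2.1 (TubK74.sg z.2.2 * t) w B hB0
          (hEt z.2.1 _ (hsg z.2.2)) (by rw [hsg, ← hu]; exact htw) hpos
        rw [← hu] at h1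
        refine le_trans (measureReal_mono fun η hη => ?_) h1
        exact hη.2
      · have h1 : {η : Env d | (∀ ξ : Env d, 0 < ∑ y ∈ FE v z.1 z.2.1
            (TubK74.sg z.2.2 * t) w, PP β h ξ z.1 y) ∧ z.1 * lam ρ β h - S * u <
              UF β h (FE v z.1 z.2.1 (TubK74.sg z.2.2 * t) w) z.1 η} = ∅ := by
          rw [Set.eq_empty_iff_forall_notMem]
          intro η hη
          exact hpos hη.1
        show (law d ρ).real {η : Env d | (∀ ξ : Env d, 0 < ∑ y ∈ FE v z.1 z.2.1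
            (TubK74.sg z.2.2 * t) w, PP β h ξ z.1 y) ∧ z.1 * lam ρ β h - S * u <
              UF β h (FE v z.1 z.2.1 (TubK74.sg z.2.2 * t) w) z.1 η} ≤ _
        rw [h1, measureReal_empty]
        exact Real.rpow_nonneg hn0.le _
    obtain ⟨G, hG⟩ : ∃ G : Set (Env d), G = {η | TubK74.GdK ρ β h (fun _ _ _ => h) u n η ∧
      ∀ z ∈ (Finset.range (n + 1)) ×ˢ (Finset.univ : Finset (Fin d × Bool)), η ∉ Bd z} :=
      ⟨_, rfl⟩
    have hGc : (law d ρ).real Gᶜ ≤ C₂ * (n : ℝ) ^ (-(q : ℝ)) + 4 * d * (n : ℝ) ^ (-(q : ℝ)) := by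
      have h1 : Gᶜ ⊆ {η | ¬ TubK74.GdK ρ β h (fun _ _ _ => h) u n η} ∪
          ⋃ z ∈ (Finset.range (n + 1)) ×ˢ (Finset.univ : Finset (Fin d × Bool)), Bd z := by
        intro η hη
        by_contra hcon
        rw [Set.mem_union, not_or, Set.mem_iUnion₂] at hcon
        obtain ⟨c1, c2⟩ := hcon
        apply hη
        rw [hG]
        refine ⟨not_not.1 c1, fun z hz hz2 => c2 ⟨z, hz, hz2⟩⟩
      have h2 : (law d ρ).real (⋃ z ∈ (Finset.range (n + 1)) ×ˢ
          (Finset.univ : Finset (Fin d × Bool)), Bd z) ≤ 4 * d * (n : ℝ) ^ (-(q : ℝ)) := by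
        refine (measureReal_biUnion_finset_le _ _).trans ((Finset.sum_le_sum hBdp).trans ?_)
        rw [Finset.sum_const, Finset.card_product, Finset.card_range, Finset.card_univ,
          Fintype.card_prod, Fintype.card_fin, Fintype.card_bool, nsmul_eq_mul]
        push_cast
        have h3 : (n : ℝ) ^ (-((q : ℝ) + 2)) ≤ (n : ℝ) ^ (-(q : ℝ)) / n := by
          rw [le_div_iff₀ hn0]
          nth_rewrite 2 [← Real.rpow_one (n : ℝ)]
          rw [← Real.rpow_add hn0]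
          exact Real.rpow_le_rpow_of_exponent_le hn1 (by linarith)
        have h4 : ((n : ℝ) + 1) * (d * 2) ≤ n * (4 * d) := by nlinarith
        have h5 : 0 ≤ (n : ℝ) ^ (-((q : ℝ) + 2)) := Real.rpow_nonneg hn0.le _
        calc ((n : ℝ) + 1) * (d * 2) * (n : ℝ) ^ (-((q : ℝ) + 2))
            ≤ n * (4 * d) * (n : ℝ) ^ (-((q : ℝ) + 2)) := mul_le_mul_of_nonneg_right h4 h5
          _ ≤ n * (4 * d) * ((n : ℝ) ^ (-(q : ℝ)) / n) :=
              mul_le_mul_of_nonneg_left h3 (by positivity)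
          _ = 4 * d * (n : ℝ) ^ (-(q : ℝ)) := by field_simp
      refine (measureReal_mono h1).trans ((measureReal_union_le _ _).trans ?_)
      exact add_le_add hbad h2
    have hGb : ∀ η ∈ G, 1 - PolT β h η (tube d n v ((n : ℝ) ^ a)) ≤
        4 * d * (n : ℝ) ^ (-(q : ℝ)) := by
      intro η hη
      rw [hG] at hη
      obtain ⟨g1, g2⟩ := hη
      refine (one_sub_le hd β h η n v (r := (n : ℝ) ^ a) ht0).trans ?_
      rw [← hw]
      have h1 : ∀ i ∈ Finset.range (n + 1), ∑ j : Fin d,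
          (Far β h η n i j v t w + Far β h η n i j v (-t) w) ≤ 2 * d * Real.exp (-u) := by
        intro i hi
        have hi' : i ≤ n := Nat.lt_succ_iff.1 (Finset.mem_range.1 hi)
        have h2 : ∀ j ∈ (Finset.univ : Finset (Fin d)),
            Far β h η n i j v t w + Far β h η n i j v (-t) w ≤ 2 * Real.exp (-u) := by
          intro j _
          have h3 : ∀ b : Bool, Far β h η n i j v (TubK74.sg b * t) w ≤ Real.exp (-u) := by
            intro b
            have h4 := far_UF (S := S * u) hd hρ j hR g1.mid hi' (w := w)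
              (t := TubK74.sg b * t) (fun hpos => by
                by_contra hc
                rw [not_le] at hc
                refine g2 (i, j, b) (Finset.mem_product.2 ⟨hi, Finset.mem_univ _⟩) ?_
                rw [hBd]
                exact ⟨hpos, hc⟩)
            have h5 : 2 * u + C₁ * u - S * u = -u := by rw [hS]; ring
            rwa [h5] at h4
          have a1 := h3 true
          have a2 := h3 false
          have b1 : TubK74.sg true * t = t := by simp [TubK74.sg]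
          have b2 : TubK74.sg false * t = -t := by simp [TubK74.sg]
          rw [b1] at a1
          rw [b2] at a2
          linarith
        refine (Finset.sum_le_sum h2).trans ?_
        rw [Finset.sum_const, Finset.card_univ, Fintype.card_fin, nsmul_eq_mul]
        linarith
      refine (Finset.sum_le_sum h1).trans ?_
      rw [Finset.sum_const, Finset.card_range, nsmul_eq_mul]
      push_cast
      have h2 : Real.exp (-u) ≤ Real.exp (0 * (n : ℝ) ^ (x / 2 + x / 8) -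
          (n : ℝ) ^ (x / 2 + 3 * (x / 8)) / d) := by
        refine Real.exp_le_exp.2 ?_
        have h3 : (n : ℝ) ^ (x / 2 + 3 * (x / 8)) ≤ u := by
          rw [hu]
          exact Real.rpow_le_rpow_of_exponent_le hn1 (by linarith)
        have h4 : (n : ℝ) ^ (x / 2 + 3 * (x / 8)) / d ≤ (n : ℝ) ^ (x / 2 + 3 * (x / 8)) :=
          div_le_self (Real.rpow_nonneg hn0.le _) hd1
        linarith
      have h3 := mul_le_mul_of_nonneg_left h2 (show (0 : ℝ) ≤ 2 * d * ((n : ℝ) + 1) by positivity)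
      linarith
    have hmain := TubW_split (μ := law d ρ)
      (f := fun η => 1 - PolT β h η (tube d n v ((n : ℝ) ^ a))) (hint n)
      (G := G) (b := 4 * d * (n : ℝ) ^ (-(q : ℝ))) (by positivity) hGb (hint0 n)
    refine hmain.trans ?_
    calc (law d ρ).real Gᶜ + 4 * d * (n : ℝ) ^ (-(q : ℝ)) ≤ C₂ * (n : ℝ) ^ (-(q : ℝ)) +
          4 * d * (n : ℝ) ^ (-(q : ℝ)) + 4 * d * (n : ℝ) ^ (-(q : ℝ)) := add_le_add hGc le_rfl
      _ = (C₂ + 8 * d) * (n : ℝ) ^ (-(q : ℝ)) := by ring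
      _ ≤ _ := mul_le_mul_of_nonneg_right (le_max_left _ _) hq0

end Pool.Agent.W_7d29a1_PK.O60

namespace Pool.Agent.W_7d29a1_PK

open MeasureTheory ProbabilityTheory Filter Topology Pool.Agent.W_MP_7d29a1_pr
  Pool.Agent.W_7d29a1_h46 Pool.Agent.W_7d29a1_h46u Pool.Agent.W_7d29a1_D2

variable {d : ℕ} {ρ : Measure ℝ} [IsProbabilityMeasure ρ] {Ω : Type*} [MeasurableSpace Ω]
  {μ : Measure Ω} [IsProbabilityMeasure μ] {ω : ℕ × Site d → Ω → ℝ} {β : ℝ}

/-- **The upper half at one tilt**: if `L (h + r) - L h - ⟨v, r⟩ ≤ C ‖r‖ ^ p` near `0` then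
`p ν* ≤ 1 + (p - 1) χ*` for the exponents at the tilt `h` and the direction `v`. -/
theorem nuS_le60 (hd : 0 < d) (hω : IID μ ρ ω) (hρ : EM ρ) (hβ : 0 ≤ β)
    (hA : W_7d29a1_AM.AmpCN ρ β) {h v : Vec d} {p : ℝ} (hp : 1 ≤ p)
    (hU : UpG (lam ρ β) h v p) : p * nuS μ β ω h v ≤ 1 + (p - 1) * chiF μ β ω h := by
  have hp0 : 0 < p := by linarith
  have key : ∀ y : ℝ, chiF μ β ω h < y → y < 1 → p * nuS μ β ω h v ≤ 1 + (p - 1) * y := by
    intro y hy hy1
    obtain ⟨x, hx, hxy⟩ := exists_lt_of_csInf_lt ⟨1 / 2, half_mem_chiSetF hd hω hρ h⟩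
      (show sInf (chiSetF μ β ω h) < y from hy)
    obtain ⟨hx0, hF⟩ := (mem_chiSetF hd hω hρ h x).1 hx
    have h1 : nuS μ β ω h v ≤ (1 + (p - 1) * y) / p := by
      refine le_of_forall_gt_imp_ge_of_dense fun a ha => ?_
      have ha1 : 1 + (p - 1) * y < p * a := by
        rw [div_lt_iff₀ hp0] at ha
        linarith
      have ha2 : 1 + (p - 1) * x < p * a := by nlinarith
      have ha0 : 0 < a := by
        have h2 : 0 < p * a := lt_of_le_of_lt (by nlinarith) ha2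
        exact (mul_pos_iff_of_pos_left hp0).1 h2
      refine csInf_le ⟨0, fun b hb => hb.1.le⟩ ((mem_nuSetS hω h v a).2 ⟨ha0, fun q => ?_⟩)
      exact O60.tube60 hd hρ hβ hA hx0 (hxy.trans hy1) hF hp0 hU ha2 q
    rw [le_div_iff₀ hp0] at h1
    linarith
  refine le_of_forall_pos_le_add fun ε hε => ?_
  have hhalf := chiF_le_half (β := β) hd hω hρ h
  have h3 : 0 < ε / p := div_pos hε hp0
  have h4 := key (min (chiF μ β ω h + ε / p) (3 / 4)) (lt_min (by linarith) (by linarith))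
    ((min_le_right _ _).trans_lt (by norm_num))
  have h6 : (p - 1) * min (chiF μ β ω h + ε / p) (3 / 4) ≤ (p - 1) * (chiF μ β ω h + ε / p) :=
    mul_le_mul_of_nonneg_left (min_le_left _ _) (by linarith)
  have h7 : (p - 1) * (ε / p) ≤ ε := by
    have h8 : (p - 1) * (ε / p) ≤ p * (ε / p) := mul_le_mul_of_nonneg_right (by linarith) h3.le
    rw [mul_div_cancel₀ _ hp0.ne'] at h8
    exact h8
  rw [mul_add] at h6
  linarith

end Pool.Agent.W_7d29a1_PK
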