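import Pool.Agent.W_7d29a1_PK.LKa77
import Pool.Agent.W_7d29a1_PK.Upp77
import Pool.Agent.W_7d29a1_PK.DefsCV24

/-!
`OneS`: one scale, one size of the tilt: the mass outside the tube (helper77).
-/

set_option autoImplicit false

namespace Pool.Agent.W_7d29a1_PK

open MeasureTheory ProbabilityTheory Filter Topology Set Pool.Agent.W_MP_7d29a1_pr
  Pool.Agent.W_7d29a1_h46 Pool.Agent.W_7d29a1_h46u Pool.Agent.W_7d29a1_D2
  Pool.Agent.W_7d29a1_PK.Half77 Pool.Agent.W_7d29a1_PK.LK77 Pool.Agent.W_7d29a1_PK.Upp77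

variable {d : ℕ} {ρ : Measure ℝ} [IsProbabilityMeasure ρ] {β : ℝ}

/-- The mass of a half space at one scale, with a free tilt `t`. -/
theorem halfS77 (hd : 0 < d) (hρ : EM ρ) (hE : AmpE ρ β d) (h : Vec d) {x : ℝ}
    (hx : 0 < x) (q : ℝ) :
    ∃ Q : ℝ, ∀ᶠ M : ℕ in atTop,
      (∀ l ≤ M, (law d ρ).real {η | l * lam ρ β h + 2 * (M : ℝ) ^ x ≤ X β h η l} ≤
        (M : ℝ) ^ (-Q)) →
      ∀ (u : Vec d) (s t w B : ℝ), 0 < t → 0 ≤ B →
      lam ρ β (h + t • u) ≤ lam ρ β h + t * s + B → M * B + 13 * (M : ℝ) ^ x ≤ t * w →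
      ∀ i ≤ M, (law d ρ).real {η | Real.exp (i * lam ρ β h - 11 * (M : ℝ) ^ x) <
        ZT β h η (Hn d i i u s w)} ≤ (M : ℝ) ^ (-q) := by
  obtain ⟨Ca, hCa, hAmp⟩ := hE 8 (by norm_num)
  obtain ⟨Cl, hCl, hLow⟩ := low (d := d) hd hρ β
  obtain ⟨q₂, hq₂⟩ : ∃ q₂ : ℝ, q₂ = max q 2 := ⟨_, rfl⟩
  have hq₂q : q ≤ q₂ := by
    rw [hq₂]
    exact le_max_left _ _
  have hq₂2 : 2 ≤ q₂ := by
    rw [hq₂]
    exact le_max_right _ _
  refine ⟨Ca * q₂ + 1, ?_⟩
  filter_upwards [ev_log2 hx (Ca * q₂) (by positivity),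
    eventually_ge_atTop (max 2 ⌈Cl⌉₊)] with n hlog hn hG u s t w B ht0 hB0 hup htw i hi
  have hn2 : 2 ≤ n := (le_max_left _ _).trans hn
  have hnC : Cl ≤ n := by
    have h1 : ⌈Cl⌉₊ ≤ n := (le_max_right _ _).trans hn
    exact (Nat.le_ceil Cl).trans (by exact_mod_cast h1)
  have hn1 : (1 : ℝ) ≤ n := by
    have : 1 ≤ n := by omega
    exact_mod_cast this
  have hn2' : (2 : ℝ) ≤ n := by exact_mod_cast hn2
  have hn0 : (0 : ℝ) < n := by linarith
  have hi0 : (0 : ℝ) ≤ i := Nat.cast_nonneg _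
  have hin : (i : ℝ) ≤ n := by exact_mod_cast hi
  have hlogn : 0 ≤ Real.log n := Real.log_nonneg hn1
  have hny : 10 ≤ (n : ℝ) ^ x := by
    have : 0 ≤ Ca * q₂ * (1 + Real.log n) := by positivity
    linarith
  obtain ⟨s₀, hs₀⟩ : ∃ s₀ : ℝ, s₀ = i * lam ρ β h + 1 - 13 * (n : ℝ) ^ x := ⟨_, rfl⟩
  obtain ⟨s₁, hs₁⟩ : ∃ s₁ : ℝ, s₁ = i * lam ρ β h - 11 * (n : ℝ) ^ x := ⟨_, rfl⟩
  rw [← hs₁]
  have hdiff : s₁ - s₀ = 2 * (n : ℝ) ^ x - 1 := by
    rw [hs₁, hs₀]
    ring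
  obtain ⟨r, hr⟩ : ∃ r : ℝ, r = (n : ℝ) ^ (-q₂) := ⟨_, rfl⟩
  have hr0 : 0 < r := by
    rw [hr]
    exact Real.rpow_pos_of_pos hn0 _
  have hrn2 : r ≤ 1 / (Cl * n) := by
    have h1 : (n : ℝ) ^ (-(2 : ℝ)) = 1 / (n * n) := by
      rw [Real.rpow_neg hn0.le, Real.rpow_two, sq, one_div]
    have h2 : r ≤ (n : ℝ) ^ (-(2 : ℝ)) := by
      rw [hr]
      exact Real.rpow_le_rpow_of_exponent_le hn1 (by linarith)
    refine h2.trans ?_
    rw [h1]
    refine one_div_le_one_div_of_le (by positivity) ?_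
    exact mul_le_mul_of_nonneg_right hnC hn0.le
  have hr2 : r ≤ 1 / 2 := by
    refine hrn2.trans (one_div_le_one_div_of_le two_pos ?_)
    nlinarith
  have hlogr : Real.log (1 / r) = q₂ * Real.log n := by
    rw [one_div, Real.log_inv, hr, Real.log_rpow hn0]
    ring
  have hsc : Ca * (1 + Real.log (1 / r)) ≤ s₁ - s₀ := by
    rw [hlogr, hdiff]
    have h1 : Ca * (1 + q₂ * Real.log n) ≤ Ca * q₂ * (1 + Real.log n) := by
      have : Ca * 1 ≤ Ca * q₂ := mul_le_mul_of_nonneg_left (by linarith) (by linarith)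
      nlinarith
    linarith
  have h0 : r ≤ (law d ρ).real {η | ZT β h η (Hn d i i u s w) ≤ Real.exp s₀} := by
    refine hrn2.trans ((hLow (h + t • u) i n hi (by omega)).trans ?_)
    refine measureReal_mono fun η (hη : X β (h + t • u) η i ≤ A ρ β (h + t • u) i + 1) => ?_
    show ZT β h η (Hn d i i u s w) ≤ Real.exp s₀
    refine (hf_le β h u η i s w ht0.le).trans ?_
    rw [TubV_exp hd, ← Real.exp_add]
    refine Real.exp_le_exp.2 ?_
    have h1 := A_le_lam hd hρ β (h + t • u) i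
    have h3 := mul_le_mul_of_nonneg_left hup hi0
    have h4 : (i : ℝ) * B ≤ n * B := mul_le_mul_of_nonneg_right hin hB0
    rw [hs₀]
    nlinarith
  by_contra hcon
  rw [not_le] at hcon
  have h1 : r ≤ (law d ρ).real {η | Real.exp s₁ < ZT β h η (Hn d i i u s w)} := by
    refine le_trans ?_ hcon.le
    rw [hr]
    exact Real.rpow_le_rpow_of_exponent_le hn1 (by linarith)
  have key := hAmp h i (Hn d i i u s w) s₀ s₁ r hr0 hr2 hsc h0 h1
  have h2 : (law d ρ).real {η | Real.exp (s₁ + 8 * (s₁ - s₀)) < ZT β h η (Hn d i i u s w)} ≤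
      (n : ℝ) ^ (-(Ca * q₂ + 1)) := by
    refine (measureReal_mono ?_).trans (hG i hi)
    intro η hη
    have hη' : Real.exp (s₁ + 8 * (s₁ - s₀)) < ZT β h η (Hn d i i u s w) := hη
    show i * lam ρ β h + 2 * (n : ℝ) ^ x ≤ X β h η i
    have h3 : ZT β h η (Hn d i i u s w) ≤ Z β h η i := ZT_mono β h η (subset_univ _)
    rw [TubV_exp hd] at h3
    have h6 := Real.exp_lt_exp.1 (hη'.trans_le h3)
    rw [hdiff, hs₁] at h6
    linarith
  have h3 : r ^ Ca = (n : ℝ) ^ (-(Ca * q₂)) := by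
    rw [hr, ← Real.rpow_mul hn0.le]
    congr 1
    ring
  rw [h3] at key
  have h4 : (n : ℝ) ^ (-(Ca * q₂ + 1)) < (n : ℝ) ^ (-(Ca * q₂)) :=
    Real.rpow_lt_rpow_of_exponent_lt (by linarith) (by linarith)
  linarith [key.trans h2]

lemma up_ray2 {h v : Vec d} {t B : ℝ} {L : Vec d → ℝ} (ht : 0 < t)
    (hU : ∀ r : Vec d, ‖r‖ = t → gap L h v r ≤ B) (j : Fin d) (b : Bool) :
    L (h + t • (sg b • (ej j : Vec d))) ≤ L h + t * (sg b * v j) + B := by
  have hn : ‖t • (sg b • (ej j : Vec d))‖ = t := by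
    have h1 : |sg b| = 1 := by
      cases b <;> simp [sg]
    rw [norm_smul, norm_smul, Upp77.norm_ej, Real.norm_eq_abs, Real.norm_eq_abs, h1,
      abs_of_pos ht]
    ring
  have h1 := hU (t • (sg b • (ej j : Vec d))) hn
  have h2 : inner ℝ v (t • (sg b • (ej j : Vec d))) = t * (sg b * v j) := by
    rw [real_inner_comm, smul_smul, inner_ej]
    ring
  unfold gap at h1
  rw [h2] at h1
  linarith

/-- **ONES.** -/
theorem oneS77 (hd : 0 < d) (hρ : EM ρ) (hL : LowPK d ρ β) (hU : UplPK d ρ β)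
    (hA : AmpPK d ρ β) (hE : AmpE ρ β d) : OneS d ρ β := by
  intro h v x hx hx1 q
  have hd0 : (0 : ℝ) < d := by exact_mod_cast hd
  obtain ⟨q₁, hq₁⟩ : ∃ q₁ : ℝ, q₁ = q + d + 3 := ⟨_, rfl⟩
  have hq0 : (0 : ℝ) ≤ q := Nat.cast_nonneg q
  have hq₁0 : 0 < q₁ := by
    rw [hq₁]
    linarith
  obtain ⟨Q, HQ⟩ := halfS77 hd hρ hE h hx q₁
  obtain ⟨QT, HT⟩ := tails hL hU hA h hx (max Q q₁)
  obtain ⟨K, hK⟩ : ∃ K : ℝ, K = 2 * 3 ^ d + 1 + 8 * d := ⟨_, rfl⟩
  obtain ⟨N₀, hN₀⟩ := eventually_atTop.1 ((HQ.and HT).and (ev_log2 hx q₁ hq₁0.le))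
  refine ⟨QT, max (max N₀ 2) (⌈K⌉₊ + 1), fun N hN hup t w B ht hw hB hgap htw => ?_⟩
  have hNN : N₀ ≤ N := ((le_max_left _ _).trans (le_max_left _ _)).trans hN
  have hN2 : 2 ≤ N := ((le_max_right _ _).trans (le_max_left _ _)).trans hN
  have hNK : K < N := by
    have h1 : ⌈K⌉₊ + 1 ≤ N := (le_max_right _ _).trans hN
    have h2 : ((⌈K⌉₊ + 1 : ℕ) : ℝ) ≤ N := by exact_mod_cast h1
    push_cast at h2
    linarith [Nat.le_ceil K]
  have hN2' : (2 : ℝ) ≤ N := by exact_mod_cast hN2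
  have hN1 : (1 : ℝ) ≤ N := by linarith
  have hNp : (0 : ℝ) < N := by linarith
  obtain ⟨⟨hhalf, htail⟩, hlog⟩ := hN₀ N hNN
  have hlogN : 0 ≤ Real.log N := Real.log_nonneg hN1
  have hNy : 10 ≤ (N : ℝ) ^ x := by
    have : 0 ≤ q₁ * (1 + Real.log N) := by positivity
    linarith
  have htl := htail hup
  have e1 : (N : ℝ) ^ (-max Q q₁) ≤ (N : ℝ) ^ (-Q) :=
    Real.rpow_le_rpow_of_exponent_le hN1 (neg_le_neg (le_max_left _ _))
  have e2 : (N : ℝ) ^ (-max Q q₁) ≤ (N : ℝ) ^ (-q₁) :=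
    Real.rpow_le_rpow_of_exponent_le hN1 (neg_le_neg (le_max_right _ _))
  have hh := hhalf (fun l hl => (htl l hl).1.trans e1)
  obtain ⟨P, hP⟩ : ∃ P : ℝ, P = (N : ℝ) ^ (-q₁) := ⟨_, rfl⟩
  have hP0 : 0 < P := by
    rw [hP]
    exact Real.rpow_pos_of_pos hNp _
  obtain ⟨S1, hS1⟩ : ∃ S1 : ℕ × Site d → Set (Env d), S1 = fun m =>
      {η | ((N - m.1 : ℕ) : ℝ) * lam ρ β h + 2 * (N : ℝ) ^ x ≤
        X β h (sh m.1 m.2 η) (N - m.1)} := ⟨_, rfl⟩
  obtain ⟨S2, hS2⟩ : ∃ S2 : ℕ × (Fin d × Bool) → Set (Env d), S2 = fun m =>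
      {η | Real.exp (m.1 * lam ρ β h - 11 * (N : ℝ) ^ x) <
        ZT β h η (Hn d m.1 m.1 (sg m.2.2 • (ej m.2.1 : Vec d)) (sg m.2.2 * v m.2.1) w)} :=
    ⟨_, rfl⟩
  obtain ⟨S3, hS3⟩ : ∃ S3 : Set (Env d), S3 =
      {η | X β h η N < N * lam ρ β h - 8 * (N : ℝ) ^ x} := ⟨_, rfl⟩
  have b1 : ∀ m ∈ (Finset.range (N + 1)) ×ˢ boxF d N, (law d ρ).real (S1 m) ≤ P := by
    intro m _
    have hmeas : MeasurableSet {η : Env d | ((N - m.1 : ℕ) : ℝ) * lam ρ β h +
        2 * (N : ℝ) ^ x ≤ X β h η (N - m.1)} :=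
      measurableSet_le measurable_const (measurable_X β h (N - m.1))
    have h1 : (law d ρ).real (S1 m) = (law d ρ).real {η : Env d |
        ((N - m.1 : ℕ) : ℝ) * lam ρ β h + 2 * (N : ℝ) ^ x ≤ X β h η (N - m.1)} := by
      rw [hS1]
      exact real_shift80 hmeas m.1 m.2
    rw [h1, hP]
    exact (htl (N - m.1) (Nat.sub_le _ _)).1.trans e2
  have b2 : ∀ m ∈ (Finset.range (N + 1)) ×ˢ (Finset.univ : Finset (Fin d × Bool)),
      (law d ρ).real (S2 m) ≤ P := by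
    intro m hm
    have hm1 : m.1 ≤ N := Nat.lt_succ_iff.1 (Finset.mem_range.1 (Finset.mem_product.1 hm).1)
    rw [hS2, hP]
    exact hh _ _ t w B ht hB (up_ray2 ht hgap m.2.1 m.2.2) htw m.1 hm1
  have b3 : (law d ρ).real S3 ≤ P := by
    rw [hS3, hP]
    exact (htl N le_rfl).2.trans e2
  obtain ⟨G, hGdef⟩ : ∃ G : Set (Env d), G =
      ((⋃ m ∈ (Finset.range (N + 1)) ×ˢ boxF d N, S1 m) ∪
        (⋃ m ∈ (Finset.range (N + 1)) ×ˢ (Finset.univ : Finset (Fin d × Bool)), S2 m) ∪ S3)ᶜ :=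
    ⟨_, rfl⟩
  have hGc : (law d ρ).real Gᶜ ≤ ((N : ℝ) + 1) * (2 * N + 1) ^ d * P +
      ((N : ℝ) + 1) * (2 * d) * P + P := by
    rw [hGdef, compl_compl]
    refine (measureReal_union_le _ _).trans (add_le_add
      ((measureReal_union_le _ _).trans (add_le_add ?_ ?_)) b3)
    · refine (measureReal_biUnion_finset_le _ _).trans ((Finset.sum_le_sum b1).trans
        (le_of_eq ?_))
      rw [Finset.sum_const, Finset.card_product, Finset.card_range, card_boxF, nsmul_eq_mul]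
      push_cast
      ring
    · refine (measureReal_biUnion_finset_le _ _).trans ((Finset.sum_le_sum b2).trans
        (le_of_eq ?_))
      rw [Finset.sum_const, Finset.card_product, Finset.card_range, nsmul_eq_mul,
        Finset.card_univ, Fintype.card_prod, Fintype.card_fin, Fintype.card_bool]
      push_cast
      ring
  have hexp : Real.exp (-(N : ℝ) ^ x) ≤ P := by
    have h1 : P = Real.exp (-(q₁ * Real.log N)) := by
      rw [hP, Real.rpow_def_of_pos hNp]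
      congr 1
      ring
    rw [h1]
    refine Real.exp_le_exp.2 (neg_le_neg ?_)
    nlinarith
  have hgood : ∀ η ∈ G, 1 - PolT β h η (tube d N v (d * w)) ≤
      ((N : ℝ) + 1) * (2 * d) * P := by
    intro η hη
    rw [hGdef, mem_compl_iff, mem_union, mem_union, not_or, not_or, mem_iUnion₂,
      mem_iUnion₂] at hη
    obtain ⟨⟨g1, g2⟩, g3⟩ := hη
    have hZn : 0 < Z β h η N := Z_pos hd β h η N
    have hXn : N * lam ρ β h - 8 * (N : ℝ) ^ x ≤ X β h η N := by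
      by_contra hc
      apply g3
      rw [hS3]
      exact not_le.1 hc
    have hfar : ∀ i ≤ N, ∀ k : Fin d × Bool,
        ZT β h η (Hn d N i (sg k.2 • (ej k.1 : Vec d)) (sg k.2 * v k.1) w) / Z β h η N ≤
          P := by
      intro i hi k
      have hi' : i ∈ Finset.range (N + 1) := Finset.mem_range.2 (Nat.lt_succ_iff.2 hi)
      have hM : ∀ z ∈ boxF d i, Z β h (sh i z η) (N - i) ≤
          Real.exp (((N - i : ℕ) : ℝ) * lam ρ β h + 2 * (N : ℝ) ^ x) := by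
        intro z hz
        rw [TubV_exp hd]
        refine Real.exp_le_exp.2 ?_
        by_contra hc
        refine g1 ⟨(i, z), Finset.mem_product.2 ⟨hi', TubV_box hi hz⟩, ?_⟩
        rw [hS1]
        exact (not_le.1 hc).le
      have h1 := hn_le β h (sg k.2 • (ej k.1 : Vec d)) η hi (sg k.2 * v k.1) w hM
      have h2 : ZT β h η (Hn d i i (sg k.2 • (ej k.1 : Vec d)) (sg k.2 * v k.1) w) ≤
          Real.exp (i * lam ρ β h - 11 * (N : ℝ) ^ x) := by
        by_contra hc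
        refine g2 ⟨(i, k), Finset.mem_product.2 ⟨hi', Finset.mem_univ _⟩, ?_⟩
        rw [hS2]
        exact not_le.1 hc
      refine le_trans ?_ hexp
      rw [div_le_iff₀ hZn]
      refine h1.trans ((mul_le_mul_of_nonneg_right h2 (Real.exp_pos _).le).trans ?_)
      rw [TubV_exp hd, ← Real.exp_add, ← Real.exp_add]
      refine Real.exp_le_exp.2 ?_
      have h3 : ((N - i : ℕ) : ℝ) = N - i := by
        rw [Nat.cast_sub hi]
      rw [h3]
      nlinarith
    refine (one_sub_le hd β h η N v (r := d * w) one_pos).trans ?_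
    have h5 : ∀ i ∈ Finset.range (N + 1), ∑ j : Fin d,
        (Far β h η N i j v 1 (d * w / d) + Far β h η N i j v (-1) (d * w / d)) ≤
        2 * d * P := by
      intro i hi
      have hi' : i ≤ N := Nat.lt_succ_iff.1 (Finset.mem_range.1 hi)
      have h6 : ∀ j ∈ (Finset.univ : Finset (Fin d)),
          Far β h η N i j v 1 (d * w / d) + Far β h η N i j v (-1) (d * w / d) ≤
            2 * P := by
        intro j _
        have e : (d : ℝ) * w / d = w := by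
          field_simp
        rw [e]
        have a1 := far_eq β h v η N i j true w
        have a2 := far_eq β h v η N i j false w
        have c1 := hfar i hi' (j, true)
        have c2 := hfar i hi' (j, false)
        simp only at c1 c2
        rw [← a1] at c1
        rw [← a2] at c2
        have s1 : sg true = 1 := by simp [sg]
        have s2 : sg false = -1 := by simp [sg]
        rw [s1] at c1
        rw [s2] at c2
        linarith
      refine (Finset.sum_le_sum h6).trans (le_of_eq ?_)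
      rw [Finset.sum_const, Finset.card_univ, Fintype.card_fin, nsmul_eq_mul]
      ring
    refine (Finset.sum_le_sum h5).trans (le_of_eq ?_)
    rw [Finset.sum_const, Finset.card_range, nsmul_eq_mul]
    push_cast
    ring
  have hmain := TubW_split (μ := law d ρ)
    (f := fun η => 1 - PolT β h η (tube d N v (d * w)))
    (fun η => by
      have := PolT_nonneg β h η (tube d N v (d * w))
      linarith)
    (G := G) (b := ((N : ℝ) + 1) * (2 * d) * P) (by positivity) hgood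
    (fun η => by
      have := PolT_le_one β h η (tube d N v (d * w))
      linarith)
  refine (hmain.trans (add_le_add hGc le_rfl)).trans ?_
  have e4 : (N : ℝ) + 1 ≤ 2 * N := by linarith
  have e5 : (2 * (N : ℝ) + 1) ^ d ≤ 3 ^ d * (N : ℝ) ^ d := by
    rw [← mul_pow]
    exact pow_le_pow_left₀ (by positivity) (by linarith) d
  have e6 : (1 : ℝ) ≤ (N : ℝ) ^ d := one_le_pow₀ hN1
  have e7 : ((N : ℝ) + 1) * (2 * N + 1) ^ d ≤ 2 * 3 ^ d * ((N : ℝ) ^ d * N) := by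
    have := mul_le_mul e4 e5 (by positivity) (by positivity : (0 : ℝ) ≤ 2 * N)
    linarith
  have e8 : (N : ℝ) ≤ (N : ℝ) ^ d * N := le_mul_of_one_le_left hNp.le e6
  have e9 : ((N : ℝ) + 1) * (2 * d) ≤ 4 * d * ((N : ℝ) ^ d * N) := by
    have h1 : ((N : ℝ) + 1) * (2 * d) ≤ 2 * N * (2 * d) :=
      mul_le_mul_of_nonneg_right e4 (by positivity)
    have h2 : (4 * d) * (N : ℝ) ≤ 4 * d * ((N : ℝ) ^ d * N) :=
      mul_le_mul_of_nonneg_left e8 (by positivity)
    linarith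
  have e10 : (1 : ℝ) ≤ (N : ℝ) ^ d * N := by linarith
  have e11 : ((N : ℝ) + 1) * (2 * N + 1) ^ d * P + ((N : ℝ) + 1) * (2 * d) * P + P +
      ((N : ℝ) + 1) * (2 * d) * P ≤ K * ((N : ℝ) ^ d * N) * P := by
    have h1 : ((N : ℝ) + 1) * (2 * N + 1) ^ d + ((N : ℝ) + 1) * (2 * d) + 1 +
        ((N : ℝ) + 1) * (2 * d) ≤ K * ((N : ℝ) ^ d * N) := by
      rw [hK]
      linarith
    have h2 := mul_le_mul_of_nonneg_right h1 hP0.le
    linarith
  refine e11.trans ?_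
  have e12 : (N : ℝ) ^ d * N * P = (N : ℝ) ^ (-(q : ℝ)) * (N : ℝ) ^ (-(2 : ℝ)) := by
    rw [hP, ← Real.rpow_natCast]
    nth_rewrite 2 [← Real.rpow_one (N : ℝ)]
    rw [← Real.rpow_add hNp, ← Real.rpow_add hNp, ← Real.rpow_add hNp]
    congr 1
    rw [hq₁]
    ring
  have e13 : K * (N : ℝ) ^ (-(2 : ℝ)) < 1 := by
    rw [Real.rpow_neg hNp.le, Real.rpow_two, ← div_eq_mul_inv, div_lt_one (by positivity)]
    nlinarith
  calc K * ((N : ℝ) ^ d * N) * P = K * (N : ℝ) ^ (-(2 : ℝ)) * (N : ℝ) ^ (-(q : ℝ)) := by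
        rw [mul_assoc, e12]
        ring
    _ ≤ 1 * (N : ℝ) ^ (-(q : ℝ)) :=
        mul_le_mul_of_nonneg_right e13.le (Real.rpow_nonneg hNp.le _)
    _ = _ := one_mul _

end Pool.Agent.W_7d29a1_PK
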