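import Pool.Agent.W_7d29a1_KL.LeafA74
import Pool.Agent.W_7d29a1_KL.KpzL46
import Pool.Agent.W_7d29a1_KP.TubU68
import Pool.Agent.W_7d29a1_KZ.Nvs20

/-!
THEOREM PA (helper34): at a single tilt `h`, an upper bound of the order `p` for the growth of the
free energy gives `p ν* ≤ 1 + (p - 1) χ*`, for one component and for the whole displacement: the
amplification is applied to the weight of the walks beyond a level at a fixed time, at the tilt `h`
itself.
-/

set_option autoImplicit false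

namespace Pool.Agent.W_7d29a1_PK

open MeasureTheory ProbabilityTheory Filter Topology Pool.Agent.W_MP_7d29a1_pr
  Pool.Agent.W_7d29a1_h46 Pool.Agent.W_7d29a1_h46u Pool.Agent.W_7d29a1_D2
  Pool.Agent.W_7d29a1_Q29 Pool.Agent.W_7d29a1_R34 Pool.Agent.W_7d29a1_V Pool.Agent.W_7d29a1_VT
  Pool.Agent.W_7d29a1_V.Li70 Pool.Agent.W_7d29a1_AM Pool.Agent.W_7d29a1_KL
  Pool.Agent.W_7d29a1_D2.TubK74 Pool.Agent.W_7d29a1_SP

namespace A34

variable {d : ℕ} {ρ : Measure ℝ} [IsProbabilityMeasure ρ] {β : ℝ}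

/-- The free energy is at most its mean plus one with a probability that is not too small. -/
lemma low34 (hd : 0 < d) (hρ : EM ρ) (β : ℝ) (k : Vec d) (m : ℕ) {V : ℝ}
    (hV : Va ρ β k m ≤ V) (hV0 : 0 < V) :
    1 / (2 + V) ≤ (law d ρ).real {η | X β k η m ≤ A ρ β k m + 1} := by
  have mX := measurable_X (d := d) β k m
  have hS : MeasurableSet {η : Env d | X β k η m ≤ A ρ β k m + 1} :=
    measurableSet_le mX measurable_const
  have h1 : ∀ η : Env d, (1 : ℝ) ≤ (X β k η m - A ρ β k m) +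
      ({η : Env d | X β k η m ≤ A ρ β k m + 1}.indicator (fun _ => 1 + V / 2) η +
        (1 / (2 * V)) * (X β k η m - A ρ β k m) ^ 2) := by
    intro η
    obtain ⟨y, hy⟩ : ∃ y : ℝ, y = X β k η m - A ρ β k m := ⟨_, rfl⟩
    by_cases hη : η ∈ {η : Env d | X β k η m ≤ A ρ β k m + 1}
    · rw [Set.indicator_of_mem hη, ← hy]
      have h2 : 0 ≤ (1 / (2 * V)) * (y + V) ^ 2 := by positivity
      have h3 : (1 / (2 * V)) * (y + V) ^ 2 = (1 / (2 * V)) * y ^ 2 + y + V / 2 := by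
        field_simp
        ring
      linarith
    · rw [Set.indicator_of_notMem hη, ← hy]
      have h2 : ¬ X β k η m ≤ A ρ β k m + 1 := hη
      have h3 : 0 ≤ (1 / (2 * V)) * y ^ 2 := by positivity
      rw [not_le] at h2
      linarith
  have i1 := intX15 (ρ := ρ) hd hρ β k m
  have i2 : Integrable ({η : Env d | X β k η m ≤ A ρ β k m + 1}.indicator
      (fun _ => 1 + V / 2)) (law d ρ) := (integrable_const _).indicator hS
  have i3 : Integrable (fun η => (1 / (2 * V)) * (X β k η m - A ρ β k m) ^ 2) (law d ρ) :=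
    (integrable_cen13 hd hρ β k m).const_mul _
  have h4 := integral_mono (μ := law d ρ) (integrable_const (1 : ℝ)) (i1.add (i2.add i3)) h1
  have h5 : ∫ η, ((X β k η m - A ρ β k m) +
      ({η : Env d | X β k η m ≤ A ρ β k m + 1}.indicator (fun _ => 1 + V / 2) η +
        (1 / (2 * V)) * (X β k η m - A ρ β k m) ^ 2)) ∂(law d ρ) =
      0 + ((law d ρ).real {η | X β k η m ≤ A ρ β k m + 1} * (1 + V / 2) +
        (1 / (2 * V)) * Va ρ β k m) := by
    have e1 := integral_add (μ := law d ρ) i1 (i2.add i3)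
    have e2 := integral_add (μ := law d ρ) i2 i3
    have e3 := integral_indicator_const (μ := law d ρ) (1 + V / 2) hS
    have e4 := mean15 (ρ := ρ) hd hρ β k m
    have e5 : ∫ η, (1 / (2 * V)) * (X β k η m - A ρ β k m) ^ 2 ∂(law d ρ) =
        (1 / (2 * V)) * Va ρ β k m := integral_const_mul _ _
    rw [e4] at e1
    rw [e3, e5, smul_eq_mul] at e2
    refine e1.trans ?_
    congr 1
  have h6 : ∫ _ : Env d, (1 : ℝ) ∂(law d ρ) = 1 := by
    rw [integral_const, probReal_univ, one_smul]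
  have h7 : (1 : ℝ) ≤ (law d ρ).real {η | X β k η m ≤ A ρ β k m + 1} * (1 + V / 2) +
      (1 / (2 * V)) * Va ρ β k m := by
    rw [h6] at h4
    have h8 : (1 : ℝ) ≤ ∫ η, ((X β k η m - A ρ β k m) +
      ({η : Env d | X β k η m ≤ A ρ β k m + 1}.indicator (fun _ => 1 + V / 2) η +
        (1 / (2 * V)) * (X β k η m - A ρ β k m) ^ 2)) ∂(law d ρ) := h4
    rw [h5] at h8
    linarith
  have h9 : (1 / (2 * V)) * Va ρ β k m ≤ 1 / 2 := by
    have h10 : (1 / (2 * V)) * Va ρ β k m ≤ (1 / (2 * V)) * V :=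
      mul_le_mul_of_nonneg_left hV (by positivity)
    have h11 : (1 / (2 * V)) * V = 1 / 2 := by field_simp
    linarith
  rw [div_le_iff₀ (by positivity)]
  linarith

/-- Logarithms against powers. -/
lemma ev_log34 {y : ℝ} (hy : 0 < y) (K : ℝ) :
    ∀ᶠ n : ℕ in atTop, K * (1 + Real.log n) ≤ (n : ℝ) ^ y := by
  have hcast := tendsto_natCast_atTop_atTop (R := ℝ)
  have hy2 : 0 < y / 2 := by linarith
  have e1 : ∀ᶠ n : ℕ in atTop, |K| * (1 + 2 / y) ≤ (n : ℝ) ^ (y / 2) :=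
    ((tendsto_rpow_atTop hy2).comp hcast).eventually (eventually_ge_atTop _)
  filter_upwards [e1, eventually_ge_atTop 1] with n h1 hn
  have hn1 : (1 : ℝ) ≤ n := by exact_mod_cast hn
  have hn0 : (0 : ℝ) < n := by linarith
  have h2 : Real.log n ≤ (n : ℝ) ^ (y / 2) / (y / 2) := Real.log_le_rpow_div hn0.le hy2
  have h3 : (1 : ℝ) ≤ (n : ℝ) ^ (y / 2) := Real.one_le_rpow hn1 hy2.le
  have h4 : 0 ≤ Real.log n := Real.log_nonneg hn1
  have h5 : (n : ℝ) ^ (y / 2) / (y / 2) = (2 / y) * (n : ℝ) ^ (y / 2) := by field_simp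
  have h6 : (n : ℝ) ^ y = (n : ℝ) ^ (y / 2) * (n : ℝ) ^ (y / 2) := by
    rw [← Real.rpow_add hn0]
    congr 1
    ring
  have h7 : 1 + Real.log n ≤ (1 + 2 / y) * (n : ℝ) ^ (y / 2) := by
    rw [h5] at h2
    linarith
  calc K * (1 + Real.log n) ≤ |K| * (1 + Real.log n) :=
        mul_le_mul_of_nonneg_right (le_abs_self K) (by linarith)
    _ ≤ |K| * ((1 + 2 / y) * (n : ℝ) ^ (y / 2)) :=
        mul_le_mul_of_nonneg_left h7 (abs_nonneg K)
    _ = (|K| * (1 + 2 / y)) * (n : ℝ) ^ (y / 2) := by ring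
    _ ≤ (n : ℝ) ^ (y / 2) * (n : ℝ) ^ (y / 2) :=
        mul_le_mul_of_nonneg_right h1 (by linarith)
    _ = (n : ℝ) ^ y := h6.symm

lemma farL_nonneg34 (hd : 0 < d) (β : ℝ) (h u : Vec d) (η : Env d) (n i : ℕ) (s t w : ℝ) :
    0 ≤ FarL β h u η n i s t w := by
  classical
  unfold FarL
  refine div_nonneg ?_ (Z_pos hd β h η n).le
  unfold ZT
  refine Finset.sum_nonneg fun q _ => ?_
  split_ifs
  · exact (Real.exp_pos _).le
  · exact le_rfl

lemma farL_le_one34 (hd : 0 < d) (β : ℝ) (h u : Vec d) (η : Env d) (n i : ℕ) (s t w : ℝ) :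
    FarL β h u η n i s t w ≤ 1 := by
  unfold FarL
  rw [div_le_one (Z_pos hd β h η n)]
  exact ZT_mono β h η (Set.subset_univ _)

/-- The far mass on one side is negligible. -/
theorem far34 (hd : 0 < d) (hρ : EM ρ) (hβ : 0 ≤ β) (hN : AmpCN ρ β) {h u : Vec d} {s x : ℝ}
    (hx : 0 < x) (hx1 : x < 1) (hF : FlF ρ β h x) {p : ℝ} (hp : 0 < p) {C₃ δ₃ : ℝ}
    (hδ₃ : 0 < δ₃)
    (hU : ∀ t : ℝ, 0 < t → t ≤ δ₃ → lam ρ β (h + t • u) ≤ lam ρ β h + s * t + C₃ * t ^ p)
    {a : ℝ} (ha : 1 + (p - 1) * x < p * a) (q : ℕ) :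
    ∃ N : ℕ, ∀ n : ℕ, N ≤ n → ∀ i ≤ n,
      ∫ η, FarL β h u η n i s 1 ((n : ℝ) ^ a) ∂(law d ρ) ≤ 2 * (n : ℝ) ^ (-(q : ℝ)) := by
  classical
  -- the numbers
  have ha' : x + (1 - x) / p < a := by
    have h1 : p * (x + (1 - x) / p) < p * a := by
      rw [mul_add, mul_div_cancel₀ _ hp.ne']
      linarith
    exact lt_of_mul_lt_mul_left h1 hp.le
  obtain ⟨ε, hε, hε1, hε2⟩ : ∃ ε : ℝ, 0 < ε ∧ x + (1 - x) / p + 3 * ε ≤ a ∧ x + ε < 1 := by
    refine ⟨min ((a - (x + (1 - x) / p)) / 3) ((1 - x) / 2), lt_min (by linarith) (by linarith),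
      ?_, ?_⟩
    · have := min_le_left ((a - (x + (1 - x) / p)) / 3) ((1 - x) / 2)
      linarith
    · have := min_le_right ((a - (x + (1 - x) / p)) / 3) ((1 - x) / 2)
      linarith
  have hK : FlK ρ β (fun _ => ({h} : Set (Vec d))) x := by
    refine ⟨fun _ _ _ => le_rfl, fun q => ?_⟩
    obtain ⟨C, hC⟩ := hF q
    refine ⟨C, fun k hk n hn => ?_⟩
    rw [Set.mem_singleton_iff.1 hk]
    exact hC n hn
  have hh : ∀ Q : ℕ, h ∈ (fun _ : ℕ => ({h} : Set (Vec d))) Q := fun _ => rfl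
  have hT := tailK74 hd hρ hx.le hK
  obtain ⟨C₁, hC₁, H₁⟩ := rateK74 hd hρ hx.le hK hh ε hε hε2
  obtain ⟨C, hC1, hC⟩ := hN 3 (by norm_num)
  obtain ⟨q₂, hq₂⟩ := exists_nat_ge (((q : ℝ) + 3) * C + 1)
  obtain ⟨-, C₂, hC₂, H₂⟩ := prob_K hh hT hε (q + 3)
  obtain ⟨-, C₄, hC₄, H₄⟩ := prob_K hh hT hε q₂
  obtain ⟨K, hK0, HK⟩ := Pool.Agent.W_7d29a1_KZ.N20.va_lin (d := d) (ρ := ρ) hd hρ β
  obtain ⟨B, hB⟩ : ∃ B : ℝ, B = max C₃ 0 := ⟨_, rfl⟩
  have hB0 : 0 ≤ B := by rw [hB]; exact le_max_right _ _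
  have hB3 : C₃ ≤ B := by rw [hB]; exact le_max_left _ _
  obtain ⟨K1, hK1⟩ : ∃ K1 : ℝ, K1 = B + 2 := ⟨_, rfl⟩
  obtain ⟨K2, hK2⟩ : ∃ K2 : ℝ, K2 = C₁ + 2 := ⟨_, rfl⟩
  have hcast := tendsto_natCast_atTop_atTop (R := ℝ)
  have hxp : 0 < (1 - x) / p := div_pos (by linarith) hp
  have hxε : 0 < x + ε := by linarith
  have g1 : ∀ᶠ n : ℕ in atTop, (n : ℝ) ^ (-((1 - x) / p)) < δ₃ :=
    ((tendsto_rpow_neg_atTop hxp).comp hcast).eventually (gt_mem_nhds hδ₃)
  have g2 : ∀ᶠ n : ℕ in atTop, K1 + 2 * K2 + 3 ≤ (n : ℝ) ^ (2 * ε) :=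
    ((tendsto_rpow_atTop (by linarith : (0 : ℝ) < 2 * ε)).comp hcast).eventually
      (eventually_ge_atTop _)
  have g3 := ev_log34 hxε (q : ℝ)
  have g4 := ev_log34 hxε (C * ((q : ℝ) + 3))
  have g5 : ∀ᶠ n : ℕ in atTop, (C₂ + 1) * (2 + K + 1) ≤ (n : ℝ) :=
    hcast.eventually (eventually_ge_atTop _)
  have g6 : ∀ᶠ n : ℕ in atTop, C₄ < (n : ℝ) := hcast.eventually (eventually_gt_atTop _)
  obtain ⟨N, hN'⟩ := eventually_atTop.1 (g1.and (g2.and (g3.and (g4.and (g5.and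
    (g6.and (eventually_ge_atTop 2)))))))
  refine ⟨N, fun n hn i hi => ?_⟩
  obtain ⟨k1, k2, k3, k4, k5, k6, k7⟩ := hN' n hn
  have hn1 : 1 ≤ n := by omega
  have hn1' : (1 : ℝ) ≤ n := by exact_mod_cast hn1
  have hn2' : (2 : ℝ) ≤ n := by exact_mod_cast k7
  have hn0 : (0 : ℝ) < n := by linarith
  have hlog : 0 ≤ Real.log n := Real.log_nonneg hn1'
  obtain ⟨w, hw⟩ : ∃ w : ℝ, w = (n : ℝ) ^ (x + ε) := ⟨_, rfl⟩
  have hw1 : 1 ≤ w := by rw [hw]; exact Real.one_le_rpow hn1' hxε.le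
  obtain ⟨t, ht⟩ : ∃ t : ℝ, t = (n : ℝ) ^ (-((1 - x) / p)) := ⟨_, rfl⟩
  have ht0 : 0 < t := by rw [ht]; exact Real.rpow_pos_of_pos hn0 _
  have htδ : t ≤ δ₃ := by rw [ht]; exact k1.le
  obtain ⟨T, hTd⟩ : ∃ T : ℝ, T = t * (n : ℝ) ^ a := ⟨_, rfl⟩
  have hTw : (K1 + 2 * K2 + 3) * w ≤ T := by
    have h1 : (n : ℝ) ^ (2 * ε) * w ≤ T := by
      rw [hw, hTd, ht, ← Real.rpow_add hn0, ← Real.rpow_add hn0]
      exact Real.rpow_le_rpow_of_exponent_le hn1' (by linarith)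
    exact (mul_le_mul_of_nonneg_right k2 (by linarith)).trans h1
  have hnt : n * (B * t ^ p) ≤ B * w := by
    have h1 : (n : ℝ) * t ^ p = (n : ℝ) ^ x := by
      have h2 : t ^ p = (n : ℝ) ^ (-(1 - x)) := by
        rw [ht, ← Real.rpow_mul hn0.le]
        congr 1
        field_simp
      rw [h2]
      nth_rewrite 1 [← Real.rpow_one (n : ℝ)]
      rw [← Real.rpow_add hn0]
      congr 1
      ring
    have h2 : (n : ℝ) ^ x ≤ w := by
      rw [hw]
      exact Real.rpow_le_rpow_of_exponent_le hn1' (by linarith)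
    calc n * (B * t ^ p) = B * (n * t ^ p) := by ring
      _ = B * (n : ℝ) ^ x := by rw [h1]
      _ ≤ _ := mul_le_mul_of_nonneg_left h2 hB0
  -- the set of walks
  obtain ⟨E, hE⟩ : ∃ E : Set (Fin n → Step d), E = {q : Fin n → Step d |
    |(1 : ℝ)| * (n : ℝ) ^ a ≤ 1 * (inner ℝ u (emb (pos q i)) - i * s)} := ⟨_, rfl⟩
  have hFE : ∀ η : Env d, FarL β h u η n i s 1 ((n : ℝ) ^ a) =
      ZT β h η E / Z β h η n := by
    intro η
    rw [hE]
    rfl
  by_contra hcon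
  rw [not_le] at hcon
  obtain ⟨b₀, hb₀⟩ : ∃ b₀ : ℝ, b₀ = (n : ℝ) ^ (-(q : ℝ)) := ⟨_, rfl⟩
  have hb₀0 : 0 < b₀ := by rw [hb₀]; exact Real.rpow_pos_of_pos hn0 _
  rw [← hb₀] at hcon
  have hEn : E.Nonempty := by
    by_contra hc
    rw [Set.not_nonempty_iff_eq_empty] at hc
    have h1 : ∀ η : Env d, FarL β h u η n i s 1 ((n : ℝ) ^ a) = 0 := by
      intro η
      rw [hFE, hc]
      unfold ZT
      simp
    simp only [h1, integral_zero] at hcon
    linarith
  -- the good event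
  obtain ⟨G, hG⟩ : ∃ G : Set (Env d), G = {η | GdK ρ β h (fun _ _ _ => h) w n η} := ⟨_, rfl⟩
  have hbad : (law d ρ).real Gᶜ ≤ C₂ * (n : ℝ) ^ (-((q + 3 : ℕ) : ℝ)) := by
    have h1 := H₂ n hn1 (fun _ _ _ => h) (fun _ _ _ => rfl)
    rw [← hw] at h1
    rw [hG]
    exact h1
  have hbad2 : (law d ρ).real Gᶜ ≤ C₄ * (n : ℝ) ^ (-(q₂ : ℝ)) := by
    have h1 := H₄ n hn1 (fun _ _ _ => h) (fun _ _ _ => rfl)
    rw [← hw] at h1
    rw [hG]
    exact h1
  obtain ⟨r, hr⟩ : ∃ r : ℝ, r = (n : ℝ) ^ (-((q + 3 : ℕ) : ℝ)) := ⟨_, rfl⟩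
  rw [← hr] at hbad
  have hr0 : 0 < r := by rw [hr]; exact Real.rpow_pos_of_pos hn0 _
  have hrb : b₀ = r * (n : ℝ) ^ (3 : ℕ) := by
    rw [hb₀, hr, ← Real.rpow_natCast, ← Real.rpow_add hn0]
    congr 1
    push_cast
    ring
  have hb1 : b₀ ≤ 1 := by
    rw [hb₀]
    exact Real.rpow_le_one_of_one_le_of_nonpos hn1' (by
      have : (0 : ℝ) ≤ q := Nat.cast_nonneg q
      linarith)
  have hn3 : (n : ℝ) ≤ (n : ℝ) ^ (3 : ℕ) := by
    have := one_le_pow₀ (n := 2) hn1'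
    calc (n : ℝ) = n * 1 := (mul_one _).symm
      _ ≤ n * (n : ℝ) ^ 2 := mul_le_mul_of_nonneg_left this hn0.le
      _ = _ := by ring
  have hr2 : r ≤ 1 / 2 := by
    have h1 : r * n ≤ 1 := by
      calc r * n ≤ r * (n : ℝ) ^ (3 : ℕ) := mul_le_mul_of_nonneg_left hn3 hr0.le
        _ = b₀ := hrb.symm
        _ ≤ 1 := hb1
    have h2 : r * 2 ≤ r * n := mul_le_mul_of_nonneg_left hn2' hr0.le
    linarith
  have hlr : Real.log (1 / r) = ((q : ℝ) + 3) * Real.log n := by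
    rw [hr, one_div, ← Real.rpow_neg hn0.le, neg_neg, Real.log_rpow hn0]
    push_cast
    ring
  -- facts on the good event
  have hgood : ∀ η ∈ G, n * lam ρ β h - (C₁ + 1) * w ≤ X β h η n ∧ X β h η n ≤
      n * lam ρ β h + w ∧ ∀ y ∈ boxF d i,
        Z β h (sh i y η) (n - i) ≤ Real.exp (((n : ℝ) - i) * lam ρ β h + w) := by
    intro η hη
    rw [hG] at hη
    have hη' : GdK ρ β h (fun _ _ _ => h) w n η := hη
    have h1 := hη'.side n le_rfl ⟨0, hd⟩ true fun _ => true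
    have h2 := abs_le.1 h1
    have h3 := H₁ n hn1
    rw [← hw] at h3
    have h4 := A_le_lam hd hρ β h n
    refine ⟨by linarith [h2.1], by linarith [h2.2], fun y hy => ?_⟩
    rw [TubV_exp hd]
    refine Real.exp_le_exp.2 ?_
    have h5 := (abs_le.1 (hη'.mid i hi y (TubV_box hi hy))).2
    have h6 := A_le_lam hd hρ β h (n - i)
    have h7 : ((n - i : ℕ) : ℝ) = n - i := by rw [Nat.cast_sub hi]
    rw [h7] at h6
    linarith
  obtain ⟨M, hM⟩ : ∃ M : ℝ, M = n * lam ρ β h + K1 * w - T := ⟨_, rfl⟩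
  obtain ⟨b, hb⟩ : ∃ b : ℝ, b = T - (K1 + K2) * w := ⟨_, rfl⟩
  have hbw : w ≤ b := by
    rw [hb]
    have h1 : 0 ≤ K2 * w := by rw [hK2]; positivity
    linarith
  -- the lower level
  have h0 : r ≤ (law d ρ).real {η | Real.log (ZT β h η E) ≤ M} := by
    have hV : Va ρ β (h + t • u) i ≤ (K + 1) * n := by
      have h1 := HK (h + t • u) i
      have h2 : K * (i : ℝ) ≤ K * n :=
        mul_le_mul_of_nonneg_left (by exact_mod_cast hi) hK0
      linarith
    have h1 := low34 (ρ := ρ) hd hρ β (h + t • u) i hV (by positivity)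
    have h2 : (law d ρ).real {η | X β (h + t • u) η i ≤ A ρ β (h + t • u) i + 1} ≤
        (law d ρ).real {η | Real.log (ZT β h η E) ≤ M} + (law d ρ).real Gᶜ := by
      refine (measureReal_mono ?_).trans (measureReal_union_le _ _)
      intro η hη
      have hη' : X β (h + t • u) η i ≤ A ρ β (h + t • u) i + 1 := hη
      by_cases hg : η ∈ G
      · left
        obtain ⟨-, -, g3⟩ := hgood η hg
        have h3 := farL_le hd β h u η hi s t ((n : ℝ) ^ a) g3
        rw [LeafA74.farL_pos β h u η n i s _ ht0, hFE] at h3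
        have hZ := Z_pos hd β h η n
        have h4 : ZT β h η E ≤ Real.exp (-(t * (i * s)) - |t| * (n : ℝ) ^ a) *
            Z β (h + t • u) η i * Real.exp (((n : ℝ) - i) * lam ρ β h + w) :=
          (div_le_div_iff_of_pos_right hZ).1 h3
        rw [TubV_exp hd β (h + t • u) η i, ← Real.exp_add, ← Real.exp_add, abs_of_pos ht0,
          ← hTd] at h4
        have h5 := Real.log_le_log (ZT_pos β h η hEn) h4
        rw [Real.log_exp] at h5
        have h6 := A_le_lam hd hρ β (h + t • u) i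
        have h7 := hU t ht0 htδ
        have hi0 : (0 : ℝ) ≤ i := Nat.cast_nonneg _
        have h8 := mul_le_mul_of_nonneg_left h7 hi0
        have htp : 0 < t ^ p := Real.rpow_pos_of_pos ht0 _
        have h9 : (i : ℝ) * (C₃ * t ^ p) ≤ n * (B * t ^ p) := by
          have h10 : C₃ * t ^ p ≤ B * t ^ p := mul_le_mul_of_nonneg_right hB3 htp.le
          have h11 : (i : ℝ) * (C₃ * t ^ p) ≤ i * (B * t ^ p) :=
            mul_le_mul_of_nonneg_left h10 hi0
          have h12 : (i : ℝ) * (B * t ^ p) ≤ n * (B * t ^ p) :=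
            mul_le_mul_of_nonneg_right (by exact_mod_cast hi) (by positivity)
          linarith
        show Real.log (ZT β h η E) ≤ M
        rw [hM, hK1]
        have e1 : (i : ℝ) * (lam ρ β h + s * t + C₃ * t ^ p) =
            i * lam ρ β h + t * (i * s) + i * (C₃ * t ^ p) := by ring
        rw [e1] at h8
        linarith
      · right
        exact hg
    have h3 : (C₂ + 1) * r ≤ 1 / (2 + (K + 1) * n) := by
      rw [le_div_iff₀ (by positivity)]
      have h4 : 2 + (K + 1) * n ≤ (2 + K + 1) * n := by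
        have : (2 : ℝ) * 1 ≤ 2 * n := by linarith
        linarith
      have h5 : (C₂ + 1) * r * (2 + (K + 1) * n) ≤ (C₂ + 1) * r * ((2 + K + 1) * n) :=
        mul_le_mul_of_nonneg_left h4 (by positivity)
      have h6 : (C₂ + 1) * r * ((2 + K + 1) * n) = r * n * ((C₂ + 1) * (2 + K + 1)) := by ring
      have h7 : r * n * ((C₂ + 1) * (2 + K + 1)) ≤ r * n * n :=
        mul_le_mul_of_nonneg_left k5 (by positivity)
      have h8 : r * n * n ≤ b₀ := by
        rw [hrb]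
        have h9 : r * (n : ℝ) ^ (3 : ℕ) = r * n * n * n := by ring
        rw [h9]
        exact le_mul_of_one_le_right (by positivity) hn1'
      linarith
    linarith
  -- the upper level
  have h1 : r ≤ (law d ρ).real {η | M + b ≤ Real.log (ZT β h η E)} := by
    have h2 := TubW_split (μ := law d ρ)
      (f := fun η => FarL β h u η n i s 1 ((n : ℝ) ^ a))
      (fun η => farL_le_one34 hd β h u η n i s 1 _)
      (G := {η | FarL β h u η n i s 1 ((n : ℝ) ^ a) ≤ b₀}) (b := b₀) hb₀0.le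
      (fun η hη => hη) (fun η => farL_nonneg34 hd β h u η n i s 1 _)
    have h3 : b₀ < (law d ρ).real {η | FarL β h u η n i s 1 ((n : ℝ) ^ a) ≤ b₀}ᶜ := by
      linarith
    have h4 : (law d ρ).real {η | FarL β h u η n i s 1 ((n : ℝ) ^ a) ≤ b₀}ᶜ ≤
        (law d ρ).real {η | M + b ≤ Real.log (ZT β h η E)} + (law d ρ).real Gᶜ := by
      refine (measureReal_mono ?_).trans (measureReal_union_le _ _)
      intro η hη
      have hη' : ¬ FarL β h u η n i s 1 ((n : ℝ) ^ a) ≤ b₀ := hη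
      rw [not_le, hFE] at hη'
      by_cases hg : η ∈ G
      · left
        obtain ⟨g1, -, -⟩ := hgood η hg
        have hZ := Z_pos hd β h η n
        rw [lt_div_iff₀ hZ] at hη'
        have h5 := Real.log_le_log (by positivity) hη'.le
        rw [Real.log_mul hb₀0.ne' hZ.ne'] at h5
        have h6 : Real.log b₀ = -((q : ℝ) * Real.log n) := by
          rw [hb₀, Real.log_rpow hn0]
          ring
        have h7 : Real.log (Z β h η n) = X β h η n := rfl
        rw [h6, h7] at h5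
        show M + b ≤ Real.log (ZT β h η E)
        rw [hM, hb, hK2]
        have h8 : (q : ℝ) * Real.log n ≤ w := by
          rw [hw]
          have : (0 : ℝ) ≤ q := Nat.cast_nonneg q
          linarith
        linarith
      · right
        exact hg
    have h5 : (C₂ + 1) * r ≤ b₀ := by
      rw [hrb, mul_comm]
      refine mul_le_mul_of_nonneg_left ?_ hr0.le
      refine le_trans ?_ hn3
      refine le_trans ?_ k5
      exact le_mul_of_one_le_right (by positivity) (by linarith)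
    linarith
  -- the amplification
  have h2 := Pool.Agent.W_7d29a1_KP.U68.ampE68 (d := d) (ρ := ρ) (D₁ := 3) (c := 1) hβ hC1
    (fun N V p hV => hC N V p hV) (by norm_num) one_pos h hEn (r := r)
    (L := n * lam ρ β h + 2 * w) (M := M) (b := b) hr0 hr2 (by
      rw [hlr]
      have h3 : C * (1 + ((q : ℝ) + 3) * Real.log n) ≤ C * ((q : ℝ) + 3) * (1 + Real.log n) := by
        have h4 : (1 : ℝ) ≤ (q : ℝ) + 3 := by
          have : (0 : ℝ) ≤ q := Nat.cast_nonneg q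
          linarith
        nlinarith
      rw [← hw] at k4
      linarith) (by
      rw [one_mul, hM, hb]
      linarith) h0 h1
  have h3 : (law d ρ).real {η | n * lam ρ β h + 2 * w ≤ Real.log (ZT β h η E)} ≤
      (law d ρ).real Gᶜ := by
    refine measureReal_mono ?_
    intro η hη hg
    obtain ⟨-, g2, -⟩ := hgood η hg
    have hη' : n * lam ρ β h + 2 * w ≤ Real.log (ZT β h η E) := hη
    have h4 : Real.log (ZT β h η E) ≤ X β h η n :=
      Real.log_le_log (ZT_pos β h η hEn) (ZT_mono β h η (Set.subset_univ E))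
    linarith
  have h4 : r ^ C = (n : ℝ) ^ (-(((q : ℝ) + 3) * C)) := by
    rw [hr, ← Real.rpow_mul hn0.le]
    congr 1
    push_cast
    ring
  have h5 : C₄ * (n : ℝ) ^ (-(q₂ : ℝ)) < r ^ C := by
    rw [h4]
    have h6 : (n : ℝ) ^ (-(q₂ : ℝ)) ≤ (n : ℝ) ^ (-(((q : ℝ) + 3) * C) - 1) :=
      Real.rpow_le_rpow_of_exponent_le hn1' (by linarith)
    have h7 : (n : ℝ) ^ (-(((q : ℝ) + 3) * C) - 1) = (n : ℝ) ^ (-(((q : ℝ) + 3) * C)) / n := by
      rw [Real.rpow_sub hn0, Real.rpow_one]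
    have h8 : 0 < (n : ℝ) ^ (-(((q : ℝ) + 3) * C)) := Real.rpow_pos_of_pos hn0 _
    calc C₄ * (n : ℝ) ^ (-(q₂ : ℝ)) ≤ C₄ * ((n : ℝ) ^ (-(((q : ℝ) + 3) * C)) / n) := by
          rw [← h7]
          exact mul_le_mul_of_nonneg_left h6 hC₄
      _ < n * ((n : ℝ) ^ (-(((q : ℝ) + 3) * C)) / n) := mul_lt_mul_of_pos_right k6 (by positivity)
      _ = _ := by field_simp
  linarith

end A34

end Pool.Agent.W_7d29a1_PK
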