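import Pool.Agent.W_7d29a1_D2.JoinM97
import Pool.Agent.W_7d29a1_V.DefsL70
import Pool.Agent.W_7d29a1_V.Rch48

/-!
Theorem PK, block (3): the product event against the slab. If the site `D` of the row `τ` off the
slab of the origin is reached with a large weight, and the continuation from `D` is lucky while
the continuations from the sites of the slab are not, the polymer leaves the slab (helper63).
-/

set_option autoImplicit false

namespace Pool.Agent.W_7d29a1_PK

open MeasureTheory ProbabilityTheory Filter Topology Pool.Agent.W_MP_7d29a1_pr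
  Pool.Agent.W_7d29a1_h46 Pool.Agent.W_7d29a1_h46u Pool.Agent.W_7d29a1_D2
  Pool.Agent.W_7d29a1_D2.B35 Pool.Agent.W_7d29a1_V

variable {d : ℕ} {ρ : Measure ℝ} [IsProbabilityMeasure ρ]

/-- The offset of the site `x` of the row `i`. -/
noncomputable def of63 {d : ℕ} (u : Vec d) (s : ℝ) (i : ℕ) (x : Site d) : ℝ :=
  inner ℝ u (emb x) - (i : ℝ) * s

lemma of63_add (u : Vec d) (s : ℝ) (i t : ℕ) (x z : Site d) :
    of63 u s (i + t) (x + z) = of63 u s i x + of63 u s t z := by
  unfold of63
  rw [Walk_emb_add, inner_add_right, Nat.cast_add]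
  ring

/-- The weight of the slab of the site `z` of the row `t` depends on the sites of this slab. -/
lemma dep_slb63 (β : ℝ) (h u : Vec d) (s : ℝ) (n t : ℕ) (z : Site d) (W : ℝ) :
    DependsOn (fun η : Env d => ZT β h (sh t z η) (slb d n u s W))
      {p | t < p.1 ∧ |of63 u s p.1 p.2 - of63 u s t z| ≤ W} := by
  have h1 := dependsOn_ZT97 β h (slb d n u s W) {p | 1 ≤ p.1 ∧ |of63 u s p.1 p.2| ≤ W}
    fun q hq i hi => ⟨by simp, hq (i + 1) (by omega)⟩
  intro η η' hη
  refine h1 fun p hp => ?_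
  refine hη _ ?_
  obtain ⟨hp1, hp2⟩ := hp
  refine ⟨?_, ?_⟩
  · show t < p.1 + t
    omega
  · show |of63 u s (p.1 + t) (p.2 + z) - of63 u s t z| ≤ W
    rw [of63_add, add_sub_cancel_right]
    exact hp2

open Classical in
/-- The weight of the slab is at most the weight through the sites of the slab in the row `τ`. -/
lemma slb_le63 (hd : 0 < d) (β : ℝ) (h : Vec d) (η : Env d) (u : Vec d) (s W : ℝ) (τ N : ℕ) :
    ZT β h η (slb d (τ + N) u s W) ≤
      ∑ x ∈ (boxF d τ).filter fun x => |of63 u s τ x| ≤ W,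
        PP β h η τ x * Z β h (sh τ x η) N := by
  have h0 : ZT β h η (slb d (τ + N) u s W) ≤ ∑ a : Fin τ → Step d,
      if |of63 u s τ (pos a τ)| ≤ W then wgt β h η a * Z β h (sh τ (pos a τ) η) N else 0 := by
    unfold ZT
    rw [sum_glue]
    refine Finset.sum_le_sum fun a _ => ?_
    split_ifs with ha
    · rw [Z_eq, Finset.mul_sum]
      refine Finset.sum_le_sum fun b _ => ?_
      rw [← wgt_glue]
      split_ifs
      · exact le_rfl
      · exact (wgt_pos _ _ _ _).le
    · refine (Finset.sum_eq_zero fun b _ => if_neg fun hb => ha ?_).le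
      have h1 := hb τ (by omega)
      rw [pos_glue_le a b le_rfl] at h1
      exact h1
  refine h0.trans (le_of_eq ?_)
  have h1 : ∀ x ∈ (boxF d τ).filter (fun x => |of63 u s τ x| ≤ W),
      PP β h η τ x * Z β h (sh τ x η) N = ∑ a : Fin τ → Step d,
        if pos a τ = x then wgt β h η a * Z β h (sh τ (pos a τ) η) N else 0 := by
    intro x _
    unfold PP ZT
    rw [Finset.sum_mul]
    refine Finset.sum_congr rfl fun a _ => ?_
    by_cases ha : pos a τ = x
    · rw [if_pos (show a ∈ {r : Fin τ → Step d | pos r τ = x} from ha), if_pos ha, ha]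
    · rw [if_neg (show a ∉ {r : Fin τ → Step d | pos r τ = x} from ha), zero_mul, if_neg ha]
  rw [Finset.sum_congr rfl h1, Finset.sum_comm]
  refine Finset.sum_congr rfl fun a _ => ?_
  rw [Finset.sum_ite_eq]
  by_cases ha : |of63 u s τ (pos a τ)| ≤ W
  · rw [if_pos ha, if_pos (Finset.mem_filter.2 ⟨pos_mem_box a τ, ha⟩)]
  · rw [if_neg ha, if_neg]
    intro hc
    exact ha (Finset.mem_filter.1 hc).2

/-- The polymer measure of a set of walks is not large with small probability. -/
lemma mark63 (hd : 0 < d) (β : ℝ) (h : Vec d) {n : ℕ} (E : Set (Fin n → Step d)) {δ : ℝ}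
    (hE : ∫ η, (1 - PolT β h η E) ∂(law d ρ) ≤ δ) :
    (law d ρ).real {η | PolT β h η E < 1 / 2} ≤ 2 * δ := by
  have hm : Measurable fun η : Env d => PolT β h η E := measurable_PolT β h E
  have hint : Integrable (fun η : Env d => 1 - PolT β h η E) (law d ρ) := by
    refine Integrable.of_bound (C := 1) (measurable_const.sub hm).aestronglyMeasurable
      (Eventually.of_forall fun η => ?_)
    rw [Real.norm_eq_abs, abs_le]
    have h1 := PolT_nonneg β h η E
    have h2 := PolT_le_one β h η E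
    constructor <;> linarith
  have h1 := mul_meas_ge_le_integral_of_nonneg (μ := law d ρ)
    (Eventually.of_forall fun η : Env d => sub_nonneg.2 (PolT_le_one β h η E)) hint (1 / 2)
  have h2 : (law d ρ).real {η | PolT β h η E < 1 / 2} ≤
      (law d ρ).real {η | 1 / 2 ≤ 1 - PolT β h η E} := by
    refine measureReal_mono fun η hη => ?_
    have h3 : PolT β h η E < 1 / 2 := hη
    show 1 / 2 ≤ 1 - PolT β h η E
    linarith
  have h3 : (1 / 2 : ℝ) * (law d ρ).real {η | 1 / 2 ≤ 1 - PolT β h η E} ≤ δ := h1.trans hE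
  linarith

/-- The weight of a set of walks which has half of the mass. -/
lemma half63 (hd : 0 < d) (β : ℝ) (h : Vec d) (η : Env d) {n : ℕ} (E : Set (Fin n → Step d))
    (hE : ¬ PolT β h η E < 1 / 2) : Z β h η n ≤ 2 * ZT β h η E := by
  have h1 : 1 / 2 ≤ ZT β h η E / Z β h η n := not_lt.1 hE
  rw [le_div_iff₀ (Z_pos hd β h η n)] at h1
  linarith

/-- Shifted events have the same probability. -/
lemma shp63 (t : ℕ) (z : Site d) {S : Set (Env d)} (hS : MeasurableSet S) :
    (law d ρ).real {η | sh t z η ∈ S} = (law d ρ).real S := by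
  rw [measureReal_def, measureReal_def, ← (mp_sh (ρ := ρ) t z).measure_preimage
    hS.nullMeasurableSet]
  rfl

open Classical in
/-- **Block (3): the product event against the slab.** -/
theorem prod63 (hd : 0 < d) (β : ℝ) (h u : Vec d) (s : ℝ) (N τ : ℕ) (D : Site d)
    {R a c T M e1 e2 δ1 δ2 : ℝ} (hR : 0 < R) (hD : R ≤ |inner ℝ u (emb D) - (τ : ℝ) * s|)
    (he1 : 0 ≤ e1) (he1' : e1 ≤ 1) (he2 : 0 ≤ e2) (he2' : e2 ≤ 1) (hδ2 : 0 ≤ δ2)
    (H1 : e1 ≤ (law d ρ).real {η | Real.exp a ≤ PP β h η τ D ∧ Z β h η τ ≤ Real.exp c})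
    (H2 : e2 ≤ (law d ρ).real {η | Real.exp T ≤ Z β h η N})
    (H3 : (law d ρ).real {η | Real.exp M < Z β h η N} ≤ δ1)
    (H3' : ((boxF d τ).card : ℝ) * δ1 ≤ 1 / 2)
    (H4 : ∫ η, (1 - PolT β h η (slb d N u s (R / 4))) ∂(law d ρ) ≤ δ2)
    (H4' : 8 * (((boxF d τ).card : ℝ) + 1) * δ2 ≤ e1 * e2)
    (H5 : c + M + 3 * Real.log 2 ≤ a + T) :
    e1 * e2 / 16 ≤ ∫ η, (1 - PolT β h η (slb d (τ + N) u s (R / 4))) ∂(law d ρ) := by
  set B : Finset (Site d) := (boxF d τ).filter fun x => |of63 u s τ x| ≤ R / 4 with hB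
  have hBc : (B.card : ℝ) ≤ ((boxF d τ).card : ℝ) := by
    exact_mod_cast Finset.card_filter_le _ _
  have hδ1 : 0 ≤ δ1 := measureReal_nonneg.trans H3
  -- the sets of sites
  set S1 : Set (ℕ × Site d) := {p | p.1 ≤ τ} with hS1
  set SD : Set (ℕ × Site d) := {p | τ < p.1 ∧ |of63 u s p.1 p.2 - of63 u s τ D| ≤ R / 4} with hSD
  set SB : Set (ℕ × Site d) := {p | τ < p.1 ∧ |of63 u s p.1 p.2| ≤ R / 2} with hSB
  have hdis : SB ⊆ SDᶜ := by
    rintro p ⟨_, hp2⟩ ⟨_, hp4⟩
    have h1 : R ≤ |of63 u s τ D| := hD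
    have h2 := abs_sub_abs_le_abs_sub (of63 u s τ D) (of63 u s p.1 p.2)
    rw [abs_sub_comm] at h2
    linarith
  -- the events
  set A1 : Set (Env d) := {η | Real.exp a ≤ PP β h η τ D ∧ Z β h η τ ≤ Real.exp c} with hA1
  set A2 : Set (Env d) :=
    {η | Real.exp T / 2 ≤ ZT β h (sh τ D η) (slb d N u s (R / 4))} with hA2
  set A3 : Set (Env d) :=
    {η | ∀ x ∈ B, ZT β h (sh τ x η) (slb d N u s (R / 4)) ≤ Real.exp M} with hA3
  set A4 : Set (Env d) :=
    ⋃ x ∈ B, {η | PolT β h (sh τ x η) (slb d N u s (R / 4)) < 1 / 2} with hA4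
  have hev1 : Ev97 S1 A1 := by
    have k1 : Ev97 S1 {η : Env d | Real.exp a ≤ PP β h η τ D} :=
      ev97_ge (measurable_ZT β h _) (dependsOn_ZT97 β h {q : Fin τ → Step d | pos q τ = D} S1
        fun _ _ i hi => (show i + 1 ≤ τ by omega)) _
    have k2 : Ev97 S1 {η : Env d | Z β h η τ ≤ Real.exp c} :=
      ev97_le (measurable_ZT β h _) (dependsOn_ZT97 β h (Set.univ : Set (Fin τ → Step d)) S1
        fun _ _ i hi => (show i + 1 ≤ τ by omega)) _
    exact k1.inter k2
  have hev2 : Ev97 SD A2 :=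
    ev97_ge ((measurable_ZT β h _).comp (measurable_sh τ D)) (dep_slb63 β h u s N τ D (R / 4)) _
  have hev3x : ∀ x ∈ B, Ev97 SB
      {η : Env d | ZT β h (sh τ x η) (slb d N u s (R / 4)) ≤ Real.exp M} := by
    intro x hx
    refine (ev97_le ((measurable_ZT β h _).comp (measurable_sh τ x))
      (dep_slb63 β h u s N τ x (R / 4)) _).mono ?_
    rintro p ⟨hp1, hp2⟩
    refine ⟨hp1, ?_⟩
    have h1 : |of63 u s τ x| ≤ R / 4 := (Finset.mem_filter.1 hx).2
    have h2 := abs_sub_abs_le_abs_sub (of63 u s p.1 p.2) (of63 u s τ x)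
    linarith
  have hev3 : Ev97 SB A3 := by
    refine ⟨?_, fun η η' hη => ?_⟩
    · have h1 : A3 = ⋂ x ∈ B,
          {η : Env d | ZT β h (sh τ x η) (slb d N u s (R / 4)) ≤ Real.exp M} := by
        ext η
        simp only [hA3, Set.mem_iInter]
        exact Iff.rfl
      rw [h1]
      exact Finset.measurableSet_biInter B fun x hx => (hev3x x hx).1
    · constructor
      · intro h1 x hx
        exact ((hev3x x hx).2 η η' hη).1 (h1 x hx)
      · intro h1 x hx
        exact ((hev3x x hx).2 η η' hη).2 (h1 x hx)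
  -- the probabilities
  have hslabm : MeasurableSet {η : Env d | PolT β h η (slb d N u s (R / 4)) < 1 / 2} :=
    measurableSet_lt (measurable_PolT β h _) measurable_const
  have hmk := mark63 (ρ := ρ) hd β h _ H4
  have hp2 : e2 - 2 * δ2 ≤ (law d ρ).real A2 := by
    have k1 : (law d ρ).real A2 =
        (law d ρ).real {η | Real.exp T / 2 ≤ ZT β h η (slb d N u s (R / 4))} :=
      shp63 τ D (measurableSet_le measurable_const (measurable_ZT β h _))
    have k2 : {η : Env d | Real.exp T ≤ Z β h η N} ⊆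
        {η | Real.exp T / 2 ≤ ZT β h η (slb d N u s (R / 4))} ∪
          {η | PolT β h η (slb d N u s (R / 4)) < 1 / 2} := by
      intro η hη
      by_cases h1 : PolT β h η (slb d N u s (R / 4)) < 1 / 2
      · exact Or.inr h1
      · left
        have h2 := half63 hd β h η _ h1
        have h3 : Real.exp T ≤ Z β h η N := hη
        show Real.exp T / 2 ≤ ZT β h η (slb d N u s (R / 4))
        linarith
    have k3 := H2.trans ((measureReal_mono k2).trans (measureReal_union_le _ _))
    rw [k1]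
    linarith
  have hp3 : 1 / 2 ≤ (law d ρ).real A3 := by
    have k1 : (law d ρ).real A3ᶜ ≤ ∑ x ∈ B, (law d ρ).real
        {η | Real.exp M < ZT β h (sh τ x η) (slb d N u s (R / 4))} := by
      refine le_trans (measureReal_mono (s₂ := ⋃ x ∈ B,
        {η | Real.exp M < ZT β h (sh τ x η) (slb d N u s (R / 4))}) ?_ (measure_ne_top _ _))
        (measureReal_biUnion_finset_le B _)
      intro η hη
      have h1 : ¬ ∀ x ∈ B, ZT β h (sh τ x η) (slb d N u s (R / 4)) ≤ Real.exp M := hη
      push Not at h1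
      obtain ⟨x, hx, h2⟩ := h1
      simp only [Set.mem_iUnion]
      exact ⟨x, hx, h2⟩
    have k2 : ∀ x ∈ B, (law d ρ).real
        {η | Real.exp M < ZT β h (sh τ x η) (slb d N u s (R / 4))} ≤ δ1 := by
      intro x _
      have k3 : (law d ρ).real {η | Real.exp M < ZT β h (sh τ x η) (slb d N u s (R / 4))} =
          (law d ρ).real {η | Real.exp M < ZT β h η (slb d N u s (R / 4))} :=
        shp63 τ x (measurableSet_lt measurable_const (measurable_ZT β h _))
      rw [k3]
      refine le_trans (measureReal_mono fun η hη => ?_) H3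
      have k4 : Real.exp M < ZT β h η (slb d N u s (R / 4)) := hη
      exact k4.trans_le (ZT_mono β h η (Set.subset_univ _))
    have k3 : ∑ x ∈ B, (law d ρ).real
        {η | Real.exp M < ZT β h (sh τ x η) (slb d N u s (R / 4))} ≤ 1 / 2 := by
      refine (Finset.sum_le_sum k2).trans ?_
      rw [Finset.sum_const, nsmul_eq_mul]
      exact (mul_le_mul_of_nonneg_right hBc hδ1).trans H3'
    have k4 := probReal_compl_eq_one_sub (μ := law d ρ) hev3.1
    linarith
  have hp4 : (law d ρ).real A4 ≤ ((boxF d τ).card : ℝ) * (2 * δ2) := by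
    refine (measureReal_biUnion_finset_le B _).trans ?_
    have k1 : ∀ x ∈ B, (law d ρ).real
        {η | PolT β h (sh τ x η) (slb d N u s (R / 4)) < 1 / 2} ≤ 2 * δ2 := by
      intro x _
      have k3 : (law d ρ).real {η | PolT β h (sh τ x η) (slb d N u s (R / 4)) < 1 / 2} =
          (law d ρ).real {η | PolT β h η (slb d N u s (R / 4)) < 1 / 2} := shp63 τ x hslabm
      rw [k3]
      exact hmk
    refine (Finset.sum_le_sum k1).trans ?_
    rw [Finset.sum_const, nsmul_eq_mul]
    exact mul_le_mul_of_nonneg_right hBc (by linarith)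
  have hind : (law d ρ).real (A1 ∩ (A2 ∩ A3)) =
      (law d ρ).real A1 * ((law d ρ).real A2 * (law d ρ).real A3) := by
    rw [← ev97_mul hev2 (hev3.mono hdis)]
    refine ev97_mul hev1 ((hev2.mono ?_).inter (hev3.mono ?_))
    · rintro p ⟨hp1, _⟩ hp2
      exact absurd hp2 (not_le.2 hp1)
    · rintro p ⟨hp1, _⟩ hp2
      exact absurd hp2 (not_le.2 hp1)
  have hbox : (0 : ℝ) ≤ ((boxF d τ).card : ℝ) := Nat.cast_nonneg _
  have h2δ : 2 * δ2 ≤ e2 / 4 := by
    have k1 : 8 * δ2 ≤ 8 * (((boxF d τ).card : ℝ) + 1) * δ2 := by nlinarith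
    have k2 : e1 * e2 ≤ e2 := by nlinarith
    linarith
  have hprod : e1 * e2 * (3 / 8) ≤ (law d ρ).real (A1 ∩ (A2 ∩ A3)) := by
    rw [hind]
    have k1 : 3 / 4 * e2 ≤ (law d ρ).real A2 := by linarith
    have k2 : 3 / 4 * e2 * (1 / 2) ≤ (law d ρ).real A2 * (law d ρ).real A3 :=
      mul_le_mul k1 hp3 (by norm_num) measureReal_nonneg
    have k3 : e1 * (3 / 4 * e2 * (1 / 2)) ≤
        (law d ρ).real A1 * ((law d ρ).real A2 * (law d ρ).real A3) :=
      mul_le_mul H1 k2 (by positivity) measureReal_nonneg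
    linarith
  have hfin : e1 * e2 / 8 ≤ (law d ρ).real ((A1 ∩ (A2 ∩ A3)) \ A4) := by
    have k1 : (law d ρ).real (A1 ∩ (A2 ∩ A3)) ≤
        (law d ρ).real ((A1 ∩ (A2 ∩ A3)) \ A4) + (law d ρ).real A4 := by
      refine le_trans (measureReal_mono fun η hη => ?_) (measureReal_union_le _ _)
      by_cases h1 : η ∈ A4
      · exact Or.inr h1
      · exact Or.inl ⟨hη, h1⟩
    have k2 : ((boxF d τ).card : ℝ) * (2 * δ2) ≤ e1 * e2 / 4 := by nlinarith
    linarith
  -- the mass of the slab on the event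
  have hkey : ∀ η ∈ (A1 ∩ (A2 ∩ A3)) \ A4,
      PolT β h η (slb d (τ + N) u s (R / 4)) ≤ 1 / 2 := by
    rintro η ⟨⟨⟨h1, h2⟩, h3, h4⟩, h5⟩
    have h3' : Real.exp T / 2 ≤ ZT β h (sh τ D η) (slb d N u s (R / 4)) := h3
    have h4' : ∀ x ∈ B, ZT β h (sh τ x η) (slb d N u s (R / 4)) ≤ Real.exp M := h4
    have k1 : ∀ x ∈ B, Z β h (sh τ x η) N ≤ 2 * Real.exp M := by
      intro x hx
      have k2 : ¬ PolT β h (sh τ x η) (slb d N u s (R / 4)) < 1 / 2 := by
        intro hc
        refine h5 ?_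
        simp only [hA4, Set.mem_iUnion]
        exact ⟨x, hx, hc⟩
      have k3 := half63 hd β h (sh τ x η) _ k2
      have k4 := h4' x hx
      linarith
    have k2 : ZT β h η (slb d (τ + N) u s (R / 4)) ≤ Real.exp c * (2 * Real.exp M) := by
      refine (slb_le63 hd β h η u s (R / 4) τ N).trans ?_
      have k3 : ∑ x ∈ B, PP β h η τ x * Z β h (sh τ x η) N ≤
          ∑ x ∈ boxF d τ, PP β h η τ x * (2 * Real.exp M) := by
        refine (Finset.sum_le_sum fun x hx =>
          mul_le_mul_of_nonneg_left (k1 x hx) (PP_nonneg β h η τ x)).trans ?_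
        exact Finset.sum_le_sum_of_subset_of_nonneg (Finset.filter_subset _ _) fun x _ _ =>
          mul_nonneg (PP_nonneg β h η τ x) (by positivity)
      rw [← Finset.sum_mul, ← Z_eq_sum] at k3
      exact k3.trans (mul_le_mul_of_nonneg_right h2 (by positivity))
    have k3 : Real.exp a * (Real.exp T / 2) ≤ Z β h η (τ + N) := by
      refine le_trans ?_ (PP_chainZ β h η τ N D)
      exact mul_le_mul h1 (h3'.trans (ZT_mono β h _ (Set.subset_univ _))) (by positivity)
        (PP_nonneg β h η τ D)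
    have k4 : Real.exp c * (2 * Real.exp M) ≤ 1 / 2 * (Real.exp a * (Real.exp T / 2)) := by
      have k5 : Real.exp (c + M + 3 * Real.log 2) ≤ Real.exp (a + T) := Real.exp_le_exp.2 H5
      have k6 : Real.exp (3 * Real.log 2) = 8 := by
        rw [show (3 : ℝ) * Real.log 2 = Real.log 2 + Real.log 2 + Real.log 2 by ring,
          Real.exp_add, Real.exp_add, Real.exp_log (by norm_num)]
        norm_num
      rw [Real.exp_add, Real.exp_add, Real.exp_add, k6] at k5
      linarith
    show ZT β h η (slb d (τ + N) u s (R / 4)) / Z β h η (τ + N) ≤ 1 / 2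
    rw [div_le_iff₀ (Z_pos hd β h η _)]
    linarith
  have hmE : MeasurableSet ((A1 ∩ (A2 ∩ A3)) \ A4) := by
    refine (hev1.1.inter (hev2.1.inter hev3.1)).diff ?_
    exact Finset.measurableSet_biUnion B fun x _ =>
      measurableSet_lt ((measurable_PolT β h _).comp (measurable_sh τ x)) measurable_const
  have hm : Measurable fun η : Env d => PolT β h η (slb d (τ + N) u s (R / 4)) :=
    measurable_PolT β h _
  have hint : Integrable (fun η : Env d => 1 - PolT β h η (slb d (τ + N) u s (R / 4)))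
      (law d ρ) := by
    refine Integrable.of_bound (C := 1) (measurable_const.sub hm).aestronglyMeasurable
      (Eventually.of_forall fun η => ?_)
    rw [Real.norm_eq_abs, abs_le]
    have h1 := PolT_nonneg β h η (slb d (τ + N) u s (R / 4))
    have h2 := PolT_le_one β h η (slb d (τ + N) u s (R / 4))
    constructor <;> linarith
  have hmain := mul_meas_ge_le_integral_of_nonneg (μ := law d ρ)
    (Eventually.of_forall fun η : Env d =>
      sub_nonneg.2 (PolT_le_one β h η (slb d (τ + N) u s (R / 4)))) hint (1 / 2)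
  have hmain' : 1 / 2 * (law d ρ).real
      {η | 1 / 2 ≤ 1 - PolT β h η (slb d (τ + N) u s (R / 4))} ≤
      ∫ η, (1 - PolT β h η (slb d (τ + N) u s (R / 4))) ∂(law d ρ) := hmain
  have hsub : (law d ρ).real ((A1 ∩ (A2 ∩ A3)) \ A4) ≤ (law d ρ).real
      {η | 1 / 2 ≤ 1 - PolT β h η (slb d (τ + N) u s (R / 4))} := by
    refine measureReal_mono fun η hη => ?_
    have h1 := hkey η hη
    show 1 / 2 ≤ 1 - PolT β h η (slb d (τ + N) u s (R / 4))
    linarith
  linarith

end Pool.Agent.W_7d29a1_PK
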