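import Pool.Agent.W_7d29a1_D2.JoinM97
import Pool.Agent.W_7d29a1_D2.Blk35

/-!
Theorem PK, block (1): the upper tail at the length `N` passes to all lengths `l ≤ N` and to all
starting points (helper68).
-/

set_option autoImplicit false

namespace Pool.Agent.W_7d29a1_PK

open MeasureTheory ProbabilityTheory Filter Topology Pool.Agent.W_MP_7d29a1_pr
  Pool.Agent.W_7d29a1_h46 Pool.Agent.W_7d29a1_h46u Pool.Agent.W_7d29a1_D2
  Pool.Agent.W_7d29a1_D2.B35

variable {d : ℕ} {ρ : Measure ℝ} [IsProbabilityMeasure ρ]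

/-- The law of the shifted free energy. -/
lemma shX68 (β : ℝ) (h : Vec d) (t : ℕ) (x : Site d) (l : ℕ) {B : Set ℝ} (hB : MeasurableSet B) :
    (law d ρ).real {η : Env d | X β h (sh t x η) l ∈ B} =
      (law d ρ).real {η : Env d | X β h η l ∈ B} := by
  have hm : MeasurableSet {η : Env d | X β h η l ∈ B} := measurable_X β h l hB
  rw [measureReal_def, measureReal_def, ← (mp_sh (ρ := ρ) t x).measure_preimage
    hm.nullMeasurableSet]
  rfl

/-- The number of the end points. -/
lemma cardE68 (d l : ℕ) (a : ℝ) :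
    ((boxF d l).card : ℝ) * Real.exp (a - d * Real.log (2 * l + 1)) = Real.exp a := by
  have h1 : (0 : ℝ) < 2 * (l : ℝ) + 1 := by positivity
  rw [card_boxF, Real.exp_sub, Real.exp_nat_mul, Real.exp_log h1]
  push_cast
  field_simp

/-- **The upper tail of a shorter walk.** -/
theorem top68 (hd : 0 < d) (β : ℝ) (h : Vec d) {l N : ℕ} (hl : l ≤ N) {a T e δ : ℝ}
    (h0 : e ≤ (law d ρ).real {η | T ≤ X β h η (N - l)})
    (h1 : (law d ρ).real {η | a + T - d * Real.log (2 * l + 1) < X β h η N} ≤ δ) :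
    e * (law d ρ).real {η | a < X β h η l} ≤ δ := by
  classical
  obtain ⟨b, hb⟩ : ∃ b : ℝ, b = a - d * Real.log (2 * l + 1) := ⟨_, rfl⟩
  set S : Set (ℕ × Site d) := {p | p.1 ≤ l} with hS
  set Az : Site d → Set (Env d) := fun z => {η | wz97 β h η l z ≤ Real.exp b}ᶜ with hAz
  set Bz : Site d → Set (Env d) := fun z => {η | T ≤ X β h (sh l z η) (N - l)} with hBz
  have hA : ∀ z ∈ boxF d l, Ev97 S (Az z) := fun z _ =>
    (ev97_le (measurable_wz97 β h l z) (dependsOn_wz97 β h l z) _).compl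
  have hB : ∀ z ∈ boxF d l, Ev97 Sᶜ (Bz z) ∧ e ≤ (law d ρ).real (Bz z) := by
    intro z _
    refine ⟨ev97_ge ((measurable_X β h (N - l)).comp (measurable_sh l z)) ?_ _, ?_⟩
    · have h2 := dependsOn_ZT97 β h (Set.univ : Set (Fin (N - l) → Step d))
        {p | 1 ≤ p.1} fun q _ i hi => (show 1 ≤ i + 1 by omega)
      intro η η' hη
      show Real.log (ZT β h (sh l z η) Set.univ) = Real.log (ZT β h (sh l z η') Set.univ)
      congr 1
      refine h2 fun p hp => ?_
      refine hη _ ?_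
      have hp' : 1 ≤ p.1 := hp
      show ¬ (p.1 + l ≤ l)
      omega
    · have h2 := shX68 (ρ := ρ) β h l z (N - l) (B := Set.Ici T) measurableSet_Ici
      have h3 : (law d ρ).real (Bz z) = (law d ρ).real {η | T ≤ X β h η (N - l)} := h2
      rw [h3]
      exact h0
  have key := first97 (ρ := ρ) (boxF d l) hA hB Set.univ
    ⟨MeasurableSet.univ, fun _ _ _ => Iff.rfl⟩
  rw [Set.univ_inter, Set.univ_inter] at key
  have hδ : 0 ≤ δ := measureReal_nonneg.trans h1
  rcases le_or_gt 0 e with he | he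
  · have g1 : (law d ρ).real {η | a < X β h η l} ≤ (law d ρ).real (⋃ z ∈ boxF d l, Az z) := by
      refine measureReal_mono ?_ (measure_ne_top _ _)
      intro η hη
      by_contra hcon
      simp only [hAz, Set.mem_iUnion, exists_prop, not_exists, not_and, Set.mem_compl_iff,
        Set.mem_ofPred_eq, not_not] at hcon
      have h2 : Z β h η l ≤ Real.exp a := by
        rw [Z_eq_sum]
        have h3 : ∑ z ∈ boxF d l, PP β h η l z ≤ ∑ _z ∈ boxF d l, Real.exp b :=
          Finset.sum_le_sum fun z hz => hcon z hz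
        refine h3.trans ?_
        rw [Finset.sum_const, nsmul_eq_mul, hb, cardE68]
      have h4 : X β h η l ≤ a := by
        unfold X
        rw [Real.log_le_iff_le_exp (Z_pos hd _ _ _ _)]
        exact h2
      have h5 : a < X β h η l := hη
      linarith
    have g2 : (law d ρ).real (⋃ z ∈ boxF d l, (Az z ∩ Bz z)) ≤ δ := by
      refine (measureReal_mono ?_ (measure_ne_top _ _)).trans h1
      intro η hη
      simp only [Set.mem_iUnion, exists_prop] at hη
      obtain ⟨z, _, hzA, hzB⟩ := hη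
      have k1 : Real.exp b < wz97 β h η l z := not_le.1 hzA
      have k2 : T ≤ X β h (sh l z η) (N - l) := hzB
      have k3 : Real.exp T ≤ Z β h (sh l z η) (N - l) := by
        unfold X at k2
        rwa [Real.le_log_iff_exp_le (Z_pos hd _ _ _ _)] at k2
      have k4 := wz97_mul_le hd β h η hl z
      have k5 : Real.exp (b + T) < Z β h η N := by
        rw [Real.exp_add]
        refine lt_of_lt_of_le ?_ k4
        calc Real.exp b * Real.exp T < wz97 β h η l z * Real.exp T :=
              mul_lt_mul_of_pos_right k1 (Real.exp_pos _)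
          _ ≤ wz97 β h η l z * Z β h (sh l z η) (N - l) :=
              mul_le_mul_of_nonneg_left k3 (wz97_nonneg _ _ _ _ _)
      show a + T - d * Real.log (2 * l + 1) < Real.log (Z β h η N)
      rw [Real.lt_log_iff_exp_lt (Z_pos hd _ _ _ _)]
      have k6 : a + T - d * Real.log (2 * l + 1) = b + T := by rw [hb]; ring
      rw [k6]
      exact k5
    exact (mul_le_mul_of_nonneg_left g1 he).trans (key.trans g2)
  · exact (mul_nonpos_of_nonpos_of_nonneg he.le measureReal_nonneg).trans hδ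

/-- **All starting points, all lengths** (the event `G`). -/
theorem evG68 (β : ℝ) (h : Vec d) {N : ℕ} {L L' δ : ℝ}
    (h1 : ∀ l ≤ N, (law d ρ).real {η | l * L + L' < X β h η l} ≤ δ) :
    (law d ρ).real {η : Env d | ∃ t l : ℕ, t + l ≤ N ∧ ∃ x ∈ boxF d t,
      l * L + L' < X β h (sh t x η) l} ≤ ((N : ℝ) + 1) ^ 2 * (2 * N + 1) ^ d * δ := by
  classical
  have hδ : 0 ≤ δ := measureReal_nonneg.trans (h1 0 (Nat.zero_le _))
  have hsub : {η : Env d | ∃ t l : ℕ, t + l ≤ N ∧ ∃ x ∈ boxF d t,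
      l * L + L' < X β h (sh t x η) l} ⊆ ⋃ p ∈ (Finset.range (N + 1) ×ˢ Finset.range (N + 1)),
        ⋃ x ∈ boxF d p.1, {η : Env d | X β h (sh p.1 x η) p.2 ∈ Set.Ioi (p.2 * L + L')} := by
    rintro η ⟨t, l, htl, x, hx, hη⟩
    simp only [Set.mem_iUnion, exists_prop]
    refine ⟨(t, l), Finset.mem_product.2 ⟨Finset.mem_range.2 (show t < N + 1 by omega),
      Finset.mem_range.2 (show l < N + 1 by omega)⟩, x, hx, hη⟩
  refine (measureReal_mono hsub (measure_ne_top _ _)).trans ?_
  refine (measureReal_biUnion_finset_le _ _).trans ?_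
  have h2 : ∀ p ∈ (Finset.range (N + 1) ×ˢ Finset.range (N + 1)),
      (law d ρ).real (⋃ x ∈ boxF d p.1, {η : Env d | X β h (sh p.1 x η) p.2 ∈
        Set.Ioi (p.2 * L + L')}) ≤ (2 * N + 1) ^ d * δ := by
    intro p hp
    obtain ⟨hp1, hp2⟩ := Finset.mem_product.1 hp
    have hp1' : p.1 ≤ N := by have := Finset.mem_range.1 hp1; omega
    have hp2' : p.2 ≤ N := by have := Finset.mem_range.1 hp2; omega
    refine (measureReal_biUnion_finset_le _ _).trans ?_
    have h3 : ∀ x ∈ boxF d p.1, (law d ρ).real {η : Env d | X β h (sh p.1 x η) p.2 ∈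
        Set.Ioi (p.2 * L + L')} ≤ δ := by
      intro x _
      rw [shX68 β h p.1 x p.2 measurableSet_Ioi]
      exact h1 p.2 hp2'
    refine (Finset.sum_le_sum h3).trans ?_
    rw [Finset.sum_const, nsmul_eq_mul, card_boxF]
    push_cast
    refine mul_le_mul_of_nonneg_right ?_ hδ
    have h4 : (p.1 : ℝ) ≤ N := by exact_mod_cast hp1'
    have h5 : (0 : ℝ) ≤ p.1 := Nat.cast_nonneg _
    exact pow_le_pow_left₀ (by positivity) (by linarith) d
  refine (Finset.sum_le_sum h2).trans (le_of_eq ?_)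
  rw [Finset.sum_const, nsmul_eq_mul, Finset.card_product, Finset.card_range]
  push_cast
  ring

/-- **Block (1).** If all lengths `m ≤ N` have `X_m ≥ m L - 2` with probability at least `e`, and
`X_N > N L + Λ` with probability at most `δ`, then off an event of probability
`(N + 1) ^ 2 (2 N + 1) ^ d δ / e` one has `X_l ≤ l L + L'` for all lengths and all starting
points, `L' = Λ⁺ + d log (2 N + 1) + 2`. -/
theorem evTop68 (hd : 0 < d) (β : ℝ) (h : Vec d) {N : ℕ} {L Λ L' e δ : ℝ} (he : 0 < e)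
    (h0 : ∀ m ≤ N, e ≤ (law d ρ).real {η | m * L - 2 ≤ X β h η m})
    (h1 : (law d ρ).real {η | N * L + Λ < X β h η N} ≤ δ)
    (hL' : max Λ 0 + d * Real.log (2 * N + 1) + 2 ≤ L') :
    (∀ l ≤ N, (law d ρ).real {η | l * L + L' < X β h η l} ≤ δ / e) ∧
    (law d ρ).real {η : Env d | ∃ t l : ℕ, t + l ≤ N ∧ ∃ x ∈ boxF d t,
      l * L + L' < X β h (sh t x η) l} ≤ ((N : ℝ) + 1) ^ 2 * (2 * N + 1) ^ d * (δ / e) := by
  have h2 : ∀ l ≤ N, (law d ρ).real {η | l * L + L' < X β h η l} ≤ δ / e := by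
    intro l hl
    rw [le_div_iff₀ he, mul_comm]
    refine top68 hd β h hl (T := ((N - l : ℕ) : ℝ) * L - 2) (h0 (N - l) (Nat.sub_le _ _)) ?_
    refine (measureReal_mono ?_ (measure_ne_top _ _)).trans h1
    intro η hη
    have hη' : l * L + L' + (((N - l : ℕ) : ℝ) * L - 2) - d * Real.log (2 * l + 1) <
      X β h η N := hη
    show N * L + Λ < X β h η N
    refine lt_of_le_of_lt ?_ hη'
    rw [Nat.cast_sub hl]
    have k1 : Real.log (2 * (l : ℝ) + 1) ≤ Real.log (2 * (N : ℝ) + 1) := by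
      have k2 : (l : ℝ) ≤ N := by exact_mod_cast hl
      exact Real.log_le_log (by positivity) (by linarith)
    have k3 : (d : ℝ) * Real.log (2 * (l : ℝ) + 1) ≤ d * Real.log (2 * (N : ℝ) + 1) :=
      mul_le_mul_of_nonneg_left k1 (Nat.cast_nonneg _)
    have k4 := le_max_left Λ 0
    nlinarith
  exact ⟨h2, evG68 β h h2⟩

end Pool.Agent.W_7d29a1_PK
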