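import Pool.Agent.W_7d29a1_VT.Slab46
import Pool.Agent.W_7d29a1_PK.DefsLK5

/-!
`2 χ ≤ ν` for the lower exponents, at every tilt and every velocity: a large moment of the free
energy at one length forces the polymer out of every tube of radius `N ^ a`, `a < 2 x`, at the same
length (helper66).
-/

namespace Pool.Agent.W_7d29a1_PK.Two66

open MeasureTheory ProbabilityTheory Filter Topology Pool.Agent.W_MP_7d29a1_pr
  Pool.Agent.W_7d29a1_h46 Pool.Agent.W_7d29a1_h46u Pool.Agent.W_7d29a1_D2 Pool.Agent.W_7d29a1_V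

variable {d : ℕ} {ρ : Measure ℝ} [IsProbabilityMeasure ρ] {β : ℝ}

/-- Length by length: a narrow tube at the length `N` forbids a large moment at the length `N`. -/
theorem core66 (hd : 0 < d) (hρ : EM ρ) (h v : Vec d) {a x : ℝ}
    (ha : 0 < a) (ha1 : a < 1) (hax : a < 2 * x) {q : ℕ} (hq : 1 ≤ q) :
    ∃ Q : ℕ, ∃ N₀ : ℕ, ∀ N : ℕ, N₀ ≤ N →
      ∫ η, (1 - PolT β h η (tube d N v ((N : ℝ) ^ a))) ∂(law d ρ) ≤ (N : ℝ) ^ (-(Q : ℝ)) →
        ∫ η, |X β h η N - A ρ β h N| ^ q ∂(law d ρ) < (N : ℝ) ^ (x * q) := by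
  obtain ⟨u, hu1, hk⟩ : ∃ u : Vec d, ‖u‖ = 1 ∧ 1 ≤ |u ⟨0, hd⟩| :=
    ⟨EuclideanSpace.single ⟨0, hd⟩ (1 : ℝ), by simp, by simp⟩
  obtain ⟨ε, hε⟩ : ∃ ε : ℝ, ε = (x - a / 2) / 2 := ⟨_, rfl⟩
  have hε0 : 0 < ε := by
    rw [hε]
    linarith
  obtain ⟨Q, C₂, H₂⟩ := slbV96 hd hρ β ‖h‖ hk (spaceV46 hd hρ β ‖h‖) ε q hε0
  have hq0 : (0 : ℝ) < q := by exact_mod_cast hq
  have t1 : Tendsto (fun n : ℕ => (n : ℝ) ^ (ε * q)) atTop atTop :=
    (tendsto_rpow_atTop (by positivity)).comp tendsto_natCast_atTop_atTop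
  obtain ⟨N₁, hN₁⟩ := eventually_atTop.1 (t1.eventually_gt_atTop (|C₂| ^ q))
  refine ⟨Q, max 1 N₁, fun N hN hE => ?_⟩
  have hN1 : 1 ≤ N := (le_max_left _ _).trans hN
  have hNN1 : N₁ ≤ N := (le_max_right _ _).trans hN
  have hn1 : (1 : ℝ) ≤ N := by exact_mod_cast hN1
  have hn0 : (0 : ℝ) < N := by linarith
  have hW1 : 1 ≤ (N : ℝ) ^ a := Real.one_le_rpow hn1 ha.le
  have hWn : (N : ℝ) ^ a ≤ N := by
    have := Real.rpow_le_rpow_of_exponent_le hn1 ha1.le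
    rwa [Real.rpow_one] at this
  have hsub : tube d N v ((N : ℝ) ^ a) ⊆ slb d N u (inner ℝ u v) ((N : ℝ) ^ a) := by
    intro p hp i hi
    have h1 := hp i hi
    have h2 : inner ℝ u (emb (pos p i)) - i * inner ℝ u v =
        inner ℝ u (emb (pos p i) - (i : ℝ) • v) := by
      rw [inner_sub_right, inner_smul_right]
    rw [h2]
    calc |inner ℝ u (emb (pos p i) - (i : ℝ) • v)| ≤ ‖u‖ * ‖emb (pos p i) - (i : ℝ) • v‖ :=
          abs_real_inner_le_norm _ _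
      _ ≤ (N : ℝ) ^ a := by
          rw [hu1, one_mul]
          exact h1
  have hE2 : ∫ η, (1 - PolT β h η (slb d N u (inner ℝ u v) ((N : ℝ) ^ a))) ∂(law d ρ) ≤
      (N : ℝ) ^ (-(Q : ℝ)) := by
    refine le_trans (integral_mono (W_7d29a1_VT.Slab46.int_PolT β h _)
      (W_7d29a1_VT.Slab46.int_PolT β h _) fun η =>
        sub_le_sub_left (PolT_mono β h η hsub) 1) hE
  have h5 := H₂ h le_rfl (inner ℝ u v) N hN1 ((N : ℝ) ^ a) hW1 hWn hE2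
  have h8 : (C₂ * Real.sqrt ((N : ℝ) ^ a) * (N : ℝ) ^ ε) ^ q =
      C₂ ^ q * (N : ℝ) ^ ((a / 2 + ε) * q) := by
    rw [Real.sqrt_eq_rpow, ← Real.rpow_mul hn0.le, mul_assoc, ← Real.rpow_add hn0, mul_pow]
    congr 1
    rw [← Real.rpow_natCast, ← Real.rpow_mul hn0.le]
    congr 1
    ring
  rw [h8] at h5
  have h9 : (N : ℝ) ^ (x * q) = (N : ℝ) ^ (ε * q) * (N : ℝ) ^ ((a / 2 + ε) * q) := by
    rw [← Real.rpow_add hn0]
    congr 1
    have : x = a / 2 + 2 * ε := by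
      rw [hε]
      ring
    rw [this]
    ring
  have e3 : C₂ ^ q ≤ |C₂| ^ q := by
    rw [← abs_pow]
    exact le_abs_self _
  have e4 : |C₂| ^ q < (N : ℝ) ^ (ε * q) := hN₁ N hNN1
  have e5 : 0 < (N : ℝ) ^ ((a / 2 + ε) * q) := Real.rpow_pos_of_pos hn0 _
  rw [h9]
  exact lt_of_le_of_lt h5 (mul_lt_mul_of_pos_right (lt_of_le_of_lt e3 e4) e5)

/-- **`2 χ ≤ ν` for the lower exponents**, in the model `law d ρ`: every tilt, every velocity. -/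
theorem two66 (hd : 0 < d) (hρ : EM ρ) {h v : Vec d} {a x : ℝ} (ha : 0 < a) (ha1 : a < 1)
    (hax : a < 2 * x) (hF : FmL ρ β h x) : EtL ρ β h v a := by
  obtain ⟨q, hq, hF⟩ := hF
  obtain ⟨Q, N₀, H⟩ := core66 (ρ := ρ) (β := β) hd hρ h v ha ha1 hax hq
  refine ⟨Q, ?_⟩
  filter_upwards [hF, eventually_ge_atTop N₀] with N hN hN0
  refine ⟨N, le_rfl, ?_⟩
  by_contra hcon
  push Not at hcon
  have h1 := H N hN0 hcon.le
  linarith

end Pool.Agent.W_7d29a1_PK.Two66
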