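import Pool.Agent.W_7d29a1_D2.Defs46

/-!
A convex function has an upper bound of every order at most one at every point.
-/

namespace Pool.Agent.W_7d29a1_PK

open Filter Topology Pool.Agent.W_MP_7d29a1_pr Pool.Agent.W_7d29a1_h46 Pool.Agent.W_7d29a1_h46u
  Pool.Agent.W_7d29a1_D2

/-- Orders at most one: no hypothesis but the convexity. -/
theorem upG_le_one83 {d : ℕ} {L : Vec d → ℝ} (hL : ConvexOn ℝ Set.univ L) (h v : Vec d) {p : ℝ}
    (hp : p ≤ 1) : UpG L h v p := by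
  obtain ⟨K, t, ht, hK⟩ := hL.locallyLipschitz h
  obtain ⟨ε, hε, hball⟩ := Metric.mem_nhds_iff.1 ht
  refine ⟨K + ‖v‖, min (ε / 2) 1, by positivity, fun r hr => ?_⟩
  have hr1 : ‖r‖ ≤ ε / 2 := hr.trans (min_le_left _ _)
  have hr2 : ‖r‖ ≤ 1 := hr.trans (min_le_right _ _)
  have hmem : h + r ∈ t := hball (by
    rw [Metric.mem_ball, dist_eq_norm, add_sub_cancel_left]
    linarith)
  have hmem0 : h ∈ t := hball (Metric.mem_ball_self hε)
  have h1 := hK.dist_le_mul _ hmem _ hmem0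
  rw [Real.dist_eq, dist_eq_norm, add_sub_cancel_left] at h1
  have h2 := (abs_le.1 h1).2
  have h3 := (abs_le.1 (abs_real_inner_le_norm v r)).1
  have h4 : gap L h v r ≤ (K + ‖v‖) * ‖r‖ := by
    unfold gap
    nlinarith
  rcases (norm_nonneg r).eq_or_lt with h0 | h0
  · rw [← h0, mul_zero] at h4
    exact h4.trans (by positivity)
  · have h5 : ‖r‖ ≤ ‖r‖ ^ p := by
      calc ‖r‖ = ‖r‖ ^ (1 : ℝ) := (Real.rpow_one _).symm
        _ ≤ ‖r‖ ^ p := Real.rpow_le_rpow_of_exponent_ge h0 hr2 hp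
    exact h4.trans (mul_le_mul_of_nonneg_left h5 (by positivity))

/-- From the orders at least one to all orders below `γ`. -/
theorem ord83 {d : ℕ} {L : Vec d → ℝ} (hL : ConvexOn ℝ Set.univ L) (h v : Vec d) {γ : ℝ}
    (hp : ∀ p : ℝ, 1 ≤ p → p < γ → UpG L h v p) : ∀ p : ℝ, p < γ → UpG L h v p := by
  intro p hpγ
  rcases le_total 1 p with h1 | h1
  · exact hp p h1 hpγ
  · exact upG_le_one83 hL h v h1

end Pool.Agent.W_7d29a1_PK
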