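import Pool.Agent.W_7d29a1_PK.DefsPK2
import Pool.Agent.W_7d29a1_PK.Top68

/-!
Theorem PK, leaf UPL: the upper tails at shorter lengths (helper24).
-/

set_option autoImplicit false

namespace Pool.Agent.W_7d29a1_PK

open MeasureTheory ProbabilityTheory Filter Topology Pool.Agent.W_MP_7d29a1_pr
  Pool.Agent.W_7d29a1_h46 Pool.Agent.W_7d29a1_h46u Pool.Agent.W_7d29a1_D2
  Pool.Agent.W_7d29a1_D2.B35

/-- **UPL**: `UplPK` from `LowPK`. -/
theorem upl24 {d : ℕ} {ρ : Measure ℝ} [IsProbabilityMeasure ρ] (hd : 0 < d) {β : ℝ}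
    (hL : LowPK d ρ β) : UplPK d ρ β := by
  intro K
  obtain ⟨C, hC, N₀, H⟩ := hL K
  have hd0 : (0 : ℝ) ≤ d := Nat.cast_nonneg d
  refine ⟨C + 2 * d + 3, by linarith, max N₀ 3, fun N hN h hh l hl u => ?_⟩
  have hN0 : N₀ ≤ N := le_trans (le_max_left _ _) hN
  have hN3 : 3 ≤ N := le_trans (le_max_right _ _) hN
  have hN3' : (3 : ℝ) ≤ N := by exact_mod_cast hN3
  have hNp : (0 : ℝ) < N := by linarith
  have hlog1 : 1 ≤ Real.log N := by
    rw [Real.le_log_iff_exp_le hNp]
    linarith [Real.exp_one_lt_d9]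
  have hlow : (N : ℝ) ^ (-C) ≤
      (law d ρ).real {η | ((N - l : ℕ) : ℝ) * lam ρ β h - 2 ≤ X β h η (N - l)} := by
    refine (H N hN0 (N - l) (Nat.sub_le _ _) h hh).trans
      (measureReal_mono (fun η hη => ?_) (measure_ne_top _ _))
    have h1 : ((N - l : ℕ) : ℝ) * lam ρ β h - 2 < X β h η (N - l) := hη
    exact le_of_lt h1
  have key := top68 (ρ := ρ) hd β h hl
    (a := l * lam ρ β h + u + (C + 2 * d + 3) * Real.log N - 1) hlow le_rfl
  have hsub : (law d ρ).real {η | l * lam ρ β h + u + (C + 2 * d + 3) * Real.log N - 1 +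
      (((N - l : ℕ) : ℝ) * lam ρ β h - 2) - d * Real.log (2 * l + 1) < X β h η N} ≤
      (law d ρ).real {η | N * lam ρ β h + u ≤ X β h η N} := by
    refine measureReal_mono (fun η hη => ?_) (measure_ne_top _ _)
    have h1 : l * lam ρ β h + u + (C + 2 * d + 3) * Real.log N - 1 +
      (((N - l : ℕ) : ℝ) * lam ρ β h - 2) - d * Real.log (2 * l + 1) < X β h η N := hη
    have h2 : ((N - l : ℕ) : ℝ) = N - l := by push_cast [Nat.cast_sub hl]; ring
    rw [h2] at h1
    have hl' : (l : ℝ) ≤ N := by exact_mod_cast hl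
    have h3 : Real.log (2 * l + 1) ≤ 2 * Real.log N := by
      have h4 : Real.log ((N : ℝ) ^ 2) = 2 * Real.log N := by
        rw [Real.log_pow]; norm_num
      rw [← h4]
      refine Real.log_le_log (by positivity) ?_
      nlinarith
    have h5 : (d : ℝ) * Real.log (2 * l + 1) ≤ d * (2 * Real.log N) :=
      mul_le_mul_of_nonneg_left h3 hd0
    have h6 : 0 ≤ C * Real.log N := by positivity
    show N * lam ρ β h + u ≤ X β h η N
    nlinarith
  have hP0 : 0 ≤ (law d ρ).real {η | N * lam ρ β h + u ≤ X β h η N} := measureReal_nonneg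
  have h7 : (N : ℝ) ^ (-C) * (law d ρ).real {η | l * lam ρ β h + u +
      (C + 2 * d + 3) * Real.log N ≤ X β h η l} ≤
      (law d ρ).real {η | N * lam ρ β h + u ≤ X β h η N} := by
    refine le_trans (mul_le_mul_of_nonneg_left (measureReal_mono (fun η hη => ?_)
      (measure_ne_top _ _)) (by positivity)) (key.trans hsub)
    have h8 : l * lam ρ β h + u + (C + 2 * d + 3) * Real.log N ≤ X β h η l := hη
    show l * lam ρ β h + u + (C + 2 * d + 3) * Real.log N - 1 < X β h η l
    linarith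
  have h9 : (N : ℝ) ^ C * ((N : ℝ) ^ (-C) * (law d ρ).real {η | l * lam ρ β h + u +
      (C + 2 * d + 3) * Real.log N ≤ X β h η l}) = (law d ρ).real {η | l * lam ρ β h + u +
      (C + 2 * d + 3) * Real.log N ≤ X β h η l} := by
    rw [← mul_assoc, ← Real.rpow_add hNp, add_neg_cancel, Real.rpow_zero, one_mul]
  rw [← h9]
  refine (mul_le_mul_of_nonneg_left h7 (by positivity)).trans ?_
  refine mul_le_mul_of_nonneg_right ?_ hP0
  exact Real.rpow_le_rpow_of_exponent_le (by linarith) (by linarith)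

end Pool.Agent.W_7d29a1_PK
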