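import Pool.Agent.W_7d29a1_PK.LKu60
import Pool.Agent.W_7d29a1_PK.DefsLK5

/-!
Leaf UPPL: at a good scale the polymers of all the lengths up to the scale stay in the tube
(helper60).
-/

namespace Pool.Agent.W_7d29a1_PK.O60

open MeasureTheory ProbabilityTheory Filter Topology Pool.Agent.W_MP_7d29a1_pr
  Pool.Agent.W_7d29a1_h46 Pool.Agent.W_7d29a1_h46u Pool.Agent.W_7d29a1_D2
  Pool.Agent.W_7d29a1_D2.B35 Pool.Agent.W_7d29a1_OT

variable {d : ℕ} {ρ : Measure ℝ} [IsProbabilityMeasure ρ]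

/-- **The mass outside of the tube at the lengths up to `N`**, at a good scale. -/
theorem coreG60 (hd : 0 < d) (hρ : EM ρ) {β : ℝ} (hβ : 0 ≤ β) (hA : W_7d29a1_AM.AmpCN ρ β)
    {h v : Vec d} {x : ℝ} (hx : 0 < x) (hx1 : x < 1) {p : ℝ} (hp : 0 < p)
    (hE : UpG (lam ρ β) h v p) {a : ℝ} (ha : 1 + (p - 1) * x < p * a) (q : ℕ) :
    ∃ Q : ℝ, 0 < Q ∧ ∃ N₀ : ℕ, ∀ N : ℕ, N₀ ≤ N → GdL ρ β h x Q N → ∀ n : ℕ, n ≤ N →
        ∫ η, (1 - PolT β h η (tube d n v ((N : ℝ) ^ a))) ∂(law d ρ) ≤ (N : ℝ) ^ (-(q : ℝ)) := by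
  classical
  have hd0 : (0 : ℝ) < d := by exact_mod_cast hd
  have hd1 : (1 : ℝ) ≤ d := by exact_mod_cast hd
  have ha' : x + (1 - x) / p < a := by
    have h1 : p * (x + (1 - x) / p) < p * a := by
      rw [mul_add, mul_div_cancel₀ _ hp.ne']
      linarith
    exact lt_of_mul_lt_mul_left h1 hp.le
  obtain ⟨ε, hε, hε1⟩ : ∃ ε : ℝ, 0 < ε ∧ x + (1 - x) / p + ε ≤ a :=
    ⟨a - (x + (1 - x) / p), by linarith, by linarith⟩
  obtain ⟨C₃, δ₃, hδ₃, H₃⟩ := expP_of_upG hE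
  have hC₃ : 0 ≤ max C₃ 0 := le_max_right _ _
  -- `S = 11`
  obtain ⟨R, N₅, HS⟩ := sideS60 (d := d) (ρ := ρ) hd hρ hβ hA hx (S := 11) (by norm_num) q
  have hqn : (0 : ℝ) ≤ q := Nat.cast_nonneg q
  have hdn : (0 : ℝ) ≤ d := Nat.cast_nonneg d
  obtain ⟨Q, hQ⟩ : ∃ Q : ℝ, Q = |R| + q + d + 4 := ⟨_, rfl⟩
  have hQ0 : 0 < Q := by
    have := abs_nonneg R
    rw [hQ]
    linarith
  have hcast := tendsto_natCast_atTop_atTop (R := ℝ)
  have hxp : 0 < (1 - x) / p := div_pos (by linarith) hp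
  have ht : ∀ᶠ n : ℕ in atTop, (n : ℝ) ^ (-((1 - x) / p)) < δ₃ := by
    have h1 := (tendsto_rpow_neg_atTop hxp).comp hcast
    exact h1.eventually (gt_mem_nhds hδ₃)
  have hbig : ∀ᶠ n : ℕ in atTop, d * (max C₃ 0 + (11 + 2)) ≤ (n : ℝ) ^ ε :=
    ((tendsto_rpow_atTop hε).comp hcast).eventually (eventually_ge_atTop _)
  have hbig2 : ∀ᶠ n : ℕ in atTop, 4 * (3 ^ d * 2) + 4 * (4 * (d : ℝ)) + 4 ≤ (n : ℝ) :=
    hcast.eventually (eventually_ge_atTop _)
  obtain ⟨N₀, hN₀⟩ := eventually_atTop.1 (ht.and (hbig.and (hbig2.and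
    ((eventually_ge_atTop N₅).and (log_small60 1 ((q : ℝ) + 2) hx)))))
  refine ⟨Q, hQ0, N₀, fun N hN hup n hn => ?_⟩
  obtain ⟨b1, b2, b3, b6, b9⟩ := hN₀ N hN
  have h3d : (1 : ℝ) ≤ 3 ^ d := one_le_pow₀ (by norm_num)
  have hN8 : (8 : ℝ) ≤ N := by linarith
  have hN0 : (0 : ℝ) < N := by linarith
  have hN1 : (1 : ℝ) ≤ N := by linarith
  have hlog0 : 0 ≤ Real.log N := Real.log_nonneg hN1
  have hnN : (n : ℝ) ≤ N := by exact_mod_cast hn
  obtain ⟨U, hU⟩ : ∃ U : ℝ, U = (N : ℝ) ^ x := ⟨_, rfl⟩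
  have hU0 : 0 < U := by rw [hU]; exact Real.rpow_pos_of_pos hN0 _
  obtain ⟨L, hL⟩ : ∃ L : ℝ, L = lam ρ β h := ⟨_, rfl⟩
  rw [← hU] at b9
  -- (a) the upper tails
  have hupl : ∀ l : ℕ, l ≤ N → (law d ρ).real {η | l * L + 2 * U ≤ X β h η l} ≤
      (N : ℝ) ^ (-Q) := by
    intro l hl
    refine le_trans (measureReal_mono fun η (hη : l * L + 2 * U ≤ X β h η l) => ?_) (hup l hl)
    show (N : ℝ) ^ x < |X β h η l - l * lam ρ β h|
    rw [← hU, ← hL]
    have := le_abs_self (X β h η l - l * L)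
    linarith
  -- (b) the lower tails
  have hlo : ∀ l : ℕ, l ≤ N → (law d ρ).real {η | X β h η l ≤ l * L - 8 * U} ≤
      (N : ℝ) ^ (-Q) := by
    intro l hl
    refine le_trans (measureReal_mono fun η (hη : X β h η l ≤ l * L - 8 * U) => ?_) (hup l hl)
    show (N : ℝ) ^ x < |X β h η l - l * lam ρ β h|
    rw [← hU, ← hL]
    have := neg_abs_le (X β h η l - l * L)
    linarith
  -- the tilt
  obtain ⟨t, htdef⟩ : ∃ t : ℝ, t = (N : ℝ) ^ (-((1 - x) / p)) := ⟨_, rfl⟩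
  rw [← htdef] at b1
  have ht0 : 0 < t := by rw [htdef]; exact Real.rpow_pos_of_pos hN0 _
  obtain ⟨w, hw⟩ : ∃ w : ℝ, w = (N : ℝ) ^ a / d := ⟨_, rfl⟩
  obtain ⟨B, hB⟩ : ∃ B : ℝ, B = max C₃ 0 * t ^ p := ⟨_, rfl⟩
  have htp : 0 < t ^ p := Real.rpow_pos_of_pos ht0 _
  have hB0 : 0 ≤ B := by rw [hB]; positivity
  have hnB : N * B ≤ max C₃ 0 * U := by
    have h1 : (N : ℝ) * t ^ p = U := by
      have h2 : t ^ p = (N : ℝ) ^ (-(1 - x)) := by
        rw [htdef, ← Real.rpow_mul hN0.le]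
        congr 1
        field_simp
      rw [h2, hU]
      nth_rewrite 1 [← Real.rpow_one (N : ℝ)]
      rw [← Real.rpow_add hN0]
      congr 1
      ring
    calc N * B = max C₃ 0 * (N * t ^ p) := by rw [hB]; ring
      _ = max C₃ 0 * U := by rw [h1]
      _ ≤ _ := le_rfl
  have htw : N * B + (11 + 2) * U ≤ t * w := by
    have h1 : U * (N : ℝ) ^ ε / d ≤ t * w := by
      rw [hw, ← mul_div_assoc]
      refine div_le_div_of_nonneg_right ?_ hd0.le
      rw [htdef, hU, ← Real.rpow_add hN0, ← Real.rpow_add hN0]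
      exact Real.rpow_le_rpow_of_exponent_le hN1 (by linarith)
    have h2 : U * (d * (max C₃ 0 + (11 + 2))) / d ≤ U * (N : ℝ) ^ ε / d :=
      div_le_div_of_nonneg_right (mul_le_mul_of_nonneg_left b2 hU0.le) hd0.le
    have h3 : U * (d * (max C₃ 0 + (11 + 2))) / d = max C₃ 0 * U + (11 + 2) * U := by
      field_simp
    rw [h3] at h2
    linarith
  have hEt : ∀ j : Fin d, ∀ s : ℝ, |s| = t → lam ρ β (h + s • ej j) ≤
      lam ρ β h + v j * s + B := by
    intro j s hs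
    have h1 := H₃ j s (by rw [hs]; exact b1.le)
    rw [hs] at h1
    have h2 : C₃ * t ^ p ≤ max C₃ 0 * t ^ p :=
      mul_le_mul_of_nonneg_right (le_max_left _ _) htp.le
    rw [hB]
    linarith
  have hsg : ∀ b : Bool, |TubK74.sg b * t| = t := by
    intro b
    rw [abs_mul, TubK74.abs_sg, one_mul, abs_of_pos ht0]
  -- the bad sets of the far walks
  obtain ⟨Bd, hBd⟩ : ∃ Bd : ℕ × Fin d × Bool → Set (Env d), Bd = fun z =>
    {η | (∀ ξ : Env d, 0 < ∑ y ∈ FE v z.1 z.2.1 (TubK74.sg z.2.2 * t) w, PP β h ξ z.1 y) ∧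
      z.1 * L - 11 * U < UF β h (FE v z.1 z.2.1 (TubK74.sg z.2.2 * t) w) z.1 η} :=
    ⟨_, rfl⟩
  have hBdp : ∀ z ∈ (Finset.range (n + 1)) ×ˢ (Finset.univ : Finset (Fin d × Bool)),
      (law d ρ).real (Bd z) ≤ (N : ℝ) ^ (-((q + 2 : ℕ) : ℝ)) := by
    intro z hz
    have hz1 : z.1 ≤ n := Nat.lt_succ_iff.1 (Finset.mem_range.1 (Finset.mem_product.1 hz).1)
    rw [hBd]
    by_cases hpos : ∀ ξ : Env d, 0 < ∑ y ∈ FE v z.1 z.2.1 (TubK74.sg z.2.2 * t) w,
        PP β h ξ z.1 y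
    · have h1 := HS N b6 h v z.1 (hz1.trans hn) z.2.1 (TubK74.sg z.2.2 * t) w B hB0
        (hEt z.2.1 _ (hsg z.2.2)) (by rw [hsg, ← hU]; exact htw) hpos (by
          rw [← hU, ← hL]
          refine lt_of_le_of_lt (hupl z.1 (hz1.trans hn)) ?_
          refine Real.rpow_lt_rpow_of_exponent_lt (by linarith) ?_
          have h2 := le_abs_self R
          rw [hQ]
          linarith)
      rw [← hU, ← hL] at h1
      refine le_trans (measureReal_mono fun η hη => ?_) h1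
      exact hη.2
    · have h1 : {η : Env d | (∀ ξ : Env d, 0 < ∑ y ∈ FE v z.1 z.2.1
          (TubK74.sg z.2.2 * t) w, PP β h ξ z.1 y) ∧ z.1 * L - 11 * U <
            UF β h (FE v z.1 z.2.1 (TubK74.sg z.2.2 * t) w) z.1 η} = ∅ := by
        rw [Set.eq_empty_iff_forall_notMem]
        intro η hη
        exact hpos hη.1
      show (law d ρ).real {η : Env d | (∀ ξ : Env d, 0 < ∑ y ∈ FE v z.1 z.2.1
          (TubK74.sg z.2.2 * t) w, PP β h ξ z.1 y) ∧ z.1 * L - 11 * U <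
            UF β h (FE v z.1 z.2.1 (TubK74.sg z.2.2 * t) w) z.1 η} ≤ _
      rw [h1, measureReal_empty]
      exact Real.rpow_nonneg hN0.le _
  -- the bad sets of the futures
  obtain ⟨S2, hS2⟩ : ∃ S2 : ℕ × Site d → Set (Env d), S2 = fun z =>
      {η | ((n - z.1 : ℕ) : ℝ) * L + 2 * U ≤ X β h (sh z.1 z.2 η) (n - z.1)} := ⟨_, rfl⟩
  have hS2p : ∀ z ∈ (Finset.range (n + 1)) ×ˢ boxF d n, (law d ρ).real (S2 z) ≤
      (N : ℝ) ^ (-Q) := by
    intro z _
    rw [hS2]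
    have h1 : MeasurableSet {η : Env d | ((n - z.1 : ℕ) : ℝ) * L + 2 * U ≤ X β h η (n - z.1)} :=
      measurableSet_le measurable_const (measurable_X β h _)
    have h2 : (law d ρ).real {η | ((n - z.1 : ℕ) : ℝ) * L + 2 * U ≤
        X β h (sh z.1 z.2 η) (n - z.1)} = (law d ρ).real {η | ((n - z.1 : ℕ) : ℝ) * L + 2 * U ≤
        X β h η (n - z.1)} := real_shift80 h1 z.1 z.2
    show (law d ρ).real {η | ((n - z.1 : ℕ) : ℝ) * L + 2 * U ≤
        X β h (sh z.1 z.2 η) (n - z.1)} ≤ _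
    rw [h2]
    exact hupl (n - z.1) ((Nat.sub_le _ _).trans hn)
  obtain ⟨G, hG⟩ : ∃ G : Set (Env d), G = {η | (∀ z ∈ (Finset.range (n + 1)) ×ˢ boxF d n,
      η ∉ S2 z) ∧ (¬ X β h η n ≤ n * L - 8 * U) ∧
      ∀ z ∈ (Finset.range (n + 1)) ×ˢ (Finset.univ : Finset (Fin d × Bool)), η ∉ Bd z} :=
    ⟨_, rfl⟩
  have hnm1 : (n : ℝ) + 1 ≤ 2 * N := by linarith
  have hP2 : (N : ℝ) ^ (-((q : ℝ) + 2)) * (N * N) ≤ (N : ℝ) ^ (-(q : ℝ)) := by
    have h1 : (N : ℝ) * N = (N : ℝ) ^ (2 : ℝ) := by rw [Real.rpow_two, sq]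
    rw [h1, ← Real.rpow_add hN0]
    exact Real.rpow_le_rpow_of_exponent_le hN1 (by linarith)
  have hqpos : 0 ≤ (N : ℝ) ^ (-((q : ℝ) + 2)) := Real.rpow_nonneg hN0.le _
  have hGc : (law d ρ).real Gᶜ ≤ 3 / 4 * (N : ℝ) ^ (-(q : ℝ)) := by
    have h1 : Gᶜ ⊆ (⋃ z ∈ (Finset.range (n + 1)) ×ˢ boxF d n, S2 z) ∪
        ({η | X β h η n ≤ n * L - 8 * U} ∪
        ⋃ z ∈ (Finset.range (n + 1)) ×ˢ (Finset.univ : Finset (Fin d × Bool)), Bd z) := by
      intro η hη
      by_contra hcon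
      rw [Set.mem_union, Set.mem_union, not_or, not_or, Set.mem_iUnion₂, Set.mem_iUnion₂] at hcon
      obtain ⟨c1, c2, c3⟩ := hcon
      apply hη
      rw [hG]
      exact ⟨fun z hz hz2 => c1 ⟨z, hz, hz2⟩, c2, fun z hz hz2 => c3 ⟨z, hz, hz2⟩⟩
    have h2 : (law d ρ).real (⋃ z ∈ (Finset.range (n + 1)) ×ˢ
        (Finset.univ : Finset (Fin d × Bool)), Bd z) ≤ 1 / 4 * (N : ℝ) ^ (-(q : ℝ)) := by
      refine (measureReal_biUnion_finset_le _ _).trans ((Finset.sum_le_sum hBdp).trans ?_)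
      rw [Finset.sum_const, Finset.card_product, Finset.card_range, Finset.card_univ,
        Fintype.card_prod, Fintype.card_fin, Fintype.card_bool, nsmul_eq_mul]
      push_cast
      have h4 : ((n : ℝ) + 1) * (d * 2) ≤ 1 / 4 * (N * N) := by
        have h5 : ((n : ℝ) + 1) * (d * 2) ≤ (2 * N) * (d * 2) :=
          mul_le_mul_of_nonneg_right hnm1 (by positivity)
        have h6 : (4 * (4 * (d : ℝ))) * N ≤ N * N := mul_le_mul_of_nonneg_right (by
          have : (0 : ℝ) ≤ 4 * (3 ^ d * 2) := by positivity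
          linarith) hN0.le
        linarith
      calc ((n : ℝ) + 1) * (d * 2) * (N : ℝ) ^ (-((q : ℝ) + 2))
          ≤ 1 / 4 * (N * N) * (N : ℝ) ^ (-((q : ℝ) + 2)) :=
            mul_le_mul_of_nonneg_right h4 hqpos
        _ = 1 / 4 * ((N : ℝ) ^ (-((q : ℝ) + 2)) * (N * N)) := by ring
        _ ≤ _ := mul_le_mul_of_nonneg_left hP2 (by norm_num)
    have h3 : (law d ρ).real (⋃ z ∈ (Finset.range (n + 1)) ×ˢ boxF d n, S2 z) ≤
        1 / 4 * (N : ℝ) ^ (-(q : ℝ)) := by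
      refine (measureReal_biUnion_finset_le _ _).trans ((Finset.sum_le_sum hS2p).trans ?_)
      rw [Finset.sum_const, Finset.card_product, Finset.card_range, card_boxF, nsmul_eq_mul]
      push_cast
      have h4 : (2 * (n : ℝ) + 1) ^ d ≤ 3 ^ d * (N : ℝ) ^ d := by
        rw [← mul_pow]
        exact pow_le_pow_left₀ (by positivity) (by linarith) d
      have h5 : ((n : ℝ) + 1) * (2 * n + 1) ^ d ≤ (2 * N) * (3 ^ d * (N : ℝ) ^ d) :=
        mul_le_mul hnm1 h4 (by positivity) (by positivity)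
      have h6 : (N : ℝ) ^ (-Q) ≤ (N : ℝ) ^ (-((q : ℝ) + 2 + d)) :=
        Real.rpow_le_rpow_of_exponent_le hN1 (by
          have := abs_nonneg R
          rw [hQ]
          linarith)
      have h7 : (N : ℝ) ^ d * (N : ℝ) ^ (-((q : ℝ) + 2 + d)) = (N : ℝ) ^ (-((q : ℝ) + 2)) := by
        rw [← Real.rpow_natCast, ← Real.rpow_add hN0]
        congr 1
        ring
      have h8 : (4 * (3 ^ d * 2 : ℝ)) * N ≤ N * N := mul_le_mul_of_nonneg_right (by
          have : (0 : ℝ) ≤ 4 * (4 * (d : ℝ)) := by positivity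
          linarith) hN0.le
      calc ((n : ℝ) + 1) * (2 * n + 1) ^ d * (N : ℝ) ^ (-Q)
          ≤ (2 * N) * (3 ^ d * (N : ℝ) ^ d) * (N : ℝ) ^ (-((q : ℝ) + 2 + d)) :=
            mul_le_mul h5 h6 (Real.rpow_nonneg hN0.le _) (by positivity)
        _ = (3 ^ d * 2 * N) * ((N : ℝ) ^ d * (N : ℝ) ^ (-((q : ℝ) + 2 + d))) := by ring
        _ = (3 ^ d * 2 * N) * (N : ℝ) ^ (-((q : ℝ) + 2)) := by rw [h7]
        _ ≤ 1 / 4 * (N * N) * (N : ℝ) ^ (-((q : ℝ) + 2)) :=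
            mul_le_mul_of_nonneg_right (by linarith) hqpos
        _ = 1 / 4 * ((N : ℝ) ^ (-((q : ℝ) + 2)) * (N * N)) := by ring
        _ ≤ _ := mul_le_mul_of_nonneg_left hP2 (by norm_num)
    have h4 : (law d ρ).real {η | X β h η n ≤ n * L - 8 * U} ≤ 1 / 4 * (N : ℝ) ^ (-(q : ℝ)) := by
      refine (hlo n hn).trans ?_
      have h5 : (N : ℝ) ^ (-Q) ≤ (N : ℝ) ^ (-((q : ℝ) + 1)) :=
        Real.rpow_le_rpow_of_exponent_le hN1 (by
          have := abs_nonneg R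
          rw [hQ]
          linarith)
      have h6 : (N : ℝ) ^ (-((q : ℝ) + 1)) = (N : ℝ) ^ (-(q : ℝ)) / N := by
        rw [eq_div_iff hN0.ne']
        nth_rewrite 2 [← Real.rpow_one (N : ℝ)]
        rw [← Real.rpow_add hN0]
        congr 1
        ring
      rw [h6] at h5
      refine h5.trans ?_
      rw [div_le_iff₀ hN0]
      have h7 : 0 ≤ (N : ℝ) ^ (-(q : ℝ)) := Real.rpow_nonneg hN0.le _
      nlinarith
    refine (measureReal_mono h1).trans ((measureReal_union_le _ _).trans ?_)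
    have h5 := measureReal_union_le (μ := law d ρ) {η | X β h η n ≤ n * L - 8 * U}
      (⋃ z ∈ (Finset.range (n + 1)) ×ˢ (Finset.univ : Finset (Fin d × Bool)), Bd z)
    linarith
  have hGb : ∀ η ∈ G, 1 - PolT β h η (tube d n v ((N : ℝ) ^ a)) ≤
      1 / 4 * (N : ℝ) ^ (-(q : ℝ)) := by
    intro η hη
    rw [hG] at hη
    obtain ⟨g1, g2, g3⟩ := hη
    rw [not_le] at g2
    have hmid : ∀ i ≤ n, ∀ y ∈ boxF d n,
        X β h (sh i y η) (n - i) ≤ ((n - i : ℕ) : ℝ) * L + 2 * U := by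
      intro i hi y hy
      by_contra hc
      rw [not_le] at hc
      refine g1 (i, y) (Finset.mem_product.2 ⟨Finset.mem_range.2 (Nat.lt_succ_iff.2 hi), hy⟩) ?_
      rw [hS2]
      exact hc.le
    refine (one_sub_le hd β h η n v (r := (N : ℝ) ^ a) ht0).trans ?_
    rw [← hw]
    have h1 : ∀ i ∈ Finset.range (n + 1), ∑ j : Fin d,
        (Far β h η n i j v t w + Far β h η n i j v (-t) w) ≤ 2 * d * Real.exp (-U) := by
      intro i hi
      have hi' : i ≤ n := Nat.lt_succ_iff.1 (Finset.mem_range.1 hi)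
      have h2 : ∀ j ∈ (Finset.univ : Finset (Fin d)),
          Far β h η n i j v t w + Far β h η n i j v (-t) w ≤ 2 * Real.exp (-U) := by
        intro j _
        have h3 : ∀ b : Bool, Far β h η n i j v (TubK74.sg b * t) w ≤ Real.exp (-U) := by
          intro b
          have h4 := far_UF' (S := 11) hd j g2.le hmid hi' (w := w) (v := v)
            (t := TubK74.sg b * t) (fun hpos => by
              by_contra hc
              rw [not_le] at hc
              refine g3 (i, j, b) (Finset.mem_product.2 ⟨hi, Finset.mem_univ _⟩) ?_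
              rw [hBd]
              exact ⟨hpos, hc⟩)
          have h5 : (10 - 11) * U = -U := by ring
          rwa [h5] at h4
        have a1 := h3 true
        have a2 := h3 false
        have c1 : TubK74.sg true * t = t := by simp [TubK74.sg]
        have c2 : TubK74.sg false * t = -t := by simp [TubK74.sg]
        rw [c1] at a1
        rw [c2] at a2
        linarith
      refine (Finset.sum_le_sum h2).trans ?_
      rw [Finset.sum_const, Finset.card_univ, Fintype.card_fin, nsmul_eq_mul]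
      linarith
    refine (Finset.sum_le_sum h1).trans ?_
    rw [Finset.sum_const, Finset.card_range, nsmul_eq_mul]
    push_cast
    have h2 : Real.exp (-U) ≤ (N : ℝ) ^ (-((q : ℝ) + 2)) := by
      rw [Real.rpow_def_of_pos hN0]
      refine Real.exp_le_exp.2 ?_
      linarith
    have h4 : ((n : ℝ) + 1) * (2 * d) ≤ 1 / 4 * (N * N) := by
      have h5 : ((n : ℝ) + 1) * (2 * d) ≤ (2 * N) * (2 * d) :=
        mul_le_mul_of_nonneg_right hnm1 (by positivity)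
      have h6 : (4 * (4 * (d : ℝ))) * N ≤ N * N := mul_le_mul_of_nonneg_right (by
        have : (0 : ℝ) ≤ 4 * (3 ^ d * 2) := by positivity
        linarith) hN0.le
      linarith
    calc ((n : ℝ) + 1) * (2 * d * Real.exp (-U)) = ((n : ℝ) + 1) * (2 * d) * Real.exp (-U) := by
          ring
      _ ≤ 1 / 4 * (N * N) * (N : ℝ) ^ (-((q : ℝ) + 2)) :=
          mul_le_mul h4 h2 (Real.exp_pos _).le (by positivity)
      _ = 1 / 4 * ((N : ℝ) ^ (-((q : ℝ) + 2)) * (N * N)) := by ring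
      _ ≤ _ := mul_le_mul_of_nonneg_left hP2 (by norm_num)
  have hmain := TubW_split (μ := law d ρ)
    (f := fun η => 1 - PolT β h η (tube d n v ((N : ℝ) ^ a))) (fun η => by
      have := PolT_nonneg β h η (tube d n v ((N : ℝ) ^ a))
      linarith)
    (G := G) (b := 1 / 4 * (N : ℝ) ^ (-(q : ℝ)))
    (mul_nonneg (by norm_num) (Real.rpow_nonneg hN0.le _)) hGb (fun η => by
      have := PolT_le_one β h η (tube d n v ((N : ℝ) ^ a))
      linarith)
  linarith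

end Pool.Agent.W_7d29a1_PK.O60

namespace Pool.Agent.W_7d29a1_PK

open MeasureTheory ProbabilityTheory Filter Topology Pool.Agent.W_MP_7d29a1_pr
  Pool.Agent.W_7d29a1_h46 Pool.Agent.W_7d29a1_h46u Pool.Agent.W_7d29a1_D2

/-- **UPPL.** -/
theorem uppL60 {d : ℕ} {ρ : Measure ℝ} [IsProbabilityMeasure ρ] (hd : 0 < d) (hρ : EM ρ) {β : ℝ}
    (hβ : 0 ≤ β) (hA : W_7d29a1_AM.AmpCN ρ β) : UppL d ρ β := by
  intro h v p a y hp hy ha hE hpa q
  have hy1 : y < 1 := by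
    by_contra hc
    rw [not_lt] at hc
    nlinarith
  obtain ⟨Q, hQ, N₀, H⟩ := O60.coreG60 hd hρ hβ hA hy hy1 (by linarith : 0 < p) hE hpa (q + 1)
  refine ⟨Q, hQ, max N₀ 2, fun N hN hG n hn => ?_⟩
  have h1 := H N ((le_max_left _ _).trans hN) hG n hn
  have hN2 : 2 ≤ N := (le_max_right _ _).trans hN
  have hN2' : (1 : ℝ) < N := by exact_mod_cast hN2
  refine lt_of_le_of_lt h1 (Real.rpow_lt_rpow_of_exponent_lt hN2' ?_)
  push_cast
  linarith

end Pool.Agent.W_7d29a1_PK
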